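import Pool.Agent.P.MP_79de8b_nt.St

/-! Toolbox for the Mazur-Rubin variance theorem (MP_79de8b_nt). -/

open Complex UpperHalfPlane MeasureTheory Finset CongruenceSubgroup Filter Topology
open scoped Real MatrixGroups ComplexConjugate

noncomputable section
namespace MR

/-! ### The exponential -/

lemma ex_add (x y : ℝ) : ex (x + y) = ex x * ex y := by
  unfold ex; rw [← Complex.exp_add]; congr 1; push_cast; ring

@[simp] lemma ex_zero : ex 0 = 1 := by simp [ex]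

lemma ex_eq (x : ℝ) : ex x = cexp (((2 * π * x : ℝ) : ℂ) * Complex.I) := by
  unfold ex; congr 1; push_cast; ring

@[simp] lemma norm_ex (x : ℝ) : ‖ex x‖ = 1 := by rw [ex_eq, Complex.norm_exp_ofReal_mul_I]

lemma ex_ne_zero (x : ℝ) : ex x ≠ 0 := Complex.exp_ne_zero _

@[simp] lemma ex_int (k : ℤ) : ex k = 1 := by
  unfold ex
  rw [← Complex.exp_int_mul_two_pi_mul_I k]; congr 1; push_cast; ring

@[simp] lemma ex_nat (k : ℕ) : ex k = 1 := by simpa using ex_int k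

lemma ex_add_int (x : ℝ) (k : ℤ) : ex (x + k) = ex x := by rw [ex_add, ex_int, mul_one]

lemma conj_ex (x : ℝ) : conj (ex x) = ex (-x) := by
  unfold ex
  rw [← Complex.exp_conj]; congr 1
  simp only [map_mul, Complex.conj_ofReal, Complex.conj_I, map_ofNat]; push_cast; ring

lemma ex_mul_neg (x : ℝ) : ex x * ex (-x) = 1 := by rw [← ex_add]; simp

lemma ex_sub (x y : ℝ) : ex (x - y) = ex x * conj (ex y) := by
  rw [conj_ex, ← ex_add, sub_eq_add_neg]

lemma ex_nat_mul (n : ℕ) (x : ℝ) : ex (n * x) = ex x ^ n := by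
  unfold ex; rw [← Complex.exp_nat_mul]; congr 1; push_cast; ring

@[fun_prop] lemma continuous_ex : Continuous ex := by unfold ex; fun_prop

@[fun_prop] lemma measurable_ex : Measurable ex := continuous_ex.measurable

lemma ex_re (x : ℝ) : (ex x).re = Real.cos (2 * π * x) := by
  rw [ex_eq, Complex.exp_ofReal_mul_I_re]

lemma hasDerivAt_ex (x : ℝ) : HasDerivAt ex (2 * π * Complex.I * ex x) x := by
  have h : HasDerivAt (fun x : ℝ => 2 * π * Complex.I * (x : ℂ)) (2 * π * Complex.I) x := by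
    simpa using (Complex.ofRealCLM.hasDerivAt (x := x)).const_mul (2 * π * Complex.I)
  have := h.cexp
  unfold ex
  convert this using 1
  ring

lemma ex_eq_one_iff (x : ℝ) : ex x = 1 ↔ ∃ k : ℤ, x = k := by
  unfold ex
  rw [Complex.exp_eq_one_iff]
  constructor
  · rintro ⟨k, hk⟩
    refine ⟨k, ?_⟩
    have h2 : (2 * π * Complex.I : ℂ) ≠ 0 := Complex.two_pi_I_ne_zero
    have : (x : ℂ) = k := by
      apply mul_left_cancel₀ h2; rw [hk]; ring
    exact_mod_cast this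
  · rintro ⟨k, rfl⟩; exact ⟨k, by push_cast; ring⟩

lemma ex_div_eq_one_iff {c : ℕ} (hc : 0 < c) (a : ℤ) : ex ((a : ℝ) / c) = 1 ↔ (c : ℤ) ∣ a := by
  rw [ex_eq_one_iff]
  have hc' : (c : ℝ) ≠ 0 := by positivity
  constructor
  · rintro ⟨k, hk⟩
    refine ⟨k, ?_⟩
    rw [div_eq_iff hc'] at hk
    have : (a : ℝ) = ((c : ℤ) * k : ℤ) := by push_cast; linarith
    exact_mod_cast this
  · rintro ⟨k, rfl⟩; exact ⟨k, by push_cast; field_simp⟩

/-- `e(a/c)` depends only on `a` modulo `c`. -/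
lemma ex_congr {c : ℕ} {a b : ℤ} (h : a ≡ b [ZMOD c]) : ex ((a : ℝ) / c) = ex ((b : ℝ) / c) := by
  rcases Nat.eq_zero_or_pos c with rfl | hc
  · simp
  obtain ⟨k, hk⟩ := h.dvd
  have hc' : (c : ℝ) ≠ 0 := by positivity
  have : (b : ℝ) / c = a / c + k := by
    have : (b : ℝ) = a + c * k := by
      have : b = a + c * k := by linarith
      exact_mod_cast this
    rw [this]; field_simp
  rw [this, ex_add_int]

lemma ex_eq_stdAddChar {c : ℕ} [NeZero c] (a : ℤ) :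
    ex ((a : ℝ) / c) = ZMod.stdAddChar (a : ZMod c) := by
  rw [ZMod.stdAddChar_coe]; unfold ex; congr 1; push_cast; ring

/-- Orthogonality. -/
lemma sum_ex_range {c : ℕ} (hc : 0 < c) (h : ℤ) :
    ∑ j ∈ range c, ex ((h * j : ℤ) / c) = if (c : ℤ) ∣ h then (c : ℂ) else 0 := by
  have e : ∀ j : ℕ, ex ((h * j : ℤ) / c) = ex ((h : ℝ) / c) ^ j := fun j => by
    rw [← ex_nat_mul]; congr 1; push_cast; ring
  simp_rw [e]
  split_ifs with hd
  · rw [(ex_div_eq_one_iff hc h).2 hd]; simp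
  · have h1 : ex ((h : ℝ) / c) ≠ 1 := fun h1 => hd ((ex_div_eq_one_iff hc h).1 h1)
    rw [geom_sum_eq h1, ← ex_nat_mul]
    have hc' : (c : ℝ) ≠ 0 := by positivity
    rw [show (c : ℝ) * (h / c) = h by field_simp, ex_int]; simp

lemma integral_ex {P : ℝ} (hP : P ≠ 0) (k : ℤ) :
    ∫ x in (0 : ℝ)..P, ex (k * x / P) = if k = 0 then (P : ℂ) else 0 := by
  split_ifs with hk
  · simp [hk]
  · have hc : (2 * π * Complex.I * (k / P) : ℂ) ≠ 0 :=
      mul_ne_zero Complex.two_pi_I_ne_zero (div_ne_zero (by exact_mod_cast hk) (by exact_mod_cast hP))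
    have e : ∀ x : ℝ, ex (k * x / P) = cexp (2 * π * Complex.I * (k / P) * x) := fun x => by
      unfold ex; congr 1; push_cast; ring
    simp_rw [e]
    rw [integral_exp_mul_complex hc]
    have : (2 * π * Complex.I * (k / P) * P : ℂ) = k * (2 * π * Complex.I) := by
      have : (P : ℂ) ≠ 0 := by exact_mod_cast hP
      field_simp
    rw [this, Complex.exp_int_mul_two_pi_mul_I]; simp

/-! ### Reduced residues -/

lemma mem_un {c t : ℕ} : t ∈ un c ↔ t < c ∧ t.Coprime c := by simp [un]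

lemma card_un (c : ℕ) : (un c).card = c.totient := by
  unfold un; rw [Nat.totient_eq_card_coprime]; congr 1; ext t; simp [Nat.coprime_comm]

lemma mem_UU {N q ρ x : ℕ} : x ∈ UU N q ρ ↔ x < q * N ∧ x.Coprime (q * N) ∧ x ≡ ρ [MOD N] := by
  simp [UU, mem_un, and_assoc]

lemma iv_lt {c : ℕ} (hc : 0 < c) (t : ℕ) : iv t c < c := by
  have : NeZero c := ⟨hc.ne'⟩; exact ZMod.val_lt _

lemma cast_iv {c : ℕ} (hc : 0 < c) (t : ℕ) : ((iv t c : ℕ) : ZMod c) = (t : ZMod c)⁻¹ := by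
  have : NeZero c := ⟨hc.ne'⟩; exact ZMod.natCast_zmod_val _

lemma mul_iv {c t : ℕ} (hc : 0 < c) (h : t.Coprime c) : t * iv t c ≡ 1 [MOD c] := by
  rw [← ZMod.natCast_eq_natCast_iff]; push_cast
  rw [cast_iv hc]; exact ZMod.coe_mul_inv_eq_one t h

lemma mul_iv_int {c t : ℕ} (hc : 0 < c) (h : t.Coprime c) : (t : ℤ) * iv t c ≡ 1 [ZMOD c] := by
  have := Int.natCast_modEq_iff.2 (mul_iv hc h); push_cast at this; exact this

lemma iv_coprime {c t : ℕ} (hc : 0 < c) (h : t.Coprime c) : (iv t c).Coprime c :=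
  Nat.coprime_of_mul_modEq_one t (by rw [mul_comm]; exact mul_iv hc h)

lemma iv_mem_un {c t : ℕ} (hc : 0 < c) (h : t.Coprime c) : iv t c ∈ un c :=
  mem_un.2 ⟨iv_lt hc t, iv_coprime hc h⟩

lemma iv_congr {c t s : ℕ} (h : t ≡ s [MOD c]) : iv t c = iv s c := by
  unfold iv; rw [(ZMod.natCast_eq_natCast_iff _ _ _).2 h]

/-- Uniqueness of the inverse. -/
lemma iv_modEq_of_mul {c t s : ℕ} (hc : 0 < c) (h : t * s ≡ 1 [MOD c]) : iv t c ≡ s [MOD c] := by
  have ht : t.Coprime c := Nat.coprime_of_mul_modEq_one s h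
  calc iv t c = iv t c * 1 := (mul_one _).symm
    _ ≡ iv t c * (t * s) [MOD c] := (h.symm).mul_left _
    _ = (t * iv t c) * s := by ring
    _ ≡ 1 * s [MOD c] := (mul_iv hc ht).mul_right _
    _ = s := one_mul _

lemma iv_iv {c t : ℕ} (ht : t ∈ un c) : iv (iv t c) c = t := by
  obtain ⟨h1, h2⟩ := mem_un.1 ht
  have hc : 0 < c := by omega
  have := iv_modEq_of_mul (t := iv t c) (s := t) hc (by rw [mul_comm]; exact mul_iv hc h2)
  exact Nat.ModEq.eq_of_lt_of_lt this (iv_lt hc _) h1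

/-- Sums over reduced residues as sums over units. -/
lemma sum_un {M : Type*} [AddCommMonoid M] {c : ℕ} [NeZero c] (F : ℕ → M) :
    ∑ t ∈ un c, F t = ∑ u : (ZMod c)ˣ, F (u : ZMod c).val := by
  symm
  refine sum_bij (fun u _ => (u : ZMod c).val) (fun u _ => ?_) (fun u _ v _ h => ?_)
    (fun t ht => ?_) fun _ _ => rfl
  · exact mem_un.2 ⟨ZMod.val_lt _, ZMod.val_coe_unit_coprime u⟩
  · exact Units.ext (ZMod.val_injective _ h)
  · obtain ⟨h1, h2⟩ := mem_un.1 ht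
    exact ⟨ZMod.unitOfCoprime t h2, mem_univ _, by simp [ZMod.val_natCast, Nat.mod_eq_of_lt h1]⟩

lemma iv_val_unit {c : ℕ} [NeZero c] (u : (ZMod c)ˣ) :
    iv (u : ZMod c).val c = ((u⁻¹ : (ZMod c)ˣ) : ZMod c).val := by
  unfold iv; rw [ZMod.natCast_zmod_val, ZMod.inv_coe_unit]

/-- Kloosterman sums as sums over units. -/
lemma kl_eq {c : ℕ} [NeZero c] (w : ℕ → ℂ) (a b : ℤ) :
    kl w a b c = ∑ u : (ZMod c)ˣ, w (u : ZMod c).val *
      ZMod.stdAddChar ((a : ZMod c) * (u : ZMod c) + (b : ZMod c) * ((u⁻¹ : (ZMod c)ˣ) : ZMod c)) := by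
  unfold kl
  rw [sum_un]
  refine sum_congr rfl fun u _ => ?_
  rw [ex_eq_stdAddChar, iv_val_unit]; push_cast
  simp only [ZMod.natCast_zmod_val]

lemma norm_cls_le (ρ D t : ℕ) : ‖cls ρ D t‖ ≤ 1 := by unfold cls; split_ifs <;> simp

lemma cls_one (ρ : ℕ) : cls ρ 1 = fun _ => 1 := by
  ext t; simp [cls, Nat.modEq_one]

lemma norm_kl_le {w : ℕ → ℂ} (hw : ∀ t, ‖w t‖ ≤ 1) (a b : ℤ) (c : ℕ) : ‖kl w a b c‖ ≤ c := by
  unfold kl
  refine (norm_sum_le _ _).trans ?_
  calc _ ≤ ∑ _t ∈ un c, (1 : ℝ) := sum_le_sum fun t _ => by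
        rw [norm_mul, norm_ex, mul_one]; exact hw t
    _ ≤ c := by
        rw [sum_const, card_un, nsmul_eq_mul, mul_one]; exact_mod_cast Nat.totient_le c

/-! ### Conjugation -/

@[simp] lemma cj_true (z : ℂ) : cj true z = conj z := rfl
@[simp] lemma cj_false (z : ℂ) : cj false z = z := rfl
@[simp] lemma norm_cj (ε : Bool) (z : ℂ) : ‖cj ε z‖ = ‖z‖ := by cases ε <;> simp
@[simp] lemma cj_cj (ε : Bool) (z : ℂ) : cj ε (cj ε z) = z := by cases ε <;> simp
@[simp] lemma cj_ofReal (ε : Bool) (x : ℝ) : cj ε (x : ℂ) = x := by cases ε <;> simp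
@[simp] lemma cj_zero (ε : Bool) : cj ε 0 = 0 := by cases ε <;> simp
@[simp] lemma cj_one (ε : Bool) : cj ε 1 = 1 := by cases ε <;> simp
lemma cj_natCast (ε : Bool) (n : ℕ) : cj ε (n : ℂ) = n := by cases ε <;> simp
lemma cj_mul (ε : Bool) (z w : ℂ) : cj ε (z * w) = cj ε z * cj ε w := by cases ε <;> simp
lemma cj_add (ε : Bool) (z w : ℂ) : cj ε (z + w) = cj ε z + cj ε w := by cases ε <;> simp
lemma cj_sub (ε : Bool) (z w : ℂ) : cj ε (z - w) = cj ε z - cj ε w := by cases ε <;> simp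
lemma cj_neg (ε : Bool) (z : ℂ) : cj ε (-z) = -cj ε z := by cases ε <;> simp
lemma cj_div (ε : Bool) (z w : ℂ) : cj ε (z / w) = cj ε z / cj ε w := by cases ε <;> simp
lemma cj_pow (ε : Bool) (z : ℂ) (n : ℕ) : cj ε (z ^ n) = cj ε z ^ n := by cases ε <;> simp
lemma cj_comm (ε s : Bool) (z : ℂ) : cj ε (cj s z) = cj s (cj ε z) := by
  cases ε <;> cases s <;> simp
lemma cj_sum {ι : Type*} (ε : Bool) (s : Finset ι) (f : ι → ℂ) :
    cj ε (∑ i ∈ s, f i) = ∑ i ∈ s, cj ε (f i) := by cases ε <;> simp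
lemma cj_ex (ε : Bool) (x : ℝ) : cj ε (ex x) = ex (-(sg ε * x)) := by
  cases ε <;> simp [sg, conj_ex]
lemma sg_eq (ε : Bool) : sg ε = 1 ∨ sg ε = -1 := by cases ε <;> simp [sg]
@[fun_prop] lemma continuous_cj (ε : Bool) : Continuous (cj ε) := by
  cases ε
  · exact continuous_id
  · exact Complex.continuous_conj
lemma integral_cj {α : Type*} [MeasurableSpace α] (μ : Measure α) (ε : Bool) (f : α → ℂ) :
    ∫ x, cj ε (f x) ∂μ = cj ε (∫ x, f x ∂μ) := by
  cases ε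
  · rfl
  · exact integral_conj

/-! ### Averages -/

lemma av_add (s : Finset ℕ) (φ ψ : ℕ → ℂ) : av s (fun x => φ x + ψ x) = av s φ + av s ψ := by
  unfold av; rw [sum_add_distrib, add_div]
lemma av_sub (s : Finset ℕ) (φ ψ : ℕ → ℂ) : av s (fun x => φ x - ψ x) = av s φ - av s ψ := by
  unfold av; rw [sum_sub_distrib, sub_div]
lemma av_neg (s : Finset ℕ) (φ : ℕ → ℂ) : av s (fun x => -φ x) = -av s φ := by
  unfold av; rw [sum_neg_distrib, neg_div]
lemma av_const_mul (s : Finset ℕ) (c : ℂ) (φ : ℕ → ℂ) :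
    av s (fun x => c * φ x) = c * av s φ := by
  unfold av; rw [← mul_sum, mul_div_assoc]
lemma av_sum {ι : Type*} (s : Finset ℕ) (t : Finset ι) (φ : ι → ℕ → ℂ) :
    av s (fun x => ∑ i ∈ t, φ i x) = ∑ i ∈ t, av s (φ i) := by
  unfold av; rw [sum_comm, sum_div]
lemma av_cj (ε : Bool) (s : Finset ℕ) (φ : ℕ → ℂ) :
    av s (fun x => cj ε (φ x)) = cj ε (av s φ) := by
  unfold av; rw [cj_div, cj_sum, cj_natCast]
lemma av_congr {s : Finset ℕ} {φ ψ : ℕ → ℂ} (h : ∀ x ∈ s, φ x = ψ x) : av s φ = av s ψ := by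
  unfold av; rw [sum_congr rfl h]
lemma av_const {s : Finset ℕ} (hs : s.Nonempty) (c : ℂ) : av s (fun _ => c) = c := by
  unfold av
  have : (s.card : ℂ) ≠ 0 := by exact_mod_cast hs.card_pos.ne'
  rw [sum_const, nsmul_eq_mul]; field_simp
lemma norm_av_le_sum (s : Finset ℕ) (φ : ℕ → ℂ) : ‖av s φ‖ ≤ (∑ x ∈ s, ‖φ x‖) / s.card := by
  unfold av; rw [norm_div, Complex.norm_natCast]; gcongr; exact norm_sum_le _ _
lemma norm_av_le {s : Finset ℕ} {φ : ℕ → ℂ} {B : ℝ} (hB : 0 ≤ B) (h : ∀ x ∈ s, ‖φ x‖ ≤ B) :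
    ‖av s φ‖ ≤ B := by
  refine (norm_av_le_sum s φ).trans ?_
  rcases s.eq_empty_or_nonempty with rfl | hs
  · simpa using hB
  rw [div_le_iff₀ (by exact_mod_cast hs.card_pos)]
  calc _ ≤ ∑ _x ∈ s, B := sum_le_sum h
    _ = _ := by rw [sum_const, nsmul_eq_mul, mul_comm]

/-! ### The upper half plane -/

instance : Countable SL(2, ℤ) := by
  have : Countable (Matrix (Fin 2) (Fin 2) ℤ) := inferInstanceAs (Countable (Fin 2 → Fin 2 → ℤ))
  exact inferInstanceAs (Countable {A : Matrix (Fin 2) (Fin 2) ℤ // A.det = 1})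

lemma coe_ofComplex {w : ℂ} (hw : 0 < w.im) : ((ofComplex w : ℍ) : ℂ) = w := by
  rw [ofComplex_apply_of_im_pos hw]

lemma coe_pnt (x : ℝ) {y : ℝ} (hy : 0 < y) : ((pnt x y : ℍ) : ℂ) = x + y * Complex.I :=
  coe_ofComplex (by simpa using hy)

lemma pnt_re (x : ℝ) {y : ℝ} (hy : 0 < y) : (pnt x y).re = x := by
  rw [← UpperHalfPlane.coe_re, coe_pnt x hy]; simp

lemma pnt_im (x : ℝ) {y : ℝ} (hy : 0 < y) : (pnt x y).im = y := by
  rw [← UpperHalfPlane.coe_im, coe_pnt x hy]; simp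

lemma pnt_re_im (z : ℍ) : pnt z.re z.im = z := by
  apply UpperHalfPlane.ext
  rw [coe_pnt _ z.im_pos]; exact Complex.re_add_im _

lemma continuousOn_ofComplex : ContinuousOn (fun w : ℂ => ofComplex w) {w | 0 < w.im} :=
  fun _ hw => (contMDiffAt_ofComplex (n := 0) hw).continuousAt.continuousWithinAt

/-- `ofComplex ∘ F` is continuous when `F` takes values in the upper half plane. -/
lemma continuous_ofComplex_comp {α : Type*} [TopologicalSpace α] {F : α → ℂ} (hF : Continuous F)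
    (h : ∀ a, 0 < (F a).im) : Continuous fun a => ofComplex (F a) :=
  continuousOn_ofComplex.comp_continuous hF h

lemma measurable_ofComplex : Measurable (fun w : ℂ => ofComplex w) := by
  classical
  have hs : MeasurableSet {w : ℂ | 0 < w.im} :=
    (isOpen_lt continuous_const Complex.continuous_im).measurableSet
  have h2 : ContinuousOn (fun w : ℂ => ofComplex w) {w | 0 < w.im}ᶜ := by
    refine (continuousOn_const (c := ofComplex 0)).congr fun w hw => ?_
    exact ofComplex_apply_eq_of_im_nonpos (not_lt.1 hw) (by simp)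
  have := ContinuousOn.measurable_piecewise continuousOn_ofComplex h2 hs
  rwa [Set.piecewise_same] at this

lemma measurable_pnt : Measurable fun p : ℝ × ℝ => pnt p.1 p.2 :=
  measurable_ofComplex.comp (by fun_prop)

lemma smul_HH (g : SL(2, ℤ)) (z : HH) : g • z = (g • z.1, g • z.2) := rfl

lemma coe_smul_sl (g : SL(2, ℤ)) (z : ℍ) : ((g • z : ℍ) : ℂ) =
    ((g 0 0 : ℤ) * (z : ℂ) + (g 0 1 : ℤ)) / ((g 1 0 : ℤ) * (z : ℂ) + (g 1 1 : ℤ)) := by
  rw [UpperHalfPlane.coe_specialLinearGroup_apply]; simp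

lemma den_ne_zero (g : SL(2, ℤ)) (z : ℍ) : ((g 1 0 : ℤ) * (z : ℂ) + (g 1 1 : ℤ)) ≠ 0 := by
  have := UpperHalfPlane.denom_ne_zero (g : GL (Fin 2) ℝ) z
  simpa [UpperHalfPlane.denom] using this

lemma det_sl (g : SL(2, ℤ)) : g 0 0 * g 1 1 - g 0 1 * g 1 0 = 1 := by
  have := g.det_coe; rwa [Matrix.det_fin_two] at this

lemma im_smul_sl (g : SL(2, ℤ)) (z : ℍ) :
    (g • z).im = z.im / ‖(g 1 0 : ℤ) * (z : ℂ) + (g 1 1 : ℤ)‖ ^ 2 := by
  rw [ModularGroup.im_smul_eq_div_normSq, Complex.normSq_eq_norm_sq]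
  simp [UpperHalfPlane.denom]

lemma coe_T_zpow_smul (n : ℤ) (z : ℍ) : ((ModularGroup.T ^ n • z : ℍ) : ℂ) = z + n :=
  ModularGroup.coe_T_zpow_smul_eq z

lemma Fam.pos {N : ℕ} (Φ : Fam N) : 0 < N := (Φ.ser 1).pos

lemma Fam.one_le {N : ℕ} (Φ : Fam N) : 1 ≤ Φ.K := (Φ.ser 1).one

/-! ### The divisor function and the unit of loss -/

lemma tau_nonneg (n : ℕ) : 0 ≤ tau n := Nat.cast_nonneg _

lemma one_le_tau {n : ℕ} (hn : 0 < n) : 1 ≤ tau n := by
  unfold tau; exact_mod_cast card_pos.2 ⟨1, by simp [hn.ne']⟩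

lemma tau_le_self (n : ℕ) : tau n ≤ n := by
  unfold tau; exact_mod_cast Nat.card_divisors_le_self n

lemma tau_le_of_dvd {m n : ℕ} (hn : 0 < n) (h : m ∣ n) : tau m ≤ tau n := by
  unfold tau; exact_mod_cast card_le_card (Nat.divisors_subset_of_dvd hn.ne' h)

lemma tau_mul_le (m n : ℕ) : tau (m * n) ≤ tau m * tau n := by
  unfold tau; rw [Nat.divisors_mul]; exact_mod_cast card_mul_le

lemma two_le_tau {q : ℕ} (hq : 2 ≤ q) : 2 ≤ tau q := by
  unfold tau
  have : ({1, q} : Finset ℕ) ⊆ q.divisors := by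
    intro x hx; simp only [mem_insert, mem_singleton] at hx
    rcases hx with rfl | rfl <;> simp <;> omega
  have h2 := card_le_card this
  rw [card_pair (by omega)] at h2
  exact_mod_cast h2

lemma exists_tau_pow_le (e : ℕ) : ∃ C : ℝ, 1 ≤ C ∧ ∀ n : ℕ, 1 ≤ n → tau n ^ e ≤ C * n := by
  obtain ⟨c, hc1, hc⟩ : ∃ c : ℝ, 1 ≤ c ∧ ∀ a : ℕ, ((a : ℝ) + 1) ^ e ≤ c * 2 ^ a := by
    refine ⟨2 * (e.factorial * 2 ^ e), ?_, fun a => ?_⟩
    · have : (1 : ℝ) ≤ e.factorial := by exact_mod_cast e.factorial_pos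
      have : (1 : ℝ) ≤ 2 ^ e := one_le_pow₀ (by norm_num)
      nlinarith
    have h1 := Real.pow_div_factorial_le_exp (((a : ℝ) + 1) / 2) (by positivity) e
    have h2 : Real.exp (((a : ℝ) + 1) / 2) ≤ 2 ^ (a + 1) := by
      rw [show ((a : ℝ) + 1) / 2 = ((a + 1 : ℕ) : ℝ) * (1 / 2) by push_cast; ring, Real.exp_nat_mul]
      gcongr
      have := Real.log_two_gt_d9
      rw [← Real.le_log_iff_exp_le (by norm_num)]; linarith
    rw [div_le_iff₀ (by positivity), div_pow, div_le_iff₀ (by positivity)] at h1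
    calc _ ≤ _ := h1
      _ ≤ 2 ^ (a + 1) * e.factorial * 2 ^ e := by gcongr
      _ = _ := by ring
  refine ⟨c ^ (2 ^ e), one_le_pow₀ hc1, fun n hn => ?_⟩
  have hn : n ≠ 0 := by omega
  unfold tau
  rw [Nat.card_divisors hn]
  have h1 : (n : ℝ) = ∏ p ∈ n.primeFactors, (p : ℝ) ^ n.factorization p := by
    conv_lhs => rw [← Nat.prod_factorization_pow_eq_self hn]
    rw [Finsupp.prod]; push_cast; rfl
  rw [h1]
  push_cast
  rw [← prod_pow]
  calc ∏ p ∈ n.primeFactors, ((n.factorization p : ℝ) + 1) ^ e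
      ≤ ∏ p ∈ n.primeFactors, ((if p < 2 ^ e then c else 1) * (p : ℝ) ^ n.factorization p) := by
        refine prod_le_prod (fun _ _ => by positivity) fun p hp => ?_
        have hp2 : (2 : ℝ) ≤ p := by exact_mod_cast (Nat.prime_of_mem_primeFactors hp).two_le
        split_ifs with h
        · exact (hc _).trans (by gcongr)
        · have h3 : ((n.factorization p : ℝ) + 1) ≤ 2 ^ n.factorization p := by
            exact_mod_cast Nat.lt_two_pow_self
          have h4 : (2 : ℝ) ^ e ≤ p := by exact_mod_cast not_lt.1 h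
          calc _ ≤ ((2 : ℝ) ^ n.factorization p) ^ e := by gcongr
            _ = (2 ^ e) ^ n.factorization p := by rw [← pow_mul, ← pow_mul, mul_comm]
            _ ≤ _ := by rw [one_mul]; gcongr
    _ = (∏ p ∈ n.primeFactors, (if p < 2 ^ e then c else 1)) *
        ∏ p ∈ n.primeFactors, (p : ℝ) ^ n.factorization p := prod_mul_distrib
    _ ≤ _ := by
      gcongr
      rw [prod_ite, prod_const_one, mul_one, prod_const]
      refine pow_le_pow_right₀ hc1 ?_
      calc _ ≤ (range (2 ^ e)).card :=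
            card_le_card fun p hp => mem_range.2 (mem_filter.1 hp).2
        _ = _ := card_range _

lemma sum_inv_le_log (Y : ℕ) : ∑ n ∈ Icc 1 Y, (n : ℝ)⁻¹ ≤ 1 + Real.log Y := by
  induction Y with
  | zero => simp
  | succ Y ih =>
    rw [sum_Icc_succ_top (by omega)]
    rcases Nat.eq_zero_or_pos Y with rfl | hY
    · simp
    have hY' : (0 : ℝ) < Y := by exact_mod_cast hY
    have h3 : Real.log Y - Real.log (Y + 1) ≤ -((Y : ℝ) + 1)⁻¹ := by
      rw [← Real.log_div (by positivity) (by positivity)]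
      refine (Real.log_le_sub_one_of_pos (by positivity)).trans (le_of_eq ?_)
      field_simp; ring
    push_cast; linarith

lemma one_le_log {q : ℕ} (hq : 3 ≤ q) : 1 ≤ Real.log q := by
  rw [Real.le_log_iff_exp_le (by positivity)]
  have := Real.exp_one_lt_d9
  have : (3 : ℝ) ≤ q := by exact_mod_cast hq
  linarith

lemma log_le_Lam {q : ℕ} (hq : 3 ≤ q) : Real.log q ≤ Lam q := by
  have h1 := one_le_log hq
  have h2 := one_le_tau (n := q) (by omega)
  unfold Lam; nlinarith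

lemma tau_le_Lam {q : ℕ} (hq : 3 ≤ q) : tau q ≤ Lam q := by
  have h1 := one_le_log hq
  have h2 := one_le_tau (n := q) (by omega)
  unfold Lam; nlinarith

lemma two_le_Lam {q : ℕ} (hq : 3 ≤ q) : 2 ≤ Lam q := (two_le_tau (by omega)).trans (tau_le_Lam hq)

lemma one_le_Lam {q : ℕ} (hq : 3 ≤ q) : 1 ≤ Lam q := by linarith [two_le_Lam hq]

lemma Lam_pos {q : ℕ} (hq : 3 ≤ q) : 0 < Lam q := by linarith [two_le_Lam hq]

lemma Lam_pow_mono {q : ℕ} (hq : 3 ≤ q) {j k : ℕ} (h : j ≤ k) : Lam q ^ j ≤ Lam q ^ k :=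
  pow_le_pow_right₀ (one_le_Lam hq) h

/-- Constants are absorbed in powers of `Lam`. -/
lemma exists_le_Lam_pow (C : ℝ) : ∃ k : ℕ, ∀ q : ℕ, 3 ≤ q → C ≤ Lam q ^ k := by
  obtain ⟨k, hk⟩ := pow_unbounded_of_one_lt C (one_lt_two (α := ℝ))
  exact ⟨k, fun q hq => hk.le.trans (pow_le_pow_left₀ (by norm_num) (two_le_Lam hq) k)⟩

lemma tendsto_Lam : Tendsto Lam atTop atTop :=
  tendsto_atTop_mono' _ ((eventually_ge_atTop 3).mono fun _ hq => log_le_Lam hq)
    (Real.tendsto_log_atTop.comp tendsto_natCast_atTop_atTop)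

/-- Powers of `Lam q` are smaller than any power of `q`. -/
lemma tendsto_Lam_pow_div (k : ℕ) {δ : ℝ} (hδ : 0 < δ) :
    Tendsto (fun q : ℕ => Lam q ^ k / (q : ℝ) ^ δ) atTop (𝓝 0) := by
  obtain ⟨e, he⟩ := exists_nat_gt (2 / δ)
  have he0 : (0 : ℝ) < e := lt_trans (by positivity) he
  obtain ⟨C, hC1, hC⟩ := exists_tau_pow_le (k * e)
  have h1 : Tendsto (fun q : ℕ => C * (Real.log q ^ (k : ℝ) / (q : ℝ) ^ (δ / 2))) atTop
      (𝓝 (C * 0)) :=
    (((isLittleO_log_rpow_rpow_atTop (k : ℝ) (half_pos hδ)).tendsto_div_nhds_zero).comp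
      tendsto_natCast_atTop_atTop).const_mul C
  rw [mul_zero] at h1
  refine squeeze_zero' ((eventually_ge_atTop 3).mono fun q hq => by
    have := Lam_pos hq; positivity) ((eventually_ge_atTop 3).mono fun q hq => ?_) h1
  have hq1 : (1 : ℝ) ≤ q := by exact_mod_cast (by omega : 1 ≤ q)
  have hl := one_le_log hq
  have ht := tau_nonneg q
  have h2 : tau q ^ k ≤ C * (q : ℝ) ^ (δ / 2) := by
    have he1 : e ≠ 0 := by exact_mod_cast he0.ne'
    refine le_of_pow_le_pow_left₀ he1 (by positivity) ?_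
    rw [← pow_mul, mul_pow]
    refine (hC q (by omega)).trans ?_
    gcongr
    · exact le_self_pow₀ hC1 he1
    · rw [← Real.rpow_natCast, ← Real.rpow_mul (by positivity)]
      refine Real.self_le_rpow_of_one_le hq1 ?_
      rw [div_lt_iff₀ hδ] at he; linarith
  have h3 : (q : ℝ) ^ δ = (q : ℝ) ^ (δ / 2) * (q : ℝ) ^ (δ / 2) := by
    rw [← Real.rpow_add (by positivity)]; ring_nf
  have h4 : (0 : ℝ) < (q : ℝ) ^ (δ / 2) := by positivity
  unfold Lam
  rw [mul_pow, h3, Real.rpow_natCast, div_le_iff₀ (by positivity)]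
  calc _ ≤ C * (q : ℝ) ^ (δ / 2) * Real.log q ^ k := by gcongr
    _ = _ := by field_simp

lemma eventually_Lam_pow_le (k : ℕ) {δ e : ℝ} (hδ : 0 < δ) (he : 0 < e) :
    ∀ᶠ q : ℕ in atTop, Lam q ^ k ≤ e * (q : ℝ) ^ δ := by
  filter_upwards [(tendsto_Lam_pow_div k hδ).eventually (gt_mem_nhds he), eventually_ge_atTop 1]
    with q h hq
  have : (0 : ℝ) < (q : ℝ) ^ δ := Real.rpow_pos_of_pos (by exact_mod_cast hq) _
  rw [div_lt_iff₀ this] at h; exact h.le

end MR
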