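import Pool.Agent.P.MP_79de8b_nt.Basic

/-! Twisted multiplicativity and scaling of Kloosterman sums. -/

open Complex Finset
open scoped Real ComplexConjugate

noncomputable section
namespace MR
namespace KM

lemma sum_crt {r c : ℕ} (hr : 0 < r) (hc : 0 < c) (h : r.Coprime c) (F G : ℕ → ℂ) :
    ∑ t ∈ un (r * c), F (t % r) * G (t % c) = (∑ t ∈ un r, F t) * ∑ t ∈ un c, G t := by
  rw [sum_mul_sum, ← sum_product']
  refine sum_bij (fun t _ => (t % r, t % c)) (fun t ht => ?_) (fun t ht s hs e => ?_)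
    (fun p hp => ?_) fun _ _ => rfl
  · obtain ⟨_, h2⟩ := mem_un.1 ht
    obtain ⟨h3, h4⟩ := Nat.coprime_mul_iff_right.1 h2
    refine mem_product.2 ⟨mem_un.2 ⟨Nat.mod_lt _ hr, ?_⟩, mem_un.2 ⟨Nat.mod_lt _ hc, ?_⟩⟩
    · exact (ZMod.coprime_mod_iff_coprime t r).2 h3
    · exact (ZMod.coprime_mod_iff_coprime t c).2 h4
  · simp only [Prod.mk.injEq] at e
    exact Nat.ModEq.eq_of_lt_of_lt ((Nat.modEq_and_modEq_iff_modEq_mul h).1 ⟨e.1, e.2⟩)
      (mem_un.1 ht).1 (mem_un.1 hs).1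
  · obtain ⟨h1, h2⟩ := mem_product.1 hp
    obtain ⟨a1, a2⟩ := mem_un.1 h1
    obtain ⟨b1, b2⟩ := mem_un.1 h2
    have e1 : (Nat.chineseRemainder h p.1 p.2 : ℕ) % r = p.1 := by
      rw [(Nat.chineseRemainder h p.1 p.2).2.1, Nat.mod_eq_of_lt a1]
    have e2 : (Nat.chineseRemainder h p.1 p.2 : ℕ) % c = p.2 := by
      rw [(Nat.chineseRemainder h p.1 p.2).2.2, Nat.mod_eq_of_lt b1]
    refine ⟨Nat.chineseRemainder h p.1 p.2, mem_un.2
      ⟨Nat.chineseRemainder_lt_mul h _ _ hr.ne' hc.ne', Nat.coprime_mul_iff_right.2 ⟨?_, ?_⟩⟩,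
      Prod.ext e1 e2⟩
    · rw [← ZMod.coprime_mod_iff_coprime, e1]; exact a2
    · rw [← ZMod.coprime_mod_iff_coprime, e2]; exact b2

lemma ex_split {r c : ℕ} (hr : 0 < r) (hc : 0 < c) (h : r.Coprime c) (n : ℤ) :
    ex ((n : ℝ) / (r * c : ℕ)) =
      ex (((n * iv c r : ℤ) : ℝ) / r) * ex (((n * iv r c : ℤ) : ℝ) / c) := by
  have h1 : c * iv c r + r * iv r c ≡ 1 [MOD r * c] := by
    refine (Nat.modEq_and_modEq_iff_modEq_mul h).1 ⟨?_, ?_⟩
    · simpa using (mul_iv hr h.symm).add ((Nat.modEq_zero_iff_dvd).2 (dvd_mul_right r (iv r c)))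
    · simpa using ((Nat.modEq_zero_iff_dvd).2 (dvd_mul_right c (iv c r))).add (mul_iv hc h)
  have h2 : n ≡ n * (c * iv c r + r * iv r c) [ZMOD (r * c : ℕ)] := by
    have := (Int.natCast_modEq_iff.2 h1).mul_left n
    push_cast at this ⊢
    simpa using this.symm
  rw [ex_congr h2, ← ex_add]
  congr 1
  have : (r : ℝ) ≠ 0 := by positivity
  have : (c : ℝ) ≠ 0 := by positivity
  push_cast; field_simp

lemma iv_mod {r m t : ℕ} (hm : 0 < m) (hr : r ∣ m) (ht : t.Coprime m) :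
    (iv t m : ℤ) ≡ iv (t % r) r [ZMOD r] := by
  have hr0 : 0 < r := Nat.pos_of_dvd_of_pos hr hm
  refine Int.natCast_modEq_iff.2 (iv_modEq_of_mul hr0 ?_).symm
  exact ((Nat.mod_modEq t r).mul_right _).trans ((mul_iv hm ht).of_dvd hr)

lemma phase {r m t : ℕ} (hm : 0 < m) (hr : r ∣ m) (ht : t.Coprime m) (a b k : ℤ) :
    (a * t + b * iv t m) * k ≡ a * k * (t % r : ℕ) + b * k * iv (t % r) r [ZMOD r] := by
  have h1 : (t : ℤ) ≡ (t % r : ℕ) [ZMOD r] := Int.natCast_modEq_iff.2 (Nat.mod_modEq t r).symm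
  have := ((h1.mul_left (a * k)).add ((iv_mod hm hr ht).mul_left (b * k)))
  rwa [show a * k * t + b * k * iv t m = (a * t + b * iv t m) * k by ring] at this

lemma cls_congr {ρ D t s : ℕ} (h : t ≡ s [MOD D]) : cls ρ D t = cls ρ D s := by
  unfold cls
  exact if_congr ⟨fun h1 => h.symm.trans h1, fun h1 => h.trans h1⟩ rfl rfl

lemma km2 (r c D E ρ : ℕ) (a b : ℤ) (hr : 0 < r) (hc : 0 < c) (h : r.Coprime c) (hD : D ∣ c)
    (hE : E ∣ r) : kl (cls ρ (E * D)) a b (r * c) =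
      kl (cls ρ E) (a * iv c r) (b * iv c r) r * kl (cls ρ D) (a * iv r c) (b * iv r c) c := by
  unfold kl
  rw [← sum_crt hr hc h]
  refine sum_congr rfl fun t ht => ?_
  have ht2 := (mem_un.1 ht).2
  have hm := Nat.mul_pos hr hc
  have hED : E.Coprime D := (h.coprime_dvd_left hE).coprime_dvd_right hD
  rw [ex_split hr hc h, ex_congr (phase hm (dvd_mul_right r c) ht2 a b _),
    ex_congr (phase hm (dvd_mul_left c r) ht2 a b _),
    cls_congr ((Nat.mod_modEq t r).of_dvd hE), cls_congr ((Nat.mod_modEq t c).of_dvd hD)]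
  have : cls ρ (E * D) t = cls ρ E t * cls ρ D t := by
    unfold cls
    simp only [← Nat.modEq_and_modEq_iff_modEq_mul hED]
    by_cases h1 : t ≡ ρ [MOD E] <;> by_cases h2 : t ≡ ρ [MOD D] <;> simp [h1, h2]
  rw [this]; ring

lemma mul_mem {c s t : ℕ} (hc : 0 < c) (hs : s.Coprime c) (ht : t ∈ un c) : s * t % c ∈ un c :=
  mem_un.2 ⟨Nat.mod_lt _ hc,
    (ZMod.coprime_mod_iff_coprime _ c).2 (Nat.Coprime.mul_left hs (mem_un.1 ht).2)⟩

lemma mul_back {c s s' t : ℕ} (h : s' * s ≡ 1 [MOD c]) (ht : t ∈ un c) :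
    s' * (s * t % c) % c = t := by
  have h1 : s' * (s * t % c) ≡ t [MOD c] := by
    calc s' * (s * t % c) ≡ s' * (s * t) [MOD c] := (Nat.mod_modEq _ _).mul_left _
      _ = s' * s * t := by ring
      _ ≡ 1 * t [MOD c] := h.mul_right _
      _ = t := one_mul _
  rw [h1, Nat.mod_eq_of_lt (mem_un.1 ht).1]

lemma km3 (c D ρ s : ℕ) (a b : ℤ) (hc : 0 < c) (hD : D ∣ c) (hs : s.Coprime c) :
    kl (cls ρ D) (s * a) b c = kl (cls (s * ρ) D) a (s * b) c := by
  unfold kl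
  refine sum_nbij' (fun t => s * t % c) (fun t => iv s c * t % c) (fun t ht => mul_mem hc hs ht)
    (fun t ht => mul_mem hc (iv_coprime hc hs) ht)
    (fun t ht => mul_back (by rw [mul_comm]; exact mul_iv hc hs) ht)
    (fun t ht => mul_back (mul_iv hc hs) ht) fun t ht => ?_
  have ht2 := (mem_un.1 ht).2
  have h1 : (s * t % c) ≡ s * t [MOD c] := Nat.mod_modEq _ _
  have h2 : iv t c ≡ s * iv (s * t % c) c [MOD c] := by
    refine iv_modEq_of_mul hc ?_
    rw [show t * (s * iv (s * t % c) c) = s * t * iv (s * t % c) c by ring]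
    exact (h1.symm.mul_right _).trans (mul_iv hc (mem_un.1 (mul_mem hc hs ht)).2)
  congr 1
  · rw [cls_congr (h1.of_dvd hD)]
    unfold cls
    refine if_congr ⟨fun h => h.mul_left _, fun h => ?_⟩ rfl rfl
    exact Nat.ModEq.cancel_left_of_coprime (hs.coprime_dvd_right hD).symm h
  · refine ex_congr ?_
    have e1 := (Int.natCast_modEq_iff.2 h1).symm.mul_left a
    have e2 := (Int.natCast_modEq_iff.2 h2).mul_left b
    have := e1.add e2
    rw [Nat.cast_mul, Nat.cast_mul] at this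
    rw [show (s : ℤ) * a * t = a * (s * t) by ring,
      show (s : ℤ) * b * iv (s * t % c) c = b * (s * iv (s * t % c) c) by ring]
    exact this

lemma km4 (c D ρ : ℕ) (a b : ℤ) (hc : 0 < c) (hD : D ∣ c) (hρ : ρ.Coprime D) :
    kl (cls ρ D) a b c = kl (cls (iv ρ D) D) b a c := by
  unfold kl
  have hD0 : 0 < D := Nat.pos_of_dvd_of_pos hD hc
  refine sum_nbij' (fun t => iv t c) (fun t => iv t c) (fun t ht => iv_mem_un hc (mem_un.1 ht).2)
    (fun t ht => iv_mem_un hc (mem_un.1 ht).2) (fun t ht => iv_iv ht) (fun t ht => iv_iv ht)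
    fun t ht => ?_
  have h1 : t * iv t c ≡ 1 [MOD D] := (mul_iv hc (mem_un.1 ht).2).of_dvd hD
  rw [iv_iv ht, add_comm (b * _)]
  congr 1
  unfold cls
  refine if_congr ⟨fun h => ?_, fun h => ?_⟩ rfl rfl
  · exact (iv_modEq_of_mul hD0 ((h.symm.mul_right _).trans h1)).symm
  · calc t = t * 1 := (mul_one _).symm
      _ ≡ t * (ρ * iv ρ D) [MOD D] := (mul_iv hD0 hρ).symm.mul_left _
      _ ≡ t * (ρ * iv t c) [MOD D] := (h.symm.mul_left _).mul_left _
      _ = t * iv t c * ρ := by ring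
      _ ≡ 1 * ρ [MOD D] := h1.mul_right _
      _ = ρ := one_mul _

lemma km5 (c : ℕ) (w : ℕ → ℂ) (a a' b b' : ℤ) (ha : a ≡ a' [ZMOD c]) (hb : b ≡ b' [ZMOD c]) :
    kl w a b c = kl w a' b' c := by
  unfold kl
  exact sum_congr rfl fun t _ => by rw [ex_congr ((ha.mul_right _).add (hb.mul_right _))]

lemma km6 (c : ℕ) (b u : ℤ) (hc : 0 < c) (hu : IsCoprime u c) :
    ∑ m ∈ range c, ‖kl (fun _ => 1) (m * u) b c‖ ^ 2 ≤ (c : ℝ) ^ 2 := by
  have key : ((∑ m ∈ range c, ‖kl (fun _ => 1) (m * u) b c‖ ^ 2 : ℝ) : ℂ) =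
      ((c * (un c).card : ℝ) : ℂ) := by
    push_cast
    simp_rw [← Complex.mul_conj', kl, map_sum, sum_mul_sum, one_mul, ← ex_sub]
    rw [sum_comm, mul_comm, ← nsmul_eq_mul, ← sum_const]
    refine sum_congr rfl fun t ht => ?_
    rw [sum_comm]
    have e : ∀ s ∈ un c, ∑ m ∈ range c, ex ((((m : ℤ) * u * t + b * iv t c : ℤ) : ℝ) / c -
        (((m : ℤ) * u * s + b * iv s c : ℤ) : ℝ) / c) = if t = s then (c : ℂ) else 0 := by
      intro s hs
      have e1 : ∀ m : ℕ, ex ((((m : ℤ) * u * t + b * iv t c : ℤ) : ℝ) / c -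
          (((m : ℤ) * u * s + b * iv s c : ℤ) : ℝ) / c) =
          ex ((u * (t - s) * m : ℤ) / c) * ex (((b * iv t c - b * iv s c : ℤ) : ℝ) / c) := by
        intro m
        rw [← ex_add]; congr 1; push_cast; ring
      simp_rw [e1]
      rw [← sum_mul, sum_ex_range hc]
      by_cases h : t = s
      · subst h; simp
      · rw [if_neg h, if_neg, zero_mul]
        intro hd
        have h2 : (s : ℤ) ≡ t [ZMOD c] := Int.modEq_iff_dvd.2 (hu.symm.dvd_of_dvd_mul_left hd)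
        exact h (Nat.ModEq.eq_of_lt_of_lt (Int.natCast_modEq_iff.1 h2) (mem_un.1 hs).1
          (mem_un.1 ht).1).symm
    rw [sum_congr rfl e, sum_ite_eq, if_pos ht]
  have h2 : ((un c).card : ℝ) ≤ c := by rw [card_un]; exact_mod_cast Nat.totient_le c
  rw [Complex.ofReal_injective key, sq]
  gcongr

end KM

theorem km : S_KM :=
  ⟨fun r c D ρ a b hr hc h hD => by
      simpa [cls_one] using KM.km2 r c D 1 ρ a b hr hc h hD (one_dvd r),
    KM.km2, KM.km3, KM.km4, KM.km5, KM.km6⟩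

end MR
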