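import Pool.Agent.P.MP_79de8b_nt.Basic

/-! Kloosterman sums to prime power moduli (MP_79de8b_nt, package PP0). -/

open Complex Finset
open scoped Real ComplexConjugate

noncomputable section
namespace MR
namespace PP0

/-- Number of points of a residue class. -/
lemma card_cls {c d : ℕ} (hd : 0 < d) (hdc : d ∣ c) (r : ℤ) :
    ((range c).filter fun t : ℕ => (d : ℤ) ∣ (t : ℤ) - r).card ≤ c / d := by
  rw [← card_range (c / d)]
  refine card_le_card_of_injOn (fun t => t / d) (fun t ht => ?_) (fun t ht t' ht' h => ?_)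
  · have h1 := mem_range.1 (mem_filter.1 ht).1
    exact mem_coe.2 (mem_range.2 (Nat.div_lt_div_of_lt_of_dvd hdc h1))
  · have h1 := (mem_filter.1 ht).2
    have h2 := (mem_filter.1 ht').2
    have h3 : (d : ℤ) ∣ (t' : ℤ) - t := by
      have := h2.sub h1
      rwa [show (t' : ℤ) - r - (t - r) = t' - t by ring] at this
    have h4 : t % d = t' % d := (Nat.modEq_iff_dvd.2 h3)
    have h5 : t / d = t' / d := h
    rw [← Nat.div_add_mod t d, ← Nat.div_add_mod t' d, h4, h5]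

/-- The substitution `t ↦ t (1 + m s)`. -/
lemma avg1 {c m D : ℕ} (hc : 0 < c) (hD : D ∣ c) (hm : D ∣ m) (h3 : c ∣ m ^ 3) (ρ : ℕ) (a b : ℤ)
    (s : ℕ) : kl (cls ρ D) a b c = ∑ t ∈ un c, cls ρ D t * ex (((a * t + b * iv t c : ℤ) : ℝ) / c) *
      ex ((((a * t - b * iv t c) * m * s + b * iv t c * m ^ 2 * s ^ 2 : ℤ) : ℝ) / c) := by
  haveI : NeZero c := ⟨hc.ne'⟩
  have hm3 : (m : ZMod c) ^ 3 = 0 := by
    have := (ZMod.natCast_eq_zero_iff (m ^ 3) c).2 h3
    exact_mod_cast this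
  let us : (ZMod c)ˣ := Units.mkOfMulEqOne (1 + (m : ZMod c) * s) (1 - m * s + m ^ 2 * s ^ 2)
    (by linear_combination (s : ZMod c) ^ 3 * hm3)
  have h1 : (us : ZMod c) = 1 + (m : ZMod c) * s := rfl
  have h2 : ((us⁻¹ : (ZMod c)ˣ) : ZMod c) = 1 - m * s + m ^ 2 * s ^ 2 := rfl
  rw [kl_eq, sum_un, ← Equiv.sum_comp (Equiv.mulRight us)]
  refine sum_congr rfl fun u _ => ?_
  rw [ex_eq_stdAddChar, ex_eq_stdAddChar, iv_val_unit, mul_assoc, ← AddChar.map_add_eq_mul]
  push_cast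
  simp only [ZMod.natCast_zmod_val, Equiv.coe_mulRight, mul_inv_rev, Units.val_mul, h1, h2]
  congr 1
  · have h4 : ((u : ZMod c) * (1 + (m : ZMod c) * s)).val ≡ (u : ZMod c).val * (1 + m * s)
        [MOD c] := by
      rw [← ZMod.natCast_eq_natCast_iff]; push_cast
      simp only [ZMod.natCast_zmod_val]
    have h5 : (u : ZMod c).val * (1 + m * s) ≡ (u : ZMod c).val [MOD D] := by
      have : m * s ≡ 0 [MOD D] := (Nat.modEq_zero_iff_dvd).2 (hm.mul_right s)
      simpa using ((Nat.ModEq.refl 1).add this).mul_left (u : ZMod c).val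
    have h6 := (h4.of_dvd hD).trans h5
    unfold cls
    exact if_congr ⟨fun h => h6.symm.trans h, fun h => h6.trans h⟩ rfl rfl
  · congr 1; ring

/-- Averaging over the substitutions. -/
lemma avg2 {c m D n : ℕ} (hc : 0 < c) (hD : D ∣ c) (hm : D ∣ m) (h3 : c ∣ m ^ 3) (ρ : ℕ) (a b : ℤ)
    (P : ℕ → Prop) [DecidablePred P] (M : ℝ)
    (hG : ∀ t ∈ un c, ‖∑ s ∈ range n,
      ex ((((a * t - b * iv t c) * m * s + b * iv t c * m ^ 2 * s ^ 2 : ℤ) : ℝ) / c)‖ ≤
        if P t then M else 0) :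
    n * ‖kl (cls ρ D) a b c‖ ≤ M * ((un c).filter P).card := by
  have h1 : (n : ℂ) * kl (cls ρ D) a b c = ∑ t ∈ un c,
      cls ρ D t * ex (((a * t + b * iv t c : ℤ) : ℝ) / c) * ∑ s ∈ range n,
      ex ((((a * t - b * iv t c) * m * s + b * iv t c * m ^ 2 * s ^ 2 : ℤ) : ℝ) / c) := by
    simp_rw [mul_sum]
    rw [sum_comm, ← sum_congr rfl fun s _ => avg1 hc hD hm h3 ρ a b s]
    simp
  have h2 : (n : ℝ) * ‖kl (cls ρ D) a b c‖ = ‖(n : ℂ) * kl (cls ρ D) a b c‖ := by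
    rw [norm_mul, Complex.norm_natCast]
  rw [h2, h1]
  refine (norm_sum_le _ _).trans ?_
  calc _ ≤ ∑ t ∈ un c, (if P t then M else 0) := by
        refine sum_le_sum fun t ht => ?_
        rw [norm_mul, norm_mul, norm_ex, mul_one]
        exact (mul_le_of_le_one_left (norm_nonneg _) (norm_cls_le _ _ _)).trans (hG t ht)
    _ = _ := by rw [← sum_filter, sum_const, nsmul_eq_mul, mul_comm]

lemma sum_range_zmod {n : ℕ} [NeZero n] (f : ZMod n → ℂ) :
    ∑ s ∈ range n, f s = ∑ x : ZMod n, f x := by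
  refine sum_nbij' (fun s => (s : ZMod n)) (fun x => x.val) (fun _ _ => mem_univ _)
    (fun x _ => mem_range.2 (ZMod.val_lt x)) (fun s hs => ?_) (fun x _ => ZMod.natCast_zmod_val x)
    fun _ _ => rfl
  exact ZMod.val_cast_of_lt (mem_range.1 hs)

lemma gauss_shift {n : ℕ} [NeZero n] (A B h : ZMod n) (hh : B * h = 0) :
    ∑ x : ZMod n, ZMod.stdAddChar (A * x + B * x ^ 2) =
      ZMod.stdAddChar (A * h) * ∑ x : ZMod n, ZMod.stdAddChar (A * x + B * x ^ 2) := by
  rw [mul_sum]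
  conv_lhs => rw [← Equiv.sum_comp (Equiv.addRight h)]
  refine sum_congr rfl fun x _ => ?_
  rw [← AddChar.map_add_eq_mul]
  congr 1
  simp only [Equiv.coe_addRight]
  linear_combination (2 * x + h) * hh

lemma gauss_sq {n : ℕ} [NeZero n] (A B : ZMod n) :
    ‖∑ x : ZMod n, ZMod.stdAddChar (A * x + B * x ^ 2)‖ ^ 2 ≤
      n * ((univ.filter fun h : ZMod n => 2 * B * h = 0).card : ℝ) := by
  set G := ∑ x : ZMod n, ZMod.stdAddChar (A * x + B * x ^ 2) with hG
  have h1 : G * conj G = ∑ h : ZMod n, ZMod.stdAddChar (A * h + B * h ^ 2) *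
      (if 2 * B * h = 0 then (n : ℂ) else 0) := by
    rw [hG, map_sum, mul_sum]
    have e : ∀ y : ZMod n, (∑ x : ZMod n, ZMod.stdAddChar (A * x + B * x ^ 2)) *
        conj (ZMod.stdAddChar (A * y + B * y ^ 2)) =
        ∑ h : ZMod n, ZMod.stdAddChar (A * h + B * h ^ 2) * ZMod.stdAddChar (y * (2 * B * h)) := by
      intro y
      rw [sum_mul, ← Equiv.sum_comp (Equiv.addRight y)]
      refine sum_congr rfl fun h _ => ?_
      rw [← AddChar.map_neg_eq_conj, ← AddChar.map_add_eq_mul, ← AddChar.map_add_eq_mul]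
      congr 1
      simp only [Equiv.coe_addRight]
      ring
    simp_rw [e]
    rw [sum_comm]
    refine sum_congr rfl fun h _ => ?_
    rw [← mul_sum, AddChar.sum_mulShift _ (ZMod.isPrimitive_stdAddChar n)]
    simp
  have h2 : ‖G‖ ^ 2 = ‖G * conj G‖ := by rw [norm_mul, Complex.norm_conj, sq]
  rw [h2, h1]
  refine (norm_sum_le _ _).trans (le_of_eq ?_)
  rw [mul_comm (n : ℝ), ← nsmul_eq_mul, ← sum_const, sum_filter]
  refine sum_congr rfl fun h _ => ?_
  rw [norm_mul, AddChar.norm_apply, one_mul]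
  split_ifs <;> simp

/-- The quadratic sum modulo `m p`. -/
lemma gauss {m p : ℕ} (hm : 0 < m) (hp : p.Prime) (A B : ℤ) (hB : (m : ℤ) ∣ A → ¬ (p : ℤ) ∣ 2 * B) :
    ‖∑ s ∈ range (m * p), ex (((A * s + B * m * s ^ 2 : ℤ) : ℝ) / (m * p : ℕ))‖ ≤
      if (m : ℤ) ∣ A then m * Real.sqrt p else 0 := by
  have hn : 0 < m * p := Nat.mul_pos hm hp.pos
  haveI : NeZero (m * p) := ⟨hn.ne'⟩
  have e : ∑ s ∈ range (m * p), ex (((A * s + B * m * s ^ 2 : ℤ) : ℝ) / (m * p : ℕ)) =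
      ∑ x : ZMod (m * p), ZMod.stdAddChar ((A : ZMod (m * p)) * x +
        ((B : ZMod (m * p)) * (m : ZMod (m * p))) * x ^ 2) := by
    rw [← sum_range_zmod]
    refine sum_congr rfl fun s _ => ?_
    rw [ex_eq_stdAddChar]; push_cast; rfl
  rw [e]
  split_ifs with hA
  · have h1 := gauss_sq (A : ZMod (m * p)) ((B : ZMod (m * p)) * (m : ZMod (m * p)))
    have h2 : (univ.filter fun h : ZMod (m * p) => 2 * ((B : ZMod (m * p)) * (m : ZMod (m * p))) * h = 0).card ≤
        m := by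
      refine le_trans ?_ ((card_cls hp.pos (Dvd.intro_left m rfl) 0).trans
        (Nat.mul_div_cancel m hp.pos).le)
      refine card_le_card_of_injOn (fun h => h.val) (fun h hh => ?_)
        (fun h _ h' _ e => ZMod.val_injective _ e)
      have h3 := (mem_filter.1 hh).2
      have h4 : ((2 * B * m * (h.val : ℤ) : ℤ) : ZMod (m * p)) = 0 := by
        push_cast
        rw [ZMod.natCast_zmod_val, ← h3]; ring
      rw [ZMod.intCast_zmod_eq_zero_iff_dvd] at h4
      have h5 : (p : ℤ) ∣ 2 * B * h.val := by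
        have hm' : (m : ℤ) ≠ 0 := by exact_mod_cast hm.ne'
        refine (mul_dvd_mul_iff_left hm').1 ?_
        rw [show (m : ℤ) * (2 * B * h.val) = 2 * B * m * h.val by ring]
        exact_mod_cast h4
      have h6 := ((Nat.prime_iff_prime_int.1 hp).dvd_or_dvd h5).resolve_left (hB hA)
      exact mem_coe.2 (mem_filter.2 ⟨mem_range.2 (ZMod.val_lt h), by simpa using h6⟩)
    have h3 : (0 : ℝ) ≤ p := by positivity
    refine le_of_sq_le_sq ?_ (by positivity)
    rw [mul_pow, Real.sq_sqrt h3]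
    refine h1.trans ?_
    have h4 : ((univ.filter fun h : ZMod (m * p) =>
      2 * ((B : ZMod (m * p)) * (m : ZMod (m * p))) * h = 0).card : ℝ) ≤ m := by exact_mod_cast h2
    push_cast
    calc (m : ℝ) * p * _ ≤ m * p * m := by gcongr
      _ = _ := by ring
  · have h0 : ((B : ZMod (m * p)) * (m : ZMod (m * p))) * p = 0 := by
      have : ((m * p : ℕ) : ZMod (m * p)) = 0 := ZMod.natCast_self _
      push_cast at this
      rw [mul_assoc, this, mul_zero]
    have h1 := gauss_shift (A : ZMod (m * p)) ((B : ZMod (m * p)) * (m : ZMod (m * p))) p h0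
    have h2 : ZMod.stdAddChar ((A : ZMod (m * p)) * (p : ZMod (m * p))) ≠ 1 := by
      intro h
      have h3 : ((A * p : ℤ) : ZMod (m * p)) = (A : ZMod (m * p)) * p := by push_cast; rfl
      rw [← h3, ← ex_eq_stdAddChar, ex_div_eq_one_iff hn] at h
      have hp' : (p : ℤ) ≠ 0 := by exact_mod_cast hp.ne_zero
      push_cast at h
      exact hA ((mul_dvd_mul_iff_right hp').1 h)
    have h3 : ∑ x : ZMod (m * p), ZMod.stdAddChar ((A : ZMod (m * p)) * x +
        ((B : ZMod (m * p)) * (m : ZMod (m * p))) * x ^ 2) = 0 := by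
      by_contra h
      exact h2 (mul_right_cancel₀ h (h1.symm.trans (one_mul _).symm))
    rw [h3, norm_zero]

lemma not_dvd_of_un {p k t : ℕ} (hp : p.Prime) (hk : 0 < k) (ht : t.Coprime (p ^ k)) :
    ¬ (p : ℤ) ∣ t := by
  intro h
  have h1 : p ∣ t := Int.natCast_dvd_natCast.1 h
  have h2 := Nat.dvd_gcd h1 (dvd_pow_self p hk.ne')
  rw [ht] at h2
  exact hp.one_lt.ne' (Nat.dvd_one.1 h2)

/-- The stationary points lie in two classes. -/
lemma two_cls {p j : ℕ} (hp : p.Prime) (x y : ℤ) (hx : ¬ (p : ℤ) ∣ x)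
    (h : (p : ℤ) ^ j ∣ (x - y) * (x + y)) :
    (p : ℤ) ^ (if p = 2 then j - 1 else j) ∣ x - y ∨
      (p : ℤ) ^ (if p = 2 then j - 1 else j) ∣ x + y := by
  have hP := Nat.prime_iff_prime_int.1 hp
  split_ifs with h2
  · subst h2
    rcases j with _ | j
    · left; simp
    simp only [Nat.add_sub_cancel]
    push_cast at hx h hP ⊢
    by_cases hy : (2 : ℤ) ∣ x - y
    · obtain ⟨u, hu⟩ := hy
      have hv : x + y = 2 * (x - u) := by linarith
      by_cases hu2 : (2 : ℤ) ∣ u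
      · left
        have h3 : ¬ (2 : ℤ) ∣ x - u := fun h3 => hx (by simpa using h3.add hu2)
        rw [hv, pow_succ, show (x - y) * (2 * (x - u)) = (x - u) * (x - y) * 2 by ring] at h
        exact hP.pow_dvd_of_dvd_mul_left _ h3 ((mul_dvd_mul_iff_right two_ne_zero).1 h)
      · right
        rw [hu, pow_succ, show 2 * u * (x + y) = u * (x + y) * 2 by ring] at h
        exact hP.pow_dvd_of_dvd_mul_left _ hu2 ((mul_dvd_mul_iff_right two_ne_zero).1 h)
    · right
      exact (pow_dvd_pow 2 (Nat.le_succ j)).trans (hP.pow_dvd_of_dvd_mul_left _ hy h)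
  · by_cases hy : (p : ℤ) ∣ x - y
    · left
      have h3 : ¬ (p : ℤ) ∣ x + y := by
        intro h3
        have h4 : (p : ℤ) ∣ 2 * x := by
          have := hy.add h3
          rwa [show x - y + (x + y) = 2 * x by ring] at this
        rcases hP.dvd_or_dvd h4 with h5 | h5
        · have h6 : p ∣ 2 := by exact_mod_cast h5
          exact h2 ((Nat.prime_dvd_prime_iff_eq hp Nat.prime_two).1 h6)
        · exact hx h5
      exact hP.pow_dvd_of_dvd_mul_right _ h3 h
    · right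
      exact hP.pow_dvd_of_dvd_mul_left _ hy h

lemma stat_sq {c d t : ℕ} (hc : 0 < c) (hd : d ∣ c) (ht : t ∈ un c) {a b : ℤ}
    (h : (d : ℤ) ∣ a * t - b * iv t c) : (d : ℤ) ∣ a * t ^ 2 - b := by
  have h1 : (d : ℤ) ∣ 1 - (t : ℤ) * iv t c :=
    (Int.natCast_dvd_natCast.2 hd).trans (mul_iv_int hc (mem_un.1 ht).2).dvd
  have := (h.mul_left t).sub (h1.mul_left b)
  rwa [show (t : ℤ) * (a * t - b * iv t c) - b * (1 - t * iv t c) = a * t ^ 2 - b by ring] at this

/-- The number of stationary points. -/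
lemma card_stat {p k j : ℕ} (hp : p.Prime) (hj : 0 < j) (hjk : j ≤ k) {a b : ℤ}
    (hab : ¬ ((p : ℤ) ∣ a ∧ (p : ℤ) ∣ b)) :
    ((un (p ^ k)).filter fun t : ℕ => ((p ^ j : ℕ) : ℤ) ∣ a * t - b * iv t (p ^ k)).card ≤
      (if p = 2 then 4 else 2) * p ^ (k - j) := by
  have hP := Nat.prime_iff_prime_int.1 hp
  have hc : 0 < p ^ k := pow_pos hp.pos k
  set S := (un (p ^ k)).filter fun t : ℕ => ((p ^ j : ℕ) : ℤ) ∣ a * t - b * iv t (p ^ k)
  rcases S.eq_empty_or_nonempty with h | ⟨y, hy⟩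
  · simp [h]
  have hsq : ∀ t ∈ S, (p : ℤ) ^ j ∣ a * t ^ 2 - b := fun t ht => by
    have := stat_sq hc (pow_dvd_pow p hjk) (mem_filter.1 ht).1 (mem_filter.1 ht).2
    exact_mod_cast this
  have ha : ¬ (p : ℤ) ∣ a := by
    intro ha
    refine hab ⟨ha, ?_⟩
    have := (ha.mul_right ((y : ℤ) ^ 2)).sub ((dvd_pow_self _ hj.ne').trans (hsq y hy))
    simpa using this
  set e := if p = 2 then j - 1 else j with he
  have hek : e ≤ k := by rw [he]; split_ifs <;> omega
  have hsub : S ⊆ ((range (p ^ k)).filter fun t : ℕ => ((p ^ e : ℕ) : ℤ) ∣ (t : ℤ) - y) ∪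
      ((range (p ^ k)).filter fun t : ℕ => ((p ^ e : ℕ) : ℤ) ∣ (t : ℤ) - (-y)) := by
    intro t ht
    have h1 := mem_un.1 (mem_filter.1 ht).1
    have h2 : (p : ℤ) ^ j ∣ ((t : ℤ) - y) * (t + y) := by
      refine hP.pow_dvd_of_dvd_mul_left _ ha ?_
      have := (hsq t ht).sub (hsq y hy)
      rwa [show a * (t : ℤ) ^ 2 - b - (a * y ^ 2 - b) = a * ((t - y) * (t + y)) by ring] at this
    rcases two_cls hp t y (not_dvd_of_un hp (by omega) h1.2) h2 with h | h
    · exact mem_union_left _ (mem_filter.2 ⟨mem_range.2 h1.1, by exact_mod_cast h⟩)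
    · exact mem_union_right _ (mem_filter.2 ⟨mem_range.2 h1.1, by
        rw [sub_neg_eq_add]; exact_mod_cast h⟩)
  have h1 := card_cls (pow_pos hp.pos e) (pow_dvd_pow p hek) (y : ℤ)
  have h2 := card_cls (pow_pos hp.pos e) (pow_dvd_pow p hek) (-y : ℤ)
  have h3 := (card_le_card hsub).trans (card_union_le _ _)
  rw [Nat.pow_div hek hp.pos] at h1 h2
  have h4 : 2 * p ^ (k - e) = (if p = 2 then 4 else 2) * p ^ (k - j) := by
    rw [he]
    split_ifs with h
    · subst h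
      rw [show k - (j - 1) = k - j + 1 by omega, pow_succ]; ring
    · rfl
  omega

lemma triv {c D : ℕ} (hD : 0 < D) (hDc : D ∣ c) (ρ : ℕ) (a b : ℤ) :
    ‖kl (cls ρ D) a b c‖ ≤ ((c / D : ℕ) : ℝ) := by
  unfold kl
  refine (norm_sum_le _ _).trans ?_
  calc _ ≤ ∑ t ∈ un c, (if (D : ℤ) ∣ (t : ℤ) - ρ then (1 : ℝ) else 0) := by
        refine sum_le_sum fun t _ => ?_
        rw [norm_mul, norm_ex, mul_one]
        unfold cls
        by_cases h : t ≡ ρ [MOD D]
        · rw [if_pos h, if_pos (Nat.modEq_iff_dvd.1 h.symm)]; simp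
        · rw [if_neg h]; split_ifs <;> simp
    _ ≤ ∑ t ∈ range c, (if (D : ℤ) ∣ (t : ℤ) - ρ then (1 : ℝ) else 0) :=
        sum_le_sum_of_subset_of_nonneg (filter_subset _ _) fun _ _ _ => by split_ifs <;> simp
    _ ≤ _ := by
        rw [← sum_filter, sum_const, nsmul_eq_mul, mul_one]
        exact_mod_cast card_cls hD hDc ρ

/-- The linear case. -/
lemma caseE {p k j i : ℕ} (hp : p.Prime) (hj : 0 < j) (hjk : 2 * j ≤ k) (hi : i ≤ j) (ρ : ℕ)
    {a b : ℤ} (hab : ¬ ((p : ℤ) ∣ a ∧ (p : ℤ) ∣ b)) :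
    ‖kl (cls ρ (p ^ i)) a b (p ^ k)‖ ≤ (if p = 2 then 4 else 2) * (p : ℝ) ^ (k - j) := by
  have hc : 0 < p ^ k := pow_pos hp.pos k
  have hn : 0 < p ^ j := pow_pos hp.pos j
  have hp0 : (0 : ℝ) < p := by exact_mod_cast hp.pos
  obtain ⟨r, rfl⟩ : ∃ r, k = 2 * j + r := ⟨k - 2 * j, by omega⟩
  have e : 2 * j + r - j = j + r := by omega
  have h1 := avg2 (n := p ^ j) (m := p ^ (j + r)) hc (pow_dvd_pow p (by omega : i ≤ 2 * j + r))
    (pow_dvd_pow p (by omega)) (by rw [← pow_mul]; exact pow_dvd_pow p (by omega)) ρ a b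
    (fun t : ℕ => ((p ^ j : ℕ) : ℤ) ∣ a * t - b * iv t (p ^ (2 * j + r))) ((p ^ j : ℕ) : ℝ) (by
      intro t _
      generalize a * t - b * iv t (p ^ (2 * j + r)) = A
      generalize b * iv t (p ^ (2 * j + r)) = B
      have e1 : ∀ s : ℕ, ex (((A * (p ^ (j + r) : ℕ) * s + B * (p ^ (j + r) : ℕ) ^ 2 * s ^ 2 : ℤ) : ℝ)
          / (p ^ (2 * j + r) : ℕ)) = ex (((A * s : ℤ) : ℝ) / (p ^ j : ℕ)) := fun s => by
        rw [← ex_add_int (((A * s : ℤ) : ℝ) / (p ^ j : ℕ)) (B * p ^ r * s ^ 2)]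
        congr 1
        push_cast
        field_simp
        ring
      simp_rw [e1]
      rw [sum_ex_range hn]
      split_ifs <;> simp)
  have h2 := card_stat hp hj (by omega : j ≤ 2 * j + r) hab
  have h3 : (0 : ℝ) < ((p ^ j : ℕ) : ℝ) := by exact_mod_cast hn
  refine (le_of_mul_le_mul_left h1 h3).trans ?_
  have h4 := (Nat.cast_le (α := ℝ)).2 h2
  refine h4.trans (le_of_eq ?_)
  push_cast
  split_ifs <;> simp

/-- The quadratic case. -/
lemma caseO {p j i : ℕ} (hp : p.Prime) (h2 : p ≠ 2) (hj : 0 < j) (hi : i ≤ j) (ρ : ℕ)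
    {a b : ℤ} (hab : ¬ ((p : ℤ) ∣ a ∧ (p : ℤ) ∣ b)) :
    ‖kl (cls ρ (p ^ i)) a b (p ^ (2 * j + 1))‖ ≤ 2 * ((p : ℝ) ^ j * Real.sqrt p) := by
  have hP := Nat.prime_iff_prime_int.1 hp
  have hc : 0 < p ^ (2 * j + 1) := pow_pos hp.pos _
  have hn : 0 < p ^ j := pow_pos hp.pos j
  have hp0 : (0 : ℝ) < p := by exact_mod_cast hp.pos
  have h1 := avg2 (n := p ^ j * p) (m := p ^ j) hc (pow_dvd_pow p (by omega : i ≤ 2 * j + 1))
    (pow_dvd_pow p hi) (by rw [← pow_mul]; exact pow_dvd_pow p (by omega)) ρ a b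
    (fun t : ℕ => ((p ^ j : ℕ) : ℤ) ∣ a * t - b * iv t (p ^ (2 * j + 1)))
    (((p ^ j : ℕ) : ℝ) * Real.sqrt p) (by
      intro t ht
      have hB : ((p ^ j : ℕ) : ℤ) ∣ a * t - b * iv t (p ^ (2 * j + 1)) →
          ¬ (p : ℤ) ∣ 2 * (b * iv t (p ^ (2 * j + 1))) := by
        intro hA hB
        have ht' := (mem_un.1 ht).2
        rcases hP.dvd_or_dvd hB with h5 | h5
        · have h6 : p ∣ 2 := by exact_mod_cast h5
          exact h2 ((Nat.prime_dvd_prime_iff_eq hp Nat.prime_two).1 h6)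
        have h6 : (p : ℤ) ∣ a * t := by
          have h7 : (p : ℤ) ∣ ((p ^ j : ℕ) : ℤ) := by
            push_cast; exact dvd_pow_self _ hj.ne'
          simpa using (h7.trans hA).add h5
        exact hab ⟨(hP.dvd_or_dvd h6).resolve_right (not_dvd_of_un hp (by omega) ht'),
          (hP.dvd_or_dvd h5).resolve_right (not_dvd_of_un hp (by omega) (iv_coprime hc ht'))⟩
      revert hB
      generalize a * t - b * iv t (p ^ (2 * j + 1)) = A
      generalize b * iv t (p ^ (2 * j + 1)) = B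
      intro hB
      have e1 : ∀ s : ℕ, ex (((A * (p ^ j : ℕ) * s + B * (p ^ j : ℕ) ^ 2 * s ^ 2 : ℤ) : ℝ)
          / (p ^ (2 * j + 1) : ℕ)) =
          ex (((A * s + B * (p ^ j : ℕ) * s ^ 2 : ℤ) : ℝ) / (p ^ j * p : ℕ)) := fun s => by
        congr 1
        push_cast
        field_simp
        ring
      simp_rw [e1]
      exact gauss hn hp A B hB)
  have h3 := card_stat hp hj (by omega : j ≤ 2 * j + 1) hab
  rw [if_neg h2, show 2 * j + 1 - j = j + 1 by omega] at h3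
  have h4 := (Nat.cast_le (α := ℝ)).2 h3
  have h5 : (0 : ℝ) < ((p ^ j * p : ℕ) : ℝ) := by exact_mod_cast Nat.mul_pos hn hp.pos
  refine le_of_mul_le_mul_left (h1.trans ?_) h5
  refine (mul_le_mul_of_nonneg_left h4 (by positivity)).trans (le_of_eq ?_)
  push_cast
  ring

end PP0

open PP0 in
theorem pp0 : S_PP0 := by
  intro p k i ρ a b hp hk hi hab
  have hp1 : (1 : ℝ) ≤ p := by exact_mod_cast hp.one_lt.le
  obtain ⟨j, hj⟩ : ∃ j, k = 2 * j ∨ k = 2 * j + 1 := ⟨k / 2, by omega⟩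
  have hj0 : 0 < j := by omega
  have hs : (p : ℝ) ^ j ≤ Real.sqrt ((p : ℝ) ^ k) := by
    refine Real.le_sqrt_of_sq_le ?_
    rw [← pow_mul]
    exact pow_le_pow_right₀ hp1 (by omega)
  have hs0 : (0 : ℝ) ≤ (p : ℝ) ^ j := by positivity
  by_cases hij : k - j ≤ i
  · refine (triv (pow_pos hp.pos i) (pow_dvd_pow p hi) ρ a b).trans ?_
    rw [Nat.pow_div hi hp.pos]
    push_cast
    have : (p : ℝ) ^ (k - i) ≤ (p : ℝ) ^ j := pow_le_pow_right₀ hp1 (by omega)
    split_ifs <;> linarith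
  have hij' : i ≤ j := by omega
  by_cases h2 : p = 2
  · refine (caseE hp hj0 (by omega) hij' ρ hab).trans ?_
    have : (p : ℝ) ^ (k - j) ≤ (p : ℝ) ^ (j + 1) := pow_le_pow_right₀ hp1 (by omega)
    rw [pow_succ] at this
    have h3 : (p : ℝ) = 2 := by exact_mod_cast h2
    rw [if_pos h2, if_pos h2]
    nlinarith
  rw [if_neg h2]
  rcases hj with hj | hj
  · refine (caseE hp hj0 (by omega) hij' ρ hab).trans ?_
    rw [if_neg h2, show k - j = j by omega]
    linarith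
  · subst hj
    refine (caseO hp h2 hj0 hij' ρ hab).trans (le_of_eq ?_)
    rw [pow_succ, Real.sqrt_mul (by positivity), mul_comm 2 j, pow_mul, Real.sqrt_sq hs0]

end MR
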