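import Pool.Agent.P.MP_79de8b_nt.Basic

/-! The recursion for Kloosterman sums over the extensions of a prime field. -/

open Finset Polynomial IntermediateField Module

noncomputable section
namespace MR
namespace W1

section Gen

variable {F L : Type} [Field F] [Field L] [Algebra F L] [FiniteDimensional F L]

variable (F) in
/-- the characteristic polynomial of an element -/
def chi (x : L) : F[X] := minpoly F x ^ finrank F⟮x⟯ L

theorem min_monic (x : L) : (minpoly F x).Monic := minpoly.monic (.of_finite F x)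

theorem deg_mul (x : L) : finrank F⟮x⟯ L * (minpoly F x).natDegree = finrank F L := by
  rw [← adjoin.finrank (.of_finite F x), mul_comm, finrank_mul_finrank]

theorem chi_monic (x : L) : (chi F x).Monic := (min_monic x).pow _

theorem chi_deg (x : L) : (chi F x).natDegree = finrank F L := by
  rw [chi, (min_monic x).natDegree_pow, deg_mul]

/-- the phase attached to a polynomial -/
def ph (a b : F) (h : F[X]) : F := -(a * h.nextCoeff) - b * (h.coeff 1 / h.coeff 0)

theorem ph_mul (a b : F) {f g : F[X]} (hf : f.Monic) (hg : g.Monic) (h1 : f.coeff 0 ≠ 0)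
    (h2 : g.coeff 0 ≠ 0) : ph a b (f * g) = ph a b f + ph a b g := by
  rw [ph, ph, ph, hf.nextCoeff_mul hg, mul_coeff_one, mul_coeff_zero]
  field_simp
  ring

theorem coeff_zero_pow' (f : F[X]) (k : ℕ) : (f ^ k).coeff 0 = f.coeff 0 ^ k := by
  simp only [coeff_zero_eq_eval_zero, eval_pow]

theorem ph_one (a b : F) : ph a b 1 = 0 := by
  rw [ph, ← C_1, nextCoeff_C_eq_zero]
  simp [coeff_one]

theorem ph_pow (a b : F) {f : F[X]} (hf : f.Monic) (h1 : f.coeff 0 ≠ 0) (k : ℕ) :
    ph a b (f ^ k) = k * ph a b f := by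
  induction k with
  | zero => simp [ph_one]
  | succ k ih =>
    rw [pow_succ, ph_mul a b (hf.pow k) hf (by rw [coeff_zero_pow']; exact pow_ne_zero _ h1) h1, ih]
    push_cast
    ring

omit [FiniteDimensional F L] in
theorem adjoin_inv' (x : L) : F⟮x⁻¹⟯ = F⟮x⟯ :=
  le_antisymm (adjoin_simple_le_iff.mpr (inv_mem (mem_adjoin_simple_self F x)))
    (adjoin_simple_le_iff.mpr (by simpa using inv_mem (mem_adjoin_simple_self F x⁻¹)))

theorem next_inv {x : L} (hx : x ≠ 0) :
    (minpoly F x⁻¹).nextCoeff = (minpoly F x).coeff 1 / (minpoly F x).coeff 0 := by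
  have h0 : (minpoly F x⁻¹).coeff 0 ≠ 0 :=
    minpoly.coeff_zero_ne_zero (.of_finite F x⁻¹) (inv_ne_zero hx)
  have hd : (minpoly F x).natDegree = (minpoly F x⁻¹).natDegree := by
    rw [← adjoin.finrank (.of_finite F x), ← adjoin.finrank (.of_finite F x⁻¹), adjoin_inv']
  have h1 : minpoly F x ∣ (minpoly F x⁻¹).reverse := by
    refine minpoly.dvd F x ?_
    let := invertibleOfNonzero (inv_ne_zero hx)
    have := (eval₂_reverse_eq_zero_iff (algebraMap F L) x⁻¹ (minpoly F x⁻¹)).mpr
      (minpoly.aeval F x⁻¹)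
    rwa [invOf_eq_inv, inv_inv] at this
  have h2 := eq_leadingCoeff_mul_of_monic_of_dvd_of_natDegree_le (min_monic x) h1
    (hd ▸ reverse_natDegree_le _)
  have h3 := congrArg (fun f => coeff f 0) h2
  have h4 := congrArg (fun f => coeff f 1) h2
  simp only [coeff_C_mul, coeff_zero_reverse, coeff_one_reverse, (min_monic x⁻¹).leadingCoeff]
    at h3 h4
  rw [h4, eq_div_iff (right_ne_zero_of_mul_eq_one h3.symm)]
  linear_combination -(minpoly F x).coeff 1 * h3

theorem ph_chi (a b : F) {x : L} (hx : x ≠ 0) :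
    ph a b (chi F x) = Algebra.trace F L (algebraMap F L a * x + algebraMap F L b * x⁻¹) := by
  rw [chi, ph_pow a b (min_monic x) (minpoly.coeff_zero_ne_zero (.of_finite F x) hx), map_add,
    ← Algebra.smul_def, ← Algebra.smul_def, map_smul, map_smul,
    trace_eq_finrank_mul_minpoly_nextCoeff, trace_eq_finrank_mul_minpoly_nextCoeff, adjoin_inv',
    next_inv hx, ph, smul_eq_mul, smul_eq_mul]
  ring

open Classical in
theorem chi_step (x : L) {i a : F[X]} (hi : Irreducible i) {v : ℕ} (hv : ∀ k, i ^ k ∣ a ↔ k ≤ v) :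
    (if chi F x ∣ i * a then (1 : ℂ) else 0) = (if chi F x ∣ a then 1 else 0) +
      if finrank F L = (v + 1) * i.natDegree ∧ aeval x i = 0 then 1 else 0 := by
  have hQ := minpoly.irreducible (IsIntegral.of_finite F x)
  by_cases h : aeval x i = 0
  · have h1 : Associated (minpoly F x) i := hQ.associated_of_dvd hi (minpoly.dvd F x h)
    have h2 := natDegree_eq_of_degree_eq (degree_eq_degree_of_associated h1)
    obtain ⟨k, hk⟩ : ∃ k, finrank F⟮x⟯ L = k + 1 := ⟨_, (Nat.succ_pred_eq_of_pos finrank_pos).symm⟩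
    have h3 : ∀ g, chi F x ∣ g ↔ i ^ (k + 1) ∣ g := fun g => by
      rw [chi, hk, (h1.pow_pow (n := k + 1)).dvd_iff_dvd_left]
    have h4 : chi F x ∣ i * a ↔ k ≤ v := by
      rw [h3, pow_succ', mul_dvd_mul_iff_left hi.ne_zero, hv]
    have h5 : finrank F L = (v + 1) * i.natDegree ↔ k = v := by
      rw [← deg_mul x, hk, h2, mul_left_inj' hi.natDegree_pos.ne', add_left_inj]
    simp only [h4, h3 a, hv, h5, h, and_true]
    split_ifs <;> first | omega | simp
  · have h1 : IsCoprime (chi F x) i := by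
      refine IsCoprime.pow_left (hQ.coprime_iff_not_dvd.mpr fun h2 => h ?_)
      exact aeval_eq_zero_of_dvd_aeval_eq_zero h2 (minpoly.aeval F x)
    have h2 : chi F x ∣ i * a ↔ chi F x ∣ a :=
      ⟨h1.dvd_of_dvd_mul_left, fun h => h.mul_left i⟩
    simp only [h2, h, and_false, if_false, add_zero]

open Classical in
/-- the multiplicative function on monic polynomials -/
def lam (ψ : AddChar F ℂ) (a b : F) (h : F[X]) : ℂ := if h.coeff 0 = 0 then 0 else ψ (ph a b h)

theorem lam_mul (ψ : AddChar F ℂ) (a b : F) {f g : F[X]} (hf : f.Monic) (hg : g.Monic) :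
    lam ψ a b (f * g) = lam ψ a b f * lam ψ a b g := by
  by_cases h1 : f.coeff 0 = 0
  · simp [lam, h1]
  by_cases h2 : g.coeff 0 = 0
  · simp [lam, h2]
  rw [lam, lam, lam, if_neg h1, if_neg h2, if_neg (by rw [mul_coeff_zero]; exact mul_ne_zero h1 h2),
    ph_mul a b hf hg h1 h2, AddChar.map_add_eq_mul]

variable [Finite F]

theorem fin_mon (d : ℕ) : {h : F[X] | h.Monic ∧ h.natDegree = d}.Finite := by
  refine Set.Finite.of_injOn (f := fun h (i : Fin (d + 1)) => h.coeff i) (Set.mapsTo_univ _ _)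
    (fun f hf g hg h => ?_) Set.finite_univ
  ext i
  by_cases hi : i < d + 1
  · exact congrFun h ⟨i, hi⟩
  · rw [coeff_eq_zero_of_natDegree_lt (by rw [hf.2]; omega),
      coeff_eq_zero_of_natDegree_lt (by rw [hg.2]; omega)]

variable (F) in
/-- monic polynomials of degree `d` -/
def Mon (d : ℕ) : Finset F[X] := (fin_mon d).toFinset

theorem mem_Mon {d : ℕ} {h : F[X]} : h ∈ Mon F d ↔ h.Monic ∧ h.natDegree = d :=
  (fin_mon d).mem_toFinset

/-- the sum over monic polynomials of degree `d` -/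
def SS (ψ : AddChar F ℂ) (a b : F) (d : ℕ) : ℂ := ∑ h ∈ Mon F d, lam ψ a b h

open Classical in
theorem sum_dvd (ψ : AddChar F ℂ) (a b : F) {q : F[X]} (hq : q.Monic) {d : ℕ}
    (hd : q.natDegree ≤ d) : ∑ h ∈ Mon F d, lam ψ a b h * (if q ∣ h then 1 else 0) =
      lam ψ a b q * SS ψ a b (d - q.natDegree) := by
  rw [SS, mul_sum]
  symm
  refine sum_of_injOn (fun g => q * g) (mul_right_injective₀ hq.ne_zero).injOn (fun g hg => ?_)
    (fun h hh h1 => ?_) fun g hg => ?_
  · obtain ⟨h1, h2⟩ := mem_Mon.mp hg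
    exact mem_Mon.mpr ⟨hq.mul h1, by rw [hq.natDegree_mul h1, h2]; omega⟩
  · rw [if_neg, mul_zero]
    rintro ⟨g, rfl⟩
    obtain ⟨h2, h3⟩ := mem_Mon.mp hh
    have h4 := hq.of_mul_monic_left h2
    rw [hq.natDegree_mul h4] at h3
    exact h1 ⟨g, mem_Mon.mpr ⟨h4, by omega⟩, rfl⟩
  · rw [if_pos (dvd_mul_right q g), mul_one, lam_mul ψ a b hq (mem_Mon.mp hg).1]

theorem SS_zero (ψ : AddChar F ℂ) (a b : F) : SS ψ a b 0 = 1 := by
  have : Mon F 0 = {1} := by
    ext h
    rw [mem_Mon, mem_singleton]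
    exact ⟨fun k => k.1.natDegree_eq_zero.mp k.2, fun k => k ▸ ⟨monic_one, natDegree_one⟩⟩
  rw [SS, this, sum_singleton, lam, ph_one]
  simp

theorem shift_mem {d : ℕ} (t : F) {h : F[X]} (hh : h ∈ Mon F (d + 1)) :
    h + C t * X ^ d ∈ Mon F (d + 1) := by
  obtain ⟨h1, h2⟩ := mem_Mon.mp hh
  have h3 : (C t * X ^ d).natDegree < h.natDegree :=
    (natDegree_C_mul_X_pow_le t d).trans_lt (by omega)
  exact mem_Mon.mpr ⟨h1.add_of_left (degree_lt_degree h3),
    by rw [natDegree_add_eq_left_of_natDegree_lt h3, h2]⟩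

theorem SS_big {ψ : AddChar F ℂ} (hψ : ψ.IsPrimitive) {a : F} (b : F) (ha : a ≠ 0) (d : ℕ) :
    SS ψ a b (d + 3) = 0 := by
  obtain ⟨t, ht⟩ : ∃ t, ψ (-a * t) ≠ 1 := by
    by_contra h
    exact hψ (neg_ne_zero.mpr ha) (AddChar.ext _ _ fun t => not_not.mp fun k => h ⟨t, k⟩)
  have h1 : SS ψ a b (d + 3) * ψ (-a * t) = SS ψ a b (d + 3) := by
    rw [SS, sum_mul]
    refine sum_nbij' (fun h => h + C t * X ^ (d + 2)) (fun h => h + C (-t) * X ^ (d + 2))
      (fun h hh => shift_mem t hh) (fun h hh => shift_mem (-t) hh) (fun h _ => by simp)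
      (fun h _ => by simp) fun h hh => ?_
    have h2 : (h + C t * X ^ (d + 2)).coeff 0 = h.coeff 0 := by simp
    have h3 : (h + C t * X ^ (d + 2)).coeff 1 = h.coeff 1 := by simp [coeff_X_pow]
    have h4 : (h + C t * X ^ (d + 2)).nextCoeff = h.nextCoeff + t := by
      rw [nextCoeff_of_natDegree_pos (by rw [(mem_Mon.mp (shift_mem t hh)).2]; omega),
        nextCoeff_of_natDegree_pos (by rw [(mem_Mon.mp hh).2]; omega),
        (mem_Mon.mp (shift_mem t hh)).2, (mem_Mon.mp hh).2]
      simp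
    rw [lam, lam, ph, ph, h2, h3, h4]
    split_ifs
    · exact zero_mul _
    · rw [← AddChar.map_add_eq_mul]
      congr 1
      ring
  by_contra h0
  exact ht ((mul_eq_left₀ h0).mp h1)

theorem SS_two [Fintype F] {ψ : AddChar F ℂ} (hψ : ψ.IsPrimitive) {a b : F} (ha : a ≠ 0)
    (hb : b ≠ 0) : SS ψ a b 2 = Fintype.card F := by
  classical
  have hd : ∀ c : F × F, (X ^ 2 + C c.2 * X + C c.1 : F[X]).natDegree = 2 := fun c => by
    compute_degree!
  have h1 : ∑ c : F × F, lam ψ a b (X ^ 2 + C c.2 * X + C c.1) = SS ψ a b 2 := by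
    refine sum_nbij' (fun c => X ^ 2 + C c.2 * X + C c.1) (fun h => (h.coeff 0, h.coeff 1))
      (fun c _ => mem_Mon.mpr ⟨by monicity!, hd c⟩) (fun _ _ => mem_univ _)
      (fun c _ => by simp [coeff_X]) (fun h hh => ?_) fun _ _ => rfl
    obtain ⟨h2, h3⟩ := mem_Mon.mp hh
    conv_rhs => rw [h2.as_sum, h3]
    simp only [sum_range_succ, sum_range_zero]
    ring
  have h2 : ∀ c : F × F, lam ψ a b (X ^ 2 + C c.2 * X + C c.1) =
      if c.1 = 0 then 0 else ψ (c.2 * (-a - b / c.1)) := fun c => by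
    rw [lam, ph, nextCoeff_of_natDegree_pos (by rw [hd]; omega), hd]
    simp only [coeff_add, coeff_X_pow, coeff_C_mul, coeff_X, coeff_C]
    norm_num
    congr 2
    ring
  rw [← h1, sum_congr rfl fun c _ => h2 c, Fintype.sum_prod_type, sum_eq_single (-b / a) 
    (fun c _ hc => ?_) (by simp)]
  · have h3 : -b / a ≠ 0 := div_ne_zero (neg_ne_zero.mpr hb) ha
    simp only [if_neg h3]
    rw [AddChar.sum_mulShift _ hψ, if_pos (by field_simp; ring)]
  · simp only
    split_ifs with h3
    · simp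
    · rw [AddChar.sum_mulShift _ hψ, if_neg fun h4 => hc ?_, Nat.cast_zero]
      field_simp at h4 ⊢
      linear_combination -h4

end Gen

variable (p : ℕ) [Fact p.Prime]

instance fintypeGF (n : ℕ) : Fintype (GaloisField p n) := Fintype.ofFinite _

open Classical in
theorem roots {i : (ZMod p)[X]} (hi : Irreducible i) {n : ℕ} (hn : n ≠ 0) (hd : i.natDegree ∣ n) :
    ∑ x : GaloisField p n, (if aeval x i = 0 then (1 : ℂ) else 0) = i.natDegree := by
  have h1 := hi.natDegree_dvd_iff_dvd_X_pow_card_pow_sub_X.mp hd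
  rw [Nat.card_zmod] at h1
  have h2 : Splits (i.map (algebraMap (ZMod p) (GaloisField p n))) :=
    Splits.of_dvd (SplittingField.splits (X ^ p ^ n - X : (ZMod p)[X]))
      (Polynomial.map_ne_zero (FiniteField.X_pow_card_pow_sub_X_ne_zero _ hn
        (Fact.out : p.Prime).one_lt)) (Polynomial.map_dvd _ h1)
  rw [← card_rootSet_eq_natDegree (PerfectField.separable_of_irreducible hi) h2, sum_boole,
    ← Set.toFinset_card]
  congr 2
  ext x
  simp [mem_rootSet, hi.ne_zero]

open Classical in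
theorem count (D : ℕ) (h : (ZMod p)[X]) : h ≠ 0 → h.natDegree ≤ D →
    ∑ n ∈ Icc 1 D, ∑ x : GaloisField p n, (if chi (ZMod p) x ∣ h then (1 : ℂ) else 0) =
      h.natDegree := by
  refine WfDvdMonoid.induction_on_irreducible h (fun h => absurd rfl h) (fun u hu _ _ => ?_)
    fun a i ha hi ih _ hD => ?_
  · rw [natDegree_eq_zero_of_isUnit hu, Nat.cast_zero]
    refine sum_eq_zero fun n hn => sum_eq_zero fun x _ => if_neg fun h => ?_
    have h1 := natDegree_eq_zero_of_isUnit (isUnit_of_dvd_unit h hu)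
    have h2 := (mem_Icc.mp hn).1
    rw [chi_deg, GaloisField.finrank p (by omega)] at h1
    omega
  · have hv := fun k => (FiniteMultiplicity.of_not_isUnit hi.not_isUnit ha).pow_dvd_iff_le_multiplicity
      (k := k)
    set v := multiplicity i a
    have h1 : (v + 1) * i.natDegree ≤ D := by
      refine le_trans ?_ hD
      rw [← natDegree_pow]
      refine natDegree_le_of_dvd ?_ (mul_ne_zero hi.ne_zero ha)
      rw [pow_succ']
      exact mul_dvd_mul_left i ((hv v).mpr le_rfl)
    have h2 : 0 < (v + 1) * i.natDegree := Nat.mul_pos (Nat.succ_pos v) hi.natDegree_pos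
    rw [natDegree_mul hi.ne_zero ha] at hD ⊢
    simp only [chi_step _ hi hv, sum_add_distrib]
    rw [ih ha (by omega), Nat.cast_add, add_comm, add_left_inj,
      sum_eq_single_of_mem ((v + 1) * i.natDegree) (mem_Icc.mpr ⟨h2, h1⟩) fun n hn hn' => ?_]
    · simp only [GaloisField.finrank p h2.ne', true_and]
      exact roots p hi h2.ne' (dvd_mul_left _ _)
    · have h3 := (mem_Icc.mp hn).1
      refine sum_eq_zero fun x _ => if_neg fun h => hn' ?_
      rw [← h.1, GaloisField.finrank p (by omega)]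

theorem Kn_eq (n : ℕ) (a b : ZMod p) :
    Kn p n a b = ∑ x : GaloisField p n, lam ZMod.stdAddChar a b (chi (ZMod p) x) := by
  classical
  rw [Kn, finsum_eq_sum_of_fintype]
  refine sum_of_injOn Units.val Units.val_injective.injOn (fun _ _ => mem_univ _)
    (fun x _ hx => ?_) fun x _ => ?_
  · obtain rfl : x = 0 := by
      by_contra h
      exact hx ⟨Units.mk0 x h, mem_univ _, rfl⟩
    rw [lam, if_pos]
    rw [chi, coeff_zero_pow', minpoly.zero, coeff_X_zero, zero_pow finrank_pos.ne']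
  · rw [lam, if_neg, ph_chi a b x.ne_zero, Units.val_inv_eq_inv_val]
    rw [chi, coeff_zero_pow']
    exact pow_ne_zero _ (minpoly.coeff_zero_ne_zero (.of_finite _ _) x.ne_zero)

theorem newton (a b : ZMod p) (d : ℕ) : d * SS ZMod.stdAddChar a b d =
    ∑ n ∈ Icc 1 d, Kn p n a b * SS ZMod.stdAddChar a b (d - n) := by
  classical
  have h1 : ∀ h ∈ Mon (ZMod p) d, d * lam ZMod.stdAddChar a b h = ∑ n ∈ Icc 1 d,
      ∑ x : GaloisField p n, lam ZMod.stdAddChar a b h *
        (if chi (ZMod p) x ∣ h then (1 : ℂ) else 0) := fun h hh => by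
    obtain ⟨h2, h3⟩ := mem_Mon.mp hh
    simp only [← mul_sum]
    rw [count p d h h2.ne_zero h3.le, h3, mul_comm]
  rw [SS, mul_sum, sum_congr rfl h1, sum_comm]
  refine sum_congr rfl fun n hn => ?_
  obtain ⟨h2, h3⟩ := mem_Icc.mp hn
  rw [sum_comm, Kn_eq, sum_mul]
  refine sum_congr rfl fun x _ => ?_
  have h4 : (chi (ZMod p) x).natDegree = n := by rw [chi_deg, GaloisField.finrank p (by omega)]
  rw [sum_dvd _ a b (chi_monic x) (h4.le.trans h3), h4]

end W1

open W1 in
theorem w1 : S_W1 := by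
  intro p _ a b ha hb
  have hψ := ZMod.isPrimitive_stdAddChar p
  have h0 := SS_zero (ZMod.stdAddChar (N := p)) a b
  have h2 : SS ZMod.stdAddChar a b 2 = p := by rw [SS_two hψ ha hb, ZMod.card]
  have h1 : SS ZMod.stdAddChar a b 1 = Kn p 1 a b := by simpa [h0] using newton p a b 1
  refine ⟨?_, fun n hn => ?_⟩
  · have := newton p a b 2
    rw [sum_Icc_succ_top (by omega), Icc_self, sum_singleton] at this
    norm_num [h0, h1, h2] at this
    linear_combination -this
  · obtain ⟨m, rfl⟩ : ∃ m, n = m + 1 := ⟨n - 1, by omega⟩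
    have := newton p a b (m + 3)
    rw [SS_big hψ b ha, mul_zero, sum_Icc_succ_top (by omega), sum_Icc_succ_top (by omega),
      sum_Icc_succ_top (by omega), sum_eq_zero fun k hk => ?_] at this
    · rw [show m + 3 - (m + 1) = 2 by omega, show m + 3 - (m + 1 + 1) = 1 by omega,
        show m + 3 - (m + 2 + 1) = 0 by omega, h0, h1, h2] at this
      linear_combination -this
    · have h3 := (mem_Icc.mp hk).2
      rw [show m + 3 - k = m - k + 3 by omega, SS_big hψ b ha, mul_zero]

end MR
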