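import Pool.Agent.P.MP_79de8b_nt.Basic

/-! Stepanov's method for the curve `y ^ 2 = f x` (package W2 of MP_79de8b_nt). -/

open Polynomial Finset

noncomputable section
namespace MR.W2

variable {F : Type} [Field F]

/-- A squarefree polynomial of positive degree is not a constant times a square of a fraction. -/
lemma sq_eq_zero {f : F[X]} (hf : Squarefree f) (hd : 0 < f.natDegree) :
    ∀ (n : ℕ) (r s : F[X]) (a : F), r.natDegree = n → a ≠ 0 → r ^ 2 * f = s ^ 2 * C a →
      r = 0 ∧ s = 0 := by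
  intro n
  induction n using Nat.strong_induction_on with
  | _ n ih =>
  intro r s a hn ha h
  have hf0 : f ≠ 0 := hf.ne_zero
  have hu : IsUnit (C a : F[X]) := isUnit_C.2 (IsUnit.mk0 a ha)
  by_cases hr : r = 0
  · refine ⟨hr, ?_⟩
    rw [hr] at h
    have : s ^ 2 * C a = 0 := by rw [← h]; ring
    rcases mul_eq_zero.1 this with h1 | h1
    · exact pow_eq_zero_iff (by norm_num) |>.1 h1
    · exact absurd h1 hu.ne_zero
  exfalso
  have h1 : f ∣ s := by
    rw [← hf.dvd_pow_iff_dvd (n := 2) (by norm_num), ← hu.dvd_mul_right, ← h]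
    exact dvd_mul_left _ _
  obtain ⟨s1, rfl⟩ := h1
  have h2 : r ^ 2 = f * (s1 ^ 2 * C a) := by
    apply mul_right_cancel₀ hf0; rw [h]; ring
  have h3 : f ∣ r := by
    rw [← hf.dvd_pow_iff_dvd (n := 2) (by norm_num), h2]; exact dvd_mul_right _ _
  obtain ⟨r1, rfl⟩ := h3
  have hr1 : r1 ≠ 0 := by rintro rfl; simp at hr
  have h4 : r1 ^ 2 * f = s1 ^ 2 * C a := by
    apply mul_left_cancel₀ hf0; rw [← h2]; ring
  have h5 : r1.natDegree < n := by rw [← hn, natDegree_mul hf0 hr1]; omega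
  exact hr1 (ih _ h5 r1 s1 a rfl ha h4).1

lemma X_pow_dvd_pow_card [Fintype F] (f : F[X]) :
    X ^ Fintype.card F ∣ f ^ Fintype.card F - C (f.eval 0) := by
  rw [← FiniteField.expand_card f]
  have h : X ∣ f - C (f.eval 0) := by
    rw [X_dvd_iff]; simp [coeff_zero_eq_eval_zero]
  obtain ⟨g, hg⟩ := h
  refine ⟨expand F (Fintype.card F) g, ?_⟩
  have := congrArg (expand F (Fintype.card F)) hg
  simpa using this

/-- The auxiliary polynomial is not zero. -/
lemma aux_ne_zero [Fintype F] {f : F[X]} {c n : ℕ} (hq : Fintype.card F = 2 * c + 1)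
    (hf : Squarefree f) (hd : 0 < f.natDegree) (h0 : f.eval 0 ≠ 0) (hn : n + f.natDegree ≤ c) :
    ∀ (J : ℕ) (r s : ℕ → F[X]), (∀ j, (r j).natDegree ≤ n) → (∀ j, (s j).natDegree ≤ n) →
      ∑ j ∈ range J, (r j + s j * f ^ c) * (X ^ Fintype.card F) ^ j = 0 →
      ∀ j < J, r j = 0 ∧ s j = 0 := by
  intro J
  induction J with
  | zero => intro r s _ _ _ j hj; omega
  | succ J ih =>
  intro r s hr hs h
  set q := Fintype.card F with hqd
  have key : r 0 = 0 ∧ s 0 = 0 := by
    set h1 := ∑ j ∈ range J, r (j + 1) * (X ^ q) ^ j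
    set h2 := ∑ j ∈ range J, s (j + 1) * (X ^ q) ^ j
    have e : (r 0 + X ^ q * h1) + (s 0 + X ^ q * h2) * f ^ c = 0 := by
      rw [← h, sum_range_succ']
      have : ∑ j ∈ range J, (r (j + 1) + s (j + 1) * f ^ c) * (X ^ q) ^ (j + 1) =
          X ^ q * h1 + X ^ q * h2 * f ^ c := by
        simp only [h1, h2, mul_sum, sum_mul, ← sum_add_distrib]
        exact sum_congr rfl fun j _ => by ring
      rw [this]; ring
    have e2 : (r 0 + X ^ q * h1) ^ 2 * f = (s 0 + X ^ q * h2) ^ 2 * f ^ q := by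
      have : r 0 + X ^ q * h1 = -((s 0 + X ^ q * h2) * f ^ c) := eq_neg_of_add_eq_zero_left e
      rw [this, hq]; ring
    obtain ⟨g, hg⟩ := X_pow_dvd_pow_card f
    rw [← hqd] at hg
    have hg' : f ^ q = C (f.eval 0) + X ^ q * g := by rw [← hg]; ring
    have e3 : X ^ q ∣ r 0 ^ 2 * f - s 0 ^ 2 * C (f.eval 0) := by
      refine ⟨(s 0 + X ^ q * h2) ^ 2 * g + (2 * s 0 * h2 + X ^ q * h2 ^ 2) * C (f.eval 0) -
        (2 * r 0 * h1 + X ^ q * h1 ^ 2) * f, ?_⟩
      rw [hg'] at e2
      linear_combination e2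
    have e4 : r 0 ^ 2 * f - s 0 ^ 2 * C (f.eval 0) = 0 := by
      refine eq_zero_of_dvd_of_natDegree_lt e3 ?_
      rw [natDegree_X_pow]
      refine (natDegree_sub_le _ _).trans_lt (max_lt ?_ ?_)
      · refine natDegree_mul_le.trans_lt ?_
        have := natDegree_pow_le (p := r 0) (n := 2); have := hr 0; omega
      · refine natDegree_mul_le.trans_lt ?_
        have := natDegree_pow_le (p := s 0) (n := 2); have := hs 0
        rw [natDegree_C]; omega
    exact sq_eq_zero hf hd _ _ _ _ rfl h0 (sub_eq_zero.1 e4)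
  have rest : ∑ j ∈ range J, (r (j + 1) + s (j + 1) * f ^ c) * (X ^ q) ^ j = 0 := by
    rw [sum_range_succ', key.1, key.2] at h
    have : X ^ q * ∑ j ∈ range J, (r (j + 1) + s (j + 1) * f ^ c) * (X ^ q) ^ j = 0 := by
      rw [← h, mul_sum]; simp only [zero_mul, add_zero]
      exact sum_congr rfl fun j _ => by ring
    exact (mul_eq_zero.1 this).resolve_left (pow_ne_zero _ X_ne_zero)
  intro j hj
  rcases j with _ | j
  · exact key
  · exact ih (fun j => r (j + 1)) (fun j => s (j + 1)) (fun j => hr _) (fun j => hs _) rest j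
      (by omega)

/-! ### Two variables -/

/-- All coefficients have degree at most `d`. -/
def dX (P : F[X][X]) (d : ℕ) : Prop := ∀ k, (P.coeff k).natDegree ≤ d

lemma dX.mono {P : F[X][X]} {d e : ℕ} (h : dX P d) (hde : d ≤ e) : dX P e :=
  fun k => (h k).trans hde

lemma dX.add {P Q : F[X][X]} {d : ℕ} (h : dX P d) (h' : dX Q d) : dX (P + Q) d := fun k => by
  rw [coeff_add]; exact (natDegree_add_le _ _).trans (max_le (h k) (h' k))

lemma dX.sub {P Q : F[X][X]} {d : ℕ} (h : dX P d) (h' : dX Q d) : dX (P - Q) d := fun k => by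
  rw [coeff_sub]; exact (natDegree_sub_le _ _).trans (max_le (h k) (h' k))

lemma dX_sum {ι : Type*} (s : Finset ι) (P : ι → F[X][X]) {d : ℕ} (h : ∀ i ∈ s, dX (P i) d) :
    dX (∑ i ∈ s, P i) d := fun k => by
  rw [finsetSum_coeff]; exact natDegree_sum_le_of_forall_le _ _ fun i hi => h i hi k

lemma dX.mul {P Q : F[X][X]} {d e : ℕ} (h : dX P d) (h' : dX Q e) : dX (P * Q) (d + e) :=
  fun k => by
    rw [coeff_mul]
    exact natDegree_sum_le_of_forall_le _ _ fun i _ =>
      natDegree_mul_le.trans (add_le_add (h _) (h' _))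

lemma dX_C (p : F[X]) : dX (C p) p.natDegree := fun k => by
  rw [coeff_C]; split_ifs <;> simp

lemma dX_X : dX (X : F[X][X]) 0 := fun k => by
  rw [coeff_X]; split_ifs <;> simp

lemma dX.pow {P : F[X][X]} {d : ℕ} (h : dX P d) : ∀ n : ℕ, dX (P ^ n) (n * d)
  | 0 => by simpa using dX_C (1 : F[X])
  | n + 1 => by rw [pow_succ, add_mul, one_mul]; exact (h.pow n).mul h

lemma dX_nat (n : ℕ) : dX (n : F[X][X]) 0 := by simpa using dX_C (n : F[X])

/-- The shift `P(X) ↦ P(X + T)`. -/
def sh : F[X] →+* F[X][X] := eval₂RingHom (C.comp C) (X + C X)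

lemma sh_C (a : F) : sh (C a) = C (C a) := by simp [sh]

lemma sh_X : sh (X : F[X]) = X + C X := by simp [sh]

lemma dX_sh (P : F[X]) : dX (sh P) P.natDegree := by
  conv_lhs => rw [P.as_sum_range_C_mul_X_pow]
  rw [map_sum]
  refine dX_sum _ _ fun i hi => ?_
  rw [map_mul, map_pow, sh_C, sh_X]
  have h1 : dX (X + C X : F[X][X]) 1 :=
    (dX_X.mono (by norm_num)).add ((dX_C _).mono natDegree_X_le)
  refine ((dX_C _).mul (h1.pow i)).mono ?_
  have := mem_range.1 hi
  rw [natDegree_C]; omega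

lemma map_sh (x : F) (P : F[X]) : (sh P).map (evalRingHom x) = P.comp (X + C x) := by
  have : (mapRingHom (evalRingHom x)).comp sh = compRingHom (X + C x) := by
    refine Polynomial.ringHom_ext (fun a => ?_) ?_
    · simp [sh_C]
    · simp [sh_X]
  exact RingHom.congr_fun this P

/-- The truncated binomial series. -/
def GG (f : F[X]) (c l : ℕ) : F[X][X] :=
  ∑ i ∈ range l, (sh f - C f) ^ i * C f ^ (l - 1 - i) * (c.choose i : F[X][X])

/-- The linear conditions. -/
def EE (f : F[X]) (c l J : ℕ) (r s : ℕ → F[X]) : F[X][X] :=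
  ∑ j ∈ range J, C X ^ j * (sh (r j) * C f ^ (l - 1) + sh (s j) * GG f c l)

lemma dX_GG (f : F[X]) (c l : ℕ) : dX (GG f c l) (l * f.natDegree) := by
  refine dX_sum _ _ fun i hi => ?_
  refine (((((dX_sh f).sub (dX_C f)).pow i).mul ((dX_C f).pow _)).mul (dX_nat _)).mono ?_
  have := mem_range.1 hi
  rw [add_zero, ← add_mul]; exact Nat.mul_le_mul_right _ (by omega)

lemma dX_EE (f : F[X]) (c l J n : ℕ) (r s : ℕ → F[X]) (hr : ∀ j, (r j).natDegree ≤ n)
    (hs : ∀ j, (s j).natDegree ≤ n) : dX (EE f c l J r s) (J + (n + l * f.natDegree)) := by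
  refine dX_sum _ _ fun j hj => ?_
  have h1 : dX (C X ^ j : F[X][X]) J := ((dX_C _).pow j).mono (by
    have := mem_range.1 hj; rw [natDegree_X]; omega)
  refine h1.mul (dX.add ?_ ?_)
  · exact (((dX_sh _).mono (hr j)).mul ((dX_C f).pow _)).mono
      (Nat.add_le_add_left (Nat.mul_le_mul_right _ (by omega)) _)
  · exact ((dX_sh _).mono (hs j)).mul (dX_GG f c l)

/-- Vanishing to high order. -/
lemma vanish [Fintype F] {f : F[X]} {c l J : ℕ} {r s : ℕ → F[X]} (hl : l ≤ c + 1)
    (hq : l ≤ Fintype.card F) (hE : ∀ k < l, (EE f c l J r s).coeff k = 0) {x : F}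
    (hx : f.eval x ≠ 0) (hx1 : f.eval x ^ c = 1) :
    (X - C x) ^ l ∣ ∑ j ∈ range J, (r j + s j * f ^ c) * (X ^ Fintype.card F) ^ j := by
  rw [X_sub_C_pow_dvd_iff]
  set a := f.eval x with ha
  set D := f.comp (X + C x) - C a with hD
  have hu : IsUnit (C a ^ (l - 1) : F[X]) := (isUnit_C.2 (IsUnit.mk0 a hx)).pow _
  rw [← hu.dvd_mul_right]
  have hXD : X ∣ D := by
    rw [X_dvd_iff, coeff_zero_eq_eval_zero]; simp [hD, eval_comp, ha]
  have h1 : X ^ l ∣ (EE f c l J r s).map (evalRingHom x) := by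
    rw [X_pow_dvd_iff]; intro d hd; rw [coeff_map, hE d hd, map_zero]
  set G := ∑ i ∈ range l, D ^ i * C a ^ (l - 1 - i) * (c.choose i : F[X]) with hG
  have h2 : (EE f c l J r s).map (evalRingHom x) = ∑ j ∈ range J,
      C x ^ j * ((r j).comp (X + C x) * C a ^ (l - 1) + (s j).comp (X + C x) * G) := by
    simp only [EE, GG, Polynomial.map_sum, Polynomial.map_mul, Polynomial.map_add,
      Polynomial.map_pow, Polynomial.map_sub, map_sh, map_C, Polynomial.map_natCast,
      coe_evalRingHom, eval_X, hG, hD, ha]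
  have h3 : X ^ l ∣ (f.comp (X + C x)) ^ c * C a ^ (l - 1) - G := by
    have e : f.comp (X + C x) = D + C a := by rw [hD]; ring
    rw [e, add_pow, ← sum_range_add_sum_Ico _ hl, add_mul, sum_mul (range l)]
    have e2 : ∑ i ∈ range l, D ^ i * C a ^ (c - i) * (c.choose i : F[X]) * C a ^ (l - 1) = G := by
      refine sum_congr rfl fun i hi => ?_
      have hi := mem_range.1 hi
      have : (C a : F[X]) ^ (c - i) * C a ^ (l - 1) = C a ^ (l - 1 - i) := by
        rw [← pow_add, show c - i + (l - 1) = c + (l - 1 - i) by omega, pow_add, ← C_pow, hx1]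
        simp
      rw [← this]; ring
    rw [e2, add_sub_cancel_left]
    refine Dvd.dvd.mul_right (dvd_sum fun i hi => ?_) _
    exact (((pow_dvd_pow X (mem_Ico.1 hi).1).trans (pow_dvd_pow_of_dvd hXD i)).mul_right _).mul_right _
  have h4 : X ^ l ∣ (X + C x) ^ Fintype.card F - C x := by
    rw [← FiniteField.expand_card]; simpa using pow_dvd_pow X hq
  rw [h2] at h1
  have h5 := dvd_sum (s := range J) (a := X ^ l) (f := fun j =>
    ((r j).comp (X + C x) + (s j).comp (X + C x) * (f.comp (X + C x)) ^ c) *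
      ((X + C x) ^ Fintype.card F) ^ j * C a ^ (l - 1) -
      C x ^ j * ((r j).comp (X + C x) * C a ^ (l - 1) + (s j).comp (X + C x) * G)) fun j _ => by
    obtain ⟨u, hu⟩ := h3
    obtain ⟨v, hv⟩ := h4.trans (sub_dvd_pow_sub_pow _ _ j)
    refine ⟨((r j).comp (X + C x) + (s j).comp (X + C x) * (f.comp (X + C x)) ^ c) * v *
      C a ^ (l - 1) + C x ^ j * (s j).comp (X + C x) * u, ?_⟩
    linear_combination ((r j).comp (X + C x) + (s j).comp (X + C x) * (f.comp (X + C x)) ^ c) *
      C a ^ (l - 1) * hv + C x ^ j * (s j).comp (X + C x) * hu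
  rw [sum_sub_distrib] at h5
  have h6 := dvd_add h5 h1
  rw [sub_add_cancel] at h6
  convert h6 using 1
  simp only [Polynomial.sum_comp, mul_comp, add_comp, pow_comp, X_comp, sum_mul]

/-- The polynomial with a given coefficient vector. -/
def pol {J n : ℕ} (v : Fin J → Fin n → F) (j : ℕ) : F[X] :=
  if h : j < J then ∑ i : Fin n, C (v ⟨j, h⟩ i) * X ^ (i : ℕ) else 0

lemma natDegree_pol {J n : ℕ} (v : Fin J → Fin n → F) (j : ℕ) : (pol v j).natDegree ≤ n := by
  unfold pol; split_ifs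
  · exact natDegree_sum_le_of_forall_le _ _ fun i _ =>
      (natDegree_C_mul_X_pow_le _ _).trans i.2.le
  · simp

lemma pol_add {J n : ℕ} (v w : Fin J → Fin n → F) (j : ℕ) : pol (v + w) j = pol v j + pol w j := by
  unfold pol; split_ifs
  · simp [add_mul, sum_add_distrib]
  · simp

lemma pol_smul {J n : ℕ} (a : F) (v : Fin J → Fin n → F) (j : ℕ) :
    pol (a • v) j = C a * pol v j := by
  unfold pol; split_ifs
  · simp [mul_sum, mul_assoc]
  · simp

lemma eq_zero_of_pol {J n : ℕ} (v : Fin J → Fin n → F) (h : ∀ j < J, pol v j = 0) : v = 0 := by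
  ext j i
  have := congrArg (fun P => P.coeff i) (h j j.2)
  simp only [pol, j.2, dif_pos, finsetSum_coeff, coeff_C_mul_X_pow, coeff_zero] at this
  rw [sum_eq_single i (fun b _ hb => if_neg fun h => hb (Fin.ext h.symm)) (by simp)] at this
  simpa using this

lemma exists_aux (f : F[X]) (c l J n : ℕ) (h : l * (J + (n + l * f.natDegree) + 1) < 2 * (J * n)) :
    ∃ r s : ℕ → F[X], (∀ j, (r j).natDegree ≤ n) ∧ (∀ j, (s j).natDegree ≤ n) ∧
      (¬ ∀ j < J, r j = 0 ∧ s j = 0) ∧ ∀ k < l, (EE f c l J r s).coeff k = 0 := by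
  set B := J + (n + l * f.natDegree) + 1 with hB
  let Φ : ((Fin J → Fin n → F) × (Fin J → Fin n → F)) →ₗ[F] (Fin l → Fin B → F) :=
    { toFun := fun v k i => ((EE f c l J (pol v.1) (pol v.2)).coeff k).coeff i
      map_add' := fun v w => by
        ext k i
        rw [Pi.add_apply, Pi.add_apply, ← coeff_add, ← coeff_add]
        congr 2
        simp only [EE, Prod.fst_add, Prod.snd_add, pol_add, map_add, ← sum_add_distrib]
        exact sum_congr rfl fun j _ => by ring
      map_smul' := fun a v => by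
        ext k i
        rw [Pi.smul_apply, Pi.smul_apply, RingHom.id_apply, smul_eq_mul, ← coeff_C_mul,
          ← coeff_C_mul]
        congr 2
        simp only [EE, Prod.smul_fst, Prod.smul_snd, pol_smul, map_mul, sh_C, mul_sum]
        exact sum_congr rfl fun j _ => by ring }
  have hk : LinearMap.ker Φ ≠ ⊥ := Φ.ker_ne_bot_of_finrank_lt (by
    simp only [Module.finrank_prod, Module.finrank_pi_fintype, Module.finrank_self,
      Fintype.card_fin, sum_const, card_univ, smul_eq_mul, mul_one]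
    omega)
  obtain ⟨v, hv, hv0⟩ := Submodule.exists_mem_ne_zero_of_ne_bot hk
  refine ⟨pol v.1, pol v.2, natDegree_pol _, natDegree_pol _, fun h0 => hv0 ?_, fun k hk => ?_⟩
  · exact Prod.ext (eq_zero_of_pol _ fun j hj => (h0 j hj).1)
      (eq_zero_of_pol _ fun j hj => (h0 j hj).2)
  · ext i
    by_cases hi : i < B
    · exact congrFun (congrFun (LinearMap.mem_ker.1 hv) ⟨k, hk⟩) ⟨i, hi⟩
    · exact coeff_eq_zero_of_natDegree_lt
        ((dX_EE f c l J n _ _ (natDegree_pol _) (natDegree_pol _) k).trans_lt (by omega))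

/-- The main count. -/
lemma count [Fintype F] [DecidableEq F] {f : F[X]} {c l J n : ℕ}
    (hq : Fintype.card F = 2 * c + 1) (hf : Squarefree f) (hd : 0 < f.natDegree)
    (h0 : f.eval 0 ≠ 0) (hn : n + f.natDegree ≤ c) (hl : l ≤ c + 1)
    (h : l * (J + (n + l * f.natDegree) + 1) < 2 * (J * n)) :
    (univ.filter fun x : F => f.eval x ≠ 0 ∧ f.eval x ^ c = 1).card * l ≤
      (J + f.natDegree) * Fintype.card F := by
  obtain ⟨r, s, hr, hs, hne, hE⟩ := exists_aux f c l J n h
  set R := ∑ j ∈ range J, (r j + s j * f ^ c) * (X ^ Fintype.card F) ^ j with hR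
  have hR0 : R ≠ 0 := fun h => hne (aux_ne_zero hq hf hd h0 hn J r s hr hs h)
  set S := univ.filter fun x : F => f.eval x ≠ 0 ∧ f.eval x ^ c = 1
  have hdvd : ∏ x ∈ S, (X - C x) ^ l ∣ R := by
    refine prod_dvd_of_coprime (fun x _ y _ hxy => ?_) fun x hx => ?_
    · exact (pairwise_coprime_X_sub_C (s := id) Function.injective_id hxy).pow
    · obtain ⟨h1, h2⟩ := (mem_filter.1 hx).2
      exact vanish hl (by omega) hE h1 h2
  have h1 := natDegree_le_of_dvd hdvd hR0
  rw [natDegree_prod_of_monic _ _ fun x _ => (monic_X_sub_C x).pow l] at h1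
  simp only [natDegree_pow, natDegree_X_sub_C, mul_one, sum_const, smul_eq_mul] at h1
  refine h1.trans (natDegree_sum_le_of_forall_le _ _ fun j hj => ?_)
  have hj := mem_range.1 hj
  refine natDegree_mul_le.trans ?_
  have h2 : (r j + s j * f ^ c).natDegree ≤ n + c * f.natDegree :=
    (natDegree_add_le _ _).trans (max_le ((hr j).trans (Nat.le_add_right _ _))
      (natDegree_mul_le.trans (add_le_add (hs j) natDegree_pow_le)))
  rw [natDegree_pow, natDegree_X_pow, hq]
  have : (j + 1) * (2 * c + 1) ≤ J * (2 * c + 1) := Nat.mul_le_mul_right _ hj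
  nlinarith

end MR.W2

namespace MR

theorem w2 : S_W2 := by
  intro m
  refine ⟨11 * m + 16, fun F _ _ _ f hodd hmon hm hm0 hsep h0 => ?_⟩
  obtain ⟨c, hq⟩ := hodd
  have hc : (Fintype.card F - 1) / 2 = c := by omega
  rw [hc]
  set q := Fintype.card F with hqd
  set l := Nat.sqrt q with hl
  have hl1 : l * l ≤ q := Nat.sqrt_le q
  have hl2 : q < (l + 1) * (l + 1) := Nat.lt_succ_sqrt q
  have hs1 : (1 : ℝ) ≤ Real.sqrt q := Real.one_le_sqrt.2 (by rw [hq]; push_cast; linarith)
  have hsq : Real.sqrt q * Real.sqrt q = q := Real.mul_self_sqrt (Nat.cast_nonneg _)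
  have hsl : Real.sqrt q ≤ l + 1 := by
    rw [Real.sqrt_le_left (by positivity), sq]; exact_mod_cast hl2.le
  have hm' : (0 : ℝ) ≤ m := Nat.cast_nonneg _
  by_cases hsmall : l < 4 * m + 8
  · have h1 : ((univ.filter fun x : F => f.eval x = 0 ∨ f.eval x ^ c = 1).card : ℝ) ≤ q := by
      exact_mod_cast card_le_univ _
    have h2 : (l : ℝ) + 1 ≤ 4 * m + 8 := by exact_mod_cast hsmall
    have h3 : (0 : ℝ) ≤ q := Nat.cast_nonneg _
    nlinarith
  have hl3 : 4 * m + 8 ≤ l := not_lt.1 hsmall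
  have hl4 : (4 * m + 8) * l ≤ 2 * c + 1 := (Nat.mul_le_mul_right _ hl3).trans (hq ▸ hl1)
  have hl5 : 8 * l ≤ 2 * c + 1 := (Nat.mul_le_mul_right _ (by omega)).trans hl4
  obtain ⟨n, hn⟩ : ∃ n, c = n + m := ⟨c - m, by omega⟩
  set J := l / 2 + 2 * m + 4 with hJ
  have hJ1 : l + 4 * m + 7 ≤ 2 * J := by omega
  have hJ2 : J ≤ l := by omega
  have hJ3 : 2 * J ≤ l + 4 * m + 8 := by omega
  have hn1 : l * l ≤ 3 * n := by omega
  have key := W2.count (f := f) (c := c) (l := l) (J := J) (n := n) hq hsep.squarefree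
    (by omega) h0 (by omega) (by omega) (by
      rw [hm]
      have e1 : (l + 4 * m + 7) * n ≤ 2 * J * n := Nat.mul_le_mul_right _ hJ1
      have e2 : l * J ≤ l * l := Nat.mul_le_mul_left _ hJ2
      have e3 : m * (l * l) ≤ m * (3 * n) := Nat.mul_le_mul_left _ hn1
      have e4 : l ≤ l * l := Nat.le_mul_self l
      have e5 : 0 < n := by omega
      nlinarith)
  rw [hm, ← hqd] at key
  set N1 := (univ.filter fun x : F => f.eval x ≠ 0 ∧ f.eval x ^ c = 1).card
  have hsplit : (univ.filter fun x : F => f.eval x = 0 ∨ f.eval x ^ c = 1).card ≤ m + N1 := by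
    have h1 : f.roots.toFinset.card ≤ m := (Multiset.toFinset_card_le _).trans (hm ▸ card_roots' f)
    refine le_trans (card_le_card fun x hx => ?_) ((card_union_le f.roots.toFinset _).trans
      (Nat.add_le_add_right h1 _))
    have hx := (mem_filter.1 hx).2
    by_cases hx0 : f.eval x = 0
    · exact mem_union_left _ (Multiset.mem_toFinset.2 ((mem_roots hmon.ne_zero).2 hx0))
    · exact mem_union_right _ (mem_filter.2 ⟨mem_univ _, hx0, hx.resolve_left hx0⟩)
  have hlR : (4 * m + 8 : ℝ) ≤ l := by exact_mod_cast hl3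
  have hl0 : (0 : ℝ) < l := by linarith
  have k1 : (N1 : ℝ) * l ≤ (J + m) * q := by exact_mod_cast key
  have k2 : (2 * J : ℝ) ≤ l + 4 * m + 8 := by exact_mod_cast hJ3
  have k3 : (q : ℝ) ≤ 2 * l * Real.sqrt q := by nlinarith
  have k4 : (N1 : ℝ) ≤ q / 2 + (6 * m + 8) * Real.sqrt q := by
    refine le_of_mul_le_mul_right (k1.trans ?_) hl0
    have h3 : (0 : ℝ) ≤ q := Nat.cast_nonneg _
    calc ((J : ℝ) + m) * q ≤ (l / 2 + (3 * m + 4)) * q := by gcongr ?_ * _; linarith
      _ = q / 2 * l + (3 * m + 4) * q := by ring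
      _ ≤ q / 2 * l + (3 * m + 4) * (2 * l * Real.sqrt q) := by gcongr
      _ = _ := by ring
  have k5 : ((univ.filter fun x : F => f.eval x = 0 ∨ f.eval x ^ c = 1).card : ℝ) ≤ m + N1 := by
    exact_mod_cast hsplit
  nlinarith

end MR
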