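import Pool.Agent.P.MP_79de8b_nt.Basic

/-! The bound for Kloosterman sums over the extensions of a prime field. -/

open Finset Polynomial

noncomputable section
namespace MR
namespace W3

variable {F : Type} [Field F] [Fintype F] [DecidableEq F]

/-- number of solutions of `a x + b / x = s` -/
def cnt (a b s : F) : ℕ := (univ.filter fun x : Fˣ => a * x + b * (x⁻¹ : Fˣ) = s).card

omit [Fintype F] [DecidableEq F] in
theorem quad {a b s : F} {x : Fˣ} (h : a * x + b * (x⁻¹ : Fˣ) = s) :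
    a * (x : F) ^ 2 - s * x + b = 0 := by
  have h1 : ((x⁻¹ : Fˣ) : F) * x = 1 := x.inv_mul
  linear_combination x * h - b * h1

omit [Fintype F] [DecidableEq F] in
theorem card_quad {a : F} (ha : a ≠ 0) (s b : F) {T : Finset F}
    (h : ∀ x ∈ T, a * x ^ 2 + s * x + b = 0) : T.card ≤ 2 := by
  have h1 : (C a * X ^ 2 + C s * X + C b).natDegree = 2 := natDegree_quadratic ha
  have h2 : (C a * X ^ 2 + C s * X + C b) ≠ 0 := fun h0 => by simp [h0] at h1
  rw [← h1]
  refine card_le_degree_of_subset_roots fun x hx => ?_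
  rw [mem_roots h2, IsRoot.def]
  simpa using h x hx

theorem cnt_le {a : F} (ha : a ≠ 0) (b s : F) : cnt a b s ≤ 2 := by
  rw [cnt, ← card_image_of_injective _ Units.val_injective]
  refine card_quad ha (-s) b fun y hy => ?_
  obtain ⟨x, hx, rfl⟩ := mem_image.mp hy
  linear_combination quad (mem_filter.mp hx).2

theorem cnt_disc (hq : Odd (Fintype.card F)) {a b s : F} (h : cnt a b s ≠ 0) :
    s ^ 2 - 4 * a * b = 0 ∨ (s ^ 2 - 4 * a * b) ^ ((Fintype.card F - 1) / 2) = 1 := by
  obtain ⟨x, hx⟩ := card_ne_zero.mp h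
  have h1 : s ^ 2 - 4 * a * b = (2 * a * x - s) ^ 2 := by
    linear_combination (-4 * a) * quad (mem_filter.mp hx).2
  by_cases h2 : 2 * a * x - s = 0
  · exact Or.inl (by rw [h1, h2]; ring)
  · obtain ⟨k, hk⟩ := hq
    refine Or.inr ?_
    rw [h1, ← pow_mul, show 2 * ((Fintype.card F - 1) / 2) = Fintype.card F - 1 by omega]
    exact FiniteField.pow_card_sub_one_eq_one _ h2

theorem sum_cnt (a b : F) (P : F → F) (g : F → ℂ) (hg : ∀ s w, g (s - P w) = g s) :
    ∑ u, ((∑ w, cnt a b (P w + u) : ℕ) : ℂ) * g u =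
      Fintype.card F * ∑ x : Fˣ, g (a * x + b * (x⁻¹ : Fˣ)) := by
  have h1 : ∑ s, (cnt a b s : ℂ) * g s = ∑ x : Fˣ, g (a * x + b * (x⁻¹ : Fˣ)) := by
    rw [← sum_fiberwise univ (fun x : Fˣ => a * x + b * (x⁻¹ : Fˣ))]
    refine sum_congr rfl fun s _ => ?_
    rw [sum_congr rfl fun x hx => by rw [(mem_filter.mp hx).2], sum_const, nsmul_eq_mul, cnt]
  simp only [Nat.cast_sum, sum_mul]
  rw [sum_comm, sum_congr rfl fun w _ => ?_, sum_const, card_univ, nsmul_eq_mul]
  rw [← h1]
  exact Fintype.sum_equiv (Equiv.addLeft (P w)) _ _ fun u => by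
    rw [Equiv.coe_addLeft, ← hg (P w + u) w, add_sub_cancel_left]

/-- the averaging argument -/
theorem bound {a b : F} (P : F → F) (g : F → ℂ) (hg : ∀ s w, g (s - P w) = g s)
    (h1 : ∀ s, ‖g s‖ ≤ 1) (h0 : ∑ s, g s = 0) (ha : a ≠ 0) {E : ℝ} (hE : 0 ≤ E)
    (hM : ∀ u, u ^ 2 - 4 * a * b ≠ 0 →
      ((∑ w, cnt a b (P w + u) : ℕ) : ℝ) ≤ Fintype.card F + E) :
    ‖∑ x : Fˣ, g (a * x + b * (x⁻¹ : Fˣ))‖ ≤ 5 + E := by
  set q : ℝ := (Fintype.card F : ℝ) with hq
  have hq0 : 0 < q := Nat.cast_pos.mpr Fintype.card_pos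
  set M : F → ℝ := fun u => ((∑ w, cnt a b (P w + u) : ℕ) : ℝ) with hMd
  have h2 : ∑ u, M u = q * (q - 1) := by
    have h3 := sum_cnt a b P (fun _ => 1) fun _ _ => rfl
    simp only [mul_one, sum_const, card_univ, Fintype.card_units, nsmul_eq_mul] at h3
    rw [Nat.cast_sub Fintype.card_pos, Nat.cast_one] at h3
    apply Complex.ofReal_injective
    simpa only [hMd, hq, Complex.ofReal_sum, Complex.ofReal_natCast, Complex.ofReal_mul,
      Complex.ofReal_sub, Complex.ofReal_one] using h3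
  have h3 : ∀ u, |M u - (q + E)| ≤
      q + E - M u + if u ^ 2 - 4 * a * b = 0 then 2 * q else 0 := fun u => by
    split_ifs with h4
    · have h5 : M u ≤ 2 * q := by
        have : ∑ w, cnt a b (P w + u) ≤ Fintype.card F * 2 :=
          (sum_le_card_nsmul _ _ 2 fun w _ => cnt_le ha b _).trans (by simp)
        rw [mul_comm, hMd, hq]
        beta_reduce
        exact_mod_cast this
      rw [abs_le]
      constructor <;> linarith
    · have := hM u h4
      rw [abs_le]
      constructor <;> linarith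
  have h4 : ∑ u : F, (if u ^ 2 - 4 * a * b = 0 then 2 * q else 0) ≤ 2 * (2 * q) := by
    rw [← sum_filter, sum_const, nsmul_eq_mul]
    refine mul_le_mul_of_nonneg_right ?_ (by positivity)
    exact_mod_cast card_quad one_ne_zero 0 (-(4 * a * b)) fun x hx => by
      linear_combination (mem_filter.mp hx).2
  have h5 : (q : ℂ) * ∑ x : Fˣ, g (a * x + b * (x⁻¹ : Fˣ)) =
      ∑ u, ((M u - (q + E) : ℝ) : ℂ) * g u := by
    simp only [Complex.ofReal_sub, sub_mul, sum_sub_distrib]
    rw [← mul_sum, h0, mul_zero, sub_zero]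
    exact (sum_cnt a b P g hg).symm
  have h6 : q * ‖∑ x : Fˣ, g (a * x + b * (x⁻¹ : Fˣ))‖ ≤ q * (5 + E) := by
    have h7 := congrArg norm h5
    rw [norm_mul, Complex.norm_real, Real.norm_of_nonneg hq0.le] at h7
    rw [h7]
    refine (norm_sum_le _ _).trans ((sum_le_sum fun u _ => ?_).trans
      (?_ : ∑ u : F, (q + E - M u + if u ^ 2 - 4 * a * b = 0 then 2 * q else 0) ≤ _))
    · rw [norm_mul, Complex.norm_real, Real.norm_eq_abs]
      exact (mul_le_of_le_one_right (abs_nonneg _) (h1 u)).trans (h3 u)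
    · rw [sum_add_distrib, sum_sub_distrib, h2, sum_const, card_univ, nsmul_eq_mul]
      linarith
  exact le_of_mul_le_mul_left h6 hq0

omit [Fintype F] [DecidableEq F] in
theorem poly (p : ℕ) [Fact p.Prime] [CharP F p] (h2 : (2 : F) ≠ 0) (u : F) {d : F} (hd : d ≠ 0) :
    ((X ^ p - X + C u) ^ 2 - C d : F[X]).Monic ∧
      ((X ^ p - X + C u) ^ 2 - C d : F[X]).natDegree = 2 * p ∧
      ((X ^ p - X + C u) ^ 2 - C d : F[X]).Separable := by
  have hp := (Fact.out : p.Prime).two_le
  have e : (X ^ p - X + C u : F[X]) = X ^ p - (X - C u) := by ring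
  have h3 : (X - C u : F[X]).degree < p := by
    rw [degree_X_sub_C]
    exact_mod_cast hp
  have h4 : (X ^ p - X + C u : F[X]).Monic := by
    rw [e]
    exact monic_X_pow_sub h3
  have h5 : (X ^ p - X + C u : F[X]).natDegree = p := by
    rw [e, natDegree_sub_eq_left_of_natDegree_lt, natDegree_X_pow]
    rw [natDegree_X_sub_C, natDegree_X_pow]
    omega
  have h6 : ((X ^ p - X + C u) ^ 2 : F[X]).natDegree = 2 * p := by rw [h4.natDegree_pow, h5]
  refine ⟨(h4.pow 2).sub_of_left ?_, by rw [natDegree_sub_C, h6], ?_⟩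
  · refine degree_C_le.trans_lt ?_
    rw [degree_eq_natDegree (h4.pow 2).ne_zero, h6]
    exact_mod_cast (by omega : 0 < 2 * p)
  · have h7 : derivative ((X ^ p - X + C u) ^ 2 - C d : F[X]) = -(2 * (X ^ p - X + C u)) := by
      simp only [derivative_sub, derivative_add, derivative_C, derivative_X, derivative_X_pow,
        derivative_sq, CharP.cast_eq_zero, map_zero, zero_mul, map_ofNat]
      ring
    refine ⟨-C d⁻¹, -(C d⁻¹ * C 2⁻¹ * (X ^ p - X + C u)), ?_⟩
    have h8 : (C d⁻¹ * C d : F[X]) = 1 := by rw [← C_mul, inv_mul_cancel₀ hd, C_1]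
    have h9 : (C 2⁻¹ * 2 : F[X]) = 1 := by
      rw [show (2 : F[X]) = C 2 from rfl, ← C_mul, inv_mul_cancel₀ h2, C_1]
    rw [h7]
    linear_combination h8 + C d⁻¹ * (X ^ p - X + C u) ^ 2 * h9

end W3

open W3 in
theorem w3 (h : S_W2) : S_W3 := by
  classical
  intro p _ a b hp2 ha hb
  have hp : p.Prime := Fact.out
  obtain ⟨C0, hC⟩ := h (2 * p)
  refine ⟨5 + 2 * |C0|, fun n hn => ?_⟩
  let F := GaloisField p n
  have : Fintype F := Fintype.ofFinite _
  have hq : Fintype.card F = p ^ n := by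
    rw [← Nat.card_eq_fintype_card]
    exact GaloisField.card p n (by omega)
  have hodd : Odd (Fintype.card F) := by
    rw [hq]
    exact (hp.odd_of_ne_two hp2).pow
  have h2 : (2 : F) ≠ 0 := fun h0 => hp2 ((Nat.prime_dvd_prime_iff_eq hp Nat.prime_two).mp
    ((CharP.cast_eq_zero_iff F p 2).mp (by exact_mod_cast h0)))
  set a' := algebraMap (ZMod p) F a
  set b' := algebraMap (ZMod p) F b
  have ha' : a' ≠ 0 := (_root_.map_ne_zero _).mpr ha
  have hb' : b' ≠ 0 := (_root_.map_ne_zero _).mpr hb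
  have hd : 4 * a' * b' ≠ 0 := mul_ne_zero (mul_ne_zero (by
    rw [show (4 : F) = 2 * 2 by norm_num]
    exact mul_ne_zero h2 h2) ha') hb'
  have hs : Real.sqrt (Fintype.card F) = Real.sqrt p ^ n := by
    rw [hq, Nat.cast_pow, Real.sqrt_eq_iff_mul_self_eq (by positivity) (by positivity), ← mul_pow,
      Real.mul_self_sqrt (by positivity)]
  have hs1 : 1 ≤ Real.sqrt (Fintype.card F) :=
    Real.one_le_sqrt.mpr (by exact_mod_cast Fintype.card_pos)
  have key := bound (a := a') (b := b') (fun w => w ^ p - w)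
    (fun s => ZMod.stdAddChar (Algebra.trace (ZMod p) F s)) (fun s w => ?_)
    (fun s => (AddChar.norm_apply _ _).le) ?_ ha'
    (E := 2 * |C0| * Real.sqrt (Fintype.card F)) (by positivity) fun u hu => ?_
  · rw [Kn, finsum_eq_sum_of_fintype, ← hs]
    refine key.trans ?_
    nlinarith
  · have h3 := Algebra.trace_eq_of_algEquiv
      (FiniteField.frobeniusAlgEquivOfAlgebraic (ZMod p) F) w
    rw [FiniteField.coe_frobeniusAlgEquivOfAlgebraic, ZMod.card] at h3
    simp only [map_sub, h3, sub_self, sub_zero]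
  · refine AddChar.sum_eq_zero_of_ne_one (ψ := (ZMod.stdAddChar (N := p)).compAddMonoidHom
      (Algebra.trace (ZMod p) F).toAddMonoidHom) fun h3 => ?_
    obtain ⟨s, hs⟩ := Algebra.trace_surjective (ZMod p) F 1
    have h4 : ZMod.stdAddChar (Algebra.trace (ZMod p) F s) = 1 := DFunLike.congr_fun h3 s
    rw [hs, ← (ZMod.stdAddChar (N := p)).map_zero_eq_one] at h4
    exact one_ne_zero (ZMod.injective_stdAddChar h4)
  · obtain ⟨h3, h4, h5⟩ := poly p h2 u hd
    have h6 := hC F _ hodd h3 h4 (by have := hp.pos; omega) h5 (by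
      simpa [hp.ne_zero] using hu)
    simp only [eval_sub, eval_pow, eval_add, eval_X, eval_C] at h6
    have h7 : ∑ w : F, cnt a' b' (w ^ p - w + u) ≤ (univ.filter fun w : F =>
        (w ^ p - w + u) ^ 2 - 4 * a' * b' = 0 ∨
        ((w ^ p - w + u) ^ 2 - 4 * a' * b') ^ ((Fintype.card F - 1) / 2) = 1).card * 2 := by
      rw [← sum_filter_of_ne fun w _ hw => cnt_disc hodd hw]
      exact (sum_le_card_nsmul _ _ 2 fun w _ => cnt_le ha' b' _).trans (by simp)
    have h8 := (Nat.cast_le (α := ℝ)).mpr h7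
    rw [Nat.cast_mul, Nat.cast_ofNat] at h8
    nlinarith [le_abs_self C0]

end MR
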