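import Pool.Agent.P.MP_79de8b_nt.Basic

/-! The Weil bound for Kloosterman sums to prime moduli. -/

open Finset

namespace MR
namespace Weil

lemma le_of_pow {D C x r : ℝ} (hD : 0 < D) (hr : 0 < r)
    (h : ∀ n, 1 ≤ n → D * x ^ n ≤ C * r ^ n) : x ≤ r := by
  by_contra hx
  have h1 : 1 < x / r := (one_lt_div hr).mpr (not_le.mp hx)
  obtain ⟨n, hn⟩ := pow_unbounded_of_one_lt (C / D) h1
  have h2 := hn.trans_le (pow_le_pow_right₀ h1.le n.le_succ)
  rw [div_pow, div_lt_div_iff₀ hD (pow_pos hr _)] at h2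
  linarith [h n.succ n.succ_pos]

lemma root_le {α β : ℂ} {C r : ℝ} (hr : 0 < r) (h : ∀ n, 1 ≤ n → ‖α ^ n + β ^ n‖ ≤ C * r ^ n) :
    ‖α‖ ≤ r := by
  by_cases e : α = β
  · refine le_of_pow (C := C) two_pos hr fun n hn => ?_
    have := h n hn
    rwa [← e, ← two_mul, norm_mul, norm_pow, Complex.norm_ofNat] at this
  · refine le_of_pow (C := C * (r + ‖β‖)) (norm_pos_iff.mpr (sub_ne_zero.mpr e)) hr fun n hn => ?_
    rw [← norm_pow, ← norm_mul, show (α - β) * α ^ n =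
      α ^ (n + 1) + β ^ (n + 1) - β * (α ^ n + β ^ n) by ring]
    refine (norm_sub_le _ _).trans ((add_le_add (h _ (Nat.le_add_left 1 n)) ((norm_mul _ _).trans_le
      (mul_le_mul_of_nonneg_left (h n hn) (norm_nonneg _)))).trans_eq (by ring))

lemma Kn_one (p : ℕ) [Fact p.Prime] (a b : ℤ) :
    Kn p 1 (a : ZMod p) (b : ZMod p) = kl (fun _ => 1) a b p := by
  rw [kl_eq, Kn, ← finsum_eq_sum_of_fintype,
    ← finsum_comp_equiv (Units.mapEquiv (GaloisField.equivZmodP p).toMulEquiv).toEquiv]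
  refine finsum_congr fun x => ?_
  rw [one_mul, ← Algebra.trace_eq_of_algEquiv (GaloisField.equivZmodP p), Algebra.trace_self_apply]
  simp

end Weil

open Weil

theorem weil (h1 : S_W1) (h3 : S_W3) : S_Weil := by
  intro p a b hp ha hb
  have : Fact p.Prime := ⟨hp⟩
  have hr : 1 ≤ Real.sqrt p := Real.one_le_sqrt.mpr (by exact_mod_cast hp.pos)
  by_cases h2 : p = 2
  · refine (norm_kl_le (fun _ => norm_one.le) a b p).trans ?_
    subst h2
    push_cast at hr ⊢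
    linarith
  have ha' : (a : ZMod p) ≠ 0 := fun h => ha ((ZMod.intCast_zmod_eq_zero_iff_dvd a p).mp h)
  have hb' : (b : ZMod p) ≠ 0 := fun h => hb ((ZMod.intCast_zmod_eq_zero_iff_dvd b p).mp h)
  obtain ⟨e2, e3⟩ := h1 p _ _ ha' hb'
  obtain ⟨C, hC⟩ := h3 p _ _ h2 ha' hb'
  rw [← Kn_one]
  set k := fun n => Kn p n (a : ZMod p) (b : ZMod p)
  obtain ⟨δ, hδ⟩ := IsAlgClosed.exists_pow_nat_eq (k 1 ^ 2 - 4 * p) two_pos
  obtain ⟨α, β, s1, s2⟩ : ∃ α β : ℂ, α + β = -k 1 ∧ α * β = p :=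
    ⟨(-k 1 + δ) / 2, (-k 1 - δ) / 2, by ring, by linear_combination (-1 / 4) * hδ⟩
  have e1 : k 1 = -(α + β) := by rw [s1, neg_neg]
  have key : ∀ n, k (n + 1) = -(α ^ (n + 1) + β ^ (n + 1)) ∧
      k (n + 2) = -(α ^ (n + 2) + β ^ (n + 2)) := fun n => by
    induction n with
    | zero =>
      refine ⟨by simpa using e1, (show k 2 = 2 * p - k 1 ^ 2 from e2).trans ?_⟩
      rw [e1, ← s2]
      ring
    | succ n ih =>
      refine ⟨ih.2, (show k (n + 1 + 2) = -(k 1 * k (n + 2)) - p * k (n + 1) from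
        e3 (n + 1) (Nat.le_add_left 1 n)).trans ?_⟩
      rw [ih.1, ih.2, e1, ← s2]
      ring
  have hb : ∀ n, 1 ≤ n → ‖α ^ n + β ^ n‖ ≤ C * Real.sqrt p ^ n := fun n hn => by
    obtain ⟨m, rfl⟩ := Nat.exists_eq_add_of_le' hn
    rw [← norm_neg, ← (key m).1]
    exact hC _ hn
  change ‖k 1‖ ≤ _
  rw [e1, norm_neg, two_mul]
  exact (norm_add_le _ _).trans (add_le_add (root_le (by linarith) hb)
    (root_le (β := α) (by linarith) fun n hn => by rw [add_comm]; exact hb n hn))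

end MR
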