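import Pool.Agent.P.MP_79de8b_nt.Defs

/-! Statements of the packages for the Mazur-Rubin variance theorem (MP_79de8b_nt). -/

open Complex UpperHalfPlane MeasureTheory Finset CongruenceSubgroup Filter Topology
open scoped Real MatrixGroups ComplexConjugate ENNReal

noncomputable section
namespace MR

/-! ### A. Arithmetic toolbox -/

def S_A1 : Prop :=
  (∀ k : ℕ, ∃ C : ℝ, 1 ≤ C ∧ ∀ n : ℕ, 1 ≤ n → tau n ^ k ≤ C * n) ∧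
  (∀ m n : ℕ, tau (m * n) ≤ tau m * tau n) ∧
  (∀ q : ℕ, 0 < q → (q : ℝ) ≤ (q.primeFactors.card + 1) * q.totient ∧
    (2 : ℝ) ^ q.primeFactors.card ≤ tau q ∧ (q : ℝ) ≤ tau q * q.totient) ∧
  (∀ X : ℕ, ∑ n ∈ Icc 1 X, tau n ≤ X * (1 + Real.log X)) ∧
  (∀ X : ℕ, ∑ n ∈ Icc 1 X, tau n ^ 2 / n ≤ (1 + Real.log X) ^ 4) ∧
  (∀ m Y : ℕ, 0 < m →
    ∑ c ∈ Icc 1 Y, tau c * Real.sqrt (m.gcd c) ≤ tau m ^ 2 * Y * (1 + Real.log Y))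

def S_A2 : Prop :=
  (∀ h c : ℕ, 0 < h → part h c ∣ h ∧ (h / part h c).Coprime c ∧
    (∀ p, p.Prime → p ∣ part h c → p ∣ c) ∧
    (∀ Q, Q ∣ h → Q ∣ c → Q ∣ part h c) ∧
    (∀ r, 0 < r → r.Coprime c → part (r * h) c = part h c)) ∧
  (∀ (κ : ℝ) (j : ℕ), 0 < κ → ∃ C : ℕ, ∀ (c : ℕ) (s : Finset ℕ), 0 < c →
    (∀ e ∈ s, 0 < e ∧ ∀ p, p.Prime → p ∣ e → p ∣ c) →
    ∑ e ∈ s, tau e ^ j * (e : ℝ) ^ (-κ) ≤ C * tau c ^ C) ∧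
  (∀ N k : ℕ, 0 < N → ∃ q₀ : ℕ, ∀ q ≥ q₀,
    Real.exp (Real.log q ^ (1 / 10 : ℝ)) ≤ Lam q →
    ∃ r : ℕ, r ∣ q ∧ r.Coprime (q / r * N) ∧ Lam q ^ k ≤ r ∧ r ^ 10 ≤ q)

/-- Averages over classes of reduced residues. -/
def S_Av : Prop := ∀ N q ρ : ℕ, 0 < N → 0 < q → ρ.Coprime N →
  (UU N q ρ).card * N.totient = (q * N).totient ∧ q.totient ≤ (UU N q ρ).card ∧
  (∀ φ : ℕ → ℂ, (∀ x, φ (x + q) = φ x) →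
    av (un q) φ = av (un N) fun ρ' => av (UU N q ρ') φ) ∧
  (∃ x₀ : ℕ → ℕ, ∀ h : ℤ, ∑ x ∈ UU N q ρ, ex (h * x / (q * N)) =
    ∑ δ ∈ q.divisors.filter (·.Coprime N), (ArithmeticFunction.moebius δ : ℂ) *
      (if ((q / δ : ℕ) : ℤ) ∣ h then ((q / δ : ℕ) : ℂ) * ex (h * x₀ δ / (q * N)) else 0)) ∧
  (∀ D : ℕ → ℂ, av (un N) (fun ρ' => D (q * ρ' % N)) =
    av (un N) fun ρ' => D (q.gcd N * ρ' % N))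

/-! ### W, K. Kloosterman sums -/

def S_W1 : Prop := ∀ (p : ℕ) [Fact p.Prime] (a b : ZMod p), a ≠ 0 → b ≠ 0 →
  Kn p 2 a b = 2 * p - Kn p 1 a b ^ 2 ∧
  ∀ n, 1 ≤ n → Kn p (n + 2) a b = -(Kn p 1 a b * Kn p (n + 1) a b) - p * Kn p n a b

def S_W2 : Prop := ∀ m : ℕ, ∃ C : ℝ, ∀ (F : Type) [Field F] [Fintype F] [DecidableEq F]
  (f : Polynomial F), Odd (Fintype.card F) → f.Monic → f.natDegree = m → 0 < m → f.Separable →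
  f.eval 0 ≠ 0 →
  ((univ.filter fun x : F => f.eval x = 0 ∨ f.eval x ^ ((Fintype.card F - 1) / 2) = 1).card : ℝ)
    ≤ Fintype.card F / 2 + C * Real.sqrt (Fintype.card F)

def S_W3 : Prop := ∀ (p : ℕ) [Fact p.Prime] (a b : ZMod p), p ≠ 2 → a ≠ 0 → b ≠ 0 →
  ∃ C : ℝ, ∀ n, 1 ≤ n → ‖Kn p n a b‖ ≤ C * Real.sqrt p ^ n

def S_Weil : Prop := ∀ (p : ℕ) (a b : ℤ), p.Prime → ¬ (p : ℤ) ∣ a → ¬ (p : ℤ) ∣ b →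
  ‖kl (fun _ => 1) a b p‖ ≤ 2 * Real.sqrt p

/-- Prime powers, `a` and `b` not both divisible by `p`. -/
def S_PP0 : Prop := ∀ (p k i ρ : ℕ) (a b : ℤ), p.Prime → 2 ≤ k → i ≤ k →
  ¬ ((p : ℤ) ∣ a ∧ (p : ℤ) ∣ b) →
  ‖kl (cls ρ (p ^ i)) a b (p ^ k)‖ ≤ (if p = 2 then 8 else 2) * Real.sqrt ((p : ℝ) ^ k)

def S_KL : Prop := ∀ (c D ρ : ℕ) (a b : ℤ), 0 < c → D ∣ c →
  ‖kl (cls ρ D) a b c‖ ≤ 4 * tau c * Real.sqrt (c * ((a.gcd b).gcd c : ℕ))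

/-- Twisted multiplicativity and scaling. -/
def S_KM : Prop :=
  (∀ (r c D ρ : ℕ) (a b : ℤ), 0 < r → 0 < c → r.Coprime c → D ∣ c →
    kl (cls ρ D) a b (r * c) =
      kl (fun _ => 1) (a * iv c r) (b * iv c r) r * kl (cls ρ D) (a * iv r c) (b * iv r c) c) ∧
  (∀ (r c D E ρ : ℕ) (a b : ℤ), 0 < r → 0 < c → r.Coprime c → D ∣ c → E ∣ r →
    kl (cls ρ (E * D)) a b (r * c) =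
      kl (cls ρ E) (a * iv c r) (b * iv c r) r * kl (cls ρ D) (a * iv r c) (b * iv r c) c) ∧
  (∀ (c D ρ s : ℕ) (a b : ℤ), 0 < c → D ∣ c → s.Coprime c →
    kl (cls ρ D) (s * a) b c = kl (cls (s * ρ) D) a (s * b) c) ∧
  (∀ (c D ρ : ℕ) (a b : ℤ), 0 < c → D ∣ c → ρ.Coprime D →
    kl (cls ρ D) a b c = kl (cls (iv ρ D) D) b a c) ∧
  (∀ (c : ℕ) (w : ℕ → ℂ) (a a' b b' : ℤ), a ≡ a' [ZMOD c] → b ≡ b' [ZMOD c] →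
    kl w a b c = kl w a' b' c) ∧
  (∀ (c : ℕ) (b u : ℤ), 0 < c → IsCoprime u c →
    ∑ m ∈ range c, ‖kl (fun _ => 1) (m * u) b c‖ ^ 2 ≤ (c : ℝ) ^ 2)

/-! ### B. Bilinear forms -/

def S_CC : Prop := ∀ (c N ρ : ℕ) (μ μ' h : ℤ), 0 < c → N ∣ c → h ≠ 0 →
  ‖CC c N ρ μ μ' h‖ ≤ 4 * tau c * tau (c * part h.natAbs c) *
    Real.sqrt ((c * part h.natAbs c : ℕ) * ((μ.gcd μ').gcd (c * part h.natAbs c) : ℕ))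

def S_Bil : Prop := ∃ C : ℕ, ∀ (r c N ρ A B : ℕ) (e₁ e₂ : ℤ) (α β : ℕ → ℂ), 0 < r → 0 < c →
  r.Coprime c → N ∣ c → (e₁ = 1 ∨ e₁ = -1) → (e₂ = 1 ∨ e₂ = -1) → 1 ≤ B → 6 * B ≤ c →
  ‖∑ m ∈ Icc 1 A, ∑ k ∈ Icc 1 B, α m * β k * kl (cls ρ N) (e₁ * m) (e₂ * k) (r * c)‖ ^ 2 ≤
    C * tau c ^ C * ((r : ℝ) * c) ^ 2 * (∑ m ∈ Icc 1 A, ‖α m‖ ^ 2) * (∑ k ∈ Icc 1 B, ‖β k‖ ^ 2) *
      (B / c + A / (r * Real.sqrt c) + Real.sqrt (A / c))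

/-! ### P. Poincaré series -/

def S_P1 : Prop := ∀ (G Z : Type) [Group G] [Countable G] [MulAction G Z] [MeasurableSpace Z]
  (μ : Measure Z) (H : Subgroup G) (w : G → ℂ) (S : Set Z) (O : ℝ),
  (∀ g : G, MeasurePreserving (fun z : Z => g • z) μ μ) → MeasurableSet S → UChar H w →
  (∀ (z : Z) (s : Finset G), (∀ g ∈ s, g • z ∈ S) → (s.card : ℝ) ≤ O) →
  (∀ φ ψ, Adm μ S φ → Adm μ S ψ →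
    Summable (fun g : G => ∫ z, ‖φ z‖ * ‖ψ (g • z)‖ ∂μ) ∧
    ‖Bf μ w φ ψ‖ ^ 2 ≤ ‖Bf μ w φ φ‖ * ‖Bf μ w ψ ψ‖) ∧
  (∀ ψ, Adm μ S ψ → ‖Bf μ w ψ ψ‖ ≤ O * ∫ z, ‖ψ z‖ ^ 2 ∂μ) ∧
  (∀ (s t : Finset ℕ) (x y : ℕ → ℂ) (φ ψ : ℕ → Z → ℂ), (∀ i ∈ s, Adm μ S (φ i)) →
    (∀ j ∈ t, Adm μ S (ψ j)) →
    Adm μ S (fun z => ∑ i ∈ s, x i * φ i z) ∧
    Bf μ w (fun z => ∑ i ∈ s, x i * φ i z) (fun z => ∑ j ∈ t, y j * ψ j z) =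
      ∑ i ∈ s, ∑ j ∈ t, x i * conj (y j) * Bf μ w (φ i) (ψ j))

def S_P1c : Prop := ∀ (G Z : Type) [Group G] [Countable G] [MulAction G Z] [MeasurableSpace Z]
  (μ : Measure Z) (H : Subgroup G) (S T : Set Z) (O W : ℝ) (F φ : Z → ℂ),
  (∀ g : G, MeasurePreserving (fun z : Z => g • z) μ μ) → MeasurableSet S → MeasurableSet T →
  (∀ (z : Z) (s : Finset G), (∀ g ∈ s, g • z ∈ S) → (s.card : ℝ) ≤ O) →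
  Adm μ S φ → Measurable F → (∀ h ∈ H, ∀ z, F (h • z) = F z) →
  (∀ h ∈ H, ∀ z, h • z ∈ T ↔ z ∈ T) → (∀ z, z ∉ T → φ z = 0) → 0 ≤ W →
  (∀ ω : Z → ℝ≥0∞, Measurable ω →
    (∀ z, ∑' g : G, Set.indicator (H : Set G) (fun g => ω (g • z)) g ≤ 1) →
    ∫⁻ z in T, ω z * ENNReal.ofReal (‖F z‖ ^ 2) ∂μ ≤ ENNReal.ofReal W) →
  Integrable (fun z => F z * φ z) μ ∧
  ‖∫ z, F z * φ z ∂μ‖ ^ 2 ≤ W * ‖Bf μ (Set.indicator (H : Set G) fun _ => 1) φ φ‖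

/-- Measure on `ℍ`: invariance and coordinates. -/
def S_Ms : Prop :=
  (∀ g : SL(2, ℤ), MeasurePreserving (fun z : ℍ => g • z) volume volume) ∧
  (∀ g : SL(2, ℤ), MeasurePreserving (fun z : HH => g • z) volume volume) ∧
  (∀ (h t : ℝ), 0 < h →
    MeasurePreserving (fun z : ℍ => ofComplex (h * z + t)) volume volume) ∧
  MeasurePreserving (fun p : ℝ × ℝ => pnt p.1 p.2)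
    ((volume.prod (volume.restrict (Set.Ioi 0))).withDensity
      fun p : ℝ × ℝ => ENNReal.ofReal (1 / p.2 ^ 2)) volume ∧
  MeasurePreserving (fun z : ℂ => ofComplex z)
    ((volume.restrict {z : ℂ | 0 < z.im}).withDensity
      fun z : ℂ => ENNReal.ofReal (1 / z.im ^ 2)) volume

def S_Ov : Prop := ∃ C : ℝ, 1 ≤ C ∧ ∀ (Y : ℝ) (z : HH) (s : Finset SL(2, ℤ)), 0 < Y →
  (∀ g ∈ s, g • z ∈ SY Y) → (s.card : ℝ) ≤ C * (1 + 1 / Y)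

def S_Sh : Prop :=
  Measurable del ∧ (∀ (g : SL(2, ℤ)) (z : HH), del (g • z) = del z) ∧
  ∀ N : ℕ, 0 < N → ∃ C : ℝ, 0 ≤ C ∧ ∀ (D : ℝ) (ω : HH → ℝ≥0∞), 0 < D → Measurable ω →
    (∀ z, ∑' g : SL(2, ℤ), Set.indicator (Gp N : Set SL(2, ℤ)) (fun g => ω (g • z)) g ≤ 1) →
    ∫⁻ z in {z : HH | del z ≤ D}, ω z ≤ ENNReal.ofReal (C * D)

def S_Pt : Prop := ∀ (A η₁ η₂ : ℝ) (θ : ℂ → ℝ → ℂ), Prof A η₁ η₂ θ →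
  (∀ h : ℕ, 1 ≤ h → Adm volume (SY (η₁ / (2 * h))) (pt θ h) ∧
    ∀ z, pt θ h z ≠ 0 → del z ≤ 80 * η₁ / η₂) ∧
  DD θ ≤ 9 * A ^ 2 / η₂ ∧
  ∀ m n : ℕ, 1 ≤ m → 1 ≤ n →
    ∫ z : HH, pt θ m z * conj (pt θ n z) = if m = n then (m : ℂ) * DD θ else 0

/-- Sum over the matrices with a fixed lower left entry `c > 0`. -/
def S_Cell : Prop := ∀ (c : ℕ) (F : SL(2, ℤ) → ℂ), 0 < c → Summable F →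
  ∃ γ : ℕ → SL(2, ℤ), (∀ d ∈ un c, γ d 1 0 = c ∧ γ d 1 1 = d ∧ γ d 0 0 = iv d c) ∧
    ∑' g : SL(2, ℤ), (if g 1 0 = c then F g else 0) =
      ∑ d ∈ un c, ∑' j : ℤ, ∑' i : ℤ, F (ModularGroup.T ^ i * γ d * ModularGroup.T ^ j)

/-- Unfolding of one double coset. -/
def S_Unf : Prop := ∀ (A η₁ η₂ : ℝ) (θ : ℂ → ℝ → ℂ), Prof A η₁ η₂ θ →
  ∀ (m n c : ℕ) (γ : SL(2, ℤ)), 1 ≤ m → 1 ≤ n → 0 < c → γ 1 0 = c →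
  ∑' j : ℤ, ∑' i : ℤ, ∫ z : HH,
      pt θ m z * conj (pt θ n ((ModularGroup.T ^ i * γ * ModularGroup.T ^ j) • z)) =
    ex (((m * γ 1 1 + n * γ 0 0 : ℤ) : ℝ) / c) * JJ θ ((m : ℝ) * n / (c : ℝ) ^ 2)

def S_Ker : Prop := ∀ (A η₁ η₂ : ℝ) (θ : ℂ → ℝ → ℂ), Prof A η₁ η₂ θ →
  ∀ (M N₀ : ℕ) (χ : DirichletCharacter ℂ N₀), 0 < M → N₀ ∣ M →
  UChar (Gamma0 M) (wt M χ) ∧ ∀ m n : ℕ, 1 ≤ m → 1 ≤ n →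
    Bf volume (wt M χ) (pt θ m) (pt θ n) =
      (1 + χ (-1)) * (Real.sqrt ((m : ℝ) * n) : ℝ) * Bn (DD θ) (jj θ) M χ m n

/-- Van der Corput's second derivative test with a Lipschitz amplitude. -/
def S_VdC : Prop := ∀ (α β lam A L : ℝ) (ψ ψ' ψ'' : ℝ → ℝ) (a : ℝ → ℂ), α ≤ β → 0 < lam →
  (∀ x ∈ Set.Icc α β, HasDerivAt ψ (ψ' x) x) → (∀ x ∈ Set.Icc α β, HasDerivAt ψ' (ψ'' x) x) →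
  ContinuousOn ψ'' (Set.Icc α β) →
  ((∀ x ∈ Set.Icc α β, lam ≤ ψ'' x) ∨ ∀ x ∈ Set.Icc α β, ψ'' x ≤ -lam) →
  (∀ x ∈ Set.Icc α β, ‖a x‖ ≤ A) →
  (∀ x ∈ Set.Icc α β, ∀ y ∈ Set.Icc α β, ‖a x - a y‖ ≤ L * |x - y|) → 0 ≤ L →
  ‖∫ x in α..β, ex (ψ x) * a x‖ ≤ 8 / Real.sqrt lam * (A + L * (β - α))

/-- The inner oscillatory integral. -/
def S_Osc0 : Prop := ∃ C : ℝ, 0 ≤ C ∧ ∀ (A η₁ η₂ : ℝ) (θ : ℂ → ℝ → ℂ), Prof A η₁ η₂ θ →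
  ∀ (X : ℝ) (w : ℂ) (y : ℝ), 0 < X → θ w y ≠ 0 →
    (X < η₁ ^ 2 / 16 → ∀ ξ : ℝ, ph θ (-X / (w + ξ)) (-X / (ξ + y * Complex.I)) = 0) ∧
    Integrable (fun ξ : ℝ => ex (-ξ) * conj (ph θ (-X / (w + ξ)) (-X / (ξ + y * Complex.I)))) ∧
    ‖∫ ξ : ℝ, ex (-ξ) * conj (ph θ (-X / (w + ξ)) (-X / (ξ + y * Complex.I)))‖ ≤
      C * A * X ^ (1 / 4 : ℝ) * Real.sqrt (1 + η₂)

def S_Osc : Prop := ∃ C : ℝ, 0 ≤ C ∧ ∀ (A η₁ η₂ : ℝ) (θ : ℂ → ℝ → ℂ), Prof A η₁ η₂ θ →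
  ∀ X : ℝ, 0 < X → (X < η₁ ^ 2 / 16 → JJ θ X = 0) ∧
    ‖JJ θ X‖ ≤ C * (A ^ 2 / η₂) * X ^ (1 / 4 : ℝ) * Real.sqrt (1 + η₂)

/-- Selberg's identity with a character, and removal of the ramified part. -/
def S_Sel : Prop := ∀ (N₀ : ℕ) (χ : DirichletCharacter ℂ N₀), 0 < N₀ →
  (∀ m n c : ℕ, 0 < c → N₀ ∣ c → 0 < n → n.Coprime N₀ →
    kl (fun t => χ (t : ZMod N₀)) m n c = ∑ δ ∈ ((m.gcd n).gcd c).divisors,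
      δ * χ ((n / δ : ℕ) : ZMod N₀) *
        kl (fun t => χ (t : ZMod N₀)) ((m / δ * (n / δ) : ℕ) : ℤ) 1 (c / δ)) ∧
  (χ.IsPrimitive → ∀ g m n c : ℕ, 0 < g → 0 < c → N₀ ∣ c → (∀ p, p.Prime → p ∣ g → p ∣ N₀) →
    kl (fun t => χ (t : ZMod N₀)) ((g * m : ℕ) : ℤ) ((g * n : ℕ) : ℤ) c =
      if g * N₀ ∣ c then g * kl (fun t => χ (t : ZMod N₀)) m n (c / g) else 0)

/-- The Hecke relation for the kernel. -/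
def S_Hk : Prop := ∀ (D : ℂ) (j : ℝ → ℂ) (X₀ : ℝ) (M N₀ : ℕ) (χ : DirichletCharacter ℂ N₀)
  (g Q : ℕ), 0 < X₀ → (∀ X, 0 < X → X < X₀ → j X = 0) → 0 < M → N₀ ∣ M → χ.IsPrimitive →
  0 < g → (∀ p, p.Prime → p ∣ g → p ∣ N₀) → 0 < Q → Q.Coprime N₀ →
  ∀ r r' : ℕ, 0 < r → 0 < r' → r.Coprime (Q * M) → r'.Coprime (Q * M) →
    Bn D j M χ (g * Q * r) (g * Q * r') = ∑ δ₁ ∈ Q.divisors, ∑ δ₂ ∈ (r.gcd r').divisors,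
      χ ((Q / δ₁ : ℕ) : ZMod N₀) * conj (χ ((r / δ₂ : ℕ) : ZMod N₀)) *
        Bn D j (Nat.lcm N₀ (M / M.gcd (g * δ₁))) χ ((Q / δ₁) ^ 2) (r / δ₂ * (r' / δ₂))

def S_Bd : Prop := ∃ C : ℝ, 0 ≤ C ∧ ∀ (A η₁ η₂ : ℝ) (θ : ℂ → ℝ → ℂ), Prof A η₁ η₂ θ →
  ∀ (M N₀ : ℕ) (χ : DirichletCharacter ℂ N₀) (m : ℕ), 0 < M → N₀ ∣ M → 1 ≤ m →
    ‖Bn (DD θ) (jj θ) M χ m m‖ ≤ C * N₀ * (A ^ 2 / η₂) * Real.sqrt (1 + η₂) * tau m ^ 2 *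
      (1 + Real.log (1 + 4 * m / η₁)) * (1 + Real.sqrt m / η₁)

/-- The norm of a combination of Poincaré series with frequencies `Q r`, `r` prime to `Q N`. -/
def S_PB0 : Prop := ∀ N : ℕ, 0 < N → ∃ C : ℝ, 0 ≤ C ∧
  ∀ (A η₁ η₂ : ℝ) (θ : ℂ → ℝ → ℂ), Prof A η₁ η₂ θ →
  ∀ (Q R : ℕ) (w : ℕ → ℂ), 1 ≤ Q → (∀ r, ‖w r‖ ≤ 1) →
    ‖Bf volume (Set.indicator (Gp N : Set SL(2, ℤ)) fun _ => 1)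
      (fun z => ∑ r ∈ (Icc 1 R).filter (·.Coprime (Q * N)), w r / (Q * r : ℕ) * pt θ (Q * r) z)
      (fun z => ∑ r ∈ (Icc 1 R).filter (·.Coprime (Q * N)), w r / (Q * r : ℕ) * pt θ (Q * r) z)‖
    ≤ C * (A ^ 2 / η₂) * (1 + η₂) / Q * tau Q ^ 3 *
      (1 + Real.log (1 + 4 * (Q : ℝ) ^ 2 / η₁)) * (1 + Real.log (1 + R)) ^ 3 *
      Real.sqrt (1 + Q / η₁) * Real.sqrt (1 + (R : ℝ) ^ 2 / η₁)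

def S_PB : Prop := ∀ N : ℕ, 0 < N → ∃ C : ℕ,
  ∀ (A η₁ η₂ K : ℝ) (θ : ℂ → ℝ → ℂ) (F : HH → ℂ), Prof A η₁ η₂ θ → Measurable F →
  (∀ g ∈ Gp N, ∀ z, F (g • z) = F z) → 0 ≤ K → (∀ z, ‖F z‖ ≤ K * del z) →
  ∀ (Q H : ℕ) (w : ℕ → ℂ), 1 ≤ Q → (∀ h, ‖w h‖ ≤ 1) →
    ‖∑ h ∈ (Icc 1 H).filter (Q ∣ ·), w h * ((∫ z : HH, F z * pt θ h z) / h)‖ ^ 2 ≤
      C * K ^ 2 * (η₁ / η₂) ^ 3 * (A ^ 2 / η₂) * (1 + η₂) / Q * tau Q ^ C *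
      (1 + Real.log (1 + H + 4 * (H : ℝ) ^ 2 / η₁)) ^ 4 *
      Real.sqrt (1 + Q / η₁) * Real.sqrt (1 + (H : ℝ) ^ 2 / ((Q : ℝ) ^ 2 * η₁))

def S_Kap : Prop := (∀ s ε : Bool, ∃ C, Kap (kab s ε) 2 C) ∧ ∃ C, Kap kc 1 C

def S_Rad : Prop := ∀ r : ℝ, 0 ≤ r → r ≤ 9 / 20 →
  0 < ∫ ξ : ℂ, tent r ξ ∧ ∀ U, MV U → ∀ z : ℍ,
    ∫ ζ : ℂ, (rho r ζ : ℂ) * U (ofComplex (z + z.im * ζ)) = U z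

def S_PrA : Prop := ∀ (κ : ℂ → ℂ → ℂ) (k : ℕ) (C₀ : ℝ), Kap κ k C₀ → ∃ C : ℝ, 0 ≤ C ∧
  ∀ η₁ η₂ : ℝ, 0 < η₂ → η₂ ≤ η₁ → Prof (C * η₂ ^ 2 / η₁) η₁ η₂ (prf κ k η₁ η₂)

def S_PrB : Prop := ∀ (κ : ℂ → ℂ → ℂ) (k : ℕ) (C₀ : ℝ), Kap κ k C₀ →
  ∀ η₁ η₂ : ℝ, 0 < η₂ → η₂ ≤ η₁ → ∀ U₁ U₂ : ℍ → ℂ, MV U₁ → MV U₂ →
  (∀ z : ℍ, U₁ (ofComplex (z + 1)) = U₁ z) → (∀ z : ℍ, U₂ (ofComplex (z + 1)) = U₂ z) →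
  ∀ h : ℕ, 1 ≤ h →
    ∫ x in (0 : ℝ)..1, ((η₁ ^ (k - 1) * η₂ / (h : ℝ) ^ k : ℝ) : ℂ) * U₁ (pnt x (η₁ / h)) *
        U₂ (pnt x (η₂ / h)) * ex (-(h * x)) =
      (∫ z : HH, U₁ z.1 * U₂ z.2 * κ z.1 z.2 * pt (prf κ k η₁ η₂) h z) / h

/-! ### F. Cusp forms -/

def S_Fam : Prop := ∀ (N : ℕ) [NeZero N] (f : CuspForm (Gamma0 N) 2),
  (qExpansion 1 f).coeff 1 = 1 →
  (∀ m n : ℕ, m.Coprime n →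
    (qExpansion 1 f).coeff (m * n) = (qExpansion 1 f).coeff m * (qExpansion 1 f).coeff n) →
  ∃ Φ : Fam N, Φ.G 1 = f

def S_Ser : Prop := ∀ (P : ℕ) (K : ℝ) (b : ℕ → ℂ) (g : ℍ → ℂ), Ser P K b g →
  Continuous g ∧ Continuous (fun p : ℝ × ℝ => FF g p.1 p.2) ∧
  (∀ x u, FF g (x + P) u = FF g x u) ∧
  (∀ x u, ‖FF g x u‖ ≤ K ∧ ‖FF g x u‖ ≤ K * Real.exp (-u)) ∧
  (∀ x u, HasSum (fun n : ℕ => cf P b u n * ex (n * x / P)) (FF g x u)) ∧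
  (∀ u, Summable fun n => ‖cf P b u n‖) ∧
  (∀ u u', (∫ x in (0 : ℝ)..P, FF g x u * conj (FF g x u')) / P =
      ((Real.exp (u + u') / ((Real.exp u + Real.exp u') / 2) ^ 2 *
        Ib P b ((Real.exp u + Real.exp u') / 2) : ℝ) : ℂ) ∧
    ∫ x in (0 : ℝ)..P, FF g x u * FF g x u' = 0) ∧
  (∀ η, 0 < η → (Summable fun n : ℕ => ‖b n‖ ^ 2 * Real.exp (-(4 * π * n * η / P))) ∧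
    0 ≤ Ib P b η ∧ Ib P b η ≤ K ^ 2 ∧ Ib P b η ≤ K ^ 2 / η ^ 2) ∧
  ContinuousOn (Ib P b) (Set.Ioi 0) ∧
  (∀ u, HasSum (fun n => ‖cf P b u n‖ ^ 2) (Ib P b (Real.exp u))) ∧
  (∀ (n : ℕ) (u : ℝ), (∫ x in (0 : ℝ)..P, FF g x u * ex (-(n * x / P))) / P = cf P b u n) ∧
  MV (fun z => g (ofComplex (P * z))) ∧ MV (fun z => conj (g (ofComplex (P * z))))

def S_Tr : Prop := ∀ (P : ℕ) (K : ℝ), ∃ C : ℝ, 0 ≤ C ∧ ∀ (b : ℕ → ℂ) (g : ℍ → ℂ), Ser P K b g →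
  ∀ (q M : ℕ) (x u : ℝ), 3 ≤ q → -(3 * Real.log q) ≤ u →
    Real.log q ^ 2 * P * Real.exp (-u) ≤ M + 1 →
    ‖FF g x u - ∑ n ∈ Icc 1 M, cf P b u n * ex (n * x / P)‖ ≤ C / (q : ℝ) ^ 5

def S_Dual : Prop := ∀ (N : ℕ) (Φ : Fam N) (q ρ : ℕ), 0 < q → ρ.Coprime N →
  (∀ x ∈ UU N q ρ, ∀ u, FF (Φ.G 1) (x / q) u =
    -FF (Φ.G (sig (q * ρ % N))) (-(iv x (q * N) : ℝ) / q) (-(2 * Real.log q) - u)) ∧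
  (∀ ε u u', Cor Φ 1 ε q ρ u u' = -Mix Φ (sig (q * ρ % N)) ε q ρ u (-(2 * Real.log q) - u')) ∧
  ∃ ρ' : ℕ, ρ'.Coprime N ∧
    (∀ ε u u', Cor Φ 1 ε q ρ u u' =
      Cor Φ (sig (q * ρ % N)) ε q ρ' (-(2 * Real.log q) - u) (-(2 * Real.log q) - u')) ∧
    ∀ u, av (UU N q ρ) (fun x => FF (Φ.G 1) (x / q) u) =
      -av (UU N q ρ') fun x => FF (Φ.G (sig (q * ρ % N))) (x / q) (-(2 * Real.log q) - u)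

/-- Invariant functions on pairs of points. -/
def S_Inv : Prop := ∀ (N : ℕ) (Φ : Fam N) (σ : SL(2, ℤ)),
  (∀ s ε : Bool, ∀ F : HH → ℂ, (F = fun z => cj s (Φ.G σ (ofComplex (N * z.1))) *
      cj s (cj ε (Φ.G σ (ofComplex (N * z.2)))) * kab s ε z.1 z.2) →
    Measurable F ∧ (∀ g ∈ Gp N, ∀ z, F (g • z) = F z) ∧ ∀ z, ‖F z‖ ≤ Φ.K ^ 2 * del z) ∧
  ∀ F : HH → ℂ, (F = fun z => 1 * Φ.G σ (ofComplex (N * z.2)) * kc z.1 z.2) →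
    Measurable F ∧ (∀ g ∈ Gp N, ∀ z, F (g • z) = F z) ∧ ∀ z, ‖F z‖ ≤ Φ.K * del z

/-- Shifted sums: the Fourier coefficients of products. -/
def S_FC : Prop := ∀ (N : ℕ) (Φ : Fam N), ∃ C : ℕ, ∀ (σ : SL(2, ℤ)) (ε : Bool) (e : ℤ),
  (e = 1 ∨ e = -1) → ∀ (t t' : ℝ) (Q H : ℕ) (w : ℕ → ℂ), t' ≤ t → 1 ≤ Q → (∀ h, ‖w h‖ ≤ 1) →
    ‖∑ h ∈ (Icc 1 H).filter (Q ∣ ·), w h *
        Psi Φ σ ε (e * h) (t - Real.log (h / N)) (t' - Real.log (h / N))‖ ^ 2 ≤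
      C * (Real.exp t / Q) * (1 + Real.exp t') * tau Q ^ C *
      (1 + Real.log (1 + H + 4 * (H : ℝ) ^ 2 / Real.exp t)) ^ 4 *
      Real.sqrt (1 + Q / Real.exp t) *
      Real.sqrt (1 + (H : ℝ) ^ 2 / ((Q : ℝ) ^ 2 * Real.exp t))

def S_Ptw : Prop := ∀ (N : ℕ) (Φ : Fam N), ∃ C : ℝ, 1 ≤ C ∧ ∀ σ (n : ℕ),
  ‖Φ.b σ n‖ ≤ C * (n : ℝ) ^ (4 / 5 : ℝ)

/-! ### H. Horocycles and the main term -/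

def S_H0 : Prop := ∀ N : ℕ, 0 < N → ∃ C : ℝ, ∀ (c₀ d₀ : ℤ) (z : ℍ) (R : ℝ), 1 / 2 ≤ z.im → 0 ≤ R →
  {p : ℤ × ℤ | p.1 ≡ c₀ [ZMOD N] ∧ p.2 ≡ d₀ [ZMOD N] ∧ ‖(p.1 : ℂ) * z + p.2‖ ≤ R}.Finite ∧
  |({p : ℤ × ℤ | p.1 ≡ c₀ [ZMOD N] ∧ p.2 ≡ d₀ [ZMOD N] ∧ ‖(p.1 : ℂ) * z + p.2‖ ≤ R}.ncard : ℝ) -
    π * R ^ 2 / (z.im * N ^ 2)| ≤ C * (R + 1)

def S_H1 : Prop := ∀ N : ℕ, 0 < N → ∃ κ C : ℝ, ∀ (τ : SL(2, ℤ)) (z : ℍ) (Y : ℝ),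
  z ∈ ModularGroup.fd → 0 < Y → Y ≤ 1 →
  {g : SL(2, ℤ) | g * τ⁻¹ ∈ CongruenceSubgroup.Gamma N ∧ 0 ≤ (g • z).re ∧ (g • z).re < N ∧ Y ≤ (g • z).im}.Finite ∧
  |({g : SL(2, ℤ) | g * τ⁻¹ ∈ CongruenceSubgroup.Gamma N ∧ 0 ≤ (g • z).re ∧ (g • z).re < N ∧
      Y ≤ (g • z).im}.ncard : ℝ) - κ / Y| ≤ C * z.im * Y ^ (-(3 / 5 : ℝ))

def S_H2 : Prop := ∀ (N : ℕ) (Φ : Fam N), ∃ c C : ℝ, 0 ≤ c ∧ ∀ (σ : SL(2, ℤ)) (Y : ℝ),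
  0 < Y → Y ≤ 1 →
  |(∫ y in Set.Ioi Y, Ib N (Φ.b σ) y / y ^ 2) - c / Y| ≤ C * Y ^ (-(3 / 5 : ℝ))

def S_Hor : Prop := ∀ (N : ℕ) (Φ : Fam N), ∃ c C : ℝ, 0 ≤ c ∧ 0 ≤ C ∧
  ∀ (σ : SL(2, ℤ)) (η : ℝ), 0 < η → |Ib N (Φ.b σ) η - c| ≤ C * η ^ (1 / 5 : ℝ)

/-- The main term. -/
def S_MT : Prop := ∀ (I : ℝ → ℝ) (c C : ℝ), ContinuousOn I (Set.Ioi 0) →
  (∀ η, 0 < η → |I η - c| ≤ C * η ^ (1 / 5 : ℝ) ∧ |I η| ≤ C ∧ |I η| ≤ C / η ^ 2) →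
  ∃ D : ℝ, ∀ e > 0, ∃ l₀ : ℝ, ∀ l ≥ l₀, ∀ R : Set (ℝ × ℝ), MeasurableSet R →
    R ⊆ {p | p.2 ≤ p.1 ∧ -(2 * l) ≤ p.1 + p.2} →
    {p : ℝ × ℝ | p.2 ≤ p.1 ∧ -(2 * l) < p.1 + p.2 ∧ p.1 - p.2 ≤ l / 2 ∧ p.1 ≤ 2 * Real.log l} ⊆ R →
    |(∫ p in R, Real.exp (p.1 + p.2) / ((Real.exp p.1 + Real.exp p.2) / 2) ^ 2 *
      I ((Real.exp p.1 + Real.exp p.2) / 2)) - 2 * c * l - D| ≤ e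

/-! ### T. The regions -/

def S_T0 : Prop := ∀ (N : ℕ) (Φ : Fam N), ∃ C : ℕ, ∀ (σ : SL(2, ℤ)) (q ρ : ℕ), 3 ≤ q →
  ρ.Coprime N →
  (∀ (ε : Bool) (u u' : ℝ), u' ≤ 0 → ‖Cor Φ σ ε q ρ u u'‖ ≤
    Lam q ^ C * (1 + Real.exp (-u)) * (Real.exp (u' / 5) + Real.exp (-(4 * u' / 5)) / q)) ∧
  ∀ u : ℝ, ‖av (UU N q ρ) fun x => FF (Φ.G σ) (x / q) u‖ ≤
    Lam q ^ C * Real.exp (-(4 * u / 5)) / q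

/-- Expansion of the correlation in shifted sums. -/
def S_T2a : Prop := ∀ (N : ℕ) (Φ : Fam N), ∃ C : ℝ, ∀ (σ : SL(2, ℤ)) (ε : Bool) (q ρ : ℕ), 3 ≤ q →
  ρ.Coprime N → ∃ θ : ℕ → ℤ → ℂ, (∀ δ h, ‖θ δ h‖ ≤ tau q / δ) ∧
  ∀ u u' : ℝ, u' ≤ u → -(2 * Real.log q) ≤ u' →
    ‖Cor Φ σ ε q ρ u u' - Psi Φ σ ε 0 u u' - ∑ δ ∈ q.divisors,
      ∑ h ∈ (Icc 1 ⌊2 * Real.log q ^ 2 * N * Real.exp (-u')⌋₊).filter (q / δ ∣ ·),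
        (θ δ h * Psi Φ σ ε h u u' + θ δ (-h) * Psi Φ σ ε (-h) u u')‖ ≤ C / q

/-- One shifted sum, integrated over a region. -/
def S_T2c : Prop := ∀ (N : ℕ) (Φ : Fam N), ∃ C : ℕ, ∀ (σ : SL(2, ℤ)) (ε : Bool) (e : ℤ),
  (e = 1 ∨ e = -1) → ∀ (q δ : ℕ) (L : ℝ) (w : ℕ → ℂ) (R : Set (ℝ × ℝ)), 3 ≤ q → δ ∣ q → 1 ≤ L →
  (∀ h, ‖w h‖ ≤ 1) → MeasurableSet R →
  R ⊆ {p | p.2 ≤ p.1 ∧ p.1 - p.2 ≤ Real.log q - 2 * Real.log L ∧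
    -(2 * Real.log q) ≤ p.1 + p.2 ∧ p.1 ≤ Real.log q} →
  IntegrableOn (fun p : ℝ × ℝ =>
    ∑ h ∈ (Icc 1 ⌊2 * Real.log q ^ 2 * N * Real.exp (-p.2)⌋₊).filter (q / δ ∣ ·),
      w h * Psi Φ σ ε (e * h) p.1 p.2) R ∧
  ‖∫ p in R, ∑ h ∈ (Icc 1 ⌊2 * Real.log q ^ 2 * N * Real.exp (-p.2)⌋₊).filter (q / δ ∣ ·),
      w h * Psi Φ σ ε (e * h) p.1 p.2‖ ≤ Lam q ^ C * δ / Real.sqrt L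

def S_T2 : Prop := ∀ (N : ℕ) (Φ : Fam N), ∃ C : ℕ, ∀ (σ : SL(2, ℤ)) (ε : Bool)
  (q ρ : ℕ) (L : ℝ) (R : Set (ℝ × ℝ)), 3 ≤ q → ρ.Coprime N → 1 ≤ L → L ≤ q → MeasurableSet R →
  R ⊆ {p | p.2 ≤ p.1 ∧ p.1 - p.2 ≤ Real.log q - 2 * Real.log L ∧
    -(2 * Real.log q) ≤ p.1 + p.2 ∧ p.1 ≤ Real.log q} →
  ‖(∫ p in R, Cor Φ σ ε q ρ p.1 p.2) - ∫ p in R, Psi Φ σ ε 0 p.1 p.2‖ ≤ Lam q ^ C / Real.sqrt L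

/-- The mixed correlation as a bilinear form, and its pointwise bounds. -/
def S_Mx : Prop := ∀ (N : ℕ) (Φ : Fam N), ∃ C : ℕ, ∀ (σ : SL(2, ℤ)) (ε : Bool) (q ρ : ℕ)
  (u v : ℝ), 3 ≤ q → ρ.Coprime N → -(3 * Real.log q) ≤ u → -(3 * Real.log q) ≤ v →
  (∀ r : ℕ, r ∣ q → r.Coprime (q / r * N) → ‖Mix Φ σ ε q ρ u v‖ ^ 2 ≤
    Lam q ^ C * (r * Real.exp (-v) / q + Real.exp (-u) / Real.sqrt (r * q) +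
      Real.sqrt (r * Real.exp (-u) / q) + 1 / q)) ∧
  ‖Mix Φ σ ε q ρ u v‖ ^ 2 ≤ Lam q ^ C * (Real.exp (-u) / q + Real.exp (-v) / Real.sqrt q +
      Real.sqrt (Real.exp (-v) / q) + 1 / q)

def S_Side : Prop := ∀ (N : ℕ) (Φ : Fam N), ∃ C : ℕ, ∀ (ε : Bool) (q ρ : ℕ) (L u v : ℝ),
  3 ≤ q → ρ.Coprime N → 1 ≤ L → L ^ 8 ≤ q → Real.log q ^ 16 ≤ q →
  u ≤ 2 * Real.log (Real.log q) → v ≤ 2 * Real.log (Real.log q) →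
  -Real.log q - 2 * Real.log L ≤ u + v →
  ¬ (|u + Real.log q / 2| ≤ 3 * Real.log L ∧ |v + Real.log q / 2| ≤ 3 * Real.log L) →
  ‖Mix Φ (sig (q * ρ % N)) ε q ρ u v‖ ≤
    Lam q ^ C * (1 / Real.sqrt L + L ^ 4 / (q : ℝ) ^ (1 / 20 : ℝ))

/-! ### S. Sieve -/

def S_S0 : Prop := ∀ c K : ℝ, ∃ C : ℝ, 1 ≤ C ∧ ∀ γ, Wt γ c K →
  (∀ (P : ℕ → Prop) (η : ℝ), 0 < η →
    Summable (Set.indicator {n | P n} fun n : ℕ => γ n * ww (n * η)) ∧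
    0 ≤ IP γ P η ∧ IP γ P η ≤ K) ∧
  (∀ X : ℕ, ∑ n ∈ Ioc X (2 * X), γ n ≤ C) ∧
  (∀ X : ℕ, ∑ n ∈ Icc 1 X, γ n ≤ C * (1 + Real.log X)) ∧
  (∀ p : ℕ, 2 ≤ p → (Summable fun k => γ (p ^ k)) ∧ 1 ≤ Gloc γ p ∧
    Gloc γ p ≤ 1 + C * (p : ℝ) ^ (-(2 / 5 : ℝ))) ∧
  (∀ (P : ℝ) (s : Finset ℕ), 3 ≤ P → (∀ n ∈ s, 0 < n ∧ ∀ p, p.Prime → p ∣ n → (p : ℝ) ≤ P) →
    ∑ n ∈ s, γ n ≤ C * Real.log P ^ 3)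

def S_S1 : Prop := ∀ c K : ℝ, ∃ p₀ : ℕ, ∀ γ, Wt γ c K → ∀ (T : Finset ℕ),
  (∀ p ∈ T, p.Prime ∧ p₀ ≤ p) → ∀ η, 0 < η →
  |IP γ (fun n => ∀ p ∈ T, p ∣ n) η - c * ∏ p ∈ T, (1 - 1 / Gloc γ p)| ≤
    4 ^ T.card * K * η ^ (1 / 5 : ℝ)

def S_S3 : Prop := ∀ c K : ℝ, ∃ C : ℝ, ∀ γ, Wt γ c K → ∀ (P₀ P₁ : ℝ) (B : Finset ℕ),
  C ≤ P₀ → P₀ ≤ P₁ → (B.card : ℝ) ^ 3 ≤ P₀ →
  c * Real.log P₁ ≤ C * Real.log P₀ ^ 3 * Real.log (Real.log P₁) *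
    ∏ p ∈ ((Icc 1 ⌊P₁⌋₊).filter fun p : ℕ => p.Prime ∧ P₀ < p) \ B, Gloc γ p

def S_Sv : Prop := ∀ c K : ℝ, ∃ C : ℝ, ∀ γ, Wt γ c K → ∀ (l P₀ η : ℝ) (B : Finset ℕ),
  C ≤ l → C ≤ P₀ → P₀ ≤ Real.exp (Real.sqrt l) → (B.card : ℝ) ^ 3 ≤ P₀ → 0 < η →
  η ≤ Real.exp (-(l / 3)) →
  IP γ (fun n => om (((Icc 1 ⌊Real.exp (l ^ (9 / 10 : ℝ))⌋₊).filter
      fun p : ℕ => p.Prime ∧ P₀ < p) \ B) n = 0) η ≤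
    C * Real.log P₀ ^ 3 * l ^ (-(17 / 20 : ℝ))

/-- The error in Ramaré's identity. -/
def S_R1 : Prop := ∀ c K : ℝ, ∃ C : ℝ, ∀ (a : ℕ → ℂ), Wt (fun n => ‖a n‖ ^ 2 / (n : ℝ) ^ 2) c K →
  (∀ m n : ℕ, m.Coprime n → a (m * n) = a m * a n) →
  ∀ (S : Finset ℕ) (P₀ η : ℝ) (M : ℕ), 1 ≤ P₀ → (∀ p ∈ S, p.Prime ∧ P₀ < p) → 0 < η →
  ∑ m ∈ Icc 1 M, ‖a m - aE a S m - aR a S m‖ ^ 2 / (m : ℝ) ^ 2 * ww (m * η) ≤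
    C * (1 + Real.log M) ^ 2 * P₀ ^ (-(1 / 5 : ℝ))

def S_Wt : Prop := ∀ (N : ℕ) (Φ : Fam N), ∃ c K : ℝ,
  Wt (fun n => ‖Φ.a n‖ ^ 2 / (n : ℝ) ^ 2) c K

/-- The bilinear part in the core window. -/
def S_R2 : Prop := ∀ (N : ℕ) (Φ : Fam N), ∃ C : ℕ, ∀ (σ : SL(2, ℤ)) (ε : Bool) (q ρ : ℕ)
  (L P₀ : ℝ) (S : Finset ℕ) (R : Set (ℝ × ℝ)), 3 ≤ q → ρ.Coprime N → 1 ≤ L → 1 ≤ P₀ →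
  6 * N * Real.log q ^ 2 * L ^ 3 ≤ (q : ℝ) ^ (1 / 10 : ℝ) →
  (∀ p ∈ S, p.Prime ∧ P₀ < p ∧ ¬ p ∣ q * N ∧ p ^ 20 ≤ q) → MeasurableSet R →
  R ⊆ {p | |p.1 + Real.log q / 2| ≤ 3 * Real.log L ∧ |p.2 + Real.log q / 2| ≤ 3 * Real.log L} →
  IntegrableOn (fun p : ℝ × ℝ => av (UU N q ρ) fun x =>
      (∑ m ∈ Icc 1 ⌊Real.log q ^ 2 * Real.exp (-p.1)⌋₊, cf 1 (aR Φ.a S) p.1 m * ex (m * x / q)) *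
      cj ε (∑ n ∈ Icc 1 ⌊Real.log q ^ 2 * N * Real.exp (-p.2)⌋₊,
        cf N (Φ.b σ) p.2 n * ex (n * (-(iv x (q * N) : ℝ) / q) / N))) R ∧
  ‖∫ p in R, av (UU N q ρ) fun x =>
      (∑ m ∈ Icc 1 ⌊Real.log q ^ 2 * Real.exp (-p.1)⌋₊, cf 1 (aR Φ.a S) p.1 m * ex (m * x / q)) *
      cj ε (∑ n ∈ Icc 1 ⌊Real.log q ^ 2 * N * Real.exp (-p.2)⌋₊,
        cf N (Φ.b σ) p.2 n * ex (n * (-(iv x (q * N) : ℝ) / q) / N))‖ ≤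
    Lam q ^ C * (L ^ 2 / Real.sqrt P₀ + 1 / (q : ℝ) ^ (1 / 20 : ℝ))

/-- The core window when `q` has few divisors. -/
def S_Co1 : Prop := ∀ (N : ℕ) (Φ : Fam N) (k : ℕ) (e : ℝ), 0 < e → ∃ q₀ : ℕ, ∀ q ≥ q₀,
  Lam q ≤ Real.exp (Real.log q ^ (1 / 10 : ℝ)) →
  ∀ (σ : SL(2, ℤ)) (ε : Bool) (ρ : ℕ) (R : Set (ℝ × ℝ)), ρ.Coprime N → MeasurableSet R →
  R ⊆ {p | |p.1 + Real.log q / 2| ≤ 3 * Real.log (Lam q ^ k) ∧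
    |p.2 + Real.log q / 2| ≤ 3 * Real.log (Lam q ^ k)} →
  ‖∫ p in R, Mix Φ σ ε q ρ p.1 p.2‖ ≤ e

def S_Core : Prop := ∀ (N : ℕ) (Φ : Fam N) (k : ℕ) (e : ℝ), 0 < e → ∃ q₀ : ℕ, ∀ q ≥ q₀,
  ∀ (σ : SL(2, ℤ)) (ε : Bool) (ρ : ℕ) (R : Set (ℝ × ℝ)), ρ.Coprime N → MeasurableSet R →
  R ⊆ {p | |p.1 + Real.log q / 2| ≤ 3 * Real.log (Lam q ^ k) ∧
    |p.2 + Real.log q / 2| ≤ 3 * Real.log (Lam q ^ k)} →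
  ‖∫ p in R, Mix Φ σ ε q ρ p.1 p.2‖ ≤ e

/-! ### Assembly -/

/-- Continuity and size of the correlation functions. -/
def S_Ct : Prop := ∀ (N : ℕ) (Φ : Fam N) (σ : SL(2, ℤ)) (ε : Bool) (q ρ : ℕ),
  Continuous (fun p : ℝ × ℝ => Cor Φ σ ε q ρ p.1 p.2) ∧
  Continuous (fun p : ℝ × ℝ => Mix Φ σ ε q ρ p.1 p.2) ∧
  (∀ h, Continuous (fun p : ℝ × ℝ => Psi Φ σ ε h p.1 p.2)) ∧
  (∀ u u', ‖Cor Φ σ ε q ρ u u'‖ ≤ Φ.K ^ 2 ∧ ‖Mix Φ σ ε q ρ u u'‖ ≤ Φ.K ^ 2 ∧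
    (∀ h, ‖Psi Φ σ ε h u u'‖ ≤ Φ.K ^ 2) ∧
    Cor Φ σ ε q ρ u' u = cj ε (Cor Φ σ ε q ρ u u')) ∧
  (0 < q → ρ.Coprime N →
    (∀ x ∈ UU N q ρ, Integrable (fun u => FF (Φ.G 1) (x / q) u)) ∧
    Integrable (fun p : ℝ × ℝ => Cor Φ 1 ε q ρ p.1 p.2) ∧
    (av (UU N q ρ) fun x => XX Φ (x / q) * cj ε (XX Φ (x / q))) =
      4 * π ^ 2 * ((∫ p in {p : ℝ × ℝ | p.2 ≤ p.1}, Cor Φ 1 ε q ρ p.1 p.2) +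
        cj ε (∫ p in {p : ℝ × ℝ | p.2 ≤ p.1}, Cor Φ 1 ε q ρ p.1 p.2)) ∧
    ∀ l₀ : ℝ, 0 ≤ l₀ → ∀ R : Set (ℝ × ℝ),
      R ⊆ {p | l₀ < p.1 ∨ p.2 < -(2 * Real.log q) - l₀} →
      ‖∫ p in R, Cor Φ 1 ε q ρ p.1 p.2‖ ≤
        4 * Φ.K ^ 2 * Real.exp (-l₀) * (Real.log q + 1))

/-- The half plane integral. -/
def S_Reg : Prop := ∀ (N : ℕ) (Φ : Fam N), ∃ c : ℝ, ∀ ε : Bool, ∃ D : ℕ → ℝ,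
  ∀ e > 0, ∃ q₀ : ℕ, ∀ q ≥ q₀, ∀ ρ : ℕ, ρ.Coprime N →
    ‖(∫ p in {p : ℝ × ℝ | p.2 ≤ p.1}, Cor Φ 1 ε q ρ p.1 p.2) -
      (((if ε then c else 0) * Real.log q + D (q * ρ % N) : ℝ) : ℂ)‖ ≤ e

def S_Main : Prop := ∀ (N : ℕ) (Φ : Fam N), ∃ c : ℝ,
  Tendsto (fun q : ℕ => av (un q) fun x => XX Φ (x / q)) atTop (𝓝 0) ∧
  ∀ (ε : Bool) (d : ℕ), ∃ D : ℝ,
    Tendsto (fun q : ℕ => (av (un q) fun x => XX Φ (x / q) * cj ε (XX Φ (x / q))) -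
      (((if ε then c else 0) * Real.log q : ℝ) : ℂ))
      (atTop ⊓ 𝓟 {q | q.gcd N = d}) (𝓝 (D : ℂ))

end MR
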