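import Pool.Agent.P.MP_79de8b_nt.Basic

/-! Elementary divisor sums (MP_79de8b_nt, package A1). -/

open Finset

noncomputable section
namespace MR
namespace A1

lemma sum_le_sum_of_injOn {α β : Type*} [DecidableEq β] {s : Finset α} {t : Finset β}
    {f : α → ℝ} {g : β → ℝ} (e : α → β) (h1 : Set.InjOn e s) (h2 : s.image e ⊆ t)
    (h3 : ∀ a ∈ s, f a ≤ g (e a)) (h4 : ∀ b ∈ t, b ∉ s.image e → 0 ≤ g b) :
    ∑ a ∈ s, f a ≤ ∑ b ∈ t, g b :=
  (sum_le_sum h3).trans ((sum_image h1).symm.le.trans (sum_le_sum_of_subset_of_nonneg h2 h4))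

lemma harm (X : ℕ) : ∑ n ∈ Icc 1 X, (1 : ℝ) / n ≤ 1 + Real.log X := by
  have := harmonic_le_one_add_log X
  simp_rw [harmonic_eq_sum_Icc, Rat.cast_sum, Rat.cast_inv, Rat.cast_natCast] at this
  simpa [one_div] using this

lemma prod_low (s : Finset ℕ) (h : ∀ p ∈ s, 2 ≤ p) :
    1 ≤ ((s.card : ℝ) + 1) * ∏ p ∈ s, (1 - (p : ℝ)⁻¹) := by
  induction s using Finset.induction_on_max with
  | empty => simp
  | insert a s ha ih =>
    have hn : a ∉ s := fun k => lt_irrefl _ (ha a k)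
    have h1 := ih fun p hp => h p (mem_insert_of_mem hp)
    have h2 : 2 ≤ a := h a (mem_insert_self _ _)
    have h3 : s.card + 2 ≤ a := by
      have : s ⊆ Ico 2 a := fun p hp => mem_Ico.2 ⟨h p (mem_insert_of_mem hp), ha p hp⟩
      have := card_le_card this
      rw [Nat.card_Ico] at this
      omega
    have h4 : (s.card : ℝ) + 2 ≤ a := by exact_mod_cast h3
    have h0 : (0 : ℝ) ≤ s.card := Nat.cast_nonneg _
    have h5 : (a : ℝ)⁻¹ ≤ ((s.card : ℝ) + 2)⁻¹ := inv_anti₀ (by linarith) h4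
    have h6 : (s.card : ℝ) + 1 ≤ ((s.card : ℝ) + 1 + 1) * (1 - (a : ℝ)⁻¹) := by
      have e : ((s.card : ℝ) + 2) * ((s.card : ℝ) + 2)⁻¹ = 1 := mul_inv_cancel₀ (by linarith)
      nlinarith
    have h7 : 0 ≤ ∏ p ∈ s, (1 - (p : ℝ)⁻¹) := prod_nonneg fun p hp => by
      have : (1 : ℝ) ≤ p := by exact_mod_cast (h p (mem_insert_of_mem hp)).trans' one_le_two
      exact sub_nonneg.2 (inv_le_one_of_one_le₀ this)
    rw [card_insert_of_notMem hn, prod_insert hn, ← mul_assoc]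
    push_cast
    exact h1.trans (mul_le_mul_of_nonneg_right h6 h7)

lemma tot {q : ℕ} : (q : ℝ) ≤ (q.primeFactors.card + 1) * q.totient := by
  have h1 : (q.totient : ℝ) = q * ∏ p ∈ q.primeFactors, (1 - (p : ℝ)⁻¹) := by
    have := congrArg (fun x : ℚ => (x : ℝ)) (Nat.totient_eq_mul_prod_factors q)
    simpa using this
  have h2 := prod_low q.primeFactors fun p hp => (Nat.prime_of_mem_primeFactors hp).two_le
  rw [h1, mul_left_comm]
  exact le_mul_of_one_le_right (Nat.cast_nonneg _) h2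

lemma two_pow {q : ℕ} (hq : 0 < q) : (2 : ℝ) ^ q.primeFactors.card ≤ tau q := by
  unfold tau
  rw [Nat.card_divisors hq.ne']
  have : 2 ^ q.primeFactors.card ≤ q.primeFactors.prod (q.factorization · + 1) :=
    pow_card_le_prod _ _ _ fun p hp => by
      have := (Nat.prime_of_mem_primeFactors hp).factorization_pos_of_dvd hq.ne'
        (Nat.dvd_of_mem_primeFactors hp)
      omega
  exact_mod_cast this

/-- sums over factorisations -/
lemma conv (X : ℕ) (F : ℕ → ℕ → ℝ) (hF : ∀ a b, 0 ≤ F a b) :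
    ∑ n ∈ Icc 1 X, ∑ p ∈ n.divisorsAntidiagonal, F p.1 p.2 ≤
      ∑ a ∈ Icc 1 X, ∑ b ∈ Icc 1 (X / a), F a b := by
  rw [sum_sigma', sum_sigma']
  refine sum_le_sum_of_injOn (fun z => (⟨z.2.1, z.2.2⟩ : Σ _ : ℕ, ℕ)) ?_ ?_ (fun _ _ => le_rfl)
    fun z _ _ => hF _ _
  · rintro ⟨n, a, b⟩ h ⟨n', a', b'⟩ h' e
    simp only [coe_sigma, Set.mem_sigma_iff, mem_coe, Nat.mem_divisorsAntidiagonal] at h h'
    simp only [Sigma.mk.injEq, heq_eq_eq] at e
    obtain ⟨rfl, rfl⟩ := e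
    obtain rfl : n = n' := h.2.1.symm.trans h'.2.1
    rfl
  · intro z hz
    obtain ⟨⟨n, a, b⟩, h, rfl⟩ := mem_image.1 hz
    simp only [mem_sigma, mem_Icc, Nat.mem_divisorsAntidiagonal] at h ⊢
    obtain ⟨⟨h1, h2⟩, rfl, h3⟩ := h
    have ha : 0 < a := Nat.pos_of_ne_zero (left_ne_zero_of_mul h3)
    have hb : 0 < b := Nat.pos_of_ne_zero (right_ne_zero_of_mul h3)
    exact ⟨⟨ha, (Nat.le_mul_of_pos_right _ hb).trans h2⟩, hb,
      (Nat.le_div_iff_mul_le ha).2 (by rwa [mul_comm])⟩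

lemma tau_eq (n : ℕ) : tau n = ∑ _p ∈ n.divisorsAntidiagonal, (1 : ℝ) := by
  rw [Nat.sum_divisorsAntidiagonal (fun _ _ => (1 : ℝ))]
  simp [tau]

lemma sum_tau (X : ℕ) : ∑ n ∈ Icc 1 X, tau n ≤ X * (1 + Real.log X) := by
  simp_rw [tau_eq]
  refine (conv X (fun _ _ => 1) fun _ _ => zero_le_one).trans ?_
  refine le_trans (sum_le_sum fun a _ => ?_)
    ((mul_sum _ _ _).symm.le.trans (mul_le_mul_of_nonneg_left (harm X) (Nat.cast_nonneg X)))
  simp only [sum_const, Nat.card_Icc, add_tsub_cancel_right, nsmul_eq_mul, mul_one, mul_one_div]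
  exact Nat.cast_div_le

lemma conv_mul (X : ℕ) (f : ℕ → ℝ) (hf : ∀ a, 0 ≤ f a) :
    ∑ n ∈ Icc 1 X, ∑ p ∈ n.divisorsAntidiagonal, f p.1 * f p.2 ≤ (∑ a ∈ Icc 1 X, f a) ^ 2 := by
  refine (conv X (fun a b => f a * f b) fun a b => mul_nonneg (hf a) (hf b)).trans ?_
  rw [sq, sum_mul_sum]
  exact sum_le_sum fun a _ => sum_le_sum_of_subset_of_nonneg
    (Icc_subset_Icc_right (Nat.div_le_self _ _)) fun b _ _ => mul_nonneg (hf a) (hf b)

lemma log_pos' (X : ℕ) : 0 ≤ 1 + Real.log X := by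
  have := Real.log_natCast_nonneg X
  linarith

lemma sum_tau_div (X : ℕ) : ∑ n ∈ Icc 1 X, tau n / n ≤ (1 + Real.log X) ^ 2 := by
  refine le_trans (le_trans (sum_le_sum fun n _ => ?_)
    (conv_mul X (fun a => 1 / a) fun a => by positivity))
    (pow_le_pow_left₀ (sum_nonneg fun a _ => by positivity) (harm X) 2)
  rw [tau_eq, sum_div]
  refine sum_le_sum fun p hp => ?_
  rw [← (Nat.mem_divisorsAntidiagonal.1 hp).1]
  push_cast
  rw [div_mul_div_comm, mul_one]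

lemma sum_tau_sq (X : ℕ) : ∑ n ∈ Icc 1 X, tau n ^ 2 / n ≤ (1 + Real.log X) ^ 4 := by
  have h0 : ∀ a : ℕ, 0 ≤ tau a / a := fun a => div_nonneg (tau_nonneg a) (Nat.cast_nonneg a)
  refine le_trans (le_trans (sum_le_sum fun n _ => ?_) (conv_mul X (fun a => tau a / a) h0))
    ((pow_le_pow_left₀ (sum_nonneg fun a _ => h0 a) (sum_tau_div X) 2).trans_eq (by ring))
  rw [sq]
  nth_rewrite 1 [tau_eq]
  rw [sum_mul, sum_div]
  refine sum_le_sum fun p hp => ?_
  rw [← (Nat.mem_divisorsAntidiagonal.1 hp).1, div_mul_div_comm, one_mul]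
  push_cast
  exact div_le_div_of_nonneg_right (tau_mul_le _ _) (by positivity)

lemma sum_tau_dvd {d : ℕ} (hd : 0 < d) (Y : ℕ) :
    ∑ c ∈ Icc 1 Y with d ∣ c, tau c ≤ tau d * (Y / d) * (1 + Real.log Y) := by
  have h1 : ∑ c ∈ Icc 1 Y with d ∣ c, tau c ≤ ∑ e ∈ Icc 1 (Y / d), tau d * tau e := by
    refine sum_le_sum_of_injOn (fun c => c / d) ?_ ?_ (fun c hc => ?_)
      fun e _ _ => mul_nonneg (tau_nonneg _) (tau_nonneg _)
    · intro c hc c' hc' e
      have k := (mem_filter.1 (mem_coe.1 hc)).2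
      have k' := (mem_filter.1 (mem_coe.1 hc')).2
      rw [← Nat.mul_div_cancel' k, ← Nat.mul_div_cancel' k']
      exact congrArg _ e
    · intro e he
      obtain ⟨c, hc, rfl⟩ := mem_image.1 he
      obtain ⟨k1, k2⟩ := mem_filter.1 hc
      obtain ⟨k3, k4⟩ := mem_Icc.1 k1
      exact mem_Icc.2 ⟨Nat.div_pos (Nat.le_of_dvd k3 k2) hd, Nat.div_le_div_right k4⟩
    · have := tau_mul_le d (c / d)
      rwa [Nat.mul_div_cancel' (mem_filter.1 hc).2] at this
  refine h1.trans ?_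
  rw [← mul_sum, mul_assoc]
  refine mul_le_mul_of_nonneg_left ((sum_tau _).trans ?_) (tau_nonneg d)
  refine mul_le_mul Nat.cast_div_le ?_ (log_pos' _) (by positivity)
  rcases Nat.eq_zero_or_pos (Y / d) with h | h
  · rw [h]; simpa using Real.log_natCast_nonneg Y
  · have : ((Y / d : ℕ) : ℝ) ≤ Y := by exact_mod_cast Nat.div_le_self _ _
    have := Real.log_le_log (by exact_mod_cast h) this
    linarith

lemma sum_gcd (m Y : ℕ) (hm : 0 < m) :
    ∑ c ∈ Icc 1 Y, tau c * Real.sqrt (m.gcd c) ≤ tau m ^ 2 * Y * (1 + Real.log Y) := by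
  have h1 : ∀ c ∈ Icc 1 Y, tau c * Real.sqrt (m.gcd c) ≤
      ∑ d ∈ m.divisors, if d ∣ c then tau c * d else 0 := fun c _ => by
    have hg : m.gcd c ∈ m.divisors := Nat.mem_divisors.2 ⟨Nat.gcd_dvd_left _ _, hm.ne'⟩
    refine le_trans ?_ (single_le_sum (f := fun d => if d ∣ c then tau c * (d : ℝ) else 0)
      (fun d _ => by
        split_ifs
        · exact mul_nonneg (tau_nonneg _) (Nat.cast_nonneg _)
        · exact le_rfl) hg)
    simp only [Nat.gcd_dvd_right, if_true]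
    refine mul_le_mul_of_nonneg_left ?_ (tau_nonneg _)
    have : (1 : ℝ) ≤ m.gcd c := by exact_mod_cast Nat.gcd_pos_of_pos_left c hm
    rw [Real.sqrt_le_left (by linarith)]
    nlinarith
  refine (sum_le_sum h1).trans ?_
  rw [sum_comm]
  have h2 : ∀ d ∈ m.divisors, (∑ c ∈ Icc 1 Y, if d ∣ c then tau c * (d : ℝ) else 0) ≤
      tau m * Y * (1 + Real.log Y) := fun d hd => by
    have hd0 : 0 < d := Nat.pos_of_mem_divisors hd
    have hd1 : (0 : ℝ) < d := by exact_mod_cast hd0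
    rw [← sum_filter, ← sum_mul]
    refine (mul_le_mul_of_nonneg_right (sum_tau_dvd hd0 Y) hd1.le).trans ?_
    rw [show tau d * (Y / d) * (1 + Real.log Y) * d = tau d * Y * (1 + Real.log Y) by field_simp]
    exact mul_le_mul_of_nonneg_right (mul_le_mul_of_nonneg_right
      (tau_le_of_dvd hm (Nat.dvd_of_mem_divisors hd)) (Nat.cast_nonneg _)) (log_pos' _)
  refine (sum_le_sum h2).trans_eq ?_
  rw [sum_const, nsmul_eq_mul]
  unfold tau
  ring

end A1

theorem a1 : S_A1 := by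
  refine ⟨exists_tau_pow_le, tau_mul_le, fun q hq => ⟨A1.tot, A1.two_pow hq, A1.tot.trans ?_⟩,
    A1.sum_tau, A1.sum_tau_sq, A1.sum_gcd⟩
  refine mul_le_mul_of_nonneg_right (le_trans ?_ (A1.two_pow hq)) (Nat.cast_nonneg _)
  exact_mod_cast Nat.lt_two_pow_self

end MR
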