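import Pool.Agent.P.MP_79de8b_nt.Basic

/-! Package A2: the part of `h` supported on the primes of `c`, sums over such parts, and
unitary divisors of intermediate size. -/

open Finset Filter Topology

noncomputable section
namespace MR.A2

lemma fact_part {h c : ℕ} (hh : 0 < h) (hc : c ≠ 0) {p : ℕ} (hp : p.Prime) :
    (part h c).factorization p = if p ∣ c then h.factorization p else 0 := by
  unfold part
  rw [Nat.factorization_gcd hh.ne' (pow_ne_zero _ hc), Finsupp.inf_apply, Nat.factorization_pow]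
  simp only [Finsupp.smul_apply, smul_eq_mul]
  split_ifs with hd
  · have h1 : 1 ≤ c.factorization p := (hp.dvd_iff_one_le_factorization hc).1 hd
    have h2 := Nat.factorization_lt p hh.ne'
    apply min_eq_left
    nlinarith
  · rw [Nat.factorization_eq_zero_of_not_dvd hd]; simp

lemma part_zero {h : ℕ} (hh : 0 < h) : part h 0 = h := by
  unfold part; rw [zero_pow hh.ne', Nat.gcd_zero_right]

lemma part_pos {h : ℕ} (hh : 0 < h) (c : ℕ) : 0 < part h c := Nat.gcd_pos_of_pos_left _ hh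

lemma one (h c : ℕ) (hh : 0 < h) : part h c ∣ h ∧ (h / part h c).Coprime c ∧
    (∀ p, p.Prime → p ∣ part h c → p ∣ c) ∧
    (∀ Q, Q ∣ h → Q ∣ c → Q ∣ part h c) ∧
    (∀ r, 0 < r → r.Coprime c → part (r * h) c = part h c) := by
  have hd : part h c ∣ h := Nat.gcd_dvd_left _ _
  refine ⟨hd, ?_, fun p hp hpd => hp.dvd_of_dvd_pow (hpd.trans (Nat.gcd_dvd_right _ _)),
    fun Q h1 h2 => Nat.dvd_gcd h1 (h2.trans (dvd_pow_self c hh.ne')), fun r hr hrc => ?_⟩
  · rcases eq_or_ne c 0 with rfl | hc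
    · rw [part_zero hh, Nat.div_self hh]; simp
    refine Nat.Coprime.symm (Nat.coprime_of_dvd fun p hp hpc hpd => ?_)
    have h0 : h / part h c ≠ 0 := (Nat.div_pos (Nat.le_of_dvd hh hd) (part_pos hh c)).ne'
    have h1 := (hp.dvd_iff_one_le_factorization h0).1 hpd
    rw [Nat.factorization_div hd, Finsupp.tsub_apply, fact_part hh hc hp, if_pos hpc] at h1
    omega
  · rcases eq_or_ne c 0 with rfl | hc
    · rw [Nat.coprime_zero_right] at hrc; rw [hrc, one_mul]
    have hrh : 0 < r * h := Nat.mul_pos hr hh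
    refine Nat.eq_of_factorization_eq (part_pos hrh c).ne' (part_pos hh c).ne' fun p => ?_
    by_cases hp : p.Prime
    · rw [fact_part hrh hc hp, fact_part hh hc hp]
      split_ifs with hpc
      · rw [Nat.factorization_mul hr.ne' hh.ne', Finsupp.add_apply,
          Nat.factorization_eq_zero_of_not_dvd (n := r), zero_add]
        intro hpr
        exact hp.one_lt.ne' (Nat.eq_one_of_dvd_coprimes hrc hpr hpc)
      · rfl
    · rw [Nat.factorization_eq_zero_of_not_prime _ hp, Nat.factorization_eq_zero_of_not_prime _ hp]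

lemma tau_prime_pow {p : ℕ} (hp : p.Prime) (k : ℕ) : tau (p ^ k) = k + 1 := by
  unfold tau; rw [Nat.divisors_prime_pow hp, card_map, card_range]; push_cast; rfl

lemma tau_mul_of_coprime {m n : ℕ} (h : m.Coprime n) : tau (m * n) = tau m * tau n := by
  unfold tau; rw [h.card_divisors_mul]; push_cast; rfl

lemma summable_geo (j : ℕ) {x : ℝ} (h0 : 0 ≤ x) (h1 : x < 1) :
    Summable fun k : ℕ => ((k : ℝ) + 1) ^ j * x ^ k := by
  have hx : ‖x‖ < 1 := by rwa [Real.norm_eq_abs, abs_of_nonneg h0]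
  have h2 : Summable fun k : ℕ => ∑ i ∈ range (j + 1), (j.choose i : ℝ) * ((k : ℝ) ^ i * x ^ k) :=
    summable_sum fun i _ => (summable_pow_mul_geometric_of_norm_lt_one i hx).mul_left _
  refine h2.congr fun k => ?_
  rw [add_pow, sum_mul]
  exact sum_congr rfl fun i _ => by ring

lemma two (hA1 : S_A1) (κ : ℝ) (j : ℕ) (hκ : 0 < κ) : ∃ C : ℕ, ∀ (c : ℕ) (s : Finset ℕ), 0 < c →
    (∀ e ∈ s, 0 < e ∧ ∀ p, p.Prime → p ∣ e → p ∣ c) →
    ∑ e ∈ s, tau e ^ j * (e : ℝ) ^ (-κ) ≤ C * tau c ^ C := by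
  set x : ℝ := (2 : ℝ) ^ (-κ) with hx
  have hx0 : 0 ≤ x := by positivity
  have hx1 : x < 1 := Real.rpow_lt_one_of_one_lt_of_neg (by norm_num) (by linarith)
  have hS := summable_geo j hx0 hx1
  set C0 : ℝ := ∑' k : ℕ, ((k : ℝ) + 1) ^ j * x ^ k with hC0
  obtain ⟨C, hC⟩ := pow_unbounded_of_one_lt C0 (one_lt_two (α := ℝ))
  refine ⟨C + 1, fun c s hc hs => ?_⟩
  set f : ℕ → ℝ := fun e => tau e ^ j * (e : ℝ) ^ (-κ) with hf
  have f0 : ∀ e, 0 ≤ f e := fun e => mul_nonneg (pow_nonneg (tau_nonneg e) _) (by positivity)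
  have f1 : f 1 = 1 := by simp [hf, tau]
  have fm : ∀ {m n : ℕ}, m.Coprime n → f (m * n) = f m * f n := fun {m n} h => by
    simp only [hf]
    rw [tau_mul_of_coprime h, Nat.cast_mul, Real.mul_rpow (by positivity) (by positivity)]; ring
  have fp : ∀ {p : ℕ}, p.Prime → ∀ k : ℕ, f (p ^ k) ≤ ((k : ℝ) + 1) ^ j * x ^ k := by
    intro p hp k
    simp only [hf]
    rw [tau_prime_pow hp]
    gcongr
    rw [Nat.cast_pow, ← Real.rpow_natCast, ← Real.rpow_mul (by positivity), mul_comm,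
      Real.rpow_mul (by positivity), Real.rpow_natCast]
    gcongr
    exact Real.rpow_le_rpow_of_nonpos (by norm_num) (by exact_mod_cast hp.two_le) (by linarith)
  have fs : ∀ {p : ℕ}, p.Prime → Summable fun k : ℕ => f (p ^ k) := fun hp =>
    Summable.of_nonneg_of_le (fun k => f0 _) (fp hp) hS
  have hE := (EulerProduct.summable_and_hasSum_factoredNumbers_prod_filter_prime_tsum f1 fm
    (fun {p} hp => (fs hp).norm) c.primeFactors).2
  have hE2 : HasSum ((Nat.factoredNumbers c.primeFactors).indicator f) _ :=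
    hasSum_subtype_iff_indicator.1 hE
  have h1 : ∑ e ∈ s, f e ≤ ∏ p ∈ c.primeFactors with p.Prime, ∑' n : ℕ, f (p ^ n) := by
    refine le_trans (le_of_eq ?_) (sum_le_hasSum s (fun e _ => Set.indicator_nonneg
      (fun e _ => f0 e) e) hE2)
    refine sum_congr rfl fun e he => (Set.indicator_of_mem ?_ f).symm
    exact Nat.mem_factoredNumbers'.2 fun p hp hpe =>
      Nat.mem_primeFactors.2 ⟨hp, (hs e he).2 p hp hpe, hc.ne'⟩
  have h2 : ∏ p ∈ c.primeFactors with p.Prime, ∑' n : ℕ, f (p ^ n) ≤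
      ∏ p ∈ c.primeFactors with p.Prime, (2 : ℝ) ^ C :=
    prod_le_prod (fun p _ => tsum_nonneg fun n => f0 _) fun p hp =>
      ((fs (mem_filter.1 hp).2).tsum_le_tsum (fp (mem_filter.1 hp).2) hS).trans hC.le
  have h3 : (2 : ℝ) ^ c.primeFactors.card ≤ tau c := (hA1.2.2.1 c hc).2.1
  have h4 := one_le_tau hc
  rw [prod_const] at h2
  calc _ ≤ _ := h1
    _ ≤ _ := h2
    _ ≤ ((2 : ℝ) ^ C) ^ c.primeFactors.card :=
        pow_le_pow_right₀ (one_le_pow₀ (by norm_num)) (card_filter_le _ _)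
    _ = ((2 : ℝ) ^ c.primeFactors.card) ^ C := by rw [← pow_mul, ← pow_mul, mul_comm]
    _ ≤ tau c ^ C := by gcongr
    _ ≤ tau c ^ (C + 1) := pow_le_pow_right₀ h4 (by omega)
    _ ≤ _ := le_mul_of_one_le_left (by positivity) (by push_cast; linarith [C.cast_nonneg (α := ℝ)])

lemma subprod (g : ℕ → ℕ) (X q : ℝ) (hX : 1 ≤ X) (hq : 1 ≤ q) (S : Finset ℕ)
    (hg : ∀ p ∈ S, (g p : ℝ) ^ 20 ≤ q) (h : X ≤ ∏ p ∈ S, (g p : ℝ)) :
    ∃ T ⊆ S, X ≤ ∏ p ∈ T, (g p : ℝ) ∧ (∏ p ∈ T, (g p : ℝ)) ^ 20 ≤ X ^ 20 * q := by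
  induction S using Finset.induction with
  | empty =>
    refine ⟨∅, Subset.refl _, h, ?_⟩
    rw [prod_empty, one_pow]
    exact one_le_mul_of_one_le_of_one_le (one_le_pow₀ hX) hq
  | insert p S hp ih =>
    by_cases h1 : X ≤ ∏ p ∈ S, (g p : ℝ)
    · obtain ⟨T, hT, h2⟩ := ih (fun p' hp' => hg p' (mem_insert_of_mem hp')) h1
      exact ⟨T, hT.trans (subset_insert _ _), h2⟩
    · refine ⟨insert p S, Subset.refl _, h, ?_⟩
      rw [prod_insert hp, mul_pow, mul_comm]
      have h2 := hg p (mem_insert_self _ _)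
      have h3 : (0 : ℝ) ≤ ∏ p ∈ S, (g p : ℝ) := prod_nonneg fun _ _ => Nat.cast_nonneg _
      gcongr
      exact (not_le.1 h1).le

/-- The product of the full prime powers of `q` over a set of primes. -/
def rT (q : ℕ) (T : Finset ℕ) : ℕ := ∏ p ∈ T, p ^ q.factorization p

lemma rT_mul {q : ℕ} (hq : q ≠ 0) {T : Finset ℕ} (hT : T ⊆ q.primeFactors) :
    rT q T * rT q (q.primeFactors \ T) = q := by
  unfold rT
  rw [mul_comm, prod_sdiff hT]
  exact Nat.prod_factorization_pow_eq_self hq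

lemma rT_pos {q : ℕ} {T : Finset ℕ} (hT : T ⊆ q.primeFactors) : 0 < rT q T :=
  prod_pos fun _ hp => pow_pos (Nat.prime_of_mem_primeFactors (hT hp)).pos _

lemma rT_coprime {q : ℕ} {T U : Finset ℕ} (hT : T ⊆ q.primeFactors) (hU : U ⊆ q.primeFactors)
    (h : Disjoint T U) : (rT q T).Coprime (rT q U) := by
  refine Nat.Coprime.prod_left fun p hp => Nat.Coprime.prod_right fun p' hp' => ?_
  refine Nat.Coprime.pow _ _ ((Nat.coprime_primes (Nat.prime_of_mem_primeFactors (hT hp))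
    (Nat.prime_of_mem_primeFactors (hU hp'))).2 ?_)
  rintro rfl
  exact disjoint_left.1 h hp hp'

lemma tau_rT {q : ℕ} {T : Finset ℕ} (hT : T ⊆ q.primeFactors) :
    tau (rT q T) = ∏ p ∈ T, ((q.factorization p : ℝ) + 1) := by
  induction T using Finset.induction with
  | empty => simp [rT, tau]
  | insert p S hp ih =>
    have h1 : S ⊆ q.primeFactors := (subset_insert _ _).trans hT
    have h2 : ({p} : Finset ℕ) ⊆ q.primeFactors := by
      simpa using hT (mem_insert_self _ _)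
    have h3 := rT_coprime h2 h1 (by simpa using hp)
    have h4 : rT q (insert p S) = rT q {p} * rT q S := by simp [rT, prod_insert hp]
    rw [h4, tau_mul_of_coprime h3, ih h1, prod_insert hp]
    simp [rT, tau_prime_pow (Nat.prime_of_mem_primeFactors (hT (mem_insert_self _ _)))]

lemma fact_le {q p : ℕ} (hq : 3 ≤ q) (hp : p.Prime) :
    (q.factorization p : ℝ) + 1 ≤ 3 * Real.log q := by
  have hl := one_le_log hq
  have h1 : 2 ^ q.factorization p ≤ q :=
    (Nat.pow_le_pow_left hp.two_le _).trans (Nat.le_of_dvd (by omega) (Nat.ordProj_dvd q p))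
  have h2 : Real.log ((2 : ℝ) ^ q.factorization p) ≤ Real.log q :=
    Real.log_le_log (by positivity) (by exact_mod_cast h1)
  rw [Real.log_pow] at h2
  have h3 := Real.log_two_gt_d9
  have h4 : (0 : ℝ) ≤ q.factorization p := Nat.cast_nonneg _
  nlinarith

lemma card_big {q : ℕ} (hq : 3 ≤ q) :
    (q.primeFactors.filter fun p => q < (p ^ q.factorization p) ^ 20).card ≤ 20 := by
  set B := q.primeFactors.filter fun p => q < (p ^ q.factorization p) ^ 20
  have hB : B ⊆ q.primeFactors := filter_subset _ _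
  have h1 : rT q B ≤ q := Nat.le_of_dvd (by omega) (Dvd.intro _ (rT_mul (by omega) hB))
  have h2 : q ^ B.card ≤ rT q B ^ 20 := by
    unfold rT
    rw [← prod_pow, ← prod_const]
    exact prod_le_prod' fun p hp => (mem_filter.1 hp).2.le
  exact (Nat.pow_le_pow_iff_right (by omega)).1 (h2.trans (Nat.pow_le_pow_left h1 20))

lemma ev_small (C : ℝ) (M : ℕ) : ∀ᶠ q : ℕ in atTop,
    C * (3 * Real.log q) ^ M < Real.exp (Real.log q ^ (1 / 10 : ℝ)) := by
  have h1 : Tendsto (fun q : ℕ => Real.log q ^ (1 / 10 : ℝ)) atTop atTop :=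
    (tendsto_rpow_atTop (by norm_num)).comp
      (Real.tendsto_log_atTop.comp tendsto_natCast_atTop_atTop)
  have h2 := ((Real.tendsto_exp_div_pow_atTop (10 * M)).comp h1).eventually_gt_atTop (C * 3 ^ M)
  filter_upwards [h2, eventually_ge_atTop 3] with q h hq
  have hl := one_le_log hq
  have h3 : (Real.log q ^ (1 / 10 : ℝ)) ^ (10 * M) = Real.log q ^ M := by
    rw [pow_mul, ← Real.rpow_natCast _ 10, ← Real.rpow_mul (by linarith)]; norm_num
  simp only [Function.comp] at h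
  rw [h3, lt_div_iff₀ (by positivity)] at h
  rw [mul_pow]; linarith

lemma three (N k : ℕ) (hN : 0 < N) : ∃ q₀ : ℕ, ∀ q ≥ q₀,
    Real.exp (Real.log q ^ (1 / 10 : ℝ)) ≤ Lam q →
    ∃ r : ℕ, r ∣ q ∧ r.Coprime (q / r * N) ∧ Lam q ^ k ≤ r ∧ r ^ 10 ≤ q := by
  obtain ⟨C, hC1, hC⟩ := exists_tau_pow_le (k + 1)
  set m := N.primeFactors.card + 20 with hm
  obtain ⟨q₀, hq₀⟩ := eventually_atTop.1 (((ev_small C ((m + 1) * (k + 1))).and
    (eventually_Lam_pow_le (k * 20) one_pos one_pos)).and (eventually_ge_atTop 3))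
  refine ⟨q₀, fun q hq hL => ?_⟩
  obtain ⟨⟨e1, e2⟩, h3⟩ := hq₀ q hq
  rw [Real.rpow_one, one_mul] at e2
  have hq0 : q ≠ 0 := by omega
  have hl := one_le_log h3
  have hL1 := one_le_Lam h3
  set S := q.primeFactors.filter fun p => ¬ p ∣ N ∧ (p ^ q.factorization p) ^ 20 ≤ q with hS
  have hSq : S ⊆ q.primeFactors := filter_subset _ _
  have hcard : (q.primeFactors \ S).card ≤ m := by
    have : q.primeFactors \ S ⊆ N.primeFactors ∪
        q.primeFactors.filter fun p => q < (p ^ q.factorization p) ^ 20 := by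
      intro p hp
      obtain ⟨h1, h2⟩ := mem_sdiff.1 hp
      rw [mem_union, mem_filter]
      by_cases hpN : p ∣ N
      · exact Or.inl (Nat.mem_primeFactors.2 ⟨Nat.prime_of_mem_primeFactors h1, hpN, hN.ne'⟩)
      · exact Or.inr ⟨h1, not_le.1 fun h => h2 (mem_filter.2 ⟨h1, hpN, h⟩)⟩
    have h2 := card_big h3
    have h4 := (card_le_card this).trans (card_union_le _ _)
    omega
  have htau : tau q ≤ tau (rT q S) * (3 * Real.log q) ^ m := by
    conv_lhs => rw [← rT_mul hq0 hSq]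
    refine (tau_mul_le _ _).trans (mul_le_mul_of_nonneg_left ?_ (tau_nonneg _))
    rw [tau_rT sdiff_subset]
    calc _ ≤ ∏ p ∈ q.primeFactors \ S, (3 * Real.log q) :=
          prod_le_prod (fun _ _ => by positivity) fun p hp =>
            fact_le h3 (Nat.prime_of_mem_primeFactors (mem_sdiff.1 hp).1)
      _ ≤ _ := by rw [prod_const]; exact pow_le_pow_right₀ (by linarith) hcard
  have hbig : Lam q ^ k ≤ rT q S := by
    by_contra hlt
    have hlt := (not_le.1 hlt).le
    have h1 : Lam q ≤ tau (rT q S) * (3 * Real.log q) ^ (m + 1) := by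
      have := tau_nonneg (rT q S)
      unfold Lam
      rw [pow_succ, ← mul_assoc]
      gcongr
      linarith
    have h2 : Lam q ^ (k + 1) ≤ C * Lam q ^ k * (3 * Real.log q) ^ ((m + 1) * (k + 1)) := by
      calc _ ≤ (tau (rT q S) * (3 * Real.log q) ^ (m + 1)) ^ (k + 1) := by gcongr
        _ = tau (rT q S) ^ (k + 1) * (3 * Real.log q) ^ ((m + 1) * (k + 1)) := by
            rw [mul_pow, ← pow_mul]
        _ ≤ C * rT q S * (3 * Real.log q) ^ ((m + 1) * (k + 1)) := by
            gcongr; exact hC _ (rT_pos hSq)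
        _ ≤ _ := by gcongr
    have h4 : Lam q ≤ C * (3 * Real.log q) ^ ((m + 1) * (k + 1)) := by
      have h5 : (0 : ℝ) < Lam q ^ k := by positivity
      rw [pow_succ] at h2
      nlinarith
    linarith
  have hq1 : (1 : ℝ) ≤ q := by exact_mod_cast (by omega : 1 ≤ q)
  obtain ⟨T, hT, h1, h2⟩ := subprod (fun p => p ^ q.factorization p) (Lam q ^ k) q
    (one_le_pow₀ hL1) hq1 S (fun p hp => by exact_mod_cast (mem_filter.1 hp).2.2)
    (by simpa [rT] using hbig)
  have hTq : T ⊆ q.primeFactors := hT.trans hSq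
  have hcast : (rT q T : ℝ) = ∏ p ∈ T, ((p ^ q.factorization p : ℕ) : ℝ) := by
    unfold rT; rw [Nat.cast_prod]
  rw [← hcast] at h1 h2
  have hmul := rT_mul hq0 hTq
  refine ⟨rT q T, Dvd.intro _ hmul, ?_, h1, ?_⟩
  · rw [Nat.div_eq_of_eq_mul_right (rT_pos hTq) hmul.symm]
    refine Nat.Coprime.mul_right (rT_coprime hTq sdiff_subset disjoint_sdiff) ?_
    refine Nat.Coprime.prod_left fun p hp => Nat.Coprime.pow_left _ ?_
    exact (Nat.Prime.coprime_iff_not_dvd (Nat.prime_of_mem_primeFactors (hTq hp))).2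
      (mem_filter.1 (hT hp)).2.1
  · have h4 : ((rT q T : ℝ) ^ 10) ^ 2 ≤ (q : ℝ) ^ 2 := by
      rw [← pow_mul]
      rw [← pow_mul] at h2
      calc _ ≤ _ := h2
        _ ≤ (q : ℝ) * q := by gcongr
        _ = _ := by ring
    have h5 := le_of_sq_le_sq h4 (by positivity)
    exact_mod_cast h5

end MR.A2

namespace MR

theorem a2 (hA1 : S_A1) : S_A2 := ⟨A2.one, A2.two hA1, A2.three⟩

end MR
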