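import Pool.Agent.P.MP_79de8b_nt.Basic

/-! Averages over reduced residues in a class (package Av). -/

open Complex Finset
open scoped Real

noncomputable section
namespace MR
namespace Av

/-- Reduced residues modulo `n` in the class `ρ` modulo `d`. -/
def Fib (n d ρ : ℕ) : Finset ℕ := (un n).filter (fun x => x ≡ ρ [MOD d])

lemma mem_Fib {n d ρ x : ℕ} : x ∈ Fib n d ρ ↔ (x < n ∧ x.Coprime n) ∧ x ≡ ρ [MOD d] := by
  simp [Fib, mem_un]

lemma card_Fib_eq {n d : ℕ} [NeZero n] [NeZero d] (h : d ∣ n) {ρ : ℕ} (hρ : ρ.Coprime d) :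
    (Fib n d ρ).card =
      (univ.filter fun u : (ZMod n)ˣ => ZMod.unitsMap h u = ZMod.unitOfCoprime ρ hρ).card := by
  classical
  unfold Fib
  rw [card_filter, sum_un, card_filter]
  refine sum_congr rfl fun u _ => ?_
  have key : ((u : ZMod n).val ≡ ρ [MOD d]) ↔ ZMod.unitsMap h u = ZMod.unitOfCoprime ρ hρ := by
    rw [← ZMod.natCast_eq_natCast_iff, Units.ext_iff, ZMod.unitsMap_val, ZMod.coe_unitOfCoprime,
      ZMod.natCast_val]
  simp only [key]

lemma card_Fib {n d : ℕ} (hn : 0 < n) (h : d ∣ n) {ρ : ℕ} (hρ : ρ.Coprime d) :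
    (Fib n d ρ).card * d.totient = n.totient := by
  classical
  have hd : 0 < d := Nat.pos_of_dvd_of_pos h hn
  have : NeZero n := ⟨hn.ne'⟩
  have : NeZero d := ⟨hd.ne'⟩
  rw [card_Fib_eq h hρ, ← ZMod.card_units_eq_totient n, ← ZMod.card_units_eq_totient d]
  have h1 := card_eq_sum_card_fiberwise (f := ZMod.unitsMap h) (s := univ) (t := univ)
    (fun _ _ => mem_coe.2 (mem_univ _))
  rw [card_univ] at h1
  rw [h1, sum_congr rfl (g := fun _ => (univ.filter fun u : (ZMod n)ˣ =>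
    ZMod.unitsMap h u = ZMod.unitOfCoprime ρ hρ).card) fun v _ =>
      MonoidHom.card_fiber_eq_of_mem_range (ZMod.unitsMap h) (ZMod.unitsMap_surjective h v)
        (ZMod.unitsMap_surjective h _), sum_const, card_univ, smul_eq_mul, mul_comm]

lemma sum_Fib {n d : ℕ} (hn : 0 < n) (h : d ∣ n) (F : ℕ → ℂ) :
    ∑ x ∈ un n, F x = ∑ ρ ∈ un d, ∑ x ∈ Fib n d ρ, F x := by
  have hd : 0 < d := Nat.pos_of_dvd_of_pos h hn
  rw [← sum_fiberwise_of_maps_to (s := un n) (t := un d) (g := fun x => x % d) (fun x hx => ?_)]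
  · refine sum_congr rfl fun ρ hρ => sum_congr ?_ fun _ _ => rfl
    unfold Fib
    refine filter_congr fun x _ => ?_
    unfold Nat.ModEq
    rw [Nat.mod_eq_of_lt (mem_un.1 hρ).1]
  · refine mem_un.2 ⟨Nat.mod_lt _ hd, ?_⟩
    have := (mem_un.1 hx).2.coprime_dvd_right h
    unfold Nat.Coprime at this ⊢
    rwa [← Nat.gcd_rec, Nat.gcd_comm]

lemma periodic_mod {q : ℕ} {φ : ℕ → ℂ} (hφ : ∀ x, φ (x + q) = φ x) {x r : ℕ} (hr : r < q)
    (hx : x ≡ r [MOD q]) : φ x = φ r := by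
  have hp : Function.Periodic φ q := hφ
  rw [← hp.map_mod_nat x, hx, Nat.mod_eq_of_lt hr]

lemma two {N q : ℕ} (hN : 0 < N) (hq : 0 < q) (φ : ℕ → ℂ) (hφ : ∀ x, φ (x + q) = φ x) :
    av (un q) φ = av (un N) fun ρ' => av (UU N q ρ') φ := by
  have hn : 0 < q * N := Nat.mul_pos hq hN
  have h1 : ((q * N).totient : ℂ) ≠ 0 := by exact_mod_cast (Nat.totient_pos.2 hn).ne'
  have h2 : (q.totient : ℂ) ≠ 0 := by exact_mod_cast (Nat.totient_pos.2 hq).ne'
  have h3 : (N.totient : ℂ) ≠ 0 := by exact_mod_cast (Nat.totient_pos.2 hN).ne'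
  have hA : ∑ x ∈ un (q * N), φ x = ((q * N).totient / q.totient : ℂ) * ∑ r ∈ un q, φ r := by
    rw [sum_Fib hn (Dvd.intro _ rfl), mul_sum]
    refine sum_congr rfl fun r hr => ?_
    rw [sum_congr rfl (g := fun _ => φ r) fun x hx =>
      periodic_mod hφ (mem_un.1 hr).1 (mem_Fib.1 hx).2, sum_const, nsmul_eq_mul,
      ← card_Fib hn (Dvd.intro _ rfl) (mem_un.1 hr).2]
    push_cast
    field_simp
  have hB : ∑ ρ' ∈ un N, av (UU N q ρ') φ =
      (N.totient / (q * N).totient : ℂ) * ∑ x ∈ un (q * N), φ x := by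
    rw [sum_Fib hn (Dvd.intro_left _ rfl), mul_sum]
    refine sum_congr rfl fun r hr => ?_
    have hc := card_Fib hn (Dvd.intro_left q rfl) (mem_un.1 hr).2
    have hc' : ((Fib (q * N) N r).card : ℂ) = (q * N).totient / N.totient := by
      rw [← hc]; push_cast; field_simp
    change (∑ x ∈ Fib (q * N) N r, φ x) / ((Fib (q * N) N r).card : ℂ) = _
    rw [hc']
    field_simp
  change (∑ r ∈ un q, φ r) / ((un q).card : ℂ) =
    (∑ ρ' ∈ un N, av (UU N q ρ') φ) / ((un N).card : ℂ)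
  rw [hB, hA, card_un, card_un]
  field_simp

lemma sum_moebius (n : ℕ) :
    ∑ δ ∈ n.divisors, (ArithmeticFunction.moebius δ : ℂ) = if n = 1 then 1 else 0 := by
  have h := congrArg (fun f : ArithmeticFunction ℂ => f n)
    (ArithmeticFunction.coe_moebius_mul_coe_zeta (R := ℂ))
  simp only [ArithmeticFunction.coe_mul_zeta_apply, ArithmeticFunction.one_apply,
    ArithmeticFunction.intCoe_apply] at h
  exact h

lemma ind_coprime {q : ℕ} (hq : 0 < q) (x : ℕ) :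
    (if x.Coprime q then (1 : ℂ) else 0) =
      ∑ δ ∈ q.divisors, if δ ∣ x then (ArithmeticFunction.moebius δ : ℂ) else 0 := by
  rw [← sum_filter, ← sum_moebius (x.gcd q)]
  refine sum_congr ?_ fun _ _ => rfl
  ext δ
  have : x.gcd q ≠ 0 := (Nat.gcd_pos_of_pos_right x hq).ne'
  simp only [Nat.mem_divisors, mem_filter, Nat.dvd_gcd_iff, ne_eq, this, hq.ne', not_false_eq_true,
    and_true]
  exact and_comm

/-- Sum over a residue class. -/
lemma sum_class {M k x₀ : ℕ} (hx : x₀ < M) (F : ℕ → ℂ) :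
    ∑ x ∈ (range (M * k)).filter (fun x => x ≡ x₀ [MOD M]), F x =
      ∑ j ∈ range k, F (x₀ + M * j) := by
  have hM : 0 < M := by omega
  symm
  refine sum_bij (fun j _ => x₀ + M * j) (fun j hj => ?_) (fun i _ j _ h => ?_)
    (fun x hx' => ?_) fun _ _ => rfl
  · rw [mem_range] at hj
    refine mem_filter.2 ⟨mem_range.2 ?_, ?_⟩
    · calc x₀ + M * j < M + M * j := by omega
        _ = M * (j + 1) := by ring
        _ ≤ M * k := Nat.mul_le_mul_left _ hj
    · simp [Nat.ModEq]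
  · exact Nat.eq_of_mul_eq_mul_left hM (Nat.add_left_cancel h)
  · obtain ⟨h1, h2⟩ := mem_filter.1 hx'
    rw [mem_range] at h1
    refine ⟨x / M, mem_range.2 (Nat.div_lt_of_lt_mul h1), ?_⟩
    unfold Nat.ModEq at h2
    rw [Nat.mod_eq_of_lt hx] at h2
    rw [← h2]
    exact Nat.mod_add_div x M

lemma three {N q ρ : ℕ} (hN : 0 < N) (hq : 0 < q) (hρ : ρ.Coprime N) :
    ∃ x₀ : ℕ → ℕ, ∀ h : ℤ, ∑ x ∈ UU N q ρ, ex (h * x / (q * N)) =
      ∑ δ ∈ q.divisors.filter (·.Coprime N), (ArithmeticFunction.moebius δ : ℂ) *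
        (if ((q / δ : ℕ) : ℤ) ∣ h then ((q / δ : ℕ) : ℂ) * ex (h * x₀ δ / (q * N)) else 0) := by
  have hex : ∀ δ : ℕ, ∃ x₀ : ℕ, 0 < δ → δ.Coprime N →
      x₀ < δ * N ∧ x₀ ≡ 0 [MOD δ] ∧ x₀ ≡ ρ [MOD N] := fun δ => by
    by_cases hc : δ.Coprime N
    · exact ⟨Nat.chineseRemainder hc 0 ρ, fun hδ _ =>
        ⟨Nat.chineseRemainder_lt_mul hc 0 ρ hδ.ne' hN.ne', (Nat.chineseRemainder hc 0 ρ).2⟩⟩
    · exact ⟨0, fun _ h => absurd h hc⟩
  choose x₀ hx₀ using hex
  refine ⟨x₀, fun h => ?_⟩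
  have hcop : ∀ x : ℕ, x ≡ ρ [MOD N] → x.Coprime N := fun x hx => by
    unfold Nat.Coprime at hρ ⊢
    rw [hx.gcd_eq]; exact hρ
  have e1 : ∑ x ∈ UU N q ρ, ex (h * x / (q * N)) =
      ∑ x ∈ (range (q * N)).filter (fun x => x ≡ ρ [MOD N]),
        (if x.Coprime q then (1 : ℂ) else 0) * ex (h * x / (q * N)) := by
    simp only [ite_mul, one_mul, zero_mul]
    rw [← sum_filter]
    refine sum_congr ?_ fun _ _ => rfl
    ext x
    simp only [mem_UU, mem_filter, mem_range, Nat.coprime_mul_iff_right]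
    exact ⟨fun a => ⟨⟨a.1, a.2.2⟩, a.2.1.1⟩, fun a => ⟨a.1.1, ⟨a.2, hcop x a.1.2⟩, a.1.2⟩⟩
  rw [e1]
  simp only [ind_coprime hq, sum_mul]
  rw [sum_comm, sum_filter]
  refine sum_congr rfl fun δ hδ => ?_
  have hδq : δ ∣ q := Nat.dvd_of_mem_divisors hδ
  have hδ0 : 0 < δ := Nat.pos_of_dvd_of_pos hδq hq
  by_cases hc : δ.Coprime N
  swap
  · rw [if_neg hc]
    refine sum_eq_zero fun x hx => ?_
    rw [if_neg (fun hd => hc ((hcop x (mem_filter.1 hx).2).coprime_dvd_left hd)), zero_mul]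
  rw [if_pos hc]
  obtain ⟨h1, h2, h3⟩ := hx₀ δ hδ0 hc
  obtain ⟨k, rfl⟩ := hδq
  have hk : 0 < k := Nat.pos_of_mul_pos_left hq
  have hdiv : δ * k / δ = k := Nat.mul_div_cancel_left k hδ0
  have e2 : ∑ x ∈ (range (δ * k * N)).filter (fun x => x ≡ ρ [MOD N]),
      (if δ ∣ x then (ArithmeticFunction.moebius δ : ℂ) else 0) *
        ex (h * x / ((δ * k : ℕ) * N)) = (ArithmeticFunction.moebius δ : ℂ) *
      (ex (h * x₀ δ / ((δ * k : ℕ) * N)) * ∑ j ∈ range k, ex ((h * j : ℤ) / k)) := by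
    simp only [ite_mul, zero_mul]
    rw [← sum_filter, ← mul_sum, filter_filter, mul_right_comm δ k N,
      filter_congr (q := fun x => x ≡ x₀ δ [MOD δ * N]) (fun x _ => ?_), sum_class h1]
    · congr 1
      rw [mul_sum]
      refine sum_congr rfl fun j _ => ?_
      rw [← ex_add]
      congr 1
      have : (δ : ℝ) ≠ 0 := by positivity
      have : (k : ℝ) ≠ 0 := by positivity
      have : (N : ℝ) ≠ 0 := by positivity
      push_cast
      field_simp
    · rw [← Nat.modEq_and_modEq_iff_modEq_mul hc, ← Nat.modEq_zero_iff_dvd]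
      exact ⟨fun a => ⟨a.2.trans h2.symm, a.1.trans h3.symm⟩,
        fun a => ⟨a.2.trans h3, a.1.trans h2⟩⟩
  rw [e2, sum_ex_range hk, hdiv]
  congr 1
  split_ifs
  · exact mul_comm _ _
  · exact mul_zero _

lemma four {N : ℕ} (q : ℕ) (hN : 0 < N) (D : ℕ → ℂ) :
    av (un N) (fun ρ' => D (q * ρ' % N)) = av (un N) fun ρ' => D (q.gcd N * ρ' % N) := by
  have : NeZero N := ⟨hN.ne'⟩
  have hd : 0 < q.gcd N := Nat.gcd_pos_of_pos_right q hN
  have hco := Nat.coprime_div_gcd_div_gcd hd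
  have hc := card_Fib hN (Nat.div_dvd_of_dvd (Nat.gcd_dvd_right q N)) hco
  have hne : (Fib N (N / q.gcd N) (q / q.gcd N)).Nonempty := by
    rw [← card_pos]
    have := Nat.totient_pos.2 hN
    rw [← hc] at this
    exact Nat.pos_of_mul_pos_right this
  obtain ⟨w, hw⟩ := hne
  obtain ⟨⟨-, hw1⟩, hw2⟩ := mem_Fib.1 hw
  have hw3 : q.gcd N * w ≡ q [MOD N] := by
    have := hw2.mul_left' (q.gcd N)
    rwa [Nat.mul_div_cancel' (Nat.gcd_dvd_right q N), Nat.mul_div_cancel' (Nat.gcd_dvd_left q N)]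
      at this
  unfold av
  congr 1
  rw [sum_un, sum_un]
  refine Fintype.sum_equiv (Equiv.mulLeft (ZMod.unitOfCoprime w hw1)) _ _ fun u => ?_
  congr 1
  change _ ≡ _ [MOD N]
  rw [← ZMod.natCast_eq_natCast_iff]
  have := (ZMod.natCast_eq_natCast_iff _ _ _).2 hw3
  push_cast at this ⊢
  simp only [Equiv.coe_mulLeft, ZMod.natCast_zmod_val, Units.val_mul, ZMod.coe_unitOfCoprime]
  rw [← this]
  ring

end Av

theorem avg : S_Av := by
  intro N q ρ hN hq hρ
  have h1 : (UU N q ρ).card * N.totient = (q * N).totient :=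
    Av.card_Fib (Nat.mul_pos hq hN) (Dvd.intro_left q rfl) hρ
  refine ⟨h1, ?_, Av.two hN hq, Av.three hN hq hρ, Av.four q hN⟩
  have h2 := Nat.totient_super_multiplicative q N
  rw [← h1] at h2
  exact Nat.le_of_mul_le_mul_right h2 (Nat.totient_pos.2 hN)

end MR
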