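import Pool.Agent.P.MP_79de8b_nt.Basic

/-! The bilinear bound for Kloosterman sums (package Bil of MP_79de8b_nt). -/

open Complex Finset
open scoped Real ComplexConjugate

noncomputable section
namespace MR
namespace Bil

/-- Parseval on the residues modulo `c`. -/
lemma parseval {ι : Type*} {c : ℕ} (hc : 0 < c) (I : Finset ι) (a : ι → ℂ) (φ : ι → ℤ) :
    ((∑ k ∈ range c, ‖∑ i ∈ I, a i * ex (((φ i * k : ℤ) : ℝ) / c)‖ ^ 2 : ℝ) : ℂ) =
      c * ∑ i ∈ I, ∑ j ∈ I, if φ i ≡ φ j [ZMOD c] then a i * conj (a j) else 0 := by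
  have e1 : ∀ k : ℕ, ((‖∑ i ∈ I, a i * ex (((φ i * k : ℤ) : ℝ) / c)‖ ^ 2 : ℝ) : ℂ) =
      ∑ i ∈ I, ∑ j ∈ I, a i * conj (a j) * ex ((((φ i - φ j) * k : ℤ) : ℝ) / c) := by
    intro k
    rw [← Complex.normSq_eq_norm_sq, ← Complex.mul_conj, map_sum, sum_mul_sum]
    refine sum_congr rfl fun i _ => sum_congr rfl fun j _ => ?_
    have : (((φ i - φ j) * k : ℤ) : ℝ) / c =
        ((φ i * k : ℤ) : ℝ) / c - ((φ j * k : ℤ) : ℝ) / c := by push_cast; ring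
    rw [this, ex_sub, map_mul]; ring
  rw [Complex.ofReal_sum]
  simp_rw [e1]
  rw [sum_comm, mul_sum]
  refine sum_congr rfl fun i _ => ?_
  rw [sum_comm, mul_sum]
  refine sum_congr rfl fun j _ => ?_
  rw [← mul_sum, sum_ex_range hc]
  have : (c : ℤ) ∣ φ i - φ j ↔ φ i ≡ φ j [ZMOD c] := by
    rw [Int.modEq_comm, Int.modEq_iff_dvd]
  by_cases h : φ i ≡ φ j [ZMOD c]
  · rw [if_pos h, if_pos (this.2 h)]; ring
  · rw [if_neg h, if_neg (fun h' => h (this.1 h'))]; ring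

/-- The Schur test. -/
lemma schur {ι : Type*} (I : Finset ι) (x : ι → ℝ) (K : ι → ι → ℝ) (R : ℝ)
    (hK : ∀ i j, 0 ≤ K i j) (hs : ∀ i j, K i j = K j i) (hR : ∀ i ∈ I, ∑ j ∈ I, K i j ≤ R) :
    ∑ i ∈ I, ∑ j ∈ I, x i * x j * K i j ≤ R * ∑ i ∈ I, x i ^ 2 := by
  have h1 : ∑ i ∈ I, ∑ j ∈ I, x i ^ 2 * K i j ≤ R * ∑ i ∈ I, x i ^ 2 := by
    rw [mul_sum]
    refine sum_le_sum fun i hi => ?_
    rw [← mul_sum, mul_comm]
    exact mul_le_mul_of_nonneg_right (hR i hi) (sq_nonneg _)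
  have h2 : ∑ i ∈ I, ∑ j ∈ I, x j ^ 2 * K i j ≤ R * ∑ i ∈ I, x i ^ 2 := by
    rw [sum_comm]
    refine le_trans (le_of_eq ?_) h1
    exact sum_congr rfl fun i _ => sum_congr rfl fun j _ => by rw [hs]
  have h3 : ∑ i ∈ I, ∑ j ∈ I, x i * x j * K i j ≤
      ((∑ i ∈ I, ∑ j ∈ I, x i ^ 2 * K i j) + ∑ i ∈ I, ∑ j ∈ I, x j ^ 2 * K i j) / 2 := by
    rw [← sum_add_distrib, sum_div]
    refine sum_le_sum fun i _ => ?_
    rw [← sum_add_distrib, sum_div]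
    refine sum_le_sum fun j _ => ?_
    nlinarith [mul_nonneg (hK i j) (sq_nonneg (x i - x j))]
  linarith

/-- Counting a residue class. -/
lemma count (A q x : ℕ) (s : Finset ℕ) (hs : ∀ m ∈ s, m ≤ A ∧ m ≡ x [MOD q]) :
    (s.card : ℝ) ≤ 1 + A / q := by
  have h1 : s.card ≤ (range (A / q + 1)).card := by
    refine card_le_card_of_injOn (fun m => m / q) (fun m hm => ?_) (fun m hm n hn h => ?_)
    · simp only [coe_range, Set.mem_Iio]
      exact Nat.lt_succ_of_le (Nat.div_le_div_right (hs m hm).1)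
    · have h2 : m % q = n % q := ((hs m hm).2.trans (hs n hn).2.symm)
      have h3 : m / q = n / q := h
      rw [← Nat.div_add_mod m q, ← Nat.div_add_mod n q, h2, h3]
  rw [card_range] at h1
  have h2 : ((A / q : ℕ) : ℝ) ≤ A / q := Nat.cast_div_le
  have h3 : (s.card : ℝ) ≤ ((A / q + 1 : ℕ) : ℝ) := by exact_mod_cast h1
  push_cast at h3
  linarith

/-- Row sums of the gcd kernel. -/
lemma row {A r n m : ℕ} (hr : 0 < r) (hn : 0 < n) (hrn : r.Coprime n) (M : Finset ℕ)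
    (hM : ∀ m' ∈ M, 1 ≤ m' ∧ m' ≤ A ∧ m' ≡ m [MOD r]) (hm : m ∈ M) :
    ∑ m' ∈ M, Real.sqrt (((m.gcd m').gcd n : ℕ) : ℝ) ≤ tau n * (Real.sqrt A + A / r) := by
  have h1 : ∀ m' ∈ M, Real.sqrt (((m.gcd m').gcd n : ℕ) : ℝ) ≤
      ∑ d ∈ n.divisors, if d ∣ m ∧ d ∣ m' then Real.sqrt d else 0 := by
    intro m' _
    have hd : (m.gcd m').gcd n ∈ n.divisors :=
      Nat.mem_divisors.2 ⟨Nat.gcd_dvd_right _ _, hn.ne'⟩
    refine le_trans (le_of_eq ?_) (single_le_sum (f := fun d : ℕ =>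
      if d ∣ m ∧ d ∣ m' then Real.sqrt d else 0) (fun d _ => by positivity) hd)
    rw [if_pos ⟨(Nat.gcd_dvd_left _ _).trans (Nat.gcd_dvd_left _ _),
      (Nat.gcd_dvd_left _ _).trans (Nat.gcd_dvd_right _ _)⟩]
  refine (sum_le_sum h1).trans ?_
  rw [sum_comm]
  have h2 : ∀ d ∈ n.divisors, (∑ m' ∈ M, if d ∣ m ∧ d ∣ m' then Real.sqrt d else 0) ≤
      Real.sqrt A + A / r := by
    intro d hd
    have hdn := (Nat.mem_divisors.1 hd).1
    have hd0 : 0 < d := Nat.pos_of_dvd_of_pos hdn hn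
    by_cases hdm : d ∣ m
    · rw [← sum_filter, sum_const, nsmul_eq_mul]
      have hc := count A (r * d) m (M.filter fun m' => d ∣ m ∧ d ∣ m')
        (fun m' hm' => by
          obtain ⟨h3, h4⟩ := mem_filter.1 hm'
          refine ⟨(hM m' h3).2.1, ?_⟩
          rw [← Nat.modEq_and_modEq_iff_modEq_mul (hrn.coprime_dvd_right hdn)]
          exact ⟨(hM m' h3).2.2, (Nat.modEq_zero_iff_dvd.2 h4.2).trans
            (Nat.modEq_zero_iff_dvd.2 hdm).symm⟩)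
      have hdA : d ≤ A := (Nat.le_of_dvd (hM m hm).1 hdm).trans (hM m hm).2.1
      have h5 : Real.sqrt d ≤ Real.sqrt A := Real.sqrt_le_sqrt (by exact_mod_cast hdA)
      have hd1 : (1 : ℝ) ≤ d := by exact_mod_cast hd0
      have h6 : Real.sqrt d ≤ d := by
        rw [Real.sqrt_le_left (by linarith)]; nlinarith
      have hr' : (0 : ℝ) < r := by exact_mod_cast hr
      have h7 : (A : ℝ) / ((r * d : ℕ) : ℝ) * Real.sqrt d ≤ A / r := by
        push_cast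
        calc (A : ℝ) / (r * d) * Real.sqrt d ≤ A / (r * d) * d := by gcongr
          _ = A / r := by field_simp
      calc _ ≤ (1 + (A : ℝ) / ((r * d : ℕ) : ℝ)) * Real.sqrt d := by gcongr
        _ ≤ _ := by nlinarith
    · rw [sum_eq_zero fun m' _ => if_neg fun h => hdm h.1]; positivity
  refine (sum_le_sum h2).trans ?_
  rw [sum_const, nsmul_eq_mul]; rfl

/-- The lower bound for the Dirichlet kernel. -/
lemma fejer {c B H k : ℕ} {e : ℤ} (hc : 0 < c) (he : e = 1 ∨ e = -1) (hH : 6 * B * H ≤ c)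
    (hk : k ≤ B) :
    (H : ℝ) ^ 2 ≤ 4 * ‖∑ j ∈ Icc 1 H, ex (((e * j * k : ℤ) : ℝ) / c)‖ ^ 2 := by
  have hc' : (0 : ℝ) < c := by exact_mod_cast hc
  have h1 : ∀ j ∈ Icc 1 H, (1 / 2 : ℝ) ≤ (ex (((e * j * k : ℤ) : ℝ) / c)).re := by
    intro j hj
    have hj' := (mem_Icc.1 hj).2
    have h2 : 6 * (j * k) ≤ c := le_trans (by nlinarith [Nat.mul_le_mul hj' hk]) hH
    have h3 : (6 : ℝ) * (j * k) ≤ c := by exact_mod_cast h2
    have h4 : Real.cos (2 * π * (((e * j * k : ℤ) : ℝ) / c)) =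
        Real.cos (2 * π * ((j * k : ℝ) / c)) := by
      rcases he with rfl | rfl
      · congr 1; push_cast; ring
      · rw [← Real.cos_neg]; congr 1; push_cast; ring
    rw [ex_re, h4, ← Real.cos_pi_div_three]
    have h5 : (j * k : ℝ) / c ≤ 1 / 6 := by rw [div_le_iff₀ hc']; linarith
    have h6 : (0 : ℝ) ≤ (j * k : ℝ) / c := by positivity
    refine Real.cos_le_cos_of_nonneg_of_le_pi (by positivity) (by linarith [Real.pi_pos]) ?_
    nlinarith [Real.pi_pos]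
  have h2 : (H : ℝ) / 2 ≤ (∑ j ∈ Icc 1 H, ex (((e * j * k : ℤ) : ℝ) / c)).re := by
    rw [Complex.re_sum]
    refine le_trans (le_of_eq ?_) (sum_le_sum h1)
    rw [sum_const, nsmul_eq_mul, Nat.card_Icc]; simp; ring
  have h3 := h2.trans (Complex.re_le_norm _)
  have h4 : (0 : ℝ) ≤ H := Nat.cast_nonneg _
  nlinarith

/-- The sum over the differences. -/
lemma offsum (hA2 : S_A2) : ∃ C : ℕ, ∀ c H : ℕ, 0 < c →
    ∑ j ∈ Icc 1 H, ∑ j' ∈ (Icc 1 H).erase j,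
      tau (part ((j : ℤ) - j').natAbs c) ^ 2 * Real.sqrt (part ((j : ℤ) - j').natAbs c) ≤
      (H : ℝ) ^ 2 * (C * tau c ^ C) := by
  obtain ⟨C, hC⟩ := hA2.2.1 (1 / 2) 2 (by norm_num)
  refine ⟨C, fun c H hc => ?_⟩
  set s := (Icc 1 H).image (fun h => part h c) with hs
  have hs0 : ∀ e ∈ s, 0 < e ∧ ∀ p, p.Prime → p ∣ e → p ∣ c := by
    intro e he
    obtain ⟨h, hh, rfl⟩ := mem_image.1 he
    have hh0 : 0 < h := (mem_Icc.1 hh).1
    exact ⟨Nat.pos_of_dvd_of_pos (hA2.1 h c hh0).1 hh0, (hA2.1 h c hh0).2.2.1⟩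
  have h1 := hC c s hc hs0
  have h2 : ∀ j ∈ Icc 1 H, ∑ j' ∈ (Icc 1 H).erase j,
      tau (part ((j : ℤ) - j').natAbs c) ^ 2 * Real.sqrt (part ((j : ℤ) - j').natAbs c) ≤
      H * (C * tau c ^ C) := by
    intro j hj
    have h3 : ∀ j' ∈ (Icc 1 H).erase j,
        tau (part ((j : ℤ) - j').natAbs c) ^ 2 * Real.sqrt (part ((j : ℤ) - j').natAbs c) ≤
        ∑ e ∈ s, if j' ≡ j [MOD e] then tau e ^ 2 * Real.sqrt e else 0 := by
      intro j' hj'
      obtain ⟨hne, hj'⟩ := mem_erase.1 hj'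
      rw [mem_Icc] at hj hj'
      have h0 : 0 < ((j : ℤ) - j').natAbs := by omega
      have hm : part ((j : ℤ) - j').natAbs c ∈ s :=
        mem_image.2 ⟨_, mem_Icc.2 ⟨h0, by omega⟩, rfl⟩
      refine le_trans (le_of_eq ?_) (single_le_sum (f := fun e : ℕ =>
        if j' ≡ j [MOD e] then tau e ^ 2 * Real.sqrt e else 0) (fun d _ => by positivity) hm)
      rw [if_pos]
      rw [Nat.modEq_iff_dvd]
      exact Int.natCast_dvd.2 (hA2.1 _ c h0).1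
    refine (sum_le_sum h3).trans ?_
    rw [sum_comm]
    refine le_trans (sum_le_sum fun e he => ?_)
      ((mul_sum s (fun e : ℕ => tau e ^ 2 * (e : ℝ) ^ (-(1 / 2 : ℝ))) (H : ℝ)).symm.le.trans
        (mul_le_mul_of_nonneg_left h1 (Nat.cast_nonneg _)))
    have he0 := (hs0 e he).1
    have he' : (0 : ℝ) < e := by exact_mod_cast he0
    rw [← sum_filter, sum_const, nsmul_eq_mul]
    have h4 := count H e j ((Icc 1 H).filter fun j' => j' ≡ j [MOD e])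
      (fun m hm => ⟨(mem_Icc.1 (mem_filter.1 hm).1).2, (mem_filter.1 hm).2⟩)
    have h5 : (((Icc 1 H).erase j).filter fun j' => j' ≡ j [MOD e]).card + 1 =
        ((Icc 1 H).filter fun j' => j' ≡ j [MOD e]).card := by
      rw [filter_erase]; exact card_erase_add_one (mem_filter.2 ⟨hj, Nat.ModEq.refl _⟩)
    have h6 : ((((Icc 1 H).erase j).filter fun j' => j' ≡ j [MOD e]).card : ℝ) ≤ H / e := by
      rw [← h5] at h4; push_cast at h4; linarith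
    have h7 : (e : ℝ) ^ (-(1 / 2 : ℝ)) = Real.sqrt e / e := by
      rw [Real.rpow_neg he'.le, ← Real.sqrt_eq_rpow, Real.sqrt_div_self']; simp
    rw [h7]
    calc _ ≤ (H : ℝ) / e * (tau e ^ 2 * Real.sqrt e) := by gcongr
      _ = _ := by ring
  refine (sum_le_sum h2).trans ?_
  rw [sum_const, nsmul_eq_mul, Nat.card_Icc]; simp only [add_tsub_cancel_right]
  exact le_of_eq (by ring)

/-- The correlation of a function on the units along a shift of the inverses. -/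
def Dd (c : ℕ) (g : ℕ → ℂ) (h : ℤ) : ℂ :=
  ∑ t ∈ un c, ∑ t' ∈ un c, if ((iv t' c : ℤ) ≡ iv t c + h [ZMOD c]) then g t * conj (g t') else 0

/-- A trigonometric polynomial. -/
def Gg (c : ℕ) (M : Finset ℕ) (α : ℕ → ℂ) (μ : ℕ → ℤ) (t : ℕ) : ℂ :=
  ∑ m ∈ M, α m * ex (((μ m * t : ℤ) : ℝ) / c)

lemma conj_cls (ρ D t : ℕ) : conj (cls ρ D t) = cls ρ D t := by
  unfold cls; split_ifs <;> simp

lemma Dd_eq (c N ρ : ℕ) (M : Finset ℕ) (α : ℕ → ℂ) (μ : ℕ → ℤ) (h : ℤ) :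
    Dd c (fun t => cls ρ N t * Gg c M α μ t) h =
      ∑ m ∈ M, ∑ m' ∈ M, α m * conj (α m') * CC c N ρ (μ m) (μ m') h := by
  unfold Dd CC
  simp_rw [mul_sum]
  rw [sum_congr rfl fun m _ => sum_comm, sum_comm (s := M)]
  refine sum_congr rfl fun t _ => ?_
  rw [sum_congr rfl fun m _ => sum_comm, sum_comm (s := M)]
  refine sum_congr rfl fun t' _ => ?_
  split_ifs with hh
  · unfold Gg
    rw [map_mul, conj_cls, map_sum, mul_mul_mul_comm, sum_mul_sum, mul_sum]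
    refine sum_congr rfl fun m _ => ?_
    rw [mul_sum]
    refine sum_congr rfl fun m' _ => ?_
    have : ((μ m * t - μ m' * t' : ℤ) : ℝ) / c =
        ((μ m * t : ℤ) : ℝ) / c - ((μ m' * t' : ℤ) : ℝ) / c := by push_cast; ring
    rw [this, ex_sub, map_mul]; ring
  · simp

lemma Dd_zero {c : ℕ} (g G : ℕ → ℂ) (hg : ∀ t, ‖g t‖ ≤ ‖G t‖) :
    ‖Dd c g 0‖ ≤ ∑ t ∈ range c, ‖G t‖ ^ 2 := by
  unfold Dd
  refine (norm_sum_le _ _).trans ?_
  refine le_trans (sum_le_sum fun t ht => ?_)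
    (sum_le_sum_of_subset_of_nonneg (filter_subset _ _ : un c ⊆ range c)
      fun _ _ _ => sq_nonneg _)
  rw [sum_eq_single_of_mem t ht]
  · rw [if_pos (by simp), norm_mul, Complex.norm_conj, sq]
    exact mul_le_mul (hg t) (hg t) (norm_nonneg _) (norm_nonneg _)
  · intro t' ht' hne
    rw [if_neg]
    intro h
    rw [add_zero, Int.natCast_modEq_iff] at h
    have := iv_congr h
    rw [iv_iv ht, iv_iv ht'] at this
    exact hne this

lemma cong_iff {r c : ℕ} {rb e a a' j j' : ℤ} (hr : (r : ℤ) * rb ≡ 1 [ZMOD c])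
    (he : e = 1 ∨ e = -1) :
    e * (j + rb * a) ≡ e * (j' + rb * a') [ZMOD c] ↔ a' ≡ a + r * (j - j') [ZMOD c] := by
  rw [← ZMod.intCast_eq_intCast_iff] at hr ⊢
  rw [← ZMod.intCast_eq_intCast_iff]
  push_cast at hr ⊢
  have he2 : (e : ZMod c) * e = 1 := by rcases he with rfl | rfl <;> simp
  constructor
  · intro h
    linear_combination (-(r : ZMod c) * e) * h + ((a : ZMod c) - a') * hr +
      (r : ZMod c) * (j + rb * a - j' - rb * a') * he2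
  · intro h
    linear_combination (-(e : ZMod c) * rb) * h - (e : ZMod c) * (j - j') * hr

/-- Expansion of the smoothed square. -/
lemma expand {r c H : ℕ} {rb e : ℤ} (hc : 0 < c) (hr : (r : ℤ) * rb ≡ 1 [ZMOD c])
    (he : e = 1 ∨ e = -1) (g : ℕ → ℂ) :
    ∑ k ∈ range c, ‖∑ j ∈ Icc 1 H, ex (((e * j * k : ℤ) : ℝ) / c)‖ ^ 2 *
      ‖∑ t ∈ un c, g t * ex (((e * k * rb * iv t c : ℤ) : ℝ) / c)‖ ^ 2 ≤
      c * ∑ j ∈ Icc 1 H, ∑ j' ∈ Icc 1 H, ‖Dd c g (r * ((j : ℤ) - j'))‖ := by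
  have h1 := parseval hc (Icc 1 H ×ˢ un c) (fun p => g p.2) (fun p => e * (p.1 + rb * iv p.2 c))
  have h2 : ∀ k : ℕ, ‖∑ j ∈ Icc 1 H, ex (((e * j * k : ℤ) : ℝ) / c)‖ ^ 2 *
      ‖∑ t ∈ un c, g t * ex (((e * k * rb * iv t c : ℤ) : ℝ) / c)‖ ^ 2 =
      ‖∑ p ∈ Icc 1 H ×ˢ un c, g p.2 * ex (((e * (p.1 + rb * iv p.2 c) * k : ℤ) : ℝ) / c)‖ ^ 2 := by
    intro k
    rw [← mul_pow, ← norm_mul, sum_mul_sum, sum_product]
    congr 2
    refine sum_congr rfl fun j _ => sum_congr rfl fun t _ => ?_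
    have : ((e * (j + rb * iv t c) * k : ℤ) : ℝ) / c =
        ((e * j * k : ℤ) : ℝ) / c + ((e * k * rb * iv t c : ℤ) : ℝ) / c := by push_cast; ring
    simp only
    rw [this, ex_add]; ring
  simp_rw [h2]
  have h3 : (∑ i ∈ Icc 1 H ×ˢ un c, ∑ j ∈ Icc 1 H ×ˢ un c,
      if e * (i.1 + rb * iv i.2 c) ≡ e * (j.1 + rb * iv j.2 c) [ZMOD c] then
        g i.2 * conj (g j.2) else 0) =
      ∑ j ∈ Icc 1 H, ∑ j' ∈ Icc 1 H, Dd c g (r * ((j : ℤ) - j')) := by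
    rw [sum_product]
    refine sum_congr rfl fun j _ => ?_
    simp_rw [sum_product]
    rw [sum_comm]
    refine sum_congr rfl fun j' _ => ?_
    unfold Dd
    refine sum_congr rfl fun t _ => sum_congr rfl fun t' _ => ?_
    simp only [cong_iff hr he]
  rw [h3] at h1
  refine le_trans (le_abs_self _) ?_
  rw [← Real.norm_eq_abs, ← Complex.norm_real, h1, norm_mul, Complex.norm_natCast]
  gcongr
  exact (norm_sum_le _ _).trans (sum_le_sum fun j _ => norm_sum_le _ _)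

lemma cancel {r c : ℕ} {rb e a a' : ℤ} (hr : (r : ℤ) * rb ≡ 1 [ZMOD c]) (he : e = 1 ∨ e = -1)
    (h : e * a * rb ≡ e * a' * rb [ZMOD c]) : a ≡ a' [ZMOD c] := by
  rw [← ZMod.intCast_eq_intCast_iff] at hr h ⊢
  push_cast at hr h
  have he2 : (e : ZMod c) * e = 1 := by rcases he with rfl | rfl <;> simp
  linear_combination ((r : ZMod c) * e) * h - ((a : ZMod c) - a') * hr -
    (r : ZMod c) * rb * (a - a') * he2

/-- The diagonal. -/
lemma diag {r c A m₀ : ℕ} {rb e : ℤ} (hc : 0 < c) (hrc : r.Coprime c)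
    (hr : (r : ℤ) * rb ≡ 1 [ZMOD c]) (he : e = 1 ∨ e = -1) (M : Finset ℕ)
    (hM : ∀ m ∈ M, 1 ≤ m ∧ m ≤ A ∧ m ≡ m₀ [MOD r]) (α : ℕ → ℂ) :
    ∑ t ∈ range c, ‖Gg c M α (fun m => e * m * rb) t‖ ^ 2 ≤
      c * ((1 + A / ((r : ℝ) * c)) * ∑ m ∈ M, ‖α m‖ ^ 2) := by
  have h1 := parseval hc M α (fun m => e * m * rb)
  refine le_trans (le_abs_self _) ?_
  unfold Gg
  rw [← Real.norm_eq_abs, ← Complex.norm_real, h1, norm_mul, Complex.norm_natCast]
  gcongr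
  refine le_trans ?_ (schur M (fun m => ‖α m‖) (fun m m' => if m' ≡ m [MOD c] then 1 else 0) _
    (fun _ _ => by positivity) (fun m m' => by simp only [Nat.ModEq.comm]) fun m hm => ?_)
  · refine (norm_sum_le _ _).trans (sum_le_sum fun m _ =>
      (norm_sum_le _ _).trans (sum_le_sum fun m' _ => ?_))
    split_ifs with h2 h3
    · rw [norm_mul, Complex.norm_conj, mul_one]
    · exact absurd (Int.natCast_modEq_iff.1 (cancel hr he h2)).symm h3
    · simp only [norm_zero]; positivity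
    · simp
  · rw [← sum_filter, sum_const, nsmul_eq_mul, mul_one]
    have := count A (r * c) m (M.filter fun m' => m' ≡ m [MOD c]) fun m' hm' => by
      obtain ⟨h3, h4⟩ := mem_filter.1 hm'
      refine ⟨(hM m' h3).2.1, ?_⟩
      rw [← Nat.modEq_and_modEq_iff_modEq_mul hrc]
      exact ⟨(hM m' h3).2.2.trans (hM m hm).2.2.symm, h4⟩
    push_cast at this
    exact this

lemma coprime_mul_part (hA2 : S_A2) {x c h : ℕ} (hh : 0 < h) (hx : x.Coprime c) :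
    x.Coprime (c * part h c) := by
  refine Nat.Coprime.mul_right hx (Nat.coprime_of_dvd fun p hp h1 h2 => ?_)
  have h3 := (hA2.1 h c hh).2.2.1 p hp h2
  exact hp.one_lt.ne' (Nat.dvd_one.1 (hx.gcd_eq_one ▸ Nat.dvd_gcd h1 h3))

/-- The off diagonal terms. -/
lemma offd (hA2 : S_A2) (hCC : S_CC) {r c N ρ A m₀ : ℕ} {e h : ℤ} (hr0 : 0 < r) (hc : 0 < c)
    (hrc : r.Coprime c) (hN : N ∣ c) (he : e = 1 ∨ e = -1) (hh : h ≠ 0) (M : Finset ℕ)
    (hM : ∀ m ∈ M, 1 ≤ m ∧ m ≤ A ∧ m ≡ m₀ [MOD r]) (α : ℕ → ℂ) :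
    ‖Dd c (fun t => cls ρ N t * Gg c M α (fun m => e * m * iv r c) t) (r * h)‖ ≤
      4 * tau c ^ 3 * Real.sqrt c * ((Real.sqrt A + A / r) * ∑ m ∈ M, ‖α m‖ ^ 2) *
        (tau (part h.natAbs c) ^ 2 * Real.sqrt (part h.natAbs c)) := by
  have hh0 : 0 < h.natAbs := Int.natAbs_pos.2 hh
  have hp : part ((r : ℤ) * h).natAbs c = part h.natAbs c := by
    rw [Int.natAbs_mul, Int.natAbs_natCast]
    exact (hA2.1 _ c hh0).2.2.2.2 r hr0 hrc
  set E := part h.natAbs c with hE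
  have hE0 : 0 < E := Nat.pos_of_dvd_of_pos (hA2.1 _ c hh0).1 hh0
  have hn : 0 < c * E := Nat.mul_pos hc hE0
  have hg : ∀ m m' : ℕ, ((e * m * iv r c).gcd (e * m' * iv r c)).gcd (c * E) =
      (m.gcd m').gcd (c * E) := by
    intro m m'
    have h1 : (e * m * iv r c).gcd (e * m' * iv r c) = m.gcd m' * iv r c := by
      rw [Int.gcd_mul_right, Int.gcd_mul_left]
      rcases he with rfl | rfl <;> simp
    rw [h1]
    exact Nat.Coprime.gcd_mul_right_cancel _ (coprime_mul_part hA2 hh0 (iv_coprime hc hrc))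
  have hb : ∀ m m' : ℕ, ‖CC c N ρ (e * m * iv r c) (e * m' * iv r c) (r * h)‖ ≤
      4 * tau c * tau (c * E) * Real.sqrt (c * E : ℕ) *
        Real.sqrt (((m.gcd m').gcd (c * E) : ℕ) : ℝ) := by
    intro m m'
    have := hCC c N ρ (e * m * iv r c) (e * m' * iv r c) (r * h) hc hN
      (mul_ne_zero (by exact_mod_cast hr0.ne') hh)
    rw [hp, hg, Real.sqrt_mul (Nat.cast_nonneg _)] at this
    linarith
  rw [Dd_eq]
  have hs := schur M (fun m => ‖α m‖)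
    (fun m m' => Real.sqrt (((m.gcd m').gcd (c * E) : ℕ) : ℝ)) _ (fun _ _ => Real.sqrt_nonneg _)
    (fun m m' => by rw [Nat.gcd_comm m m'])
    (fun m hm => row (A := A) hr0 hn (coprime_mul_part hA2 hh0 hrc) M (fun m' hm' =>
      ⟨(hM m' hm').1, (hM m' hm').2.1, (hM m' hm').2.2.trans (hM m hm).2.2.symm⟩) hm)
  have ht := tau_mul_le c E
  have ht0 := tau_nonneg (c * E)
  have ht1 := tau_nonneg c
  have ht2 := tau_nonneg E
  calc _ ≤ ∑ m ∈ M, ∑ m' ∈ M, 4 * tau c * tau (c * E) * Real.sqrt (c * E : ℕ) *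
        (‖α m‖ * ‖α m'‖ * Real.sqrt (((m.gcd m').gcd (c * E) : ℕ) : ℝ)) := by
        refine (norm_sum_le _ _).trans (sum_le_sum fun m _ =>
          (norm_sum_le _ _).trans (sum_le_sum fun m' _ => ?_))
        rw [norm_mul, norm_mul, Complex.norm_conj]
        refine (mul_le_mul_of_nonneg_left (hb m m') (by positivity)).trans (le_of_eq (by ring))
    _ = 4 * tau c * tau (c * E) * Real.sqrt (c * E : ℕ) * ∑ m ∈ M, ∑ m' ∈ M,
        ‖α m‖ * ‖α m'‖ * Real.sqrt (((m.gcd m').gcd (c * E) : ℕ) : ℝ) := by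
        simp_rw [mul_sum]
    _ ≤ 4 * tau c * tau (c * E) * Real.sqrt (c * E : ℕ) *
        (tau (c * E) * (Real.sqrt A + A / r) * ∑ m ∈ M, ‖α m‖ ^ 2) := by gcongr
    _ ≤ 4 * tau c * (tau c * tau E) * Real.sqrt (c * E : ℕ) *
        (tau c * tau E * (Real.sqrt A + A / r) * ∑ m ∈ M, ‖α m‖ ^ 2) := by gcongr
    _ = _ := by push_cast; rw [Real.sqrt_mul (Nat.cast_nonneg _)]; ring

/-- One residue class. -/
lemma one (hA2 : S_A2) (hCC : S_CC) : ∃ C : ℕ, ∀ (r c N ρ A B m₀ : ℕ) (e₁ e₂ : ℤ) (α : ℕ → ℂ)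
    (M : Finset ℕ), 0 < r → 0 < c → r.Coprime c → N ∣ c → (e₁ = 1 ∨ e₁ = -1) →
    (e₂ = 1 ∨ e₂ = -1) → 1 ≤ B → 6 * B ≤ c → (∀ m ∈ M, 1 ≤ m ∧ m ≤ A ∧ m ≡ m₀ [MOD r]) →
    ∑ k ∈ Icc 1 B, ‖∑ m ∈ M, α m * kl (cls ρ N) (e₁ * m * iv r c) (e₂ * k * iv r c) c‖ ^ 2 ≤
      (48 * c * B * (1 + A / ((r : ℝ) * c)) +
        16 * C * tau c ^ (C + 3) * c * Real.sqrt c * (Real.sqrt A + A / r)) *
        ∑ m ∈ M, ‖α m‖ ^ 2 := by
  obtain ⟨C, hC⟩ := offsum hA2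
  refine ⟨C, fun r c N ρ A B m₀ e₁ e₂ α M hr0 hc hrc hN he₁ he₂ hB hBc hM => ?_⟩
  set H := c / (6 * B) with hH
  have hH1 : 1 ≤ H := (Nat.le_div_iff_mul_le (by omega)).2 (by omega)
  have hH2 : 6 * B * H ≤ c := Nat.mul_div_le c (6 * B)
  have hH3 : c ≤ 12 * B * H := by
    have h1 : c < 6 * B * (H + 1) := Nat.lt_mul_div_succ c (by omega)
    nlinarith
  have hr := mul_iv_int hc hrc
  set g : ℕ → ℂ := fun t => cls ρ N t * Gg c M α (fun m => e₁ * m * iv r c) t with hg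
  set S := ∑ m ∈ M, ‖α m‖ ^ 2 with hS
  have hS0 : 0 ≤ S := by positivity
  have hV : ∀ k : ℕ, ∑ m ∈ M, α m * kl (cls ρ N) (e₁ * m * iv r c) (e₂ * k * iv r c) c =
      ∑ t ∈ un c, g t * ex (((e₂ * k * iv r c * iv t c : ℤ) : ℝ) / c) := by
    intro k
    simp only [hg, kl, Gg, mul_sum, sum_mul]
    rw [sum_comm]
    refine sum_congr rfl fun t _ => sum_congr rfl fun m _ => ?_
    have : ((e₁ * m * iv r c * t + e₂ * k * iv r c * iv t c : ℤ) : ℝ) / c =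
        ((e₁ * m * iv r c * t : ℤ) : ℝ) / c + ((e₂ * k * iv r c * iv t c : ℤ) : ℝ) / c := by
      push_cast; ring
    rw [this, ex_add]; ring
  simp_rw [hV]
  have h1 := expand (H := H) hc hr he₂ g
  have h2 : (H : ℝ) ^ 2 * ∑ k ∈ Icc 1 B,
      ‖∑ t ∈ un c, g t * ex (((e₂ * k * iv r c * iv t c : ℤ) : ℝ) / c)‖ ^ 2 ≤
      4 * ∑ k ∈ range c, ‖∑ j ∈ Icc 1 H, ex (((e₂ * j * k : ℤ) : ℝ) / c)‖ ^ 2 *
      ‖∑ t ∈ un c, g t * ex (((e₂ * k * iv r c * iv t c : ℤ) : ℝ) / c)‖ ^ 2 := by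
    rw [mul_sum, mul_sum]
    refine le_trans (sum_le_sum fun k hk => ?_) (sum_le_sum_of_subset_of_nonneg
      (s := Icc 1 B) (fun k hk => mem_range.2 (by have := mem_Icc.1 hk; omega))
      fun _ _ _ => by positivity)
    rw [← mul_assoc]
    exact mul_le_mul_of_nonneg_right (fejer hc he₂ hH2 (mem_Icc.1 hk).2) (sq_nonneg _)
  have hd : ‖Dd c g 0‖ ≤ c * ((1 + A / ((r : ℝ) * c)) * S) :=
    (Dd_zero g (Gg c M α fun m => e₁ * m * iv r c) fun t => by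
      rw [hg, norm_mul]
      exact mul_le_of_le_one_left (norm_nonneg _) (norm_cls_le _ _ _)).trans
      (diag hc hrc hr he₁ M hM α)
  set Y := 4 * tau c ^ 3 * Real.sqrt c * ((Real.sqrt A + A / r) * S) with hY
  have ht := tau_nonneg c
  have hY0 : 0 ≤ Y := by positivity
  have h3 : ∑ j ∈ Icc 1 H, ∑ j' ∈ Icc 1 H, ‖Dd c g (r * ((j : ℤ) - j'))‖ ≤
      H * (c * ((1 + A / ((r : ℝ) * c)) * S)) + Y * ((H : ℝ) ^ 2 * (C * tau c ^ C)) := by
    have h4 : ∀ j ∈ Icc 1 H, ∑ j' ∈ Icc 1 H, ‖Dd c g (r * ((j : ℤ) - j'))‖ ≤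
        c * ((1 + A / ((r : ℝ) * c)) * S) + Y * ∑ j' ∈ (Icc 1 H).erase j,
          tau (part ((j : ℤ) - j').natAbs c) ^ 2 * Real.sqrt (part ((j : ℤ) - j').natAbs c) := by
      intro j hj
      rw [← add_sum_erase _ _ hj, sub_self, mul_zero, mul_sum _ _ Y]
      refine add_le_add hd (sum_le_sum fun j' hj' => ?_)
      exact offd hA2 hCC hr0 hc hrc hN he₁
        (sub_ne_zero.2 fun h => (mem_erase.1 hj').1 (by exact_mod_cast h.symm)) M hM α
    refine (sum_le_sum h4).trans ?_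
    rw [sum_add_distrib, sum_const, nsmul_eq_mul, Nat.card_Icc, ← mul_sum]
    simp only [add_tsub_cancel_right]
    exact add_le_add le_rfl (mul_le_mul_of_nonneg_left (hC c H hc) hY0)
  have hH1' : (0 : ℝ) < H := by exact_mod_cast hH1
  have hH3' : (c : ℝ) ≤ 12 * B * H := by exact_mod_cast hH3
  have hc' : (0 : ℝ) < c := by exact_mod_cast hc
  refine le_of_mul_le_mul_left (a := (H : ℝ) ^ 2) ?_ (by positivity)
  refine h2.trans ?_
  have h5 := h1.trans (mul_le_mul_of_nonneg_left h3 hc'.le)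
  have h6 : 0 ≤ (1 + A / ((r : ℝ) * c)) * S := by positivity
  have h7 : (c : ℝ) * (H * (c * ((1 + A / ((r : ℝ) * c)) * S))) ≤
      (12 * B * H) * (H * (c * ((1 + A / ((r : ℝ) * c)) * S))) := by gcongr
  have h8 : (H : ℝ) ^ 2 * ((48 * c * B * (1 + A / ((r : ℝ) * c)) +
        16 * C * tau c ^ (C + 3) * c * Real.sqrt c * (Real.sqrt A + A / r)) * S) =
      4 * ((12 * B * H) * (H * (c * ((1 + A / ((r : ℝ) * c)) * S))) +
        c * (Y * ((H : ℝ) ^ 2 * (C * tau c ^ C)))) := by rw [hY]; ring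
  rw [h8]
  rw [mul_add] at h5
  linarith

/-- Separation of the modulus `r` by the Cauchy-Schwarz inequality. -/
lemma split (hKM : S_KM) {r c N ρ A B : ℕ} {e₁ e₂ : ℤ} (α β : ℕ → ℂ) (hr0 : 0 < r) (hc : 0 < c)
    (hrc : r.Coprime c) (hN : N ∣ c) (he₁ : e₁ = 1 ∨ e₁ = -1) :
    ‖∑ m ∈ Icc 1 A, ∑ k ∈ Icc 1 B, α m * β k * kl (cls ρ N) (e₁ * m) (e₂ * k) (r * c)‖ ^ 2 ≤
      ((r : ℝ) ^ 2 * ∑ k ∈ Icc 1 B, ‖β k‖ ^ 2) * ∑ m₀ ∈ range r, ∑ k ∈ Icc 1 B,
        ‖∑ m ∈ (Icc 1 A).filter (fun m => m % r = m₀),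
          α m * kl (cls ρ N) (e₁ * m * iv r c) (e₂ * k * iv r c) c‖ ^ 2 := by
  set K : ℕ → ℕ → ℂ := fun m₀ k => kl (fun _ => 1) (m₀ * (e₁ * iv c r)) (e₂ * k * iv c r) r with hK
  set V : ℕ → ℕ → ℂ := fun m₀ k => ∑ m ∈ (Icc 1 A).filter (fun m => m % r = m₀),
    α m * kl (cls ρ N) (e₁ * m * iv r c) (e₂ * k * iv r c) c with hV
  have h1 : ∑ m ∈ Icc 1 A, ∑ k ∈ Icc 1 B, α m * β k * kl (cls ρ N) (e₁ * m) (e₂ * k) (r * c) =
      ∑ p ∈ range r ×ˢ Icc 1 B, (β p.2 * K p.1 p.2) * V p.1 p.2 := by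
    rw [sum_product, ← sum_fiberwise_of_maps_to (s := Icc 1 A) (t := range r) (g := fun m => m % r)
      (fun m _ => mem_range.2 (Nat.mod_lt _ hr0))]
    refine sum_congr rfl fun m₀ _ => ?_
    rw [sum_comm]
    refine sum_congr rfl fun k _ => ?_
    simp only [hV, mul_sum]
    refine sum_congr rfl fun m hm => ?_
    rw [hKM.1 r c N ρ _ _ hr0 hc hrc hN]
    have h2 : kl (fun _ => 1) (e₁ * m * iv c r) (e₂ * k * iv c r) r = K m₀ k := by
      refine hKM.2.2.2.2.1 r _ _ _ _ _ ?_ (Int.ModEq.refl _)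
      have h3 : (m : ℤ) ≡ m₀ [ZMOD r] := by
        rw [Int.natCast_modEq_iff, ← (mem_filter.1 hm).2]; exact (Nat.mod_modEq m r).symm
      have h4 := h3.mul_right (e₁ * iv c r)
      rwa [show (m : ℤ) * (e₁ * iv c r) = e₁ * m * iv c r by ring] at h4
    rw [h2]; ring
  rw [h1]
  have h2 : ‖∑ p ∈ range r ×ˢ Icc 1 B, (β p.2 * K p.1 p.2) * V p.1 p.2‖ ^ 2 ≤
      (∑ p ∈ range r ×ˢ Icc 1 B, ‖β p.2 * K p.1 p.2‖ * ‖V p.1 p.2‖) ^ 2 := by
    gcongr
    exact (norm_sum_le _ _).trans (le_of_eq (sum_congr rfl fun p _ => norm_mul _ _))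
  refine h2.trans ((sum_mul_sq_le_sq_mul_sq _ _ _).trans ?_)
  rw [sum_product (f := fun p : ℕ × ℕ => ‖V p.1 p.2‖ ^ 2)]
  refine mul_le_mul_of_nonneg_right ?_ (by positivity)
  rw [sum_product_right, mul_sum]
  refine sum_le_sum fun k _ => ?_
  have hu : IsCoprime (e₁ * iv c r) (r : ℤ) := by
    have h3 : IsCoprime ((iv c r : ℕ) : ℤ) (r : ℤ) :=
      Nat.isCoprime_iff_coprime.2 (iv_coprime hr0 hrc.symm)
    rcases he₁ with rfl | rfl
    · simpa using h3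
    · simpa using h3.neg_left
  have h4 := hKM.2.2.2.2.2 r (e₂ * k * iv c r) _ hr0 hu
  simp only [norm_mul, mul_pow]
  rw [← mul_sum, mul_comm]
  exact mul_le_mul_of_nonneg_right h4 (sq_nonneg _)

end Bil

open Bil in
theorem bil (_hA1 : S_A1) (hA2 : S_A2) (hKM : S_KM) (hCC : S_CC) : S_Bil := by
  obtain ⟨C, hC⟩ := one hA2 hCC
  refine ⟨16 * C + 48, fun r c N ρ A B e₁ e₂ α β hr0 hc hrc hN he₁ he₂ hB hBc => ?_⟩
  refine (split hKM α β hr0 hc hrc hN he₁).trans ?_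
  set K : ℝ := 48 * c * B * (1 + A / ((r : ℝ) * c)) +
    16 * C * tau c ^ (C + 3) * c * Real.sqrt c * (Real.sqrt A + A / r) with hK
  have h1 : ∑ m₀ ∈ range r, ∑ k ∈ Icc 1 B, ‖∑ m ∈ (Icc 1 A).filter (fun m => m % r = m₀),
      α m * kl (cls ρ N) (e₁ * m * iv r c) (e₂ * k * iv r c) c‖ ^ 2 ≤
      K * ∑ m ∈ Icc 1 A, ‖α m‖ ^ 2 := by
    rw [← sum_fiberwise_of_maps_to (s := Icc 1 A) (t := range r) (g := fun m => m % r)
      (fun m _ => mem_range.2 (Nat.mod_lt _ hr0)), mul_sum]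
    refine sum_le_sum fun m₀ _ => hC r c N ρ A B m₀ e₁ e₂ α _ hr0 hc hrc hN he₁ he₂ hB hBc
      fun m hm => ?_
    obtain ⟨h2, h3⟩ := mem_filter.1 hm
    exact ⟨(mem_Icc.1 h2).1, (mem_Icc.1 h2).2, h3 ▸ (Nat.mod_modEq m r).symm⟩
  have hc' : (0 : ℝ) < c := by exact_mod_cast hc
  have hc1 : (1 : ℝ) ≤ c := by exact_mod_cast hc
  have hr' : (0 : ℝ) < r := by exact_mod_cast hr0
  have ht := one_le_tau hc
  have hs : Real.sqrt c * Real.sqrt c = c := Real.mul_self_sqrt hc'.le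
  have hs0 : 0 < Real.sqrt c := Real.sqrt_pos.2 hc'
  have hs1 : Real.sqrt c ≤ c := by rw [Real.sqrt_le_left hc'.le]; nlinarith
  have hBc' : (B : ℝ) ≤ c := by exact_mod_cast (by omega : B ≤ c)
  have hT : 1 ≤ tau c ^ (16 * C + 48) := one_le_pow₀ ht
  have hT2 : tau c ^ (C + 3) ≤ tau c ^ (16 * C + 48) := pow_le_pow_right₀ ht (by omega)
  set T := tau c ^ (16 * C + 48) with hTd
  have e1 : (c : ℝ) * B = c ^ 2 * (B / c) := by field_simp
  have e2 : (c : ℝ) * B * (A / ((r : ℝ) * c)) ≤ c ^ 2 * (A / (r * Real.sqrt c)) := by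
    rw [sq]; gcongr
  have e3 : (c : ℝ) * Real.sqrt c * Real.sqrt A = c ^ 2 * Real.sqrt (A / c) := by
    rw [Real.sqrt_div (Nat.cast_nonneg _)]
    field_simp
    rw [Real.sq_sqrt hc'.le]
  have e4 : (c : ℝ) * Real.sqrt c * (A / r) = c ^ 2 * (A / (r * Real.sqrt c)) := by
    field_simp
    rw [Real.sq_sqrt hc'.le]
  set x : ℝ := c ^ 2 * (B / c) with hx
  set y : ℝ := c ^ 2 * (A / (r * Real.sqrt c)) with hy
  set z : ℝ := c ^ 2 * Real.sqrt (A / c) with hz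
  have hx0 : 0 ≤ x := by positivity
  have hy0 : 0 ≤ y := by positivity
  have hz0 : 0 ≤ z := by positivity
  have hC0 : (0 : ℝ) ≤ C := Nat.cast_nonneg _
  have h2 : K ≤ (16 * C + 48) * T * (x + y + z) := by
    have h3 : K = 48 * (x + c * B * (A / ((r : ℝ) * c))) + 16 * C * tau c ^ (C + 3) * (z + y) := by
      rw [hK, ← e1, ← e3, ← e4]; ring
    have h4 : 48 * (x + c * B * (A / ((r : ℝ) * c))) ≤ 48 * T * (x + y + z) := by
      nlinarith [mul_le_mul_of_nonneg_right hT (by positivity : 0 ≤ x + y + z)]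
    have h5 : 16 * C * tau c ^ (C + 3) * (z + y) ≤ 16 * C * T * (x + y + z) :=
      mul_le_mul (mul_le_mul_of_nonneg_left hT2 (by positivity)) (by linarith) (by positivity)
        (by positivity)
    rw [h3]; linarith
  calc _ ≤ ((r : ℝ) ^ 2 * ∑ k ∈ Icc 1 B, ‖β k‖ ^ 2) *
        ((16 * C + 48) * T * (x + y + z) * ∑ m ∈ Icc 1 A, ‖α m‖ ^ 2) := by
        refine mul_le_mul_of_nonneg_left (h1.trans ?_) (by positivity)
        exact mul_le_mul_of_nonneg_right h2 (by positivity)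
    _ = _ := by rw [hx, hy, hz]; push_cast; ring

end MR
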