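import Pool.Agent.P.MP_79de8b_nt.Basic

/-! The correlation sum of two Kloosterman sums. -/

open Complex Finset
open scoped Real

noncomputable section
namespace MR

namespace CCb

/-- the residue of `1 + h t` modulo `M` -/
def W (h : ℤ) (M t : ℕ) : ℕ := ((1 + h * t : ℤ) : ZMod M).val

lemma W_lt (h : ℤ) {M : ℕ} (hM : 0 < M) (t : ℕ) : W h M t < M := by
  have : NeZero M := ⟨hM.ne'⟩
  exact ZMod.val_lt _

lemma W_modEq (h : ℤ) {M : ℕ} (hM : 0 < M) (t : ℕ) : (W h M t : ℤ) ≡ 1 + h * t [ZMOD M] := by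
  have : NeZero M := ⟨hM.ne'⟩
  unfold W
  rw [ZMod.val_intCast]
  exact Int.mod_modEq _ _

lemma sum_moebius (n : ℕ) :
    ∑ d ∈ n.divisors, ((ArithmeticFunction.moebius d : ℤ) : ℂ) = if n = 1 then 1 else 0 := by
  have h := congrArg (fun f : ArithmeticFunction ℤ => f n) ArithmeticFunction.moebius_mul_coe_zeta
  simp only [ArithmeticFunction.coe_mul_zeta_apply, ArithmeticFunction.one_apply] at h
  rw [← Int.cast_sum, h]
  split_ifs <;> simp

/-- Moebius inversion of the condition of coprimality -/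
lemma sum_un_moebius {c : ℕ} (hc : 0 < c) (F : ℕ → ℂ) :
    ∑ t ∈ un c, F t = ∑ d ∈ c.divisors, ((ArithmeticFunction.moebius d : ℤ) : ℂ) *
      ∑ t ∈ (range c).filter (d ∣ ·), F t := by
  unfold un
  simp_rw [sum_filter, mul_sum]
  rw [sum_comm]
  refine sum_congr rfl fun t _ => ?_
  have h1 : (t.gcd c).divisors = c.divisors.filter (· ∣ t) := by
    ext d
    simp only [Nat.mem_divisors, mem_filter, Nat.dvd_gcd_iff]
    have : t.gcd c ≠ 0 := (Nat.gcd_pos_of_pos_right t hc).ne'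
    constructor
    · rintro ⟨⟨h1, h2⟩, -⟩; exact ⟨⟨h2, hc.ne'⟩, h1⟩
    · rintro ⟨⟨h1, -⟩, h2⟩; exact ⟨⟨h2, h1⟩, this⟩
  have h2 := sum_moebius (t.gcd c)
  rw [h1, sum_filter] at h2
  have h3 : ∀ d ∈ c.divisors, (((ArithmeticFunction.moebius d : ℤ) : ℂ) * if d ∣ t then F t else 0) =
      (if d ∣ t then ((ArithmeticFunction.moebius d : ℤ) : ℂ) else 0) * F t := by
    intro d _
    split_ifs <;> simp
  rw [sum_congr rfl h3, ← sum_mul, h2]
  unfold Nat.Coprime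
  split_ifs <;> simp

/-- one class of `t` modulo `D` gives one class of `w` modulo `e D` -/
lemma class_sum {c e D : ℕ} (hc : 0 < c) (he : 0 < e) (hD : D ∣ c) {h h1 hb : ℤ}
    (hh : h = e * h1) (hhb : h1 * hb ≡ 1 [ZMOD (c * e : ℕ)]) (t0 : ℕ) (φ : ℕ → ℂ) :
    ∑ t ∈ (range c).filter (fun t => t ≡ t0 [MOD D] ∧ (W h (c * e) t).Coprime (c * e)),
      φ (W h (c * e) t) = ∑ w ∈ un (c * e), cls (W h (c * e) t0) (e * D) w * φ w := by
  have hM : 0 < c * e := Nat.mul_pos hc he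
  have hDM : ((e * D : ℕ) : ℤ) ∣ (c * e : ℕ) := by
    exact_mod_cast (mul_comm c e ▸ Nat.mul_dvd_mul_left e hD)
  have hR : ∑ w ∈ un (c * e), cls (W h (c * e) t0) (e * D) w * φ w =
      ∑ w ∈ (un (c * e)).filter (fun w => w ≡ W h (c * e) t0 [MOD e * D]), φ w := by
    rw [sum_filter]
    refine sum_congr rfl fun w _ => ?_
    unfold cls
    split_ifs <;> simp
  rw [hR]
  obtain ⟨k0, hk0⟩ := hhb.dvd
  push_cast at hk0
  refine sum_bij (fun t _ => W h (c * e) t) ?_ ?_ ?_ fun _ _ => rfl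
  · intro t ht
    obtain ⟨-, h1t, h2t⟩ := mem_filter.1 ht
    refine mem_filter.2 ⟨mem_un.2 ⟨W_lt h hM t, h2t⟩, ?_⟩
    rw [← Int.natCast_modEq_iff]
    refine ((W_modEq h hM t).of_dvd hDM).trans
      (Int.ModEq.trans ?_ ((W_modEq h hM t0).of_dvd hDM).symm)
    obtain ⟨k, hk⟩ := h1t.dvd
    refine Int.modEq_iff_dvd.2 ⟨h1 * k, ?_⟩
    push_cast
    linear_combination (t0 - t : ℤ) * hh + e * h1 * hk
  · intro t ht s hs hts
    have ht' := mem_range.1 (mem_filter.1 ht).1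
    have hs' := mem_range.1 (mem_filter.1 hs).1
    have h2 : (1 + h * t : ℤ) ≡ 1 + h * s [ZMOD (c * e : ℕ)] := by
      refine (W_modEq h hM t).symm.trans ?_
      rw [hts]
      exact W_modEq h hM s
    obtain ⟨k, hk⟩ := h2.dvd
    push_cast at hk
    have he' : (e : ℤ) ≠ 0 := by positivity
    have h3 : h1 * (s - t) = c * k := by
      apply mul_left_cancel₀ he'
      linear_combination hk - (s - t : ℤ) * hh
    refine Nat.ModEq.eq_of_lt_of_lt (m := c) ?_ ht' hs'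
    refine Nat.modEq_iff_dvd.2 ⟨hb * k + e * k0 * (s - t), ?_⟩
    linear_combination hb * h3 + (s - t : ℤ) * hk0
  · intro w hw
    obtain ⟨hwu, hw2⟩ := mem_filter.1 hw
    obtain ⟨hw0, hw1⟩ := mem_un.1 hwu
    have h2 : (w : ℤ) ≡ 1 + h * t0 [ZMOD (e * D : ℕ)] :=
      (Int.natCast_modEq_iff.2 hw2).trans ((W_modEq h hM t0).of_dvd hDM)
    obtain ⟨j, hj⟩ := h2.dvd
    push_cast at hj
    have : NeZero c := ⟨hc.ne'⟩
    let t : ℕ := ((t0 - D * hb * j : ℤ) : ZMod c).val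
    have ht : (t : ℤ) ≡ t0 - D * hb * j [ZMOD c] := by
      simp only [t]
      rw [ZMod.val_intCast]
      exact Int.mod_modEq _ _
    obtain ⟨k, hk⟩ := ht.dvd
    have hW : W h (c * e) t = w := by
      refine Nat.ModEq.eq_of_lt_of_lt (m := c * e) ?_ (W_lt h hM t) hw0
      rw [← Int.natCast_modEq_iff]
      refine (W_modEq h hM t).trans (Int.modEq_iff_dvd.2 ⟨h1 * k - k0 * e * D * j, ?_⟩)
      push_cast
      linear_combination -hj + (t0 - t : ℤ) * hh + e * h1 * hk - e * D * j * hk0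
    refine ⟨t, mem_filter.2 ⟨mem_range.2 (ZMod.val_lt _), ?_, hW ▸ hw1⟩, hW⟩
    obtain ⟨c', hc'⟩ := hD
    refine Nat.modEq_iff_dvd.2 ⟨hb * j + c' * k, ?_⟩
    have hc'' : (c : ℤ) = D * c' := by exact_mod_cast hc'
    linear_combination hk + k * hc''

/-- the inner sum over the partner `t'` -/
lemma inner {c e N ρ : ℕ} (hc : 0 < c) (he : 0 < e) (hN : N ∣ c) {h h1 hb : ℤ}
    (hh : h = e * h1) (hhb : h1 * hb ≡ 1 [ZMOD (c * e : ℕ)]) (μ μ' : ℤ) {t : ℕ} (ht : t ∈ un c) :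
    (∑ t' ∈ un c, if ((iv t' c : ℤ) ≡ iv t c + h [ZMOD c]) then
      cls ρ N t * cls ρ N t' * ex (((μ * t - μ' * t' : ℤ) : ℝ) / c) else 0) =
    if (N : ℤ) ∣ h then ex (((-((μ + μ') * hb) : ℤ) : ℝ) / (c * e : ℕ)) *
      (if t ≡ ρ [MOD N] ∧ (W h (c * e) t).Coprime (c * e) then
        ex (((μ * hb * W h (c * e) t + μ' * hb * iv (W h (c * e) t) (c * e) : ℤ) : ℝ) / (c * e : ℕ))
      else 0) else 0 := by
  have hM : 0 < c * e := Nat.mul_pos hc he
  have hcM : (c : ℤ) ∣ (c * e : ℕ) := by exact_mod_cast Dvd.intro e rfl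
  have heM : (e : ℤ) ∣ (c * e : ℕ) := by exact_mod_cast Dvd.intro_left c rfl
  have htc := (mem_un.1 ht).2
  set w := W h (c * e) t with hw
  have hwM : (w : ℤ) ≡ 1 + h * t [ZMOD (c * e : ℕ)] := W_modEq h hM t
  have a1 : (t : ZMod c) * (iv t c : ℕ) = 1 := by
    exact_mod_cast (ZMod.natCast_eq_natCast_iff _ _ _).2 (mul_iv hc htc)
  have a2 : (w : ZMod c) = 1 + h * t := by
    exact_mod_cast (ZMod.intCast_eq_intCast_iff _ _ _).2 (hwM.of_dvd hcM)
  have a3 : ∀ t' ∈ un c, ((iv t' c : ℤ) ≡ iv t c + h [ZMOD c]) → (t' : ZMod c) * w = t := by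
    intro t' ht' hcond
    have b1 : (t' : ZMod c) * (iv t' c : ℕ) = 1 := by
      exact_mod_cast (ZMod.natCast_eq_natCast_iff _ _ _).2 (mul_iv hc (mem_un.1 ht').2)
    have b2 : ((iv t' c : ℕ) : ZMod c) = (iv t c : ℕ) + h := by
      exact_mod_cast (ZMod.intCast_eq_intCast_iff _ _ _).2 hcond
    linear_combination (t' : ZMod c) * a2 + (t : ZMod c) * b1 - (t' : ZMod c) * a1 -
      (t : ZMod c) * t' * b2
  by_cases hco : w.Coprime (c * e)
  swap
  · rw [if_neg (fun h : t ≡ ρ [MOD N] ∧ w.Coprime (c * e) => hco h.2), mul_zero, ite_self]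
    refine sum_eq_zero fun t' ht' => if_neg fun hcond => hco ?_
    refine Nat.Coprime.mul_right ?_ ?_
    · refine Nat.coprime_of_mul_modEq_one (t' * iv t c) ?_
      rw [← ZMod.natCast_eq_natCast_iff]
      push_cast
      linear_combination ((iv t c : ℕ) : ZMod c) * a3 t' ht' hcond + a1
    · refine Nat.coprime_of_mul_modEq_one 1 ?_
      rw [mul_one, ← Int.natCast_modEq_iff]
      refine (hwM.of_dvd heM).trans (Int.modEq_iff_dvd.2 ⟨-(h1 * t), ?_⟩)
      push_cast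
      linear_combination -(t : ℤ) * hh
  set wi := iv w (c * e) with hwi
  have hwwi : (w : ℤ) * wi ≡ 1 [ZMOD (c * e : ℕ)] := mul_iv_int hM hco
  have a4 : (w : ZMod c) * wi = 1 := by
    exact_mod_cast (ZMod.intCast_eq_intCast_iff _ _ _).2 (hwwi.of_dvd hcM)
  set s := t * wi % c with hs
  have a5 : (s : ZMod c) = t * wi := by
    rw [hs, ZMod.natCast_mod]; push_cast; rfl
  have hsc : s.Coprime c := by
    refine Nat.coprime_of_mul_modEq_one (w * iv t c) ?_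
    rw [← ZMod.natCast_eq_natCast_iff]
    push_cast
    linear_combination (w : ZMod c) * ((iv t c : ℕ) : ZMod c) * a5 +
      (t : ZMod c) * ((iv t c : ℕ) : ZMod c) * a4 + a1
  have hsu : s ∈ un c := mem_un.2 ⟨Nat.mod_lt _ hc, hsc⟩
  have hscond : (iv s c : ℤ) ≡ iv t c + h [ZMOD c] := by
    have b1 : (s : ZMod c) * (iv s c : ℕ) = 1 := by
      exact_mod_cast (ZMod.natCast_eq_natCast_iff _ _ _).2 (mul_iv hc hsc)
    have b2 : (s : ZMod c) * ((iv t c : ℕ) + h) = 1 := by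
      linear_combination (((iv t c : ℕ) : ZMod c) + h) * a5 + (wi : ZMod c) * a1 -
        (wi : ZMod c) * a2 + a4
    rw [← ZMod.intCast_eq_intCast_iff]
    push_cast
    linear_combination (((iv t c : ℕ) : ZMod c) + h) * b1 - ((iv s c : ℕ) : ZMod c) * b2
  rw [sum_eq_single_of_mem s hsu]
  swap
  · intro t' ht' hne
    refine if_neg fun hcond => hne ?_
    refine Nat.ModEq.eq_of_lt_of_lt (m := c) ?_ (mem_un.1 ht').1 (mem_un.1 hsu).1
    rw [← ZMod.natCast_eq_natCast_iff]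
    linear_combination (wi : ZMod c) * a3 t' ht' hcond - a5 - (t' : ZMod c) * a4
  rw [if_pos hscond]
  by_cases hρ : t ≡ ρ [MOD N]
  swap
  · rw [if_neg (fun h : t ≡ ρ [MOD N] ∧ w.Coprime (c * e) => hρ h.1), mul_zero, ite_self]
    simp [cls, hρ]
  have hsw : (s : ℤ) * (1 + h * t) ≡ t [ZMOD N] := by
    refine Int.ModEq.of_dvd (by exact_mod_cast hN) ((ZMod.intCast_eq_intCast_iff _ _ c).1 ?_)
    push_cast
    linear_combination a3 s hsu hscond - (s : ZMod c) * a2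
  have hiff : s ≡ ρ [MOD N] ↔ (N : ℤ) ∣ h := by
    obtain ⟨k, hk⟩ := hsw.dvd
    constructor
    · intro hsρ
      obtain ⟨j, hj⟩ := (hsρ.trans hρ.symm).dvd
      have h1' : (N : ℤ) ∣ h * (s * t : ℕ) := ⟨j - k, by push_cast; linear_combination hj - hk⟩
      have h2' : IsCoprime (N : ℤ) (s * t : ℕ) :=
        Nat.isCoprime_iff_coprime.2
          (Nat.Coprime.coprime_dvd_left hN (Nat.Coprime.mul_left hsc htc).symm)
      exact h2'.dvd_of_dvd_mul_right h1'
    · rintro ⟨j, hj⟩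
      refine Nat.ModEq.trans (Nat.modEq_iff_dvd.2 ⟨k + j * s * t, ?_⟩) hρ
      linear_combination hk + (s * t : ℤ) * hj
  by_cases hNh : (N : ℤ) ∣ h
  swap
  · rw [if_neg hNh]
    simp [cls, hiff, hNh]
  rw [if_pos hNh, if_pos ⟨hρ, hco⟩, ← ex_add]
  have e1 : cls ρ N t * cls ρ N s = 1 := by simp [cls, hρ, hiff.2 hNh]
  rw [e1, one_mul, ← add_div, ← Int.cast_add]
  have e2 : ((μ * t - μ' * s : ℤ) : ℝ) / c = ((e * (μ * t - μ' * s) : ℤ) : ℝ) / (c * e : ℕ) := by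
    have : (e : ℝ) ≠ 0 := by positivity
    have : (c : ℝ) ≠ 0 := by positivity
    push_cast
    field_simp
  rw [e2]
  refine ex_congr ?_
  obtain ⟨k, hk⟩ := ((ZMod.intCast_eq_intCast_iff (s : ℤ) (t * wi) c).1 (by exact_mod_cast a5)).dvd
  rw [← ZMod.intCast_eq_intCast_iff]
  have z0 : ((c : ZMod (c * e)) * e) = 0 := by exact_mod_cast ZMod.natCast_self (c * e)
  have z1 : (h : ZMod (c * e)) = e * h1 := by rw [hh]; push_cast; rfl
  have z2 : (h1 : ZMod (c * e)) * hb = 1 := by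
    exact_mod_cast (ZMod.intCast_eq_intCast_iff _ _ _).2 hhb
  have z3 : (w : ZMod (c * e)) = 1 + h * t := by
    exact_mod_cast (ZMod.intCast_eq_intCast_iff _ _ _).2 hwM
  have z4 : (w : ZMod (c * e)) * wi = 1 := by
    exact_mod_cast (ZMod.intCast_eq_intCast_iff _ _ _).2 hwwi
  have z5 : (t : ZMod (c * e)) * wi - s = c * k := by
    exact_mod_cast congrArg (Int.cast : ℤ → ZMod (c * e)) hk
  have y1 : (e : ZMod (c * e)) * t = hb * (w - 1) := by
    linear_combination -(hb : ZMod (c * e)) * z3 - (hb : ZMod (c * e)) * t * z1 -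
      (e : ZMod (c * e)) * t * z2
  have y2 : (e : ZMod (c * e)) * s = hb * (1 - wi) := by
    linear_combination -(e : ZMod (c * e)) * z5 - (k : ZMod (c * e)) * z0 +
      (wi : ZMod (c * e)) * y1 + (hb : ZMod (c * e)) * z4
  push_cast
  linear_combination (μ : ZMod (c * e)) * y1 - (μ' : ZMod (c * e)) * y2

end CCb

theorem cc (hA2 : S_A2) (hKL : S_KL) : S_CC := by
  intro c N ρ μ μ' h hc hN hh0
  have hpos : 0 < h.natAbs := Int.natAbs_pos.2 hh0
  obtain ⟨hdvd, hcop, hpr, -, -⟩ := hA2.1 h.natAbs c hpos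
  set e := part h.natAbs c with he_def
  have he : 0 < e := Nat.pos_of_dvd_of_pos hdvd hpos
  have hM : 0 < c * e := Nat.mul_pos hc he
  obtain ⟨h1, hh⟩ : (e : ℤ) ∣ h := Int.natCast_dvd.2 hdvd
  have hq : h.natAbs / e = h1.natAbs := by
    rw [hh, Int.natAbs_mul, Int.natAbs_natCast, Nat.mul_div_cancel_left _ he]
  rw [hq] at hcop
  have hcop' : h1.natAbs.Coprime (c * e) := by
    refine Nat.Coprime.mul_right hcop ?_
    refine Nat.coprime_of_dvd' fun p hp h1p h2p => ?_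
    exact hcop ▸ Nat.dvd_gcd h1p (hpr p hp h2p)
  obtain ⟨hb, k0, hk0⟩ : IsCoprime h1 ((c * e : ℕ) : ℤ) := by
    rw [Int.isCoprime_iff_gcd_eq_one]
    exact hcop'
  have hhb : h1 * hb ≡ 1 [ZMOD (c * e : ℕ)] :=
    Int.modEq_iff_dvd.2 ⟨k0, by linear_combination -hk0⟩
  have hbc : hb.natAbs.Coprime (c * e) := by
    have : IsCoprime hb ((c * e : ℕ) : ℤ) := ⟨h1, k0, by linear_combination hk0⟩
    rw [Int.isCoprime_iff_gcd_eq_one] at this
    exact this
  set B := 4 * tau (c * e) * Real.sqrt ((c * e : ℕ) * ((μ.gcd μ').gcd (c * e) : ℕ)) with hB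
  have hB0 : 0 ≤ B := by have := tau_nonneg (c * e); positivity
  have hgoal : 4 * tau c * tau (c * e) *
      Real.sqrt ((c * e : ℕ) * ((μ.gcd μ').gcd (c * e) : ℕ)) = tau c * B := by rw [hB]; ring
  rw [hgoal]
  unfold CC
  rw [sum_congr rfl fun t ht => CCb.inner (ρ := ρ) hc he hN hh hhb μ μ' ht]
  by_cases hNh : (N : ℤ) ∣ h
  swap
  · simp only [if_neg hNh, sum_const_zero, norm_zero]
    exact mul_nonneg (tau_nonneg c) hB0
  simp only [if_pos hNh]
  rw [← mul_sum, norm_mul, norm_ex, one_mul, CCb.sum_un_moebius hc]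
  refine (norm_sum_le _ _).trans ?_
  have hsum : tau c * B = ∑ _d ∈ c.divisors, B := by simp [tau]
  rw [hsum]
  refine sum_le_sum fun d hd => ?_
  have hdc : d ∣ c := Nat.dvd_of_mem_divisors hd
  have hμ : ‖((ArithmeticFunction.moebius d : ℤ) : ℂ)‖ ≤ 1 := by
    rw [Complex.norm_intCast]
    exact_mod_cast ArithmeticFunction.abs_moebius_le_one
  rw [norm_mul]
  refine (mul_le_of_le_one_left (norm_nonneg _) hμ).trans ?_
  rw [← sum_filter, filter_filter]
  by_cases hex : ∃ t0 : ℕ, d ∣ t0 ∧ t0 ≡ ρ [MOD N]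
  swap
  · rw [filter_eq_empty_iff.2 fun t _ ht => hex ⟨t, ht.1, ht.2.1⟩]
    simpa using hB0
  obtain ⟨t0, h1t, h2t⟩ := hex
  have hD : Nat.lcm N d ∣ c := Nat.lcm_dvd hN hdc
  have hfil : (range c).filter (fun t => d ∣ t ∧ t ≡ ρ [MOD N] ∧
      (CCb.W h (c * e) t).Coprime (c * e)) = (range c).filter (fun t =>
        t ≡ t0 [MOD Nat.lcm N d] ∧ (CCb.W h (c * e) t).Coprime (c * e)) := by
    refine filter_congr fun t _ => ?_
    rw [← and_assoc]
    refine and_congr_left fun _ => ⟨fun ht => ?_, fun ht => ⟨?_, ?_⟩⟩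
    · exact Nat.mod_lcm (ht.2.trans h2t.symm)
        ((Nat.modEq_zero_iff_dvd.2 ht.1).trans (Nat.modEq_zero_iff_dvd.2 h1t).symm)
    · exact Nat.modEq_zero_iff_dvd.1
        ((ht.of_dvd (Nat.dvd_lcm_right N d)).trans (Nat.modEq_zero_iff_dvd.2 h1t))
    · exact (ht.of_dvd (Nat.dvd_lcm_left N d)).trans h2t
  rw [hfil, CCb.class_sum hc he hD hh hhb t0
    (fun w => ex (((μ * hb * w + μ' * hb * iv w (c * e) : ℤ) : ℝ) / (c * e : ℕ)))]
  have hk := hKL (c * e) (e * Nat.lcm N d) (CCb.W h (c * e) t0) (μ * hb) (μ' * hb) hM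
    (mul_comm c e ▸ Nat.mul_dvd_mul_left e hD)
  rw [Int.gcd_mul_right, Nat.Coprime.gcd_mul_right_cancel _ hbc] at hk
  exact hk

end MR
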