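import Pool.Agent.P.MP_79de8b_nt.T2

/-! The core window when `q` has few divisors. -/

open Complex UpperHalfPlane MeasureTheory Finset CongruenceSubgroup Filter Topology
open scoped Real MatrixGroups ComplexConjugate

noncomputable section
namespace MR
namespace Co1

lemma parseval {q N M : ℕ} (hq : 0 < q) (hN : 0 < N) (hM : M ≤ q) (α : ℕ → ℂ) :
    ∑ x ∈ range (q * N), ‖∑ m ∈ Icc 1 M, α m * ex (m * x / q)‖ ^ 2 =
      q * N * ∑ m ∈ Icc 1 M, ‖α m‖ ^ 2 := by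
  have hqR : (q : ℝ) ≠ 0 := by positivity
  have hNR : (N : ℝ) ≠ 0 := by positivity
  apply Complex.ofReal_injective
  push_cast
  simp_rw [← Complex.mul_conj', map_sum, sum_mul_sum]
  rw [sum_comm, mul_sum]
  refine sum_congr rfl fun m hm => ?_
  rw [sum_comm]
  have e1 : ∀ m' ∈ Icc 1 M, ∑ x ∈ range (q * N), α m * ex (m * x / q) * conj (α m' * ex (m' * x / q)) =
      if m' = m then q * N * (α m * conj (α m)) else 0 := by
    intro m' hm'
    have e2 : ∀ x : ℕ, α m * ex (m * x / q) * conj (α m' * ex (m' * x / q)) =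
        α m * conj (α m') * ex (((N * (m - m') : ℤ) * x : ℤ) / (q * N : ℕ)) := by
      intro x
      rw [map_mul, mul_mul_mul_comm, ← ex_sub]; congr 2; push_cast; field_simp
    simp_rw [e2]
    rw [← mul_sum, sum_ex_range (Nat.mul_pos hq hN)]
    rw [mem_Icc] at hm hm'
    by_cases h : m' = m
    · subst h; simp; ring
    · rw [if_neg h, if_neg, mul_zero]
      intro hd
      rw [Nat.cast_mul, mul_comm (q : ℤ), mul_dvd_mul_iff_left (by positivity)] at hd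
      have := Int.eq_zero_of_abs_lt_dvd hd (abs_lt.2 ⟨by omega, by omega⟩)
      omega
  rw [sum_congr rfl e1, sum_ite_eq' , if_pos hm]

lemma av_le {q N M ρ : ℕ} (hq : 0 < q) (hN : 0 < N) (hM : M ≤ q) (α : ℕ → ℂ) (T : ℕ → ℂ)
    {B W Z : ℝ} (hB : 0 ≤ B) (hT : ∀ x, ‖T x‖ ≤ B) (hU : q.totient ≤ (UU N q ρ).card)
    (hW : (q : ℝ) ≤ W * q.totient) (hZ : 0 ≤ Z) (h : N * W * ∑ m ∈ Icc 1 M, ‖α m‖ ^ 2 ≤ Z ^ 2) :
    ‖av (UU N q ρ) fun x => (∑ m ∈ Icc 1 M, α m * ex (m * x / q)) * T x‖ ≤ B * Z := by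
  have hφ : (0 : ℝ) < q.totient := by exact_mod_cast Nat.totient_pos.2 hq
  have hU' : (q.totient : ℝ) ≤ (UU N q ρ).card := by exact_mod_cast hU
  have hU0 : (0 : ℝ) < (UU N q ρ).card := hφ.trans_le hU'
  have hW0 : 0 ≤ W := by
    have : (0 : ℝ) < q := by exact_mod_cast hq
    exact ((mul_pos_iff_of_pos_right hφ).1 (this.trans_le hW)).le
  refine (norm_av_le_sum _ _).trans ?_
  set t : ℕ → ℝ := fun x => ‖∑ m ∈ Icc 1 M, α m * ex (m * x / q)‖ with ht
  have h1 : ∑ x ∈ UU N q ρ, t x ≤ Z * (UU N q ρ).card := by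
    refine le_of_sq_le_sq (sq_sum_le_card_mul_sum_sq.trans ?_) (by positivity)
    have h2 : ∑ x ∈ UU N q ρ, t x ^ 2 ≤ q * N * ∑ m ∈ Icc 1 M, ‖α m‖ ^ 2 := by
      rw [← parseval hq hN hM]
      exact sum_le_sum_of_subset_of_nonneg (fun x hx => mem_range.2 (mem_UU.1 hx).1)
        fun _ _ _ => sq_nonneg _
    have h3 : 0 ≤ ∑ m ∈ Icc 1 M, ‖α m‖ ^ 2 := by positivity
    calc _ ≤ (UU N q ρ).card * (W * (UU N q ρ).card * N * ∑ m ∈ Icc 1 M, ‖α m‖ ^ 2) := by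
          gcongr
          refine h2.trans ?_
          gcongr
          exact hW.trans (by gcongr)
      _ = (N * W * ∑ m ∈ Icc 1 M, ‖α m‖ ^ 2) * ((UU N q ρ).card : ℝ) ^ 2 := by ring
      _ ≤ Z ^ 2 * ((UU N q ρ).card : ℝ) ^ 2 := by gcongr
      _ = _ := by ring
  rw [div_le_iff₀ hU0]
  calc _ ≤ ∑ x ∈ UU N q ρ, B * t x := sum_le_sum fun x _ => by
        rw [norm_mul, mul_comm]; gcongr; exact hT x
    _ = B * ∑ x ∈ UU N q ρ, t x := by rw [mul_sum]
    _ ≤ B * (Z * (UU N q ρ).card) := by gcongr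
    _ = _ := by ring

lemma norm_cf_sq (β : ℕ → ℂ) (u : ℝ) {m : ℕ} (hm : 1 ≤ m) :
    ‖cf 1 β u m‖ ^ 2 = ‖β m‖ ^ 2 / (m : ℝ) ^ 2 * ww (m * Real.exp u) := by
  have hm' : (m : ℝ) ≠ 0 := by positivity
  unfold cf ww
  rw [norm_mul, Complex.norm_real, Real.norm_eq_abs, mul_pow, sq_abs, mul_pow,
    ← Real.exp_nat_mul (-(2 * π * m * Real.exp u / (1 : ℕ))) 2]
  have : ((2 : ℕ) : ℝ) * -(2 * π * m * Real.exp u / (1 : ℕ)) = -(4 * π * (m * Real.exp u)) := by
    push_cast; ring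
  rw [this]; field_simp

lemma sum_aE_le (hSer : S_Ser) {N : ℕ} (Φ : Fam N) (S : Finset ℕ) (u : ℝ) (M : ℕ) :
    ∑ m ∈ Icc 1 M, ‖cf 1 (aE Φ.a S) u m‖ ^ 2 ≤
      IP (fun n => ‖Φ.a n‖ ^ 2 / (n : ℝ) ^ 2) (fun n => om S n = 0) (Real.exp u) := by
  have hs := ((hSer _ _ _ _ Φ.sera).2.2.2.2.2.2.2.2.2.1 u).summable
  have hww : ∀ n : ℕ, 0 ≤ ‖Φ.a n‖ ^ 2 / (n : ℝ) ^ 2 * ww (n * Real.exp u) := fun n => by
    unfold ww; positivity
  have hs2 : Summable fun n : ℕ => ‖Φ.a n‖ ^ 2 / (n : ℝ) ^ 2 * ww (n * Real.exp u) := by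
    refine hs.of_nonneg_of_le hww fun n => ?_
    rcases Nat.eq_zero_or_pos n with rfl | hn
    · simp
    · exact (norm_cf_sq _ _ hn).ge
  unfold IP
  refine le_trans (le_of_eq (sum_congr rfl fun m hm => ?_)) ((hs2.indicator _).sum_le_tsum (Icc 1 M)
    fun n _ => Set.indicator_nonneg (fun n _ => hww n) n)
  rw [norm_cf_sq _ _ (mem_Icc.1 hm).1, Set.indicator_apply]
  unfold aE
  simp only [Set.mem_ofPred_eq]
  split_ifs <;> simp

lemma tendsto_w : Tendsto (fun q : ℕ => Real.log q ^ (1 / 40 : ℝ)) atTop atTop :=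
  (tendsto_rpow_atTop (by norm_num)).comp (Real.tendsto_log_atTop.comp tendsto_natCast_atTop_atTop)

end Co1

open Co1 in
theorem co1 (hA1 : S_A1) (hAv : S_Av) (hSer : S_Ser) (hTr : S_Tr) (hCt : S_Ct) (hSv : S_Sv)
    (hR1 : S_R1) (hWt : S_Wt) (hR2 : S_R2) : S_Co1 := by
  intro N Φ k e he
  obtain ⟨c, K₀, hγ⟩ := hWt N Φ
  obtain ⟨C₁, h₁⟩ := hSv c K₀
  obtain ⟨C₂, h₂⟩ := hR1 c K₀
  obtain ⟨C₃, h₃⟩ := hR2 N Φ
  obtain ⟨C₄, hC₄, h₄⟩ := hTr 1 Φ.K
  obtain ⟨C₅, hC₅, h₅⟩ := hTr N Φ.K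
  have hN := Φ.pos
  have hN1 : (1 : ℝ) ≤ N := by exact_mod_cast hN
  have hK := Φ.one_le
  set i := C₃ + 2 * k + 5 with hi
  set K' := Φ.K + C₅ with hK'
  have hK'0 : 0 < K' := by positivity
  set c₁ := Real.sqrt (3 * N * |C₁| * (10 * i) ^ 3) with hc₁
  set c₂ := Real.sqrt (4 * N * |C₂|) with hc₂
  set c₃ := Φ.K * C₅ + C₄ * K' with hc₃
  have hc₃0 : 0 ≤ c₃ := by positivity
  set b := 36 * (k : ℝ) ^ 2 with hb
  rw [← eventually_atTop]
  filter_upwards [eventually_ge_atTop 3,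
    (Real.tendsto_log_atTop.comp tendsto_natCast_atTop_atTop).eventually_ge_atTop C₁,
    tendsto_Lam.eventually_ge_atTop C₁, tendsto_Lam.eventually_ge_atTop N,
    tendsto_Lam.eventually_ge_atTop (5 / e), tendsto_Lam.eventually_ge_atTop (5 * b * K' * c₂ / e),
    tendsto_w.eventually_ge_atTop (10 * i + 20), tendsto_w.eventually_ge_atTop (5 * b * K' * c₁ / e),
    eventually_Lam_pow_le (k * 18) one_pos one_pos,
    eventually_Lam_pow_le (2 + k * 3) (δ := 1 / 10) (e := 1 / (6 * N)) (by norm_num) (by positivity),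
    eventually_Lam_pow_le C₃ (δ := 1 / 20) (e := e / 5) (by norm_num) (by positivity),
    eventually_Lam_pow_le 2 (δ := 1) (e := e / (5 * (b * c₃ + 1))) (by norm_num) (by positivity)]
    with q hq g1 g2 g3 g4 g5 g6 g7 g8 g9 g10 g11 hΛe σ ε ρ R hρ hR hRs
  simp only [Function.comp] at g1
  have hq0 : 0 < q := by omega
  have hqR : (0 : ℝ) < q := by exact_mod_cast hq0
  have hqR1 : (1 : ℝ) ≤ q := by exact_mod_cast hq0
  have hΛ0 := Lam_pos hq
  have hΛ1 := one_le_Lam hq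
  have hl1 := one_le_log hq
  have hlΛ := log_le_Lam hq
  obtain ⟨a1, a2, a3⟩ := hA1.2.2.1 q hq0
  have hU := (hAv N q ρ hN hq0 hρ).2.1
  have h₃' := h₃ σ ε q ρ
  set l := Real.log q with hl
  set w := l ^ (1 / 40 : ℝ) with hw
  have hi0 : (0 : ℝ) ≤ i := by positivity
  have hw1 : 1 ≤ w := by linarith
  have hw0 : 0 < w := by linarith
  have hwp : ∀ (n : ℕ) (r : ℝ), r = 1 / 40 * n → l ^ r = w ^ n := fun n r h => by
    rw [hw, ← Real.rpow_natCast, ← Real.rpow_mul (by linarith), h]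
  have hw40 : l = w ^ 40 := by rw [← hwp 40 1 (by norm_num), Real.rpow_one]
  rw [hwp 4 _ (by norm_num)] at hΛe
  have hlogΛ : Real.log (Lam q) ≤ w ^ 4 := (Real.log_le_iff_le_exp hΛ0).2 hΛe
  have hlogΛ0 : 0 ≤ Real.log (Lam q) := Real.log_nonneg hΛ1
  set L := Lam q ^ k with hL
  have hL1 : 1 ≤ L := one_le_pow₀ hΛ1
  have hL0 : 0 < L := by linarith
  have hm0 : 0 ≤ Real.log L := Real.log_nonneg hL1
  have hm1 : 18 * Real.log L ≤ l := by
    rw [Real.rpow_one, one_mul, pow_mul] at g8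
    have := Real.log_le_log (by positivity) g8
    rwa [Real.log_pow, Nat.cast_ofNat] at this
  have hm2 : Real.log L = k * Real.log (Lam q) := by rw [hL, Real.log_pow]
  have hcond : 6 * N * l ^ 2 * L ^ 3 ≤ (q : ℝ) ^ (1 / 10 : ℝ) := by
    rw [one_div_mul_eq_div, le_div_iff₀ (by positivity)] at g9
    calc _ ≤ 6 * N * Lam q ^ 2 * L ^ 3 := by gcongr
      _ = Lam q ^ (2 + k * 3) * (6 * N) := by rw [hL]; ring
      _ ≤ _ := g9
  set P₀ := Lam q ^ (10 * i) with hP₀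
  have hP1 : 1 ≤ P₀ := one_le_pow₀ hΛ1
  have hlogP : Real.log P₀ ≤ 10 * i * w ^ 4 := by
    rw [hP₀, Real.log_pow]; push_cast; gcongr
  set S := ((Icc 1 ⌊Real.exp (l ^ (9 / 10 : ℝ))⌋₊).filter fun p : ℕ => p.Prime ∧ P₀ < p) \
    (q * N).primeFactors with hS
  have hSp : ∀ p ∈ S, p.Prime ∧ P₀ < p ∧ ¬ p ∣ q * N ∧ p ^ 20 ≤ q := by
    intro p hp
    obtain ⟨b1, b2⟩ := mem_sdiff.1 hp
    obtain ⟨b3, b4, b5⟩ := mem_filter.1 b1
    refine ⟨b4, b5, fun h => b2 (Nat.mem_primeFactors.2 ⟨b4, h, by positivity⟩), ?_⟩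
    have b6 : (p : ℝ) ≤ Real.exp (w ^ 36) := by
      rw [← hwp 36 (9 / 10) (by norm_num)]
      exact (Nat.cast_le.2 (mem_Icc.1 b3).2).trans (Nat.floor_le (Real.exp_pos _).le)
    have b7 : (p : ℝ) ^ 20 ≤ q := by
      calc _ ≤ Real.exp (w ^ 36) ^ 20 := by gcongr
        _ = Real.exp ((20 : ℕ) * w ^ 36) := (Real.exp_nat_mul _ _).symm
        _ ≤ Real.exp l := by
          refine Real.exp_le_exp.2 ?_
          rw [hw40, show w ^ 40 = w ^ 4 * w ^ 36 by ring]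
          gcongr
          exact le_trans (by push_cast; linarith) (le_self_pow₀ hw1 (by norm_num))
        _ = q := Real.exp_log hqR
    exact_mod_cast b7
  obtain ⟨iZ, bZ⟩ := h₃' L P₀ S R hq hρ hL1 hP1 hcond hSp hR hRs
  have hB3 : (((q * N).primeFactors.card : ℕ) : ℝ) ^ 3 ≤ P₀ := by
    have b1 : (((q * N).primeFactors.card : ℕ) : ℝ) ≤ tau (q * N) := by
      unfold tau
      exact_mod_cast card_le_card fun p hp => Nat.mem_divisors.2
        ⟨Nat.dvd_of_mem_primeFactors hp, by positivity⟩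
    have b2 : tau (q * N) ≤ Lam q * Lam q :=
      (tau_mul_le q N).trans (mul_le_mul (tau_le_Lam hq) ((tau_le_self N).trans g3) (tau_nonneg N)
        hΛ0.le)
    calc _ ≤ (Lam q * Lam q) ^ 3 := pow_le_pow_left₀ (Nat.cast_nonneg _) (b1.trans b2) 3
      _ = Lam q ^ 6 := by ring
      _ ≤ _ := Lam_pow_mono hq (by omega)
  have hPe : P₀ ≤ Real.exp (Real.sqrt l) := by
    rw [← Real.log_le_iff_le_exp (by positivity), Real.sqrt_eq_rpow, hwp 20 _ (by norm_num),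
      show w ^ 20 = w ^ 16 * w ^ 4 by ring]
    refine hlogP.trans ?_
    gcongr
    exact le_trans (by linarith) (le_self_pow₀ hw1 (by norm_num))
  have hω : (q : ℝ) ≤ 3 * w ^ 4 * q.totient := by
    refine a1.trans ?_
    gcongr
    have b1 : (q.primeFactors.card : ℝ) * Real.log 2 ≤ w ^ 4 := by
      rw [← Real.log_pow]
      exact (Real.log_le_log (by positivity) (a2.trans (tau_le_Lam hq))).trans hlogΛ
    have b2 := Real.log_two_gt_d9
    have b3 : (0 : ℝ) ≤ q.primeFactors.card := Nat.cast_nonneg _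
    have b4 := one_le_pow₀ (n := 4) hw1
    nlinarith
  have hτ : (q : ℝ) ≤ Lam q * q.totient := a3.trans (by gcongr; exact tau_le_Lam hq)
  have key : ∀ p ∈ R, ‖Mix Φ σ ε q ρ p.1 p.2 - av (UU N q ρ) fun x =>
      (∑ m ∈ Icc 1 ⌊l ^ 2 * Real.exp (-p.1)⌋₊, cf 1 (aR Φ.a S) p.1 m * ex (m * x / q)) *
      cj ε (∑ n ∈ Icc 1 ⌊l ^ 2 * N * Real.exp (-p.2)⌋₊,
        cf N (Φ.b σ) p.2 n * ex (n * (-(iv x (q * N) : ℝ) / q) / N))‖ ≤
      c₃ / q + K' * (c₁ / w ^ 9) + K' * (c₂ / Lam q ^ 3) := by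
    rintro ⟨u, v⟩ hp
    obtain ⟨hu, hv⟩ := hRs hp
    simp only at hu hv ⊢
    have hu' := exp_neg_le_window hq0 hL0 hu
    rw [abs_le] at hu hv
    set M := ⌊l ^ 2 * Real.exp (-u)⌋₊ with hM
    set TB : ℕ → ℂ := fun x => ∑ n ∈ Icc 1 ⌊l ^ 2 * N * Real.exp (-v)⌋₊,
        cf N (Φ.b σ) v n * ex (n * (-(iv x (q * N) : ℝ) / q) / N) with hTB
    set TA : (ℕ → ℂ) → ℕ → ℂ := fun β x => ∑ m ∈ Icc 1 M, cf 1 β u m * ex (m * x / q) with hTA
    have hMq : (M : ℝ) ≤ q := by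
      have b1 : (q : ℝ) ^ (1 / 10 : ℝ) ≤ Real.sqrt q := by
        rw [Real.sqrt_eq_rpow]; exact Real.rpow_le_rpow_of_exponent_le hqR1 (by norm_num)
      have b2 : 0 ≤ l ^ 2 * L ^ 3 := by positivity
      calc (M : ℝ) ≤ l ^ 2 * Real.exp (-u) := Nat.floor_le (by positivity)
        _ ≤ l ^ 2 * (Real.sqrt q * L ^ 3) := by gcongr
        _ = Real.sqrt q * (l ^ 2 * L ^ 3) := by ring
        _ ≤ Real.sqrt q * Real.sqrt q := by gcongr; nlinarith
        _ = q := Real.mul_self_sqrt hqR.le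
    have hMq' : M ≤ q := by exact_mod_cast hMq
    have hq5 : ∀ C : ℝ, 0 ≤ C → C / (q : ℝ) ^ 5 ≤ C / q := fun C hC => by
      gcongr; exact le_self_pow₀ hqR1 (by norm_num)
    have r1 : ∀ x : ℕ, ‖FF (Φ.G 1) (x / q) u - TA Φ.a x‖ ≤ C₄ / q := fun x => by
      have := h₄ _ _ Φ.sera q M (x / q) u hq (by linarith)
        (by rw [Nat.cast_one, mul_one]; exact (Nat.lt_floor_add_one _).le)
      simp only [Nat.cast_one, div_one, ← mul_div_assoc] at this
      exact this.trans (hq5 _ hC₄)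
    have r2 : ∀ x : ℕ, ‖FF (Φ.G σ) (-(iv x (q * N) : ℝ) / q) v - TB x‖ ≤ C₅ / q := fun x =>
      (h₅ _ _ (Φ.ser σ) q _ _ v hq (by linarith) (Nat.lt_floor_add_one _).le).trans (hq5 _ hC₅)
    have r3 : ∀ x : ℕ, ‖cj ε (TB x)‖ ≤ K' := fun x => by
      rw [norm_cj]
      have b1 := ((hSer _ _ _ _ (Φ.ser σ)).2.2.2.1 (-(iv x (q * N) : ℝ) / q) v).1
      have b2 := norm_le_norm_add_norm_sub (FF (Φ.G σ) (-(iv x (q * N) : ℝ) / q) v) (TB x)
      have b3 : C₅ / q ≤ C₅ := div_le_self hC₅ hqR1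
      linarith [r2 x]
    have e1 : Mix Φ σ ε q ρ u v - av (UU N q ρ) (fun x => TA (aR Φ.a S) x * cj ε (TB x)) =
        av (UU N q ρ) (fun x => FF (Φ.G 1) (x / q) u *
            cj ε (FF (Φ.G σ) (-(iv x (q * N) : ℝ) / q) v - TB x) +
          (FF (Φ.G 1) (x / q) u - TA Φ.a x) * cj ε (TB x)) +
        av (UU N q ρ) (fun x => TA (aE Φ.a S) x * cj ε (TB x)) +
        av (UU N q ρ) (fun x => TA (fun m => Φ.a m - aE Φ.a S m - aR Φ.a S m) x * cj ε (TB x)) := by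
      unfold Mix
      rw [← av_sub, ← av_add, ← av_add]
      refine av_congr fun x _ => ?_
      have : TA (fun m => Φ.a m - aE Φ.a S m - aR Φ.a S m) x =
          TA Φ.a x - TA (aE Φ.a S) x - TA (aR Φ.a S) x := by
        simp only [hTA, cf, sub_mul, sum_sub_distrib]
      rw [this, cj_sub]; ring
    rw [e1]
    refine (norm_add₃_le).trans (add_le_add_three ?_ ?_ ?_)
    · refine norm_av_le (by positivity) fun x _ => (norm_add_le _ _).trans ?_
      rw [norm_mul, norm_mul, norm_cj, hc₃, add_div, mul_div_assoc, mul_div_right_comm]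
      gcongr
      · exact ((hSer _ _ _ _ Φ.sera).2.2.2.1 _ _).1
      · exact r2 x
      · exact r1 x
      · exact r3 x
    · refine av_le hq0 hN hMq' _ _ hK'0.le r3 hU hω (by positivity) ?_
      have b1 := (sum_aE_le hSer Φ S u M).trans (h₁ _ hγ l P₀ _ _ g1
        (g2.trans (le_self_pow₀ hΛ1 (by omega))) hPe hB3 (Real.exp_pos u)
        (Real.exp_le_exp.2 (by linarith)))
      rw [Real.rpow_neg (by linarith), hwp 34 _ (by norm_num)] at b1
      have b2 : 0 ≤ Real.log P₀ := Real.log_nonneg hP1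
      rw [div_pow, hc₁, Real.sq_sqrt (by positivity)]
      calc _ ≤ N * (3 * w ^ 4) * (|C₁| * (10 * i * w ^ 4) ^ 3 * (w ^ 34)⁻¹) := by
            gcongr
            refine b1.trans ?_
            gcongr; exact le_abs_self _
        _ = _ := by field_simp
    · refine av_le hq0 hN hMq' _ _ hK'0.le r3 hU hτ (by positivity) ?_
      have b1 := h₂ Φ.a hγ Φ.mul S P₀ (Real.exp u) M hP1 (fun p hp => ⟨(hSp p hp).1, (hSp p hp).2.1⟩)
        (Real.exp_pos u)
      rw [← sum_congr rfl fun m hm => norm_cf_sq (fun m => Φ.a m - aE Φ.a S m - aR Φ.a S m) u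
        (mem_Icc.1 hm).1] at b1
      have b2 : P₀ ^ (-(1 / 5 : ℝ)) = (Lam q ^ (2 * i))⁻¹ := by
        rw [hP₀, Real.rpow_neg (by positivity), ← Real.rpow_natCast, ← Real.rpow_natCast,
          ← Real.rpow_mul hΛ0.le]
        congr 2; push_cast; ring
      have b3 : Real.log M ≤ l := by
        rcases Nat.eq_zero_or_pos M with h | h
        · rw [h]; simp; linarith
        · exact Real.log_le_log (by exact_mod_cast h) hMq
      have b4 : 0 ≤ Real.log M := Real.log_natCast_nonneg M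
      rw [b2] at b1
      rw [div_pow, hc₂, Real.sq_sqrt (by positivity)]
      calc _ ≤ N * Lam q * (|C₂| * (2 * Lam q) ^ 2 * (Lam q ^ 9)⁻¹) := by
            gcongr
            refine b1.trans ?_
            gcongr
            · exact le_abs_self _
            · linarith
            · omega
        _ = _ := by field_simp; ring
  have iM : IntegrableOn (fun p : ℝ × ℝ => Mix Φ σ ε q ρ p.1 p.2) R := by
    obtain ⟨-, c1, -, c3, -⟩ := hCt N Φ σ ε q ρ
    refine Measure.integrableOn_of_bounded (T2.vol_lt (m := l) fun p hp => ?_)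
      c1.aestronglyMeasurable (Eventually.of_forall fun p => (c3 _ _).2.1)
    obtain ⟨hu, hv⟩ := hRs hp
    rw [abs_le] at hu hv
    exact ⟨abs_le.2 ⟨by linarith, by linarith⟩, abs_le.2 ⟨by linarith, by linarith⟩⟩
  have b0 := norm_integral_window (by linarith) (by positivity) hRs key
  rw [integral_sub iM iZ] at b0
  have ar1 : 4 * (3 * Real.log L) ^ 2 ≤ b * w ^ 8 := by
    rw [hm2, hb]
    calc _ ≤ 4 * (3 * (k * w ^ 4)) ^ 2 := by gcongr
      _ = _ := by ring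
  have ar2 : 4 * (3 * Real.log L) ^ 2 ≤ b * Lam q ^ 2 := by
    rw [hm2, hb]
    calc _ ≤ 4 * (3 * (k * Lam q)) ^ 2 := by
          gcongr; exact (Real.log_le_sub_one_of_pos hΛ0).trans (by linarith)
      _ = _ := by ring
  have hb0 : 0 ≤ b := by positivity
  have hc₁0 : 0 ≤ c₁ := Real.sqrt_nonneg _
  have hc₂0 : 0 ≤ c₂ := Real.sqrt_nonneg _
  have f1 : c₃ / q * (4 * (3 * Real.log L) ^ 2) ≤ e / 5 := by
    rw [Real.rpow_one] at g11
    calc _ ≤ c₃ / q * (b * Lam q ^ 2) := by gcongr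
      _ ≤ c₃ / q * (b * (e / (5 * (b * c₃ + 1)) * q)) := by gcongr
      _ = e / 5 * (b * c₃ / (b * c₃ + 1)) := by field_simp
      _ ≤ e / 5 * 1 := by gcongr; rw [div_le_one (by positivity)]; linarith
      _ = _ := mul_one _
  have f2 : K' * (c₁ / w ^ 9) * (4 * (3 * Real.log L) ^ 2) ≤ e / 5 := by
    rw [div_le_iff₀ he] at g7
    calc _ ≤ K' * (c₁ / w ^ 9) * (b * w ^ 8) := by gcongr
      _ = 5 * b * K' * c₁ / (5 * w) := by field_simp
      _ ≤ w * e / (5 * w) := by gcongr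
      _ = _ := by field_simp
  have f3 : K' * (c₂ / Lam q ^ 3) * (4 * (3 * Real.log L) ^ 2) ≤ e / 5 := by
    rw [div_le_iff₀ he] at g5
    calc _ ≤ K' * (c₂ / Lam q ^ 3) * (b * Lam q ^ 2) := by gcongr
      _ = 5 * b * K' * c₂ / (5 * Lam q) := by field_simp
      _ ≤ Lam q * e / (5 * Lam q) := by gcongr
      _ = _ := by field_simp
  have f4 : Lam q ^ C₃ * (L ^ 2 / Real.sqrt P₀ + 1 / (q : ℝ) ^ (1 / 20 : ℝ)) ≤ e / 5 + e / 5 := by
    have e1 : Real.sqrt P₀ = Lam q ^ (5 * i) := by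
      rw [hP₀, show 10 * i = 5 * i * 2 by ring, pow_mul, Real.sqrt_sq (by positivity)]
    rw [mul_add, e1]
    refine add_le_add ?_ (by rwa [mul_one_div, div_le_iff₀ (by positivity)])
    rw [div_le_iff₀ he] at g4
    rw [← mul_div_assoc, div_le_iff₀ (by positivity), hL, ← pow_mul, ← pow_add]
    calc _ = Lam q ^ (C₃ + k * 2) * 1 := (mul_one _).symm
      _ ≤ Lam q ^ (C₃ + k * 2) * (e / 5 * Lam q) := by gcongr; linarith
      _ = e / 5 * Lam q ^ (C₃ + k * 2 + 1) := by ring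
      _ ≤ _ := by gcongr; omega
  refine (norm_le_norm_sub_add _ _).trans ((add_le_add b0 bZ).trans ?_)
  rw [add_mul, add_mul]
  linarith

end MR
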