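import Pool.Agent.P.MP_79de8b_nt.Basic

/-! The core window. -/

open Complex UpperHalfPlane MeasureTheory Finset CongruenceSubgroup Filter Topology
open scoped Real MatrixGroups ComplexConjugate

noncomputable section
namespace MR

/-- A pointwise bound integrated over a square window. -/
lemma norm_integral_window {f : ℝ × ℝ → ℂ} {R : Set (ℝ × ℝ)} {a b m B : ℝ} (hm : 0 ≤ m)
    (hB : 0 ≤ B) (hR : R ⊆ {p | |p.1 + a| ≤ m ∧ |p.2 + b| ≤ m}) (h : ∀ p ∈ R, ‖f p‖ ≤ B) :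
    ‖∫ p in R, f p‖ ≤ B * (4 * m ^ 2) := by
  have hsub : R ⊆ Set.Icc (-m - a) (m - a) ×ˢ Set.Icc (-m - b) (m - b) := fun p hp => by
    obtain ⟨h1, h2⟩ := hR hp
    rw [abs_le] at h1 h2
    exact ⟨⟨by linarith, by linarith⟩, by linarith, by linarith⟩
  have hvol : volume (Set.Icc (-m - a) (m - a) ×ˢ Set.Icc (-m - b) (m - b)) =
      ENNReal.ofReal (4 * m ^ 2) := by
    rw [Measure.volume_eq_prod, Measure.prod_prod, Real.volume_Icc, Real.volume_Icc,
      ← ENNReal.ofReal_mul (by linarith)]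
    congr 1; ring
  have hfin : volume R ≤ ENNReal.ofReal (4 * m ^ 2) := hvol ▸ measure_mono hsub
  refine (norm_setIntegral_le_of_norm_le_const (hfin.trans_lt ENNReal.ofReal_lt_top) h).trans ?_
  gcongr
  exact ENNReal.toReal_le_of_le_ofReal (by positivity) hfin

lemma exp_neg_le_window {q : ℕ} (hq : 0 < q) {L u : ℝ} (hL : 0 < L)
    (h : |u + Real.log q / 2| ≤ 3 * Real.log L) : Real.exp (-u) ≤ Real.sqrt q * L ^ 3 := by
  have hqR : (0 : ℝ) < q := by exact_mod_cast hq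
  calc _ ≤ Real.exp (Real.log q / 2 + (3 : ℕ) * Real.log L) :=
        Real.exp_le_exp.2 (by push_cast; linarith [(abs_le.1 h).1])
    _ = _ := by rw [Real.exp_add, Real.exp_half, Real.exp_nat_mul, Real.exp_log hqR, Real.exp_log hL]

theorem core (hA2 : S_A2) (hMx : S_Mx) (h1 : S_Co1) : S_Core := by
  intro N Φ k e he
  obtain ⟨q₁, hq₁⟩ := h1 N Φ k e he
  obtain ⟨C, hC⟩ := hMx N Φ
  obtain ⟨q₂, hq₂⟩ := hA2.2.2 N (2 * (C + 3 * k + 5)) Φ.pos
  set e₁ := e / (36 * k ^ 2 + 1) with he₁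
  have he₁0 : 0 < e₁ := by positivity
  rw [← eventually_atTop]
  filter_upwards [eventually_ge_atTop 3, eventually_ge_atTop q₁, eventually_ge_atTop q₂,
    tendsto_Lam.eventually_ge_atTop (2 / e₁ ^ 2),
    eventually_Lam_pow_le (C + 3 * k + 4) (δ := 1 / 5) (e := e₁ ^ 2 / 6) (by norm_num)
      (by positivity),
    eventually_Lam_pow_le (k * 2) one_pos one_pos] with q hq hq1 hq2 hΛ hs hk σ ε ρ R hρ hR hRs
  rcases le_total (Lam q) (Real.exp (Real.log q ^ (1 / 10 : ℝ))) with hc | hc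
  · exact hq₁ q hq1 hc σ ε ρ R hρ hR hRs
  obtain ⟨r, hr1, hr2, hr3, hr4⟩ := hq₂ q hq2 hc
  have hq0 : 0 < q := by omega
  have hqR : (0 : ℝ) < q := by exact_mod_cast hq0
  have hqR1 : (1 : ℝ) ≤ q := by exact_mod_cast hq0
  have hΛ0 := Lam_pos hq
  have hΛ1 := one_le_Lam hq
  set L := Lam q ^ k with hL
  have hL1 : 1 ≤ L := one_le_pow₀ hΛ1
  have hL0 : 0 < L := by linarith
  have hm0 : 0 ≤ Real.log L := Real.log_nonneg hL1
  have hm1 : 2 * Real.log L ≤ Real.log q := by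
    rw [Real.rpow_one, one_mul, pow_mul] at hk
    have := Real.log_le_log (by positivity) hk
    rwa [Real.log_pow, Nat.cast_ofNat] at this
  set w := (q : ℝ) ^ (1 / 10 : ℝ) with hw
  have hw1 : 1 ≤ w := Real.one_le_rpow hqR1 (by norm_num)
  have hw0 : 0 < w := by linarith
  have hw10 : w ^ 10 = q := by
    rw [hw, ← Real.rpow_natCast, ← Real.rpow_mul hqR.le]; norm_num
  have hw2 : (q : ℝ) ^ (1 / 5 : ℝ) = w ^ 2 := by
    rw [hw, ← Real.rpow_natCast, ← Real.rpow_mul hqR.le]; norm_num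
  have hsq : Real.sqrt q = w ^ 5 := by
    rw [← hw10, show w ^ 10 = (w ^ 5) ^ 2 by ring, Real.sqrt_sq (by positivity)]
  have hrw : (r : ℝ) ≤ w := by
    refine le_of_pow_le_pow_left₀ (n := 10) (by norm_num) hw0.le ?_
    rw [hw10]; exact_mod_cast hr4
  have hr0 : (0 : ℝ) < r := lt_of_lt_of_le (by positivity) hr3
  have hsr : Lam q ^ (C + 3 * k + 5) ≤ Real.sqrt r := by
    rw [Real.le_sqrt (by positivity) hr0.le, ← pow_mul']; exact hr3
  have hL3 : 1 ≤ L ^ 3 := one_le_pow₀ hL1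
  have key : ∀ p ∈ R, ‖Mix Φ σ ε q ρ p.1 p.2‖ ≤ e₁ / Lam q ^ 2 := by
    intro p hp
    obtain ⟨hu, hv⟩ := hRs hp
    have hu' := exp_neg_le_window hq0 hL0 hu
    have hv' := exp_neg_le_window hq0 hL0 hv
    have h2 := (hC σ ε q ρ p.1 p.2 hq hρ (by linarith [(abs_le.1 hu).1])
      (by linarith [(abs_le.1 hv).1])).1 r hr1 hr2
    have a0 : ∀ x : ℝ, x ≤ Real.sqrt q * L ^ 3 → r * x / q ≤ L ^ 3 / w ^ 4 := by
      intro x hx
      calc r * x / q ≤ r * (Real.sqrt q * L ^ 3) / q := by gcongr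
        _ ≤ w * (Real.sqrt q * L ^ 3) / q := by gcongr
        _ = _ := by rw [hsq, ← hw10]; field_simp
    have a1 : r * Real.exp (-p.2) / q ≤ L ^ 3 / w ^ 2 :=
      (a0 _ hv').trans (by gcongr; norm_num)
    have a2 : Real.exp (-p.1) / Real.sqrt (r * q) ≤ L ^ 3 / Lam q ^ (C + 3 * k + 5) := by
      rw [Real.sqrt_mul hr0.le]
      have : 0 < Real.sqrt q := Real.sqrt_pos.2 hqR
      have : 0 < Real.sqrt r := Real.sqrt_pos.2 hr0
      calc _ ≤ Real.sqrt q * L ^ 3 / (Real.sqrt r * Real.sqrt q) := by gcongr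
        _ = L ^ 3 / Real.sqrt r := by field_simp
        _ ≤ _ := by gcongr
    have a3 : Real.sqrt (r * Real.exp (-p.1) / q) ≤ L ^ 3 / w ^ 2 := by
      rw [Real.sqrt_le_left (by positivity)]
      refine (a0 _ hu').trans ?_
      rw [div_pow, ← pow_mul w]
      gcongr; nlinarith
    have a4 : 1 / (q : ℝ) ≤ L ^ 3 / w ^ 2 := by
      rw [← hw10]; gcongr; norm_num
    refine le_of_sq_le_sq (h2.trans ?_) (by positivity)
    rw [hw2] at hs
    rw [div_le_iff₀ (by positivity)] at hΛ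
    calc _ ≤ Lam q ^ C * (L ^ 3 / w ^ 2 + L ^ 3 / Lam q ^ (C + 3 * k + 5) + L ^ 3 / w ^ 2 +
          L ^ 3 / w ^ 2) := by gcongr
      _ = (3 * (Lam q ^ (C + 3 * k + 4) / w ^ 2) + 1 / Lam q) / Lam q ^ 4 := by
          rw [hL]; field_simp; ring
      _ ≤ (3 * (e₁ ^ 2 / 6) + e₁ ^ 2 / 2) / Lam q ^ 4 := by
          have b1 : Lam q ^ (C + 3 * k + 4) / w ^ 2 ≤ e₁ ^ 2 / 6 := by
            rwa [div_le_iff₀ (by positivity)]
          have b2 : 1 / Lam q ≤ e₁ ^ 2 / 2 := by rw [div_le_iff₀ hΛ0]; linarith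
          exact div_le_div_of_nonneg_right (by linarith) (by positivity)
      _ = _ := by field_simp; ring
  refine (norm_integral_window (by linarith) (by positivity) hRs key).trans ?_
  have h3 : Real.log L ≤ k * Lam q := by
    rw [hL, Real.log_pow]; gcongr
    exact (Real.log_le_sub_one_of_pos hΛ0).trans (by linarith)
  calc _ ≤ e₁ / Lam q ^ 2 * (4 * (3 * (k * Lam q)) ^ 2) := by gcongr
    _ = e₁ * (36 * k ^ 2) := by field_simp; ring
    _ ≤ e₁ * (36 * k ^ 2 + 1) := by gcongr; linarith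
    _ = e := by rw [he₁]; field_simp

end MR
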