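import Pool.Agent.P.MP_79de8b_nt.Basic

/-! Continuity, trivial bounds and integrability of the correlations (MP_79de8b_nt). -/

open Complex UpperHalfPlane MeasureTheory Finset CongruenceSubgroup Filter Topology
open scoped Real MatrixGroups ComplexConjugate

noncomputable section
namespace MR
namespace Ct

/-- Upper tail majorant. -/
def mp (a u : ℝ) : ℝ := (Set.Ioi a).indicator (fun u => Real.exp (-u)) u

/-- Lower tail majorant. -/
def mm (L a u : ℝ) : ℝ := (Set.Iic (-L - a)).indicator (fun u => Real.exp (u + L)) u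

/-- Global majorant. -/
def mj (L u : ℝ) : ℝ := mp 0 u + (Set.Icc (-L) 0).indicator (fun _ => (1 : ℝ)) u + mm L 0 u

lemma mp_nonneg (a u : ℝ) : 0 ≤ mp a u :=
  Set.indicator_nonneg (fun _ _ => (Real.exp_pos _).le) _

lemma mm_nonneg (L a u : ℝ) : 0 ≤ mm L a u :=
  Set.indicator_nonneg (fun _ _ => (Real.exp_pos _).le) _

lemma mid_nonneg (L u : ℝ) : 0 ≤ (Set.Icc (-L) 0).indicator (fun _ => (1 : ℝ)) u :=
  Set.indicator_nonneg (fun _ _ => zero_le_one) _

lemma mj_nonneg (L u : ℝ) : 0 ≤ mj L u :=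
  add_nonneg (add_nonneg (mp_nonneg _ _) (mid_nonneg _ _)) (mm_nonneg _ _ _)

lemma integrable_mp (a : ℝ) : Integrable (mp a) :=
  (integrable_indicator_iff measurableSet_Ioi).2 (integrableOn_exp_neg_Ioi a)

lemma integral_mp (a : ℝ) : ∫ u, mp a u = Real.exp (-a) := by
  unfold mp
  rw [integral_indicator measurableSet_Ioi, integral_exp_neg_Ioi]

lemma integrable_mm (L a : ℝ) : Integrable (mm L a) := by
  refine (integrable_indicator_iff measurableSet_Iic).2 ?_
  simp_rw [Real.exp_add]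
  exact (integrableOn_exp_Iic _).mul_const _

lemma integral_mm (L a : ℝ) : ∫ u, mm L a u = Real.exp (-a) := by
  unfold mm
  rw [integral_indicator measurableSet_Iic]
  simp_rw [Real.exp_add]
  rw [integral_mul_const, integral_exp_Iic, ← Real.exp_add]
  congr 1; ring

lemma integrable_mid (L : ℝ) :
    Integrable (fun u => (Set.Icc (-L) 0).indicator (fun _ => (1 : ℝ)) u) :=
  (integrable_indicator_iff measurableSet_Icc).2 (continuous_const.integrableOn_Icc)

lemma integrable_mj (L : ℝ) : Integrable (mj L) :=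
  ((integrable_mp 0).add (integrable_mid L)).add (integrable_mm L 0)

lemma integral_mj {L : ℝ} (hL : 0 ≤ L) : ∫ u, mj L u = L + 2 := by
  unfold mj
  have h1 : Integrable fun u => mp 0 u + (Set.Icc (-L) 0).indicator (fun _ => (1 : ℝ)) u :=
    (integrable_mp 0).add (integrable_mid L)
  rw [integral_add h1 (integrable_mm L 0),
    integral_add (integrable_mp 0) (integrable_mid L), integral_mp, integral_mm,
    integral_indicator measurableSet_Icc]
  simp [hL]
  ring

/-- The three bounds give the majorants. -/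
lemma le_mj {L K u t : ℝ} (hK : 0 ≤ K) (h1 : t ≤ K) (h2 : t ≤ K * Real.exp (-u))
    (h3 : t ≤ K * Real.exp (u + L)) : t ≤ K * mj L u := by
  have a1 := mp_nonneg 0 u
  have a2 := mid_nonneg L u
  have a3 := mm_nonneg L 0 u
  unfold mj
  by_cases hu : 0 < u
  · have : mp 0 u = Real.exp (-u) := Set.indicator_of_mem (Set.mem_Ioi.2 hu) _
    refine h2.trans (mul_le_mul_of_nonneg_left ?_ hK)
    linarith
  by_cases hv : u ≤ -L - 0
  · have : mm L 0 u = Real.exp (u + L) := Set.indicator_of_mem (Set.mem_Iic.2 hv) _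
    refine h3.trans (mul_le_mul_of_nonneg_left ?_ hK)
    linarith
  · have : (Set.Icc (-L) 0).indicator (fun _ => (1 : ℝ)) u = 1 :=
      Set.indicator_of_mem (Set.mem_Icc.2 ⟨by linarith, by linarith⟩) _
    calc t ≤ K * 1 := by linarith
      _ ≤ _ := mul_le_mul_of_nonneg_left (by linarith) hK

lemma continuous_av {X : Type*} [TopologicalSpace X] (s : Finset ℕ) (φ : ℕ → X → ℂ)
    (h : ∀ x, Continuous (φ x)) : Continuous fun p => av s fun x => φ x p := by
  unfold av
  exact (continuous_finsetSum _ fun x _ => h x).div_const _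

lemma integrable_av {X : Type*} [MeasurableSpace X] {μ : Measure X} (s : Finset ℕ)
    (φ : ℕ → X → ℂ) (h : ∀ x ∈ s, Integrable (φ x) μ) :
    Integrable (fun p => av s fun x => φ x p) μ := by
  unfold av
  exact (integrable_finsetSum _ h).div_const _

lemma integral_av {X : Type*} [MeasurableSpace X] {μ : Measure X} (s : Finset ℕ)
    (φ : ℕ → X → ℂ) (h : ∀ x ∈ s, Integrable (φ x) μ) :
    ∫ p, (av s fun x => φ x p) ∂μ = av s fun x => ∫ p, φ x p ∂μ := by
  unfold av
  rw [integral_div, integral_finsetSum _ h]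

lemma integrable_cj {X : Type*} [MeasurableSpace X] {μ : Measure X} (ε : Bool) {f : X → ℂ}
    (h : Integrable f μ) : Integrable (fun x => cj ε (f x)) μ :=
  h.norm.mono' ((continuous_cj ε).comp_aestronglyMeasurable h.1)
    (Eventually.of_forall fun x => (norm_cj ε (f x)).le)

/-- Splitting the plane along the diagonal. -/
lemma integral_split (ε : Bool) {C : ℝ → ℝ → ℂ} (hi : Integrable fun p : ℝ × ℝ => C p.1 p.2)
    (hs : ∀ u u', C u' u = cj ε (C u u')) :
    ∫ p : ℝ × ℝ, C p.1 p.2 = (∫ p in {p : ℝ × ℝ | p.2 ≤ p.1}, C p.1 p.2) +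
      cj ε (∫ p in {p : ℝ × ℝ | p.2 ≤ p.1}, C p.1 p.2) := by
  have hm : MeasurableSet {p : ℝ × ℝ | p.2 ≤ p.1} := measurableSet_le measurable_snd measurable_fst
  rw [← integral_add_compl hm hi, ← integral_cj]
  congr 1
  have hd : (volume : Measure (ℝ × ℝ)) {p : ℝ × ℝ | p.1 = p.2} = 0 := by
    have hmd : MeasurableSet {p : ℝ × ℝ | p.1 = p.2} := measurableSet_eq_fun measurable_fst measurable_snd
    rw [Measure.volume_eq_prod, Measure.prod_apply hmd]
    simp
  have e1 : ({p : ℝ × ℝ | p.2 ≤ p.1}ᶜ : Set (ℝ × ℝ)) =ᵐ[volume] {p : ℝ × ℝ | p.1 ≤ p.2} := by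
    have : ∀ᵐ p : ℝ × ℝ, p.1 ≠ p.2 := by
      rw [ae_iff]; simpa using hd
    filter_upwards [this] with p hp
    apply propext
    change ¬ p.2 ≤ p.1 ↔ p.1 ≤ p.2
    constructor
    · intro h; exact (not_le.1 h).le
    · intro h; exact not_le.2 (lt_of_le_of_ne h hp)
  rw [setIntegral_congr_set e1]
  have hsw : MeasurePreserving (Prod.swap : ℝ × ℝ → ℝ × ℝ) volume volume :=
    Measure.measurePreserving_swap
  have := hsw.setIntegral_preimage_emb MeasurableEquiv.prodComm.measurableEmbedding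
    (fun p : ℝ × ℝ => C p.1 p.2) {p : ℝ × ℝ | p.1 ≤ p.2}
  rw [← this]
  refine setIntegral_congr_fun hm fun p _ => ?_
  exact hs p.1 p.2

end Ct
open Ct

theorem ct (hSer : S_Ser) (hDual : S_Dual) : S_Ct := by
  intro N Φ σ ε q ρ
  have hK : 0 ≤ Φ.K := zero_le_one.trans Φ.one_le
  have hc : ∀ τ, Continuous (fun p : ℝ × ℝ => FF (Φ.G τ) p.1 p.2) :=
    fun τ => (hSer _ _ _ _ (Φ.ser τ)).2.1
  have hb : ∀ τ x u, ‖FF (Φ.G τ) x u‖ ≤ Φ.K ∧ ‖FF (Φ.G τ) x u‖ ≤ Φ.K * Real.exp (-u) :=
    fun τ => (hSer _ _ _ _ (Φ.ser τ)).2.2.2.1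
  have hc' : ∀ τ {X : Type} [TopologicalSpace X] (f g : X → ℝ), Continuous f → Continuous g →
      Continuous fun p => FF (Φ.G τ) (f p) (g p) :=
    fun τ X _ f g hf hg => (hc τ).comp (hf.prodMk hg)
  have hprod : ∀ τ τ' x x' u u', ‖FF (Φ.G τ) x u * cj ε (FF (Φ.G τ') x' u')‖ ≤ Φ.K ^ 2 := by
    intro τ τ' x x' u u'
    rw [norm_mul, norm_cj, sq]
    exact mul_le_mul (hb _ _ _).1 (hb _ _ _).1 (norm_nonneg _) hK
  have hsym : ∀ τ u u', Cor Φ τ ε q ρ u' u = cj ε (Cor Φ τ ε q ρ u u') := by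
    intro τ u u'
    unfold Cor
    rw [← av_cj]
    refine av_congr fun x _ => ?_
    rw [cj_mul, cj_cj, mul_comm]
  refine ⟨?_, ?_, fun h => ?_, fun u u' => ⟨?_, ?_, fun h => ?_, hsym σ u u'⟩, fun hq hρ => ?_⟩
  · exact continuous_av _ (fun x (p : ℝ × ℝ) =>
      FF (Φ.G σ) (x / q) p.1 * cj ε (FF (Φ.G σ) (x / q) p.2)) fun x =>
      (hc' σ _ _ continuous_const continuous_fst).mul
        ((continuous_cj ε).comp (hc' σ _ _ continuous_const continuous_snd))
  · exact continuous_av _ (fun x (p : ℝ × ℝ) =>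
      FF (Φ.G 1) (x / q) p.1 * cj ε (FF (Φ.G σ) (-(iv x (q * N) : ℝ) / q) p.2)) fun x =>
      (hc' 1 _ _ continuous_const continuous_fst).mul
        ((continuous_cj ε).comp (hc' σ _ _ continuous_const continuous_snd))
  · unfold Psi
    refine Continuous.div_const ?_ _
    refine intervalIntegral.continuous_parametric_intervalIntegral_of_continuous'
      (f := fun (p : ℝ × ℝ) (x : ℝ) =>
        FF (Φ.G σ) x p.1 * cj ε (FF (Φ.G σ) x p.2) * ex (-(h * x / N))) ?_ _ _
    refine ((hc' σ _ _ continuous_snd (continuous_fst.comp continuous_fst)).mul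
      ((continuous_cj ε).comp (hc' σ _ _ continuous_snd (continuous_snd.comp continuous_fst)))).mul
      (continuous_ex.comp (by fun_prop))
  · exact norm_av_le (by positivity) fun x _ => hprod _ _ _ _ _ _
  · exact norm_av_le (by positivity) fun x _ => hprod _ _ _ _ _ _
  · unfold Psi
    have hN : (0 : ℝ) < N := by exact_mod_cast Φ.pos
    rw [norm_div, Complex.norm_natCast, div_le_iff₀ hN]
    refine (intervalIntegral.norm_integral_le_of_norm_le_const (C := Φ.K ^ 2) fun x _ => ?_).trans ?_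
    · rw [norm_mul, norm_ex, mul_one]; exact hprod _ _ _ _ _ _
    · rw [sub_zero, abs_of_pos hN]
  · set L : ℝ := 2 * Real.log q with hLdef
    have hL : 0 ≤ L := by
      have : 0 ≤ Real.log q := Real.log_natCast_nonneg q
      positivity
    have hd : ∀ x ∈ UU N q ρ, ∀ u, ‖FF (Φ.G 1) (x / q) u‖ ≤ Φ.K * Real.exp (u + L) := by
      intro x hx u
      rw [(hDual N Φ q ρ hq hρ).1 x hx u, norm_neg]
      refine (hb _ _ _).2.trans (le_of_eq ?_)
      congr 2; ring
    have hmj : ∀ x ∈ UU N q ρ, ∀ u, ‖FF (Φ.G 1) (x / q) u‖ ≤ Φ.K * mj L u :=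
      fun x hx u => le_mj hK (hb _ _ _).1 (hb _ _ _).2 (hd x hx u)
    have hint : ∀ x ∈ UU N q ρ, Integrable (fun u => FF (Φ.G 1) (x / q) u) := by
      intro x hx
      exact ((integrable_mj L).const_mul Φ.K).mono'
        (hc' 1 _ _ continuous_const continuous_id).aestronglyMeasurable
        (Eventually.of_forall (hmj x hx))
    have hint2 : ∀ x ∈ UU N q ρ, Integrable (fun p : ℝ × ℝ =>
        FF (Φ.G 1) (x / q) p.1 * cj ε (FF (Φ.G 1) (x / q) p.2)) := by
      intro x hx
      rw [Measure.volume_eq_prod]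
      exact (hint x hx).mul_prod (integrable_cj ε (hint x hx))
    have hCor : Integrable (fun p : ℝ × ℝ => Cor Φ 1 ε q ρ p.1 p.2) :=
      integrable_av _ (fun x (p : ℝ × ℝ) =>
        FF (Φ.G 1) (x / q) p.1 * cj ε (FF (Φ.G 1) (x / q) p.2)) hint2
    refine ⟨hint, hCor, ?_, fun l₀ hl₀ R hR => ?_⟩
    · rw [← integral_split ε hCor (hsym 1)]
      have := integral_av (UU N q ρ) (fun x (p : ℝ × ℝ) =>
        FF (Φ.G 1) (x / q) p.1 * cj ε (FF (Φ.G 1) (x / q) p.2)) hint2
      unfold Cor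
      rw [this, ← av_const_mul]
      refine av_congr fun x _ => ?_
      rw [Measure.volume_eq_prod, integral_prod_mul (fun u => FF (Φ.G 1) (x / q) u)
        (fun u => cj ε (FF (Φ.G 1) (x / q) u)), integral_cj]
      unfold XX
      have e : (2 * π : ℂ) = ((2 * π : ℝ) : ℂ) := by push_cast; ring
      rw [cj_mul, e, cj_ofReal, ← e]
      ring
    · set S : Set (ℝ × ℝ) := {p | l₀ < p.1 ∨ p.2 < -L - l₀} with hS
      have hSm : MeasurableSet S :=
        (measurableSet_lt measurable_const measurable_fst).union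
          (measurableSet_lt measurable_snd measurable_const)
      have g1 : Integrable (fun p : ℝ × ℝ => mp l₀ p.1 * mj L p.2) := by
        rw [Measure.volume_eq_prod]; exact (integrable_mp l₀).mul_prod (integrable_mj L)
      have g2 : Integrable (fun p : ℝ × ℝ => mj L p.1 * mm L l₀ p.2) := by
        rw [Measure.volume_eq_prod]; exact (integrable_mj L).mul_prod (integrable_mm L l₀)
      have g3 : Integrable (fun p : ℝ × ℝ =>
          Φ.K ^ 2 * (mp l₀ p.1 * mj L p.2 + mj L p.1 * mm L l₀ p.2)) := (g1.add g2).const_mul _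
      have gn : ∀ p : ℝ × ℝ, 0 ≤ mp l₀ p.1 * mj L p.2 ∧ 0 ≤ mj L p.1 * mm L l₀ p.2 := fun p =>
        ⟨mul_nonneg (mp_nonneg _ _) (mj_nonneg _ _), mul_nonneg (mj_nonneg _ _) (mm_nonneg _ _ _)⟩
      have hpt : ∀ p ∈ S, ‖Cor Φ 1 ε q ρ p.1 p.2‖ ≤
          Φ.K ^ 2 * (mp l₀ p.1 * mj L p.2 + mj L p.1 * mm L l₀ p.2) := by
        intro p hp
        have := gn p
        refine norm_av_le (mul_nonneg (by positivity) (add_nonneg this.1 this.2)) fun x hx => ?_
        rw [norm_mul, norm_cj]
        rcases hp with hp | hp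
        · have e : mp l₀ p.1 = Real.exp (-p.1) := Set.indicator_of_mem (Set.mem_Ioi.2 hp) _
          calc _ ≤ (Φ.K * mp l₀ p.1) * (Φ.K * mj L p.2) := by
                refine mul_le_mul ?_ (hmj x hx _) (norm_nonneg _)
                  (mul_nonneg hK (mp_nonneg _ _))
                rw [e]; exact (hb _ _ _).2
            _ = Φ.K ^ 2 * (mp l₀ p.1 * mj L p.2) := by ring
            _ ≤ _ := mul_le_mul_of_nonneg_left (by linarith [this.2]) (by positivity)
        · have e : mm L l₀ p.2 = Real.exp (p.2 + L) :=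
            Set.indicator_of_mem (Set.mem_Iic.2 hp.le) _
          calc _ ≤ (Φ.K * mj L p.1) * (Φ.K * mm L l₀ p.2) := by
                refine mul_le_mul (hmj x hx _) ?_ (norm_nonneg _)
                  (mul_nonneg hK (mj_nonneg _ _))
                rw [e]; exact hd x hx _
            _ = Φ.K ^ 2 * (mj L p.1 * mm L l₀ p.2) := by ring
            _ ≤ _ := mul_le_mul_of_nonneg_left (by linarith [this.1]) (by positivity)
      calc _ ≤ ∫ p in R, ‖Cor Φ 1 ε q ρ p.1 p.2‖ := norm_integral_le_integral_norm _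
        _ ≤ ∫ p in S, ‖Cor Φ 1 ε q ρ p.1 p.2‖ :=
            setIntegral_mono_set hCor.norm.integrableOn
              (Eventually.of_forall fun _ => norm_nonneg _) (LE.le.eventuallyLE hR)
        _ ≤ ∫ p in S, Φ.K ^ 2 * (mp l₀ p.1 * mj L p.2 + mj L p.1 * mm L l₀ p.2) :=
            setIntegral_mono_on hCor.norm.integrableOn g3.integrableOn hSm hpt
        _ ≤ ∫ p : ℝ × ℝ, Φ.K ^ 2 * (mp l₀ p.1 * mj L p.2 + mj L p.1 * mm L l₀ p.2) :=
            setIntegral_le_integral g3 (Eventually.of_forall fun p =>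
              mul_nonneg (by positivity) (add_nonneg (gn p).1 (gn p).2))
        _ = _ := by
            rw [integral_const_mul, integral_add g1 g2, Measure.volume_eq_prod,
              integral_prod_mul (mp l₀) (mj L), integral_prod_mul (mj L) (mm L l₀),
              integral_mp, integral_mm, integral_mj hL, hLdef]
            ring

end MR
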