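import Pool.Agent.P.MP_79de8b_nt.Basic

/-! The dual cusp and invariant functions (package Dual of MP_79de8b_nt). -/

open Complex UpperHalfPlane MeasureTheory Finset CongruenceSubgroup Filter Topology
open scoped Real MatrixGroups ComplexConjugate

noncomputable section
namespace MR.Dual

variable {N : ℕ} (Φ : Fam N)

lemma exists_sl (a b c d : ℤ) (h : a * d - b * c = 1) :
    ∃ τ : SL(2, ℤ), τ 0 0 = a ∧ τ 0 1 = b ∧ τ 1 0 = c ∧ τ 1 1 = d :=
  ⟨⟨!![a, b; c, d], by rw [Matrix.det_fin_two_of, h]⟩, rfl, rfl, rfl, rfl⟩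

lemma G_eq_sig (τ : SL(2, ℤ)) (u : ℕ) (h : (N : ℤ) ∣ τ 1 0 - τ 1 1 * u) :
    Φ.G τ = Φ.G (sig u) := by
  have h1 : τ * (sig u)⁻¹ ∈ Gamma0 N := by
    rw [Gamma0_mem, ZMod.intCast_zmod_eq_zero_iff_dvd]
    convert h using 1
    simp [sig, Matrix.SpecialLinearGroup.SL2_inv_expl, Matrix.mul_apply, Fin.sum_univ_two]
    ring
  rw [← Φ.inv _ h1 (sig u), inv_mul_cancel_right]

lemma flip {q ρ x : ℕ} (hq : 0 < q) (hx : x ∈ UU N q ρ) (u : ℝ) :
    FF (Φ.G 1) (x / q) u =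
      -FF (Φ.G (sig (q * ρ % N))) (-(iv x (q * N) : ℝ) / q) (-(2 * Real.log q) - u) := by
  obtain ⟨-, h2, h3⟩ := mem_UU.1 hx
  have hc : 0 < q * N := Nat.mul_pos hq Φ.pos
  have hm := mul_iv_int hc h2
  obtain ⟨k, hk⟩ := hm.symm.dvd
  set y := iv x (q * N) with hy
  push_cast at hk
  obtain ⟨τ, t00, t01, t10, t11⟩ := exists_sl x (N * k) q y (by linear_combination hk)
  have hq' : (0 : ℝ) < q := by exact_mod_cast hq
  have hqc : (q : ℂ) ≠ 0 := by exact_mod_cast hq.ne'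
  have he : Real.exp (-(2 * Real.log q) - u) = (q ^ 2 * Real.exp u)⁻¹ := by
    rw [sub_eq_add_neg, ← neg_add, Real.exp_neg, Real.exp_add,
      show 2 * Real.log q = Real.log (q ^ 2) by rw [Real.log_pow]; norm_num,
      Real.exp_log (by positivity)]
  have hE : (Real.exp u : ℂ) ≠ 0 := by exact_mod_cast (Real.exp_pos u).ne'
  set z := pnt (-(y : ℝ) / q) (Real.exp (-(2 * Real.log q) - u)) with hz
  have hzc : (z : ℂ) = -(y : ℂ) / q + (q ^ 2 * (Real.exp u : ℂ))⁻¹ * Complex.I := by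
    rw [hz, coe_pnt _ (Real.exp_pos _), he]; push_cast; ring
  have hkc : (x : ℂ) * y - 1 = q * N * k := by exact_mod_cast hk
  have hden : (q : ℂ) * z + y = (q * (Real.exp u : ℂ))⁻¹ * Complex.I := by
    rw [hzc]; field_simp; ring
  have hτ : τ • z = pnt (x / q) (Real.exp u) := by
    apply UpperHalfPlane.ext
    rw [coe_smul_sl, coe_pnt _ (Real.exp_pos u), div_eq_iff (den_ne_zero τ z), t00, t01, t10, t11,
      Int.cast_natCast, Int.cast_natCast, Int.cast_natCast, hden, hzc]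
    push_cast
    field_simp
    linear_combination (-(q : ℂ) * cexp u) * hkc - (q : ℂ) * cexp u * Complex.I_sq
  have hG : Φ.G τ = Φ.G (sig (q * ρ % N)) := by
    refine G_eq_sig Φ τ _ ?_
    rw [t10, t11]
    have a1 : ((q * ρ % N : ℕ) : ℤ) ≡ q * x [ZMOD N] := by
      have := Int.natCast_modEq_iff.2 ((Nat.mod_modEq (q * ρ) N).trans (h3.symm.mul_left q))
      push_cast at this ⊢; exact this
    have a2 : (y : ℤ) * ((q * ρ % N : ℕ) : ℤ) ≡ q [ZMOD N] := by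
      refine (a1.mul_left y).trans (Int.modEq_iff_dvd.2 ⟨-(q * q * k), ?_⟩)
      linear_combination (-(q : ℤ)) * hk
    exact a2.dvd
  have hco := Φ.coc 1 τ z
  rw [one_mul, hG, hτ, t10, t11, Int.cast_natCast, Int.cast_natCast, hden] at hco
  unfold FF
  rw [← hz, hco, he]
  push_cast
  field_simp
  rw [Complex.I_sq]; ring

/-- The involution `x ↦ -1 / x` on residues. -/
def jn (c x : ℕ) : ℕ := (-(x : ZMod c)⁻¹).val

lemma jn_lt {c : ℕ} (hc : 0 < c) (x : ℕ) : jn c x < c := by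
  have : NeZero c := ⟨hc.ne'⟩; exact ZMod.val_lt _

lemma jn_modEq {c : ℕ} (hc : 0 < c) (x : ℕ) : (jn c x : ℤ) ≡ -(iv x c : ℤ) [ZMOD c] := by
  have : NeZero c := ⟨hc.ne'⟩
  rw [← ZMod.intCast_eq_intCast_iff]; push_cast
  rw [cast_iv hc]; exact ZMod.natCast_zmod_val _

lemma mul_jn {c x : ℕ} (hc : 0 < c) (hx : x.Coprime c) : (x : ℤ) * jn c x ≡ -1 [ZMOD c] := by
  refine ((jn_modEq hc x).mul_left x).trans ?_
  rw [mul_neg]; exact (mul_iv_int hc hx).neg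

lemma coprime_of_mul {c x y : ℕ} (h : (x : ℤ) * y ≡ -1 [ZMOD c]) : y.Coprime c := by
  obtain ⟨k, hk⟩ := h.dvd
  rw [← Nat.isCoprime_iff_coprime]
  exact ⟨-x, -k, by linear_combination hk⟩

lemma modEq_of_mul {c x y a b : ℕ} (h : (x : ℤ) * y ≡ -1 [ZMOD c]) (h' : (a : ℤ) * b ≡ -1 [ZMOD c])
    (hx : x ≡ a [MOD c]) : y ≡ b [MOD c] := by
  obtain ⟨k, hk⟩ := h.dvd
  obtain ⟨k', hk'⟩ := h'.dvd
  obtain ⟨j, hj⟩ := (Int.natCast_modEq_iff.2 hx).dvd
  refine Int.natCast_modEq_iff.1 (Int.modEq_iff_dvd.2 ⟨y * k' - b * k + y * b * j, ?_⟩)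
  linear_combination (y : ℤ) * hk' - b * hk + y * b * hj

lemma jn_jn {c x : ℕ} (hx : x < c) (h : x.Coprime c) : jn c (jn c x) = x := by
  have hc : 0 < c := by omega
  have h1 := mul_jn hc h
  refine Nat.ModEq.eq_of_lt_of_lt ?_ (jn_lt hc _) hx
  exact modEq_of_mul (mul_jn hc (coprime_of_mul h1)) (by rwa [mul_comm] at h1) (Nat.ModEq.refl _)

lemma jn_mem {q a b x : ℕ} (hc : 0 < q * N) (h : (a : ℤ) * b ≡ -1 [ZMOD N])
    (hx : x ∈ UU N q a) : jn (q * N) x ∈ UU N q b := by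
  obtain ⟨-, h2, h3⟩ := mem_UU.1 hx
  have h1 := mul_jn hc h2
  refine mem_UU.2 ⟨jn_lt hc _, coprime_of_mul h1, modEq_of_mul ?_ h h3⟩
  exact h1.of_dvd (by push_cast; exact dvd_mul_left _ _)

lemma av_flip {q ρ : ℕ} (hq : 0 < q) (hN : 0 < N) (hρ : ρ.Coprime N) (φ : ℝ → ℂ)
    (hφ : Function.Periodic φ N) :
    av (UU N q ρ) (fun x => φ (-(iv x (q * N) : ℝ) / q)) =
      av (UU N q (jn N ρ)) fun x => φ (x / q) := by
  have hc : 0 < q * N := Nat.mul_pos hq hN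
  have h1 := mul_jn hN hρ
  have h2 : (jn N ρ : ℤ) * ρ ≡ -1 [ZMOD N] := by rwa [mul_comm] at h1
  have hi : ∀ a, ∀ x ∈ UU N q a, jn (q * N) (jn (q * N) x) = x := fun a x hx =>
    jn_jn (mem_UU.1 hx).1 (mem_UU.1 hx).2.1
  unfold av
  congr 1
  · refine sum_nbij' (jn (q * N)) (jn (q * N)) (fun x hx => jn_mem hc h1 hx)
      (fun x hx => jn_mem hc h2 hx) (hi _) (hi _) fun x _ => ?_
    obtain ⟨k, hk⟩ := (jn_modEq hc x).dvd
    have hq' : (q : ℝ) ≠ 0 := by exact_mod_cast hq.ne'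
    have hk' : -(iv x (q * N) : ℝ) - jn (q * N) x = q * N * k := by exact_mod_cast hk
    rw [← hφ.int_mul k (jn (q * N) x / q)]
    congr 1
    field_simp
    linear_combination hk'
  · congr 1
    exact card_nbij' (jn (q * N)) (jn (q * N)) (fun x hx => jn_mem hc h1 hx)
      (fun x hx => jn_mem hc h2 hx) (hi _) (hi _)

/-! ### Invariant functions -/

/-- The form rescaled to period one. -/
def UU1 (σ : SL(2, ℤ)) (z : ℍ) : ℂ := Φ.G σ (ofComplex (N * z))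

include Φ in
lemma im_mul_pos (z : ℍ) : 0 < ((N : ℂ) * z).im := by
  have := Φ.pos; have := z.im_pos
  simp only [mul_im, natCast_re, coe_im, natCast_im, zero_mul, add_zero]; positivity

lemma UU1_smul (σ : SL(2, ℤ)) {g : SL(2, ℤ)} (hg : g ∈ Gp N) (z : ℍ) :
    UU1 Φ σ (g • z) = ((g 1 0 : ℤ) * (z : ℂ) + (g 1 1 : ℤ)) ^ 2 * UU1 Φ σ z := by
  obtain ⟨h0, h1⟩ := Subgroup.mem_inf.1 hg
  rw [Gamma0_mem, ZMod.intCast_zmod_eq_zero_iff_dvd] at h0
  obtain ⟨k, hk⟩ := h0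
  push_cast at hk
  obtain ⟨ha, hd, -⟩ := (Gamma1_mem N g).1 h1
  have hdet := det_sl g
  obtain ⟨g', t00, t01, t10, t11⟩ := exists_sl (g 0 0) (g 0 1 * N) (N * k) (g 1 1) (by
    rw [hk] at hdet; linear_combination hdet)
  have hg' : g' ∈ CongruenceSubgroup.Gamma N := by
    rw [Gamma_mem, t00, t01, t10, t11]; simp [ha, hd]
  have hγ : σ * g' * σ⁻¹ ∈ Gamma0 N := by
    rw [Gamma0_mem]; exact ((Gamma_mem.1 ((Gamma_normal N).conj_mem _ hg' σ))).2.2.1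
  have hG : Φ.G (σ * g') = Φ.G σ := by rw [← Φ.inv _ hγ σ, inv_mul_cancel_right]
  set w := ofComplex ((N : ℂ) * z) with hw
  have hwc : (w : ℂ) = N * z := coe_ofComplex (im_mul_pos Φ z)
  have e : ((g' 1 0 : ℤ) * (w : ℂ) + (g' 1 1 : ℤ)) = (g 1 0 : ℤ) * (z : ℂ) + (g 1 1 : ℤ) := by
    rw [hwc, hk, t10, t11]; push_cast; ring
  have e' : ((g' 0 0 : ℤ) * (w : ℂ) + (g' 0 1 : ℤ)) = N * ((g 0 0 : ℤ) * (z : ℂ) + (g 0 1 : ℤ)) := by
    rw [hwc, t00, t01]; push_cast; ring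
  have hz : ofComplex ((N : ℂ) * (g • z : ℍ)) = g' • w := by
    apply UpperHalfPlane.ext
    rw [coe_ofComplex (im_mul_pos Φ _), coe_smul_sl, coe_smul_sl, e, e', mul_div_assoc]
  unfold UU1
  rw [hz, Φ.coc, hG, e]

lemma norm_UU1 (σ : SL(2, ℤ)) (z : ℍ) : ‖UU1 Φ σ z‖ ≤ Φ.K / z.im := by
  rw [le_div_iff₀ z.im_pos, mul_comm]
  refine le_trans ?_ ((Φ.ser σ).bd1 (ofComplex (N * z)))
  unfold UU1
  gcongr
  rw [← UpperHalfPlane.coe_im (ofComplex _), coe_ofComplex (im_mul_pos Φ z)]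
  have : (1 : ℝ) ≤ N := by exact_mod_cast Φ.pos
  have := z.im_pos
  simp only [mul_im, natCast_re, coe_im, natCast_im, zero_mul, add_zero]; nlinarith

lemma continuous_UU1 (hSer : S_Ser) (σ : SL(2, ℤ)) : Continuous (UU1 Φ σ) :=
  (hSer _ _ _ _ (Φ.ser σ)).1.comp
    (continuous_ofComplex_comp (continuous_const.mul continuous_coe) (im_mul_pos Φ))

lemma sub_smul (g : SL(2, ℤ)) (ε δ : Bool) (z w : ℍ) :
    cj δ ((g • z : ℍ) : ℂ) - cj ε ((g • w : ℍ) : ℂ) = (cj δ (z : ℂ) - cj ε (w : ℂ)) /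
      (cj δ ((g 1 0 : ℤ) * (z : ℂ) + (g 1 1 : ℤ)) * cj ε ((g 1 0 : ℤ) * (w : ℂ) + (g 1 1 : ℤ))) := by
  have hi : ∀ (s : Bool) (n : ℤ), cj s (n : ℂ) = n := fun s n => by cases s <;> simp
  have h0 : ∀ (s : Bool) (z : ℍ), cj s ((g 1 0 : ℤ) * (z : ℂ) + (g 1 1 : ℤ)) ≠ 0 := fun s z => by
    rw [← norm_ne_zero_iff, norm_cj, norm_ne_zero_iff]; exact den_ne_zero g z
  have h1 := h0 δ z
  have h2 := h0 ε w
  have hdet : ((g 0 0 : ℤ) : ℂ) * (g 1 1 : ℤ) - (g 0 1 : ℤ) * (g 1 0 : ℤ) = 1 := by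
    exact_mod_cast det_sl g
  rw [coe_smul_sl, coe_smul_sl, cj_div, cj_div, div_sub_div _ _ h1 h2]
  congr 1
  simp only [cj_add, cj_mul, hi]
  linear_combination (cj δ (z : ℂ) - cj ε (w : ℂ)) * hdet

lemma norm_sub_le (ε : Bool) (z w : ℍ) : ‖(z : ℂ) - cj ε (w : ℂ)‖ ≤ ‖(z : ℂ) - conj (w : ℂ)‖ := by
  cases ε
  · rw [cj_false, ← sq_le_sq₀ (norm_nonneg _) (norm_nonneg _), Complex.sq_norm, Complex.sq_norm,
      normSq_apply, normSq_apply]
    have := mul_pos z.im_pos w.im_pos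
    simp only [sub_re, sub_im, conj_re, conj_im, coe_im, coe_re]
    nlinarith
  · rfl

end MR.Dual

namespace MR
open _root_.MR.Dual

theorem dual (hSer : S_Ser) : S_Dual := by
  intro N Φ q ρ hq hρ
  have hp : ∀ u, Function.Periodic (fun x => FF (Φ.G (sig (q * ρ % N))) x u) N := fun u x =>
    (hSer _ _ _ _ (Φ.ser _)).2.2.1 x u
  refine ⟨fun x hx u => flip Φ hq hx u, fun ε u u' => ?_, jn N ρ,
    coprime_of_mul (mul_jn Φ.pos hρ), fun ε u u' => ?_, fun u => ?_⟩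
  · unfold Cor Mix
    rw [← av_neg]
    exact av_congr fun x hx => by rw [flip Φ hq hx u', cj_neg, mul_neg]
  · unfold Cor
    rw [← av_flip hq Φ.pos hρ (fun x => FF (Φ.G (sig (q * ρ % N))) x (-(2 * Real.log q) - u) *
      cj ε (FF (Φ.G (sig (q * ρ % N))) x (-(2 * Real.log q) - u')))
      (fun x => by simp only [hp _ x])]
    exact av_congr fun x hx => by
      rw [flip Φ hq hx u, flip Φ hq hx u', cj_neg, neg_mul_neg]
  · rw [← av_flip hq Φ.pos hρ _ (hp _), ← av_neg]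
    exact av_congr fun x hx => flip Φ hq hx u

theorem inv (hSer : S_Ser) : S_Inv := by
  intro N Φ σ
  have hc := continuous_UU1 Φ hSer σ
  have hK : 0 ≤ Φ.K := by linarith [Φ.one_le]
  refine ⟨fun s ε F hF => ?_, fun F hF => ?_⟩
  · have hF' : F = fun z : HH => cj s (UU1 Φ σ z.1 * cj ε (UU1 Φ σ z.2) *
        ((z.1 : ℂ) - cj ε (z.2 : ℂ)) ^ 2) := by
      rw [hF]; ext z; simp only [cj_mul, kab, UU1]
    rw [hF']
    refine ⟨Continuous.measurable (by fun_prop), fun g hg z => ?_, fun z => ?_⟩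
    · have h1 := sub_smul g ε false z.1 z.2
      have h2 : cj ε ((g 1 0 : ℤ) * (z.2 : ℂ) + (g 1 1 : ℤ)) ≠ 0 := by
        rw [← norm_ne_zero_iff, norm_cj, norm_ne_zero_iff]; exact den_ne_zero g _
      have h3 := den_ne_zero g z.1
      simp only [cj_false] at h1
      simp only [smul_HH, UU1_smul Φ σ hg, h1, cj_mul ε, cj_pow ε]
      congr 1
      field_simp
    · have h1 := z.1.im_pos
      have h2 := z.2.im_pos
      simp only [norm_cj, norm_mul, norm_pow, del]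
      calc _ ≤ Φ.K / z.1.im * (Φ.K / z.2.im) * ‖(z.1 : ℂ) - conj (z.2 : ℂ)‖ ^ 2 := by
            gcongr
            exacts [norm_UU1 Φ σ _, norm_UU1 Φ σ _, norm_sub_le _ _ _]
        _ = _ := by field_simp
  · have hF' : F = fun z : HH => UU1 Φ σ z.2 *
        (((z.2 : ℂ) - z.1) * ((z.2 : ℂ) - conj (z.1 : ℂ)) / (z.1.im : ℝ)) := by
      rw [hF]; ext z; simp only [one_mul, kc, UU1, coe_im]
    rw [hF']
    refine ⟨Continuous.measurable ?_, fun g hg z => ?_, fun z => ?_⟩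
    · refine (hc.comp continuous_snd).mul (Continuous.div (by fun_prop) (by fun_prop) fun z => ?_)
      exact_mod_cast z.1.im_pos.ne'
    · have h1 := sub_smul g false false z.2 z.1
      have h2 := sub_smul g true false z.2 z.1
      have h3 := den_ne_zero g z.1
      have h4 := den_ne_zero g z.2
      have h5 : conj ((g 1 0 : ℤ) * (z.1 : ℂ) + (g 1 1 : ℤ)) ≠ 0 := by
        rw [map_ne_zero]; exact h3
      have h6 : (z.1.im : ℂ) ≠ 0 := by exact_mod_cast z.1.im_pos.ne'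
      simp only [cj_false, cj_true] at h1 h2
      simp only [smul_HH, UU1_smul Φ σ hg, h1, h2, im_smul_sl]
      rw [ofReal_div, ofReal_pow, ← Complex.mul_conj']
      field_simp
    · have h1 := z.1.im_pos
      have h2 := z.2.im_pos
      have h3 : ‖(z.2 : ℂ) - conj (z.1 : ℂ)‖ = ‖(z.1 : ℂ) - conj (z.2 : ℂ)‖ := by
        rw [← Complex.norm_conj, map_sub, Complex.conj_conj, norm_sub_rev]
      have h4 : ‖(z.2 : ℂ) - (z.1 : ℂ)‖ ≤ ‖(z.1 : ℂ) - conj (z.2 : ℂ)‖ := by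
        rw [norm_sub_rev]; exact norm_sub_le false _ _
      simp only [norm_mul, norm_div, del, h3, Complex.norm_real, Real.norm_of_nonneg h1.le]
      calc _ ≤ Φ.K / z.2.im * (‖(z.1 : ℂ) - conj (z.2 : ℂ)‖ * ‖(z.1 : ℂ) - conj (z.2 : ℂ)‖ /
            z.1.im) := by
            gcongr
            exact norm_UU1 Φ σ _
        _ = _ := by field_simp

end MR
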