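import Pool.Agent.P.MP_79de8b_nt.Basic

/-! Packages FC and Ptw for the Mazur-Rubin variance theorem (MP_79de8b_nt). -/

open Complex UpperHalfPlane MeasureTheory Finset CongruenceSubgroup Filter Topology
open scoped Real MatrixGroups ComplexConjugate ENNReal

noncomputable section
namespace MR.FC

/-- The reproducing profile combined with the Poincaré bound. -/
lemma key (hPrA : S_PrA) (hPrB : S_PrB) (hPB : S_PB) {N : ℕ} (hN : 0 < N)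
    {κ : ℂ → ℂ → ℂ} {k : ℕ} {C₀ : ℝ} (hκ : Kap κ k C₀) :
    ∃ C : ℕ, ∀ (K : ℝ) (U₁ U₂ : ℍ → ℂ), MV U₁ → MV U₂ →
      (∀ z : ℍ, U₁ (ofComplex (z + 1)) = U₁ z) → (∀ z : ℍ, U₂ (ofComplex (z + 1)) = U₂ z) →
      ∀ F : HH → ℂ, (F = fun z => U₁ z.1 * U₂ z.2 * κ z.1 z.2) → Measurable F →
      (∀ g ∈ Gp N, ∀ z, F (g • z) = F z) → 0 ≤ K → (∀ z, ‖F z‖ ≤ K * del z) →
      ∀ η₁ η₂ : ℝ, 0 < η₂ → η₂ ≤ η₁ → ∀ (Q H : ℕ) (w : ℕ → ℂ), 1 ≤ Q → (∀ h, ‖w h‖ ≤ 1) →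
      ‖∑ h ∈ (Icc 1 H).filter (Q ∣ ·), w h *
        ∫ x in (0 : ℝ)..1, ((η₁ ^ (k - 1) * η₂ / (h : ℝ) ^ k : ℝ) : ℂ) * U₁ (pnt x (η₁ / h)) *
          U₂ (pnt x (η₂ / h)) * ex (-(h * x))‖ ^ 2 ≤
      C * K ^ 2 * (η₁ / Q) * (1 + η₂) * tau Q ^ C *
      (1 + Real.log (1 + H + 4 * (H : ℝ) ^ 2 / η₁)) ^ 4 *
      Real.sqrt (1 + Q / η₁) * Real.sqrt (1 + (H : ℝ) ^ 2 / ((Q : ℝ) ^ 2 * η₁)) := by
  obtain ⟨A, hA0, hA⟩ := hPrA κ k C₀ hκ
  obtain ⟨B, hB⟩ := hPB N hN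
  refine ⟨max B ⌈(B : ℝ) * A ^ 2⌉₊, ?_⟩
  intro K U₁ U₂ h₁ h₂ p₁ p₂ F hF hm hi hK hb η₁ η₂ h0 hle Q H w hQ hw
  have h1 : 0 < η₁ := h0.trans_le hle
  have e : ∀ h ∈ (Icc 1 H).filter (Q ∣ ·), w h *
      ∫ x in (0 : ℝ)..1, ((η₁ ^ (k - 1) * η₂ / (h : ℝ) ^ k : ℝ) : ℂ) * U₁ (pnt x (η₁ / h)) *
        U₂ (pnt x (η₂ / h)) * ex (-(h * x)) =
      w h * ((∫ z : HH, F z * pt (prf κ k η₁ η₂) h z) / h) := by
    intro h hh
    rw [hPrB κ k C₀ hκ η₁ η₂ h0 hle U₁ U₂ h₁ h₂ p₁ p₂ h (mem_Icc.1 (mem_filter.1 hh).1).1, hF]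
  rw [sum_congr rfl e]
  refine (hB _ η₁ η₂ K _ F (hA η₁ η₂ h0 hle) hm hi hK hb Q H w hQ hw).trans ?_
  have hQ' : (0 : ℝ) < Q := by exact_mod_cast hQ
  have ht : 1 ≤ tau Q := one_le_tau hQ
  have e2 : B * K ^ 2 * (η₁ / η₂) ^ 3 * ((A * η₂ ^ 2 / η₁) ^ 2 / η₂) * (1 + η₂) / Q =
      (B * A ^ 2) * K ^ 2 * (η₁ / Q) * (1 + η₂) := by
    field_simp
  rw [e2]
  have hc : (B : ℝ) * A ^ 2 ≤ ((max B ⌈(B : ℝ) * A ^ 2⌉₊ : ℕ) : ℝ) :=
    (Nat.le_ceil _).trans (by exact_mod_cast le_max_right _ _)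
  have hp : tau Q ^ B ≤ tau Q ^ max B ⌈(B : ℝ) * A ^ 2⌉₊ :=
    pow_le_pow_right₀ ht (le_max_left _ _)
  have hl : 0 ≤ (1 + Real.log (1 + H + 4 * (H : ℝ) ^ 2 / η₁)) ^ 4 := by positivity
  gcongr

lemma coe_scale {N : ℕ} (hN : 0 < N) (z : ℍ) : ((ofComplex (N * (z : ℂ)) : ℍ) : ℂ) = N * z :=
  coe_ofComplex (by
    have : (0 : ℝ) < N := by exact_mod_cast hN
    simpa using mul_pos this z.im_pos)

/-- Periodicity of the rescaled function. -/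
lemma per {P : ℕ} {K : ℝ} {b : ℕ → ℂ} {g : ℍ → ℂ} (h : Ser P K b g) (z : ℍ) :
    g (ofComplex (P * ((ofComplex ((z : ℂ) + 1) : ℍ) : ℂ))) = g (ofComplex (P * (z : ℂ))) := by
  have hz : ((ofComplex ((z : ℂ) + 1) : ℍ) : ℂ) = z + 1 :=
    coe_ofComplex (by simpa using z.im_pos)
  have h1 := h.hs (ofComplex (P * ((ofComplex ((z : ℂ) + 1) : ℍ) : ℂ)))
  have h2 := h.hs (ofComplex (P * (z : ℂ)))
  rw [coe_scale h.pos] at h1 h2
  refine h1.unique ?_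
  convert h2 using 3 with n
  have hP : (P : ℂ) ≠ 0 := by exact_mod_cast h.pos.ne'
  rw [hz, show 2 * π * Complex.I * n * (P * ((z : ℂ) + 1)) / P =
    2 * π * Complex.I * n * (P * (z : ℂ)) / P + n * (2 * π * Complex.I) by field_simp,
    Complex.exp_add, Complex.exp_nat_mul_two_pi_mul_I, mul_one]

lemma scale_pnt {N : ℕ} (x : ℝ) {y : ℝ} (hy : 0 < y) :
    ofComplex (N * ((pnt x y : ℍ) : ℂ)) = pnt (N * x) (N * y) := by
  rw [coe_pnt x hy]; unfold pnt; congr 1; push_cast; ring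

lemma mv_one : MV (fun _ => 1) :=
  ⟨continuous_const, fun _ _ _ _ => by simp⟩

lemma mv_cj {U : ℍ → ℂ} (h1 : MV U) (h2 : MV fun z => conj (U z)) (s : Bool) :
    MV (fun z => cj s (U z)) ∧ MV fun z => conj (cj s (U z)) := by
  cases s
  · exact ⟨h1, h2⟩
  · refine ⟨h2, ?_⟩
    simpa using h1

lemma iintegral_cj (s : Bool) (f : ℝ → ℂ) :
    cj s (∫ x in (0 : ℝ)..1, f x) = ∫ x in (0 : ℝ)..1, cj s (f x) := by
  rw [intervalIntegral.integral_of_le zero_le_one, intervalIntegral.integral_of_le zero_le_one,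
    integral_cj]

lemma resc {N : ℕ} (hN : 0 < N) (f : ℝ → ℂ) :
    (∫ x in (0 : ℝ)..N, f x) / N = ∫ x in (0 : ℝ)..1, f (N * x) := by
  have hN' : (N : ℝ) ≠ 0 := by positivity
  rw [intervalIntegral.integral_comp_mul_left f hN']
  simp [div_eq_inv_mul]

lemma exp_height {N h : ℕ} (hN : 0 < N) (hh : 1 ≤ h) (t : ℝ) :
    Real.exp (t - Real.log (h / N)) = N * (Real.exp t / h) := by
  have hN' : (0 : ℝ) < N := by exact_mod_cast hN
  have hh' : (0 : ℝ) < h := by exact_mod_cast hh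
  rw [Real.exp_sub, Real.exp_log (by positivity)]; field_simp

lemma FF_scale {N h : ℕ} (hN : 0 < N) (hh : 1 ≤ h) (g : ℍ → ℂ) (t x : ℝ) :
    FF g (N * x) (t - Real.log (h / N)) =
      ((N * (Real.exp t / h) : ℝ) : ℂ) * g (ofComplex (N * ((pnt x (Real.exp t / h) : ℍ) : ℂ))) := by
  have hh' : (0 : ℝ) < h := by exact_mod_cast hh
  unfold FF
  rw [exp_height hN hh, scale_pnt x (by positivity)]

lemma psi_eq {N : ℕ} (Φ : Fam N) (σ : SL(2, ℤ)) (s ε : Bool) {h : ℕ} (hh : 1 ≤ h) (t t' : ℝ) :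
    cj s (Psi Φ σ ε (-sg s * h) (t - Real.log (h / N)) (t' - Real.log (h / N))) =
      (N : ℂ) ^ 2 * ∫ x in (0 : ℝ)..1,
        ((Real.exp t ^ (2 - 1) * Real.exp t' / (h : ℝ) ^ 2 : ℝ) : ℂ) *
        cj s (Φ.G σ (ofComplex (N * ((pnt x (Real.exp t / h) : ℍ) : ℂ)))) *
        cj s (cj ε (Φ.G σ (ofComplex (N * ((pnt x (Real.exp t' / h) : ℍ) : ℂ))))) *
        ex (-(h * x)) := by
  have hN := Φ.pos
  have hN' : (N : ℝ) ≠ 0 := by positivity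
  have hh' : (h : ℂ) ≠ 0 := by exact_mod_cast (by omega : h ≠ 0)
  unfold Psi
  rw [resc hN, iintegral_cj, ← intervalIntegral.integral_const_mul]
  refine intervalIntegral.integral_congr fun x _ => ?_
  simp only [FF_scale hN hh, cj_mul, cj_ofReal, cj_ex]
  have e : -(sg s * -(((-sg s * h : ℤ) : ℝ) * (N * x) / N)) = -(h * x) := by
    rcases sg_eq s with h1 | h1 <;> rw [h1] <;> push_cast <;> field_simp
  rw [e]; push_cast; field_simp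

end MR.FC

namespace MR
open MR.FC

theorem fc (hSer : S_Ser) (hInv : S_Inv) (hKap : S_Kap) (hPrA : S_PrA) (hPrB : S_PrB)
    (hPB : S_PB) : S_FC := by
  intro N Φ
  have hN := Φ.pos
  have hk := fun s ε => key hPrA hPrB hPB hN (hKap.1 s ε).choose_spec
  choose c hc using hk
  set c₀ : ℕ := c true true + c true false + c false true + c false false with hc₀
  have hcc : ∀ s ε, c s ε ≤ c₀ := by
    intro s ε; cases s <;> cases ε <;> omega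
  refine ⟨c₀ * (N ^ 4 * ⌈Φ.K⌉₊ ^ 4), ?_⟩
  intro σ ε e he t t' Q H w htt hQ hw
  obtain ⟨s, rfl⟩ : ∃ s : Bool, e = -sg s := by
    rcases he with rfl | rfl
    · exact ⟨false, by simp [sg]⟩
    · exact ⟨true, by simp [sg]⟩
  obtain ⟨-, -, -, -, -, -, -, -, -, -, -, m1, m2⟩ := hSer N Φ.K (Φ.b σ) (Φ.G σ) (Φ.ser σ)
  obtain ⟨n1, n2⟩ := mv_cj m1 m2 ε
  obtain ⟨i1, i2, i3⟩ := (hInv N Φ σ).1 s ε _ rfl
  have hK := Φ.one_le
  have hb := hc s ε (Φ.K ^ 2) _ _ (mv_cj m1 m2 s).1 (mv_cj n1 n2 s).1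
    (fun z => by simp only [per (Φ.ser σ)]) (fun z => by simp only [per (Φ.ser σ)]) _ rfl i1 i2
    (by positivity) i3 (Real.exp t) (Real.exp t') (Real.exp_pos _) (Real.exp_le_exp.2 htt) Q H
    (fun h => cj s (w h)) hQ (fun h => by simpa using hw h)
  rw [← norm_cj s, cj_sum]
  have e : ∀ h ∈ (Icc 1 H).filter (Q ∣ ·),
      cj s (w h * Psi Φ σ ε (-sg s * h) (t - Real.log (h / N)) (t' - Real.log (h / N))) =
      (N : ℂ) ^ 2 * (cj s (w h) * ∫ x in (0 : ℝ)..1,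
        ((Real.exp t ^ (2 - 1) * Real.exp t' / (h : ℝ) ^ 2 : ℝ) : ℂ) *
        cj s (Φ.G σ (ofComplex (N * ((pnt x (Real.exp t / h) : ℍ) : ℂ)))) *
        cj s (cj ε (Φ.G σ (ofComplex (N * ((pnt x (Real.exp t' / h) : ℍ) : ℂ))))) *
        ex (-(h * x))) := by
    intro h hh
    rw [cj_mul, psi_eq Φ σ s ε (mem_Icc.1 (mem_filter.1 hh).1).1]; ring
  rw [sum_congr rfl e, ← mul_sum, norm_mul, mul_pow, norm_pow, Complex.norm_natCast]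
  have ht : 1 ≤ tau Q := one_le_tau hQ
  have hK1 : 1 ≤ ⌈Φ.K⌉₊ := Nat.one_le_iff_ne_zero.2 (Nat.ceil_pos.2 (by linarith)).ne'
  have hM : 1 ≤ N ^ 4 * ⌈Φ.K⌉₊ ^ 4 := Nat.one_le_iff_ne_zero.2 (by positivity)
  have hp : tau Q ^ c s ε ≤ tau Q ^ (c₀ * (N ^ 4 * ⌈Φ.K⌉₊ ^ 4)) :=
    pow_le_pow_right₀ ht ((hcc s ε).trans (Nat.le_mul_of_pos_right _ hM))
  have hq : ((N : ℝ) ^ 2) ^ 2 * (c s ε * (Φ.K ^ 2) ^ 2) ≤
      ((c₀ * (N ^ 4 * ⌈Φ.K⌉₊ ^ 4) : ℕ) : ℝ) := by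
    have a1 : (c s ε : ℝ) ≤ c₀ := by exact_mod_cast hcc s ε
    have a2 : Φ.K ≤ ⌈Φ.K⌉₊ := Nat.le_ceil _
    push_cast
    calc ((N : ℝ) ^ 2) ^ 2 * (c s ε * (Φ.K ^ 2) ^ 2) = c s ε * (N ^ 4 * Φ.K ^ 4) := by ring
      _ ≤ _ := by gcongr
  have hl : 0 ≤ (1 + Real.log (1 + H + 4 * (H : ℝ) ^ 2 / Real.exp t)) ^ 4 := by positivity
  refine (mul_le_mul_of_nonneg_left hb (by positivity)).trans ?_
  calc _ = ((N : ℝ) ^ 2) ^ 2 * (c s ε * (Φ.K ^ 2) ^ 2) * (Real.exp t / Q) * (1 + Real.exp t') *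
        tau Q ^ c s ε * (1 + Real.log (1 + H + 4 * (H : ℝ) ^ 2 / Real.exp t)) ^ 4 *
        Real.sqrt (1 + Q / Real.exp t) *
        Real.sqrt (1 + (H : ℝ) ^ 2 / ((Q : ℝ) ^ 2 * Real.exp t)) := by ring
    _ ≤ _ := by gcongr

theorem ptw (hSer : S_Ser) (hInv : S_Inv) (hKap : S_Kap) (hPrA : S_PrA) (hPrB : S_PrB)
    (hPB : S_PB) : S_Ptw := by
  intro N Φ
  have hN := Φ.pos
  obtain ⟨c, hc⟩ := key hPrA hPrB hPB hN hKap.2.choose_spec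
  obtain ⟨D, hD1, hD⟩ := exists_tau_pow_le (c * 20)
  have hK := Φ.one_le
  set M : ℝ := Real.exp (2 * π) ^ 2 * (c * Φ.K ^ 2 * 2 * D * 166 ^ 4 * 2 * 2) with hM
  have hM0 : 0 ≤ M := by positivity
  refine ⟨1 + M, by linarith, fun σ n => ?_⟩
  rcases Nat.eq_zero_or_pos n with rfl | hn
  · simp [(Φ.ser σ).b0]
  obtain ⟨-, -, -, -, -, -, -, -, -, -, hcf, m1, -⟩ := hSer N Φ.K (Φ.b σ) (Φ.G σ) (Φ.ser σ)
  obtain ⟨i1, i2, i3⟩ := (hInv N Φ σ).2 _ rfl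
  have hb := hc Φ.K _ _ mv_one m1 (fun _ => rfl) (fun z => per (Φ.ser σ) z) _ rfl i1 i2
    (by linarith) i3 1 1 one_pos le_rfl n n (fun _ => 1) hn (fun _ => by simp)
  have hf : (Icc 1 n).filter (n ∣ ·) = {n} := by
    ext h
    simp only [mem_filter, mem_Icc, mem_singleton]
    constructor
    · rintro ⟨⟨h1, h2⟩, h3⟩
      exact le_antisymm h2 (Nat.le_of_dvd h1 h3)
    · rintro rfl; exact ⟨⟨hn, le_rfl⟩, dvd_rfl⟩
  have hn' : (0 : ℝ) < n := by exact_mod_cast hn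
  have hN' : (0 : ℝ) < N := by exact_mod_cast hN
  have hnc : (n : ℂ) ≠ 0 := by exact_mod_cast hn.ne'
  have hNc : (N : ℂ) ≠ 0 := by exact_mod_cast hN.ne'
  have hI : ∫ x in (0 : ℝ)..1, (((1 : ℝ) ^ (1 - 1) * 1 / (n : ℝ) ^ 1 : ℝ) : ℂ) * 1 *
      Φ.G σ (ofComplex (N * ((pnt x (1 / n) : ℍ) : ℂ))) * ex (-(n * x)) =
      Φ.b σ n * ((Real.exp (-(2 * π)) / n : ℝ) : ℂ) := by
    have h1 := hcf n (0 - Real.log (n / N))
    rw [resc hN] at h1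
    simp only [FF_scale hN hn, Real.exp_zero] at h1
    unfold cf at h1
    rw [exp_height hN hn, Real.exp_zero,
      show 2 * π * n * (N * (1 / n : ℝ)) / N = 2 * π by field_simp] at h1
    apply mul_left_cancel₀ hNc
    rw [← intervalIntegral.integral_const_mul]
    refine Eq.trans (intervalIntegral.integral_congr fun x _ => ?_) (h1.trans ?_)
    · rw [show (n : ℝ) * (N * x) / N = n * x by field_simp]
      push_cast; field_simp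
    · push_cast; field_simp
  rw [hf, sum_singleton, one_mul, hI, norm_mul, Complex.norm_real, Real.norm_eq_abs,
    abs_of_pos (by positivity)] at hb
  set y : ℝ := (n : ℝ) ^ (1 / 80 : ℝ) with hy
  have hn1 : (1 : ℝ) ≤ n := by exact_mod_cast hn
  have hy1 : 1 ≤ y := Real.one_le_rpow hn1 (by norm_num)
  have hy80 : y ^ 80 = n := by
    rw [hy, ← Real.rpow_natCast, ← Real.rpow_mul hn'.le]; norm_num
  have hy64 : (n : ℝ) ^ (4 / 5 : ℝ) = y ^ 64 := by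
    rw [hy, ← Real.rpow_natCast, ← Real.rpow_mul hn'.le]; norm_num
  have b1 : tau n ^ c ≤ D * y ^ 4 := by
    refine le_of_pow_le_pow_left₀ (n := 20) (by norm_num) (by positivity) ?_
    rw [← pow_mul, mul_pow, ← pow_mul, hy80]
    refine (hD n hn).trans ?_
    gcongr
    exact le_self_pow₀ hD1 (by norm_num)
  have b2 : 1 + Real.log (1 + n + 4 * (n : ℝ) ^ 2 / 1) ≤ 166 * y := by
    have h1 : Real.log (1 + n + 4 * (n : ℝ) ^ 2 / 1) ≤ Real.log (6 * (n : ℝ) ^ 2) :=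
      Real.log_le_log (by positivity) (by nlinarith)
    rw [Real.log_mul (by norm_num) (by positivity), Real.log_pow] at h1
    have h2 : Real.log 6 ≤ 6 - 1 := Real.log_le_sub_one_of_pos (by norm_num)
    have h3 := Real.log_le_rpow_div hn'.le (show (0 : ℝ) < 1 / 80 by norm_num)
    rw [← hy] at h3
    push_cast at h1
    linarith
  have b2' : 0 ≤ 1 + Real.log (1 + n + 4 * (n : ℝ) ^ 2 / 1) := by
    have : 0 ≤ Real.log (1 + n + 4 * (n : ℝ) ^ 2 / 1) := Real.log_nonneg (by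
      have : 0 ≤ 4 * (n : ℝ) ^ 2 / 1 := by positivity
      linarith)
    linarith
  have b3 : Real.sqrt (1 + n / 1) ≤ 2 * y ^ 40 := by
    rw [Real.sqrt_le_left (by positivity), mul_pow, ← pow_mul, hy80]; linarith
  have b4 : Real.sqrt (1 + (n : ℝ) ^ 2 / ((n : ℝ) ^ 2 * 1)) ≤ 2 := by
    rw [Real.sqrt_le_left (by positivity), mul_one, div_self (by positivity)]; norm_num
  have ht := tau_nonneg n
  have hb2 : (‖Φ.b σ n‖ * (Real.exp (-(2 * π)) / n)) ^ 2 ≤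
      c * Φ.K ^ 2 * (1 / n) * (1 + 1) * (D * y ^ 4) * (166 * y) ^ 4 * (2 * y ^ 40) * 2 := by
    refine hb.trans ?_
    gcongr
  have hE := Real.exp_pos (2 * π)
  have hb3 : ‖Φ.b σ n‖ ^ 2 ≤ M * (y ^ 64) ^ 2 := by
    have e1 : ‖Φ.b σ n‖ ^ 2 =
        (‖Φ.b σ n‖ * (Real.exp (-(2 * π)) / n)) ^ 2 * (Real.exp (2 * π) * n) ^ 2 := by
      rw [Real.exp_neg]; field_simp
    rw [e1]
    refine (mul_le_mul_of_nonneg_right hb2 (by positivity)).trans (le_of_eq ?_)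
    rw [hM, ← hy80]
    have : y ≠ 0 := by positivity
    field_simp
    ring
  rw [hy64]
  refine le_of_pow_le_pow_left₀ (n := 2) (by norm_num) (by positivity) (hb3.trans ?_)
  rw [mul_pow]
  gcongr
  nlinarith

end MR
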