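import Pool.Agent.P.MP_79de8b_nt.Basic

/-! The family of translates of a weight two cusp form (MP_79de8b_nt). -/

open Complex UpperHalfPlane MeasureTheory Finset CongruenceSubgroup Filter Topology
open scoped Real MatrixGroups ComplexConjugate ModularForm Manifold

noncomputable section
namespace MR
namespace Fam0

lemma per_of {g : ℍ → ℂ} {P : ℕ} (h : ∀ z : ℍ, g (ModularGroup.T ^ (P : ℤ) • z) = g z) :
    Function.Periodic (g ∘ ofComplex) ((P : ℝ) : ℂ) := by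
  intro w
  by_cases hw : 0 < w.im
  · have h1 : 0 < (w + ((P : ℝ) : ℂ)).im := by simpa using hw
    simp only [Function.comp_apply]
    rw [← h (ofComplex w)]
    congr 1
    apply UpperHalfPlane.ext
    rw [coe_T_zpow_smul, coe_ofComplex h1, coe_ofComplex hw]
    simp
  · have hw' : w.im ≤ 0 := not_lt.1 hw
    have h1 : (w + ((P : ℝ) : ℂ)).im ≤ 0 := by simpa using hw'
    simp only [Function.comp_apply]
    rw [ofComplex_apply_eq_of_im_nonpos h1 hw']

lemma q_pow (P : ℕ) (z : ℂ) (n : ℕ) :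
    Function.Periodic.qParam (P : ℝ) z ^ n = cexp (2 * π * Complex.I * n * z / P) := by
  rw [Function.Periodic.qParam, ← Complex.exp_nat_mul]
  congr 1
  push_cast
  ring

lemma geo_le {s : ℝ} (hs : 0 < s) : s ^ 2 * (Real.exp (-s) / (1 - Real.exp (-s)) ^ 2) ≤ 1 := by
  have h1 : s / 2 ≤ Real.sinh (s / 2) := Real.self_le_sinh_iff.2 (by positivity)
  rw [Real.sinh_eq] at h1
  have he : Real.exp (-s) < 1 := Real.exp_lt_one_iff.2 (by linarith)
  have h2 : Real.exp (-s) = Real.exp (-(s / 2)) * Real.exp (-(s / 2)) := by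
    rw [← Real.exp_add]; congr 1; ring
  have h3 : Real.exp (s / 2) * Real.exp (-(s / 2)) = 1 := by rw [← Real.exp_add]; simp
  have h4 : 0 < Real.exp (-(s / 2)) := Real.exp_pos _
  have h5 : s * Real.exp (-(s / 2)) ≤ 1 - Real.exp (-s) := by
    rw [h2]; nlinarith
  have h6 : 0 ≤ s * Real.exp (-(s / 2)) := by positivity
  rw [← mul_div_assoc, div_le_one (by have := sub_pos.2 he; positivity)]
  calc s ^ 2 * Real.exp (-s) = (s * Real.exp (-(s / 2))) ^ 2 := by rw [h2]; ring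
    _ ≤ _ := by gcongr

lemma coeff_le {g : ℍ → ℂ} {P : ℕ} (hP : 0 < P) {C : ℝ}
    (hper : Function.Periodic (g ∘ ofComplex) ((P : ℝ) : ℂ))
    (hol : MDifferentiable 𝓘(ℂ) 𝓘(ℂ) g) (hb : IsBoundedAtImInfty g)
    (hC : ∀ z : ℍ, z.im * ‖g z‖ ≤ C) {n : ℕ} (hn : 0 < n) :
    ‖(qExpansion (P : ℝ) g).coeff n‖ ≤ C * Real.exp (2 * π) * n := by
  have hP' : (0 : ℝ) < P := by exact_mod_cast hP
  have hP1 : (1 : ℝ) ≤ P := by exact_mod_cast hP
  have hn' : (0 : ℝ) < n := by exact_mod_cast hn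
  have hC0 : 0 ≤ C := le_trans (by have := UpperHalfPlane.I.im_pos; positivity) (hC UpperHalfPlane.I)
  have ht : (0 : ℝ) < 1 / n := by positivity
  rw [qExpansion_coeff_eq_intervalIntegral hP' hper hol hb n ht, norm_mul]
  have key : ∀ u ∈ Set.uIoc (0 : ℝ) P,
      ‖1 / Function.Periodic.qParam (P : ℝ) ((u : ℂ) + ((1 / n : ℝ) : ℂ) * Complex.I) ^ n *
        g ⟨(u : ℂ) + ((1 / n : ℝ) : ℂ) * Complex.I, by simpa using hn⟩‖ ≤
        C * Real.exp (2 * π) * n := by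
    intro u _
    have h1 := hC ⟨(u : ℂ) + ((1 / n : ℝ) : ℂ) * Complex.I, by simpa using hn⟩
    have h2 : (⟨(u : ℂ) + ((1 / n : ℝ) : ℂ) * Complex.I, by simpa using hn⟩ : ℍ).im = 1 / n := by
      simp [← UpperHalfPlane.coe_im]
    rw [h2] at h1
    have h3 : ‖g ⟨(u : ℂ) + ((1 / n : ℝ) : ℂ) * Complex.I, by simpa using hn⟩‖ ≤ C * n := by
      rw [one_div_mul_eq_div, div_le_iff₀ hn'] at h1; exact h1
    have h4 : ‖1 / Function.Periodic.qParam (P : ℝ)
        ((u : ℂ) + ((1 / n : ℝ) : ℂ) * Complex.I) ^ n‖ ≤ Real.exp (2 * π) := by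
      rw [norm_div, norm_one, norm_pow, Function.Periodic.norm_qParam, ← Real.exp_nat_mul, one_div,
        ← Real.exp_neg]
      apply Real.exp_le_exp.2
      have h5 : ((u : ℂ) + ((1 / n : ℝ) : ℂ) * Complex.I).im = 1 / n := by simp
      rw [h5]
      have h6 : -((n : ℝ) * (-2 * π * (1 / n) / P)) = 2 * π / P := by field_simp
      rw [h6]
      exact div_le_self (by positivity) hP1
    rw [norm_mul]
    calc _ ≤ Real.exp (2 * π) * (C * n) := by gcongr
      _ = _ := by ring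
  have h7 := intervalIntegral.norm_integral_le_of_norm_le_const key
  have h8 : ‖(1 : ℂ) / ((P : ℝ) : ℂ)‖ = 1 / P := by simp
  rw [h8]
  refine le_trans (mul_le_mul_of_nonneg_left h7 (by positivity)) (le_of_eq ?_)
  rw [sub_zero, abs_of_pos hP']
  field_simp

lemma ser_of {g : ℍ → ℂ} {P : ℕ} (hP : 0 < P) {C K : ℝ} (hC1 : 1 ≤ C)
    (hK : C * Real.exp (2 * π) * (P : ℝ) ^ 2 ≤ K)
    (hper : Function.Periodic (g ∘ ofComplex) ((P : ℝ) : ℂ))
    (hol : MDifferentiable 𝓘(ℂ) 𝓘(ℂ) g) (hz : IsZeroAtImInfty g)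
    (hC : ∀ z : ℍ, z.im * ‖g z‖ ≤ C) :
    Ser P K (fun n => (qExpansion (P : ℝ) g).coeff n) g := by
  have hP' : (0 : ℝ) < P := by exact_mod_cast hP
  have hP1 : (1 : ℝ) ≤ P := by exact_mod_cast hP
  have hb : IsBoundedAtImInfty g := hz.boundedAtFilter
  have he : 1 ≤ Real.exp (2 * π) := Real.one_le_exp (by positivity)
  have hP2 : (1 : ℝ) ≤ (P : ℝ) ^ 2 := one_le_pow₀ hP1
  have hCe : C ≤ C * Real.exp (2 * π) := le_mul_of_one_le_right (by linarith) he
  have hCK : C * Real.exp (2 * π) ≤ K :=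
    le_trans (le_mul_of_one_le_right (by linarith) hP2) hK
  have h0 : (qExpansion (P : ℝ) g).coeff 0 = 0 := by
    simp [qExpansion_coeff, hz.cuspFunction_apply_zero hP']
  have hbb : ∀ n : ℕ, ‖(qExpansion (P : ℝ) g).coeff n‖ ≤ C * Real.exp (2 * π) * n := by
    intro n
    rcases Nat.eq_zero_or_pos n with rfl | hn
    · simp [h0]
    · exact coeff_le hP hper hol hb hC hn
  have hs : ∀ z : ℍ, HasSum (fun n : ℕ => (qExpansion (P : ℝ) g).coeff n *
      cexp (2 * π * Complex.I * n * z / P)) (g z) := by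
    intro z
    have := hasSum_qExpansion hP' hper hol hb z
    simpa only [smul_eq_mul, q_pow] using this
  refine ⟨hP, by linarith, h0, fun n => (hbb n).trans (by gcongr), hs,
    fun z => by linarith [hC z], fun z => ?_⟩
  have hy := z.im_pos
  set s : ℝ := 2 * π * z.im / P with hs_def
  have hs0 : 0 < s := by positivity
  have hr : Real.exp (-s) < 1 := Real.exp_lt_one_iff.2 (by linarith)
  have hsum := (hasSum_coe_mul_geometric_of_norm_lt_one (𝕜 := ℝ) (r := Real.exp (-s))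
    (by rw [Real.norm_of_nonneg (Real.exp_pos _).le]; exact hr)).mul_left (C * Real.exp (2 * π))
  have h1 : ‖g z‖ ≤ C * Real.exp (2 * π) * (Real.exp (-s) / (1 - Real.exp (-s)) ^ 2) := by
    refine (hs z).norm_le_of_bounded hsum fun n => ?_
    rw [norm_mul, ← q_pow, norm_pow, Function.Periodic.norm_qParam, ← mul_assoc]
    have h2 : -2 * π * (z : ℂ).im / (P : ℝ) = -s := by
      rw [hs_def, UpperHalfPlane.coe_im]; ring
    rw [h2]
    exact mul_le_mul_of_nonneg_right (hbb n) (by positivity)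
  have h3 := geo_le hs0
  have h4 : z.im ≤ s * P := by
    have : s * P = 2 * π * z.im := by rw [hs_def]; field_simp
    rw [this]
    nlinarith [Real.pi_gt_three]
  have h5 : 0 ≤ Real.exp (-s) / (1 - Real.exp (-s)) ^ 2 := by positivity
  calc z.im ^ 2 * ‖g z‖
      ≤ (s * P) ^ 2 * (C * Real.exp (2 * π) * (Real.exp (-s) / (1 - Real.exp (-s)) ^ 2)) := by
        gcongr
    _ = C * Real.exp (2 * π) * (P : ℝ) ^ 2 *
        (s ^ 2 * (Real.exp (-s) / (1 - Real.exp (-s)) ^ 2)) := by ring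
    _ ≤ C * Real.exp (2 * π) * (P : ℝ) ^ 2 * 1 := by gcongr
    _ ≤ K := by linarith

lemma sl_apply (f : ℍ → ℂ) (σ : SL(2, ℤ)) (z : ℍ) :
    f (σ • z) = ((σ 1 0 : ℤ) * (z : ℂ) + (σ 1 1 : ℤ)) ^ 2 * (f ∣[(2 : ℤ)] σ) z := by
  have h := den_ne_zero σ z
  have hd : denom σ z = (σ 1 0 : ℤ) * (z : ℂ) + (σ 1 1 : ℤ) := by
    simp [UpperHalfPlane.denom]
  rw [ModularForm.SL_slash_apply, hd, zpow_neg]
  field_simp

lemma inv_sl {N : ℕ} (f : CuspForm (Gamma0 N) 2) {γ : SL(2, ℤ)} (hγ : γ ∈ Gamma0 N) :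
    (f : ℍ → ℂ) ∣[(2 : ℤ)] γ = f := by
  rw [ModularForm.SL_slash]
  exact SlashInvariantForm.slash_action_eqn f _ ⟨γ, hγ, rfl⟩

lemma inv_mul {N : ℕ} (f : CuspForm (Gamma0 N) 2) {γ : SL(2, ℤ)} (hγ : γ ∈ Gamma0 N)
    (σ : SL(2, ℤ)) : (f : ℍ → ℂ) ∣[(2 : ℤ)] (γ * σ) = (f : ℍ → ℂ) ∣[(2 : ℤ)] σ := by
  rw [SlashAction.slash_mul, inv_sl f hγ]

lemma T_one_zero (n : ℤ) : (ModularGroup.T ^ n) 1 0 = 0 := by
  have := ModularGroup.coe_T_zpow n
  show (ModularGroup.T ^ n).1 1 0 = 0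
  rw [this]; simp

lemma T_one_one (n : ℤ) : (ModularGroup.T ^ n) 1 1 = 1 := by
  have := ModularGroup.coe_T_zpow n
  show (ModularGroup.T ^ n).1 1 1 = 1
  rw [this]; simp

lemma per_T {g : ℍ → ℂ} {n : ℤ} (h : g ∣[(2 : ℤ)] (ModularGroup.T ^ n) = g) (z : ℍ) :
    g (ModularGroup.T ^ n • z) = g z := by
  rw [sl_apply g, h, T_one_zero, T_one_one]; simp

lemma conj_mem {N : ℕ} (σ : SL(2, ℤ)) : σ * ModularGroup.T ^ (N : ℤ) * σ⁻¹ ∈ Gamma0 N := by
  have h1 : ModularGroup.T ^ (N : ℤ) ∈ CongruenceSubgroup.Gamma N := by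
    simpa using ModularGroup_T_pow_mem_Gamma N N dvd_rfl
  have h2 := (Gamma_normal N).conj_mem _ h1 σ
  rw [Gamma0_mem]
  exact (Gamma_mem.1 h2).2.2.1

lemma bd_sl {f : ℍ → ℂ} {C : ℝ} (h : ∀ z : ℍ, z.im * ‖f z‖ ≤ C) (σ : SL(2, ℤ)) (z : ℍ) :
    z.im * ‖(f ∣[(2 : ℤ)] σ) z‖ ≤ C := by
  have h1 := h (σ • z)
  have h2 : 0 < ‖(σ 1 0 : ℤ) * (z : ℂ) + (σ 1 1 : ℤ)‖ := norm_pos_iff.2 (den_ne_zero σ z)
  rw [im_smul_sl, sl_apply f, norm_mul, norm_pow] at h1
  refine le_trans (le_of_eq ?_) h1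
  field_simp

end Fam0

open Fam0 in
theorem fam : S_Fam := by
  intro N _ f h1 hmul
  have hN : 0 < N := NeZero.pos N
  have hN' : (0 : ℝ) < N := by exact_mod_cast hN
  have hN1 : (1 : ℝ) ≤ N := by exact_mod_cast hN
  obtain ⟨C0, hC0⟩ := CuspFormClass.exists_bound (k := 2) (Γ := Gamma0 N) f
  have hC : ∀ z : ℍ, z.im * ‖f z‖ ≤ max C0 1 := by
    intro z
    have h2 := hC0 z
    have h3 : (((2 : ℤ) : ℝ) / 2 : ℝ) = 1 := by norm_num
    rw [h3, Real.rpow_one, le_div_iff₀ z.im_pos] at h2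
    exact le_trans (by linarith) (le_max_left _ _)
  have hC1 : (1 : ℝ) ≤ max C0 1 := le_max_right _ _
  have hperN : ∀ σ : SL(2, ℤ),
      Function.Periodic (((f : ℍ → ℂ) ∣[(2 : ℤ)] σ) ∘ ofComplex) ((N : ℝ) : ℂ) := by
    intro σ
    refine per_of fun z => per_T ?_ z
    rw [← SlashAction.slash_mul, ← inv_mul f (conj_mem (N := N) σ) σ]
    congr 1
    group
  have hper1 : Function.Periodic ((f : ℍ → ℂ) ∘ ofComplex) (((1 : ℕ) : ℝ) : ℂ) := by
    refine per_of fun z => per_T (inv_sl f ?_) z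
    rw [Gamma0_mem, T_one_zero]; simp
  have hol : MDifferentiable 𝓘(ℂ) 𝓘(ℂ) (f : ℍ → ℂ) := CuspFormClass.holo f
  have hone : (f : ℍ → ℂ) ∣[(2 : ℤ)] (1 : SL(2, ℤ)) = f := SlashAction.slash_one _ _
  have hsa : Ser 1 (max C0 1 * Real.exp (2 * π) * (N : ℝ) ^ 2)
      (fun n => (qExpansion (((1 : ℕ) : ℝ)) f).coeff n) f := by
    refine ser_of one_pos hC1 ?_ hper1 hol (CuspFormClass.zero_at_infty f) hC
    gcongr
    exact hN
  refine ⟨⟨fun σ => (f : ℍ → ℂ) ∣[(2 : ℤ)] σ,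
    fun σ n => (qExpansion (N : ℝ) ((f : ℍ → ℂ) ∣[(2 : ℤ)] σ)).coeff n,
    fun n => (qExpansion 1 f).coeff n, max C0 1 * Real.exp (2 * π) * (N : ℝ) ^ 2,
    fun σ => ser_of hN hC1 le_rfl (hperN σ) (hol.slash 2 _)
      (CuspFormClass.zero_at_infty_slash f σ) (bd_sl hC σ), ?_, ?_, ?_, ?_, h1, hmul⟩, hone⟩
  · rw [hone]; simpa only [Nat.cast_one] using hsa
  · intro n
    rw [hone]
    have hp := hperN 1
    rw [hone] at hp
    have han := analyticAt_cuspFunction_zero hN' hp hol (ModularFormClass.bdd_at_infty f)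
    have key := qExpansion_coeff_unique f
      (c := fun m => if N ∣ m then (qExpansion 1 f).coeff (m / N) else 0) hN' han ?_ (N * n)
    · rw [← key]; simp [Nat.mul_div_cancel_left _ hN]
    · intro z
      have hinj : Function.Injective fun n : ℕ => N * n := fun a b h =>
        Nat.eq_of_mul_eq_mul_left hN h
      rw [← hinj.hasSum_iff]
      · have h2 := hsa.hs z
        convert h2 using 1
        funext m
        simp only [Function.comp_apply, smul_eq_mul, q_pow, dvd_mul_right, if_true,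
          Nat.mul_div_cancel_left _ hN, Nat.cast_one]
        congr 2
        have : (N : ℂ) ≠ 0 := by exact_mod_cast hN.ne'
        push_cast
        field_simp
      · intro m hm
        have : ¬ N ∣ m := by
          rintro ⟨k, rfl⟩
          exact hm ⟨k, rfl⟩
        simp [this]
  · intro σ τ z
    rw [SlashAction.slash_mul]
    exact sl_apply _ τ z
  · intro γ hγ σ
    exact inv_mul f hγ σ

end MR
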