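import Mathlib

/-! The objects of the Mazur-Rubin variance conjecture (MP_79de8b_nt). -/

open Complex UpperHalfPlane
open scoped Real

noncomputable section
namespace MR

/-- The modular symbol `⟨r⟩ = 2 π i ∫_{i ∞}^r f(z) dz`, along the vertical line `z = r + i y`
(so `dz = i dy`, and `y` runs from `∞` down to `0`). -/
def symb (f : ℍ → ℂ) (r : ℚ) : ℂ :=
  2 * π * Complex.I * -∫ y in Set.Ioi (0 : ℝ), f (ofComplex (r + y * Complex.I)) * Complex.I

/-- The set `Σ_M` of the fractions `a / M` with `1 ≤ a < M` and `a` prime to `M`. -/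
def SigmaSet (M : ℕ) : Set ℚ := {r | ∃ a : ℕ, 1 ≤ a ∧ a < M ∧ a.Coprime M ∧ r = a / M}

end MR
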