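import Pool.Agent.P.MP_79de8b_nt.Basic
import Pool.Agent.P.MP_79de8b_nt.Sym

/-! From the main theorem to the literal statement (MP_79de8b_nt). -/

open Complex UpperHalfPlane MeasureTheory Finset CongruenceSubgroup Filter Topology
open ProbabilityTheory
open scoped Real MatrixGroups ComplexConjugate

noncomputable section
namespace MR

namespace Fin0

lemma symb_eq {N : ℕ} (Φ : Fam N) (r : ℚ) : symb (Φ.G 1) r = XX Φ r := by
  have h := integral_image_eq_integral_abs_deriv_smul (f := Real.exp) (f' := Real.exp)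
    MeasurableSet.univ (fun x _ => (Real.hasDerivAt_exp x).hasDerivWithinAt)
    Real.exp_injective.injOn (fun y : ℝ => Φ.G 1 (ofComplex (r + y * Complex.I)))
  rw [Set.image_univ, Real.range_exp, Measure.restrict_univ] at h
  unfold symb XX FF pnt
  rw [integral_mul_const, h]
  have e : ∀ x : ℝ, |Real.exp x| • Φ.G 1 (ofComplex (r + Real.exp x * Complex.I)) =
      Real.exp x * Φ.G 1 (ofComplex (((r : ℝ) : ℂ) + Real.exp x * Complex.I)) := fun x => by
    rw [abs_of_pos (Real.exp_pos x), Complex.real_smul, Complex.ofReal_ratCast]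
  simp_rw [e]
  linear_combination (-(2 * π : ℂ) * ∫ x : ℝ, Real.exp x *
    Φ.G 1 (ofComplex (((r : ℝ) : ℂ) + Real.exp x * Complex.I))) * Complex.I_sq

lemma sigma_eq {M : ℕ} (hM : 2 ≤ M) :
    SigmaSet M = ((un M).image fun a : ℕ => (a : ℚ) / M : Finset ℚ) := by
  ext r
  simp only [SigmaSet, Set.mem_ofPred_eq, coe_image, Set.mem_image, mem_coe, mem_un]
  constructor
  · rintro ⟨a, -, h2, h3, rfl⟩; exact ⟨a, ⟨h2, h3⟩, rfl⟩
  · rintro ⟨a, ⟨h2, h3⟩, rfl⟩
    refine ⟨a, Nat.pos_of_ne_zero ?_, h2, h3, rfl⟩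
    rintro rfl
    rw [Nat.coprime_zero_left] at h3; omega

lemma integral_sigma {M : ℕ} (hM : 2 ≤ M) (X : ℚ → ℝ) :
    ∫ r, X r ∂uniformOn (SigmaSet M) = (∑ a ∈ un M, X (a / M)) / (un M).card := by
  have hinj : Set.InjOn (fun a : ℕ => (a : ℚ) / M) (un M) := fun a _ b _ h => by
    have hM' : (M : ℚ) ≠ 0 := by positivity
    exact_mod_cast (div_left_inj' hM').1 h
  have hint : ∀ s : Finset ℚ, IntegrableOn X s Measure.count := fun s => by
    exact .of_bound (by rw [Measure.count_apply_finset]; simp)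
      measurable_from_top.aestronglyMeasurable (∑ r ∈ s, ‖X r‖)
      ((ae_restrict_mem s.measurableSet).mono fun r hr =>
        single_le_sum (f := fun r => ‖X r‖) (fun _ _ => norm_nonneg _) hr)
  rw [sigma_eq hM, uniformOn, ProbabilityTheory.cond, integral_smul_measure,
    setIntegral_finset _ (hint _), sum_image hinj, Measure.count_apply_finset,
    card_image_of_injOn hinj]
  simp [div_eq_inv_mul, Measure.real]

lemma variance_sigma {M : ℕ} (hM : 2 ≤ M) (X : ℚ → ℝ) :
    Var[X; uniformOn (SigmaSet M)] = (∑ a ∈ un M, X (a / M) ^ 2) / (un M).card -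
      ((∑ a ∈ un M, X (a / M)) / (un M).card) ^ 2 := by
  have hc : ((un M).card : ℝ) ≠ 0 := by
    rw [card_un]; exact_mod_cast (Nat.totient_pos.2 (by omega)).ne'
  rw [variance_eq_integral (measurable_from_top.aemeasurable), integral_sigma hM,
    integral_sigma hM]
  simp only [sub_sq, sum_add_distrib, sum_sub_distrib, sum_const, nsmul_eq_mul, ← sum_mul,
    ← mul_sum]
  field_simp
  ring

lemma re_av (s : Finset ℕ) (φ : ℕ → ℂ) : (av s φ).re = (∑ a ∈ s, (φ a).re) / s.card := by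
  unfold av; rw [div_natCast_re, re_sum]

/-- One sign: `w = 1` gives the real part and `w = -i` the imaginary part. -/
lemma one_sign (hMain : S_Main) {N : ℕ} (Φ : Fam N) (w : ℂ) (s : ℝ) (hw : w * w = s)
    (hw' : w * conj w = 1) (Ω : ℝ) :
    ∃ C : ℝ, ∀ d : ℕ, ∃ D : ℝ, Tendsto (fun M : ℕ =>
      Var[fun r => (w * symb (Φ.G 1) r).re / Ω; uniformOn (SigmaSet M)] - C * Real.log M)
      (atTop ⊓ 𝓟 {M | M.gcd N = d}) (𝓝 D) := by
  obtain ⟨c, h0, h⟩ := hMain N Φ
  refine ⟨c / (2 * Ω ^ 2), fun d => ?_⟩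
  obtain ⟨D₁, h₁⟩ := h true d
  obtain ⟨D₂, h₂⟩ := h false d
  refine ⟨(D₁ + s * D₂) / (2 * Ω ^ 2) - (0 / Ω) ^ 2, ?_⟩
  have k0 := (Complex.continuous_re.tendsto _).comp ((h0.const_mul w).mono_left
    (inf_le_left (b := 𝓟 {M : ℕ | M.gcd N = d})))
  have k1 := (Complex.continuous_re.tendsto _).comp h₁
  have k2 := (Complex.continuous_re.tendsto _).comp h₂
  simp only [mul_zero, zero_re, ofReal_re] at k0 k1 k2
  refine (((k1.add (k2.const_mul s)).div_const _).sub ((k0.div_const Ω).pow 2)).congr' ?_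
  filter_upwards [(eventually_ge_atTop 2).filter_mono inf_le_left] with M hM
  have e : ∀ a : ℕ, symb (Φ.G 1) (a / M) = XX Φ (a / M) := fun a => by
    rw [symb_eq]; push_cast; rfl
  have e2 : ∀ z : ℂ, ((w * z).re / Ω) ^ 2 = ((z * conj z).re + s * (z * z).re) / (2 * Ω ^ 2) := by
    intro z
    have a1 : (w * z) * conj (w * z) = z * conj z := by
      rw [map_mul]; linear_combination (z * conj z) * hw'
    have a2 : (w * z) * (w * z) = s * (z * z) := by linear_combination (z * z) * hw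
    rw [← a1, ← re_ofReal_mul, ← a2, div_pow]
    simp only [mul_re (w * z), conj_re, conj_im]
    ring
  rw [variance_sigma hM]
  simp only [Function.comp, e, e2, ← av_const_mul, sub_re, re_av, ofReal_re, cj_true, cj_false,
    if_true, Bool.false_eq_true, if_false, ← sum_div, sum_add_distrib, ← mul_sum]
  ring

lemma lfunction_mult {K : Type*} [Field K] [NumberField K] (E : WeierstrassCurve K) :
    E.LFunction.IsMultiplicative := by
  refine ArithmeticFunction.isMultiplicative_eulerProduct _ fun p => ?_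
  unfold WeierstrassCurve.localEulerFactor WeierstrassCurve.localPowerSeries
  set k := IsLocalRing.ResidueField (p.adicCompletionIntegers K)
  have h1 := PowerSeries.constantCoeff_invOfUnit
    ((E.baseChange (p.adicCompletion K)).localPolynomial (p.adicCompletionIntegers K) :
      PowerSeries ℤ) 1
  rw [inv_one, Units.val_one] at h1
  cases finite_or_infinite k
  · have := Fintype.ofFinite k
    refine ArithmeticFunction.isMultiplicative_ofPowerSeries_of_isPrimePow _ ?_ _ h1
    rw [Nat.card_eq_fintype_card]; exact FiniteField.isPrimePow_card k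
  · rw [Nat.card_eq_zero_of_infinite]
    have : ∀ g : PowerSeries ℤ, g.constantCoeff = 1 →
        ArithmeticFunction.ofPowerSeries 0 g = 1 := fun g hg => by
      simp [ArithmeticFunction.ofPowerSeries, hg]
    rw [this _ h1]; exact ArithmeticFunction.isMultiplicative_one

end Fin0

/-- The variance theorem for cusp forms with multiplicative coefficients. -/
theorem final_mult (hFam : S_Fam) (hMain : S_Main) (N : ℕ) [NeZero N]
    (f : CuspForm (Gamma0 N) 2) (h1 : (qExpansion 1 f).coeff 1 = 1)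
    (hm : ∀ m n : ℕ, m.Coprime n →
      (qExpansion 1 f).coeff (m * n) = (qExpansion 1 f).coeff m * (qExpansion 1 f).coeff n)
    (Ωp Ωm : ℝ) :
    (∃ C : ℝ, ∀ d : ℕ, d ∣ N → ∃ D : ℝ, Tendsto (fun M : ℕ =>
      Var[fun r => (symb f r).re / Ωp; uniformOn (SigmaSet M)] - C * Real.log M)
      (atTop ⊓ 𝓟 {M | M.gcd N = d}) (𝓝 D)) ∧
    ∃ C : ℝ, ∀ d : ℕ, d ∣ N → ∃ D : ℝ, Tendsto (fun M : ℕ =>
      Var[fun r => (symb f r).im / Ωm; uniformOn (SigmaSet M)] - C * Real.log M)
      (atTop ⊓ 𝓟 {M | M.gcd N = d}) (𝓝 D) := by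
  obtain ⟨Φ, hΦ⟩ := hFam N f h1 hm
  rw [← hΦ]
  constructor
  · obtain ⟨C, hC⟩ := Fin0.one_sign hMain Φ 1 1 (by simp) (by simp) Ωp
    exact ⟨C, fun d _ => by simpa only [one_mul] using hC d⟩
  · obtain ⟨C, hC⟩ := Fin0.one_sign hMain Φ (-Complex.I) (-1) (by simp) (by simp) Ωm
    have e : ∀ z : ℂ, (-Complex.I * z).re = z.im := fun z => by simp
    exact ⟨C, fun d _ => by simpa only [e] using hC d⟩

/-- The variance theorem for the cusp form attached to an elliptic curve. -/
theorem final_ec (hFam : S_Fam) (hMain : S_Main) (E : WeierstrassCurve ℚ) (N : ℕ) [NeZero N]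
    (f : CuspForm (Gamma0 N) 2) (hf : ∀ n : ℕ, (qExpansion 1 f).coeff n = (E.LFunction n : ℤ))
    (Ωp Ωm : ℝ) :
    (∃ C : ℝ, ∀ d : ℕ, d ∣ N → ∃ D : ℝ, Tendsto (fun M : ℕ =>
      Var[fun r => (symb f r).re / Ωp; uniformOn (SigmaSet M)] - C * Real.log M)
      (atTop ⊓ 𝓟 {M | M.gcd N = d}) (𝓝 D)) ∧
    ∃ C : ℝ, ∀ d : ℕ, d ∣ N → ∃ D : ℝ, Tendsto (fun M : ℕ =>
      Var[fun r => (symb f r).im / Ωm; uniformOn (SigmaSet M)] - C * Real.log M)
      (atTop ⊓ 𝓟 {M | M.gcd N = d}) (𝓝 D) := by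
  have h := Fin0.lfunction_mult E
  refine final_mult hFam hMain N f ?_ (fun m n hmn => ?_) Ωp Ωm
  · rw [hf, h.1, Int.cast_one]
  · rw [hf, hf, hf, h.2 hmn, Int.cast_mul]

end MR
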