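import Pool.Agent.P.MP_79de8b_nt.Basic

/-! Counting the translates of a point in a cusp sector. -/

open Complex UpperHalfPlane MeasureTheory Finset CongruenceSubgroup Filter Topology
open scoped Real MatrixGroups ComplexConjugate ArithmeticFunction.Moebius

noncomputable section
namespace MR

namespace H1

/-! ### Moebius inversion -/

lemma mob {n M : ℕ} (h0 : n ≠ 0) (h : n ≤ M) :
    ∑ δ ∈ Icc 1 M, (if δ ∣ n then ((μ δ : ℤ) : ℝ) else 0) = if n = 1 then 1 else 0 := by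
  have h1 : (Icc 1 M).filter (· ∣ n) = n.divisors := by
    ext δ
    simp only [mem_filter, mem_Icc, Nat.mem_divisors]
    constructor
    · rintro ⟨-, h2⟩; exact ⟨h2, h0⟩
    · rintro ⟨h2, -⟩
      exact ⟨⟨Nat.pos_of_dvd_of_pos h2 (Nat.pos_of_ne_zero h0),
        (Nat.le_of_dvd (Nat.pos_of_ne_zero h0) h2).trans h⟩, h2⟩
  rw [← sum_filter, h1]
  have h2 := congrArg (fun f : ArithmeticFunction ℤ => f n) ArithmeticFunction.moebius_mul_coe_zeta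
  simp only [ArithmeticFunction.coe_mul_zeta_apply, ArithmeticFunction.one_apply] at h2
  have h3 := congrArg (fun x : ℤ => (x : ℝ)) h2
  push_cast at h3
  exact h3

lemma abs_mu (δ : ℕ) : |((μ δ : ℤ) : ℝ)| ≤ 1 := by
  have := ArithmeticFunction.abs_moebius_le_one (n := δ)
  exact_mod_cast this

lemma sieve (F : Finset (ℤ × ℤ)) (M : ℕ) (hF : ∀ p ∈ F, p ≠ 0 → Int.gcd p.1 p.2 ≤ M) :
    |((F.filter fun p => Int.gcd p.1 p.2 = 1).card : ℝ) - ∑ δ ∈ Icc 1 M, ((μ δ : ℤ) : ℝ) *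
      ((F.filter fun p => δ ∣ Int.gcd p.1 p.2).card : ℝ)| ≤ M := by
  have h1 : ∑ δ ∈ Icc 1 M, ((μ δ : ℤ) : ℝ) * ((F.filter fun p => δ ∣ Int.gcd p.1 p.2).card : ℝ) =
      ∑ p ∈ F, ∑ δ ∈ Icc 1 M, (if δ ∣ Int.gcd p.1 p.2 then ((μ δ : ℤ) : ℝ) else 0) := by
    rw [sum_comm]
    refine sum_congr rfl fun δ _ => ?_
    rw [← sum_filter, sum_const, nsmul_eq_mul, mul_comm]
  have h2 : ((F.filter fun p => Int.gcd p.1 p.2 = 1).card : ℝ) =
      ∑ p ∈ F, (if Int.gcd p.1 p.2 = 1 then (1 : ℝ) else 0) := by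
    rw [← sum_filter, sum_const, nsmul_eq_mul, mul_one]
  rw [h1, h2, ← sum_sub_distrib]
  have h3 : ∀ p ∈ F, p ≠ 0 → (if Int.gcd p.1 p.2 = 1 then (1 : ℝ) else 0) -
      ∑ δ ∈ Icc 1 M, (if δ ∣ Int.gcd p.1 p.2 then ((μ δ : ℤ) : ℝ) else 0) = 0 := by
    intro p hp hp0
    rw [mob (fun h => hp0 ?_) (hF p hp hp0), sub_self]
    rw [Int.gcd_eq_zero_iff] at h
    exact Prod.ext h.1 h.2
  by_cases h0 : (0 : ℤ × ℤ) ∈ F
  · rw [sum_eq_single_of_mem _ h0 h3]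
    simp only [Prod.fst_zero, Prod.snd_zero, Int.gcd_self, Int.natAbs_zero, zero_ne_one,
      if_false, dvd_zero, if_true, zero_sub, abs_neg]
    refine (abs_sum_le_sum_abs _ _).trans ((sum_le_card_nsmul _ _ 1 fun δ _ => abs_mu δ).trans ?_)
    simp
  · rw [sum_eq_zero fun p hp => h3 p hp fun h => h0 (h ▸ hp), abs_zero]
    exact Nat.cast_nonneg _

/-- The coefficients of the singular series. -/
def co (N δ : ℕ) : ℝ := if δ.Coprime N then ((μ δ : ℤ) : ℝ) / (δ : ℝ) ^ 2 else 0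

lemma abs_co (N δ : ℕ) : |co N δ| ≤ ((δ : ℝ) ^ 2)⁻¹ := by
  unfold co
  split_ifs
  · rw [abs_div, abs_of_nonneg (sq_nonneg (δ : ℝ)), ← one_div]
    exact div_le_div_of_nonneg_right (abs_mu δ) (sq_nonneg _)
  · rw [abs_zero]; positivity

lemma tail (N M : ℕ) : |∑' δ, co N δ - ∑ δ ∈ Icc 1 M, co N δ| ≤ 2 / (M + 1) := by
  have hs : Summable (co N) :=
    Summable.of_norm_bounded (Real.summable_nat_pow_inv.2 one_lt_two) (abs_co N)
  have h1 := (hs.hasSum.tendsto_sum_nat.sub_const (∑ δ ∈ Icc 1 M, co N δ)).abs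
  refine le_of_tendsto h1 ((eventually_ge_atTop (M + 1)).mono fun n hn => ?_)
  have h2 : range n = insert 0 (Icc 1 M ∪ Ioo M n) := by
    ext δ; simp only [mem_range, mem_insert, mem_union, mem_Icc, mem_Ioo]; omega
  have h3 : co N 0 = 0 := by
    have := abs_co N 0
    simpa using this
  rw [h2, sum_insert (by simp), sum_union (by
    rw [disjoint_left]; intro δ h h'; rw [mem_Icc] at h; rw [mem_Ioo] at h'; omega), h3, zero_add,
    add_sub_cancel_left]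
  exact (abs_sum_le_sum_abs _ _).trans ((sum_le_sum fun δ _ => abs_co N δ).trans
    (sum_Ioo_inv_sq_le M n))

/-! ### Lattice points -/

/-- Lattice points in a class and in a disc. -/
def LP (N : ℕ) (c₀ d₀ : ℤ) (z : ℍ) (R : ℝ) : Set (ℤ × ℤ) :=
  {p : ℤ × ℤ | p.1 ≡ c₀ [ZMOD N] ∧ p.2 ≡ d₀ [ZMOD N] ∧ ‖(p.1 : ℂ) * z + p.2‖ ≤ R}

lemma half_le {z : ℍ} (hz : 1 / 2 ≤ z.im) {c d : ℤ} (h : c ≠ 0 ∨ d ≠ 0) :
    1 / 2 ≤ ‖(c : ℂ) * z + d‖ := by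
  by_cases hc : c = 0
  · have hd : d ≠ 0 := by tauto
    have h1 : (1 : ℝ) ≤ |(d : ℝ)| := by exact_mod_cast Int.one_le_abs hd
    rw [hc]
    simp only [Int.cast_zero, zero_mul, zero_add, Complex.norm_intCast]
    linarith
  · have h1 : (1 : ℝ) ≤ |(c : ℝ)| := by exact_mod_cast Int.one_le_abs hc
    refine le_trans ?_ (Complex.abs_im_le_norm _)
    have h2 : ((c : ℂ) * z + d).im = c * z.im := by simp
    rw [h2, abs_mul, abs_of_pos z.im_pos]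
    nlinarith

lemma norm_scale (δ : ℕ) (z : ℍ) (c d : ℤ) :
    ‖(((δ : ℤ) * c : ℤ) : ℂ) * z + ((δ : ℤ) * d : ℤ)‖ = δ * ‖(c : ℂ) * z + d‖ := by
  have : (((δ : ℤ) * c : ℤ) : ℂ) * z + ((δ : ℤ) * d : ℤ) = (δ : ℂ) * ((c : ℂ) * z + d) := by
    push_cast; ring
  rw [this, norm_mul, Complex.norm_natCast]

lemma gcd_le {z : ℍ} (hz : 1 / 2 ≤ z.im) {R : ℝ} {p : ℤ × ℤ} (hp : p ≠ 0)
    (h : ‖(p.1 : ℂ) * z + p.2‖ ≤ R) : Int.gcd p.1 p.2 ≤ ⌊2 * R⌋₊ := by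
  obtain ⟨c, hc⟩ := Int.gcd_dvd_left p.1 p.2
  obtain ⟨d, hd⟩ := Int.gcd_dvd_right p.1 p.2
  have h1 : c ≠ 0 ∨ d ≠ 0 := by
    by_contra h1
    push Not at h1
    refine hp (Prod.ext ?_ ?_)
    · rw [hc, h1.1]; simp
    · rw [hd, h1.2]; simp
  have h2 := half_le hz h1
  generalize Int.gcd p.1 p.2 = δ at hc hd ⊢
  rw [hc, hd, norm_scale] at h
  refine Nat.le_floor ?_
  have : (0 : ℝ) ≤ δ := Nat.cast_nonneg _
  nlinarith

lemma dvd_empty {N δ : ℕ} {c₀ d₀ : ℤ} (hcd : IsCoprime c₀ d₀) {p : ℤ × ℤ}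
    (h1 : p.1 ≡ c₀ [ZMOD N]) (h2 : p.2 ≡ d₀ [ZMOD N]) (h : δ ∣ Int.gcd p.1 p.2) :
    δ.Coprime N := by
  have hδ : ((Nat.gcd δ N : ℕ) : ℤ) ∣ (Int.gcd p.1 p.2 : ℕ) :=
    Int.natCast_dvd_natCast.2 ((Nat.gcd_dvd_left δ N).trans h)
  have hN : ((Nat.gcd δ N : ℕ) : ℤ) ∣ (N : ℤ) := Int.natCast_dvd_natCast.2 (Nat.gcd_dvd_right δ N)
  have hc : ((Nat.gcd δ N : ℕ) : ℤ) ∣ c₀ := by
    have := dvd_add (hN.trans h1.dvd) (hδ.trans (Int.gcd_dvd_left p.1 p.2))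
    simpa using this
  have hd : ((Nat.gcd δ N : ℕ) : ℤ) ∣ d₀ := by
    have := dvd_add (hN.trans h2.dvd) (hδ.trans (Int.gcd_dvd_right p.1 p.2))
    simpa using this
  have := hcd.isUnit_of_dvd' hc hd
  rwa [Int.isUnit_iff_natAbs_eq, Int.natAbs_natCast] at this

lemma modeq_iff {N δ u v c c₀ : ℤ} (huv : u * δ + v * N = 1) :
    δ * c ≡ c₀ [ZMOD N] ↔ c ≡ u * c₀ [ZMOD N] := by
  constructor
  · intro h
    obtain ⟨k, hk⟩ := h.dvd
    refine Int.modEq_iff_dvd.2 ⟨u * k - v * c, ?_⟩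
    linear_combination u * hk + c * huv
  · intro h
    obtain ⟨k, hk⟩ := h.dvd
    refine Int.modEq_iff_dvd.2 ⟨δ * k + v * c₀, ?_⟩
    linear_combination δ * hk - c₀ * huv

lemma scale {N δ : ℕ} (hδ : 0 < δ) (h : δ.Coprime N) (c₀ d₀ : ℤ) : ∃ c₁ d₁ : ℤ, ∀ (z : ℍ) (R : ℝ),
    {p | p ∈ LP N c₀ d₀ z R ∧ δ ∣ Int.gcd p.1 p.2}.ncard = (LP N c₁ d₁ z (R / δ)).ncard := by
  obtain ⟨u, v, huv⟩ := Nat.isCoprime_iff_coprime.2 h
  refine ⟨u * c₀, u * d₀, fun z R => ?_⟩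
  have hδ' : (0 : ℝ) < δ := by exact_mod_cast hδ
  have hδ'' : (δ : ℤ) ≠ 0 := by exact_mod_cast hδ.ne'
  have hinj : Function.Injective fun p : ℤ × ℤ => (((δ : ℤ) * p.1, (δ : ℤ) * p.2) : ℤ × ℤ) := by
    intro p q hpq
    simp only [Prod.mk.injEq] at hpq
    exact Prod.ext (mul_left_cancel₀ hδ'' hpq.1) (mul_left_cancel₀ hδ'' hpq.2)
  rw [← Set.ncard_image_of_injective (LP N (u * c₀) (u * d₀) z (R / δ)) hinj]
  congr 1
  ext p
  constructor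
  · rintro ⟨⟨h1, h2, h3⟩, h4⟩
    have h5 : (δ : ℤ) ∣ (Int.gcd p.1 p.2 : ℕ) := Int.natCast_dvd_natCast.2 h4
    obtain ⟨c, hc⟩ := h5.trans (Int.gcd_dvd_left p.1 p.2)
    obtain ⟨d, hd⟩ := h5.trans (Int.gcd_dvd_right p.1 p.2)
    rw [hc] at h1
    rw [hd] at h2
    rw [hc, hd, norm_scale] at h3
    refine ⟨(c, d), ⟨(modeq_iff huv).1 h1, (modeq_iff huv).1 h2, ?_⟩, Prod.ext hc.symm hd.symm⟩
    rw [le_div_iff₀ hδ', mul_comm]
    exact h3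
  · rintro ⟨q, ⟨h1, h2, h3⟩, rfl⟩
    refine ⟨⟨(modeq_iff huv).2 h1, (modeq_iff huv).2 h2, ?_⟩, ?_⟩
    · rw [le_div_iff₀ hδ', mul_comm] at h3
      simpa only [norm_scale] using h3
    · simp only [Int.gcd_mul_left, Int.natAbs_natCast]
      exact dvd_mul_right _ _

/-- The number of primitive lattice points. -/
lemma prim (h : S_H0) {N : ℕ} (hN : 0 < N) : ∃ C : ℝ, 0 ≤ C ∧ ∀ (c₀ d₀ : ℤ) (z : ℍ) (R : ℝ),
    IsCoprime c₀ d₀ → 1 / 2 ≤ z.im → 1 / 2 ≤ R →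
    {p | p ∈ LP N c₀ d₀ z R ∧ Int.gcd p.1 p.2 = 1}.Finite ∧
    |({p | p ∈ LP N c₀ d₀ z R ∧ Int.gcd p.1 p.2 = 1}.ncard : ℝ) -
      π * R ^ 2 / (z.im * N ^ 2) * ∑' δ, co N δ| ≤ C * (R * (1 + Real.log (2 * R))) := by
  classical
  obtain ⟨C, hC⟩ := h N hN
  refine ⟨2 + 3 * |C| + 2 * π, by positivity, fun c₀ d₀ z R hcd hz hR => ?_⟩
  have hfin : (LP N c₀ d₀ z R).Finite := (hC c₀ d₀ z R hz (by linarith)).1
  refine ⟨hfin.subset fun p hp => hp.1, ?_⟩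
  have hcard : ∀ (P : ℤ × ℤ → Prop) [DecidablePred P],
      {p | p ∈ LP N c₀ d₀ z R ∧ P p}.ncard = (hfin.toFinset.filter P).card := by
    intro P _
    rw [← Set.ncard_coe_finset]
    congr 1
    ext p
    simp
  set M := ⌊2 * R⌋₊ with hM
  have hM1 : 1 ≤ M := Nat.le_floor (by push_cast; linarith)
  have hM2 : (M : ℝ) ≤ 2 * R := Nat.floor_le (by linarith)
  have hM3 : 2 * R < M + 1 := Nat.lt_floor_add_one _
  have hy := z.im_pos
  have hN' : (1 : ℝ) ≤ N := by exact_mod_cast hN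
  set A := π * R ^ 2 / (z.im * N ^ 2) with hA
  have hA0 : 0 ≤ A := by positivity
  have hA1 : A ≤ 2 * π * R ^ 2 := by
    rw [hA, div_le_iff₀ (by positivity)]
    have h1 : 1 / 2 ≤ z.im * N ^ 2 := by nlinarith
    have h2 : 0 ≤ π * R ^ 2 := by positivity
    nlinarith
  have e1 := sieve hfin.toFinset M fun p hp hp0 => gcd_le hz hp0 (hfin.mem_toFinset.1 hp).2.2
  have e2 : ∀ δ ∈ Icc 1 M, |((μ δ : ℤ) : ℝ) *
      ((hfin.toFinset.filter fun p => δ ∣ Int.gcd p.1 p.2).card : ℝ) - A * co N δ| ≤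
      |C| * R * (δ : ℝ)⁻¹ + |C| := by
    intro δ hδ
    have hδ0 : 0 < δ := (mem_Icc.1 hδ).1
    have hδ' : (0 : ℝ) < δ := by exact_mod_cast hδ0
    unfold co
    split_ifs with hco
    · obtain ⟨c₁, d₁, h1⟩ := scale hδ0 hco c₀ d₀
      have h2 := (hC c₁ d₁ z (R / δ) hz (by positivity)).2
      rw [← hcard, h1 z R]
      have h3 : ((μ δ : ℤ) : ℝ) * ((LP N c₁ d₁ z (R / δ)).ncard : ℝ) -
          A * (((μ δ : ℤ) : ℝ) / (δ : ℝ) ^ 2) = ((μ δ : ℤ) : ℝ) *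
          (((LP N c₁ d₁ z (R / δ)).ncard : ℝ) - π * (R / δ) ^ 2 / (z.im * N ^ 2)) := by
        rw [hA]; field_simp
      rw [h3, abs_mul]
      calc _ ≤ 1 * (|C| * (R / δ + 1)) := by
            refine mul_le_mul (abs_mu δ) (le_trans h2 ?_) (abs_nonneg _) zero_le_one
            exact mul_le_mul_of_nonneg_right (le_abs_self C) (by positivity)
        _ = _ := by ring
    · rw [filter_eq_empty_iff.2 fun p hp hd => hco (dvd_empty hcd (hfin.mem_toFinset.1 hp).1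
        (hfin.mem_toFinset.1 hp).2.1 hd)]
      simp only [card_empty, Nat.cast_zero, mul_zero, sub_self, abs_zero]
      positivity
  have hl : Real.log M ≤ Real.log (2 * R) :=
    Real.log_le_log (by exact_mod_cast hM1) hM2
  have hl0 : 0 ≤ Real.log (2 * R) := Real.log_nonneg (by linarith)
  have e3 : |∑ δ ∈ Icc 1 M, ((μ δ : ℤ) : ℝ) *
      ((hfin.toFinset.filter fun p => δ ∣ Int.gcd p.1 p.2).card : ℝ) -
      A * ∑ δ ∈ Icc 1 M, co N δ| ≤ |C| * R * (1 + Real.log (2 * R)) + |C| * (2 * R) := by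
    rw [mul_sum, ← sum_sub_distrib]
    refine (abs_sum_le_sum_abs _ _).trans ((sum_le_sum e2).trans ?_)
    rw [sum_add_distrib, ← mul_sum, sum_const, Nat.card_Icc, nsmul_eq_mul, add_tsub_cancel_right,
      mul_comm (M : ℝ)]
    have := sum_inv_le_log M
    gcongr
    linarith
  have e4 : |A * ∑ δ ∈ Icc 1 M, co N δ - A * ∑' δ, co N δ| ≤ 2 * π * R := by
    rw [← mul_sub, abs_mul, abs_of_nonneg hA0, abs_sub_comm]
    have h1 : 2 / ((M : ℝ) + 1) ≤ 1 / R := by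
      rw [div_le_div_iff₀ (by positivity) (by linarith)]; linarith
    calc _ ≤ 2 * π * R ^ 2 * (1 / R) :=
          mul_le_mul hA1 ((tail N M).trans h1) (abs_nonneg _) (by positivity)
      _ = _ := by field_simp
  rw [hcard]
  have e5 := (abs_sub_le _ _ _).trans (add_le_add e1 ((abs_sub_le _ _ _).trans (add_le_add e3 e4)))
  refine e5.trans ?_
  have hC0 := abs_nonneg C
  have hR0 : 0 ≤ R := by linarith
  have h6 : 0 ≤ R * Real.log (2 * R) := mul_nonneg hR0 hl0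
  have h7 := mul_nonneg hC0 h6
  have h8 := mul_nonneg Real.pi_pos.le h6
  nlinarith

/-! ### Matrices and bottom rows -/

lemma ent (g h : SL(2, ℤ)) :
    (g * h⁻¹) 0 0 = g 0 0 * h 1 1 - g 0 1 * h 1 0 ∧ (g * h⁻¹) 0 1 = g 0 1 * h 0 0 - g 0 0 * h 0 1 ∧
    (g * h⁻¹) 1 0 = g 1 0 * h 1 1 - g 1 1 * h 1 0 ∧
    (g * h⁻¹) 1 1 = g 1 1 * h 0 0 - g 1 0 * h 0 1 := by
  refine ⟨?_, ?_, ?_, ?_⟩ <;>
    simp [Matrix.SpecialLinearGroup.SL2_inv_expl, Matrix.mul_apply, Fin.sum_univ_two] <;> ring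

lemma entT (k : ℤ) (g : SL(2, ℤ)) :
    (ModularGroup.T ^ k * g) 0 0 = g 0 0 + k * g 1 0 ∧
    (ModularGroup.T ^ k * g) 0 1 = g 0 1 + k * g 1 1 ∧
    (ModularGroup.T ^ k * g) 1 0 = g 1 0 ∧ (ModularGroup.T ^ k * g) 1 1 = g 1 1 := by
  refine ⟨?_, ?_, ?_, ?_⟩ <;>
    simp [ModularGroup.coe_T_zpow, Matrix.mul_apply, Fin.sum_univ_two, -map_zpow]

lemma eq_T {g g' : SL(2, ℤ)} (h0 : g' 1 0 = g 1 0) (h1 : g' 1 1 = g 1 1) :
    g' = ModularGroup.T ^ ((g' * g⁻¹) 0 1) * g := by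
  have d := det_sl g
  have d' := det_sl g'
  rw [h0, h1] at d'
  obtain ⟨a, b, c, e⟩ := entT ((g' * g⁻¹) 0 1) g
  have hk := (ent g' g).2.1
  ext i j
  fin_cases i <;> fin_cases j
  · change g' 0 0 = (ModularGroup.T ^ ((g' * g⁻¹) 0 1) * g) 0 0
    rw [a, hk]
    linear_combination (-g' 0 0) * d + g 0 0 * d'
  · change g' 0 1 = (ModularGroup.T ^ ((g' * g⁻¹) 0 1) * g) 0 1
    rw [b, hk]
    linear_combination (-g' 0 1) * d + g 0 1 * d'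
  · exact h0.trans c.symm
  · exact h1.trans e.symm

lemma row_cong {N : ℕ} {g τ : SL(2, ℤ)} (h : g * τ⁻¹ ∈ CongruenceSubgroup.Gamma N) :
    g 1 0 ≡ τ 1 0 [ZMOD N] ∧ g 1 1 ≡ τ 1 1 [ZMOD N] := by
  obtain ⟨-, -, h2, h3⟩ := Gamma_mem.1 h
  rw [(ent g τ).2.2.1] at h2
  rw [(ent g τ).2.2.2] at h3
  have d := congrArg (fun x : ℤ => (x : ZMod N)) (det_sl τ)
  push_cast at h2 h3 d
  constructor
  · rw [← ZMod.intCast_eq_intCast_iff]
    linear_combination (τ 0 0 : ZMod N) * h2 + (τ 1 0 : ZMod N) * h3 - (g 1 0 : ZMod N) * d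
  · rw [← ZMod.intCast_eq_intCast_iff]
    linear_combination (τ 0 1 : ZMod N) * h2 + (τ 1 1 : ZMod N) * h3 - (g 1 1 : ZMod N) * d

lemma im_iff (g : SL(2, ℤ)) (z : ℍ) {Y : ℝ} (hY : 0 < Y) :
    Y ≤ (g • z).im ↔ ‖(g 1 0 : ℤ) * (z : ℂ) + (g 1 1 : ℤ)‖ ≤ Real.sqrt (z.im / Y) := by
  have h1 : 0 < ‖(g 1 0 : ℤ) * (z : ℂ) + (g 1 1 : ℤ)‖ := norm_pos_iff.2 (den_ne_zero g z)
  rw [im_smul_sl, Real.le_sqrt' h1, le_div_iff₀ (by positivity), le_div_iff₀ hY, mul_comm]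

lemma bij {N : ℕ} (hN : 0 < N) (τ : SL(2, ℤ)) (z : ℍ) {Y : ℝ} (hY : 0 < Y) :
    Set.BijOn (fun g : SL(2, ℤ) => ((g 1 0, g 1 1) : ℤ × ℤ))
      {g : SL(2, ℤ) | g * τ⁻¹ ∈ CongruenceSubgroup.Gamma N ∧ 0 ≤ (g • z).re ∧ (g • z).re < N ∧ Y ≤ (g • z).im}
      {p | p ∈ LP N (τ 1 0) (τ 1 1) z (Real.sqrt (z.im / Y)) ∧ Int.gcd p.1 p.2 = 1} := by
  have hN' : (0 : ℝ) < N := by exact_mod_cast hN
  refine ⟨?_, ?_, ?_⟩
  · rintro g ⟨h1, -, -, h4⟩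
    refine ⟨⟨(row_cong h1).1, (row_cong h1).2, (im_iff g z hY).1 h4⟩, ?_⟩
    exact Int.isCoprime_iff_gcd_eq_one.1 ⟨-g 0 1, g 0 0, by linear_combination det_sl g⟩
  · rintro g ⟨h1, h2, h3, -⟩ g' ⟨h1', h2', h3', -⟩ h
    simp only [Prod.mk.injEq] at h
    have h5 := eq_T h.1 h.2
    have h6 : g * g'⁻¹ ∈ CongruenceSubgroup.Gamma N := by
      have := (CongruenceSubgroup.Gamma N).mul_mem h1 ((CongruenceSubgroup.Gamma N).inv_mem h1')
      simpa [mul_assoc] using this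
    have h7 : (N : ℤ) ∣ (g * g'⁻¹) 0 1 :=
      (ZMod.intCast_zmod_eq_zero_iff_dvd _ _).1 (Gamma_mem.1 h6).2.1
    generalize (g * g'⁻¹) 0 1 = k at h5 h7
    have h8 : (g • z).re = (g' • z).re + k := by
      conv_lhs => rw [h5, mul_smul, ModularGroup.re_T_zpow_smul]
    have h9 : |k| < N := by
      have : |(k : ℝ)| < N := abs_lt.2 ⟨by linarith, by linarith⟩
      exact_mod_cast this
    rw [Int.eq_zero_of_abs_lt_dvd h7 h9] at h5
    simpa using h5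
  · rintro p ⟨⟨h1, h2, h3⟩, h4⟩
    obtain ⟨g, -, hg⟩ := ModularGroup.bottom_row_surj (R := ℤ) (a := ![p.1, p.2])
      (show IsCoprime p.1 p.2 from Int.isCoprime_iff_gcd_eq_one.2 h4)
    have g0 : g 1 0 = p.1 := congrFun hg 0
    have g1 : g 1 1 = p.2 := congrFun hg 1
    set b := (g * τ⁻¹) 0 1 with hb
    set j := ⌊((g • z).re - b) / N⌋ with hj
    obtain ⟨t0, t1, t2, t3⟩ := entT (-b - N * j) g
    have hre : ((ModularGroup.T ^ (-b - N * j) * g) • z).re = (g • z).re - b - N * j := by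
      rw [mul_smul, ModularGroup.re_T_zpow_smul]; push_cast; ring
    have j1 : (j : ℝ) * N ≤ (g • z).re - b := (le_div_iff₀ hN').1 (Int.floor_le _)
    have j2 : (g • z).re - b < (j + 1 : ℝ) * N := (div_lt_iff₀ hN').1 (Int.lt_floor_add_one _)
    refine ⟨ModularGroup.T ^ (-b - N * j) * g, ⟨?_, by rw [hre]; linarith, by rw [hre]; linarith,
      ?_⟩, Prod.ext (t2.trans g0) (t3.trans g1)⟩
    · rw [mul_assoc, Gamma_mem]
      obtain ⟨s0, s1, s2, s3⟩ := entT (-b - N * j) (g * τ⁻¹)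
      have d := congrArg (fun x : ℤ => (x : ZMod N)) (det_sl τ)
      have d' := congrArg (fun x : ℤ => (x : ZMod N)) (det_sl (g * τ⁻¹))
      have k1 := (ZMod.intCast_eq_intCast_iff _ _ _).2 h1
      have k2 := (ZMod.intCast_eq_intCast_iff _ _ _).2 h2
      have r0 : (((g * τ⁻¹) 1 0 : ℤ) : ZMod N) = 0 := by
        rw [(ent g τ).2.2.1, g0, g1]; push_cast; rw [k1, k2]; ring
      have r1 : (((g * τ⁻¹) 1 1 : ℤ) : ZMod N) = 1 := by
        rw [(ent g τ).2.2.2, g0, g1]; push_cast at d ⊢; rw [k1, k2]; linear_combination d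
      rw [s0, s1, s2, s3, ← hb]
      push_cast at d' ⊢
      rw [r0, r1] at d' ⊢
      refine ⟨by linear_combination d', ?_, rfl, rfl⟩
      rw [ZMod.natCast_self]; ring
    · rw [im_iff _ z hY, t2, t3, g0, g1]
      exact h3

/-! ### Numerics -/

lemma num {y Y : ℝ} (hy : 1 / 2 ≤ y) (hY : 0 < Y) (hY1 : Y ≤ 1) :
    1 / 2 ≤ Real.sqrt (y / Y) ∧
    Real.sqrt (y / Y) * (1 + Real.log (2 * Real.sqrt (y / Y))) ≤ 18 * y * Y ^ (-(3 / 5 : ℝ)) := by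
  have hy0 : 0 < y := by linarith
  have h0 : 1 / 2 ≤ y / Y := by rw [le_div_iff₀ hY]; nlinarith
  have hR : 1 / 2 ≤ Real.sqrt (y / Y) := Real.le_sqrt_of_sq_le (by linarith)
  refine ⟨hR, ?_⟩
  set s := (y / Y) ^ (1 / 10 : ℝ) with hs
  have hs0 : 0 < s := by positivity
  have h5 : Real.sqrt (y / Y) = s ^ 5 := by
    rw [hs, ← Real.rpow_natCast, ← Real.rpow_mul (by positivity), Real.sqrt_eq_rpow]
    norm_num
  have h6 : s ^ 6 = y ^ (3 / 5 : ℝ) * Y ^ (-(3 / 5 : ℝ)) := by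
    rw [hs, ← Real.rpow_natCast, ← Real.rpow_mul (by positivity), Real.rpow_neg hY.le,
      Real.div_rpow hy0.le hY.le, div_eq_mul_inv]
    norm_num
  have hs1 : 1 / 2 ≤ s := by
    refine le_of_pow_le_pow_left₀ (n := 5) (by norm_num) hs0.le ?_
    rw [← h5]; linarith
  have h7 : y ^ (3 / 5 : ℝ) ≤ 2 * y := by
    calc y ^ (3 / 5 : ℝ) ≤ (2 * y) ^ (3 / 5 : ℝ) :=
          Real.rpow_le_rpow hy0.le (by linarith) (by norm_num)
      _ ≤ 2 * y := Real.rpow_le_self_of_one_le (by linarith) (by norm_num)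
  have h8 : Real.log (2 * s ^ 5) ≤ 1 + 5 * s := by
    rw [Real.log_mul (by norm_num) (by positivity), Real.log_pow]
    have := Real.log_le_sub_one_of_pos hs0
    have := Real.log_le_sub_one_of_pos (two_pos (α := ℝ))
    push_cast; linarith
  rw [h5]
  calc s ^ 5 * (1 + Real.log (2 * s ^ 5)) ≤ s ^ 5 * (9 * s) := by gcongr; linarith
    _ = 9 * s ^ 6 := by ring
    _ ≤ 9 * (2 * y * Y ^ (-(3 / 5 : ℝ))) := by rw [h6]; gcongr
    _ = _ := by ring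

end H1

open H1 in
theorem h1 (h : S_H0) : S_H1 := by
  intro N hN
  obtain ⟨C, hC0, hC⟩ := prim h hN
  refine ⟨π / N ^ 2 * ∑' δ, co N δ, C * 18, fun τ z Y hz hY hY1 => ?_⟩
  have hy : 1 / 2 ≤ z.im := by
    have := ModularGroup.three_le_four_mul_im_sq_of_mem_fd hz
    nlinarith [z.im_pos]
  obtain ⟨n1, n2⟩ := num hy hY hY1
  obtain ⟨hf, hb⟩ := hC (τ 1 0) (τ 1 1) z _ ⟨-τ 0 1, τ 0 0, by linear_combination det_sl τ⟩ hy n1
  have hB := bij hN τ z hY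
  refine ⟨hB.finite_iff_finite.2 hf, ?_⟩
  rw [hB.ncard_eq]
  have hy0 := z.im_pos
  have e : π * Real.sqrt (z.im / Y) ^ 2 / (z.im * N ^ 2) * ∑' δ, co N δ =
      (π / N ^ 2 * ∑' δ, co N δ) / Y := by
    rw [Real.sq_sqrt (by positivity)]
    field_simp
  rw [← e]
  refine hb.trans ((mul_le_mul_of_nonneg_left n2 hC0).trans (le_of_eq ?_))
  ring

end MR
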