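import Pool.Agent.P.MP_79de8b_nt.Ms

/-! The Rankin-Selberg unfolding above height `Y` (package H2). -/

open Complex UpperHalfPlane MeasureTheory Finset CongruenceSubgroup Filter Topology
open scoped Real MatrixGroups ComplexConjugate ENNReal NNReal

noncomputable section
namespace MR
namespace H2

/-! ### A weight on the fundamental domain -/

lemma fd_im {z : ℍ} (hz : z ∈ ModularGroup.fd) : 1 / 2 ≤ z.im := by
  have h := ModularGroup.three_le_four_mul_im_sq_of_mem_fd hz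
  have := z.im_pos
  nlinarith

lemma meas_fd : MeasurableSet ModularGroup.fd := ModularGroup.isClosed_fd.measurableSet

lemma vol_fd : volume ModularGroup.fd ≠ ∞ := by
  have h : ModularGroup.fd ⊆ ⋃ n : ℕ,
      {z : ℍ | -(1 / 2) ≤ z.re ∧ z.re ≤ 1 / 2 ∧ 1 / 2 ≤ z.im ∧ z.im ≤ n + 1} := by
    intro z hz
    obtain ⟨n, hn⟩ := exists_nat_ge z.im
    have := abs_le.1 hz.2
    exact Set.mem_iUnion.2 ⟨n, this.1, this.2, fd_im hz, by linarith⟩
  refine ne_top_of_le_ne_top (b := ENNReal.ofReal 1 * ENNReal.ofReal 2) (by finiteness)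
    ((measure_mono h).trans ?_)
  rw [Monotone.measure_iUnion]
  · refine iSup_le fun n => ?_
    have hn : (0 : ℝ) ≤ n := Nat.cast_nonneg n
    rw [volume_box (by norm_num) (by linarith)]
    have : (0 : ℝ) ≤ 1 / (n + 1) := by positivity
    gcongr <;> linarith
  · intro m n hmn z hz
    have : (m : ℝ) ≤ n := by exact_mod_cast hmn
    exact ⟨hz.1, hz.2.1, hz.2.2.1, by linarith [hz.2.2.2]⟩

lemma meas_smul (g : SL(2, ℤ)) : Measurable fun z : ℍ => g • z := (mp_sl g).measurable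

lemma fin_strip (hOv : S_Ov) (z : ℍ) :
    {g : SL(2, ℤ) | 1 / 2 ≤ (g • z).im ∧ 0 ≤ (g • z).re ∧ (g • z).re < 1}.Finite := by
  obtain ⟨C, -, hC⟩ := hOv
  by_contra hinf
  obtain ⟨n, hn⟩ := exists_nat_gt (C * (1 + 1 / (1 / 2)))
  obtain ⟨s, hs, hc⟩ := Set.Infinite.exists_subset_card_eq hinf n
  have := hC (1 / 2) (z, z) s (by norm_num) fun g hg => hs hg
  rw [hc] at this
  linarith

lemma fin_fd (hOv : S_Ov) (z : ℍ) : {g : SL(2, ℤ) | g • z ∈ ModularGroup.fd}.Finite := by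
  have h := fin_strip hOv z
  refine (h.union (h.preimage (f := fun g => ModularGroup.T * g)
    (mul_right_injective _).injOn)).subset fun g hg => ?_
  have h1 := fd_im hg
  have h2 := abs_le.1 hg.2
  by_cases h0 : 0 ≤ (g • z).re
  · exact Or.inl ⟨h1, h0, by linarith⟩
  · right
    simp only [Set.mem_preimage, Set.mem_ofPred_eq, mul_smul, ModularGroup.im_T_smul,
      ModularGroup.re_T_smul]
    exact ⟨h1, by linarith, by linarith⟩

/-- The number of translates of `z` in the fundamental domain. -/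
def nn (z : ℍ) : ℝ≥0∞ := ∑' g : SL(2, ℤ), ModularGroup.fd.indicator 1 (g • z)

lemma meas_nn : Measurable nn :=
  Measurable.tsum fun g => (measurable_one.indicator meas_fd).comp (meas_smul g)

lemma nn_smul (h : SL(2, ℤ)) (z : ℍ) : nn (h • z) = nn z := by
  unfold nn
  simp_rw [← mul_smul]
  exact (Equiv.mulRight h).tsum_eq fun g => ModularGroup.fd.indicator (1 : ℍ → ℝ≥0∞) (g • z)

lemma one_le_nn (z : ℍ) : 1 ≤ nn z := by
  obtain ⟨g, hg⟩ := ModularGroup.exists_smul_mem_fd z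
  refine le_trans ?_ (ENNReal.le_tsum g)
  rw [Set.indicator_of_mem hg]; rfl

lemma tsum_ind {ι : Type*} {A : Set ι} (hA : A.Finite) :
    ∑' g : ι, A.indicator (1 : ι → ℝ≥0∞) g = A.ncard := by
  classical
  rw [tsum_eq_sum (s := hA.toFinset) fun g hg => Set.indicator_of_notMem (by simpa using hg) _,
    sum_congr rfl fun g hg => Set.indicator_of_mem (s := A) (by simpa using hg) _,
    Set.ncard_eq_toFinset_card A hA]
  simp

lemma nn_ne_top (hOv : S_Ov) (z : ℍ) : nn z ≠ ∞ := by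
  have : nn z = ({g : SL(2, ℤ) | g • z ∈ ModularGroup.fd}.ncard : ℝ≥0∞) := by
    rw [← tsum_ind (fin_fd hOv z)]; rfl
  rw [this]; exact ENNReal.natCast_ne_top _

/-- The weight. -/
def om (z : ℍ) : ℝ≥0∞ := ModularGroup.fd.indicator 1 z / nn z

lemma meas_om : Measurable om := (measurable_one.indicator meas_fd).div meas_nn

lemma om_le (z : ℍ) : om z ≤ 1 := by
  unfold om
  refine ENNReal.div_le_of_le_mul ?_
  rw [one_mul]
  exact (Set.indicator_le_self' (fun _ _ => zero_le) z).trans (one_le_nn z)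

lemma om_zero {z : ℍ} (hz : z ∉ ModularGroup.fd) : om z = 0 := by
  unfold om; rw [Set.indicator_of_notMem hz, ENNReal.zero_div]

lemma tsum_om (hOv : S_Ov) (z : ℍ) : ∑' g : SL(2, ℤ), om (g • z) = 1 := by
  unfold om
  simp_rw [nn_smul, div_eq_mul_inv]
  rw [ENNReal.tsum_mul_right]
  exact ENNReal.mul_inv_cancel (lt_of_lt_of_le one_pos (one_le_nn z)).ne' (nn_ne_top hOv z)

/-- Unfolding. -/
lemma unfold_om (hOv : S_Ov) {F : ℍ → ℝ≥0∞} (hF : Measurable F) :
    ∫⁻ z, F z = ∫⁻ z, om z * ∑' g : SL(2, ℤ), F (g • z) := by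
  have h1 : ∀ z, F z = ∑' g : SL(2, ℤ), om (g⁻¹ • z) * F z := fun z => by
    have : ∑' g : SL(2, ℤ), om (g⁻¹ • z) = ∑' g : SL(2, ℤ), om (g • z) :=
      (Equiv.inv SL(2, ℤ)).tsum_eq fun g => om (g • z)
    rw [ENNReal.tsum_mul_right, this, tsum_om hOv, one_mul]
  have hm : ∀ g : SL(2, ℤ), Measurable fun z => om (g⁻¹ • z) * F z := fun g =>
    (meas_om.comp (meas_smul _)).mul hF
  rw [lintegral_congr h1, lintegral_tsum fun g => (hm g).aemeasurable]
  simp_rw [← ENNReal.tsum_mul_left]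
  have hm' : ∀ g : SL(2, ℤ), Measurable fun z => om z * F (g • z) := fun g =>
    meas_om.mul (hF.comp (meas_smul g))
  rw [lintegral_tsum fun g => (hm' g).aemeasurable]
  refine tsum_congr fun g => ?_
  rw [← (mp_sl g).lintegral_comp (hm g)]
  simp only [inv_smul_smul]

/-! ### The invariant functions -/

variable {N : ℕ} (Φ : Fam N)

/-- `y² |G σ|²`. -/
def fr (σ : SL(2, ℤ)) (z : ℍ) : ℝ := (z.im * ‖Φ.G σ z‖) ^ 2

lemma fr_nonneg (σ : SL(2, ℤ)) (z : ℍ) : 0 ≤ fr Φ σ z := sq_nonneg _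

lemma fr_smul (σ τ : SL(2, ℤ)) (z : ℍ) : fr Φ σ (τ • z) = fr Φ (σ * τ) z := by
  unfold fr
  rw [Φ.coc, im_smul_sl, norm_mul, norm_pow]
  have := norm_ne_zero_iff.2 (den_ne_zero τ z)
  field_simp

lemma fr_congr {g τ : SL(2, ℤ)} (h : g * τ⁻¹ ∈ CongruenceSubgroup.Gamma N) (z : ℍ) : fr Φ g z = fr Φ τ z := by
  have h0 : g * τ⁻¹ ∈ Gamma0 N := Gamma0_mem.2 (Gamma_mem.1 h).2.2.1
  have := Φ.inv _ h0 τ
  rw [inv_mul_cancel_right] at this
  unfold fr; rw [this]

lemma fr_le (σ : SL(2, ℤ)) (z : ℍ) : fr Φ σ z ≤ Φ.K ^ 2 :=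
  pow_le_pow_left₀ (mul_nonneg z.im_pos.le (norm_nonneg _)) ((Φ.ser σ).bd1 z) 2

lemma im_fr_le (σ : SL(2, ℤ)) {z : ℍ} (hz : z ∈ ModularGroup.fd) :
    z.im * fr Φ σ z ≤ 2 * Φ.K ^ 2 := by
  have h1 := fd_im hz
  have h2 : (z.im ^ 2 * ‖Φ.G σ z‖) ^ 2 ≤ Φ.K ^ 2 :=
    pow_le_pow_left₀ (by positivity) ((Φ.ser σ).bd2 z) 2
  have h3 : (z.im ^ 2 * ‖Φ.G σ z‖) ^ 2 = z.im * (z.im * fr Φ σ z) := by unfold fr; ring
  have h4 : 0 ≤ z.im * fr Φ σ z := mul_nonneg z.im_pos.le (fr_nonneg Φ σ z)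
  nlinarith

lemma cont_fr (hSer : S_Ser) (σ : SL(2, ℤ)) : Continuous (fr Φ σ) :=
  (UpperHalfPlane.continuous_im.mul (hSer _ _ _ _ (Φ.ser σ)).1.norm).pow 2

/-- The strip above height `Y`. -/
def St (N : ℕ) (Y : ℝ) : Set ℍ := {z | 0 ≤ z.re ∧ z.re < N ∧ Y ≤ z.im}

lemma meas_St (N : ℕ) (Y : ℝ) : MeasurableSet (St N Y) :=
  (measurableSet_le measurable_const UpperHalfPlane.continuous_re.measurable).inter
    ((measurableSet_lt UpperHalfPlane.continuous_re.measurable measurable_const).inter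
      (measurableSet_le measurable_const UpperHalfPlane.continuous_im.measurable))

lemma mean_fr (hSer : S_Ser) (σ : SL(2, ℤ)) {y : ℝ} (hy : 0 < y) :
    ∫ x in (0 : ℝ)..N, fr Φ σ (pnt x y) = N * Ib N (Φ.b σ) y := by
  have h := ((hSer _ _ _ _ (Φ.ser σ)).2.2.2.2.2.2.1 (Real.log y) (Real.log y)).1
  have hN : (N : ℂ) ≠ 0 := by exact_mod_cast Φ.pos.ne'
  rw [Real.exp_add, Real.exp_log hy, div_eq_iff hN] at h
  have e1 : (y + y) / 2 = y := by ring
  have e2 : y * y / y ^ 2 = 1 := by field_simp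
  rw [e1, e2, one_mul] at h
  have e3 : ∀ x : ℝ, FF (Φ.G σ) x (Real.log y) * conj (FF (Φ.G σ) x (Real.log y)) =
      ((fr Φ σ (pnt x y) : ℝ) : ℂ) := fun x => by
    rw [Complex.mul_conj, Complex.normSq_eq_norm_sq]
    unfold FF fr
    rw [Real.exp_log hy, pnt_im x hy, norm_mul, Complex.norm_real, Real.norm_of_nonneg hy.le]
  simp_rw [e3] at h
  rw [intervalIntegral.integral_ofReal] at h
  have : ((∫ x in (0 : ℝ)..N, fr Φ σ (pnt x y) : ℝ) : ℂ) = ((N * Ib N (Φ.b σ) y : ℝ) : ℂ) := by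
    rw [h]; push_cast; ring
  exact_mod_cast this

lemma strip_int (hSer : S_Ser) (σ : SL(2, ℤ)) {Y : ℝ} (hY : 0 < Y) :
    ∫⁻ z, (St N Y).indicator (fun z => ENNReal.ofReal (fr Φ σ z)) z =
      N * ∫⁻ y in Set.Ioi Y, ENNReal.ofReal (Ib N (Φ.b σ) y / y ^ 2) := by
  have hm : Measurable fun z => (St N Y).indicator (fun z => ENNReal.ofReal (fr Φ σ z)) z :=
    (cont_fr Φ hSer σ).measurable.ennreal_ofReal.indicator (meas_St N Y)
  have hm2 : Measurable (Function.uncurry fun x y : ℝ => ENNReal.ofReal (1 / y ^ 2) *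
      (St N Y).indicator (fun z => ENNReal.ofReal (fr Φ σ z)) (pnt x y)) :=
    Measurable.mul (f := fun p : ℝ × ℝ => ENNReal.ofReal (1 / p.2 ^ 2)) (by fun_prop)
      (hm.comp measurable_pnt)
  rw [lintegral_H_R _ hm, lintegral_lintegral_swap hm2.aemeasurable,
    ← lintegral_const_mul' _ _ (ENNReal.natCast_ne_top N),
    setLIntegral_congr (Ioi_ae_eq_Ici (a := Y)),
    ← Set.inter_eq_left.2 (show Set.Ici Y ⊆ Set.Ioi 0 from fun y hy => lt_of_lt_of_le hY hy),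
    ← Measure.restrict_restrict measurableSet_Ici, ← lintegral_indicator measurableSet_Ici]
  refine setLIntegral_congr_fun measurableSet_Ioi fun y hy => ?_
  have hy : 0 < y := hy
  by_cases h : Y ≤ y
  · rw [Set.indicator_of_mem (show y ∈ Set.Ici Y from h),
      lintegral_const_mul' _ _ ENNReal.ofReal_ne_top]
    have e1 : ∀ x : ℝ, (St N Y).indicator (fun z => ENNReal.ofReal (fr Φ σ z)) (pnt x y) =
        (Set.Ico (0 : ℝ) N).indicator (fun x => ENNReal.ofReal (fr Φ σ (pnt x y))) x := fun x => by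
      have : pnt x y ∈ St N Y ↔ x ∈ Set.Ico (0 : ℝ) N := by
        simp only [St, Set.mem_ofPred_eq, pnt_re x hy, pnt_im x hy, h, and_true, Set.mem_Ico]
      by_cases hx : x ∈ Set.Ico (0 : ℝ) N
      · rw [Set.indicator_of_mem hx, Set.indicator_of_mem (this.2 hx)]
      · rw [Set.indicator_of_notMem hx, Set.indicator_of_notMem (mt this.1 hx)]
    have hc : Continuous fun x : ℝ => fr Φ σ (pnt x y) :=
      (cont_fr Φ hSer σ).comp (continuous_ofComplex_comp (by fun_prop) fun x => by simpa using hy)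
    simp_rw [e1]
    rw [lintegral_indicator measurableSet_Ico, setLIntegral_congr Ico_ae_eq_Ioc,
      ← ofReal_integral_eq_lintegral_ofReal hc.integrableOn_Ioc
        (Eventually.of_forall fun x => fr_nonneg Φ σ _),
      ← intervalIntegral.integral_of_le (Nat.cast_nonneg N), mean_fr Φ hSer σ hy,
      ← ENNReal.ofReal_mul (by positivity), ← ENNReal.ofReal_natCast,
      ← ENNReal.ofReal_mul (by positivity)]
    congr 1; ring
  · rw [Set.indicator_of_notMem (show y ∉ Set.Ici Y from h)]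
    have e1 : ∀ x : ℝ, (St N Y).indicator (fun z => ENNReal.ofReal (fr Φ σ z)) (pnt x y) = 0 :=
      fun x => Set.indicator_of_notMem (fun hx => h (by
        have := hx.2.2; rwa [pnt_im x hy] at this)) _
    simp [e1]

/-! ### Classes modulo `Γ(N)` -/

instance (N : ℕ) : (CongruenceSubgroup.Gamma N).Normal := Gamma_normal N

/-- Classes modulo `Γ(N)`. -/
abbrev QQ (N : ℕ) := SL(2, ℤ) ⧸ CongruenceSubgroup.Gamma N

lemma mk_eq_iff {g τ : SL(2, ℤ)} :
    (g : QQ N) = τ ↔ g * τ⁻¹ ∈ CongruenceSubgroup.Gamma N := by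
  rw [QuotientGroup.eq_iff_div_mem, div_eq_mul_inv]

/-- The set counted in `S_H1`. -/
def Ac (N : ℕ) (τ : SL(2, ℤ)) (z : ℍ) (Y : ℝ) : Set SL(2, ℤ) :=
  {g | g * τ⁻¹ ∈ CongruenceSubgroup.Gamma N ∧ 0 ≤ (g • z).re ∧ (g • z).re < N ∧ Y ≤ (g • z).im}

variable [Fintype (QQ N)]

/-- The sum over all cusps. -/
def ft (z : ℍ) : ℝ := ∑ q : QQ N, fr Φ q.out z

lemma sum_fr (σ : SL(2, ℤ)) (z : ℍ) :
    ∑ q : QQ N, fr Φ (σ * q.out) z = ft Φ z := by
  unfold ft
  refine Fintype.sum_equiv (Equiv.mulLeft (σ : QQ N)) _ _ fun q => fr_congr Φ (mk_eq_iff.1 ?_) z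
  simp

lemma tsum_cls (σ : SL(2, ℤ)) (z : ℍ) (Y : ℝ) (hf : ∀ τ, (Ac N τ z Y).Finite) :
    ∑' g : SL(2, ℤ), (St N Y).indicator (fun z => ENNReal.ofReal (fr Φ σ z)) (g • z) =
      ENNReal.ofReal (∑ q : QQ N, fr Φ (σ * q.out) z * (Ac N q.out z Y).ncard) := by
  classical
  rw [ENNReal.ofReal_sum_of_nonneg fun q _ => mul_nonneg (fr_nonneg _ _ _) (Nat.cast_nonneg _)]
  have e : ∀ q : QQ N,
      ENNReal.ofReal (fr Φ (σ * q.out) z * (Ac N q.out z Y).ncard) =
      ∑' g, ENNReal.ofReal (fr Φ (σ * q.out) z) * (Ac N q.out z Y).indicator 1 g := fun q => by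
    rw [ENNReal.tsum_mul_left, tsum_ind (hf _), ENNReal.ofReal_mul (fr_nonneg _ _ _),
      ENNReal.ofReal_natCast]
  simp_rw [e]
  rw [← Summable.tsum_finsetSum fun _ _ => ENNReal.summable]
  refine tsum_congr fun g => ?_
  have h0 : g * ((g : QQ N).out)⁻¹ ∈ CongruenceSubgroup.Gamma N := mk_eq_iff.1 (by simp)
  rw [sum_eq_single (g : QQ N)]
  · by_cases h : g • z ∈ St N Y
    · rw [Set.indicator_of_mem h, Set.indicator_of_mem (show g ∈ Ac N _ z Y from ⟨h0, h⟩),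
        fr_smul, Pi.one_apply, mul_one]
      congr 1
      refine fr_congr Φ (mk_eq_iff.1 ?_) z
      simp
    · rw [Set.indicator_of_notMem h, Set.indicator_of_notMem fun hg => h hg.2, mul_zero]
  · intro q _ hq
    rw [Set.indicator_of_notMem, mul_zero]
    intro hg
    exact hq (by simpa using (mk_eq_iff.2 hg.1).symm)
  · simp

lemma ft_nonneg (z : ℍ) : 0 ≤ ft Φ z := sum_nonneg fun _ _ => fr_nonneg _ _ _

lemma ft_le (z : ℍ) : ft Φ z ≤ Fintype.card (QQ N) * Φ.K ^ 2 := by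
  unfold ft
  refine (sum_le_sum fun q _ => fr_le Φ q.out z).trans ?_
  simp

lemma cont_ft (hSer : S_Ser) : Continuous (ft Φ) :=
  continuous_finsetSum _ fun _ _ => cont_fr Φ hSer _

lemma ptw {κ C : ℝ} (hC : 0 ≤ C) (σ : SL(2, ℤ)) {z : ℍ} (hz : z ∈ ModularGroup.fd) (Y : ℝ)
    (h : ∀ τ, |((Ac N τ z Y).ncard : ℝ) - κ| ≤ C * z.im) :
    |∑ q : QQ N, fr Φ (σ * q.out) z * (Ac N q.out z Y).ncard - κ * ft Φ z| ≤
      C * (Fintype.card (QQ N) * (2 * Φ.K ^ 2)) := by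
  rw [← sum_fr Φ σ z, mul_sum, ← sum_sub_distrib]
  refine (abs_sum_le_sum_abs _ _).trans ?_
  calc _ ≤ ∑ _q : QQ N, C * (2 * Φ.K ^ 2) := sum_le_sum fun q _ => by
        rw [mul_comm κ, ← mul_sub, abs_mul, abs_of_nonneg (fr_nonneg _ _ _)]
        calc _ ≤ fr Φ (σ * q.out) z * (C * z.im) :=
              mul_le_mul_of_nonneg_left (h _) (fr_nonneg _ _ _)
          _ = C * (z.im * fr Φ (σ * q.out) z) := by ring
          _ ≤ _ := mul_le_mul_of_nonneg_left (im_fr_le Φ _ hz) hC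
    _ = _ := by simp; ring

end H2

/-- Comparison of two integrals against the weight. -/
lemma H2.cmp {W V : ℍ → ℝ≥0∞} {B : ℝ≥0∞} (h : ∀ z ∈ ModularGroup.fd, W z ≤ V z + B) :
    ∫⁻ z, H2.om z * W z ≤ (∫⁻ z, H2.om z * V z) + B * volume ModularGroup.fd := by
  rw [← lintegral_indicator_const H2.meas_fd,
    ← lintegral_add_right _ (measurable_const.indicator H2.meas_fd)]
  refine lintegral_mono fun z => ?_
  by_cases hz : z ∈ ModularGroup.fd
  · rw [Set.indicator_of_mem hz]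
    calc _ ≤ H2.om z * (V z + B) := by gcongr; exact h z hz
      _ = H2.om z * V z + H2.om z * B := mul_add _ _ _
      _ ≤ H2.om z * V z + 1 * B := by gcongr; exact H2.om_le z
      _ = _ := by rw [one_mul]
  · simp [H2.om_zero hz]

open H2 in
theorem h2 (hOv : S_Ov) (hSer : S_Ser) (h1 : S_H1) : S_H2 := by
  intro N Φ
  have hN := Φ.pos
  have : NeZero N := ⟨hN.ne'⟩
  have : Fintype (QQ N) := Subgroup.fintypeQuotientOfFiniteIndex
  obtain ⟨κ, C, hH⟩ := h1 N hN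
  set M : ℝ≥0∞ := ∫⁻ z, H2.om z * ENNReal.ofReal (ft Φ z) with hM
  have hMt : M ≠ ∞ := by
    have := H2.cmp (W := fun z => ENNReal.ofReal (ft Φ z)) (V := fun _ => 0)
      (B := ENNReal.ofReal (Fintype.card (QQ N) * Φ.K ^ 2)) fun z _ => by
        rw [zero_add]; exact ENNReal.ofReal_le_ofReal (ft_le Φ z)
    refine ne_top_of_le_ne_top ?_ this
    simp only [mul_zero, lintegral_zero, zero_add]
    exact ENNReal.mul_ne_top ENNReal.ofReal_ne_top vol_fd
  set E : ℝ := Fintype.card (QQ N) * (2 * Φ.K ^ 2) with hE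
  have hE0 : 0 ≤ E := by positivity
  have hN' : (0 : ℝ) < N := by exact_mod_cast hN
  refine ⟨max κ 0 * M.toReal / N, |C| * E * (volume ModularGroup.fd).toReal / N,
    by positivity, fun σ Y hY hY1 => ?_⟩
  set a : ℝ := max κ 0 / Y with ha
  have ha0 : 0 ≤ a := by positivity
  set b : ℝ := |C| * Y ^ (-(3 / 5 : ℝ)) with hb
  have hb0 : 0 ≤ b := by positivity
  set L : ℝ≥0∞ := ∫⁻ y in Set.Ioi Y, ENNReal.ofReal (Ib N (Φ.b σ) y / y ^ 2) with hL
  set W : ℍ → ℝ≥0∞ := fun z =>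
    ∑' g : SL(2, ℤ), (St N Y).indicator (fun z => ENNReal.ofReal (fr Φ σ z)) (g • z) with hW
  have e1 : N * L = ∫⁻ z, H2.om z * W z := by
    rw [hL, ← strip_int Φ hSer σ hY]
    exact unfold_om hOv ((cont_fr Φ hSer σ).measurable.ennreal_ofReal.indicator (meas_St N Y))
  have e2 : ∫⁻ z, H2.om z * ENNReal.ofReal (a * ft Φ z) = ENNReal.ofReal a * M := by
    rw [hM, ← lintegral_const_mul' _ _ ENNReal.ofReal_ne_top]
    refine lintegral_congr fun z => ?_
    rw [ENNReal.ofReal_mul ha0]; ring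
  have key : ∀ z ∈ ModularGroup.fd, ∃ w : ℝ, W z = ENNReal.ofReal w ∧
      |w - a * ft Φ z| ≤ b * E := fun z hz => by
    refine ⟨_, tsum_cls Φ σ z Y fun τ => (hH τ z Y hz hY hY1).1, ptw Φ hb0 σ hz Y fun τ => ?_⟩
    have h2 : |((Ac N τ z Y).ncard : ℝ) - κ / Y| ≤ C * z.im * Y ^ (-(3 / 5 : ℝ)) :=
      (hH τ z Y hz hY hY1).2
    have h3 : C * z.im * Y ^ (-(3 / 5 : ℝ)) ≤ b * z.im := by
      have := z.im_pos
      rw [hb, mul_right_comm]; gcongr; exact le_abs_self C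
    refine le_trans ?_ (h2.trans h3)
    rcases le_total κ 0 with hk | hk
    · have h4 : κ / Y ≤ 0 := div_nonpos_of_nonpos_of_nonneg hk hY.le
      have h5 : (0 : ℝ) ≤ (Ac N τ z Y).ncard := Nat.cast_nonneg _
      rw [ha, max_eq_right hk, zero_div, sub_zero, abs_of_nonneg h5, abs_of_nonneg (by linarith)]
      linarith
    · rw [ha, max_eq_left hk]
  have up := H2.cmp (W := W) (V := fun z => ENNReal.ofReal (a * ft Φ z))
    (B := ENNReal.ofReal (b * E)) fun z hz => by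
      obtain ⟨w, hw, h⟩ := key z hz
      rw [hw]
      exact (ENNReal.ofReal_le_ofReal (by linarith [(abs_le.1 h).2])).trans ENNReal.ofReal_add_le
  have lo := H2.cmp (W := fun z => ENNReal.ofReal (a * ft Φ z)) (V := W)
    (B := ENNReal.ofReal (b * E)) fun z hz => by
      obtain ⟨w, hw, h⟩ := key z hz
      rw [hw]
      exact (ENNReal.ofReal_le_ofReal (by linarith [(abs_le.1 h).1])).trans ENNReal.ofReal_add_le
  rw [← e1, e2] at up lo
  have t1 : ENNReal.ofReal a * M ≠ ∞ := ENNReal.mul_ne_top ENNReal.ofReal_ne_top hMt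
  have t2 : ENNReal.ofReal (b * E) * volume ModularGroup.fd ≠ ∞ :=
    ENNReal.mul_ne_top ENNReal.ofReal_ne_top vol_fd
  have t3 : N * L ≠ ∞ := ne_top_of_le_ne_top (ENNReal.add_ne_top.2 ⟨t1, t2⟩) up
  have up' := ENNReal.toReal_mono (ENNReal.add_ne_top.2 ⟨t1, t2⟩) up
  have lo' := ENNReal.toReal_mono (ENNReal.add_ne_top.2 ⟨t3, t2⟩) lo
  rw [ENNReal.toReal_add t1 t2] at up'
  rw [ENNReal.toReal_add t3 t2] at lo'
  simp only [ENNReal.toReal_mul, ENNReal.toReal_natCast, ENNReal.toReal_ofReal ha0,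
    ENNReal.toReal_ofReal (mul_nonneg hb0 hE0)] at up' lo'
  have hS := hSer _ _ _ _ (Φ.ser σ)
  have hsub : Set.Ioi Y ⊆ Set.Ioi 0 := Set.Ioi_subset_Ioi hY.le
  have e3 : ∫ y in Set.Ioi Y, Ib N (Φ.b σ) y / y ^ 2 = L.toReal := by
    refine integral_eq_lintegral_of_nonneg_ae ?_ ?_
    · filter_upwards [ae_restrict_mem measurableSet_Ioi] with y hy
      exact div_nonneg (hS.2.2.2.2.2.2.2.1 y (hsub hy)).2.1 (sq_nonneg _)
    · refine ContinuousOn.aestronglyMeasurable ?_ measurableSet_Ioi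
      exact (hS.2.2.2.2.2.2.2.2.1.mono hsub).div (by fun_prop) fun y hy =>
        (pow_pos (hsub hy) 2).ne'
  have e4 : max κ 0 * M.toReal / N / Y = a * M.toReal / N := by rw [ha]; ring
  have e5 : |C| * E * (volume ModularGroup.fd).toReal / N * Y ^ (-(3 / 5 : ℝ)) =
      b * E * (volume ModularGroup.fd).toReal / N := by rw [hb]; ring
  have e6 : L.toReal = N * L.toReal / N := by field_simp
  rw [e3, e4, e5, e6, ← sub_div, abs_div, abs_of_pos hN']
  gcongr
  rw [abs_le]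
  constructor <;> linarith

end MR
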