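import Pool.Agent.P.MP_79de8b_nt.Basic

/-! The Hecke relation for the Petersson type kernel (MP_79de8b_nt). -/

open Complex Finset
open scoped Real ComplexConjugate

noncomputable section
namespace MR
namespace Hk

/-- The term of the Kloosterman series. -/
def T (j : ℝ → ℂ) {N₀ : ℕ} (χ : DirichletCharacter ℂ N₀) (M m n c : ℕ) : ℂ :=
  if 0 < c ∧ M ∣ c then
    kl (fun t => χ (t : ZMod N₀)) m n c / c * j ((m : ℝ) * n / (c : ℝ) ^ 2) else 0

lemma Bn_eq (D : ℂ) (j : ℝ → ℂ) (M : ℕ) {N₀ : ℕ} (χ : DirichletCharacter ℂ N₀) (m n : ℕ) :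
    Bn D j M χ m n = (if m = n then D else 0) + ∑' c : ℕ, T j χ M m n c := rfl

lemma summable_T {j : ℝ → ℂ} {X₀ : ℝ} (hX : 0 < X₀) (hj : ∀ X, 0 < X → X < X₀ → j X = 0)
    {N₀ : ℕ} (χ : DirichletCharacter ℂ N₀) (M : ℕ) {m n : ℕ} (hm : 0 < m) (hn : 0 < n) :
    Summable (T j χ M m n) := by
  refine summable_of_hasFiniteSupport
    ((Set.finite_Iic ⌈(m : ℝ) * n / X₀⌉₊).subset fun c hc => ?_)
  rw [Function.mem_support, T] at hc
  split_ifs at hc with h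
  · have hc0 : (1 : ℝ) ≤ c := by exact_mod_cast h.1
    have hmn : (0 : ℝ) < (m : ℝ) * n := by positivity
    have h1 : X₀ ≤ (m : ℝ) * n / (c : ℝ) ^ 2 := by
      by_contra h2
      exact hc (by rw [hj _ (by positivity) (not_le.1 h2), mul_zero])
    rw [le_div_iff₀ (by positivity)] at h1
    have h2 : (c : ℝ) ≤ (m : ℝ) * n / X₀ := by
      rw [le_div_iff₀ hX]; nlinarith [mul_le_mul_of_nonneg_left hc0 (by positivity : 0 ≤ X₀ * c)]
    exact Set.mem_Iic.2 (by exact_mod_cast h2.trans (Nat.le_ceil _))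
  · exact absurd rfl hc

lemma hasSum_dilate {G : ℕ → ℂ} {s : ℂ} {e : ℕ} (he : 0 < e) (h : HasSum G s) :
    HasSum (fun c => if e ∣ c then G (c / e) else 0) s := by
  have hi : Function.Injective fun c : ℕ => e * c := fun a b hab => Nat.eq_of_mul_eq_mul_left he hab
  refine (hi.hasSum_iff fun c hc => ?_).1 ?_
  · rw [if_neg]
    rintro ⟨d, rfl⟩
    exact hc ⟨d, rfl⟩
  · have : ((fun c => if e ∣ c then G (c / e) else 0) ∘ fun c : ℕ => e * c) = G := by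
      ext c; simp [Nat.mul_div_cancel_left _ he]
    rwa [this]

lemma conj_mul_self {N₀ : ℕ} (χ : DirichletCharacter ℂ N₀) {s : ℕ} (hs : s.Coprime N₀) :
    conj (χ (s : ZMod N₀)) * χ (s : ZMod N₀) = 1 := by
  have h := χ.unit_norm_eq_one (ZMod.unitOfCoprime s hs)
  rw [ZMod.coe_unitOfCoprime] at h
  rw [mul_comm, Complex.mul_conj, Complex.normSq_eq_norm_sq, h]; simp

lemma div_gcd_dvd_iff {M a c : ℕ} (hM : 0 < M) : M / M.gcd a ∣ c ↔ M ∣ a * c := by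
  have hg : 0 < M.gcd a := Nat.gcd_pos_of_pos_left _ hM
  have hco := Nat.coprime_div_gcd_div_gcd hg
  obtain ⟨M', hM'⟩ := Nat.gcd_dvd_left M a
  obtain ⟨a', ha'⟩ := Nat.gcd_dvd_right M a
  generalize M.gcd a = d at *
  subst hM' ha'
  rw [Nat.mul_div_cancel_left _ hg] at hco ⊢
  rw [Nat.mul_div_cancel_left _ hg] at hco
  rw [mul_assoc, Nat.mul_dvd_mul_iff_left hg]
  exact ⟨fun h => h.mul_left _, fun h => hco.dvd_of_dvd_mul_left h⟩

lemma sum_divisors_split {Q R c : ℕ} (hQR : Q.Coprime R) (hQ : 0 < Q) (hR : 0 < R)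
    (f : ℕ → ℂ) : ∑ δ ∈ ((Q * R).gcd c).divisors, f δ =
      ∑ δ₁ ∈ Q.divisors, ∑ δ₂ ∈ R.divisors, if δ₁ * δ₂ ∣ c then f (δ₁ * δ₂) else 0 := by
  have h1 : ((Q * R).gcd c).divisors = (Q * R).divisors.filter (· ∣ c) := by
    ext d
    have : 0 < (Q * R).gcd c := Nat.gcd_pos_of_pos_left _ (by positivity)
    simp only [Nat.mem_divisors, Nat.dvd_gcd_iff, mem_filter]
    constructor
    · rintro ⟨⟨a, b⟩, -⟩; exact ⟨⟨a, by positivity⟩, b⟩
    · rintro ⟨⟨a, -⟩, b⟩; exact ⟨⟨a, b⟩, this.ne'⟩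
  rw [h1, sum_filter, Nat.divisors_mul, Finset.mul_def, sum_image hQR.mul_injOn_divisors,
    sum_product]

/-- The relation term by term. -/
lemma term (h : S_Sel) (j : ℝ → ℂ) {M N₀ : ℕ} (χ : DirichletCharacter ℂ N₀) {g Q r r' : ℕ}
    (hM : 0 < M) (hNM : N₀ ∣ M) (hχ : χ.IsPrimitive) (hg : 0 < g)
    (hgp : ∀ p, p.Prime → p ∣ g → p ∣ N₀) (hQ : 0 < Q) (hQN : Q.Coprime N₀) (hr : 0 < r)
    (hr' : 0 < r') (hc1 : r.Coprime (Q * M)) (hc2 : r'.Coprime (Q * M)) (c : ℕ) :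
    T j χ M (g * Q * r) (g * Q * r') c = ∑ δ₁ ∈ Q.divisors, ∑ δ₂ ∈ (r.gcd r').divisors,
      χ ((Q / δ₁ : ℕ) : ZMod N₀) * conj (χ ((r / δ₂ : ℕ) : ZMod N₀)) *
        (if g * (δ₁ * δ₂) ∣ c then T j χ (Nat.lcm N₀ (M / M.gcd (g * δ₁))) ((Q / δ₁) ^ 2)
          (r / δ₂ * (r' / δ₂)) (c / (g * (δ₁ * δ₂))) else 0) := by
  have hN : 0 < N₀ := Nat.pos_of_dvd_of_pos hNM hM
  obtain ⟨hS1, hS2⟩ := h N₀ χ hN
  have hrQ : r.Coprime Q := hc1.coprime_mul_right_right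
  have hrM : r.Coprime M := hc1.coprime_mul_left_right
  have hr'Q : r'.Coprime Q := hc2.coprime_mul_right_right
  have hr'M : r'.Coprime M := hc2.coprime_mul_left_right
  have hrN : r.Coprime N₀ := hrM.coprime_dvd_right hNM
  have hr'N : r'.Coprime N₀ := hr'M.coprime_dvd_right hNM
  rcases Nat.eq_zero_or_pos c with rfl | hc
  · simp [T]
  by_cases hA : M ∣ c ∧ g * N₀ ∣ c
  · obtain ⟨hMc, c₁, rfl⟩ := hA
    have hc₁ : 0 < N₀ * c₁ := by
      rcases Nat.eq_zero_or_pos c₁ with rfl | h0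
      · simp at hc
      · positivity
    have hNc : N₀ ∣ N₀ * c₁ := dvd_mul_right _ _
    rw [mul_assoc g N₀] at hMc hc ⊢
    generalize N₀ * c₁ = c at *
    have e1 := hS2 hχ g (Q * r) (Q * r') (g * c) hg hc (hNc.mul_left _) hgp
    rw [if_pos (Nat.mul_dvd_mul_left _ hNc), Nat.mul_div_cancel_left _ hg,
      hS1 (Q * r) (Q * r') c hc₁ hNc (by positivity) (Nat.Coprime.mul_left hQN hr'N),
      Nat.gcd_mul_left,
      sum_divisors_split (hrQ.symm.coprime_dvd_right (Nat.gcd_dvd_left _ _)) hQ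
        (Nat.gcd_pos_of_pos_left _ hr)] at e1
    rw [T, if_pos ⟨hc, hMc⟩, mul_assoc g Q r, mul_assoc g Q r', e1, mul_sum, sum_div, sum_mul]
    refine sum_congr rfl fun δ₁ h₁ => ?_
    rw [mul_sum, sum_div, sum_mul]
    refine sum_congr rfl fun δ₂ h₂ => ?_
    obtain ⟨a, rfl⟩ := Nat.dvd_of_mem_divisors h₁
    obtain ⟨s, rfl⟩ := (Nat.dvd_of_mem_divisors h₂).trans (Nat.gcd_dvd_left _ _)
    obtain ⟨s', rfl⟩ := (Nat.dvd_of_mem_divisors h₂).trans (Nat.gcd_dvd_right _ _)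
    have hδ₁ : 0 < δ₁ := Nat.pos_of_mul_pos_right hQ
    have ha : 0 < a := Nat.pos_of_mul_pos_left hQ
    have hδ₂ : 0 < δ₂ := Nat.pos_of_mul_pos_right hr
    have hs : 0 < s := Nat.pos_of_mul_pos_left hr
    have hs' : 0 < s' := Nat.pos_of_mul_pos_left hr'
    simp only [Nat.mul_dvd_mul_iff_left hg]
    split_ifs with hd
    · obtain ⟨c₂, rfl⟩ := hd
      have hc₂ : 0 < c₂ := Nat.pos_of_mul_pos_left hc₁
      have hδ : 0 < δ₁ * δ₂ := by positivity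
      have hN2 : N₀ ∣ c₂ :=
        (Nat.Coprime.mul_left hQN.coprime_mul_right hrN.coprime_mul_right).symm.dvd_of_dvd_mul_left
          hNc
      have hM2 : M / M.gcd (g * δ₁) ∣ c₂ := by
        rw [div_gcd_dvd_iff hM]
        refine hrM.coprime_mul_right.symm.dvd_of_dvd_mul_left ?_
        convert hMc using 1; ring
      have hco : (a ^ 2).Coprime (s * s') :=
        Nat.Coprime.pow_left _ (Nat.Coprime.mul_right
          hrQ.coprime_mul_left.coprime_mul_left_right.symm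
          hr'Q.coprime_mul_left.coprime_mul_left_right.symm)
      have e2 := hS1 (a ^ 2) (s * s') c₂ hc₂ hN2 (by positivity)
        (Nat.Coprime.mul_left hrN.coprime_mul_left hr'N.coprime_mul_left)
      rw [hco.gcd_eq_one, Nat.gcd_one_left, Nat.divisors_one, sum_singleton] at e2
      simp only [Nat.div_one, Nat.cast_one, one_mul] at e2
      have d1 : δ₁ * a * (δ₂ * s') / (δ₁ * δ₂) = a * s' :=
        Nat.div_eq_of_eq_mul_right hδ (by ring)
      have d2 : δ₁ * a * (δ₂ * s) / (δ₁ * δ₂) = a * s :=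
        Nat.div_eq_of_eq_mul_right hδ (by ring)
      have d3 : g * (δ₁ * δ₂ * c₂) / (g * (δ₁ * δ₂)) = c₂ :=
        Nat.div_eq_of_eq_mul_right (by positivity) (by ring)
      rw [d1, d2, d3, Nat.mul_div_cancel_left _ hδ, Nat.mul_div_cancel_left _ hδ₁,
        Nat.mul_div_cancel_left _ hδ₂, Nat.mul_div_cancel_left _ hδ₂, T,
        if_pos ⟨hc₂, Nat.lcm_dvd hN2 hM2⟩, e2,
        show a * s * (a * s') = a ^ 2 * (s * s') by ring]
      have d4 : ((g * (δ₁ * a * (δ₂ * s)) : ℕ) : ℝ) * (g * (δ₁ * a * (δ₂ * s')) : ℕ) /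
          ((g * (δ₁ * δ₂ * c₂) : ℕ) : ℝ) ^ 2 =
          ((a ^ 2 : ℕ) : ℝ) * (s * s' : ℕ) / (c₂ : ℝ) ^ 2 := by
        push_cast; field_simp
      rw [d4]
      have d5 := conj_mul_self χ hrN.coprime_mul_left
      have g0 : (g : ℂ) ≠ 0 := by exact_mod_cast hg.ne'
      have g1 : (δ₁ : ℂ) ≠ 0 := by exact_mod_cast hδ₁.ne'
      have g2 : (δ₂ : ℂ) ≠ 0 := by exact_mod_cast hδ₂.ne'
      have g3 : (c₂ : ℂ) ≠ 0 := by exact_mod_cast hc₂.ne'
      generalize kl (fun t => χ (t : ZMod N₀)) ((a ^ 2 * (s * s') : ℕ) : ℤ) 1 c₂ = K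
      generalize j _ = J
      simp only [Nat.cast_mul, map_mul]
      field_simp
      linear_combination (-(χ (a : ZMod N₀) * χ (s' : ZMod N₀) * K * J)) * d5
    · simp
  · have hL : T j χ M (g * Q * r) (g * Q * r') c = 0 := by
      rw [T]
      split_ifs with h0
      · rw [mul_assoc g Q r, mul_assoc g Q r',
          hS2 hχ g (Q * r) (Q * r') c hg hc (hNM.trans h0.2) hgp,
          if_neg fun h1 => hA ⟨h0.2, h1⟩]
        simp
      · rfl
    rw [hL]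
    refine (sum_eq_zero fun δ₁ _ => sum_eq_zero fun δ₂ _ => ?_).symm
    split_ifs with hd
    · obtain ⟨c₂, rfl⟩ := hd
      have he : 0 < g * (δ₁ * δ₂) := Nat.pos_of_mul_pos_right hc
      rw [Nat.mul_div_cancel_left _ he, T, if_neg, mul_zero]
      rintro ⟨-, h1⟩
      rw [Nat.lcm_dvd_iff, div_gcd_dvd_iff hM] at h1
      refine hA ⟨h1.2.trans ⟨δ₂, by ring⟩, ?_⟩
      rw [mul_assoc]
      exact Nat.mul_dvd_mul_left _ (h1.1.mul_left _)
    · simp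

/-- The diagonal term. -/
lemma diag (D : ℂ) {N₀ : ℕ} (χ : DirichletCharacter ℂ N₀) {g Q r r' : ℕ} (hg : 0 < g)
    (hQ : 0 < Q) (hr : 0 < r) (hr' : 0 < r') (hrQ : r.Coprime Q) (hr'Q : r'.Coprime Q) :
    (if g * Q * r = g * Q * r' then D else 0) = ∑ δ₁ ∈ Q.divisors, ∑ δ₂ ∈ (r.gcd r').divisors,
      χ ((Q / δ₁ : ℕ) : ZMod N₀) * conj (χ ((r / δ₂ : ℕ) : ZMod N₀)) *
        (if (Q / δ₁) ^ 2 = r / δ₂ * (r' / δ₂) then D else 0) := by
  have key : ∀ δ₁ ∈ Q.divisors, ∀ δ₂ ∈ (r.gcd r').divisors,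
      (Q / δ₁) ^ 2 = r / δ₂ * (r' / δ₂) → δ₁ = Q ∧ δ₂ = r ∧ δ₂ = r' := by
    intro δ₁ h₁ δ₂ h₂ he
    obtain ⟨a, rfl⟩ := Nat.dvd_of_mem_divisors h₁
    obtain ⟨s, rfl⟩ := (Nat.dvd_of_mem_divisors h₂).trans (Nat.gcd_dvd_left _ _)
    obtain ⟨s', rfl⟩ := (Nat.dvd_of_mem_divisors h₂).trans (Nat.gcd_dvd_right _ _)
    have hδ₁ : 0 < δ₁ := Nat.pos_of_mul_pos_right hQ
    have hδ₂ : 0 < δ₂ := Nat.pos_of_mul_pos_right hr
    rw [Nat.mul_div_cancel_left _ hδ₁, Nat.mul_div_cancel_left _ hδ₂,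
      Nat.mul_div_cancel_left _ hδ₂] at he
    have hco : (a ^ 2).Coprime (s * s') :=
      Nat.Coprime.pow_left _ (Nat.Coprime.mul_right
        hrQ.coprime_mul_left.coprime_mul_left_right.symm
        hr'Q.coprime_mul_left.coprime_mul_left_right.symm)
    rw [he, Nat.coprime_self] at hco
    rw [hco] at he
    rw [(Nat.pow_eq_one.1 he).resolve_right two_ne_zero, Nat.eq_one_of_mul_eq_one_right hco, Nat.eq_one_of_mul_eq_one_left hco]
    simp
  split_ifs with h0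
  · obtain rfl : r = r' := Nat.eq_of_mul_eq_mul_left (by positivity) h0
    rw [sum_eq_single_of_mem Q (Nat.mem_divisors_self _ hQ.ne'),
      sum_eq_single_of_mem r (by simp [hr.ne'])]
    · simp [Nat.div_self hQ, Nat.div_self hr]
    · intro δ₂ h₂ hne
      rw [if_neg fun he => hne (key Q (Nat.mem_divisors_self _ hQ.ne') δ₂ h₂ he).2.1, mul_zero]
    · intro δ₁ h₁ hne
      refine sum_eq_zero fun δ₂ h₂ => ?_
      rw [if_neg fun he => hne (key δ₁ h₁ δ₂ h₂ he).1, mul_zero]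
  · refine (sum_eq_zero fun δ₁ h₁ => sum_eq_zero fun δ₂ h₂ => ?_).symm
    rw [if_neg, mul_zero]
    intro he
    obtain ⟨-, h1, h2⟩ := key δ₁ h₁ δ₂ h₂ he
    exact h0 (by rw [← h1, h2])

end Hk

theorem hk (h : S_Sel) : S_Hk := by
  intro D j X₀ M N₀ χ g Q hX hj hM hNM hχ hg hgp hQ hQN r r' hr hr' hc1 hc2
  simp only [Hk.Bn_eq, mul_add, sum_add_distrib]
  rw [Hk.diag D χ hg hQ hr hr' hc1.coprime_mul_right_right hc2.coprime_mul_right_right]
  congr 1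
  rw [funext (Hk.term h j χ hM hNM hχ hg hgp hQ hQN hr hr' hc1 hc2)]
  refine HasSum.tsum_eq (hasSum_sum fun δ₁ h₁ => hasSum_sum fun δ₂ h₂ => HasSum.mul_left _ ?_)
  have d1 := Nat.dvd_of_mem_divisors h₁
  have d2 := (Nat.dvd_of_mem_divisors h₂).trans (Nat.gcd_dvd_left _ _)
  have d3 := (Nat.dvd_of_mem_divisors h₂).trans (Nat.gcd_dvd_right _ _)
  have hδ₁ := Nat.pos_of_dvd_of_pos d1 hQ
  have hδ₂ := Nat.pos_of_dvd_of_pos d2 hr
  have ha := Nat.div_pos (Nat.le_of_dvd hQ d1) hδ₁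
  have hs := Nat.div_pos (Nat.le_of_dvd hr d2) hδ₂
  have hs' := Nat.div_pos (Nat.le_of_dvd hr' d3) hδ₂
  exact Hk.hasSum_dilate (by positivity)
    (Hk.summable_T hX hj χ _ (by positivity) (by positivity)).hasSum

end MR
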