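import Pool.Agent.P.MP_79de8b_nt.Basic

/-! The mean square on horocycles and the multiplicative weight. -/

open Complex UpperHalfPlane MeasureTheory Finset
open scoped Real MatrixGroups ComplexConjugate

noncomputable section
namespace MR
namespace Hor

theorem sandwich {J : ℝ → ℝ} (hJ : AntitoneOn J (Set.Ioi 0))
    (hi : ∀ a, 0 < a → IntegrableOn J (Set.Ioi a)) {a b : ℝ} (ha : 0 < a) (hab : a ≤ b) :
    (b - a) * J b ≤ (∫ y in Set.Ioi a, J y) - ∫ y in Set.Ioi b, J y ∧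
      (∫ y in Set.Ioi a, J y) - ∫ y in Set.Ioi b, J y ≤ (b - a) * J a := by
  have hb := ha.trans_le hab
  have h1 : IntervalIntegrable J volume a b :=
    (intervalIntegrable_iff_integrableOn_Ioc_of_le hab).mpr ((hi a ha).mono_set Set.Ioc_subset_Ioi_self)
  rw [← intervalIntegral.integral_interval_add_Ioi (hi a ha) (hi b hb), add_sub_cancel_right]
  constructor
  · have := intervalIntegral.integral_mono_on hab (intervalIntegrable_const (c := J b)) h1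
      fun y hy => hJ (ha.trans_le hy.1) hb hy.2
    simpa using this
  · have := intervalIntegral.integral_mono_on hab h1 (intervalIntegrable_const (c := J a))
      fun y hy => hJ ha (ha.trans_le hy.1) hy.1
    simpa using this

theorem rpow_le {t Y : ℝ} (ht : 0 < t) (hY : t ^ 5 / 2 ≤ Y) : Y ^ (-(3 / 5 : ℝ)) ≤ 8 / t ^ 3 := by
  have h1 : (t / 2) ^ 5 ≤ Y := by
    have : 0 < t ^ 5 := by positivity
    rw [div_pow]
    linarith
  refine (Real.rpow_le_rpow_of_nonpos (by positivity) h1 (by norm_num)).trans (le_of_eq ?_)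
  rw [← Real.rpow_natCast, ← Real.rpow_mul (by positivity), show ((5 : ℕ) : ℝ) * -(3 / 5) =
    -((3 : ℕ) : ℝ) by norm_num, Real.rpow_neg (by positivity), Real.rpow_natCast]
  field_simp
  norm_num

theorem tauber {J : ℝ → ℝ} (hJ : AntitoneOn J (Set.Ioi 0))
    (hi : ∀ a, 0 < a → IntegrableOn J (Set.Ioi a)) {c C : ℝ} (hc : 0 ≤ c) (hC : 0 ≤ C)
    (h : ∀ Y, 0 < Y → Y ≤ 1 → |(∫ y in Set.Ioi Y, J y) - c / Y| ≤ C * Y ^ (-(3 / 5 : ℝ)))
    {t : ℝ} (ht : 0 < t) (ht' : t ≤ 1 / 2) : |(t ^ 5) ^ 2 * J (t ^ 5) - c| ≤ (c + 32 * C) * t := by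
  have h5 : 0 < t ^ 5 := by positivity
  have h5' : t ^ 5 ≤ 1 / 32 := (pow_le_pow_left₀ ht.le ht' 5).trans (by norm_num)
  have k : ∀ Y, t ^ 5 / 2 ≤ Y → Y ≤ 1 → |(∫ y in Set.Ioi Y, J y) - c / Y| ≤ C * (8 / t ^ 3) :=
    fun Y h1 h2 => (h Y (by linarith) h2).trans (mul_le_mul_of_nonneg_left (rpow_le ht h1) hC)
  have k0 := abs_le.mp (k (t ^ 5) (by linarith) (by linarith))
  have k1 := abs_le.mp (k (t ^ 5 * (1 - t / 2)) (by nlinarith) (by nlinarith))
  have k2 := abs_le.mp (k (t ^ 5 * (1 + t / 2)) (by nlinarith) (by nlinarith))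
  have s1 := (sandwich hJ hi (a := t ^ 5 * (1 - t / 2)) (b := t ^ 5) (by nlinarith)
    (by nlinarith)).1
  have s2 := (sandwich hJ hi (a := t ^ 5) (b := t ^ 5 * (1 + t / 2)) h5 (by nlinarith)).2
  have h6 : 0 < 2 * t ^ 4 := by positivity
  have h7 : 0 < 1 - t / 2 := by linarith
  have h8 : 0 < 1 + t / 2 := by linarith
  rw [abs_le]
  constructor
  · have e1 := mul_le_mul_of_nonneg_left (show c / t ^ 5 - c / (t ^ 5 * (1 + t / 2)) -
      2 * (C * (8 / t ^ 3)) ≤ (t ^ 5 * (1 + t / 2) - t ^ 5) * J (t ^ 5) by linarith) h6.le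
    have e2 : 2 * t ^ 4 * (c / t ^ 5 - c / (t ^ 5 * (1 + t / 2)) - 2 * (C * (8 / t ^ 3))) =
        c / (1 + t / 2) - 32 * C * t := by field_simp; ring
    have e3 : c * (1 - t) ≤ c / (1 + t / 2) := by
      rw [le_div_iff₀ h8, mul_assoc]
      exact mul_le_of_le_one_right hc (by nlinarith)
    rw [e2] at e1
    nlinarith
  · have e1 := mul_le_mul_of_nonneg_left (show (t ^ 5 - t ^ 5 * (1 - t / 2)) * J (t ^ 5) ≤
      c / (t ^ 5 * (1 - t / 2)) - c / t ^ 5 + 2 * (C * (8 / t ^ 3)) by linarith) h6.le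
    have e2 : 2 * t ^ 4 * (c / (t ^ 5 * (1 - t / 2)) - c / t ^ 5 + 2 * (C * (8 / t ^ 3))) =
        c / (1 - t / 2) + 32 * C * t := by
      have : 2 - t ≠ 0 := ne_of_gt (by linarith)
      field_simp
      ring
    have e3 : c / (1 - t / 2) ≤ c * (1 + t) := by
      rw [div_le_iff₀ h7, mul_assoc]
      exact le_mul_of_one_le_right hc (by nlinarith)
    rw [e2] at e1
    nlinarith

theorem IP_eq {a : ℕ → ℂ} (η : ℝ) (h0 : a 0 = 0) :
    IP (fun n => ‖a n‖ ^ 2 / (n : ℝ) ^ 2) (fun _ => True) η = Ib 1 a η := by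
  rw [IP, Ib, ← tsum_mul_left]
  refine tsum_congr fun n => ?_
  rw [Set.indicator_of_mem (by trivial), ww]
  rcases Nat.eq_zero_or_pos n with rfl | hn
  · simp [h0]
  · have : (n : ℝ) ≠ 0 := by exact_mod_cast hn.ne'
    rw [Nat.cast_one, div_one, mul_assoc (4 * π)]
    field_simp

theorem Ib_eq (hSer : S_Ser) {N : ℕ} (Φ : Fam N) {η : ℝ} (hη : 0 < η) :
    Ib 1 Φ.a η = Ib N (Φ.b 1) η := by
  obtain ⟨-, h1, h2, -, -, -, h3, -⟩ := hSer _ _ _ _ Φ.sera
  obtain ⟨-, -, -, -, -, -, h4, -⟩ := hSer _ _ _ _ (Φ.ser 1)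
  have h5 := (h3 (Real.log η) (Real.log η)).1
  have h6 := (h4 (Real.log η) (Real.log η)).1
  have hc : Continuous fun x => FF (Φ.G 1) x (Real.log η) :=
    h1.comp (f := fun x : ℝ => (x, Real.log η)) (by fun_prop)
  have hp : Function.Periodic
      (fun x => FF (Φ.G 1) x (Real.log η) * conj (FF (Φ.G 1) x (Real.log η))) 1 := fun x => by
    have := h2 x (Real.log η)
    rw [Nat.cast_one] at this
    simp only [this]
  have h7 := hp.intervalIntegral_add_zsmul_eq N 0 fun _ _ =>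
    (hc.mul (Complex.continuous_conj.comp hc)).intervalIntegrable _ _
  have hN : (N : ℂ) ≠ 0 := by exact_mod_cast Φ.pos.ne'
  simp only [zero_add, zsmul_eq_mul, mul_one, Int.cast_natCast] at h7
  rw [h7, mul_div_cancel_left₀ _ hN] at h6
  rw [Nat.cast_one, Nat.cast_one, div_one, h6, Complex.ofReal_inj, Real.exp_add, Real.exp_log hη,
    add_self_div_two, mul_right_inj' (by positivity)] at h5
  exact h5.symm

end Hor

open Hor

theorem hor (hSer : S_Ser) (h2 : S_H2) : S_Hor := by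
  intro N Φ
  obtain ⟨c, C, hc, h⟩ := h2 N Φ
  have hC : 0 ≤ C := by simpa using (abs_nonneg _).trans (h 1 1 one_pos le_rfl)
  refine ⟨c, c + 32 * C + 2 * (Φ.K ^ 2 + c), hc, by positivity, fun σ η hη => ?_⟩
  obtain ⟨-, -, -, -, -, -, -, h3, h4, -⟩ := hSer _ _ _ _ (Φ.ser σ)
  have hN : (0 : ℝ) < N := by exact_mod_cast Φ.pos
  have hJ : AntitoneOn (fun y => Ib N (Φ.b σ) y / y ^ 2) (Set.Ioi 0) := fun x hx y hy hxy => by
    have hx' : x ^ 2 ≠ 0 := pow_ne_zero 2 (ne_of_gt hx)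
    have hy' : y ^ 2 ≠ 0 := pow_ne_zero 2 (ne_of_gt hy)
    simp only [Ib, mul_div_cancel_left₀ _ hx', mul_div_cancel_left₀ _ hy']
    refine (h3 y hy).1.tsum_le_tsum (fun n => ?_) (h3 x hx).1
    gcongr
  have hi : ∀ a, 0 < a → IntegrableOn (fun y => Ib N (Φ.b σ) y / y ^ 2) (Set.Ioi a) := fun a ha => by
    refine Integrable.mono' ((integrableOn_Ioi_rpow_of_lt (a := -2) (by norm_num) ha).const_mul
      (Φ.K ^ 2)) (ContinuousOn.aestronglyMeasurable ?_ measurableSet_Ioi) ?_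
    · exact (h4.mono (Set.Ioi_subset_Ioi ha.le)).div (by fun_prop)
        fun y hy => pow_ne_zero 2 (ha.trans hy).ne'
    · refine (ae_restrict_iff' measurableSet_Ioi).mpr (Filter.Eventually.of_forall fun y hy => ?_)
      have hy' : 0 < y := ha.trans hy
      obtain ⟨-, k1, k2, -⟩ := h3 y hy'
      rw [Real.norm_of_nonneg (by positivity), Real.rpow_neg hy'.le, Real.rpow_two,
        ← div_eq_mul_inv]
      gcongr
  have ht : 0 < η ^ (1 / 5 : ℝ) := Real.rpow_pos_of_pos hη _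
  have ht5 : (η ^ (1 / 5 : ℝ)) ^ 5 = η := by
    rw [← Real.rpow_natCast, ← Real.rpow_mul hη.le]; norm_num
  have hK : 0 ≤ Φ.K ^ 2 + c := by positivity
  by_cases h5 : η ^ (1 / 5 : ℝ) ≤ 1 / 2
  · have := tauber hJ hi hc hC (h σ) ht h5
    rw [ht5, mul_div_cancel₀ _ (pow_ne_zero 2 hη.ne')] at this
    nlinarith
  · obtain ⟨-, k1, k2, -⟩ := h3 η hη
    have h6 : |Ib N (Φ.b σ) η - c| ≤ Φ.K ^ 2 + c := abs_le.mpr ⟨by nlinarith, by linarith⟩
    have h7 : 0 ≤ c + 32 * C := by positivity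
    nlinarith

theorem wtt (hSer : S_Ser) (hHor : S_Hor) (hPtw : S_Ptw) : S_Wt := by
  intro N Φ
  obtain ⟨c, C, hc, hC, h⟩ := hHor N Φ
  obtain ⟨D, hD, h'⟩ := hPtw N Φ
  obtain ⟨-, -, -, -, -, -, -, h3, -⟩ := hSer _ _ _ _ Φ.sera
  have hN : (1 : ℝ) ≤ N := by exact_mod_cast Φ.pos
  have p1 : 0 ≤ (D * N) ^ 2 := by positivity
  have p2 : 0 ≤ Φ.K ^ 2 := by positivity
  refine ⟨c, 1 + (D * N) ^ 2 + Φ.K ^ 2 + C, fun n => by positivity, by simp, by simp [Φ.a1],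
    fun m n hmn => ?_, hc, by linarith, fun n hn => ?_, fun η hη => ?_, fun η hη => ?_⟩
  · rw [Φ.mul m n hmn, norm_mul]
    push_cast
    ring
  · have hn' : (0 : ℝ) < n := by exact_mod_cast hn
    have h1 : ‖Φ.a n‖ ≤ D * N * (n : ℝ) ^ (4 / 5 : ℝ) := by
      rw [← Φ.ab]
      refine (h' 1 _).trans ?_
      rw [Nat.cast_mul, Real.mul_rpow (by positivity) hn'.le, mul_assoc]
      gcongr
      exact Real.rpow_le_self_of_one_le hN (by norm_num)
    have h2 : ((n : ℝ) ^ (4 / 5 : ℝ)) ^ 2 / (n : ℝ) ^ 2 = (n : ℝ) ^ (-(2 / 5 : ℝ)) := by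
      rw [← Real.rpow_natCast, ← Real.rpow_natCast (n : ℝ) 2, ← Real.rpow_mul hn'.le,
        ← Real.rpow_sub hn']
      norm_num
    calc ‖Φ.a n‖ ^ 2 / (n : ℝ) ^ 2 ≤ (D * N * (n : ℝ) ^ (4 / 5 : ℝ)) ^ 2 / (n : ℝ) ^ 2 := by gcongr
      _ = (D * N) ^ 2 * (n : ℝ) ^ (-(2 / 5 : ℝ)) := by rw [mul_pow, mul_div_assoc, h2]
      _ ≤ _ := by gcongr; linarith
  · rw [IP_eq η Φ.sera.b0]
    linarith [(h3 η hη).2.2.1]
  · rw [IP_eq η Φ.sera.b0, Ib_eq hSer Φ hη]
    refine (h 1 η hη).trans ?_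
    gcongr
    linarith

end MR
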