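import Pool.Agent.P.MP_79de8b_nt.Basic

/-! The identity of Selberg for twisted Kloosterman sums. -/

open Complex Finset

noncomputable section
namespace MR
namespace Sel

/-- `e(a / c)` -/
def E (c : ℕ) (a : ℤ) : ℂ := ex ((a : ℝ) / c)

lemma E_add (c : ℕ) (a b : ℤ) : E c (a + b) = E c a * E c b := by
  unfold E; rw [← ex_add]; congr 1; push_cast; ring

lemma E_congr {c : ℕ} {a b : ℤ} (h : a ≡ b [ZMOD c]) : E c a = E c b := ex_congr h

lemma E_cancel {d : ℕ} (hd : 0 < d) (c : ℕ) (a : ℤ) : E (d * c) (d * a) = E c a := by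
  unfold E
  congr 1
  have : (d : ℝ) ≠ 0 := by positivity
  push_cast
  rw [mul_div_mul_left _ _ this]

lemma kl_def (w : ℕ → ℂ) (a b : ℤ) (c : ℕ) :
    kl w a b c = ∑ t ∈ un c, w t * E c (a * t + b * iv t c) := rfl

lemma sum_shift (f : ℕ → ℂ) (c : ℕ) (hf : ∀ y, f (y + c) = f y) (k : ℕ) :
    ∑ y ∈ range c, f (y + k) = ∑ y ∈ range c, f y := by
  induction k with
  | zero => simp
  | succ k ih =>
    have h1 := sum_range_succ (fun y => f (y + k)) c
    have h2 := sum_range_succ' (fun y => f (y + k)) c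
    have h3 : f (c + k) = f (0 + k) := by rw [add_comm c k, hf, zero_add]
    have h4 : ∑ y ∈ range c, f (y + (k + 1)) = ∑ y ∈ range c, f (y + 1 + k) :=
      sum_congr rfl fun y _ => by congr 1; ring
    rw [h4, ← ih]
    rw [h1, h3] at h2
    exact (add_right_cancel h2).symm

lemma sum_split (f : ℕ → ℂ) (d c : ℕ) :
    ∑ x ∈ range (d * c), f x = ∑ x ∈ range c, ∑ i ∈ range d, f (x + c * i) := by
  induction d with
  | zero => simp
  | succ d ih =>
    rw [Nat.succ_mul, sum_range_add, ih, ← sum_add_distrib]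
    refine sum_congr rfl fun x _ => ?_
    rw [sum_range_succ]
    congr 2
    ring

lemma sum_gcd (f : ℕ → ℂ) {c : ℕ} (hc : 0 < c) :
    ∑ y ∈ range c, f y = ∑ d ∈ c.divisors, ∑ s ∈ un (c / d), f (d * s) := by
  rw [← sum_fiberwise_of_maps_to (g := fun y => y.gcd c) (t := c.divisors)
    (fun y _ => Nat.mem_divisors.2 ⟨Nat.gcd_dvd_right _ _, hc.ne'⟩)]
  refine sum_congr rfl fun d hd => ?_
  obtain ⟨c', rfl⟩ := Nat.dvd_of_mem_divisors hd
  have hd0 : 0 < d := Nat.pos_of_mul_pos_right hc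
  rw [Nat.mul_div_cancel_left _ hd0]
  symm
  refine sum_bij (fun s _ => d * s) (fun s hs => ?_) (fun s _ t _ h => ?_) (fun y hy => ?_)
    fun _ _ => rfl
  · obtain ⟨h1, h2⟩ := mem_un.1 hs
    refine mem_filter.2 ⟨mem_range.2 (Nat.mul_lt_mul_of_pos_left h1 hd0), ?_⟩
    rw [Nat.gcd_mul_left, h2.gcd_eq_one, mul_one]
  · exact Nat.eq_of_mul_eq_mul_left hd0 h
  · obtain ⟨h1, h2⟩ := mem_filter.1 hy
    have h3 : d ∣ y := h2 ▸ Nat.gcd_dvd_left y (d * c')
    obtain ⟨s, rfl⟩ := h3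
    refine ⟨s, mem_un.2 ⟨lt_of_mul_lt_mul_left (mem_range.1 h1) (Nat.zero_le d), ?_⟩, rfl⟩
    rw [Nat.gcd_mul_left] at h2
    exact Nat.eq_of_mul_eq_mul_left hd0 (h2.trans (mul_one d).symm)

lemma sum_iv (f : ℕ → ℂ) {c : ℕ} (hc : 0 < c) : ∑ s ∈ un c, f (iv s c) = ∑ t ∈ un c, f t :=
  sum_nbij' (fun s => iv s c) (fun s => iv s c) (fun _ hs => iv_mem_un hc (mem_un.1 hs).2)
    (fun _ hs => iv_mem_un hc (mem_un.1 hs).2) (fun _ hs => iv_iv hs) (fun _ hs => iv_iv hs)
    fun _ _ => rfl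

lemma solve {c x y n : ℕ} (hc : 0 < c) (hx : x.Coprime c) :
    x * y ≡ n [MOD c] ↔ y ≡ n * iv x c [MOD c] := by
  have h1 := mul_iv hc hx
  constructor
  · intro h
    calc y = 1 * y := (one_mul y).symm
      _ ≡ x * iv x c * y [MOD c] := h1.symm.mul_right _
      _ = x * y * iv x c := by ring
      _ ≡ n * iv x c [MOD c] := h.mul_right _
  · intro h
    calc x * y ≡ x * (n * iv x c) [MOD c] := h.mul_left _
      _ = n * (x * iv x c) := by ring
      _ ≡ n * 1 [MOD c] := h1.mul_left _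
      _ = n := mul_one n

lemma sum_class (f : ℕ → ℂ) {c : ℕ} (hc : 0 < c) (a : ℕ) :
    ∑ y ∈ range c, (if y ≡ a [MOD c] then f y else 0) = f (a % c) := by
  rw [sum_eq_single (a % c)]
  · rw [if_pos (Nat.mod_modEq a c)]
  · intro y hy hne
    rw [if_neg]
    intro h
    apply hne
    have : y % c = a % c := h
    rwa [Nat.mod_eq_of_lt (mem_range.1 hy)] at this
  · intro h
    exact absurd (mem_range.2 (Nat.mod_lt a hc)) h

/-- the inner sum over `y` -/
lemma inner_y {c : ℕ} (hc : 0 < c) (x n : ℕ) :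
    ∑ y ∈ range c, (if x * y ≡ n [MOD c] then E c y else 0) =
      if x.Coprime c then E c (n * iv x c) else 0 := by
  split_ifs with hx
  · simp only [solve hc hx]
    rw [sum_class (fun y => E c y) hc]
    refine E_congr ?_
    have := Int.natCast_modEq_iff.2 (Nat.mod_modEq (n * iv x c) c)
    push_cast at this ⊢
    exact this
  · obtain ⟨c', hc'⟩ := Nat.gcd_dvd_right x c
    obtain ⟨x', hx'⟩ := Nat.gcd_dvd_left x c
    set g := x.gcd c with hg
    have hg0 : 0 < g := Nat.gcd_pos_of_pos_right _ hc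
    have hc'0 : 0 < c' := by
      rcases Nat.eq_zero_or_pos c' with h | h
      · rw [h, mul_zero] at hc'; omega
      · exact h
    have hper : ∀ y, (if x * (y + c) ≡ n [MOD c] then E c ((y + c : ℕ) : ℤ) else 0) =
        if x * y ≡ n [MOD c] then E c y else 0 := by
      intro y
      have e1 : x * (y + c) ≡ x * y [MOD c] := (Nat.add_modEq_right).mul_left _
      have e2 : E c ((y + c : ℕ) : ℤ) = E c y := E_congr (by push_cast; simp)
      rw [e2]
      exact if_congr ⟨fun h => e1.symm.trans h, fun h => e1.trans h⟩ rfl rfl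
    have h1 := sum_shift (fun y => if x * y ≡ n [MOD c] then E c y else 0) c hper c'
    have h2 : ∀ y, (if x * (y + c') ≡ n [MOD c] then E c ((y + c' : ℕ) : ℤ) else 0) =
        E c c' * if x * y ≡ n [MOD c] then E c y else 0 := by
      intro y
      have e0 : x * (y + c') = x * y + x' * c := by
        calc x * (y + c') = x * y + x * c' := by ring
          _ = x * y + g * x' * c' := by rw [← hx']
          _ = x * y + x' * (g * c') := by ring
          _ = _ := by rw [← hc']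
      have e1 : x * (y + c') ≡ x * y [MOD c] := by
        rw [e0]; exact Nat.add_mul_mod_self_right _ _ _
      by_cases h : x * y ≡ n [MOD c]
      · rw [if_pos h, if_pos (e1.trans h), ← E_add]; congr 1; push_cast; ring
      · rw [if_neg h, if_neg (fun h' => h (e1.symm.trans h')), mul_zero]
    simp only [h2, ← mul_sum] at h1
    have h3 : E c c' ≠ 1 := by
      intro h
      have h4 : (c : ℤ) ∣ (c' : ℤ) := (ex_div_eq_one_iff hc _).1 h
      have h5 : c ≤ c' := Nat.le_of_dvd hc'0 (Int.natCast_dvd_natCast.1 h4)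
      have h6 : g ≠ 1 := hx
      have h7 : 2 * c' ≤ g * c' := Nat.mul_le_mul_right _ (by omega)
      omega
    have h8 : (E c c' - 1) * ∑ y ∈ range c, (if x * y ≡ n [MOD c] then E c y else 0) = 0 := by
      rw [sub_mul, h1, one_mul, sub_self]
    exact (mul_eq_zero.1 h8).resolve_left (sub_ne_zero.2 h3)

variable {N₀ : ℕ} (χ : DirichletCharacter ℂ N₀)

lemma chi_congr {c x y : ℕ} (hN : N₀ ∣ c) (h : x ≡ y [MOD c]) :
    χ (x : ZMod N₀) = χ (y : ZMod N₀) := by
  rw [(ZMod.natCast_eq_natCast_iff _ _ _).2 (h.of_dvd hN)]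

/-- the inner sum over `x` -/
lemma inner_x {d c s : ℕ} (hd : 0 < d) (hc : 0 < c) (hs : s.Coprime c) (hN : N₀ ∣ d * c)
    (m n : ℕ) (hn : n.Coprime N₀) :
    ∑ x ∈ range (d * c), (if x * (d * s) ≡ n [MOD d * c] then
      χ (x : ZMod N₀) * E (d * c) (m * x) else 0) =
      if d ∣ m ∧ d ∣ n then d * χ ((n / d : ℕ) : ZMod N₀) * (χ (iv s c : ZMod N₀) *
        E c ((m / d * (n / d) : ℕ) * iv s c)) else 0 := by
  by_cases hdn : d ∣ n
  · obtain ⟨n', rfl⟩ := hdn
    have hN' : N₀ ∣ c :=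
      (Nat.Coprime.coprime_dvd_left (Dvd.intro _ rfl) hn).symm.dvd_of_dvd_mul_left hN
    have e1 : ∀ x i : ℕ, (x + c * i) * (d * s) ≡ d * n' [MOD d * c] ↔ x ≡ n' * iv s c [MOD c] := by
      intro x i
      rw [← solve hc hs, show (x + c * i) * (d * s) = d * (s * x + s * i * c) by ring,
        Nat.ModEq.mul_left_cancel_iff' hd.ne']
      have : s * x + s * i * c ≡ s * x [MOD c] := Nat.add_mul_mod_self_right _ _ _
      exact ⟨fun h => this.symm.trans h, fun h => this.trans h⟩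
    have e2 : ∀ x i : ℕ, χ ((x + c * i : ℕ) : ZMod N₀) * E (d * c) (m * (x + c * i : ℕ)) =
        χ (x : ZMod N₀) * E (d * c) (m * x) * E d (m * i) := by
      intro x i
      rw [chi_congr χ hN' (show x + c * i ≡ x [MOD c] from Nat.add_mul_mod_self_left x c i), mul_assoc, ← E_cancel hc d (m * i),
        mul_comm c d, ← E_add]
      congr 2
      push_cast
      ring
    rw [sum_split]
    simp only [e1, e2]
    have e3 : ∀ x : ℕ, ∑ i ∈ range d, (if x ≡ n' * iv s c [MOD c] then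
        χ (x : ZMod N₀) * E (d * c) (m * x) * E d (m * i) else 0) =
        if x ≡ n' * iv s c [MOD c] then χ (x : ZMod N₀) * E (d * c) (m * x) *
          (if (d : ℤ) ∣ (m : ℤ) then (d : ℂ) else 0) else 0 := by
      intro x
      by_cases h : x ≡ n' * iv s c [MOD c]
      · simp only [if_pos h]
        rw [← mul_sum, ← sum_ex_range hd]
        rfl
      · simp only [if_neg h, sum_const_zero]
    simp only [e3]
    rw [sum_class (fun x => χ (x : ZMod N₀) * E (d * c) (m * x) *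
      (if (d : ℤ) ∣ (m : ℤ) then (d : ℂ) else 0)) hc]
    by_cases hm : d ∣ m
    · obtain ⟨m', rfl⟩ := hm
      rw [if_pos (Int.natCast_dvd_natCast.2 (Dvd.intro _ rfl)),
        if_pos ⟨Dvd.intro _ rfl, Dvd.intro _ rfl⟩, Nat.mul_div_cancel_left _ hd,
        Nat.mul_div_cancel_left _ hd, chi_congr χ hN' (Nat.mod_modEq _ _)]
      have e4 : E (d * c) (((d * m' : ℕ) : ℤ) * ((n' * iv s c % c : ℕ) : ℤ)) =
          E c ((m' * n' : ℕ) * iv s c) := by
        rw [show (((d * m' : ℕ) : ℤ) * ((n' * iv s c % c : ℕ) : ℤ)) =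
          d * (m' * ((n' * iv s c % c : ℕ) : ℤ)) by push_cast; ring, E_cancel hd]
        refine E_congr ?_
        have := (Int.natCast_modEq_iff.2 (Nat.mod_modEq (n' * iv s c) c)).mul_left (m' : ℤ)
        refine this.trans ?_
        push_cast
        rw [mul_assoc]
      rw [e4]
      push_cast
      rw [map_mul]
      ring
    · rw [if_neg (fun h => hm (Int.natCast_dvd_natCast.1 h)), if_neg (fun h => hm h.1), mul_zero]
  · rw [if_neg (fun h => hdn h.2)]
    refine sum_eq_zero fun x _ => if_neg fun h => hdn ?_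
    have h1 : x * (d * s) ≡ n [MOD d] := h.of_dvd (Dvd.intro _ rfl)
    exact (h1.dvd_iff (dvd_refl d)).1 (Dvd.dvd.mul_left (Dvd.intro _ rfl) x)

lemma part1 (m n c : ℕ) (hc : 0 < c) (hN : N₀ ∣ c) (hn : n.Coprime N₀) :
    kl (fun t => χ (t : ZMod N₀)) m n c = ∑ δ ∈ ((m.gcd n).gcd c).divisors,
      δ * χ ((n / δ : ℕ) : ZMod N₀) *
        kl (fun t => χ (t : ZMod N₀)) ((m / δ * (n / δ) : ℕ) : ℤ) 1 (c / δ) := by
  have h1 : kl (fun t => χ (t : ZMod N₀)) m n c = ∑ x ∈ range c, ∑ y ∈ range c,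
      (if x * y ≡ n [MOD c] then χ (x : ZMod N₀) * E c (m * x) else 0) * E c y := by
    rw [kl_def, un, sum_filter]
    refine sum_congr rfl fun x _ => ?_
    have : ∀ y : ℕ, (if x * y ≡ n [MOD c] then χ (x : ZMod N₀) * E c (m * x) else 0) * E c y =
        χ (x : ZMod N₀) * E c (m * x) * if x * y ≡ n [MOD c] then E c y else 0 := by
      intro y
      split_ifs <;> simp
    simp only [this]
    rw [← mul_sum, inner_y hc]
    split_ifs
    · rw [E_add, mul_assoc]
    · simp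
  rw [h1, sum_comm, sum_gcd _ hc]
  have h2 : ((m.gcd n).gcd c).divisors = c.divisors.filter (fun d => d ∣ m ∧ d ∣ n) := by
    ext d
    have : (m.gcd n).gcd c ≠ 0 := (Nat.gcd_pos_of_pos_right _ hc).ne'
    simp only [Nat.mem_divisors, mem_filter, Nat.dvd_gcd_iff, this, hc.ne', ne_eq,
      not_false_eq_true, and_true]
    tauto
  rw [h2, sum_filter]
  refine sum_congr rfl fun d hd => ?_
  obtain ⟨c', rfl⟩ := Nat.dvd_of_mem_divisors hd
  have hd0 : 0 < d := Nat.pos_of_mul_pos_right hc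
  have hc0 : 0 < c' := Nat.pos_of_mul_pos_left hc
  rw [Nat.mul_div_cancel_left _ hd0]
  have h3 : ∀ s ∈ un c', ∑ x ∈ range (d * c'), (if x * (d * s) ≡ n [MOD d * c'] then
      χ (x : ZMod N₀) * E (d * c') (m * x) else 0) * E (d * c') ((d * s : ℕ) : ℤ) =
      if d ∣ m ∧ d ∣ n then d * χ ((n / d : ℕ) : ZMod N₀) * (χ (iv s c' : ZMod N₀) *
        E c' ((m / d * (n / d) : ℕ) * iv s c' + 1 * iv (iv s c') c')) else 0 := by
    intro s hs
    rw [← sum_mul, inner_x χ hd0 hc0 (mem_un.1 hs).2 hN m n hn, iv_iv hs, Nat.cast_mul d s,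
      E_cancel hd0, E_add, one_mul]
    split_ifs
    · ring
    · simp
  rw [sum_congr rfl h3]
  split_ifs
  · rw [← mul_sum, kl_def, sum_iv (fun t => χ (t : ZMod N₀) *
      E c' ((m / d * (n / d) : ℕ) * t + 1 * iv t c')) hc0]
  · simp

lemma coprime_of_primes {t g N : ℕ} (hg : ∀ p, p.Prime → p ∣ g → p ∣ N) (h : t.Coprime N) :
    t.Coprime g :=
  Nat.coprime_of_dvd fun p hp h1 h2 =>
    hp.one_lt.ne' (Nat.eq_one_of_dvd_coprimes h h1 (hg p hp h2))

lemma part2a (g m n c : ℕ) (hg : 0 < g) (hc : 0 < c) (hN : N₀ ∣ c)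
    (hp : ∀ p, p.Prime → p ∣ g → p ∣ N₀) :
    kl (fun t => χ (t : ZMod N₀)) ((g * m : ℕ) : ℤ) ((g * n : ℕ) : ℤ) (g * c) =
      g * kl (fun t => χ (t : ZMod N₀)) m n c := by
  rw [kl_def, kl_def, un, un, sum_filter, sum_filter, sum_split, mul_sum]
  refine sum_congr rfl fun x _ => ?_
  have h1 : ∀ i : ℕ, (if (x + c * i).Coprime (g * c) then χ ((x + c * i : ℕ) : ZMod N₀) *
      E (g * c) ((g * m : ℕ) * (x + c * i : ℕ) + (g * n : ℕ) * iv (x + c * i) (g * c)) else 0) =
      if x.Coprime c then χ (x : ZMod N₀) * E c (m * x + n * iv x c) else 0 := by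
    intro i
    have e0 : x + c * i ≡ x [MOD c] := Nat.add_mul_mod_self_left x c i
    have e1 : (x + c * i).Coprime c ↔ x.Coprime c := by
      unfold Nat.Coprime
      rw [e0.gcd_eq]
    by_cases hx : x.Coprime c
    · have e2 : (x + c * i).Coprime (g * c) :=
        Nat.Coprime.mul_right (coprime_of_primes (fun p h1 h2 => (hp p h1 h2).trans hN)
          (e1.2 hx)) (e1.2 hx)
      rw [if_pos hx, if_pos e2, chi_congr χ hN e0]
      congr 1
      rw [show ((g * m : ℕ) : ℤ) * (x + c * i : ℕ) + (g * n : ℕ) * iv (x + c * i) (g * c) =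
        g * (m * (x + c * i : ℕ) + n * iv (x + c * i) (g * c)) by push_cast; ring, E_cancel hg]
      refine E_congr (Int.ModEq.add ((Int.natCast_modEq_iff.2 e0).mul_left _)
        ((Int.natCast_modEq_iff.2 ?_).mul_left _))
      refine (iv_modEq_of_mul hc ?_).symm
      exact (e0.symm.mul_right _).trans
        ((mul_iv (Nat.mul_pos hg hc) e2).of_dvd (Dvd.intro_left _ rfl))
    · rw [if_neg hx, if_neg fun h => hx (e1.1 (Nat.Coprime.coprime_mul_left_right h))]
  simp only [h1]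
  rw [sum_const, card_range, nsmul_eq_mul]

lemma part2b (hN0 : 0 < N₀) (hχ : χ.IsPrimitive) (g m n c : ℕ) (hc : 0 < c) (hN : N₀ ∣ c)
    (hp : ∀ p, p.Prime → p ∣ g → p ∣ N₀) (hnd : ¬ g * N₀ ∣ c) :
    kl (fun t => χ (t : ZMod N₀)) ((g * m : ℕ) : ℤ) ((g * n : ℕ) : ℤ) c = 0 := by
  have : NeZero c := ⟨hc.ne'⟩
  have : NeZero N₀ := ⟨hN0.ne'⟩
  obtain ⟨g1, c', hco, hg1, hc'⟩ := Nat.exists_coprime g c
  set d := g.gcd c with hd
  have hdg : d ∣ g := Nat.gcd_dvd_left g c
  have h1 : ¬ N₀ ∣ c' := by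
    intro h
    apply hnd
    have h2 : g1 = 1 := by
      by_contra h3
      obtain ⟨p, hp1, hp2⟩ := Nat.exists_prime_and_dvd h3
      have h4 : p ∣ g := by rw [hg1]; exact hp2.mul_right _
      exact hp1.one_lt.ne' (Nat.eq_one_of_dvd_coprimes hco hp2 ((hp p hp1 h4).trans h))
    rw [h2, one_mul] at hg1
    rw [hc', hg1, mul_comm c']
    exact Nat.mul_dvd_mul_left _ h
  have h2 : ¬ χ.FactorsThrough (N₀.gcd c') := by
    intro h
    have h3 := DirichletCharacter.conductor_dvd_of_mem_conductorSet χ h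
    rw [(DirichletCharacter.isPrimitive_def χ).1 hχ] at h3
    exact h1 (h3.trans (Nat.gcd_dvd_right _ _))
  have : NeZero (N₀.gcd c') := ⟨(Nat.gcd_pos_of_pos_left _ hN0).ne'⟩
  rw [DirichletCharacter.factorsThrough_iff_ker_unitsMap (Nat.gcd_dvd_left N₀ c')] at h2
  obtain ⟨u, hu1, hu2⟩ := SetLike.not_le_iff_exists.1 h2
  have hu3 : χ (u : ZMod N₀) ≠ 1 := by
    intro h
    apply hu2
    rw [MonoidHom.mem_ker]
    exact Units.ext (by rw [MulChar.coe_toUnitHom]; exact h)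
  have hu4 : (u : ZMod N₀).val ≡ 1 [MOD N₀.gcd c'] := by
    rw [← ZMod.natCast_eq_natCast_iff, ZMod.natCast_val, Nat.cast_one]
    have := congrArg (fun v : (ZMod (N₀.gcd c'))ˣ => (v : ZMod (N₀.gcd c')))
      (MonoidHom.mem_ker.1 hu1)
    simpa [ZMod.unitsMap_def] using this
  obtain ⟨s, hs1, hs2⟩ := Nat.chineseRemainder' hu4
  have hsN : s.Coprime N₀ := by
    unfold Nat.Coprime
    rw [hs1.gcd_eq]
    exact ZMod.val_coe_unit_coprime u
  have hsc' : s.Coprime c' := by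
    unfold Nat.Coprime
    rw [hs2.gcd_eq]
    exact Nat.gcd_one_left _
  have hsc : s.Coprime c := by
    rw [hc']
    exact Nat.Coprime.mul_right hsc'
      (coprime_of_primes (fun p h1 h2 => hp p h1 (h2.trans hdg)) hsN)
  have hχs : χ (s : ZMod N₀) = χ (u : ZMod N₀) := by
    rw [chi_congr χ (dvd_refl _) hs1, ZMod.natCast_zmod_val]
  set S : (ZMod c)ˣ := ZMod.unitOfCoprime s hsc with hS
  have hSv : (S : ZMod c) = s := ZMod.coe_unitOfCoprime s hsc
  have hgS : (g : ZMod c) * S = g := by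
    have e1 : d * s ≡ d * 1 [MOD d * c'] := hs2.mul_left' d
    rw [mul_comm d c', ← hc'] at e1
    have e2 : g * s ≡ g [MOD c] := by
      have := e1.mul_left g1
      rwa [mul_one, ← mul_assoc, ← hg1] at this
    rw [hSv, ← Nat.cast_mul]
    exact (ZMod.natCast_eq_natCast_iff _ _ _).2 e2
  have hgS' : (g : ZMod c) * ((S⁻¹ : (ZMod c)ˣ) : ZMod c) = g := by
    conv_lhs => rw [← hgS]
    rw [mul_assoc, Units.mul_inv, mul_one]
  have key : kl (fun t => χ (t : ZMod N₀)) ((g * m : ℕ) : ℤ) ((g * n : ℕ) : ℤ) c =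
      χ (s : ZMod N₀) * kl (fun t => χ (t : ZMod N₀)) ((g * m : ℕ) : ℤ) ((g * n : ℕ) : ℤ) c := by
    rw [kl_eq, mul_sum, ← Equiv.sum_comp (Equiv.mulLeft S)]
    refine sum_congr rfl fun v _ => ?_
    have e1 : ((S * v : (ZMod c)ˣ) : ZMod c).val ≡ s * (v : ZMod c).val [MOD c] := by
      rw [← ZMod.natCast_eq_natCast_iff, ZMod.natCast_zmod_val, Nat.cast_mul,
        ZMod.natCast_zmod_val, Units.val_mul, hSv]
    simp only [Equiv.coe_mulLeft]
    rw [chi_congr χ hN e1, Nat.cast_mul s, map_mul, mul_assoc]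
    congr 3
    rw [mul_inv, Units.val_mul, Units.val_mul]
    push_cast
    linear_combination ((m : ZMod c) * v) * hgS + ((n : ZMod c) * ((v⁻¹ : (ZMod c)ˣ) : ZMod c)) * hgS'
  have h8 : (1 - χ (s : ZMod N₀)) *
      kl (fun t => χ (t : ZMod N₀)) ((g * m : ℕ) : ℤ) ((g * n : ℕ) : ℤ) c = 0 := by
    rw [sub_mul, one_mul, ← key, sub_self]
  refine (mul_eq_zero.1 h8).resolve_left (sub_ne_zero.2 ?_)
  rw [hχs]
  exact hu3.symm

end Sel

theorem sel : S_Sel := by
  intro N₀ χ hN0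
  refine ⟨fun m n c hc hN _ hn => Sel.part1 χ m n c hc hN hn, fun hχ g m n c hg hc hN hp => ?_⟩
  split_ifs with h
  · obtain ⟨k, rfl⟩ := h
    have hc' : 0 < N₀ * k := by
      rw [mul_assoc] at hc
      exact Nat.pos_of_mul_pos_left hc
    rw [mul_assoc, Nat.mul_div_cancel_left _ hg]
    exact Sel.part2a χ g m n (N₀ * k) hg hc' (Dvd.intro _ rfl) hp
  · exact Sel.part2b χ hN0 hχ g m n c hc hN hp h

end MR
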