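import Pool.Agent.P.MP_79de8b_nt.PP0
import Pool.Agent.P.MP_79de8b_nt.Sel
import Pool.Agent.P.MP_79de8b_nt.KM

/-! The Weil-Estermann bound with a class condition. -/

open Complex Finset
open scoped Real

noncomputable section
namespace MR
namespace KL

lemma lift {g c D : ℕ} (ρ : ℕ) (a b : ℤ) (hg : 0 < g) (hc : 0 < c) (hD : D ∣ c)
    (hp : ∀ p, p.Prime → p ∣ g → p ∣ c) :
    kl (cls ρ D) (g * a) (g * b) (g * c) = g * kl (cls ρ D) a b c := by
  rw [Sel.kl_def, Sel.kl_def, un, un, sum_filter, sum_filter, Sel.sum_split, mul_sum]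
  refine sum_congr rfl fun x _ => ?_
  have h1 : ∀ i : ℕ, (if (x + c * i).Coprime (g * c) then cls ρ D (x + c * i) *
      Sel.E (g * c) (g * a * (x + c * i : ℕ) + g * b * iv (x + c * i) (g * c)) else 0) =
      if x.Coprime c then cls ρ D x * Sel.E c (a * x + b * iv x c) else 0 := by
    intro i
    have e0 : x + c * i ≡ x [MOD c] := Nat.add_mul_mod_self_left x c i
    have e1 : (x + c * i).Coprime c ↔ x.Coprime c := by
      unfold Nat.Coprime
      rw [e0.gcd_eq]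
    by_cases hx : x.Coprime c
    · have e2 : (x + c * i).Coprime (g * c) :=
        Nat.Coprime.mul_right (Sel.coprime_of_primes hp (e1.2 hx)) (e1.2 hx)
      rw [if_pos hx, if_pos e2, KM.cls_congr (e0.of_dvd hD)]
      congr 1
      rw [show (g : ℤ) * a * (x + c * i : ℕ) + g * b * iv (x + c * i) (g * c) =
        g * (a * (x + c * i : ℕ) + b * iv (x + c * i) (g * c)) by ring, Sel.E_cancel hg]
      refine Sel.E_congr (Int.ModEq.add ((Int.natCast_modEq_iff.2 e0).mul_left _)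
        ((Int.natCast_modEq_iff.2 ?_).mul_left _))
      refine (iv_modEq_of_mul hc ?_).symm
      exact (e0.symm.mul_right _).trans
        ((mul_iv (Nat.mul_pos hg hc) e2).of_dvd (Dvd.intro_left _ rfl))
    · rw [if_neg hx, if_neg fun h => hx (e1.1 (Nat.Coprime.coprime_mul_left_right h))]
  simp only [h1]
  rw [sum_const, card_range, nsmul_eq_mul]

lemma raman {p : ℕ} (hp : p.Prime) {a b : ℤ} (ha : ¬ (p : ℤ) ∣ a) (hb : (p : ℤ) ∣ b) :
    ‖kl (fun _ => 1) a b p‖ ≤ 1 := by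
  have h1 : kl (fun _ => 1) a b p = ∑ t ∈ un p, ex (((a * t : ℤ) : ℝ) / p) := by
    unfold kl
    refine sum_congr rfl fun t _ => ?_
    rw [one_mul]
    refine ex_congr ?_
    simpa using (Int.ModEq.refl (a * t)).add ((Int.modEq_zero_iff_dvd.2 hb).mul_right (iv t p))
  have h2 : range p = insert 0 (un p) := by
    ext t
    simp only [mem_range, mem_insert, mem_un]
    constructor
    · intro h
      rcases Nat.eq_zero_or_pos t with h0 | h0
      · exact Or.inl h0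
      · exact Or.inr ⟨h, (Nat.coprime_of_lt_prime h0.ne' h hp).symm⟩
    · rintro (rfl | h)
      · exact hp.pos
      · exact h.1
  have h3 := sum_ex_range hp.pos a
  rw [if_neg ha, h2, sum_insert (by simp [mem_un, hp.one_lt.ne'])] at h3
  rw [h1, eq_neg_of_add_eq_zero_right h3]; simp

lemma base (hW : S_Weil) (hP : S_PP0) (hM : S_KM) {p k i : ℕ} (ρ : ℕ) {a b : ℤ} (hp : p.Prime)
    (hk : 1 ≤ k) (hi : i ≤ k) (h : ¬ ((p : ℤ) ∣ a ∧ (p : ℤ) ∣ b)) :
    ‖kl (cls ρ (p ^ i)) a b (p ^ k)‖ ≤ (if p = 2 then 8 else 2) * Real.sqrt ((p : ℝ) ^ k) := by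
  rcases hk.eq_or_lt with rfl | hk2
  swap
  · exact hP p k i ρ a b hp hk2 hi h
  have hp1 : (1 : ℝ) ≤ p := by exact_mod_cast hp.pos
  have hs : 1 ≤ Real.sqrt p := Real.one_le_sqrt.2 hp1
  have hC : (2 : ℝ) ≤ if p = 2 then 8 else 2 := by split_ifs <;> norm_num
  rw [pow_one, pow_one]
  refine le_trans ?_ (mul_le_mul_of_nonneg_right hC (by linarith))
  rcases hi.eq_or_lt with rfl | hi0
  · have := PP0.triv (c := p) hp.pos dvd_rfl ρ a b
    rw [Nat.div_self hp.pos, Nat.cast_one] at this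
    rw [pow_one]; linarith
  obtain rfl : i = 0 := by omega
  rw [pow_zero]
  by_cases ha : (p : ℤ) ∣ a
  · have hb : ¬ (p : ℤ) ∣ b := fun hb => h ⟨ha, hb⟩
    rw [hM.2.2.2.1 p 1 ρ a b hp.pos (one_dvd p) (Nat.coprime_one_right ρ), cls_one]
    linarith [raman hp hb ha]
  rw [cls_one]
  by_cases hb : (p : ℤ) ∣ b
  · linarith [raman hp ha hb]
  · exact hW p a b hp ha hb

lemma pp (hW : S_Weil) (hP : S_PP0) (hM : S_KM) {p k i : ℕ} (ρ : ℕ) (a b : ℤ) (hp : p.Prime)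
    (hi : i ≤ k) :
    ‖kl (cls ρ (p ^ i)) a b (p ^ k)‖ ≤ (if p = 2 then 8 else 2) *
      Real.sqrt ((p ^ k : ℕ) * ((a.gcd b).gcd (p ^ k) : ℕ)) := by
  obtain ⟨g, hg, hG⟩ := (Nat.dvd_prime_pow hp).1 (Nat.gcd_dvd_right (a.gcd b) (p ^ k))
  have hp1 : (1 : ℝ) ≤ p := by exact_mod_cast hp.pos
  have hC : (1 : ℝ) ≤ if p = 2 then 8 else 2 := by split_ifs <;> norm_num
  have hd : p ^ g ∣ a.gcd b := hG ▸ Nat.gcd_dvd_left _ _
  rw [hG]; push_cast
  by_cases hc : k ≤ g + i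
  · refine (PP0.triv (pow_pos hp.pos i) (pow_dvd_pow p hi) ρ a b).trans ?_
    rw [Nat.pow_div hi hp.pos]; push_cast
    refine le_trans ?_ (le_mul_of_one_le_left (Real.sqrt_nonneg _) hC)
    refine Real.le_sqrt_of_sq_le ?_
    rw [← pow_mul, ← pow_add]
    exact pow_le_pow_right₀ hp1 (by omega)
  obtain ⟨a', rfl⟩ : ((p ^ g : ℕ) : ℤ) ∣ a := (Int.natCast_dvd_natCast.2 hd).trans (Int.gcd_dvd_left ..)
  obtain ⟨b', hb'⟩ : ((p ^ g : ℕ) : ℤ) ∣ b := (Int.natCast_dvd_natCast.2 hd).trans (Int.gcd_dvd_right ..)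
  subst hb'
  obtain ⟨j, rfl⟩ : ∃ j, k = g + j := ⟨k - g, by omega⟩
  have hn : ¬ ((p : ℤ) ∣ a' ∧ (p : ℤ) ∣ b') := by
    rintro ⟨h1, h2⟩
    have h3 : p ^ (g + 1) ∣ p ^ g := by
      rw [← hG]
      refine Nat.dvd_gcd ?_ (pow_dvd_pow p (by omega))
      rw [Int.gcd_mul_left, Int.natAbs_natCast, pow_succ]
      exact Nat.mul_dvd_mul_left _ (Int.dvd_gcd h1 h2)
    have := (Nat.pow_dvd_pow_iff_le_right hp.one_lt).1 h3
    omega
  rw [pow_add, lift ρ a' b' (pow_pos hp.pos g) (pow_pos hp.pos j) (pow_dvd_pow p (by omega))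
    (fun q hq h => (hq.dvd_of_dvd_pow h).trans (dvd_pow_self p (by omega))), norm_mul,
    Complex.norm_natCast]
  have h4 := base hW hP hM (i := i) (k := j) ρ hp (by omega) (by omega) hn
  have h5 : Real.sqrt ((p : ℝ) ^ (g + j) * p ^ g) = p ^ g * Real.sqrt ((p : ℝ) ^ j) := by
    rw [show (p : ℝ) ^ (g + j) * p ^ g = (p ^ g) ^ 2 * p ^ j by ring, Real.sqrt_mul (by positivity),
      Real.sqrt_sq (by positivity)]
  rw [h5]; push_cast
  calc _ ≤ (p : ℝ) ^ g * ((if p = 2 then 8 else 2) * Real.sqrt ((p : ℝ) ^ j)) := by gcongr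
    _ = _ := by ring

lemma gcd_unit (a b : ℤ) {u r : ℕ} (h : u.Coprime r) :
    ((a * u).gcd (b * u)).gcd r = (a.gcd b).gcd r := by
  rw [Int.gcd_mul_right, Int.natAbs_natCast, Nat.Coprime.gcd_mul_right_cancel _ h]

lemma all (hW : S_Weil) (hP : S_PP0) (hM : S_KM) (c : ℕ) : 0 < c → ∀ (D ρ : ℕ) (a b : ℤ), D ∣ c →
    ‖kl (cls ρ D) a b c‖ ≤ (if 2 ∣ c then 4 else 1) * tau c *
      Real.sqrt (c * ((a.gcd b).gcd c : ℕ)) := by
  induction c using Nat.recOnPosPrimePosCoprime with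
  | zero => intro h; omega
  | one =>
    intro _ D ρ a b _
    refine (norm_kl_le (norm_cls_le ρ D) a b 1).trans ?_
    simp [tau]
  | prime_pow p k hp hk =>
    intro _ D ρ a b hD
    obtain ⟨i, hi, rfl⟩ := (Nat.dvd_prime_pow hp).1 hD
    refine (pp hW hP hM ρ a b hp hi).trans ?_
    gcongr
    have h2 : 2 ≤ tau (p ^ k) := two_le_tau (Nat.one_lt_pow hk.ne' hp.one_lt)
    by_cases h : p = 2
    · subst h
      rw [if_pos rfl, if_pos (dvd_pow_self 2 hk.ne')]; linarith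
    · rw [if_neg h]; split_ifs <;> linarith
  | coprime r c hr hc h ihr ihc =>
    intro _ D ρ a b hD
    have hr0 : 0 < r := by omega
    have hc0 : 0 < c := by omega
    have e1 : D = D.gcd r * D.gcd c := by rw [← h.gcd_mul, Nat.gcd_eq_left hD]
    rw [e1, hM.2.1 r c _ _ ρ a b hr0 hc0 h (Nat.gcd_dvd_right _ _) (Nat.gcd_dvd_right _ _), norm_mul]
    have h1 := ihr hr0 _ ρ (a * iv c r) (b * iv c r) (Nat.gcd_dvd_right D r)
    have h2 := ihc hc0 _ ρ (a * iv r c) (b * iv r c) (Nat.gcd_dvd_right D c)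
    rw [gcd_unit a b (iv_coprime hr0 h.symm)] at h1
    rw [gcd_unit a b (iv_coprime hc0 h)] at h2
    have e2 : tau (r * c) = tau r * tau c := by
      unfold tau; rw [h.card_divisors_mul]; push_cast; ring
    have e3 : Real.sqrt ((r * c : ℕ) * ((a.gcd b).gcd (r * c) : ℕ)) =
        Real.sqrt (r * ((a.gcd b).gcd r : ℕ)) * Real.sqrt (c * ((a.gcd b).gcd c : ℕ)) := by
      rw [h.gcd_mul, ← Real.sqrt_mul (by positivity)]; congr 1; push_cast; ring
    have e4 : (if 2 ∣ r then 4 else 1 : ℝ) * (if 2 ∣ c then 4 else 1) = if 2 ∣ r * c then 4 else 1 := by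
      by_cases a1 : 2 ∣ r <;> by_cases a2 : 2 ∣ c
      · exact absurd (Nat.eq_one_of_dvd_coprimes h a1 a2) (by norm_num)
      · simp [a1, a2, a1.mul_right]
      · simp [a1, a2, a2.mul_left]
      · simp [a1, a2, (Nat.prime_two.dvd_mul).not.2 (not_or.2 ⟨a1, a2⟩)]
    have := tau_nonneg r
    calc _ ≤ _ := mul_le_mul h1 h2 (norm_nonneg _) (by positivity)
      _ = _ := by rw [e2, e3, ← e4]; ring

end KL

theorem kL (hW : S_Weil) (hP : S_PP0) (hM : S_KM) : S_KL := by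
  intro c D ρ a b hc hD
  refine (KL.all hW hP hM c hc D ρ a b hD).trans ?_
  have := tau_nonneg c
  gcongr
  split_ifs <;> norm_num

end MR
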