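import Pool.Agent.P.MP_79de8b_nt.Basic

/-! The normalising kernels and the radial mean value property (MP_79de8b_nt). -/

open Complex UpperHalfPlane MeasureTheory Finset CongruenceSubgroup Filter Topology
open scoped Real MatrixGroups ComplexConjugate

noncomputable section
namespace MR

namespace KapAux

lemma norm_le_four {w : ℂ} (h1 : 1 / 2 ≤ w.im) (h2 : w.im ≤ 2) (h3 : |w.re| ≤ 2) : ‖w‖ ≤ 4 := by
  have := Complex.norm_le_abs_re_add_abs_im w
  rw [abs_of_pos (by linarith : 0 < w.im)] at this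
  linarith

lemma norm_yI (y : ℝ) : ‖(y : ℂ) * Complex.I‖ = |y| := by simp

lemma norm_yI_sub (y y' : ℝ) : ‖(y : ℂ) * Complex.I - y' * Complex.I‖ = |y - y'| := by
  rw [← norm_yI]; congr 1; push_cast; ring

lemma kap_ab (s ε : Bool) : Kap (kab s ε) 2 400 where
  kpos := by norm_num
  tr t z₁ z₂ := by
    unfold kab; rw [cj_add, cj_ofReal]; congr 2; ring
  hom h _ z₁ z₂ := by
    unfold kab
    rw [cj_mul, cj_ofReal, ← mul_sub, mul_pow, cj_mul, cj_pow, cj_ofReal]
  meas := by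
    have : Continuous fun p : ℂ × ℂ => kab s ε p.1 p.2 := by unfold kab; fun_prop
    exact this.measurable
  low w y h1 _ _ h4 _ h6 := by
    unfold kab
    rw [norm_cj, norm_pow]
    have : 1 / 20 ≤ ‖w - cj ε (y * Complex.I)‖ := by
      cases ε
      · exact h6
      · have h7 := Complex.im_le_norm (w - cj true (y * Complex.I))
        have h8 : (w - cj true (y * Complex.I)).im = w.im + y := by simp
        linarith
    nlinarith
  lip w w' y y' h1 h2 h3 h4 h5 h1' h2' h3' h4' h5' := by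
    unfold kab
    rw [← cj_sub, norm_cj, sq_sub_sq, norm_mul]
    have a1 : ‖w - cj ε (y * Complex.I)‖ ≤ 6 := by
      refine (norm_sub_le _ _).trans ?_
      rw [norm_cj, norm_yI, abs_of_pos h4]
      linarith [norm_le_four h1 h2 h3]
    have a2 : ‖w' - cj ε (y' * Complex.I)‖ ≤ 6 := by
      refine (norm_sub_le _ _).trans ?_
      rw [norm_cj, norm_yI, abs_of_pos h4']
      linarith [norm_le_four h1' h2' h3']
    have a3 := norm_add_le (w - cj ε (y * Complex.I)) (w' - cj ε (y' * Complex.I))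
    have a4 : ‖w - cj ε (y * Complex.I) - (w' - cj ε (y' * Complex.I))‖ ≤ ‖w - w'‖ + |y - y'| := by
      rw [show w - cj ε (y * Complex.I) - (w' - cj ε (y' * Complex.I)) =
        (w - w') - cj ε (y * Complex.I - y' * Complex.I) by rw [cj_sub]; ring]
      refine (norm_sub_le _ _).trans ?_
      rw [norm_cj, norm_yI_sub]
    exact mul_le_mul (by linarith) a4 (norm_nonneg _) (by norm_num)

lemma kap_c : Kap kc 1 400 where
  kpos := le_rfl
  tr t z₁ z₂ := by
    unfold kc; simp only [map_add, conj_ofReal, add_im, ofReal_im, add_zero]; congr 1; ring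
  hom h hh z₁ z₂ := by
    unfold kc
    have h0 : (h : ℂ) ≠ 0 := by exact_mod_cast hh.ne'
    simp only [map_mul, conj_ofReal, im_ofReal_mul, pow_one, ofReal_mul]
    rw [← mul_div_assoc, show ((h : ℂ) * z₂ - h * z₁) * (h * z₂ - h * conj z₁) =
      h * (h * ((z₂ - z₁) * (z₂ - conj z₁))) by ring, mul_div_mul_left _ _ h0]
  meas := by
    unfold kc
    refine Measurable.div ?_ ?_
    · have : Continuous fun p : ℂ × ℂ => (p.2 - p.1) * (p.2 - conj p.1) := by fun_prop
      exact this.measurable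
    · have : Continuous fun p : ℂ × ℂ => ((p.1.im : ℝ) : ℂ) := by fun_prop
      exact this.measurable
  low w y h1 h2 _ h4 _ h6 := by
    unfold kc
    have hv : 0 < w.im := by linarith
    rw [norm_div, norm_mul, norm_real, Real.norm_eq_abs, abs_of_pos hv, norm_sub_rev,
      ← mul_div_assoc, le_div_iff₀ hv]
    have h7 := Complex.im_le_norm (y * Complex.I - conj w)
    have h8 : ((y : ℂ) * Complex.I - conj w).im = y + w.im := by simp
    have h9 : (1 / 20 : ℝ) * (1 / 2) ≤ ‖w - y * Complex.I‖ * ‖(y : ℂ) * Complex.I - conj w‖ :=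
      mul_le_mul h6 (by linarith) (by norm_num) (norm_nonneg _)
    linarith
  lip w w' y y' h1 h2 h3 h4 h5 h1' h2' h3' h4' h5' := by
    unfold kc
    have hv : 0 < w.im := by linarith
    have hv' : 0 < w'.im := by linarith
    have n1 := norm_le_four h1 h2 h3
    have n2 := norm_le_four h1' h2' h3'
    set δ := ‖w - w'‖ + |y - y'| with hδ
    have hδ0 : 0 ≤ δ := by positivity
    set a := (y : ℂ) * Complex.I - w with ha
    set b := (y : ℂ) * Complex.I - conj w with hb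
    set a' := (y' : ℂ) * Complex.I - w' with ha'
    set b' := (y' : ℂ) * Complex.I - conj w' with hb'
    have b1 : ‖b‖ ≤ 6 := by
      refine (norm_sub_le _ _).trans ?_
      rw [norm_yI, abs_of_pos h4, Complex.norm_conj]; linarith
    have b2 : ‖a'‖ ≤ 6 := by
      refine (norm_sub_le _ _).trans ?_
      rw [norm_yI, abs_of_pos h4']; linarith
    have b3 : ‖b'‖ ≤ 6 := by
      refine (norm_sub_le _ _).trans ?_
      rw [norm_yI, abs_of_pos h4', Complex.norm_conj]; linarith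
    have d1 : ‖a - a'‖ ≤ δ := by
      rw [show a - a' = (y * Complex.I - y' * Complex.I) - (w - w') by rw [ha, ha']; ring]
      refine (norm_sub_le _ _).trans ?_
      rw [norm_yI_sub]; linarith
    have d2 : ‖b - b'‖ ≤ δ := by
      rw [show b - b' = (y * Complex.I - y' * Complex.I) - conj (w - w') by
        rw [hb, hb', map_sub]; ring]
      refine (norm_sub_le _ _).trans ?_
      rw [norm_yI_sub, Complex.norm_conj]; linarith
    have d3 : |w'.im - w.im| ≤ δ := by
      have := Complex.abs_im_le_norm (w - w')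
      rw [sub_im, abs_sub_comm] at this
      linarith [abs_nonneg (y - y')]
    have hc : ((w.im : ℝ) : ℂ) ≠ 0 := by exact_mod_cast hv.ne'
    have hc' : ((w'.im : ℝ) : ℂ) ≠ 0 := by exact_mod_cast hv'.ne'
    have i1 : ‖(((w.im)⁻¹ : ℝ) : ℂ)‖ ≤ 2 := by
      rw [norm_real, Real.norm_eq_abs, abs_of_pos (by positivity), inv_le_comm₀ hv two_pos]
      linarith
    have i2 : ‖(((w'.im)⁻¹ : ℝ) : ℂ)‖ ≤ 2 := by
      rw [norm_real, Real.norm_eq_abs, abs_of_pos (by positivity), inv_le_comm₀ hv' two_pos]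
      linarith
    have i3 : ‖((w'.im - w.im : ℝ) : ℂ)‖ ≤ δ := by rwa [norm_real, Real.norm_eq_abs]
    rw [show a * b / (w.im : ℝ) - a' * b' / (w'.im : ℝ) =
      (a - a') * b * ((w.im)⁻¹ : ℝ) + a' * (b - b') * ((w.im)⁻¹ : ℝ) +
        a' * b' * ((w'.im - w.im : ℝ) : ℂ) * ((w.im)⁻¹ : ℝ) * ((w'.im)⁻¹ : ℝ) by
      push_cast; field_simp; ring]
    refine (norm_add₃_le).trans ?_
    simp only [norm_mul]
    have e1 : ‖a - a'‖ * ‖b‖ * ‖(((w.im)⁻¹ : ℝ) : ℂ)‖ ≤ δ * 6 * 2 := by gcongr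
    have e2 : ‖a'‖ * ‖b - b'‖ * ‖(((w.im)⁻¹ : ℝ) : ℂ)‖ ≤ 6 * δ * 2 := by gcongr
    have e3 : ‖a'‖ * ‖b'‖ * ‖((w'.im - w.im : ℝ) : ℂ)‖ * ‖(((w.im)⁻¹ : ℝ) : ℂ)‖ *
      ‖(((w'.im)⁻¹ : ℝ) : ℂ)‖ ≤ 6 * 6 * δ * 2 * 2 := by gcongr
    linarith

lemma continuous_tent (r : ℝ) : Continuous (tent r) := by unfold tent; fun_prop

lemma tent_nonneg (r : ℝ) (ζ : ℂ) : 0 ≤ tent r ζ := le_max_left _ _

lemma tent_eq_zero {r : ℝ} (hr : r ≤ 9 / 20) {ζ : ℂ} (h : 1 / 2 ≤ ‖ζ‖) : tent r ζ = 0 := by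
  unfold tent
  refine max_eq_left ?_
  have := le_abs_self (‖ζ‖ - r)
  linarith

lemma tent_pos_int {r : ℝ} (h0 : 0 ≤ r) (hr : r ≤ 9 / 20) : 0 < ∫ ξ : ℂ, tent r ξ := by
  refine (continuous_tent r).integral_pos_of_hasCompactSupport_nonneg_nonzero (x := (r : ℂ))
    ?_ (tent_nonneg r) ?_
  · refine HasCompactSupport.intro (isCompact_closedBall (0 : ℂ) 1) fun ζ hζ => ?_
    rw [mem_closedBall_zero_iff, not_le] at hζ
    exact tent_eq_zero hr (by linarith)
  · unfold tent
    rw [norm_real, Real.norm_eq_abs, abs_of_nonneg h0]; norm_num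

lemma continuous_F {r : ℝ} (hr : r ≤ 9 / 20) {U : ℍ → ℂ} (hU : Continuous U) (z : ℍ) :
    Continuous fun ζ : ℂ => (tent r ζ : ℂ) * U (ofComplex (z + z.im * ζ)) := by
  refine continuous_iff_continuousAt.2 fun ζ => ?_
  by_cases h : ‖ζ‖ < 1
  · have h1 : 0 < ((z : ℂ) + z.im * ζ).im := by
      have h2 := (abs_le.1 (Complex.abs_im_le_norm ζ)).1
      have h3 := z.im_pos
      have h4 : ((z : ℂ) + z.im * ζ).im = z.im * (1 + ζ.im) := by simp; ring
      rw [h4]; exact mul_pos h3 (by linarith)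
    have h5 : ContinuousAt (fun w : ℂ => ofComplex w) ((z : ℂ) + z.im * ζ) :=
      (contMDiffAt_ofComplex (n := 0) h1).continuousAt
    have h6 : ContinuousAt (fun ζ : ℂ => ofComplex ((z : ℂ) + z.im * ζ)) ζ :=
      ContinuousAt.comp (f := fun ζ : ℂ => (z : ℂ) + z.im * ζ) h5 (by fun_prop)
    exact (Complex.continuous_ofReal.comp (continuous_tent r)).continuousAt.mul
      (hU.continuousAt.comp h6)
  · have h1 : ∀ᶠ ξ in 𝓝 ζ, 1 / 2 < ‖ξ‖ :=
      (isOpen_lt continuous_const continuous_norm).mem_nhds (by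
        show 1 / 2 < ‖ζ‖
        linarith [not_lt.1 h])
    refine (continuousAt_const (y := (0 : ℂ))).congr (h1.mono fun ξ hξ => ?_)
    simp [tent_eq_zero hr hξ.le]

lemma polar {r : ℝ} (hr : r ≤ 9 / 20) {U : ℍ → ℂ} (hU : MV U) (z : ℍ) :
    ∫ ζ : ℂ, (tent r ζ : ℂ) * U (ofComplex (z + z.im * ζ)) =
      (∫ ρ in Set.Ioi (0 : ℝ), ((ρ * tent r ρ * (2 * π) : ℝ) : ℂ)) * U z := by
  have hF := continuous_F hr hU.cont z
  set F : ℂ → ℂ := fun ζ => (tent r ζ : ℂ) * U (ofComplex (z + z.im * ζ)) with hFdef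
  have hs : ∀ p : ℝ × ℝ, Complex.polarCoord.symm p = p.1 * cexp (p.2 * Complex.I) := fun p => by
    rw [Complex.polarCoord_symm_apply, Complex.exp_mul_I]; push_cast; ring
  rw [← Complex.integral_comp_polarCoord_symm F, ← integral_mul_const]
  simp_rw [hs]
  have hG : Continuous fun p : ℝ × ℝ => p.1 • F (p.1 * cexp (p.2 * Complex.I)) := by fun_prop
  have hI : IntegrableOn (fun p : ℝ × ℝ => p.1 • F (p.1 * cexp (p.2 * Complex.I)))
      (Set.Ioi (0 : ℝ) ×ˢ Set.Ioo (-π) π) (volume.prod volume) := by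
    have h1 : IntegrableOn (fun p : ℝ × ℝ => p.1 • F (p.1 * cexp (p.2 * Complex.I)))
        (Set.Icc (0 : ℝ) 1 ×ˢ Set.Icc (-π) π) (volume.prod volume) :=
      hG.continuousOn.integrableOn_compact (isCompact_Icc.prod isCompact_Icc)
    refine h1.of_forall_sdiff_eq_zero (measurableSet_Ioi.prod measurableSet_Ioo) ?_
    rintro ⟨ρ, φ⟩ ⟨⟨h2, h3⟩, h4⟩
    have h5 : 1 < ρ := by
      by_contra h6
      exact h4 ⟨⟨le_of_lt h2, not_lt.1 h6⟩, Set.Ioo_subset_Icc_self h3⟩
    have h6 : tent r (ρ * cexp (φ * Complex.I)) = 0 := by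
      refine tent_eq_zero hr ?_
      rw [norm_mul, Complex.norm_exp_ofReal_mul_I, norm_real, Real.norm_eq_abs,
        abs_of_pos (by linarith)]
      linarith
    simp [hFdef, h6]
  have hE := setIntegral_prod _ hI
  refine Eq.trans hE (setIntegral_congr_fun measurableSet_Ioi fun ρ hρ => ?_)
  have hρ0 : 0 < ρ := hρ
  have ht : ∀ φ : ℝ, tent r (ρ * cexp (φ * Complex.I)) = tent r ρ := fun φ => by
    unfold tent; rw [norm_mul, Complex.norm_exp_ofReal_mul_I, mul_one]
  simp only [hFdef, ht, real_smul, ← mul_assoc]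
  rw [integral_const_mul]
  by_cases h1 : ρ < 1
  · have hP : Function.Periodic
        (fun φ : ℝ => U (ofComplex (z + z.im * ρ * cexp (φ * Complex.I)))) (2 * π) := by
      intro φ
      simp only
      rw [show ((φ + 2 * π : ℝ) : ℂ) * Complex.I = φ * Complex.I + 2 * π * Complex.I by
        push_cast; ring, Complex.exp_add, Complex.exp_two_pi_mul_I, mul_one]
    have h2 := hP.intervalIntegral_add_eq (-π) 0
    rw [zero_add, hU.mean z ρ hρ0 h1, show -π + 2 * π = π by ring,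
      intervalIntegral.integral_of_le (by linarith [Real.pi_pos]),
      integral_Ioc_eq_integral_Ioo] at h2
    rw [h2]; push_cast; ring
  · have h2 : tent r ρ = 0 := by
      refine tent_eq_zero hr ?_
      rw [norm_real, Real.norm_eq_abs, abs_of_pos hρ0]
      linarith [not_lt.1 h1]
    simp [h2]

end KapAux

theorem kap : S_Kap := ⟨fun s ε => ⟨400, KapAux.kap_ab s ε⟩, 400, KapAux.kap_c⟩

theorem rad : S_Rad := by
  intro r h0 hr
  have hpos := KapAux.tent_pos_int h0 hr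
  refine ⟨hpos, fun U hU z => ?_⟩
  have h1 : MV (fun _ => (1 : ℂ)) := ⟨continuous_const, fun _ _ _ _ => by simp⟩
  have h2 := KapAux.polar hr h1 z
  simp only [mul_one] at h2
  have h3 := KapAux.polar hr hU z
  rw [← h2, integral_complex_ofReal] at h3
  have h4 : (((∫ ξ : ℂ, tent r ξ : ℝ)) : ℂ) ≠ 0 := by exact_mod_cast hpos.ne'
  have h5 : ∀ ζ : ℂ, (rho r ζ : ℂ) * U (ofComplex (z + z.im * ζ)) =
      (tent r ζ : ℂ) * U (ofComplex (z + z.im * ζ)) / ((∫ ξ : ℂ, tent r ξ : ℝ) : ℂ) := fun ζ => by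
    unfold rho; push_cast; ring
  simp_rw [h5]
  rw [integral_div, h3]
  exact mul_div_cancel_left₀ _ h4

end MR
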