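import Pool.Agent.P.MP_79de8b_nt.Ms

/-! Double coset decomposition and the Petersson type formula for the form `Bf`. -/

open Complex UpperHalfPlane MeasureTheory Finset CongruenceSubgroup Filter Topology
open scoped Real MatrixGroups ComplexConjugate

noncomputable section
namespace MR

namespace Ker

lemma dvd_iv {c d : ℕ} (hd : d ∈ un c) : (c : ℤ) ∣ (iv d c : ℤ) * d - 1 := by
  obtain ⟨h1, h2⟩ := mem_un.1 hd
  have h := (mul_iv (by omega : 0 < c) h2).symm.dvd
  push_cast at h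
  rwa [mul_comm] at h

/-- The representative with bottom row `(c, d)`. -/
def rep (c d : ℕ) : SL(2, ℤ) :=
  if hd : d ∈ un c then
    ⟨!![(iv d c : ℤ), ((iv d c : ℤ) * d - 1) / c; c, d], by
      rw [Matrix.det_fin_two_of, Int.ediv_mul_cancel (dvd_iv hd)]; ring⟩
  else 1

lemma rep_spec {c d : ℕ} (hd : d ∈ un c) :
    rep c d 1 0 = c ∧ rep c d 1 1 = d ∧ rep c d 0 0 = iv d c := by
  unfold rep
  rw [dif_pos hd]
  exact ⟨rfl, rfl, rfl⟩

lemma TT (g : SL(2, ℤ)) (i j : ℤ) :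
    (ModularGroup.T ^ i * g * ModularGroup.T ^ j) 1 0 = g 1 0 ∧
    (ModularGroup.T ^ i * g * ModularGroup.T ^ j) 1 1 = g 1 1 + j * g 1 0 ∧
    (ModularGroup.T ^ i * g * ModularGroup.T ^ j) 0 0 = g 0 0 + i * g 1 0 := by
  simp only [Matrix.SpecialLinearGroup.coe_mul, ModularGroup.coe_T_zpow, Matrix.mul_apply,
    Fin.sum_univ_two]
  simp
  ring

lemma ext3 {g h : SL(2, ℤ)} (hc : g 1 0 ≠ 0) (h10 : g 1 0 = h 1 0) (h11 : g 1 1 = h 1 1)
    (h00 : g 0 0 = h 0 0) : g = h := by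
  have h1 := det_sl g
  have h2 := det_sl h
  have h01 : g 0 1 = h 0 1 := by
    apply mul_right_cancel₀ hc
    rw [← h10, ← h11, ← h00] at h2
    linarith
  ext i j
  fin_cases i <;> fin_cases j
  · exact h00
  · exact h01
  · exact h10
  · exact h11

/-- The parametrisation of the matrices with lower left entry `c`. -/
def par (c : ℕ) (x : un c × ℤ × ℤ) : SL(2, ℤ) :=
  ModularGroup.T ^ x.2.2 * rep c x.1 * ModularGroup.T ^ x.2.1

lemma par_spec (c : ℕ) (x : un c × ℤ × ℤ) :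
    par c x 1 0 = c ∧ par c x 1 1 = (x.1 : ℕ) + x.2.1 * c ∧
      par c x 0 0 = iv x.1 c + x.2.2 * c := by
  obtain ⟨h1, h2, h3⟩ := rep_spec x.1.2
  obtain ⟨k1, k2, k3⟩ := TT (rep c x.1) x.2.2 x.2.1
  unfold par
  rw [k1, k2, k3, h1, h2, h3]
  exact ⟨rfl, rfl, rfl⟩

lemma par_inj {c : ℕ} (hc : 0 < c) : Function.Injective (par c) := by
  rintro ⟨d, j, i⟩ ⟨d', j', i'⟩ h
  obtain ⟨-, h2, h3⟩ := par_spec c (d, j, i)
  obtain ⟨-, k2, k3⟩ := par_spec c (d', j', i')
  rw [h, k2] at h2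
  rw [h, k3] at h3
  simp only at h2 h3
  have hd : ((d : ℕ) : ℤ) < c := by exact_mod_cast (mem_un.1 d.2).1
  have hd' : ((d' : ℕ) : ℤ) < c := by exact_mod_cast (mem_un.1 d'.2).1
  have hd0 : (0 : ℤ) ≤ (d : ℕ) := Int.natCast_nonneg _
  have hd0' : (0 : ℤ) ≤ (d' : ℕ) := Int.natCast_nonneg _
  have hc' : (0 : ℤ) < c := by exact_mod_cast hc
  have hj : j = j' := by
    rcases lt_trichotomy j j' with hlt | heq | hlt
    · nlinarith
    · exact heq
    · nlinarith
  subst hj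
  have hdd : d = d' := by
    apply Subtype.ext
    have : ((d : ℕ) : ℤ) = (d' : ℕ) := by linarith
    exact_mod_cast this
  subst hdd
  have hi : i = i' := by
    apply mul_right_cancel₀ hc'.ne'
    linarith
  subst hi
  rfl

lemma par_surj {c : ℕ} (hc : 0 < c) {g : SL(2, ℤ)} (hg : g 1 0 = c) : g ∈ Set.range (par c) := by
  have hc' : (0 : ℤ) < c := by exact_mod_cast hc
  have hdet := det_sl g
  rw [hg] at hdet
  obtain ⟨d, hd⟩ := Int.eq_ofNat_of_zero_le (Int.emod_nonneg (g 1 1) hc'.ne')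
  have hlt : (d : ℤ) < c := hd ▸ Int.emod_lt_of_pos _ hc'
  have hdiv : g 1 1 = d + g 1 1 / c * c := by
    rw [← hd]; exact (Int.emod_add_ediv_mul _ _).symm
  have hone : g 0 0 * d + (g 0 0 * (g 1 1 / c) - g 0 1) * c = 1 := by
    linear_combination hdet - (g 0 0) * hdiv
  have hcop : d.Coprime c := by
    rw [← Nat.isCoprime_iff_coprime]
    exact ⟨_, _, hone⟩
  have hun : d ∈ un c := mem_un.2 ⟨by exact_mod_cast hlt, hcop⟩
  obtain ⟨e, he⟩ := dvd_iv hun
  refine ⟨(⟨d, hun⟩, g 1 1 / c, -(g 0 0 * e) - (g 0 0 * (g 1 1 / c) - g 0 1) * (iv d c : ℤ)), ?_⟩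
  obtain ⟨h1, h2, h3⟩ := par_spec c
    (⟨d, hun⟩, g 1 1 / c, -(g 0 0 * e) - (g 0 0 * (g 1 1 / c) - g 0 1) * (iv d c : ℤ))
  refine ext3 (by rw [h1]; exact hc'.ne') (by rw [h1, hg]) (by rw [h2]; exact hdiv.symm) ?_
  rw [h3]
  simp only
  linear_combination (g 0 0) * he - (iv d c : ℤ) * hone

end Ker

theorem cell : S_Cell := by
  intro c F hc hF
  refine ⟨Ker.rep c, fun d hd => Ker.rep_spec hd, ?_⟩
  have h1 := (Ker.par_inj hc).tsum_eq (f := fun g : SL(2, ℤ) => if g 1 0 = c then F g else 0)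
    (fun g hg => Ker.par_surj hc (by by_contra h; exact hg (if_neg h)))
  rw [← h1]
  have h2 : ∀ x, (if Ker.par c x 1 0 = c then F (Ker.par c x) else 0) = F (Ker.par c x) :=
    fun x => if_pos (Ker.par_spec c x).1
  simp only [h2]
  have hs : Summable fun x => F (Ker.par c x) := hF.comp_injective (Ker.par_inj hc)
  rw [hs.tsum_prod, tsum_fintype, ← Finset.sum_coe_sort (un c)]
  refine sum_congr rfl fun d _ => ?_
  rw [(hs.prod_factor d).tsum_prod]
  rfl

namespace Ker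

lemma mem_iff (M : ℕ) (g : SL(2, ℤ)) : g ∈ Gamma0 M ↔ (M : ℤ) ∣ g 1 0 := by
  rw [Gamma0_mem, ZMod.intCast_zmod_eq_zero_iff_dvd]

lemma uchar {M N₀ : ℕ} (χ : DirichletCharacter ℂ N₀) (hN : N₀ ∣ M) :
    UChar (Gamma0 M) (wt M χ) := by
  have hz : ∀ g ∈ Gamma0 M, ((g 1 0 : ℤ) : ZMod N₀) = 0 := fun g hg =>
    (ZMod.intCast_zmod_eq_zero_iff_dvd _ _).2
      ((Int.natCast_dvd_natCast.2 hN).trans ((mem_iff M g).1 hg))
  refine ⟨fun g hg => if_neg (mt (mem_iff M g).2 hg), fun g hg h hh => ?_, fun g hg => ?_⟩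
  · unfold wt
    rw [if_pos ((mem_iff M _).1 (mul_mem hg hh)), if_pos ((mem_iff M _).1 hg),
      if_pos ((mem_iff M _).1 hh), ← map_mul]
    congr 1
    have : (g * h) 1 1 = g 1 0 * h 0 1 + g 1 1 * h 1 1 := by
      simp only [Matrix.SpecialLinearGroup.coe_mul, Matrix.mul_apply, Fin.sum_univ_two]
    rw [this]
    push_cast
    rw [hz g hg, zero_mul, zero_add]
  · unfold wt
    rw [if_pos ((mem_iff M _).1 hg)]
    have h1 : ((g 1 1 : ℤ) : ZMod N₀) * ((g 0 0 : ℤ) : ZMod N₀) = 1 := by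
      have h2 := congrArg (Int.cast : ℤ → ZMod N₀) (det_sl g)
      push_cast at h2
      rw [hz g hg, mul_zero, sub_zero] at h2
      rw [mul_comm]; exact h2
    exact χ.unit_norm_eq_one (Units.mkOfMulEqOne _ _ h1)

lemma norm_wt_le {M N₀ : ℕ} (χ : DirichletCharacter ℂ N₀) (g : SL(2, ℤ)) : ‖wt M χ g‖ ≤ 1 := by
  unfold wt
  split_ifs
  · exact χ.norm_le_one _
  · simp

lemma wt_neg {M N₀ : ℕ} (χ : DirichletCharacter ℂ N₀) (g : SL(2, ℤ)) :
    wt M χ (-g) = χ (-1) * wt M χ g := by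
  have h10 : (-g) 1 0 = -g 1 0 := rfl
  have h11 : (-g) 1 1 = -g 1 1 := rfl
  unfold wt
  rw [h10, h11]
  simp only [dvd_neg]
  split_ifs
  · rw [← map_mul]; congr 1; push_cast; ring
  · simp

lemma neg_smul_HH (g : SL(2, ℤ)) (z : HH) : (-g) • z = g • z := by
  rw [smul_HH, smul_HH, ModularGroup.SL_neg_smul, ModularGroup.SL_neg_smul]

lemma adm_mono {S T : Set HH} {φ : HH → ℂ} (h : Adm volume S φ) (hST : S ⊆ T) :
    Adm volume T φ := ⟨h.meas, h.l2, fun z hz => h.supp z fun h' => hz (hST h')⟩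

lemma SY_mono {Y Y' : ℝ} (h : Y' ≤ Y) : SY Y ⊆ SY Y' := fun _ hz => ⟨h.trans hz.1, hz.2⟩

lemma measurableSet_SY (Y : ℝ) : MeasurableSet (SY Y) := by
  have h1 : Measurable fun z : HH => z.1.im :=
    UpperHalfPlane.continuous_im.measurable.comp measurable_fst
  have h2 : Measurable fun z : HH => z.2.re :=
    UpperHalfPlane.continuous_re.measurable.comp measurable_snd
  exact (measurableSet_le measurable_const h1).inter
    ((measurableSet_le measurable_const h2).inter (measurableSet_lt h2 measurable_const))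

/-- The correlation integral. -/
def II (θ : ℂ → ℝ → ℂ) (m n : ℕ) (g : SL(2, ℤ)) : ℂ :=
  ∫ z : HH, pt θ m z * conj (pt θ n (g • z))

lemma II_neg (θ : ℂ → ℝ → ℂ) (m n : ℕ) (g : SL(2, ℤ)) : II θ m n (-g) = II θ m n g := by
  unfold II
  simp only [neg_smul_HH]

lemma II_shift (θ : ℂ → ℝ → ℂ) (m n : ℕ) {g : SL(2, ℤ)} (h10 : g 1 0 = 0) (h00 : g 0 0 = 1)
    (h11 : g 1 1 = 1) (hg : g ≠ 1) : II θ m n g = 0 := by
  have hb : g 0 1 ≠ 0 := by
    intro h01
    apply hg
    ext i j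
    fin_cases i <;> fin_cases j
    · exact h00
    · exact h01
    · exact h10
    · exact h11
  have hre : ∀ z : ℍ, (g • z).re = z.re + (g 0 1 : ℤ) := fun z => by
    rw [← UpperHalfPlane.coe_re, coe_smul_sl, h10, h00, h11]
    simp
  unfold II
  refine integral_eq_zero_of_ae (Eventually.of_forall fun z => ?_)
  show pt θ m z * conj (pt θ n (g • z)) = 0
  unfold pt
  split_ifs with h1 h2
  · exfalso
    have h3 : (g • z).2.re = z.2.re + (g 0 1 : ℤ) := hre z.2
    rw [h3] at h2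
    have h4 : (-1 : ℝ) < (g 0 1 : ℤ) := by linarith [h1.2, h2.1]
    have h5 : ((g 0 1 : ℤ) : ℝ) < 1 := by linarith [h1.1, h2.2]
    have h6 : (-1 : ℤ) < g 0 1 := by exact_mod_cast h4
    have h7 : g 0 1 < 1 := by exact_mod_cast h5
    omega
  · simp
  · simp
  · simp

lemma II_zero (θ : ℂ → ℝ → ℂ) (m n : ℕ) {g : SL(2, ℤ)} (h10 : g 1 0 = 0) (h1 : g ≠ 1)
    (h2 : g ≠ -1) : II θ m n g = 0 := by
  have hdet := det_sl g
  rw [h10, mul_zero, sub_zero] at hdet
  rcases Int.eq_one_or_neg_one_of_mul_eq_one' hdet with ⟨ha, hd⟩ | ⟨ha, hd⟩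
  · exact II_shift θ m n h10 ha hd h1
  · rw [← II_neg]
    refine II_shift θ m n ?_ ?_ ?_ fun h => h2 (neg_eq_iff_eq_neg.1 h)
    · show -g 1 0 = 0
      rw [h10, neg_zero]
    · show -g 0 0 = 1
      rw [ha, neg_neg]
    · show -g 1 1 = 1
      rw [hd, neg_neg]

lemma one_ne : (1 : SL(2, ℤ)) ≠ -1 := by
  intro h
  have : (1 : SL(2, ℤ)) 0 0 = (-1 : SL(2, ℤ)) 0 0 := by rw [← h]
  simp at this

/-- Splitting a sum over the group by the sign of the lower left entry. -/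
lemma split {F : SL(2, ℤ) → ℂ} (hF : Summable F) {ε : ℂ} (hneg : ∀ g, F (-g) = ε * F g)
    (h0 : ∀ g : SL(2, ℤ), g 1 0 = 0 → g ≠ 1 → g ≠ -1 → F g = 0) :
    ∑' g, F g = (1 + ε) * (F 1 + ∑' c : ℕ,
      if 0 < c then ∑' g : SL(2, ℤ), (if g 1 0 = c then F g else 0) else 0) := by
  have hs : ∀ (p : SL(2, ℤ) → Prop) [DecidablePred p], Summable fun g => if p g then F g else 0 :=
    fun p _ => (hF.indicator {g | p g}).congr fun g => by
      rw [Set.indicator_apply]; simp only [Set.mem_ofPred_eq]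
  have e1 : ∀ g : SL(2, ℤ), F g = (if g 1 0 = 0 then F g else 0) +
      ((if 0 < g 1 0 then F g else 0) + (if g 1 0 < 0 then F g else 0)) := fun g => by
    rcases lt_trichotomy (g 1 0) 0 with h | h | h
    · rw [if_neg h.ne, if_neg h.not_gt, if_pos h]; simp
    · rw [if_pos h, if_neg h.ge.not_gt, if_neg h.le.not_gt]; simp
    · rw [if_neg h.ne', if_pos h, if_neg h.not_gt]; simp
  have e2 : ∑' g : SL(2, ℤ), (if g 1 0 = 0 then F g else 0) = F 1 + ε * F 1 := by
    rw [tsum_eq_sum (s := {1, -1}), sum_pair one_ne, if_pos (by simp), if_pos (by simp), hneg]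
    intro g hg
    simp only [mem_insert, mem_singleton, not_or] at hg
    split_ifs with h
    · exact h0 g h hg.1 hg.2
    · rfl
  have e3 : ∑' g : SL(2, ℤ), (if g 1 0 < 0 then F g else 0) =
      ε * ∑' g : SL(2, ℤ), (if 0 < g 1 0 then F g else 0) := by
    rw [← (Equiv.neg SL(2, ℤ)).tsum_eq, ← tsum_mul_left]
    refine tsum_congr fun g => ?_
    have h10 : (-g) 1 0 = -g 1 0 := rfl
    simp only [Equiv.neg_apply, h10, neg_lt_zero, hneg]
    split_ifs <;> simp
  have e4 : ∑' g : SL(2, ℤ), (if 0 < g 1 0 then F g else 0) = ∑' c : ℕ,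
      if 0 < c then ∑' g : SL(2, ℤ), (if g 1 0 = c then F g else 0) else 0 := by
    rw [← ((hs fun g => 0 < g 1 0).hasSum.tsum_fiberwise fun g => (g 1 0).toNat).tsum_eq]
    refine tsum_congr fun c => ?_
    rw [_root_.tsum_subtype _ (fun g : SL(2, ℤ) => if 0 < g 1 0 then F g else 0)]
    classical
    split_ifs with hc
    · refine tsum_congr fun g => ?_
      rw [Set.indicator_apply]
      simp only [Set.mem_preimage, Set.mem_singleton_iff]
      split_ifs <;> first | rfl | omega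
    · refine (tsum_congr fun g => ?_).trans tsum_zero
      rw [Set.indicator_apply]
      simp only [Set.mem_preimage, Set.mem_singleton_iff]
      split_ifs <;> first | rfl | omega
  rw [tsum_congr e1, (hs _).tsum_add ((hs _).add (hs _)), (hs _).tsum_add (hs _), e2, e3, e4]
  ring

end Ker

theorem ker (hP1 : S_P1) (hOv : S_Ov) (hPt : S_Pt) (hCell : S_Cell) (hUnf : S_Unf) : S_Ker := by
  intro A η₁ η₂ θ hθ M N₀ χ _ hN
  have hU := Ker.uchar χ hN
  refine ⟨hU, fun m n hm hn => ?_⟩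
  obtain ⟨C, -, hC⟩ := hOv
  obtain ⟨hA, -, hD⟩ := hPt A η₁ η₂ θ hθ
  have hη : 0 < η₁ := hθ.pos.trans_le hθ.le
  have hm' : (0 : ℝ) < m := by exact_mod_cast hm
  have hn' : (0 : ℝ) < n := by exact_mod_cast hn
  have hY : 0 < η₁ / (2 * (m + n)) := by positivity
  have hS := ((hP1 SL(2, ℤ) HH volume (Gamma0 M) (wt M χ) (SY (η₁ / (2 * (m + n)))) _ mp_HH
    (Ker.measurableSet_SY _) hU (fun z s hs => hC _ z s hY hs)).1 (pt θ m) (pt θ n)
    (Ker.adm_mono (hA m hm).1 (Ker.SY_mono (by gcongr; linarith)))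
    (Ker.adm_mono (hA n hn).1 (Ker.SY_mono (by gcongr; linarith)))).1
  have hF : Summable fun g => wt M χ g * Ker.II θ m n g := by
    refine Summable.of_norm_bounded hS fun g => ?_
    rw [norm_mul]
    refine (mul_le_of_le_one_left (norm_nonneg _) (Ker.norm_wt_le χ g)).trans ?_
    refine (norm_integral_le_integral_norm _).trans (le_of_eq ?_)
    simp only [norm_mul, RCLike.norm_conj]
  have h1 := Ker.split hF (ε := χ (-1)) (fun g => by rw [Ker.wt_neg, Ker.II_neg, mul_assoc])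
    (fun g h0 h1 h2 => by rw [Ker.II_zero θ m n h0 h1 h2, mul_zero])
  refine Eq.trans h1 ?_
  rw [mul_assoc]
  congr 1
  unfold Bn
  rw [mul_add, ← tsum_mul_left]
  congr 1
  · have h2 : wt M χ 1 = 1 := by simp [wt]
    have h3 : Ker.II θ m n 1 = if m = n then (m : ℂ) * DD θ else 0 := by
      rw [← hD m n hm hn]; unfold Ker.II; simp only [one_smul]
    rw [h2, h3, one_mul]
    split_ifs with h
    · subst h
      rw [Real.sqrt_mul_self hm'.le]; simp
    · simp
  · refine tsum_congr fun c => ?_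
    by_cases hc : 0 < c
    · rw [if_pos hc]
      obtain ⟨γ, hγ, hsum⟩ := hCell c _ hc hF
      rw [hsum]
      have hw : ∀ d ∈ un c, ∀ i j : ℤ, wt M χ (ModularGroup.T ^ i * γ d * ModularGroup.T ^ j) =
          if M ∣ c then χ (d : ZMod N₀) else 0 := fun d hd i j => by
        obtain ⟨k1, k2, -⟩ := Ker.TT (γ d) i j
        obtain ⟨g1, g2, -⟩ := hγ d hd
        unfold wt
        rw [k1, k2, g1, g2]
        simp only [Int.natCast_dvd_natCast]
        split_ifs with h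
        · congr 1
          push_cast
          rw [(ZMod.natCast_eq_zero_iff c N₀).2 (hN.trans h), mul_zero, add_zero]
        · rfl
      have hd : ∀ d ∈ un c, ∑' j : ℤ, ∑' i : ℤ,
          wt M χ (ModularGroup.T ^ i * γ d * ModularGroup.T ^ j) *
            Ker.II θ m n (ModularGroup.T ^ i * γ d * ModularGroup.T ^ j) =
          (if M ∣ c then χ (d : ZMod N₀) else 0) *
            (ex ((((m : ℤ) * d + (n : ℤ) * iv d c : ℤ) : ℝ) / c) *
              JJ θ ((m : ℝ) * n / (c : ℝ) ^ 2)) := fun d hd => by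
        obtain ⟨g1, g2, g3⟩ := hγ d hd
        have := hUnf A η₁ η₂ θ hθ m n c (γ d) hm hn hc g1
        rw [g2, g3] at this
        rw [← this]
        simp only [hw d hd, tsum_mul_left]
        rfl
      rw [sum_congr rfl hd]
      by_cases hM : M ∣ c
      · simp only [hM, hc, and_self, if_true]
        have hc' : (0 : ℝ) < c := by exact_mod_cast hc
        have hs : Real.sqrt ((m : ℝ) * n / (c : ℝ) ^ 2) = Real.sqrt ((m : ℝ) * n) / c := by
          rw [Real.sqrt_div' _ (by positivity), Real.sqrt_sq hc'.le]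
        have hs0 : ((Real.sqrt ((m : ℝ) * n) : ℝ) : ℂ) ≠ 0 := by
          exact_mod_cast (Real.sqrt_pos.2 (by positivity)).ne'
        have hc0 : (c : ℂ) ≠ 0 := by exact_mod_cast hc.ne'
        unfold jj kl
        rw [hs]
        simp only [← mul_assoc]
        rw [← sum_mul]
        push_cast
        field_simp
      · simp [hM]
    · simp [hc]

end MR
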