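import Pool.Agent.P.MP_79de8b_nt.Basic

/-! The main term. -/

open MeasureTheory Filter Topology Set

noncomputable section
namespace MR
namespace MT

/-- The coordinates `(s, m) ↦ (m + s/2, m - s/2)`. -/
def phi : ℝ × ℝ ≃ₜ ℝ × ℝ where
  toFun q := (q.2 + q.1 / 2, q.2 - q.1 / 2)
  invFun p := (p.1 - p.2, (p.1 + p.2) / 2)
  left_inv q := by ext <;> simp only <;> ring
  right_inv p := by ext <;> simp only <;> ring
  continuous_toFun := by fun_prop
  continuous_invFun := by fun_prop

lemma phi_apply (q : ℝ × ℝ) : phi q = (q.2 + q.1 / 2, q.2 - q.1 / 2) := rfl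

lemma mp_phi : MeasurePreserving phi volume volume := by
  have h1 : MeasurePreserving (fun p : ℝ × ℝ => (id p.1, p.2 + p.1 / 2))
      (volume.prod volume) (volume.prod volume) :=
    MeasurePreserving.skew_product (MeasurePreserving.id (volume : Measure ℝ))
      (g := fun a c : ℝ => c + a / 2) (by fun_prop)
      (Eventually.of_forall fun a => (measurePreserving_add_right volume (a / 2)).map_eq)
  have h2 : MeasurePreserving (fun p : ℝ × ℝ => (id p.1, p.1 - p.2))
      (volume.prod volume) (volume.prod volume) :=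
    MeasurePreserving.skew_product (MeasurePreserving.id (volume : Measure ℝ))
      (g := fun a c : ℝ => a - c) (by fun_prop)
      (Eventually.of_forall fun a => (Measure.measurePreserving_sub_left volume a).map_eq)
  have h3 := h2.comp (Measure.measurePreserving_swap.comp h1)
  have e : (phi : ℝ × ℝ → ℝ × ℝ) = (fun p : ℝ × ℝ => (id p.1, p.1 - p.2)) ∘
      (Prod.swap ∘ fun p : ℝ × ℝ => (id p.1, p.2 + p.1 / 2)) := by
    ext q
    · rfl
    · simp only [phi_apply, Function.comp, Prod.swap, id]; ring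
  rw [e]
  exact h3

/-- The weight. -/
def kk (s : ℝ) : ℝ := 4 * Real.exp s / (1 + Real.exp s) ^ 2

/-- The height. -/
def eta (q : ℝ × ℝ) : ℝ := (Real.exp (q.2 + q.1 / 2) + Real.exp (q.2 - q.1 / 2)) / 2

lemma kk_nonneg (s : ℝ) : 0 ≤ kk s := by unfold kk; positivity

lemma kk_le (s : ℝ) : kk s ≤ 4 * Real.exp (-s) := by
  unfold kk
  have h := Real.exp_pos s
  rw [Real.exp_neg, div_le_iff₀ (by positivity)]
  field_simp
  nlinarith

lemma continuous_kk : Continuous kk := by
  unfold kk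
  exact Continuous.div (by fun_prop) (by fun_prop) fun s => by positivity

lemma kk_eq (q : ℝ × ℝ) : Real.exp (q.2 + q.1 / 2 + (q.2 - q.1 / 2)) / eta q ^ 2 = kk q.1 := by
  unfold eta kk
  have e1 : Real.exp (q.2 + q.1 / 2) = Real.exp (q.2 - q.1 / 2) * Real.exp q.1 := by
    rw [← Real.exp_add]; congr 1; ring
  rw [Real.exp_add, e1]
  have h := Real.exp_pos q.1
  have h' := Real.exp_pos (q.2 - q.1 / 2)
  field_simp
  ring

lemma hasDerivAt_kk (s : ℝ) : HasDerivAt (fun s => -4 / (1 + Real.exp s)) (kk s) s := by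
  have h := ((Real.hasDerivAt_exp s).const_add 1).fun_inv (by positivity)
  have h2 := h.const_mul (-4)
  have e : kk s = -4 * (-Real.exp s / (1 + Real.exp s) ^ 2) := by unfold kk; ring
  rw [e]
  exact h2

lemma tendsto_prim : Tendsto (fun s => -4 / (1 + Real.exp s)) atTop (𝓝 0) :=
  tendsto_const_nhds.div_atTop (tendsto_atTop_add_const_left _ _ Real.tendsto_exp_atTop)

lemma integrableOn_kk : IntegrableOn kk (Ici 0) := by
  rw [integrableOn_Ici_iff_integrableOn_Ioi]
  exact integrableOn_Ioi_deriv_of_nonneg' (fun x _ => hasDerivAt_kk x) (fun x _ => kk_nonneg x)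
    tendsto_prim

lemma integral_kk : ∫ s in Ici 0, kk s = 2 := by
  rw [integral_Ici_eq_integral_Ioi, integral_Ioi_of_hasDerivAt_of_nonneg'
    (fun x _ => hasDerivAt_kk x) (fun x _ => kk_nonneg x) tendsto_prim]
  norm_num

lemma integral_kk_tail {t : ℝ} (ht : 0 ≤ t) : ∫ s in Ici t, kk s ≤ 4 * Real.exp (-t) := by
  rw [integral_Ici_eq_integral_Ioi, integral_Ioi_of_hasDerivAt_of_nonneg'
    (fun x _ => hasDerivAt_kk x) (fun x _ => kk_nonneg x) tendsto_prim]
  have h := Real.exp_pos t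
  rw [Real.exp_neg, zero_sub, ← neg_div, neg_neg, div_le_iff₀ (by positivity)]
  field_simp
  linarith

lemma eta_pos (q : ℝ × ℝ) : 0 < eta q := by unfold eta; positivity

lemma continuous_eta : Continuous eta := by unfold eta; fun_prop

lemma eta_le {q : ℝ × ℝ} (hq : 0 ≤ q.1) : eta q ≤ Real.exp (q.2 + q.1 / 2) := by
  unfold eta
  have : Real.exp (q.2 - q.1 / 2) ≤ Real.exp (q.2 + q.1 / 2) := Real.exp_le_exp.2 (by linarith)
  linarith

lemma le_eta (q : ℝ × ℝ) : Real.exp q.2 ≤ eta q := by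
  unfold eta
  have e1 : Real.exp (q.2 + q.1 / 2) = Real.exp q.2 * Real.exp (q.1 / 2) := Real.exp_add _ _
  have e2 : Real.exp (q.2 - q.1 / 2) = Real.exp q.2 * Real.exp (-(q.1 / 2)) := by
    rw [← Real.exp_add]; rfl
  have h1 := Real.add_one_le_exp (q.1 / 2)
  have h2 := Real.add_one_le_exp (-(q.1 / 2))
  have h3 := Real.exp_pos q.2
  rw [e1, e2]
  nlinarith

/-- The integrand minus its limit. -/
def GG (I : ℝ → ℝ) (c : ℝ) (q : ℝ × ℝ) : ℝ :=
  kk q.1 * (I (eta q) - if q.2 ≤ 0 then c else 0)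

lemma integrable_abs : Integrable fun m : ℝ => Real.exp (-(1 / 5) * |m|) := by
  rw [← integrableOn_univ, ← Iic_union_Ioi (a := (0 : ℝ))]
  refine IntegrableOn.union ?_ ?_
  · refine (integrableOn_exp_mul_Iic (a := 1 / 5) (by norm_num) 0).congr_fun
      (fun m hm => ?_) measurableSet_Iic
    simp only; rw [abs_of_nonpos hm]; congr 1; ring
  · refine (integrableOn_exp_mul_Ioi (a := -(1 / 5)) (by norm_num) 0).congr_fun
      (fun m hm => ?_) measurableSet_Ioi
    simp only; rw [abs_of_pos hm]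

variable {I : ℝ → ℝ} {c C : ℝ}

lemma measurable_GG (hI : ContinuousOn I (Ioi 0)) : Measurable (GG I c) := by
  have h1 : Continuous fun q => I (eta q) := hI.comp_continuous continuous_eta eta_pos
  unfold GG
  refine (continuous_kk.comp continuous_fst).measurable.mul (h1.measurable.sub ?_)
  exact Measurable.ite (measurableSet_le measurable_snd measurable_const) measurable_const
    measurable_const

lemma abs_GG_le
    (h : ∀ η, 0 < η → |I η - c| ≤ C * η ^ (1 / 5 : ℝ) ∧ |I η| ≤ C ∧ |I η| ≤ C / η ^ 2)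
    {q : ℝ × ℝ} (hq : 0 ≤ q.1) :
    |GG I c q| ≤ 4 * C * Real.exp (-(9 / 10) * q.1) * Real.exp (-(1 / 5) * |q.2|) := by
  have hC : 0 ≤ C := (abs_nonneg _).trans (h 1 one_pos).2.1
  have hk := kk_le q.1
  have hk0 := kk_nonneg q.1
  obtain ⟨h1, -, h3⟩ := h _ (eta_pos q)
  have key : |I (eta q) - if q.2 ≤ 0 then c else 0| ≤
      C * Real.exp (q.1 / 10) * Real.exp (-(1 / 5) * |q.2|) := by
    split_ifs with hm
    · refine h1.trans ?_
      rw [mul_assoc, ← Real.exp_add, abs_of_nonpos hm]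
      gcongr
      calc eta q ^ (1 / 5 : ℝ) ≤ Real.exp (q.2 + q.1 / 2) ^ (1 / 5 : ℝ) :=
            Real.rpow_le_rpow (eta_pos q).le (eta_le hq) (by norm_num)
        _ = _ := by rw [← Real.exp_mul]; congr 1; ring
    · rw [sub_zero]
      refine h3.trans ?_
      have hm' : 0 < q.2 := not_le.1 hm
      rw [mul_assoc, ← Real.exp_add, abs_of_pos hm', div_eq_mul_inv]
      gcongr
      calc (eta q ^ 2)⁻¹ ≤ (Real.exp q.2 ^ 2)⁻¹ := by
            gcongr
            exact le_eta q
        _ = Real.exp (-(2 * q.2)) := by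
            rw [Real.exp_neg, ← Real.exp_nat_mul]; norm_num
        _ ≤ _ := Real.exp_le_exp.2 (by linarith)
  unfold GG
  rw [abs_mul, abs_of_nonneg hk0]
  calc _ ≤ 4 * Real.exp (-q.1) * (C * Real.exp (q.1 / 10) * Real.exp (-(1 / 5) * |q.2|)) := by
        gcongr
    _ = 4 * C * (Real.exp (-q.1) * Real.exp (q.1 / 10)) * Real.exp (-(1 / 5) * |q.2|) := by ring
    _ = _ := by rw [← Real.exp_add]; congr 3; ring

/-- The half plane. -/
def HP : Set (ℝ × ℝ) := Ici 0 ×ˢ univ

lemma mHP : MeasurableSet HP := measurableSet_Ici.prod MeasurableSet.univ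

lemma integrableOn_GG (hI : ContinuousOn I (Ioi 0))
    (h : ∀ η, 0 < η → |I η - c| ≤ C * η ^ (1 / 5 : ℝ) ∧ |I η| ≤ C ∧ |I η| ≤ C / η ^ 2) :
    IntegrableOn (GG I c) HP := by
  have h1 : IntegrableOn (fun s : ℝ => 4 * C * Real.exp (-(9 / 10) * s)) (Ici 0) := by
    rw [integrableOn_Ici_iff_integrableOn_Ioi]
    exact (integrableOn_exp_mul_Ioi (a := -(9 / 10)) (by norm_num) 0).const_mul _
  have h2 := Integrable.mul_prod h1 integrable_abs
  have h3 : IntegrableOn (fun q : ℝ × ℝ =>
      4 * C * Real.exp (-(9 / 10) * q.1) * Real.exp (-(1 / 5) * |q.2|)) HP := by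
    unfold IntegrableOn HP
    rw [Measure.volume_eq_prod, ← Measure.prod_restrict, Measure.restrict_univ]
    exact h2
  refine Integrable.mono' h3 (measurable_GG hI).aestronglyMeasurable ?_
  filter_upwards [ae_restrict_mem mHP] with q hq
  exact abs_GG_le h hq.1

/-- The inner region. -/
def AA (l : ℝ) : Set (ℝ × ℝ) :=
  {q | 0 ≤ q.1 ∧ -l < q.2 ∧ q.1 ≤ l / 2 ∧ q.2 + q.1 / 2 ≤ 2 * Real.log l}

lemma mAA (l : ℝ) : MeasurableSet (AA l) := by
  unfold AA
  refine (measurableSet_le measurable_const measurable_fst).inter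
    ((measurableSet_lt measurable_const measurable_snd).inter
      ((measurableSet_le measurable_fst measurable_const).inter
        (measurableSet_le (measurable_snd.add (measurable_fst.div_const 2)) measurable_const)))

lemma tendsto_out {G : ℝ × ℝ → ℝ} (hG : IntegrableOn G HP) :
    Tendsto (fun l => ∫ q in HP \ AA l, |G q|) atTop (𝓝 0) := by
  have e : ∀ l, ∫ q in HP \ AA l, |G q| = ∫ q in HP, (AA l)ᶜ.indicator (fun q => |G q|) q := by
    intro l
    rw [setIntegral_indicator (mAA l).compl, sdiff_eq]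
  simp_rw [e]
  have h0 : (0 : ℝ) = ∫ _q in HP, (0 : ℝ) := by simp
  rw [h0]
  refine tendsto_integral_filter_of_dominated_convergence (fun q => |G q|)
    (Eventually.of_forall fun l => hG.abs.aestronglyMeasurable.indicator (mAA l).compl)
    (Eventually.of_forall fun l => Eventually.of_forall fun q => ?_) hG.abs ?_
  · refine (norm_indicator_le_norm_self _ _).trans ?_
    simp
  · filter_upwards [ae_restrict_mem mHP] with q hq
    refine tendsto_const_nhds.congr' ?_
    filter_upwards [eventually_gt_atTop (-q.2), eventually_ge_atTop (2 * q.1),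
      Real.tendsto_log_atTop.eventually (eventually_ge_atTop ((q.2 + q.1 / 2) / 2))]
      with l h1 h2 h3
    rw [indicator_of_notMem]
    exact fun hn => hn ⟨hq.1, by linarith, by linarith, by linarith⟩

lemma integrableOn_box {t l : ℝ} (ht : 0 ≤ t) :
    IntegrableOn (fun q : ℝ × ℝ => kk q.1) (Ici t ×ˢ Icc (-l) 0) := by
  have h1 : IntegrableOn kk (Ici t) := integrableOn_kk.mono_set (Ici_subset_Ici.2 ht)
  have h2 : IntegrableOn (fun _ : ℝ => (1 : ℝ)) (Icc (-l) 0) := continuousOn_const.integrableOn_Icc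
  have h3 := Integrable.mul_prod h1 h2
  unfold IntegrableOn
  rw [Measure.volume_eq_prod, ← Measure.prod_restrict]
  simpa using h3

lemma integral_box (t : ℝ) {l : ℝ} (hl : 0 ≤ l) :
    ∫ q in Ici t ×ˢ Icc (-l) 0, kk q.1 = (∫ s in Ici t, kk s) * l := by
  have := setIntegral_prod_mul (μ := volume) (ν := volume) kk (fun _ : ℝ => (1 : ℝ)) (Ici t)
    (Icc (-l) 0)
  rw [Measure.volume_eq_prod]
  simp only [mul_one] at this
  rw [this]
  simp [hl]

lemma box_out {l : ℝ} (hl : 1 ≤ l) (hlog : Real.log l ≤ l / 4) {R : Set (ℝ × ℝ)}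
    (hA : AA l ⊆ R) : ∫ q in (Ici 0 ×ˢ Icc (-l) 0) \ R, kk q.1 ≤ 4 / l := by
  have hl0 : 0 ≤ Real.log l := Real.log_nonneg hl
  have hnull : ∀ᵐ q : ℝ × ℝ, q.2 ≠ -l := by
    rw [ae_iff]
    have : {q : ℝ × ℝ | ¬ q.2 ≠ -l} = univ ×ˢ {-l} := by ext q; simp
    rw [this, Measure.volume_eq_prod, Measure.prod_prod]; simp
  calc _ ≤ ∫ q in Ici (2 * Real.log l) ×ˢ Icc (-l) 0, kk q.1 := by
        refine setIntegral_mono_set (integrableOn_box (by positivity))
          (Eventually.of_forall fun q => kk_nonneg _) ?_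
        filter_upwards [hnull] with q hq hm
        obtain ⟨⟨h1, h2⟩, h3⟩ := hm
        refine ⟨?_, h2⟩
        by_contra h4
        have h5 : q.1 < 2 * Real.log l := not_le.1 h4
        have h6 : (0 : ℝ) ≤ q.1 := h1
        exact h3 (hA ⟨h1, lt_of_le_of_ne h2.1 hq.symm, by linarith, by linarith [h2.2]⟩)
    _ ≤ 4 * Real.exp (-(2 * Real.log l)) * l := by
        rw [integral_box _ (by linarith)]
        gcongr
        exact integral_kk_tail (by positivity)
    _ = 4 / l := by
        have : Real.exp (2 * Real.log l) = l ^ 2 := by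
          rw [show 2 * Real.log l = ((2 : ℕ) : ℝ) * Real.log l by norm_num, Real.exp_nat_mul,
            Real.exp_log (by linarith)]
        rw [Real.exp_neg, this]; field_simp

lemma est (hI : ContinuousOn I (Ioi 0))
    (h : ∀ η, 0 < η → |I η - c| ≤ C * η ^ (1 / 5 : ℝ) ∧ |I η| ≤ C ∧ |I η| ≤ C / η ^ 2)
    {l : ℝ} (hl : 1 ≤ l) (hlog : Real.log l ≤ l / 4) {R : Set (ℝ × ℝ)} (hR : MeasurableSet R)
    (hsub : ∀ q ∈ R, 0 ≤ q.1 ∧ -l ≤ q.2) (hA : AA l ⊆ R) :
    |(∫ q in R, kk q.1 * I (eta q)) - 2 * c * l - ∫ q in HP, GG I c q| ≤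
      (∫ q in HP \ AA l, |GG I c q|) + |c| * (4 / l) := by
  have hG := integrableOn_GG hI h
  have hRH : R ⊆ HP := fun q hq => ⟨(hsub q hq).1, mem_univ _⟩
  set B : Set (ℝ × ℝ) := Ici 0 ×ˢ Icc (-l) 0 with hB
  have mB : MeasurableSet B := measurableSet_Ici.prod measurableSet_Icc
  have hk : IntegrableOn (fun q : ℝ × ℝ => kk q.1) B := integrableOn_box le_rfl
  have e1 : ∫ q in R, kk q.1 * I (eta q) =
      ∫ q in R, (GG I c q + c * B.indicator (fun q => kk q.1) q) := by
    refine setIntegral_congr_fun hR fun q hq => ?_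
    simp only [GG]
    by_cases hm : q.2 ≤ 0
    · rw [if_pos hm, indicator_of_mem (show q ∈ B from ⟨(hsub q hq).1, (hsub q hq).2, hm⟩)]; ring
    · rw [if_neg hm, indicator_of_notMem (fun hb : q ∈ B => hm hb.2.2)]; ring
  have hind : IntegrableOn (B.indicator fun q : ℝ × ℝ => kk q.1) R :=
    ((integrable_indicator_iff mB).2 hk).integrableOn
  have e2 : ∫ q in R, B.indicator (fun q : ℝ × ℝ => kk q.1) q =
      2 * l - ∫ q in B \ R, kk q.1 := by
    rw [setIntegral_indicator mB, inter_comm, eq_sub_iff_add_eq, integral_inter_add_sdiff hR hk,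
      hB, integral_box _ (by linarith), integral_kk]
  have e3 : ∫ q in R, GG I c q = (∫ q in HP, GG I c q) - ∫ q in HP \ R, GG I c q := by
    rw [setIntegral_sdiff hR hG hRH]; ring
  rw [e1, integral_add (hG.mono_set hRH) (hind.const_mul c), integral_const_mul, e2, e3]
  have b1 : |∫ q in HP \ R, GG I c q| ≤ ∫ q in HP \ AA l, |GG I c q| := by
    refine abs_integral_le_integral_abs.trans ?_
    exact setIntegral_mono_set (hG.mono_set sdiff_subset).abs
      (Eventually.of_forall fun q => abs_nonneg _)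
      (sdiff_subset_sdiff_right hA).eventuallyLE
  have b2 : |c * ∫ q in B \ R, kk q.1| ≤ |c| * (4 / l) := by
    rw [abs_mul, abs_of_nonneg (integral_nonneg fun q => kk_nonneg _)]
    gcongr
    exact box_out hl hlog hA
  calc _ = |-(∫ q in HP \ R, GG I c q) - c * ∫ q in B \ R, kk q.1| := by congr 1; ring
    _ ≤ _ := by
      refine (abs_sub _ _).trans ?_
      rw [abs_neg]; exact add_le_add b1 b2

end MT

open MT in
theorem mt : S_MT := by
  intro I c C hI h
  refine ⟨∫ q in HP, GG I c q, fun e he => ?_⟩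
  have t1 := tendsto_out (integrableOn_GG hI h)
  have t2 : Tendsto (fun l : ℝ => |c| * (4 / l)) atTop (𝓝 (|c| * 0)) :=
    (tendsto_const_nhds.div_atTop tendsto_id).const_mul _
  have t3 := t1.add t2
  rw [mul_zero, add_zero] at t3
  have t4 := Real.isLittleO_log_id_atTop.bound (c := 1 / 4) (by norm_num)
  obtain ⟨l₀, hl₀⟩ := eventually_atTop.1
    ((t3.eventually (ge_mem_nhds he)).and (t4.and (eventually_ge_atTop (1 : ℝ))))
  refine ⟨l₀, fun l hl R hR h1 h2 => ?_⟩
  obtain ⟨k1, k2, k3⟩ := hl₀ l hl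
  have hlog : Real.log l ≤ l / 4 := by
    rw [Real.norm_eq_abs, id, Real.norm_eq_abs, abs_of_nonneg (Real.log_nonneg k3),
      abs_of_nonneg (by linarith)] at k2
    linarith
  rw [← mp_phi.setIntegral_preimage_emb phi.measurableEmbedding]
  have e1 : ∀ q : ℝ × ℝ, Real.exp ((phi q).1 + (phi q).2) /
      ((Real.exp (phi q).1 + Real.exp (phi q).2) / 2) ^ 2 *
      I ((Real.exp (phi q).1 + Real.exp (phi q).2) / 2) = kk q.1 * I (eta q) := fun q => by
    rw [← kk_eq]; rfl
  simp_rw [e1]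
  refine (est hI h k3 hlog (phi.continuous.measurable hR) (fun q hq => ?_) fun q hq => ?_).trans k1
  · obtain ⟨a, b⟩ := h1 hq
    simp only [phi_apply] at a b
    constructor <;> linarith
  · obtain ⟨a, b, d, f⟩ := hq
    refine h2 ⟨?_, ?_, ?_, ?_⟩ <;> simp only [phi_apply] <;> linarith

end MR
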