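import Pool.Agent.P.MP_79de8b_nt.Basic

/-! The two moments of the modular symbol. -/

open Complex UpperHalfPlane MeasureTheory Finset CongruenceSubgroup Filter Topology
open scoped Real MatrixGroups ComplexConjugate

noncomputable section
namespace MR
namespace Main

lemma integrable_exp_abs {a : ℝ} (ha : 0 < a) : Integrable fun u : ℝ => Real.exp (-(a * |u|)) := by
  rw [← integrableOn_univ, ← Set.Iic_union_Ioi (a := (0 : ℝ)), integrableOn_union]
  constructor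
  · refine (integrableOn_exp_mul_Iic ha 0).congr_fun (fun u hu => ?_) measurableSet_Iic
    simp only; rw [abs_of_nonpos hu]; ring_nf
  · refine (integrableOn_exp_mul_Ioi (neg_lt_zero.2 ha) 0).congr_fun (fun u hu => ?_)
      measurableSet_Ioi
    simp only; rw [abs_of_pos hu]; ring_nf

lemma XX_add (hSer : S_Ser) {N : ℕ} (Φ : Fam N) {q : ℕ} (hq : 0 < q) (x : ℕ) :
    XX Φ (((x + q : ℕ) : ℝ) / q) = XX Φ (x / q) := by
  have hq' : (q : ℝ) ≠ 0 := by positivity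
  have e : ((x + q : ℕ) : ℝ) / q = x / q + (1 : ℕ) := by push_cast; field_simp
  unfold XX
  simp_rw [e, (hSer _ _ _ _ Φ.sera).2.2.1]

lemma first (hAv : S_Av) (hSer : S_Ser) (hDual : S_Dual) (hT0 : S_T0) (hCt : S_Ct)
    {N : ℕ} (Φ : Fam N) :
    Tendsto (fun q : ℕ => av (un q) fun x => XX Φ (x / q)) atTop (𝓝 0) := by
  obtain ⟨C, hC⟩ := hT0 N Φ
  set I₀ : ℝ := ∫ u : ℝ, Real.exp (-(4 / 5 * |u|)) with hI₀
  have hI := integrable_exp_abs (a := 4 / 5) (by norm_num)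
  have hI0 : 0 ≤ I₀ := integral_nonneg fun u => (Real.exp_pos _).le
  have h1 := (tendsto_Lam_pow_div C (δ := 1 / 5) (by norm_num)).const_mul (2 * π * I₀)
  rw [mul_zero] at h1
  refine squeeze_zero_norm' ((eventually_ge_atTop 3).mono fun q hq => ?_) h1
  have hq0 : 0 < q := by omega
  have hqR : (0 : ℝ) < q := by exact_mod_cast hq0
  have hL := Lam_pos hq
  rw [(hAv N q 1 Φ.pos hq0 (Nat.coprime_one_left N)).2.2.1 _ (XX_add hSer Φ hq0)]
  refine norm_av_le (by positivity) fun ρ hρ => ?_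
  have hρ' := (mem_un.1 hρ).2
  obtain ⟨hint, -, -, -⟩ := (hCt N Φ 1 true q ρ).2.2.2.2 hq0 hρ'
  obtain ⟨ρ', hρ'', -, hd⟩ := (hDual N Φ q ρ hq0 hρ').2.2
  have e1 : (av (UU N q ρ) fun x => XX Φ (x / q)) =
      2 * π * ∫ u : ℝ, av (UU N q ρ) fun x => FF (Φ.G 1) (x / q) u := by
    unfold XX
    rw [av_const_mul]; congr 1
    unfold av
    rw [integral_div, integral_finsetSum _ hint]
  have hb : ∀ u : ℝ, ‖av (UU N q ρ) fun x => FF (Φ.G 1) (x / q) u‖ ≤
      Lam q ^ C / (q : ℝ) ^ (1 / 5 : ℝ) * Real.exp (-(4 / 5 * |u + Real.log q|)) := by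
    intro u
    have key : ∀ t : ℝ, 0 ≤ t → Lam q ^ C * Real.exp (-(4 * (t - Real.log q) / 5)) / q =
        Lam q ^ C / (q : ℝ) ^ (1 / 5 : ℝ) * Real.exp (-(4 / 5 * t)) := by
      intro t _
      have e2 : (q : ℝ) ^ (1 / 5 : ℝ) = Real.exp (Real.log q / 5) := by
        rw [Real.rpow_def_of_pos hqR]; ring_nf
      have e3 : (q : ℝ) = Real.exp (Real.log q) := (Real.exp_log hqR).symm
      have e4 : Real.exp (-(4 * (t - Real.log q) / 5)) / q =
          Real.exp (-(4 / 5 * t)) / Real.exp (Real.log q / 5) := by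
        nth_rewrite 2 [e3]
        rw [← Real.exp_sub, ← Real.exp_sub]; congr 1; ring
      rw [e2, mul_div_assoc, e4]; ring
    rcases le_total 0 (u + Real.log q) with h | h
    · rw [abs_of_nonneg h, ← key _ h]
      simpa using (hC 1 q ρ hq hρ').2 u
    · rw [abs_of_nonpos h, ← key _ (by linarith), hd u, norm_neg]
      convert (hC (sig (q * ρ % N)) q ρ' hq hρ'').2 (-(2 * Real.log q) - u) using 6
      ring
  rw [e1, norm_mul]
  have hJ : Integrable fun u : ℝ => Real.exp (-(4 / 5 * |u + Real.log q|)) :=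
    hI.comp_add_right (Real.log q)
  have h2 := norm_integral_le_of_norm_le (hJ.const_mul _) (Eventually.of_forall hb)
  rw [integral_const_mul,
    integral_add_right_eq_self (fun u : ℝ => Real.exp (-(4 / 5 * |u|))) (Real.log q)] at h2
  have h3 : ‖(2 * π : ℂ)‖ = 2 * π := by
    rw [norm_mul, Complex.norm_real, Real.norm_eq_abs, abs_of_pos Real.pi_pos]; simp
  rw [h3]
  calc _ ≤ 2 * π * (Lam q ^ C / (q : ℝ) ^ (1 / 5 : ℝ) * I₀) := by gcongr
    _ = _ := by ring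

end Main

open Main in
theorem main (hAv : S_Av) (hSer : S_Ser) (hDual : S_Dual) (hT0 : S_T0) (hCt : S_Ct)
    (hReg : S_Reg) : S_Main := by
  intro N Φ
  obtain ⟨c, hc⟩ := hReg N Φ
  refine ⟨8 * π ^ 2 * c, first hAv hSer hDual hT0 hCt Φ, fun ε d => ?_⟩
  obtain ⟨D, hD⟩ := hc ε
  refine ⟨8 * π ^ 2 * ((∑ ρ ∈ un N, D (d * ρ % N)) / (un N).card), ?_⟩
  rw [Metric.tendsto_nhds]
  intro e he
  have hπ : 0 < π ^ 2 := by positivity
  obtain ⟨q₀, hq₀⟩ := hD (e / (16 * π ^ 2)) (by positivity)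
  rw [eventually_inf_principal]
  filter_upwards [eventually_ge_atTop q₀, eventually_ge_atTop 1] with q hq hq0 hd
  have hd' : q.gcd N = d := hd
  obtain ⟨-, -, h2, -, h4⟩ := hAv N q 1 Φ.pos hq0 (Nat.coprime_one_left N)
  have hne : (un N).Nonempty := by
    rw [← card_pos, card_un]; exact Nat.totient_pos.2 Φ.pos
  rw [h2 _ (fun x => by rw [XX_add hSer Φ hq0]), dist_eq_norm]
  have e1 : ((8 * π ^ 2 * ((∑ ρ ∈ un N, D (d * ρ % N)) / (un N).card) : ℝ) : ℂ) =
      av (un N) fun ρ => 8 * π ^ 2 * (D (q * ρ % N) : ℂ) := by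
    rw [av_const_mul, h4 (fun n => (D n : ℂ)), hd']; unfold av; push_cast; rfl
  rw [e1, ← av_const hne (((if ε then 8 * π ^ 2 * c else 0) * Real.log q : ℝ) : ℂ), ← av_sub,
    ← av_sub]
  refine lt_of_le_of_lt (norm_av_le (B := e / 2) (by positivity) fun ρ hρ => ?_) (by linarith)
  have hρ' := (mem_un.1 hρ).2
  obtain ⟨-, -, h5, -⟩ := (hCt N Φ 1 ε q ρ).2.2.2.2 hq0 hρ'
  have h6 := hq₀ q hq ρ hρ'
  rw [h5]
  set H := ∫ p in {p : ℝ × ℝ | p.2 ≤ p.1}, Cor Φ 1 ε q ρ p.1 p.2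
  set m : ℝ := (if ε then c else 0) * Real.log q + D (q * ρ % N) with hm
  have e2 : 4 * π ^ 2 * (H + cj ε H) - (((if ε then 8 * π ^ 2 * c else 0) * Real.log q : ℝ) : ℂ) -
      8 * π ^ 2 * (D (q * ρ % N) : ℂ) = ((4 * π ^ 2 : ℝ) : ℂ) * ((H - m) + cj ε (H - m)) := by
    rw [cj_sub, cj_ofReal, hm]
    cases ε <;> simp <;> ring
  rw [e2, norm_mul, Complex.norm_real, Real.norm_eq_abs, abs_of_pos (by positivity)]
  calc _ ≤ 4 * π ^ 2 * (e / (16 * π ^ 2) + e / (16 * π ^ 2)) := by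
        gcongr
        refine (norm_add_le _ _).trans ?_
        rw [norm_cj]; gcongr
    _ = e / 2 := by field_simp; ring

end MR
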