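import Pool.Agent.P.MP_79de8b_nt.Basic

/-! The invariant measure: invariance and coordinates. -/

open Complex UpperHalfPlane MeasureTheory Finset CongruenceSubgroup Filter Topology
open scoped Real MatrixGroups ComplexConjugate ENNReal NNReal

noncomputable section
namespace MR

lemma mp_gl (g : GL (Fin 2) ℝ) : MeasurePreserving (fun z : ℍ => g • z) volume volume :=
  haveI : MeasurableConstSMul (GL (Fin 2) ℝ) ℍ := ⟨fun g => (continuous_const_smul g).measurable⟩
  measurePreserving_smul g volume

lemma mp_sl (g : SL(2, ℤ)) : MeasurePreserving (fun z : ℍ => g • z) volume volume :=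
  mp_gl (g : GL (Fin 2) ℝ)

lemma mp_HH (g : SL(2, ℤ)) : MeasurePreserving (fun z : HH => g • z) volume volume :=
  (mp_sl g).prod (mp_sl g)

lemma im_affine_pos {h : ℝ} (t : ℝ) (hh : 0 < h) (z : ℍ) : 0 < ((h : ℂ) * z + t).im := by
  simpa using mul_pos hh z.im_pos

lemma coe_affine {h : ℝ} (t : ℝ) (hh : 0 < h) (z : ℍ) :
    ((ofComplex ((h : ℂ) * z + t) : ℍ) : ℂ) = h * z + t := coe_ofComplex (im_affine_pos t hh z)

lemma mp_affine {h : ℝ} (t : ℝ) (hh : 0 < h) :
    MeasurePreserving (fun z : ℍ => ofComplex ((h : ℂ) * z + t)) volume volume := by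
  have hd : (!![h, t; 0, 1] : Matrix (Fin 2) (Fin 2) ℝ).det ≠ 0 := by
    simp [Matrix.det_fin_two, hh.ne']
  convert mp_gl (Matrix.GeneralLinearGroup.mkOfDetNeZero _ hd) using 2 with z
  apply UpperHalfPlane.ext
  rw [coe_affine t hh, UpperHalfPlane.coe_smul_of_det_pos (by simpa [Matrix.det_fin_two] using hh)]
  simp [UpperHalfPlane.num, UpperHalfPlane.denom]

/-- The hyperbolic measure on `ℂ`. -/
def muC : Measure ℂ :=
  (volume.restrict {z : ℂ | 0 < z.im}).withDensity fun z : ℂ => ENNReal.ofReal (1 / z.im ^ 2)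

/-- The hyperbolic measure in real coordinates. -/
def muR : Measure (ℝ × ℝ) :=
  (volume.prod (volume.restrict (Set.Ioi 0))).withDensity
    fun p : ℝ × ℝ => ENNReal.ofReal (1 / p.2 ^ 2)

lemma measurableSet_im_pos : MeasurableSet {w : ℂ | 0 < w.im} :=
  (isOpen_lt continuous_const Complex.continuous_im).measurableSet

lemma mp_coe : MeasurePreserving (fun z : ℍ => (z : ℂ)) volume muC := by
  refine ⟨UpperHalfPlane.measurable_coe, ?_⟩
  ext s hs
  rw [Measure.map_apply UpperHalfPlane.measurable_coe hs, volume_eq_lintegral, muC,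
    withDensity_apply _ hs, Measure.restrict_restrict hs, Set.image_preimage_eq_inter_range,
    UpperHalfPlane.range_coe]
  refine lintegral_congr fun z => ?_
  rw [ENNReal.ofReal, ENNReal.coe_inj]
  ext
  rw [Real.coe_toNNReal _ (by positivity)]
  simp

lemma ae_muC : ∀ᵐ z ∂muC, 0 < z.im :=
  (withDensity_absolutelyContinuous _ _).ae_le (ae_restrict_mem measurableSet_im_pos)

lemma mp_ofComplex : MeasurePreserving (fun z : ℂ => ofComplex z) muC volume := by
  refine ⟨measurable_ofComplex, ?_⟩
  rw [← mp_coe.map_eq, Measure.map_map measurable_ofComplex UpperHalfPlane.measurable_coe]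
  have : ((fun z : ℂ => ofComplex z) ∘ fun z : ℍ => (z : ℂ)) = id := by
    ext1 z; simp
  rw [this, Measure.map_id]

lemma mp_realProd : MeasurePreserving Complex.measurableEquivRealProd muC muR := by
  refine ⟨Complex.measurableEquivRealProd.measurable, ?_⟩
  have h1 : MeasurePreserving Complex.measurableEquivRealProd
      (volume.restrict {z : ℂ | 0 < z.im}) (volume.prod (volume.restrict (Set.Ioi (0 : ℝ)))) := by
    have := Complex.volume_preserving_equiv_real_prod.restrict_preimage
      (s := Set.univ ×ˢ Set.Ioi (0 : ℝ)) (MeasurableSet.univ.prod measurableSet_Ioi)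
    have e1 : Complex.measurableEquivRealProd ⁻¹' (Set.univ ×ˢ Set.Ioi (0 : ℝ)) =
        {z : ℂ | 0 < z.im} := by ext z; simp
    rwa [e1, Measure.volume_eq_prod, ← Measure.prod_restrict, Measure.restrict_univ] at this
  ext s hs
  rw [Measure.map_apply Complex.measurableEquivRealProd.measurable hs, muC, muR,
    withDensity_apply _ hs, withDensity_apply _ (Complex.measurableEquivRealProd.measurable hs),
    ← h1.setLIntegral_comp_preimage_emb Complex.measurableEquivRealProd.measurableEmbedding]
  rfl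

lemma mp_pnt : MeasurePreserving (fun p : ℝ × ℝ => pnt p.1 p.2) muR volume := by
  have := mp_ofComplex.comp (mp_realProd.symm Complex.measurableEquivRealProd)
  convert this using 2 with p
  simp only [pnt, Function.comp]
  congr 1
  apply Complex.ext <;> simp

theorem ms : S_Ms := ⟨mp_sl, mp_HH, fun _ t hh => mp_affine t hh, mp_pnt, mp_ofComplex⟩

/-! ### Integrals in coordinates (no measurability needed) -/

lemma mp_reim : MeasurePreserving (fun z : ℍ => (z.re, z.im)) volume muR :=
  mp_realProd.comp mp_coe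

lemma me_reim : MeasurableEmbedding (fun z : ℍ => (z.re, z.im)) :=
  Complex.measurableEquivRealProd.measurableEmbedding.comp measurableEmbedding_coe

lemma integral_H_C (F : ℂ → ℂ) :
    ∫ z : ℍ, F z = ∫ z in {z : ℂ | 0 < z.im}, ((1 / z.im ^ 2 : ℝ) : ℂ) * F z := by
  rw [mp_coe.integral_comp measurableEmbedding_coe F, muC,
    integral_withDensity_eq_integral_toReal_smul (by fun_prop) (by simp)]
  refine integral_congr_ae (Eventually.of_forall fun z => ?_)
  simp only
  rw [ENNReal.toReal_ofReal (by positivity), Complex.real_smul]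

lemma integral_H_R (F : ℍ → ℂ) :
    ∫ z : ℍ, F z = ∫ p : ℝ × ℝ, ((1 / p.2 ^ 2 : ℝ) : ℂ) * F (pnt p.1 p.2)
      ∂(volume.prod (volume.restrict (Set.Ioi 0))) := by
  have := mp_reim.integral_comp me_reim (fun p => F (pnt p.1 p.2))
  simp only [pnt_re_im] at this
  rw [this, muR, integral_withDensity_eq_integral_toReal_smul (by fun_prop) (by simp)]
  refine integral_congr_ae (Eventually.of_forall fun z => ?_)
  simp only
  rw [ENNReal.toReal_ofReal (by positivity), Complex.real_smul]

lemma integrable_H_R (F : ℍ → ℂ) : Integrable F ↔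
    Integrable (fun p : ℝ × ℝ => ((1 / p.2 ^ 2 : ℝ) : ℂ) * F (pnt p.1 p.2))
      (volume.prod (volume.restrict (Set.Ioi 0))) := by
  have := mp_reim.integrable_comp_emb me_reim (g := fun p => F (pnt p.1 p.2))
  simp only [Function.comp_def, pnt_re_im] at this
  rw [this, muR, integrable_withDensity_iff_integrable_smul' (by fun_prop) (by simp)]
  refine integrable_congr (Eventually.of_forall fun z => ?_)
  simp only
  rw [ENNReal.toReal_ofReal (by positivity), Complex.real_smul]

lemma lintegral_H_R (F : ℍ → ℝ≥0∞) (hF : Measurable F) :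
    ∫⁻ z : ℍ, F z = ∫⁻ x : ℝ, ∫⁻ y in Set.Ioi (0 : ℝ), ENNReal.ofReal (1 / y ^ 2) * F (pnt x y) := by
  have hG : Measurable fun p : ℝ × ℝ => F (pnt p.1 p.2) := hF.comp measurable_pnt
  rw [← mp_pnt.lintegral_comp hF, muR,
    lintegral_withDensity_eq_lintegral_mul _ (by fun_prop) hG,
    lintegral_prod _ (Measurable.aemeasurable (Measurable.mul (by fun_prop) hG))]
  rfl

/-- The volume of a box. -/
lemma volume_box {a b c d : ℝ} (hc : 0 < c) (hcd : c ≤ d) :
    volume {z : ℍ | a ≤ z.re ∧ z.re ≤ b ∧ c ≤ z.im ∧ z.im ≤ d} =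
      ENNReal.ofReal (b - a) * ENNReal.ofReal (1 / c - 1 / d) := by
  have h : {z : ℍ | a ≤ z.re ∧ z.re ≤ b ∧ c ≤ z.im ∧ z.im ≤ d} =
      (fun z : ℍ => (z.re, z.im)) ⁻¹' (Set.Icc a b ×ˢ Set.Icc c d) := by
    ext z; simp only [Set.mem_ofPred_eq, Set.mem_preimage, Set.mem_prod, Set.mem_Icc, and_assoc]
  have hm : MeasurableSet (Set.Icc a b ×ˢ Set.Icc c d) := measurableSet_Icc.prod measurableSet_Icc
  rw [h, mp_reim.measure_preimage hm.nullMeasurableSet, muR, withDensity_apply _ hm,
    ← Measure.prod_restrict, Measure.restrict_restrict measurableSet_Icc,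
    lintegral_prod _ (by fun_prop)]
  simp only [lintegral_const, MeasurableSet.univ, Measure.restrict_apply, Set.univ_inter,
    Real.volume_Icc]
  rw [mul_comm]; congr 1
  have hsub : Set.Icc c d ⊆ Set.Ioi 0 := fun y hy => lt_of_lt_of_le hc hy.1
  rw [Set.inter_eq_left.2 hsub]
  have hcont : ContinuousOn (fun y : ℝ => 1 / y ^ 2) (Set.Icc c d) :=
    continuousOn_const.div (by fun_prop) fun y hy => (pow_pos (lt_of_lt_of_le hc hy.1) 2).ne'
  rw [← ofReal_integral_eq_lintegral_ofReal hcont.integrableOn_Icc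
    (Eventually.of_forall fun y => by positivity), integral_Icc_eq_integral_Ioc,
    ← intervalIntegral.integral_of_le hcd]
  congr 1
  rw [intervalIntegral.integral_eq_sub_of_hasDerivAt (f := fun y => -(1 / y))]
  · ring
  · intro y hy
    rw [Set.uIcc_of_le hcd] at hy
    have hy0 : y ≠ 0 := (lt_of_lt_of_le hc hy.1).ne'
    simpa using (hasDerivAt_inv hy0).fun_neg
  · exact (hcont.mono (Set.uIcc_of_le hcd).subset).intervalIntegrable

/-- The shear `(w, z) ↦ (w + re z, z)`. -/
def shear : HH ≃ᵐ HH where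
  toFun z := (z.2.re +ᵥ z.1, z.2)
  invFun z := ((-z.2.re) +ᵥ z.1, z.2)
  left_inv z := by simp
  right_inv z := by simp
  measurable_toFun := by
    refine Measurable.prodMk ?_ measurable_snd
    refine measurableEmbedding_coe.measurable_comp_iff.1 ?_
    simp only [Function.comp_def, UpperHalfPlane.coe_vadd, ← UpperHalfPlane.coe_re]
    fun_prop
  measurable_invFun := by
    refine Measurable.prodMk ?_ measurable_snd
    refine measurableEmbedding_coe.measurable_comp_iff.1 ?_
    simp only [Function.comp_def, UpperHalfPlane.coe_vadd, ← UpperHalfPlane.coe_re]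
    fun_prop

lemma shear_fst (z : HH) : (((shear z).1 : ℍ) : ℂ) = z.1 + z.2.re := by
  change (((z.2.re +ᵥ z.1 : ℍ)) : ℂ) = _
  rw [UpperHalfPlane.coe_vadd, add_comm]

lemma shear_snd (z : HH) : (shear z).2 = z.2 := rfl

lemma mp_vadd (t : ℝ) : MeasurePreserving (fun z : ℍ => t +ᵥ z) volume volume := by
  convert mp_affine t one_pos using 2 with z
  apply UpperHalfPlane.ext
  rw [coe_affine t one_pos, UpperHalfPlane.coe_vadd]; simp [add_comm]

lemma mp_shear : MeasurePreserving shear volume volume := by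
  have hm : Measurable (Function.uncurry fun (a c : ℍ) => a.re +ᵥ c) :=
    (measurable_fst.comp shear.measurable).comp measurable_swap
  have h1 := MeasurePreserving.skew_product (MeasurePreserving.id (volume : Measure ℍ)) hm
    (μc := volume) (μd := volume) (Eventually.of_forall fun a => (mp_vadd a.re).map_eq)
  exact (Measure.measurePreserving_swap.comp h1).comp Measure.measurePreserving_swap

/-- `∫ F(z₁, z₂) = ∫ F(w + re z₂, z₂)`. -/
lemma integral_shear (F : ℂ → ℂ → ℂ) :
    ∫ z : HH, F z.1 z.2 = ∫ z : HH, F (z.1 + z.2.re) z.2 := by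
  rw [← mp_shear.integral_comp' (fun z : HH => F z.1 z.2)]
  simp only [shear_fst, shear_snd]

end MR
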