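import Pool.Agent.P.MP_79de8b_nt.Basic

/-! The mixed correlation: reduction to the bilinear bound. -/

open Complex UpperHalfPlane MeasureTheory Finset CongruenceSubgroup Filter Topology
open scoped Real MatrixGroups ComplexConjugate

noncomputable section
namespace MR
namespace Mx

/-- Spread a sequence over the multiples of `N`. -/
def spr (N : ℕ) (α : ℕ → ℂ) (m : ℕ) : ℂ := if N ∣ m then α (m / N) else 0

lemma sum_spr {M : Type*} [AddCommMonoid M] {N : ℕ} (hN : 0 < N) (A : ℕ) (α : ℕ → ℂ)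
    (F : ℂ → ℕ → M) (hF : ∀ m, F 0 m = 0) :
    ∑ m ∈ Icc 1 (N * A), F (spr N α m) m = ∑ m ∈ Icc 1 A, F (α m) (N * m) := by
  symm
  refine sum_of_injOn (fun m => N * m) (fun a _ b _ h => Nat.eq_of_mul_eq_mul_left hN h)
    (fun m hm => ?_) (fun m hm hn => ?_) fun m _ => ?_
  · obtain ⟨h1, h2⟩ := mem_Icc.1 hm
    exact mem_Icc.2 ⟨Nat.mul_pos hN h1, Nat.mul_le_mul_left _ h2⟩
  · have : ¬ N ∣ m := by
      rintro ⟨k, rfl⟩
      obtain ⟨h1, h2⟩ := mem_Icc.1 hm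
      refine hn ⟨k, ?_, rfl⟩
      simp only [coe_Icc, Set.mem_Icc]
      exact ⟨Nat.pos_of_mul_pos_left h1 , Nat.le_of_mul_le_mul_left h2 hN⟩
    rw [spr, if_neg this, hF]
  · rw [spr, if_pos (dvd_mul_right _ _), Nat.mul_div_cancel_left _ hN]

lemma l2 (hSer : S_Ser) {P : ℕ} {K : ℝ} {b : ℕ → ℂ} {g : ℍ → ℂ} (h : Ser P K b g) (u : ℝ)
    (s : Finset ℕ) : ∑ n ∈ s, ‖cf P b u n‖ ^ 2 ≤ K ^ 2 := by
  obtain ⟨-, -, -, -, -, -, -, h8, -, h10, -⟩ := hSer P K b g h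
  exact (sum_le_hasSum s (fun _ _ => by positivity) (h10 u)).trans
    (h8 _ (Real.exp_pos u)).2.2.1

lemma sum_UU (N q ρ : ℕ) (a b : ℤ) :
    ∑ x ∈ UU N q ρ, ex (((a * x + b * iv x (q * N) : ℤ) : ℝ) / (q * N : ℕ)) =
      kl (cls ρ N) a b (q * N) := by
  unfold UU kl cls
  rw [sum_filter]
  refine sum_congr rfl fun x _ => ?_
  split_ifs <;> simp

/-- Truncation of the two expansions. -/
lemma expand (hSer : S_Ser) (hTr : S_Tr) {N : ℕ} (Φ : Fam N) : ∃ E : ℝ, 0 ≤ E ∧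
    ∀ (σ : SL(2, ℤ)) (ε : Bool) (q ρ A B : ℕ) (u v : ℝ), 3 ≤ q → -(3 * Real.log q) ≤ u →
      -(3 * Real.log q) ≤ v → Real.log q ^ 2 * Real.exp (-u) ≤ A + 1 →
      Real.log q ^ 2 * N * Real.exp (-v) ≤ B + 1 →
      ∃ α β : ℕ → ℂ, ∑ m ∈ Icc 1 (N * A), ‖α m‖ ^ 2 ≤ Φ.K ^ 2 ∧
        ∑ k ∈ Icc 1 B, ‖β k‖ ^ 2 ≤ Φ.K ^ 2 ∧
        ‖Mix Φ σ ε q ρ u v - (∑ m ∈ Icc 1 (N * A), ∑ k ∈ Icc 1 B,
          α m * β k * kl (cls ρ N) (1 * m) (sg ε * k) (q * N)) / (UU N q ρ).card‖ ≤ E / q := by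
  obtain ⟨C₁, hC₁, h₁⟩ := hTr 1 Φ.K
  obtain ⟨C₂, hC₂, h₂⟩ := hTr N Φ.K
  have hK := Φ.one_le
  have hN := Φ.pos
  refine ⟨C₁ * Φ.K + (Φ.K + C₁) * C₂, by positivity, fun σ ε q ρ A B u v hq hu hv hA hB => ?_⟩
  refine ⟨spr N (cf 1 Φ.a u), fun k => cj ε (cf N (Φ.b σ) v k), ?_, ?_, ?_⟩
  · rw [sum_spr hN A _ (fun z _ => ‖z‖ ^ 2) (by simp)]
    exact l2 hSer Φ.sera u _
  · simp only [norm_cj]
    exact l2 hSer (Φ.ser σ) v _
  have hq1 : (1 : ℝ) ≤ q := by exact_mod_cast (by omega : 1 ≤ q)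
  have hN' : (N : ℝ) ≠ 0 := by positivity
  have hq' : (q : ℝ) ≠ 0 := by positivity
  rw [sum_spr hN A _ (fun z m => ∑ k ∈ Icc 1 B,
    z * cj ε (cf N (Φ.b σ) v k) * kl (cls ρ N) (1 * m) (sg ε * k) (q * N)) (by simp)]
  have e : (∑ m ∈ Icc 1 A, ∑ k ∈ Icc 1 B, cf 1 Φ.a u m * cj ε (cf N (Φ.b σ) v k) *
      kl (cls ρ N) (1 * (N * m : ℕ)) (sg ε * k) (q * N)) / (UU N q ρ).card =
      av (UU N q ρ) fun x => (∑ m ∈ Icc 1 A, cf 1 Φ.a u m * ex (m * ((x : ℝ) / q) / (1 : ℕ))) *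
        cj ε (∑ k ∈ Icc 1 B, cf N (Φ.b σ) v k * ex (k * (-(iv x (q * N) : ℝ) / q) / N)) := by
    unfold av
    congr 1
    simp_rw [← sum_UU, mul_sum, cj_sum, sum_mul_sum]
    rw [sum_comm (s := UU N q ρ)]
    refine sum_congr rfl fun m _ => ?_
    rw [sum_comm (s := UU N q ρ)]
    refine sum_congr rfl fun k _ => sum_congr rfl fun x _ => ?_
    rw [cj_mul, cj_ex, mul_mul_mul_comm, ← ex_add]
    congr 2
    push_cast
    field_simp
  rw [e]
  unfold Mix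
  rw [← av_sub]
  refine norm_av_le (by positivity) fun x _ => ?_
  have a1 := h₁ _ _ Φ.sera q A (x / q) u hq hu (by simpa using hA)
  have a2 := h₂ _ _ (Φ.ser σ) q B (-(iv x (q * N) : ℝ) / q) v hq hv hB
  have b1 := ((hSer _ _ _ _ Φ.sera).2.2.2.1 (x / q) u).1
  have b2 := ((hSer _ _ _ _ (Φ.ser σ)).2.2.2.1 (-(iv x (q * N) : ℝ) / q) v).1
  set F₁ := FF (Φ.G 1) (x / q) u
  set F₂ := FF (Φ.G σ) (-(iv x (q * N) : ℝ) / q) v
  set T₁ := ∑ m ∈ Icc 1 A, cf 1 Φ.a u m * ex (m * ((x : ℝ) / q) / (1 : ℕ))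
  set T₂ := ∑ k ∈ Icc 1 B, cf N (Φ.b σ) v k * ex (k * (-(iv x (q * N) : ℝ) / q) / N)
  have hq5 : (q : ℝ) ≤ (q : ℝ) ^ 5 := le_self_pow₀ hq1 (by norm_num)
  have c1 : ‖F₁ - T₁‖ ≤ C₁ / q := a1.trans (by gcongr)
  have c2 : ‖F₂ - T₂‖ ≤ C₂ / q := a2.trans (by gcongr)
  have c3 : ‖T₁‖ ≤ Φ.K + C₁ := by
    have : T₁ = F₁ - (F₁ - T₁) := by ring
    rw [this]
    refine (norm_sub_le _ _).trans (add_le_add b1 (c1.trans (div_le_self hC₁ hq1)))
  have : F₁ * cj ε F₂ - T₁ * cj ε T₂ = (F₁ - T₁) * cj ε F₂ + T₁ * cj ε (F₂ - T₂) := by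
    rw [cj_sub]; ring
  rw [this]
  refine (norm_add_le _ _).trans ?_
  rw [norm_mul, norm_mul, norm_cj, norm_cj]
  calc _ ≤ C₁ / q * Φ.K + (Φ.K + C₁) * (C₂ / q) := by gcongr
    _ = _ := by ring

/-- The bilinear bound with the norms inserted. -/
lemma bil' (hBil : S_Bil) : ∃ C : ℕ, ∀ (r c N ρ A B : ℕ) (e₁ e₂ : ℤ) (α β : ℕ → ℂ) (K : ℝ),
    0 < r → 0 < c → r.Coprime c → N ∣ c → (e₁ = 1 ∨ e₁ = -1) → (e₂ = 1 ∨ e₂ = -1) → 6 * B ≤ c →
    ∑ m ∈ Icc 1 A, ‖α m‖ ^ 2 ≤ K ^ 2 → ∑ k ∈ Icc 1 B, ‖β k‖ ^ 2 ≤ K ^ 2 →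
    ‖∑ m ∈ Icc 1 A, ∑ k ∈ Icc 1 B, α m * β k * kl (cls ρ N) (e₁ * m) (e₂ * k) (r * c)‖ ^ 2 ≤
      C * tau c ^ C * ((r : ℝ) * c) ^ 2 * K ^ 4 *
        (B / c + A / (r * Real.sqrt c) + Real.sqrt (A / c)) := by
  obtain ⟨C, hC⟩ := hBil
  refine ⟨C, fun r c N ρ A B e₁ e₂ α β K hr hc hrc hN h1 h2 hB hα hβ => ?_⟩
  have ht := tau_nonneg c
  rcases Nat.eq_zero_or_pos B with rfl | hB1
  · have : (Icc 1 0 : Finset ℕ) = ∅ := by simp
    simp only [this, sum_empty, sum_const_zero, norm_zero, ne_eq, OfNat.ofNat_ne_zero,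
      not_false_eq_true, zero_pow]
    positivity
  refine (hC r c N ρ A B e₁ e₂ α β hr hc hrc hN h1 h2 hB1 hB).trans ?_
  rw [show K ^ 4 = K ^ 2 * K ^ 2 by ring, ← mul_assoc]
  gcongr

/-- The final bookkeeping. -/
lemma fin {M S : ℂ} {U E W Y t q L : ℝ} (hq : 1 ≤ q) (_hE : 0 ≤ E) (ht : 0 ≤ t) (hU : q ≤ t * U)
    (hY : 0 ≤ Y) (h1 : ‖M - S / U‖ ≤ E / q) (h2 : ‖S‖ ^ 2 ≤ W * q ^ 2 * Y)
    (h3 : 2 * W * t ^ 2 ≤ L) (h4 : 2 * E ^ 2 ≤ L) (hW : 0 ≤ W) : ‖M‖ ^ 2 ≤ L * (Y + 1 / q) := by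
  have hU0 : 0 < U := by
    by_contra h
    have := mul_nonpos_of_nonneg_of_nonpos ht (not_lt.1 h)
    linarith
  have a1 : ‖M‖ ≤ ‖S‖ / U + E / q := by
    have : M = S / U + (M - S / U) := by ring
    calc ‖M‖ = ‖S / U + (M - S / U)‖ := by rw [← this]
      _ ≤ ‖S / U‖ + ‖M - S / U‖ := norm_add_le _ _
      _ ≤ _ := by rw [norm_div, Complex.norm_real, Real.norm_of_nonneg hU0.le]; gcongr
  have a2 : (‖S‖ / U) ^ 2 ≤ W * t ^ 2 * Y := by
    rw [div_pow, div_le_iff₀ (by positivity)]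
    calc _ ≤ W * q ^ 2 * Y := h2
      _ ≤ W * (t * U) ^ 2 * Y := by gcongr
      _ = _ := by ring
  have a3 : (E / q) ^ 2 ≤ E ^ 2 * (1 / q) := by
    rw [div_pow, mul_one_div]
    gcongr
    nlinarith
  have a4 : ‖M‖ ^ 2 ≤ (‖S‖ / U + E / q) ^ 2 := by gcongr
  have a5 : 2 * W * t ^ 2 * Y ≤ L * Y := by gcongr
  have a6 : 2 * E ^ 2 * (1 / q) ≤ L * (1 / q) := by gcongr
  nlinarith [sq_nonneg (‖S‖ / U - E / q)]

end Mx

open Mx in
theorem mx (hA1 : S_A1) (hAv : S_Av) (hKM : S_KM) (hBil : S_Bil) (hSer : S_Ser)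
    (hTr : S_Tr) (hCt : S_Ct) : S_Mx := by
  intro N Φ
  obtain ⟨E, hE, hex⟩ := expand hSer hTr Φ
  obtain ⟨C, hC⟩ := bil' hBil
  have hK := Φ.one_le
  have hN := Φ.pos
  have hN1 : (1 : ℝ) ≤ N := by exact_mod_cast hN
  obtain ⟨j, hj⟩ := exists_le_Lam_pow (2 * C * N ^ (C + 3) * Φ.K ^ 4 + 2 * E ^ 2 + 6 * Φ.K ^ 4)
  refine ⟨j + (C + 2), fun σ ε q ρ u v hq hρ hu hv => ?_⟩
  have hq1 : (1 : ℝ) ≤ q := by exact_mod_cast (by omega : 1 ≤ q)
  have hl := one_le_log hq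
  have ht := one_le_tau (n := q) (by omega)
  have hL := one_le_Lam hq
  have hjq := hj q hq
  set l := Real.log q with hldef
  have hA := Nat.floor_le (a := l ^ 2 * Real.exp (-u)) (by positivity)
  have hB := Nat.floor_le (a := l ^ 2 * N * Real.exp (-v)) (by positivity)
  obtain ⟨α, β, hα, hβ, hM⟩ := hex σ ε q ρ _ _ u v hq hu hv (Nat.lt_floor_add_one _).le
    (Nat.lt_floor_add_one _).le
  set A := ⌊l ^ 2 * Real.exp (-u)⌋₊
  set B := ⌊l ^ 2 * N * Real.exp (-v)⌋₊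
  have hU : (q : ℝ) ≤ tau q * (UU N q ρ).card := by
    refine (hA1.2.2.1 q (by omega)).2.2.trans ?_
    have : (q.totient : ℝ) ≤ (UU N q ρ).card := by
      exact_mod_cast (hAv N q ρ hN (by omega) hρ).2.1
    gcongr
  have hp1 : 0 ≤ 2 * C * (N : ℝ) ^ (C + 3) * Φ.K ^ 4 := by positivity
  have hp2 : 0 ≤ 2 * E ^ 2 := by positivity
  have hp3 : 0 ≤ 6 * Φ.K ^ 4 := by positivity
  have hLC : tau q ^ (C + 2) * l ^ 2 ≤ Lam q ^ (C + 2) := by
    rw [Lam, mul_pow]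
    gcongr
    omega
  have hLC1 : l ^ 2 ≤ Lam q ^ (C + 2) :=
    le_trans (le_mul_of_one_le_left (by positivity) (one_le_pow₀ ht)) hLC
  have h4 : 2 * E ^ 2 ≤ Lam q ^ (j + (C + 2)) :=
    le_trans (by linarith) (Lam_pow_mono hq (Nat.le_add_right j (C + 2)))
  have h3 : 2 * (C * (tau q * N) ^ C * N ^ 2 * Φ.K ^ 4 * (N * l ^ 2)) * tau q ^ 2 ≤
      Lam q ^ (j + (C + 2)) := by
    calc _ = (2 * C * (N : ℝ) ^ (C + 3) * Φ.K ^ 4) * (tau q ^ (C + 2) * l ^ 2) := by ring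
      _ ≤ Lam q ^ j * Lam q ^ (C + 2) := by gcongr; linarith
      _ = _ := (pow_add _ _ _).symm
  have htr : ∀ Y Z : ℝ, 1 ≤ 6 * l ^ 2 * Y → Y ≤ Z →
      ‖Mix Φ σ ε q ρ u v‖ ^ 2 ≤ Lam q ^ (j + (C + 2)) * Z := by
    intro Y Z hY hZ
    have hY0 : 0 ≤ Y := by
      by_contra h
      have := mul_nonpos_of_nonneg_of_nonpos (a := 6 * l ^ 2) (by positivity) (not_le.1 h).le
      linarith
    have := ((hCt N Φ σ ε q ρ).2.2.2.1 u v).2.1
    calc _ ≤ (Φ.K ^ 2) ^ 2 := by gcongr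
      _ = Φ.K ^ 4 * 1 := by ring
      _ ≤ Φ.K ^ 4 * (6 * l ^ 2 * Y) := by gcongr
      _ = 6 * Φ.K ^ 4 * l ^ 2 * Y := by ring
      _ ≤ Lam q ^ j * Lam q ^ (C + 2) * Z := by gcongr; linarith
      _ = _ := by rw [← pow_add]
  have htc : ∀ c : ℕ, c ∣ q * N → tau c ≤ tau q * N := fun c hc =>
    (tau_le_of_dvd (by positivity) hc).trans ((tau_mul_le q N).trans (by
      gcongr; exact tau_le_self N))
  have hsq : ∀ X Y : ℝ, X ≤ l ^ 2 * Y → Real.sqrt X ≤ N * l ^ 2 * Real.sqrt Y := by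
    intro X Y h
    refine (Real.sqrt_le_sqrt h).trans ?_
    rw [Real.sqrt_mul (by positivity), Real.sqrt_sq (by positivity)]
    gcongr
    nlinarith
  have eu := Real.exp_pos (-u)
  have ev := Real.exp_pos (-v)
  refine ⟨fun r hr hrc => ?_, ?_⟩
  · obtain ⟨s, hs⟩ := hr
    have hr0 : 0 < r := Nat.pos_of_ne_zero (by rintro rfl; omega)
    have hs0 : 0 < s := Nat.pos_of_ne_zero (by rintro rfl; omega)
    have hqr : q / r = s := by rw [hs, Nat.mul_div_cancel_left _ hr0]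
    rw [hqr] at hrc
    have hqs : (q : ℝ) = r * s := by exact_mod_cast hs
    have hr1 : (1 : ℝ) ≤ r := by exact_mod_cast hr0
    have hs1 : (1 : ℝ) ≤ s := by exact_mod_cast hs0
    by_cases h6 : 6 * B ≤ s * N
    · have h := hC r (s * N) N ρ (N * A) B 1 (sg ε) α β Φ.K hr0 (by positivity) hrc
        (dvd_mul_left _ _) (Or.inl rfl) (sg_eq ε) h6 hα hβ
      rw [← mul_assoc, ← hs] at h
      refine fin (S := _) (U := (UU N q ρ).card) hq1 hE (by linarith) hU (by positivity)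
        (by exact_mod_cast hM) (h.trans ?_) h3 h4 (by positivity)
      have t1 := htc (s * N) ⟨r, by rw [hs]; ring⟩
      have t0 := tau_nonneg (s * N)
      push_cast
      have b1 : (B : ℝ) / (s * N) ≤ N * l ^ 2 * (r * Real.exp (-v) / q) := by
        calc _ ≤ l ^ 2 * N * Real.exp (-v) / (s * N) := by gcongr
          _ = 1 * l ^ 2 * (r * Real.exp (-v) / q) := by rw [hqs]; field_simp
          _ ≤ _ := by gcongr
      have b2 : (N * A : ℝ) / (r * Real.sqrt (s * N)) ≤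
          N * l ^ 2 * (Real.exp (-u) / Real.sqrt (r * q)) := by
        have : Real.sqrt (r * q) ≤ r * Real.sqrt (s * N) := by
          rw [hqs, ← mul_assoc, Real.sqrt_mul (by positivity), Real.sqrt_mul_self (by positivity)]
          gcongr
          exact le_mul_of_one_le_right (by positivity) hN1
        calc _ ≤ N * (l ^ 2 * Real.exp (-u)) / Real.sqrt (r * q) := by gcongr
          _ = _ := by ring
      have b3 : Real.sqrt ((N * A : ℝ) / (s * N)) ≤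
          N * l ^ 2 * Real.sqrt (r * Real.exp (-u) / q) := by
        refine hsq _ _ ?_
        calc _ ≤ N * (l ^ 2 * Real.exp (-u)) / (s * N) := by gcongr
          _ = _ := by rw [hqs]; field_simp
      calc _ ≤ C * (tau q * N) ^ C * ((r : ℝ) * (s * N)) ^ 2 * Φ.K ^ 4 *
            (N * l ^ 2 * (r * Real.exp (-v) / q) + N * l ^ 2 * (Real.exp (-u) / Real.sqrt (r * q)) +
              N * l ^ 2 * Real.sqrt (r * Real.exp (-u) / q)) := by gcongr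
        _ = _ := by rw [← mul_assoc (r : ℝ), ← hqs]; ring
    · refine htr (r * Real.exp (-v) / q) _ ?_ ?_
      · have : (s * N : ℝ) ≤ 6 * B := by exact_mod_cast (not_le.1 h6).le
        have h7 : (s : ℝ) * N ≤ 6 * l ^ 2 * Real.exp (-v) * N := by linarith
        have h8 := le_of_mul_le_mul_right h7 (by positivity)
        rw [hqs, show 6 * l ^ 2 * (r * Real.exp (-v) / (r * s)) =
          6 * l ^ 2 * Real.exp (-v) / s by field_simp, one_le_div (by positivity)]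
        exact h8
      · have : 0 ≤ Real.exp (-u) / Real.sqrt (r * q) + Real.sqrt (r * Real.exp (-u) / q) + 1 / q := by
          positivity
        linarith
  · by_cases h6 : 6 * (N * A) ≤ q * N
    · have h := hC 1 (q * N) N (iv ρ N) B (N * A) (sg ε) 1 β α Φ.K one_pos (by positivity)
        (Nat.coprime_one_left _) (dvd_mul_left _ _) (sg_eq ε) (Or.inl rfl) h6 hβ hα
      have e : ∑ m ∈ Icc 1 (N * A), ∑ k ∈ Icc 1 B,
          α m * β k * kl (cls ρ N) (1 * m) (sg ε * k) (q * N) = ∑ k ∈ Icc 1 B,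
          ∑ m ∈ Icc 1 (N * A), β k * α m * kl (cls (iv ρ N) N) (sg ε * k) (1 * m) (1 * (q * N)) := by
        rw [sum_comm, one_mul (q * N)]
        refine sum_congr rfl fun k _ => sum_congr rfl fun m _ => ?_
        rw [hKM.2.2.2.1 (q * N) N ρ _ _ (by positivity) (dvd_mul_left _ _) hρ, mul_comm (α m)]
      rw [← e] at h
      refine fin (S := _) (U := (UU N q ρ).card) hq1 hE (by linarith) hU (by positivity)
        (by exact_mod_cast hM) (h.trans ?_) h3 h4 (by positivity)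
      have t1 := htc (q * N) dvd_rfl
      have t0 := tau_nonneg (q * N)
      push_cast
      have b1 : (N * A : ℝ) / (q * N) ≤ N * l ^ 2 * (Real.exp (-u) / q) := by
        calc _ ≤ N * (l ^ 2 * Real.exp (-u)) / (q * N) := by gcongr
          _ = 1 * l ^ 2 * (Real.exp (-u) / q) := by field_simp
          _ ≤ _ := by gcongr
      have b2 : (B : ℝ) / (1 * Real.sqrt (q * N)) ≤
          N * l ^ 2 * (Real.exp (-v) / Real.sqrt q) := by
        have : Real.sqrt q ≤ 1 * Real.sqrt (q * N) := by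
          rw [one_mul]
          gcongr
          exact le_mul_of_one_le_right (by positivity) hN1
        calc _ ≤ l ^ 2 * N * Real.exp (-v) / Real.sqrt q := by gcongr
          _ = _ := by ring
      have b3 : Real.sqrt ((B : ℝ) / (q * N)) ≤ N * l ^ 2 * Real.sqrt (Real.exp (-v) / q) := by
        refine hsq _ _ ?_
        calc _ ≤ l ^ 2 * N * Real.exp (-v) / (q * N) := by gcongr
          _ = _ := by field_simp
      calc _ ≤ C * (tau q * N) ^ C * ((1 : ℝ) * (q * N)) ^ 2 * Φ.K ^ 4 *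
            (N * l ^ 2 * (Real.exp (-u) / q) + N * l ^ 2 * (Real.exp (-v) / Real.sqrt q) +
              N * l ^ 2 * Real.sqrt (Real.exp (-v) / q)) := by gcongr
        _ = _ := by ring
    · refine htr (Real.exp (-u) / q) _ ?_ ?_
      · have : (q * N : ℝ) ≤ 6 * (N * A) := by exact_mod_cast (not_le.1 h6).le
        have h9 : (N : ℝ) * A ≤ N * (l ^ 2 * Real.exp (-u)) := by gcongr
        have h7 : (q : ℝ) * N ≤ 6 * l ^ 2 * Real.exp (-u) * N := by linarith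
        have h8 := le_of_mul_le_mul_right h7 (by positivity)
        rw [← mul_div_assoc, one_le_div (by positivity)]
        exact h8
      · have : 0 ≤ Real.exp (-v) / Real.sqrt q + Real.sqrt (Real.exp (-v) / q) + 1 / q := by
          positivity
        linarith

end MR
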