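import Pool.Agent.P.MP_79de8b_nt.Basic

/-! The one dimensional oscillatory integral behind the archimedean transform. -/

open Complex MeasureTheory
open scoped Real ComplexConjugate

noncomputable section
namespace MR
namespace Osc0

lemma re2 (X ξ y : ℝ) :
    (-(X : ℂ) / (ξ + y * Complex.I)).re = -(X * ξ / (ξ ^ 2 + y ^ 2)) := by
  simp [Complex.div_re, Complex.normSq_apply]; ring

lemma im2 (X ξ y : ℝ) :
    (-(X : ℂ) / (ξ + y * Complex.I)).im = X * y / (ξ ^ 2 + y ^ 2) := by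
  simp [Complex.div_im, Complex.normSq_apply]; ring

lemma im1 (X ξ : ℝ) (w : ℂ) :
    (-(X : ℂ) / (w + ξ)).im = X * w.im / ((w.re + ξ) ^ 2 + w.im ^ 2) := by
  simp [Complex.div_im, Complex.normSq_apply]; ring

/-- The amplitude. -/
def amp (θ : ℂ → ℝ → ℂ) (X : ℝ) (w : ℂ) (y ξ : ℝ) : ℂ :=
  conj (θ (-(X : ℂ) / (w + ξ) - (((-(X : ℂ) / (ξ + y * Complex.I)).re : ℝ) : ℂ))
    (-(X : ℂ) / (ξ + y * Complex.I)).im)

/-- The phase. -/
def psi (X y ξ : ℝ) : ℝ := -ξ - X * ξ / (ξ ^ 2 + y ^ 2)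

lemma integrand (θ : ℂ → ℝ → ℂ) (X : ℝ) (w : ℂ) (y ξ : ℝ) :
    ex (-ξ) * conj (ph θ (-X / (w + ξ)) (-X / (ξ + y * Complex.I)))
      = ex (psi X y ξ) * amp θ X w y ξ := by
  unfold ph amp psi
  rw [map_mul, conj_ex, ← mul_assoc, ← ex_add, neg_neg]
  congr 2
  rw [re2]; ring

variable {A η₁ η₂ X y : ℝ} {θ : ℂ → ℝ → ℂ} {w : ℂ}

lemma window {X a η r : ℝ} (hX : 0 < X) (hη : 0 < η) (h1 : η / 2 ≤ a) (h2 : a ≤ 2 * η)
    (hr : 0 < r) (h3 : η / 2 ≤ X * a / r) (h4 : X * a / r ≤ 2 * η) : X / 4 ≤ r ∧ r ≤ 4 * X := by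
  rw [le_div_iff₀ hr] at h3
  rw [div_le_iff₀ hr] at h4
  constructor
  · have : η * (X / 4) ≤ η * r := by nlinarith [mul_le_mul_of_nonneg_left h1 hX.le]
    exact le_of_mul_le_mul_left this hη
  · have : η * r ≤ η * (4 * X) := by nlinarith [mul_le_mul_of_nonneg_left h2 hX.le]
    exact le_of_mul_le_mul_left this hη

lemma supp (P : Prof A η₁ η₂ θ) (hX : 0 < X) (h : θ w y ≠ 0) {ξ : ℝ}
    (hξ : amp θ X w y ξ ≠ 0) :
    η₁ ^ 2 / 16 ≤ X ∧ X / 4 ≤ ξ ^ 2 + y ^ 2 ∧ ξ ^ 2 + y ^ 2 ≤ 4 * X := by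
  obtain ⟨a1, a2, _, a4, a5⟩ := P.supp w y h
  have h2 := P.pos
  have h1 : 0 < η₁ := lt_of_lt_of_le h2 P.le
  unfold amp at hξ
  rw [map_ne_zero] at hξ
  obtain ⟨b1, b2, _, b4, b5⟩ := P.supp _ _ hξ
  rw [im2] at b4 b5
  rw [Complex.sub_im, Complex.ofReal_im, sub_zero, im1] at b1 b2
  have hy : 0 < y := by linarith
  have hw : 0 < w.im := by linarith
  have c := window hX h1 a1 a2 (by positivity) b1 b2
  refine ⟨?_, window hX h2 a4 a5 (by positivity) b4 b5⟩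
  nlinarith [c.2, sq_nonneg (w.re + ξ)]

lemma cont_theta (P : Prof A η₁ η₂ θ) : Continuous (fun p : ℂ × ℝ => θ p.1 p.2) := by
  refine continuous_iff_continuousAt.2 fun p => ?_
  rw [ContinuousAt, tendsto_iff_norm_sub_tendsto_zero]
  have hc : Continuous (fun q : ℂ × ℝ => A * (‖q.1 - p.1‖ / η₁ + |q.2 - p.2| / η₂)) := by
    fun_prop
  have := hc.tendsto p
  simp only [sub_self, norm_zero, abs_zero, zero_div, add_zero, mul_zero] at this
  exact squeeze_zero (fun _ => norm_nonneg _) (fun q => P.lip _ _ _ _) this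

lemma ne1 (hw : 0 < w.im) (ξ : ℝ) : w + ξ ≠ 0 := fun h => by
  have := congrArg Complex.im h
  simp at this; linarith

lemma ne2 (hy : 0 < y) (ξ : ℝ) : (ξ : ℂ) + y * Complex.I ≠ 0 := fun h => by
  have := congrArg Complex.im h
  simp at this; linarith

lemma cont_amp (P : Prof A η₁ η₂ θ) (hw : 0 < w.im) (hy : 0 < y) :
    Continuous (amp θ X w y) := by
  have c1 : Continuous (fun ξ : ℝ => -(X : ℂ) / (w + ξ)) :=
    continuous_const.div (by fun_prop) (ne1 hw)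
  have c2 : Continuous (fun ξ : ℝ => -(X : ℂ) / (ξ + y * Complex.I)) :=
    continuous_const.div (by fun_prop) (ne2 hy)
  have c3 : Continuous (fun ξ : ℝ => ((-(X : ℂ) / (w + ξ)
      - (((-(X : ℂ) / (ξ + y * Complex.I)).re : ℝ) : ℂ),
        (-(X : ℂ) / (ξ + y * Complex.I)).im) : ℂ × ℝ)) :=
    (c1.sub (Complex.continuous_ofReal.comp (Complex.continuous_re.comp c2))).prodMk
      (Complex.continuous_im.comp c2)
  exact Complex.continuous_conj.comp ((cont_theta P).comp c3)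

lemma cont_psi (hy : 0 < y) : Continuous (psi X y) := by
  unfold psi
  exact continuous_neg.sub (Continuous.div (by fun_prop) (by fun_prop) fun ξ => by positivity)

lemma norm_amp (P : Prof A η₁ η₂ θ) (ξ : ℝ) : ‖amp θ X w y ξ‖ ≤ A := by
  unfold amp; rw [Complex.norm_conj]; exact P.bd _ _

lemma d1 (hy : 0 < y) (ξ : ℝ) :
    HasDerivAt (psi X y) (-1 - X * (y ^ 2 - ξ ^ 2) / (ξ ^ 2 + y ^ 2) ^ 2) ξ := by
  have h0 : ξ ^ 2 + y ^ 2 ≠ 0 := by positivity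
  have h1 : HasDerivAt (fun ξ : ℝ => ξ ^ 2 + y ^ 2) (2 * ξ) ξ := by
    simpa using (hasDerivAt_pow 2 ξ).add_const (y ^ 2)
  have h2 : HasDerivAt (fun ξ : ℝ => X * ξ) X ξ := by
    simpa using (hasDerivAt_id ξ).const_mul X
  have h3 := ((hasDerivAt_id' ξ).fun_neg).fun_sub (h2.fun_div h1 h0)
  refine h3.congr_deriv ?_
  field_simp; ring

lemma d2 (hy : 0 < y) (ξ : ℝ) :
    HasDerivAt (fun ξ : ℝ => -1 - X * (y ^ 2 - ξ ^ 2) / (ξ ^ 2 + y ^ 2) ^ 2)
      (-(2 * X * ξ * (ξ ^ 2 - 3 * y ^ 2) / (ξ ^ 2 + y ^ 2) ^ 3)) ξ := by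
  have h0 : ξ ^ 2 + y ^ 2 ≠ 0 := by positivity
  have h1 : HasDerivAt (fun ξ : ℝ => ξ ^ 2 + y ^ 2) (2 * ξ) ξ := by
    simpa using (hasDerivAt_pow 2 ξ).add_const (y ^ 2)
  have h2 : HasDerivAt (fun ξ : ℝ => X * (y ^ 2 - ξ ^ 2)) (X * -(2 * ξ)) ξ := by
    simpa using ((hasDerivAt_pow 2 ξ).const_sub (y ^ 2)).const_mul X
  have h3 := (h2.fun_div (h1.fun_pow 2) (pow_ne_zero 2 h0)).const_sub (-1)
  refine h3.congr_deriv ?_
  field_simp; ring

lemma curv {s t : ℝ} (hs : 0 < s) (hy : y ^ 2 ≤ s ^ 2 / 20) (hy0 : 0 < y) (h1 : 2 / 5 * s ≤ t)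
    (h2 : t ≤ 2 * s) :
    1 / (10000 * s) ≤ 2 * s ^ 2 * t * (t ^ 2 - 3 * y ^ 2) / (t ^ 2 + y ^ 2) ^ 3 := by
  have ht : 0 < t := by linarith
  have a1 : s ^ 2 / 100 ≤ t ^ 2 - 3 * y ^ 2 := by nlinarith
  have a2 : t ^ 2 + y ^ 2 ≤ 81 / 20 * s ^ 2 := by nlinarith
  have a3 : (t ^ 2 + y ^ 2) ^ 3 ≤ (81 / 20 * s ^ 2) ^ 3 :=
    pow_le_pow_left₀ (by positivity) a2 3
  have a4 : 2 * s ^ 2 * (2 / 5 * s) * (s ^ 2 / 100) ≤ 2 * s ^ 2 * t * (t ^ 2 - 3 * y ^ 2) :=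
    mul_le_mul (mul_le_mul_of_nonneg_left h1 (by positivity)) a1 (by positivity) (by positivity)
  rw [div_le_div_iff₀ (by positivity) (by positivity)]
  have a5 := mul_le_mul_of_nonneg_right a4 (by positivity : (0 : ℝ) ≤ 10000 * s)
  have a6 : 0 ≤ s ^ 6 := by positivity
  nlinarith

lemma low1 {s η ξ : ℝ} (hs : 0 < s) (a1 : η / 2 ≤ w.im) (a3 : |w.re| ≤ 2 * η)
    (h1 : 2 / 5 * s ≤ |ξ|) : s / 40 ≤ ‖w + ξ‖ := by
  rcases le_total (s / 20) η with h | h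
  · have := Complex.im_le_norm (w + ξ)
    simp only [Complex.add_im, Complex.ofReal_im, add_zero] at this
    linarith
  · have h2 := Complex.abs_re_le_norm (w + ξ)
    simp only [Complex.add_re, Complex.ofReal_re] at h2
    have h3 : |ξ| ≤ |w.re + ξ| + |w.re| := by
      have := abs_sub (w.re + ξ) w.re
      rwa [add_sub_cancel_left] at this
    linarith

lemma low2 {s ξ : ℝ} (h1 : 2 / 5 * s ≤ |ξ|) : 2 / 5 * s ≤ ‖(ξ : ℂ) + y * Complex.I‖ := by
  have h2 := Complex.abs_re_le_norm ((ξ : ℂ) + y * Complex.I)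
  simp at h2
  linarith

lemma lip_im {s η a b : ℝ} (hs : 0 < s) (hy0 : 0 < y) (hy : y ≤ 2 * η)
    (a1 : 2 / 5 * s ≤ |a|) (a2 : |a| ≤ 2 * s) (b1 : 2 / 5 * s ≤ |b|) (b2 : |b| ≤ 2 * s) :
    |s ^ 2 * y / (a ^ 2 + y ^ 2) - s ^ 2 * y / (b ^ 2 + y ^ 2)| ≤ 400 * η / s * |a - b| := by
  have ha : 0 < a ^ 2 + y ^ 2 := by positivity
  have hb : 0 < b ^ 2 + y ^ 2 := by positivity
  have e : s ^ 2 * y / (a ^ 2 + y ^ 2) - s ^ 2 * y / (b ^ 2 + y ^ 2)
      = -(s ^ 2 * y * (a + b) / ((a ^ 2 + y ^ 2) * (b ^ 2 + y ^ 2))) * (a - b) := by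
    field_simp; ring
  rw [e, abs_mul, abs_neg, abs_div, abs_mul, abs_of_pos (mul_pos ha hb),
    abs_of_pos (by positivity : 0 < s ^ 2 * y)]
  refine mul_le_mul_of_nonneg_right ?_ (abs_nonneg _)
  have c1 : (2 / 5 * s) ^ 2 ≤ a ^ 2 + y ^ 2 := by
    have := pow_le_pow_left₀ (by positivity) a1 2
    rw [sq_abs] at this; nlinarith
  have c2 : (2 / 5 * s) ^ 2 ≤ b ^ 2 + y ^ 2 := by
    have := pow_le_pow_left₀ (by positivity) b1 2
    rw [sq_abs] at this; nlinarith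
  have c3 : |a + b| ≤ 4 * s := (abs_add_le a b).trans (by linarith)
  have c4 : (2 / 5 * s) ^ 2 * (2 / 5 * s) ^ 2 ≤ (a ^ 2 + y ^ 2) * (b ^ 2 + y ^ 2) :=
    mul_le_mul c1 c2 (by positivity) ha.le
  have hη : 0 < η := by linarith
  calc s ^ 2 * y * |a + b| / ((a ^ 2 + y ^ 2) * (b ^ 2 + y ^ 2))
      ≤ s ^ 2 * (2 * η) * (4 * s) / ((2 / 5 * s) ^ 2 * (2 / 5 * s) ^ 2) := by
        gcongr
    _ = 625 / 2 * η / s := by field_simp; ring
    _ ≤ 400 * η / s := by gcongr; norm_num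

lemma lip_inv {s : ℝ} {p q p' q' d : ℂ} (hs : 0 < s) (hp : s / 40 ≤ ‖p‖) (hp' : s / 40 ≤ ‖p'‖)
    (hq : 2 / 5 * s ≤ ‖q‖) (hq' : 2 / 5 * s ≤ ‖q'‖) (e1 : p = p' + d) (e2 : q = q' + d) :
    ‖1 / (p * q) - 1 / (p' * q')‖ ≤ 4250 / s ^ 3 * ‖d‖ := by
  have n1 : p ≠ 0 := norm_pos_iff.1 (by linarith)
  have n2 : p' ≠ 0 := norm_pos_iff.1 (by linarith)
  have n3 : q ≠ 0 := norm_pos_iff.1 (by linarith)
  have n4 : q' ≠ 0 := norm_pos_iff.1 (by linarith)
  have e : 1 / (p * q) - 1 / (p' * q') = -(1 / (p * q * p') + 1 / (p' * q * q')) * d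
      + (0 : ℂ) := by
    have : p' * q' - p * q = -(q' + p) * d := by rw [e1, e2]; ring
    field_simp
    linear_combination this
  rw [e, add_zero, norm_mul, norm_neg]
  refine mul_le_mul_of_nonneg_right ((norm_add_le _ _).trans ?_) (norm_nonneg _)
  simp only [norm_div, norm_mul, norm_one]
  calc 1 / (‖p‖ * ‖q‖ * ‖p'‖) + 1 / (‖p'‖ * ‖q‖ * ‖q'‖)
      ≤ 1 / (s / 40 * (2 / 5 * s) * (s / 40)) + 1 / (s / 40 * (2 / 5 * s) * (2 / 5 * s)) := by
        gcongr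
    _ = 4250 / s ^ 3 := by field_simp; ring

lemma lip_amp (P : Prof A η₁ η₂ θ) (h : θ w y ≠ 0) {s a b : ℝ} (hs : 0 < s)
    (a1 : 2 / 5 * s ≤ |a|) (a2 : |a| ≤ 2 * s) (b1 : 2 / 5 * s ≤ |b|) (b2 : |b| ≤ 2 * s) :
    ‖amp θ (s ^ 2) w y a - amp θ (s ^ 2) w y b‖ ≤ 27000 * A / s * |a - b| := by
  obtain ⟨c1, c2, c3, c4, c5⟩ := P.supp w y h
  have h2 := P.pos
  have h12 := P.le
  have h1 : 0 < η₁ := lt_of_lt_of_le h2 h12
  have hy : 0 < y := by linarith
  have hw : 0 < w.im := by linarith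
  have hI := lip_im hs hy c5 a1 a2 b1 b2
  have hV := lip_inv (d := ((a - b : ℝ) : ℂ)) hs (low1 hs c1 c3 a1) (low1 hs c1 c3 b1)
    (low2 (y := y) a1) (low2 (y := y) b1) (by push_cast; ring) (by push_cast; ring)
  rw [Complex.norm_real, Real.norm_eq_abs] at hV
  have split : ∀ ξ : ℝ, -((s ^ 2 : ℝ) : ℂ) / (w + ξ)
      - (((-((s ^ 2 : ℝ) : ℂ) / (ξ + y * Complex.I)).re : ℝ) : ℂ)
      = ((s ^ 2 : ℝ) : ℂ) * (w - y * Complex.I) * (1 / ((w + ξ) * (ξ + y * Complex.I)))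
        + ((s ^ 2 * y / (ξ ^ 2 + y ^ 2) : ℝ) : ℂ) * Complex.I := by
    intro ξ
    have e := Complex.re_add_im (-((s ^ 2 : ℝ) : ℂ) / (ξ + y * Complex.I))
    rw [im2] at e
    have e2 : -((s ^ 2 : ℝ) : ℂ) / (w + ξ) - -((s ^ 2 : ℝ) : ℂ) / (ξ + y * Complex.I)
        = ((s ^ 2 : ℝ) : ℂ) * (w - y * Complex.I) * (1 / ((w + ξ) * (ξ + y * Complex.I))) := by
      have := ne1 hw ξ
      have := ne2 hy ξ
      field_simp; ring
    linear_combination e2 - e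
  have hw6 : ‖w - y * Complex.I‖ ≤ 6 * η₁ := by
    have t1 := Complex.norm_le_abs_re_add_abs_im w
    rw [abs_of_pos hw] at t1
    have t2 := norm_sub_le w (y * Complex.I)
    rw [norm_mul, Complex.norm_I, Complex.norm_real, Real.norm_eq_abs, abs_of_pos hy] at t2
    linarith
  unfold amp
  rw [← map_sub, Complex.norm_conj]
  refine (P.lip _ _ _ _).trans ?_
  rw [split a, split b, im2, im2]
  have key : ‖((s ^ 2 : ℝ) : ℂ) * (w - y * Complex.I) * (1 / ((w + a) * (a + y * Complex.I)))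
        + ((s ^ 2 * y / (a ^ 2 + y ^ 2) : ℝ) : ℂ) * Complex.I
      - (((s ^ 2 : ℝ) : ℂ) * (w - y * Complex.I) * (1 / ((w + b) * (b + y * Complex.I)))
        + ((s ^ 2 * y / (b ^ 2 + y ^ 2) : ℝ) : ℂ) * Complex.I)‖
      ≤ s ^ 2 * (6 * η₁) * (4250 / s ^ 3 * |a - b|) + 400 * η₂ / s * |a - b| := by
    rw [add_sub_add_comm, ← mul_sub, ← sub_mul, ← Complex.ofReal_sub]
    refine (norm_add_le _ _).trans (add_le_add ?_ ?_)
    · rw [norm_mul, norm_mul, Complex.norm_real, Real.norm_eq_abs, abs_of_pos (by positivity)]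
      gcongr
    · rw [norm_mul, Complex.norm_I, mul_one, Complex.norm_real, Real.norm_eq_abs]; exact hI
  have hA := P.nn
  have hd := abs_nonneg (a - b)
  calc _ ≤ A * ((s ^ 2 * (6 * η₁) * (4250 / s ^ 3 * |a - b|) + 400 * η₁ / s * |a - b|) / η₁
          + 400 * η₂ / s * |a - b| / η₂) := by
        gcongr
        refine key.trans ?_
        gcongr
    _ = 26300 * A / s * |a - b| := by field_simp; ring
    _ ≤ 27000 * A / s * |a - b| := by gcongr; norm_num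

lemma piece (hV : S_VdC) (P : Prof A η₁ η₂ θ) (h : θ w y ≠ 0) {s α β : ℝ} (hs : 0 < s)
    (hy : y ^ 2 ≤ s ^ 2 / 20) (hαβ : β = α + 8 / 5 * s)
    (hI : α = 2 / 5 * s ∨ α = -(2 * s)) :
    ‖∫ ξ in α..β, ex (psi (s ^ 2) y ξ) * amp θ (s ^ 2) w y ξ‖ ≤ 40000000 * A * √s := by
  obtain ⟨_, _, _, c4, _⟩ := P.supp w y h
  have h2 := P.pos
  have hA := P.nn
  have hy0 : 0 < y := by linarith
  have hab : ∀ x ∈ Set.Icc α β, 2 / 5 * s ≤ |x| ∧ |x| ≤ 2 * s := by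
    intro x hx
    obtain ⟨x1, x2⟩ := hx
    rcases hI with h | h
    · rw [abs_of_nonneg (by linarith)]; constructor <;> linarith
    · rw [abs_of_nonpos (by linarith)]; constructor <;> linarith
  have := hV α β (1 / (10000 * s)) A (27000 * A / s) (psi (s ^ 2) y) _ _ (amp θ (s ^ 2) w y)
    (by linarith) (by positivity) (fun x _ => d1 hy0 x) (fun x _ => d2 hy0 x)
    (Continuous.continuousOn (Continuous.neg (Continuous.div (by fun_prop) (by fun_prop)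
      fun ξ => by positivity))) ?_ (fun x _ => norm_amp P x)
    (fun a ha b hb => lip_amp P h hs (hab a ha).1 (hab a ha).2 (hab b hb).1 (hab b hb).2)
    (by positivity)
  · refine this.trans ?_
    have e1 : √(1 / (10000 * s)) = 1 / (100 * √s) := by
      rw [Real.sqrt_div zero_le_one, Real.sqrt_one, Real.sqrt_mul (by norm_num),
        show (10000 : ℝ) = 100 ^ 2 by norm_num, Real.sqrt_sq (by norm_num)]
    have hq : 0 < √s := Real.sqrt_pos.2 hs
    rw [e1, hαβ]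
    calc 8 / (1 / (100 * √s)) * (A + 27000 * A / s * (α + 8 / 5 * s - α))
        = 34560800 * A * √s := by field_simp; ring
      _ ≤ 40000000 * A * √s := by gcongr; norm_num
  · rcases hI with h | h
    · right
      intro x hx
      have := curv hs hy hy0 (t := x) (by linarith [hx.1]) (by linarith [hx.2])
      linarith
    · left
      intro x hx
      have := curv hs hy hy0 (t := -x) (by linarith [hx.2]) (by linarith [hx.1])
      refine this.trans (le_of_eq ?_)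
      rw [neg_sq]; ring

end Osc0

open Osc0 in
theorem osc0 (h : S_VdC) : S_Osc0 := by
  refine ⟨80000000, by norm_num, fun A η₁ η₂ θ P X w y hX hθ => ?_⟩
  obtain ⟨c1, _, _, c4, c5⟩ := P.supp w y hθ
  have h2 := P.pos
  have h1 : 0 < η₁ := lt_of_lt_of_le h2 P.le
  have hA := P.nn
  have hy : 0 < y := by linarith
  have hw : 0 < w.im := by linarith
  obtain ⟨s, hs, rfl⟩ : ∃ s : ℝ, 0 < s ∧ X = s ^ 2 :=
    ⟨√X, Real.sqrt_pos.2 hX, (Real.sq_sqrt hX.le).symm⟩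
  simp_rw [integrand]
  have hc : Continuous (fun ξ => ex (psi (s ^ 2) y ξ) * amp θ (s ^ 2) w y ξ) :=
    (continuous_ex.comp (cont_psi hy)).mul (cont_amp P hw hy)
  have hsup : Function.support (fun ξ => ex (psi (s ^ 2) y ξ) * amp θ (s ^ 2) w y ξ)
      ⊆ Set.Ioc (-(2 * s)) (2 * s) := by
    intro ξ hξ
    have := (supp P hX hθ (right_ne_zero_of_mul hξ)).2.2
    have hy2 : 0 < y ^ 2 := by positivity
    have : |ξ| < 2 * s := abs_lt_of_sq_lt_sq (by nlinarith) (by positivity)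
    exact ⟨(abs_lt.1 this).1, (abs_lt.1 this).2.le⟩
  have hq : (s ^ 2) ^ (1 / 4 : ℝ) = √s := by
    rw [← Real.rpow_natCast, ← Real.rpow_mul hs.le, Real.sqrt_eq_rpow]; norm_num
  have hq0 : 0 < √s := Real.sqrt_pos.2 hs
  have hη : 1 ≤ √(1 + η₂) := Real.one_le_sqrt.2 (by linarith)
  refine ⟨fun hlt ξ => ?_, ?_, ?_⟩
  · have : amp θ (s ^ 2) w y ξ = 0 := by
      by_contra hne
      exact absurd (supp P hX hθ hne).1 (not_le.2 hlt)
    unfold amp at this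
    unfold ph
    rw [(map_eq_zero _).1 this, mul_zero]
  · exact hc.integrable_of_hasCompactSupport
      (HasCompactSupport.of_support_subset_isCompact isCompact_Icc
        (hsup.trans Set.Ioc_subset_Icc_self))
  rw [← intervalIntegral.integral_eq_integral_of_support_subset hsup, hq]
  rcases le_total (y ^ 2) (s ^ 2 / 20) with hy2 | hy2
  · have i1 := fun a b => hc.intervalIntegrable (μ := volume) a b
    rw [← intervalIntegral.integral_add_adjacent_intervals (i1 _ (-(2 * s) + 8 / 5 * s)) (i1 _ _),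
      ← intervalIntegral.integral_add_adjacent_intervals (i1 (-(2 * s) + 8 / 5 * s) (2 / 5 * s))
        (i1 _ _)]
    have z : ∫ ξ in (-(2 * s) + 8 / 5 * s)..(2 / 5 * s),
        ex (psi (s ^ 2) y ξ) * amp θ (s ^ 2) w y ξ = 0 := by
      rw [intervalIntegral.integral_congr (g := fun _ => 0), intervalIntegral.integral_zero]
      intro ξ hξ
      rw [Set.uIcc_of_le (by linarith)] at hξ
      by_contra hne
      have := (supp P hX hθ (right_ne_zero_of_mul hne)).2.1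
      have : ξ ^ 2 ≤ (2 / 5 * s) ^ 2 := sq_le_sq' (by linarith [hξ.1]) hξ.2
      nlinarith
    rw [z, zero_add]
    have p1 := piece h P hθ hs hy2 rfl (Or.inr rfl)
    have p2 := piece h P hθ hs hy2 (β := 2 * s) (by ring) (Or.inl rfl)
    calc _ ≤ 40000000 * A * √s + 40000000 * A * √s := (norm_add_le _ _).trans (add_le_add p1 p2)
      _ = 80000000 * A * √s * 1 := by ring
      _ ≤ _ := by gcongr
  · have b := intervalIntegral.norm_integral_le_of_norm_le_const (a := -(2 * s)) (b := 2 * s)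
      (C := A) (f := fun ξ => ex (psi (s ^ 2) y ξ) * amp θ (s ^ 2) w y ξ)
      (fun ξ _ => by rw [norm_mul, norm_ex, one_mul]; exact norm_amp P ξ)
    refine b.trans ?_
    rw [abs_of_pos (by linarith)]
    have hs9 : s ≤ 9 * η₂ := by
      refine abs_le_of_sq_le_sq' ?_ (by positivity) |>.2
      nlinarith
    have h3 : √s ≤ 3 * √(1 + η₂) := by
      rw [show (3 : ℝ) = √9 by rw [show (9 : ℝ) = 3 ^ 2 by norm_num, Real.sqrt_sq (by norm_num)],
        ← Real.sqrt_mul (by norm_num)]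
      exact Real.sqrt_le_sqrt (by linarith)
    calc A * (2 * s - -(2 * s)) = 4 * A * √s * √s := by
          rw [mul_assoc (4 * A), Real.mul_self_sqrt hs.le]; ring
      _ ≤ 4 * A * √s * (3 * √(1 + η₂)) := by gcongr
      _ = 12 * A * √s * √(1 + η₂) := by ring
      _ ≤ _ := by gcongr; norm_num

end MR
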