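import Pool.Agent.P.MP_79de8b_nt.Basic

/-! The overlap bound for the set `SY Y` (MP_79de8b_nt). -/

open Complex UpperHalfPlane MeasureTheory Finset CongruenceSubgroup Filter Topology
open scoped Real MatrixGroups ComplexConjugate

noncomputable section
namespace MR

namespace Ov

/-- Two matrices with the same bottom row differ by a translation. -/
lemma eq_T_mul {h h' : SL(2, ℤ)} (hc : h' 1 0 = h 1 0) (hd : h' 1 1 = h 1 1) :
    ∃ k : ℤ, h' = ModularGroup.T ^ k * h := by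
  have e1 := det_sl h
  have e2 := det_sl h'
  rw [hc, hd] at e2
  refine ⟨h 0 0 * h' 0 1 - h' 0 0 * h 0 1, ?_⟩
  ext i j
  fin_cases i <;> fin_cases j <;>
    simp [ModularGroup.coe_T_zpow, Matrix.mul_apply, Fin.sum_univ_two, hc, hd]
  · linear_combination (h 0 0) * e2 - (h' 0 0) * e1
  · linear_combination (h 0 1) * e2 - (h' 0 1) * e1

lemma inj {z : ℍ} {g g' γ : SL(2, ℤ)} (h0 : 0 ≤ (g • z).re) (h1 : (g • z).re < 1)
    (h0' : 0 ≤ (g' • z).re) (h1' : (g' • z).re < 1)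
    (hc : (g' * γ) 1 0 = (g * γ) 1 0) (hd : (g' * γ) 1 1 = (g * γ) 1 1) : g' = g := by
  obtain ⟨k, hk⟩ := eq_T_mul hc hd
  rw [← mul_assoc, mul_left_inj] at hk
  have hr : (g' • z).re = (g • z).re + k := by
    rw [hk, mul_smul, ModularGroup.re_T_zpow_smul]
  have hk0 : k = 0 := by
    have h2 : (k : ℝ) < 1 := by linarith
    have h3 : (-1 : ℝ) < k := by linarith
    have h4 : k < 1 := by exact_mod_cast h2
    have h5 : -1 < k := by exact_mod_cast h3
    omega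
  rw [hk, hk0, zpow_zero, one_mul]

/-- The size of the bottom row. -/
lemma row {w : ℍ} {h : SL(2, ℤ)} {Y R : ℝ} (hY : 0 < Y) (hR : 0 ≤ R) (hR2 : R ^ 2 = w.im / Y)
    (hh : Y ≤ (h • w).im) :
    |(h 1 0 : ℝ)| ≤ R / w.im ∧ |(h 1 0 : ℝ) * w.re + h 1 1| ≤ R := by
  have hy := w.im_pos
  set ζ : ℂ := (h 1 0 : ℤ) * (w : ℂ) + (h 1 1 : ℤ) with hζ
  have hn : 0 < ‖ζ‖ := norm_pos_iff.2 (den_ne_zero h w)
  have h1 : ‖ζ‖ ≤ R := by
    rw [im_smul_sl, le_div_iff₀ (by positivity)] at hh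
    refine le_of_pow_le_pow_left₀ two_ne_zero hR ?_
    rw [hR2, le_div_iff₀ hY]; linarith
  constructor
  · have h2 := (Complex.abs_im_le_norm ζ).trans h1
    have h3 : ζ.im = (h 1 0 : ℝ) * w.im := by simp [hζ]
    rw [h3, abs_mul, abs_of_pos hy] at h2
    rwa [le_div_iff₀ hy]
  · have h2 := (Complex.abs_re_le_norm ζ).trans h1
    have h3 : ζ.re = (h 1 0 : ℝ) * w.re + h 1 1 := by simp [hζ]
    rwa [h3] at h2

end Ov

theorem ov : S_Ov := by
  classical
  refine ⟨8, by norm_num, fun Y z s hY hs => ?_⟩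
  obtain ⟨γ, hγ⟩ := ModularGroup.exists_one_half_le_im_smul z.1
  set w : ℍ := γ • z.1 with hw
  have hy := w.im_pos
  set R : ℝ := Real.sqrt (w.im / Y) with hRdef
  have hR : 0 ≤ R := Real.sqrt_nonneg _
  have hR2 : R ^ 2 = w.im / Y := Real.sq_sqrt (by positivity)
  set M : ℕ := ⌊R / w.im⌋₊ with hM
  set K : ℕ := ⌊R⌋₊ with hK
  set F : SL(2, ℤ) → ℤ × ℤ := fun g =>
    ((g * γ⁻¹) 1 0, (g * γ⁻¹) 1 1 + ⌊(((g * γ⁻¹) 1 0 : ℤ) : ℝ) * w.re⌋) with hF
  set T : Finset (ℤ × ℤ) := {((0 : ℤ), (1 : ℤ)), (0, -1)} ∪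
    ((Icc (-(M : ℤ)) M).erase 0) ×ˢ Icc (-(K : ℤ) - 1) K with hT
  have hmaps : Set.MapsTo F s T := by
    intro g hg
    have hg1 : Y ≤ ((g * γ⁻¹) • w).im := by
      rw [hw, smul_smul, inv_mul_cancel_right]; exact (hs g hg).1
    obtain ⟨h1, h2⟩ := Ov.row hY hR hR2 hg1
    have hdet := det_sl (g * γ⁻¹)
    simp only [hF, hT, coe_union, Set.mem_union, coe_insert, coe_singleton, Set.mem_insert_iff,
      Set.mem_singleton_iff, Prod.mk.injEq, mem_coe, mem_product, mem_erase, mem_Icc]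
    generalize (g * γ⁻¹) 1 0 = c at h1 h2 hdet
    generalize (g * γ⁻¹) 1 1 = d at h2 hdet
    by_cases hc : c = 0
    · left
      subst hc
      have hd : d = 1 ∨ d = -1 :=
        Int.eq_one_or_neg_one_of_mul_eq_one (u := d) (v := (g * γ⁻¹) 0 0) (by linarith)
      rcases hd with hd | hd <;> simp [hd]
    · right
      have hM1 : R / w.im < M + 1 := Nat.lt_floor_add_one _
      have hK1 : R < K + 1 := Nat.lt_floor_add_one _
      obtain ⟨h3, h4⟩ := abs_le.1 h1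
      obtain ⟨h5, h6⟩ := abs_le.1 h2
      have h7 := Int.floor_le ((c : ℝ) * w.re)
      have h8 := Int.lt_floor_add_one ((c : ℝ) * w.re)
      have a1 : (c : ℝ) < ((M : ℤ) + 1 : ℤ) := by push_cast; linarith
      have a2 : ((-(M : ℤ) - 1 : ℤ) : ℝ) < c := by push_cast; linarith
      have a3 : ((d + ⌊(c : ℝ) * w.re⌋ : ℤ) : ℝ) < ((K : ℤ) + 1 : ℤ) := by push_cast; linarith
      have a4 : ((-(K : ℤ) - 2 : ℤ) : ℝ) < (d + ⌊(c : ℝ) * w.re⌋ : ℤ) := by push_cast; linarith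
      have b1 := Int.cast_lt.1 a1
      have b2 := Int.cast_lt.1 a2
      have b3 := Int.cast_lt.1 a3
      have b4 := Int.cast_lt.1 a4
      refine ⟨⟨hc, ?_, ?_⟩, ?_, ?_⟩ <;> omega
  have hinj : Set.InjOn F s := by
    intro g hg g' hg' he
    simp only [hF, Prod.mk.injEq] at he
    obtain ⟨e1, e2⟩ := he
    rw [e1, add_left_inj] at e2
    exact Ov.inj (hs g' hg').2.1 (hs g' hg').2.2 (hs g hg).2.1 (hs g hg).2.2 e1 e2
  have hcard : s.card ≤ 2 + 2 * M * (2 * K + 2) := by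
    refine (card_le_card_of_injOn F hmaps hinj).trans ((card_union_le _ _).trans ?_)
    refine add_le_add card_le_two (le_of_eq ?_)
    rw [card_product, card_erase_of_mem (by simp), Int.card_Icc, Int.card_Icc]
    congr 1 <;> omega
  have hM0 : (M : ℝ) ≤ R / w.im := Nat.floor_le (by positivity)
  have hK0 : (K : ℝ) ≤ R := Nat.floor_le hR
  have e1 : R / w.im * R = 1 / Y := by
    rw [div_mul_eq_mul_div, ← sq, hR2]; field_simp
  have e2 : (R / w.im) ^ 2 ≤ 2 * (1 / Y) := by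
    rw [div_pow, hR2, div_le_iff₀ (by positivity), div_eq_mul_one_div]
    have : 0 < 1 / Y := by positivity
    nlinarith [mul_pos this hy]
  calc (s.card : ℝ) ≤ ((2 + 2 * M * (2 * K + 2) : ℕ) : ℝ) := by exact_mod_cast hcard
    _ = 2 + 2 * M * (2 * K + 2) := by push_cast; ring
    _ ≤ 2 + 2 * (R / w.im) * (2 * R + 2) := by gcongr
    _ ≤ 8 * (1 + 1 / Y) := by nlinarith [sq_nonneg (R / w.im - 1)]

end MR
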