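import Pool.Agent.P.MP_79de8b_nt.Basic

/-! Poincaré series as a positive form: Schur bound, unfolding, Cauchy-Schwarz. -/

open Complex MeasureTheory Finset Filter Topology
open scoped Real ComplexConjugate ENNReal

noncomputable section
namespace MR
namespace P1

lemma two_mul_le (a b : ℝ≥0∞) : 2 * (a * b) ≤ a ^ 2 + b ^ 2 := by
  rcases eq_or_ne a ∞ with rfl | ha
  · simp
  rcases eq_or_ne b ∞ with rfl | hb
  · simp
  lift a to NNReal using ha
  lift b to NNReal using hb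
  have h : 2 * (a * b) ≤ a ^ 2 + b ^ 2 := by
    rw [← mul_assoc]; exact two_mul_le_add_sq a b
  exact_mod_cast h

/-- weighted Cauchy-Schwarz -/
lemma cs {Z : Type} [MeasurableSpace Z] {μ : Measure Z} {r a b : Z → ℝ} (hr : ∀ z, 0 ≤ r z)
    (mr : Measurable r) (ma : Measurable a) (mb : Measurable b)
    (i2 : Integrable (fun z => r z * a z ^ 2) μ) (i3 : Integrable (fun z => r z * b z ^ 2) μ) :
    (∫ z, r z * (a z * b z) ∂μ) ^ 2 ≤ (∫ z, r z * a z ^ 2 ∂μ) * ∫ z, r z * b z ^ 2 ∂μ := by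
  have i1 : Integrable (fun z => r z * (a z * b z)) μ := by
    refine (i2.add i3).mono' (mr.mul (ma.mul mb)).aestronglyMeasurable
      (Eventually.of_forall fun z => ?_)
    rw [Real.norm_eq_abs, abs_mul, abs_of_nonneg (hr z), Pi.add_apply, ← mul_add]
    refine mul_le_mul_of_nonneg_left (abs_le.2 ⟨?_, ?_⟩) (hr z)
    · nlinarith [sq_nonneg (a z + b z), sq_nonneg (a z), sq_nonneg (b z)]
    · nlinarith [sq_nonneg (a z - b z), sq_nonneg (a z), sq_nonneg (b z)]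
  have key : ∀ s : ℝ, 0 ≤ (∫ z, r z * a z ^ 2 ∂μ) * (s * s) +
      (-2 * ∫ z, r z * (a z * b z) ∂μ) * s + ∫ z, r z * b z ^ 2 ∂μ := by
    intro s
    have h0 : 0 ≤ ∫ z, r z * (s * a z - b z) ^ 2 ∂μ :=
      integral_nonneg fun z => mul_nonneg (hr z) (sq_nonneg _)
    have h1 : ∫ z, r z * (s * a z - b z) ^ 2 ∂μ = ∫ z, ((s * s) * (r z * a z ^ 2) +
        (-2 * s) * (r z * (a z * b z))) + r z * b z ^ 2 ∂μ :=
      integral_congr_ae (Eventually.of_forall fun z => by simp only; ring)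
    have i4 : Integrable (fun z => (s * s) * (r z * a z ^ 2) +
        (-2 * s) * (r z * (a z * b z))) μ := (i2.const_mul _).add (i1.const_mul _)
    rw [h1, integral_add i4 i3,
      integral_add (i2.const_mul _) (i1.const_mul _), integral_const_mul, integral_const_mul] at h0
    linarith
  have h := discrim_le_zero key
  unfold discrim at h
  nlinarith

variable {G Z : Type} [Group G] [MulAction G Z]

/-- indicator of `S` -/
def ind (S : Set Z) (z : Z) : ℝ≥0∞ := S.indicator 1 z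

/-- number of translates in `S` -/
def cnt (H : Subgroup G) (S : Set Z) (z : Z) : ℝ≥0∞ := ∑' h : H, ind S ((h : G) • z)

/-- the unfolding weight -/
def wg (H : Subgroup G) (S : Set Z) (z : Z) : ℝ≥0∞ := ind S z * (cnt H S z)⁻¹

/-- the Poincaré series -/
def PP (H : Subgroup G) (w : G → ℂ) (φ : Z → ℂ) (z : Z) : ℂ :=
  ∑' h : H, conj (w h) * φ ((h : G) • z)

/-- its majorant -/
def QQ (H : Subgroup G) (φ : Z → ℂ) (z : Z) : ℝ≥0∞ := ∑' h : H, ‖φ ((h : G) • z)‖ₑ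

variable {H : Subgroup G} {S : Set Z} {O : ℝ} {w : G → ℂ}

lemma ind_mem {z : Z} (h : z ∈ S) : ind S z = 1 := Set.indicator_of_mem h _

lemma ind_not {z : Z} (h : z ∉ S) : ind S z = 0 := Set.indicator_of_notMem h _

lemma ind_le (z : Z) : ind S z ≤ 1 := by
  by_cases h : z ∈ S
  · rw [ind_mem h]
  · rw [ind_not h]; exact zero_le

lemma count_le (hO : ∀ (z : Z) (s : Finset G), (∀ g ∈ s, g • z ∈ S) → (s.card : ℝ) ≤ O) (z : Z) :
    ∑' g : G, ind S (g • z) ≤ ENNReal.ofReal O := by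
  classical
  rw [ENNReal.tsum_eq_iSup_sum]
  refine iSup_le fun s => ?_
  have h1 : ∑ g ∈ s, ind S (g • z) = ((s.filter fun g => g • z ∈ S).card : ℝ≥0∞) := by
    rw [card_filter]
    push_cast
    refine sum_congr rfl fun g _ => ?_
    split_ifs with h
    · exact ind_mem h
    · exact ind_not h
  rw [h1, ← ENNReal.ofReal_natCast]
  exact ENNReal.ofReal_le_ofReal (hO z _ fun g hg => (mem_filter.1 hg).2)

lemma cnt_ne_top (hO : ∀ (z : Z) (s : Finset G), (∀ g ∈ s, g • z ∈ S) → (s.card : ℝ) ≤ O)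
    (z : Z) : cnt H S z ≠ ∞ :=
  ne_top_of_le_ne_top ENNReal.ofReal_ne_top
    ((ENNReal.tsum_comp_le_tsum_of_injective Subtype.val_injective
      (fun g : G => ind S (g • z))).trans (count_le hO z))

lemma tsum_shift {E : Type} [AddCommMonoid E] [TopologicalSpace E] (f : Z → E) (k : H) (z : Z) :
    ∑' h : H, f ((h : G) • (k : G) • z) = ∑' h : H, f ((h : G) • z) := by
  rw [← (Equiv.mulRight k).tsum_eq fun h : H => f ((h : G) • z)]
  simp only [Equiv.coe_mulRight, Subgroup.coe_mul, mul_smul]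

lemma cnt_smul (k : H) (z : Z) : cnt H S ((k : G) • z) = cnt H S z := tsum_shift (ind S) k z

lemma QQ_smul (φ : Z → ℂ) (k : H) (z : Z) : QQ H φ ((k : G) • z) = QQ H φ z :=
  tsum_shift (fun z => ‖φ z‖ₑ) k z

lemma one_le_cnt {z : Z} (h : z ∈ S) : 1 ≤ cnt H S z := by
  have h1 := ENNReal.le_tsum (f := fun h : H => ind S ((h : G) • z)) 1
  simp only [OneMemClass.coe_one, one_smul] at h1
  rwa [ind_mem h] at h1

lemma tsum_wg (z : Z) : ∑' h : H, wg H S ((h : G) • z) = cnt H S z * (cnt H S z)⁻¹ := by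
  simp only [wg, cnt_smul]
  rw [ENNReal.tsum_mul_right]
  rfl

lemma tsum_wg_le (z : Z) : ∑' h : H, wg H S ((h : G) • z) ≤ 1 := by
  rw [tsum_wg]; exact ENNReal.mul_inv_le_one _

lemma tsum_wg_inv (hO : ∀ (z : Z) (s : Finset G), (∀ g ∈ s, g • z ∈ S) → (s.card : ℝ) ≤ O)
    {z : Z} (hz : z ∈ S) : ∑' h : H, wg H S ((h : G)⁻¹ • z) = 1 := by
  have h1 := (Equiv.inv H).tsum_eq fun h : H => wg H S ((h : G) • z)
  simp only [Equiv.inv_apply, InvMemClass.coe_inv] at h1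
  rw [h1, tsum_wg]
  exact ENNReal.mul_inv_cancel (lt_of_lt_of_le zero_lt_one (one_le_cnt hz)).ne' (cnt_ne_top hO z)

lemma wg_le (z : Z) : wg H S z ≤ 1 := by
  have h1 := ENNReal.le_tsum (f := fun h : H => wg H S ((h : G) • z)) 1
  simp only [OneMemClass.coe_one, one_smul] at h1
  exact h1.trans (tsum_wg_le z)

lemma wg_ne_top (z : Z) : wg H S z ≠ ∞ := ne_top_of_le_ne_top ENNReal.one_ne_top (wg_le z)

lemma enorm_wg (z : Z) : ‖(((wg H S z).toReal : ℝ) : ℂ)‖ₑ = wg H S z := by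
  rw [← ofReal_norm, Complex.norm_real, Real.norm_of_nonneg ENNReal.toReal_nonneg,
    ENNReal.ofReal_toReal (wg_ne_top z)]

lemma enorm_w (hw : UChar H w) (h : H) : ‖conj (w h)‖ₑ = 1 := by
  rw [← ofReal_norm, Complex.norm_conj, hw.norm h h.2, ENNReal.ofReal_one]

lemma enorm_PP (hw : UChar H w) (φ : Z → ℂ) (z : Z) : ‖PP H w φ z‖ₑ ≤ QQ H φ z := by
  refine enorm_tsum_le_tsum_enorm.trans (le_of_eq (tsum_congr fun h => ?_))
  rw [enorm_mul, enorm_w hw, one_mul]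

lemma PP_smul (hw : UChar H w) (φ : Z → ℂ) (k : H) (z : Z) :
    PP H w φ ((k : G) • z) = w k * PP H w φ z := by
  unfold PP
  rw [← (Equiv.mulRight k).tsum_eq fun h : H => conj (w h) * φ ((h : G) • z), ← tsum_mul_left]
  refine tsum_congr fun h => ?_
  have h1 : w k * conj (w k) = 1 := by
    rw [Complex.mul_conj, Complex.normSq_eq_norm_sq, hw.norm k k.2]; simp
  simp only [Equiv.coe_mulRight, Subgroup.coe_mul, mul_smul]
  rw [hw.mul h h.2 k k.2, map_mul]
  linear_combination (-(conj (w h) * φ ((h : G) • (k : G) • z))) * h1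

variable [Countable G] [MeasurableSpace Z] {μ : Measure Z}

omit [Countable G] in
lemma meas_ind (hS : MeasurableSet S) : Measurable (ind S) := measurable_one.indicator hS

lemma meas_wg (hm : ∀ g : G, MeasurePreserving (fun z : Z => g • z) μ μ) (hS : MeasurableSet S) :
    Measurable (wg H S) :=
  (meas_ind hS).mul (Measurable.tsum fun h : H => (meas_ind hS).comp (hm h).measurable).inv

lemma meas_PP (hm : ∀ g : G, MeasurePreserving (fun z : Z => g • z) μ μ) {φ : Z → ℂ}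
    (hφ : Measurable φ) : Measurable (PP H w φ) :=
  Measurable.tsum fun h : H => measurable_const.mul (hφ.comp (hm h).measurable)

lemma meas_QQ (hm : ∀ g : G, MeasurePreserving (fun z : Z => g • z) μ μ) {φ : Z → ℂ}
    (hφ : Measurable φ) : Measurable (QQ H φ) :=
  Measurable.tsum fun h : H => (hφ.comp (hm h).measurable).enorm

omit [Countable G] in
lemma mm1 {E : Type} [MeasurableSpace E] [Mul E] [MeasurableMul₂ E]
    (hm : ∀ g : G, MeasurePreserving (fun z : Z => g • z) μ μ) {a b : Z → E}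
    (ha : Measurable a) (hb : Measurable b) (g : G) : Measurable fun z => a z * b (g • z) :=
  ha.mul (hb.comp (hm g).measurable)

omit [Countable G] in
lemma mm2 {E : Type} [MeasurableSpace E] [Mul E] [MeasurableMul₂ E]
    (hm : ∀ g : G, MeasurePreserving (fun z : Z => g • z) μ μ) {a b : Z → E}
    (ha : Measurable a) (hb : Measurable b) (g : G) : Measurable fun z => a (g • z) * b z :=
  (ha.comp (hm g).measurable).mul hb

omit [Countable G] in
lemma lint_move (hm : ∀ g : G, MeasurePreserving (fun z : Z => g • z) μ μ) {a b : Z → ℝ≥0∞}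
    (ha : Measurable a) (hb : Measurable b) (g : G) :
    ∫⁻ z, a z * b (g • z) ∂μ = ∫⁻ z, a (g⁻¹ • z) * b z ∂μ := by
  rw [← (hm g).lintegral_comp (f := fun z => a (g⁻¹ • z) * b z)
    ((ha.comp (hm g⁻¹).measurable).mul hb)]
  simp only [inv_smul_smul]

omit [Countable G] in
lemma int_move (hm : ∀ g : G, MeasurePreserving (fun z : Z => g • z) μ μ) {a b : Z → ℂ}
    (ha : Measurable a) (hb : Measurable b) (g : G) :
    ∫ z, a z * b (g • z) ∂μ = ∫ z, a (g⁻¹ • z) * b z ∂μ := by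
  have h := integral_map (μ := μ) (f := fun z => a (g⁻¹ • z) * b z) (hm g).measurable.aemeasurable
    ((ha.comp (hm g⁻¹).measurable).mul hb).aestronglyMeasurable
  rw [(hm g).map_eq] at h
  rw [h]
  simp only [inv_smul_smul]

/-- unfolding for nonnegative functions -/
lemma unfoldL (hm : ∀ g : G, MeasurePreserving (fun z : Z => g • z) μ μ) (hS : MeasurableSet S)
    (hO : ∀ (z : Z) (s : Finset G), (∀ g ∈ s, g • z ∈ S) → (s.card : ℝ) ≤ O)
    {u : Z → ℝ≥0∞} (hu : Measurable u) (h0 : ∀ z, z ∉ S → u z = 0) :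
    ∑' h : H, ∫⁻ z, wg H S ((h : G)⁻¹ • z) * u z ∂μ = ∫⁻ z, u z ∂μ ∧
    ∫⁻ z, wg H S z * ∑' h : H, u ((h : G) • z) ∂μ = ∫⁻ z, u z ∂μ := by
  have mw := meas_wg (H := H) hm hS
  have h1 : ∑' h : H, ∫⁻ z, wg H S ((h : G)⁻¹ • z) * u z ∂μ = ∫⁻ z, u z ∂μ := by
    rw [← lintegral_tsum fun h : H => (mm2 hm mw hu (h : G)⁻¹).aemeasurable]
    refine lintegral_congr fun z => ?_
    rw [ENNReal.tsum_mul_right]
    by_cases hz : z ∈ S
    · rw [tsum_wg_inv hO hz, one_mul]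
    · rw [h0 z hz, mul_zero]
  refine ⟨h1, ?_⟩
  simp_rw [← ENNReal.tsum_mul_left]
  rw [lintegral_tsum fun h : H => (mm1 hm mw hu (h : G)).aemeasurable, ← h1]
  exact tsum_congr fun h => lint_move hm mw hu h

/-- unfolding -/
lemma unfoldB (hm : ∀ g : G, MeasurePreserving (fun z : Z => g • z) μ μ) (hS : MeasurableSet S)
    (hO : ∀ (z : Z) (s : Finset G), (∀ g ∈ s, g • z ∈ S) → (s.card : ℝ) ≤ O)
    {u : Z → ℂ} (hu : Measurable u) (h0 : ∀ z, z ∉ S → u z = 0) (hi : ∫⁻ z, ‖u z‖ₑ ∂μ ≠ ∞) :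
    ∫ z, u z ∂μ = ∫ z, (((wg H S z).toReal : ℝ) : ℂ) * ∑' h : H, u ((h : G) • z) ∂μ := by
  have mw := meas_wg (H := H) hm hS
  have mc : Measurable fun z => (((wg H S z).toReal : ℝ) : ℂ) :=
    Complex.measurable_ofReal.comp mw.ennreal_toReal
  have h1 := (unfoldL (H := H) hm hS hO hu.enorm (fun z hz => by rw [h0 z hz, enorm_zero])).1
  have h2 : ∑' h : H, ∫⁻ z, ‖(((wg H S ((h : G)⁻¹ • z)).toReal : ℝ) : ℂ) * u z‖ₑ ∂μ ≠ ∞ := by
    simp only [enorm_mul, enorm_wg]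
    rwa [h1]
  have h3 : ∑' h : H, ∫⁻ z, ‖(((wg H S z).toReal : ℝ) : ℂ) * u ((h : G) • z)‖ₑ ∂μ ≠ ∞ := by
    simp only [enorm_mul, enorm_wg]
    rwa [tsum_congr fun h : H => lint_move hm mw hu.enorm (h : G), h1]
  simp_rw [← tsum_mul_left]
  rw [integral_tsum (fun h : H => (mm1 hm mc hu (h : G)).aestronglyMeasurable) h3]
  have h4 : ∑' h : H, ∫ z, (((wg H S z).toReal : ℝ) : ℂ) * u ((h : G) • z) ∂μ =
      ∑' h : H, ∫ z, (((wg H S ((h : G)⁻¹ • z)).toReal : ℝ) : ℂ) * u z ∂μ :=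
    tsum_congr fun h => int_move hm mc hu h
  refine Eq.trans ?_ h4.symm
  rw [← integral_tsum
    (fun h : H => (mm2 hm mc hu (h : G)⁻¹).aestronglyMeasurable) h2]
  refine integral_congr_ae (Eventually.of_forall fun z => ?_)
  simp only
  rw [tsum_mul_right]
  by_cases hz : z ∈ S
  · rw [← Complex.ofReal_tsum, ← ENNReal.tsum_toReal_eq fun _ => wg_ne_top _, tsum_wg_inv hO hz]
    simp
  · rw [h0 z hz, mul_zero]

omit [Group G] [MulAction G Z] [Countable G] in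
lemma l2_eq {φ : Z → ℂ} (hφ : Adm μ S φ) :
    ∫⁻ z, ‖φ z‖ₑ ^ 2 ∂μ = ENNReal.ofReal (∫ z, ‖φ z‖ ^ 2 ∂μ) := by
  rw [ofReal_integral_eq_lintegral_ofReal
    ((memLp_two_iff_integrable_sq_norm hφ.l2.aestronglyMeasurable).1 hφ.l2)
    (Eventually.of_forall fun z => sq_nonneg _)]
  refine lintegral_congr fun z => ?_
  rw [ENNReal.ofReal_pow (norm_nonneg _), ofReal_norm]

/-- Schur test -/
lemma schur (hm : ∀ g : G, MeasurePreserving (fun z : Z => g • z) μ μ) (hS : MeasurableSet S)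
    (hO : ∀ (z : Z) (s : Finset G), (∀ g ∈ s, g • z ∈ S) → (s.card : ℝ) ≤ O)
    {φ ψ : Z → ℂ} (hφ : Adm μ S φ) (hψ : Adm μ S ψ) :
    2 * ∑' g : G, ∫⁻ z, ‖φ z‖ₑ * ‖ψ (g • z)‖ₑ ∂μ ≤
      ENNReal.ofReal O * (∫⁻ z, ‖φ z‖ₑ ^ 2 ∂μ + ∫⁻ z, ‖ψ z‖ₑ ^ 2 ∂μ) := by
  have mi := meas_ind hS
  have m1 := hφ.meas.enorm.pow_const 2
  have m2 := hψ.meas.enorm.pow_const 2
  have h1 : ∀ g : G, 2 * ∫⁻ z, ‖φ z‖ₑ * ‖ψ (g • z)‖ₑ ∂μ ≤
      ∫⁻ z, ‖φ z‖ₑ ^ 2 * ind S (g • z) ∂μ + ∫⁻ z, ind S (g⁻¹ • z) * ‖ψ z‖ₑ ^ 2 ∂μ := by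
    intro g
    rw [← lint_move hm mi m2 g, ← lintegral_const_mul' _ _ ENNReal.ofNat_ne_top,
      ← lintegral_add_left (mm1 hm m1 mi g)]
    refine lintegral_mono fun z => ?_
    by_cases c1 : z ∈ S
    · by_cases c2 : g • z ∈ S
      · rw [ind_mem c1, ind_mem c2, mul_one, one_mul]; exact two_mul_le _ _
      · rw [hψ.supp _ c2]; simp
    · rw [hφ.supp _ c1]; simp
  have h2 : ∑' g : G, ∫⁻ z, ‖φ z‖ₑ ^ 2 * ind S (g • z) ∂μ ≤
      ENNReal.ofReal O * ∫⁻ z, ‖φ z‖ₑ ^ 2 ∂μ := by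
    rw [← lintegral_tsum fun g : G => (mm1 hm m1 mi g).aemeasurable,
      ← lintegral_const_mul' _ _ ENNReal.ofReal_ne_top]
    refine lintegral_mono fun z => ?_
    rw [ENNReal.tsum_mul_left, mul_comm]
    exact mul_le_mul_left (count_le hO z) _
  have h3 : ∑' g : G, ∫⁻ z, ind S (g⁻¹ • z) * ‖ψ z‖ₑ ^ 2 ∂μ ≤
      ENNReal.ofReal O * ∫⁻ z, ‖ψ z‖ₑ ^ 2 ∂μ := by
    rw [← lintegral_tsum fun g : G => (mm2 hm mi m2 g⁻¹).aemeasurable,
      ← lintegral_const_mul' _ _ ENNReal.ofReal_ne_top]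
    refine lintegral_mono fun z => ?_
    have h4 := (Equiv.inv G).tsum_eq fun g : G => ind S (g • z)
    simp only [Equiv.inv_apply] at h4
    rw [ENNReal.tsum_mul_right, h4]
    exact mul_le_mul_left (count_le hO z) _
  rw [← ENNReal.tsum_mul_left, mul_add]
  refine (ENNReal.tsum_le_tsum h1).trans ?_
  rw [ENNReal.tsum_add]
  exact add_le_add h2 h3

lemma schur_ne (hm : ∀ g : G, MeasurePreserving (fun z : Z => g • z) μ μ) (hS : MeasurableSet S)
    (hO : ∀ (z : Z) (s : Finset G), (∀ g ∈ s, g • z ∈ S) → (s.card : ℝ) ≤ O)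
    {φ ψ : Z → ℂ} (hφ : Adm μ S φ) (hψ : Adm μ S ψ) :
    ∑' g : G, ∫⁻ z, ‖φ z‖ₑ * ‖ψ (g • z)‖ₑ ∂μ ≠ ∞ := by
  have h := schur hm hS hO hφ hψ
  rw [l2_eq hφ, l2_eq hψ] at h
  intro e
  rw [e, ENNReal.mul_top (by norm_num), top_le_iff] at h
  exact ENNReal.mul_ne_top ENNReal.ofReal_ne_top
    (ENNReal.add_ne_top.2 ⟨ENNReal.ofReal_ne_top, ENNReal.ofReal_ne_top⟩) h

omit [Countable G] in
lemma int_eq (hm : ∀ g : G, MeasurePreserving (fun z : Z => g • z) μ μ) {φ ψ : Z → ℂ}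
    (hφ : Measurable φ) (hψ : Measurable ψ) (g : G) :
    ∫ z, ‖φ z‖ * ‖ψ (g • z)‖ ∂μ = (∫⁻ z, ‖φ z‖ₑ * ‖ψ (g • z)‖ₑ ∂μ).toReal := by
  have h := integral_norm_eq_lintegral_enorm (μ := μ) (f := fun z => φ z * ψ (g • z))
    (hφ.mul (hψ.comp (hm g).measurable)).aestronglyMeasurable
  simpa only [norm_mul, enorm_mul] using h

lemma summable_int (hm : ∀ g : G, MeasurePreserving (fun z : Z => g • z) μ μ)
    (hS : MeasurableSet S)
    (hO : ∀ (z : Z) (s : Finset G), (∀ g ∈ s, g • z ∈ S) → (s.card : ℝ) ≤ O)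
    {φ ψ : Z → ℂ} (hφ : Adm μ S φ) (hψ : Adm μ S ψ) :
    Summable (fun g : G => ∫ z, ‖φ z‖ * ‖ψ (g • z)‖ ∂μ) := by
  simp only [int_eq hm hφ.meas hψ.meas]
  exact ENNReal.summable_toReal (schur_ne hm hS hO hφ hψ)

omit [MulAction G Z] [Countable G] in
lemma norm_w_le (hw : UChar H w) (g : G) : ‖w g‖ ≤ 1 := by
  by_cases h : g ∈ H
  · exact (hw.norm g h).le
  · rw [hw.zero g h]; simp

omit [Countable G] in
lemma term_le (hw : UChar H w) (φ ψ : Z → ℂ) (g : G) :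
    ‖w g * ∫ z, φ z * conj (ψ (g • z)) ∂μ‖ ≤ ∫ z, ‖φ z‖ * ‖ψ (g • z)‖ ∂μ := by
  have h1 := norm_integral_le_integral_norm (μ := μ) fun z => φ z * conj (ψ (g • z))
  simp only [norm_mul, Complex.norm_conj] at h1
  rw [norm_mul]
  exact (mul_le_of_le_one_left (norm_nonneg _) (norm_w_le hw g)).trans h1

lemma lint_QQ (hm : ∀ g : G, MeasurePreserving (fun z : Z => g • z) μ μ) (hS : MeasurableSet S)
    (hO : ∀ (z : Z) (s : Finset G), (∀ g ∈ s, g • z ∈ S) → (s.card : ℝ) ≤ O)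
    {φ ψ : Z → ℂ} (hφ : Adm μ S φ) (hψ : Adm μ S ψ) :
    ∑' h : H, ∫⁻ z, ‖φ z‖ₑ * ‖ψ ((h : G) • z)‖ₑ ∂μ ≠ ∞ ∧ ∫⁻ z, ‖φ z‖ₑ * QQ H ψ z ∂μ ≠ ∞ := by
  have h1 : ∑' h : H, ∫⁻ z, ‖φ z‖ₑ * ‖ψ ((h : G) • z)‖ₑ ∂μ ≠ ∞ :=
    ne_top_of_le_ne_top (schur_ne hm hS hO hφ hψ)
      (ENNReal.tsum_comp_le_tsum_of_injective Subtype.val_injective
        (fun g : G => ∫⁻ z, ‖φ z‖ₑ * ‖ψ (g • z)‖ₑ ∂μ))
  refine ⟨h1, ?_⟩
  unfold QQ
  simp_rw [← ENNReal.tsum_mul_left]
  rwa [lintegral_tsum fun h : H =>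
    (mm1 hm hφ.meas.enorm hψ.meas.enorm (h : G)).aemeasurable]

lemma lint_wQ (hm : ∀ g : G, MeasurePreserving (fun z : Z => g • z) μ μ) (hS : MeasurableSet S)
    (hO : ∀ (z : Z) (s : Finset G), (∀ g ∈ s, g • z ∈ S) → (s.card : ℝ) ≤ O)
    {φ : Z → ℂ} (hφ : Adm μ S φ) : ∫⁻ z, wg H S z * QQ H φ z ^ 2 ∂μ ≠ ∞ := by
  have h := (unfoldL (H := H) hm hS hO (u := fun z => ‖φ z‖ₑ * QQ H φ z)
    (hφ.meas.enorm.mul (meas_QQ hm hφ.meas)) (fun z hz => by rw [hφ.supp z hz]; simp)).2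
  simp only [QQ_smul, ENNReal.tsum_mul_right] at h
  have h2 := (lint_QQ (H := H) hm hS hO hφ hφ).2
  rw [← h] at h2
  simpa only [sq, QQ] using h2

omit [Countable G] in
lemma integrable_wg {a : Z → ℂ} (mw : Measurable (wg H S)) (ha : Measurable a)
    (h : ∫⁻ z, wg H S z * ‖a z‖ₑ ^ 2 ∂μ ≠ ∞) :
    Integrable (fun z => (wg H S z).toReal * ‖a z‖ ^ 2) μ ∧
    ∫ z, (wg H S z).toReal * ‖a z‖ ^ 2 ∂μ = (∫⁻ z, wg H S z * ‖a z‖ₑ ^ 2 ∂μ).toReal := by
  have e : ∀ z, ENNReal.ofReal ((wg H S z).toReal * ‖a z‖ ^ 2) = wg H S z * ‖a z‖ₑ ^ 2 := fun z => by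
    rw [ENNReal.ofReal_mul ENNReal.toReal_nonneg, ENNReal.ofReal_toReal (wg_ne_top z),
      ENNReal.ofReal_pow (norm_nonneg _), ofReal_norm]
  have m : AEStronglyMeasurable (fun z => (wg H S z).toReal * ‖a z‖ ^ 2) μ :=
    (mw.ennreal_toReal.mul (ha.norm.pow_const 2)).aestronglyMeasurable
  have nn : 0 ≤ᵐ[μ] fun z => (wg H S z).toReal * ‖a z‖ ^ 2 :=
    Eventually.of_forall fun z => mul_nonneg ENNReal.toReal_nonneg (sq_nonneg _)
  refine ⟨⟨m, (hasFiniteIntegral_iff_ofReal nn).2 ?_⟩, ?_⟩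
  · simp only [e]; exact h.lt_top
  · rw [integral_eq_lintegral_of_nonneg_ae nn m]; simp only [e]

lemma integrable_PP (hm : ∀ g : G, MeasurePreserving (fun z : Z => g • z) μ μ)
    (hS : MeasurableSet S) (hw : UChar H w)
    (hO : ∀ (z : Z) (s : Finset G), (∀ g ∈ s, g • z ∈ S) → (s.card : ℝ) ≤ O)
    {φ : Z → ℂ} (hφ : Adm μ S φ) :
    Integrable (fun z => (wg H S z).toReal * ‖PP H w φ z‖ ^ 2) μ := by
  refine (integrable_wg (meas_wg hm hS) (meas_PP hm hφ.meas) ?_).1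
  refine ne_top_of_le_ne_top (lint_wQ (H := H) hm hS hO hφ) (lintegral_mono fun z => ?_)
  exact mul_le_mul_right (pow_le_pow_left' (enorm_PP hw φ z) 2) _

/-- the form, unfolded -/
lemma Bf_eq (hm : ∀ g : G, MeasurePreserving (fun z : Z => g • z) μ μ) (hS : MeasurableSet S)
    (hw : UChar H w) (hO : ∀ (z : Z) (s : Finset G), (∀ g ∈ s, g • z ∈ S) → (s.card : ℝ) ≤ O)
    {φ ψ : Z → ℂ} (hφ : Adm μ S φ) (hψ : Adm μ S ψ) :
    Bf μ w φ ψ = ∫ z, (((wg H S z).toReal : ℝ) : ℂ) * (PP H w φ z * conj (PP H w ψ z)) ∂μ := by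
  obtain ⟨q1, q2⟩ := lint_QQ (H := H) hm hS hO hφ hψ
  have mc : Measurable fun z : ℂ => conj z := Complex.continuous_conj.measurable
  have h1 : Bf μ w φ ψ = ∫ z, φ z * conj (PP H w ψ z) ∂μ := by
    unfold Bf
    rw [← tsum_subtype_eq_of_support_subset (s := (H : Set G))]
    · have h2 : ∀ z, φ z * conj (PP H w ψ z) =
          ∑' h : H, φ z * conj (conj (w h) * ψ ((h : G) • z)) := fun z => by
        rw [tsum_mul_left, PP, Complex.conj_tsum]
      simp only [h2]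
      rw [integral_tsum]
      · refine tsum_congr fun h => ?_
        rw [← integral_const_mul]
        refine integral_congr_ae (Eventually.of_forall fun z => ?_)
        simp only [map_mul, Complex.conj_conj]
        ring
      · exact fun h => (hφ.meas.mul
          (mc.comp (measurable_const.mul (hψ.meas.comp (hm h).measurable)))).aestronglyMeasurable
      · have h3 : ∀ (h : H) z, ‖φ z * conj (conj (w h) * ψ ((h : G) • z))‖ₑ =
            ‖φ z‖ₑ * ‖ψ ((h : G) • z)‖ₑ := fun h z => by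
          rw [enorm_mul, RCLike.enorm_conj, enorm_mul, enorm_w hw, one_mul]
        simpa only [h3] using q1
    · intro g hg
      by_contra h
      exact hg (by simp only [hw.zero g h, zero_mul])
  rw [h1, unfoldB (H := H) hm hS hO (u := fun z => φ z * conj (PP H w ψ z))
    (hφ.meas.mul (mc.comp (meas_PP hm hψ.meas)))
    (fun z hz => by simp only [hφ.supp z hz, zero_mul])]
  · refine integral_congr_ae (Eventually.of_forall fun z => ?_)
    simp only [PP_smul hw]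
    congr 1
    rw [show PP H w φ z = ∑' h : H, conj (w h) * φ ((h : G) • z) from rfl, ← tsum_mul_right]
    refine tsum_congr fun h => ?_
    rw [map_mul]; ring
  · refine ne_top_of_le_ne_top q2 (lintegral_mono fun z => ?_)
    rw [enorm_mul, RCLike.enorm_conj]
    exact mul_le_mul_right (enorm_PP hw ψ z) _

lemma Bf_self (hm : ∀ g : G, MeasurePreserving (fun z : Z => g • z) μ μ) (hS : MeasurableSet S)
    (hw : UChar H w) (hO : ∀ (z : Z) (s : Finset G), (∀ g ∈ s, g • z ∈ S) → (s.card : ℝ) ≤ O)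
    {φ : Z → ℂ} (hφ : Adm μ S φ) :
    ‖Bf μ w φ φ‖ = ∫ z, (wg H S z).toReal * ‖PP H w φ z‖ ^ 2 ∂μ := by
  have h : Bf μ w φ φ = ((∫ z, (wg H S z).toReal * ‖PP H w φ z‖ ^ 2 ∂μ : ℝ) : ℂ) := by
    rw [Bf_eq hm hS hw hO hφ hφ, ← integral_complex_ofReal]
    refine integral_congr_ae (Eventually.of_forall fun z => ?_)
    simp only [Complex.mul_conj, Complex.normSq_eq_norm_sq]
    push_cast
    rfl
  rw [h, Complex.norm_real, Real.norm_of_nonneg
    (integral_nonneg fun z => mul_nonneg ENNReal.toReal_nonneg (sq_nonneg _))]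

omit [Countable G] in
lemma norm_int_le (a b : Z → ℂ) :
    ‖∫ z, (((wg H S z).toReal : ℝ) : ℂ) * (a z * b z) ∂μ‖ ^ 2 ≤
      (∫ z, (wg H S z).toReal * (‖a z‖ * ‖b z‖) ∂μ) ^ 2 := by
  refine pow_le_pow_left₀ (norm_nonneg _) ((norm_integral_le_integral_norm _).trans
    (le_of_eq (integral_congr_ae (Eventually.of_forall fun z => ?_)))) 2
  simp only [norm_mul, Complex.norm_real, Real.norm_of_nonneg ENNReal.toReal_nonneg]

end P1

open P1

theorem p1 : S_P1 := by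
  intro G Z _ _ _ _ μ H w S O hm hS hw hO
  refine ⟨fun φ ψ hφ hψ => ⟨summable_int hm hS hO hφ hψ, ?_⟩, fun ψ hψ => ?_,
    fun s t x y φ ψ hφ hψ => ⟨⟨?_, ?_, ?_⟩, ?_⟩⟩
  · rw [Bf_self hm hS hw hO hφ, Bf_self hm hS hw hO hψ, Bf_eq hm hS hw hO hφ hψ]
    refine (norm_int_le _ _).trans ?_
    simp only [Complex.norm_conj]
    exact cs (fun _ => ENNReal.toReal_nonneg) (meas_wg hm hS).ennreal_toReal
      (meas_PP hm hφ.meas).norm (meas_PP hm hψ.meas).norm (integrable_PP hm hS hw hO hφ)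
      (integrable_PP hm hS hw hO hψ)
  · rcases isEmpty_or_nonempty Z with hZ | ⟨⟨z0⟩⟩
    · simp [Bf, integral_of_isEmpty]
    have hO0 : 0 ≤ O := by simpa using hO z0 ∅ (by simp)
    have hI : 0 ≤ ∫ z, ‖ψ z‖ ^ 2 ∂μ := integral_nonneg fun _ => sq_nonneg _
    refine (tsum_of_norm_bounded (summable_int hm hS hO hψ hψ).hasSum (term_le hw ψ ψ)).trans ?_
    simp only [int_eq hm hψ.meas hψ.meas]
    rw [← ENNReal.tsum_toReal_eq fun g => ENNReal.ne_top_of_tsum_ne_top (schur_ne hm hS hO hψ hψ) g]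
    refine ENNReal.toReal_le_of_le_ofReal (mul_nonneg hO0 hI) ?_
    have h := schur hm hS hO hψ hψ
    rw [← two_mul, mul_left_comm, ENNReal.mul_le_mul_iff_right (by norm_num) (by norm_num),
      l2_eq hψ] at h
    rwa [ENNReal.ofReal_mul hO0]
  · exact Finset.measurable_fun_sum _ fun i hi => measurable_const.mul (hφ i hi).meas
  · exact memLp_finsetSum _ fun i hi => (hφ i hi).l2.const_mul _
  · exact fun z hz => sum_eq_zero fun i hi => by rw [(hφ i hi).supp z hz, mul_zero]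
  · have hi : ∀ g : G, ∀ i ∈ s, ∀ j ∈ t,
        Integrable (fun z => x i * conj (y j) * (φ i z * conj (ψ j (g • z)))) μ := by
      intro g i hi j hj
      refine Integrable.const_mul (f := fun z => φ i z * conj (ψ j (g • z)))
        ⟨((hφ i hi).meas.mul (Complex.continuous_conj.measurable.comp
        ((hψ j hj).meas.comp (hm g).measurable))).aestronglyMeasurable, ?_⟩ _
      have h := ENNReal.ne_top_of_tsum_ne_top (schur_ne hm hS hO (hφ i hi) (hψ j hj)) g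
      simpa only [HasFiniteIntegral, enorm_mul, RCLike.enorm_conj] using h.lt_top
    have hsum : ∀ i ∈ s, ∀ j ∈ t, Summable fun g : G =>
        x i * conj (y j) * (w g * ∫ z, φ i z * conj (ψ j (g • z)) ∂μ) := fun i hi j hj =>
      ((summable_int hm hS hO (hφ i hi) (hψ j hj)).of_norm_bounded (term_le hw _ _)).mul_left _
    unfold Bf
    simp only [← tsum_mul_left]
    rw [sum_congr rfl fun i hi => (Summable.tsum_finsetSum (hsum i hi)).symm,
      ← Summable.tsum_finsetSum fun i hi => summable_sum (hsum i hi)]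
    refine tsum_congr fun g => ?_
    have e : ∀ z, (∑ i ∈ s, x i * φ i z) * conj (∑ j ∈ t, y j * ψ j (g • z)) =
        ∑ i ∈ s, ∑ j ∈ t, x i * conj (y j) * (φ i z * conj (ψ j (g • z))) := fun z => by
      rw [map_sum, sum_mul_sum]
      refine sum_congr rfl fun i _ => sum_congr rfl fun j _ => ?_
      rw [map_mul]; ring
    simp only [e]
    rw [integral_finsetSum _ fun i h => integrable_finsetSum _ (hi g i h), mul_sum]
    refine sum_congr rfl fun i h => ?_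
    rw [integral_finsetSum _ (hi g i h), mul_sum]
    refine sum_congr rfl fun j _ => ?_
    rw [integral_const_mul]; ring

theorem p1c : S_P1c := by
  intro G Z _ _ _ _ μ H S T O W F φ hm hS hT hO hφ hF hFi hTi hφT hW hB
  have hw : UChar H (Set.indicator (H : Set G) fun _ => (1 : ℂ)) :=
    ⟨fun g hg => Set.indicator_of_notMem hg _, fun g hg h hh => by
      rw [Set.indicator_of_mem (show g * h ∈ (H : Set G) from H.mul_mem hg hh),
        Set.indicator_of_mem (show g ∈ (H : Set G) from hg),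
        Set.indicator_of_mem (show h ∈ (H : Set G) from hh), mul_one],
      fun g hg => by rw [Set.indicator_of_mem (show g ∈ (H : Set G) from hg), norm_one]⟩
  have mw := meas_wg (H := H) hm hS
  have mF : Measurable (T.indicator F) := hF.indicator hT
  have hz : ∀ z, z ∉ T → ∀ h : H, φ ((h : G) • z) = 0 := fun z hz h =>
    hφT _ fun c => hz ((hTi h h.2 z).1 c)
  have h1 : ∫⁻ z, wg H S z * ‖T.indicator F z‖ₑ ^ 2 ∂μ ≤ ENNReal.ofReal W := by
    have h := hB (wg H S) mw fun z => by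
      rw [← _root_.tsum_subtype]; exact tsum_wg_le z
    rw [← lintegral_indicator hT] at h
    refine le_trans (le_of_eq (lintegral_congr fun z => ?_)) h
    by_cases c : z ∈ T
    · rw [Set.indicator_of_mem c, Set.indicator_of_mem c, ENNReal.ofReal_pow (norm_nonneg _),
        ofReal_norm]
    · rw [Set.indicator_of_notMem c, Set.indicator_of_notMem c]; simp
  have h1' := ne_top_of_le_ne_top ENNReal.ofReal_ne_top h1
  have h2 : ∫⁻ z, ‖F z * φ z‖ₑ ∂μ ≠ ∞ := by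
    have h := (unfoldL (H := H) hm hS hO (u := fun z => ‖F z * φ z‖ₑ) (hF.mul hφ.meas).enorm
      (fun z hz => by rw [hφ.supp z hz]; simp)).2
    rw [← h]
    refine ne_top_of_le_ne_top (ENNReal.add_ne_top.2 ⟨h1', lint_wQ (H := H) hm hS hO hφ⟩) ?_
    rw [← lintegral_add_left (f := fun z => wg H S z * ‖T.indicator F z‖ₑ ^ 2)
      (mw.mul (mF.enorm.pow_const 2))]
    refine lintegral_mono fun z => ?_
    simp only
    rw [← mul_add]
    refine mul_le_mul_right (le_trans ?_ (two_mul_le _ _)) _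
    have e : ∑' h : H, ‖F ((h : G) • z) * φ ((h : G) • z)‖ₑ = ‖T.indicator F z‖ₑ * QQ H φ z := by
      rw [QQ, ← ENNReal.tsum_mul_left]
      refine tsum_congr fun h => ?_
      rw [enorm_mul, hFi h h.2]
      by_cases c : z ∈ T
      · rw [Set.indicator_of_mem c]
      · rw [hz z c h]; simp
    rw [e, two_mul]
    exact le_self_add
  refine ⟨⟨(hF.mul hφ.meas).aestronglyMeasurable, h2.lt_top⟩, ?_⟩
  have h3 : ∫ z, F z * φ z ∂μ = ∫ z, (((wg H S z).toReal : ℝ) : ℂ) *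
      (T.indicator F z * PP H (Set.indicator (H : Set G) fun _ => (1 : ℂ)) φ z) ∂μ := by
    rw [unfoldB (H := H) hm hS hO (u := fun z => F z * φ z) (hF.mul hφ.meas)
      (fun z hz => by simp only [hφ.supp z hz, mul_zero]) h2]
    refine integral_congr_ae (Eventually.of_forall fun z => ?_)
    simp only
    congr 1
    rw [PP, ← tsum_mul_left]
    refine tsum_congr fun h => ?_
    rw [hFi h h.2, Set.indicator_of_mem (show (h : G) ∈ (H : Set G) from h.2), map_one, one_mul]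
    by_cases c : z ∈ T
    · rw [Set.indicator_of_mem c]
    · rw [hz z c h]; simp
  obtain ⟨i1, e1⟩ := integrable_wg mw mF h1'
  rw [h3, Bf_self hm hS hw hO hφ]
  refine (norm_int_le _ _).trans ((cs (fun _ => ENNReal.toReal_nonneg) mw.ennreal_toReal mF.norm
    (meas_PP hm hφ.meas).norm i1 (integrable_PP hm hS hw hO hφ)).trans ?_)
  refine mul_le_mul_of_nonneg_right ?_
    (integral_nonneg fun z => mul_nonneg ENNReal.toReal_nonneg (sq_nonneg _))
  rw [e1]
  exact ENNReal.toReal_le_of_le_ofReal hW h1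

end MR
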