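import Pool.Agent.P.MP_79de8b_nt.Ms

/-! Package PB of the Mazur-Rubin variance theorem. -/

open Complex UpperHalfPlane MeasureTheory Finset CongruenceSubgroup
open scoped Real MatrixGroups ComplexConjugate ENNReal

noncomputable section
namespace MR
namespace PB

lemma uchar (N : ℕ) : UChar (Gp N) (Set.indicator (Gp N : Set SL(2, ℤ)) fun _ => (1 : ℂ)) where
  zero g hg := Set.indicator_of_notMem hg _
  mul g hg h hh := by
    rw [Set.indicator_of_mem (show g * h ∈ (Gp N : Set SL(2, ℤ)) from (Gp N).mul_mem hg hh),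
      Set.indicator_of_mem (show g ∈ (Gp N : Set SL(2, ℤ)) from hg),
      Set.indicator_of_mem (show h ∈ (Gp N : Set SL(2, ℤ)) from hh), mul_one]
  norm g hg := by
    rw [Set.indicator_of_mem (show g ∈ (Gp N : Set SL(2, ℤ)) from hg), norm_one]

lemma measurableSet_SY (Y : ℝ) : MeasurableSet (SY Y) := by
  have h1 : Measurable fun z : HH => z.1.im :=
    UpperHalfPlane.continuous_im.measurable.comp measurable_fst
  have h2 : Measurable fun z : HH => z.2.re :=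
    UpperHalfPlane.continuous_re.measurable.comp measurable_snd
  exact (measurableSet_le measurable_const h1).inter
    ((measurableSet_le measurable_const h2).inter (measurableSet_lt h2 measurable_const))

lemma adm_mono {Y Y' : ℝ} (h : Y ≤ Y') {φ : HH → ℂ} (hφ : Adm volume (SY Y') φ) :
    Adm volume (SY Y) φ :=
  ⟨hφ.meas, hφ.l2, fun z hz => hφ.supp z fun hz' => hz ⟨h.trans hz'.1, hz'.2⟩⟩

/-- The Cauchy-Schwarz step. -/
lemma cs (hP1c : S_P1c) (hOv : S_Ov) (hSh : S_Sh) {N : ℕ} (hN : 0 < N) :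
    ∃ C : ℝ, 0 ≤ C ∧ ∀ (Y D K : ℝ) (F φ : HH → ℂ), 0 < Y → 0 < D → Measurable F →
      (∀ g ∈ Gp N, ∀ z, F (g • z) = F z) → 0 ≤ K → (∀ z, ‖F z‖ ≤ K * del z) →
      Adm volume (SY Y) φ → (∀ z, φ z ≠ 0 → del z ≤ D) →
      Integrable (fun z => F z * φ z) ∧ ‖∫ z, F z * φ z‖ ^ 2 ≤ C * K ^ 2 * D ^ 3 *
        ‖Bf volume (Set.indicator (Gp N : Set SL(2, ℤ)) fun _ => 1) φ φ‖ := by
  obtain ⟨Co, -, hO⟩ := hOv
  obtain ⟨hdm, hdi, hS⟩ := hSh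
  obtain ⟨C, hC, hS⟩ := hS N hN
  refine ⟨C, hC, fun Y D K F φ hY hD hF hinv hK hb hφ hsupp => ?_⟩
  have hT : MeasurableSet {z : HH | del z ≤ D} := measurableSet_le hdm measurable_const
  refine hP1c SL(2, ℤ) HH volume (Gp N) (SY Y) {z : HH | del z ≤ D} (Co * (1 + 1 / Y))
    (C * K ^ 2 * D ^ 3) F φ mp_HH (measurableSet_SY Y) hT (fun z s hs => hO Y z s hY hs) hφ hF
    hinv (fun h _ z => by simp only [Set.mem_setOf_eq, hdi]) (fun z hz => ?_) (by positivity)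
    (fun ω hω hs => ?_)
  · by_contra h
    exact hz (hsupp z h)
  · calc ∫⁻ z in {z : HH | del z ≤ D}, ω z * ENNReal.ofReal (‖F z‖ ^ 2)
        ≤ ∫⁻ z in {z : HH | del z ≤ D}, ω z * ENNReal.ofReal ((K * D) ^ 2) := by
          refine setLIntegral_mono' hT fun z hz => ?_
          refine mul_le_mul_right (ENNReal.ofReal_le_ofReal ?_) _
          exact pow_le_pow_left₀ (norm_nonneg _)
            ((hb z).trans (mul_le_mul_of_nonneg_left hz hK)) 2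
      _ = (∫⁻ z in {z : HH | del z ≤ D}, ω z) * ENNReal.ofReal ((K * D) ^ 2) :=
          lintegral_mul_const _ hω
      _ ≤ ENNReal.ofReal (C * D) * ENNReal.ofReal ((K * D) ^ 2) :=
          mul_le_mul_left (hS D ω hD hω hs) _
      _ = ENNReal.ofReal (C * K ^ 2 * D ^ 3) := by
          rw [← ENNReal.ofReal_mul (by positivity)]
          congr 1
          ring

/-- One block of frequencies. -/
lemma block (hP1 : S_P1) (hP1c : S_P1c) (hOv : S_Ov) (hSh : S_Sh) (hPt : S_Pt)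
    (h0 : S_PB0) {N : ℕ} (hN : 0 < N) :
    ∃ C : ℝ, 0 ≤ C ∧ ∀ (A η₁ η₂ K : ℝ) (θ : ℂ → ℝ → ℂ) (F : HH → ℂ), Prof A η₁ η₂ θ →
      Measurable F → (∀ g ∈ Gp N, ∀ z, F (g • z) = F z) → 0 ≤ K → (∀ z, ‖F z‖ ≤ K * del z) →
      ∀ (Q R : ℕ) (w : ℕ → ℂ), 1 ≤ Q → (∀ h, ‖w h‖ ≤ 1) →
      ‖∑ r ∈ (Icc 1 R).filter (·.Coprime (Q * N)),
          w (Q * r) * ((∫ z : HH, F z * pt θ (Q * r) z) / (Q * r : ℕ))‖ ^ 2 ≤
        C * K ^ 2 * (η₁ / η₂) ^ 3 * ((A ^ 2 / η₂) * (1 + η₂) / Q * tau Q ^ 3 *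
          (1 + Real.log (1 + 4 * (Q : ℝ) ^ 2 / η₁)) * (1 + Real.log (1 + R)) ^ 3 *
          Real.sqrt (1 + Q / η₁) * Real.sqrt (1 + (R : ℝ) ^ 2 / η₁)) := by
  obtain ⟨C1, hC1, hcs⟩ := cs hP1c hOv hSh hN
  obtain ⟨C0, hC0, h0⟩ := h0 N hN
  obtain ⟨Co, -, hO⟩ := hOv
  refine ⟨C1 * 80 ^ 3 * C0, by positivity,
    fun A η₁ η₂ K θ F hθ hF hinv hK hb Q R w hQ hw => ?_⟩
  have h2 : 0 < η₂ := hθ.pos
  have h1 : 0 < η₁ := h2.trans_le hθ.le
  obtain ⟨hpt, -, -⟩ := hPt A η₁ η₂ θ hθ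
  set s := (Icc 1 R).filter (·.Coprime (Q * N)) with hs
  set Y : ℝ := η₁ / (2 * ((Q : ℝ) * (R + 1))) with hY
  have hQ' : (0 : ℝ) < Q := by exact_mod_cast hQ
  have hY0 : 0 < Y := by positivity
  have hD : 0 < 80 * η₁ / η₂ := by positivity
  have hmem : ∀ r ∈ s, 1 ≤ r ∧ r ≤ R := fun r hr => mem_Icc.1 (mem_filter.1 hr).1
  have hone : ∀ r ∈ s, 1 ≤ Q * r := fun r hr => Nat.mul_pos hQ (hmem r hr).1
  have hadm : ∀ r ∈ s, Adm volume (SY Y) (pt θ (Q * r)) := by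
    intro r hr
    refine adm_mono ?_ (hpt _ (hone r hr)).1
    have hr1 : (1 : ℝ) ≤ r := by exact_mod_cast (hmem r hr).1
    have hr2 : (r : ℝ) ≤ R := by exact_mod_cast (hmem r hr).2
    rw [hY]
    push_cast
    refine div_le_div_of_nonneg_left h1.le (by positivity) ?_
    have : (Q : ℝ) * r ≤ Q * (R + 1) := mul_le_mul_of_nonneg_left (by linarith) hQ'.le
    linarith
  have hsum := ((hP1 SL(2, ℤ) HH volume (Gp N) _ (SY Y) (Co * (1 + 1 / Y)) mp_HH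
    (measurableSet_SY Y) (uchar N) (fun z s hs => hO Y z s hY0 hs)).2.2 s s
    (fun r => w (Q * r) / (Q * r : ℕ)) (fun r => w (Q * r) / (Q * r : ℕ))
    (fun r => pt θ (Q * r)) (fun r => pt θ (Q * r)) hadm hadm).1
  have hint : ∀ r ∈ s, Integrable (fun z => F z * pt θ (Q * r) z) := fun r hr =>
    (hcs Y _ K F _ hY0 hD hF hinv hK hb (hadm r hr) (hpt _ (hone r hr)).2).1
  have hmain := (hcs Y _ K F _ hY0 hD hF hinv hK hb hsum (fun z hz => by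
    obtain ⟨r, hr, hne⟩ := exists_ne_zero_of_sum_ne_zero hz
    exact (hpt _ (hone r hr)).2 z (right_ne_zero_of_mul hne))).2
  have heq : ∫ z : HH, F z * ∑ r ∈ s, w (Q * r) / (Q * r : ℕ) * pt θ (Q * r) z =
      ∑ r ∈ s, w (Q * r) * ((∫ z : HH, F z * pt θ (Q * r) z) / (Q * r : ℕ)) := by
    have : ∀ z : HH, F z * ∑ r ∈ s, w (Q * r) / (Q * r : ℕ) * pt θ (Q * r) z =
        ∑ r ∈ s, w (Q * r) / (Q * r : ℕ) * (F z * pt θ (Q * r) z) := by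
      intro z
      rw [mul_sum]
      exact sum_congr rfl fun r _ => by ring
    simp_rw [this]
    rw [integral_finset_sum _ fun r hr => (hint r hr).const_mul _]
    refine sum_congr rfl fun r _ => ?_
    rw [integral_const_mul]
    ring
  rw [heq] at hmain
  have hB := h0 A η₁ η₂ θ hθ Q R (fun r => w (Q * r)) hQ (fun r => hw _)
  refine hmain.trans ((mul_le_mul_of_nonneg_left hB (by positivity)).trans (le_of_eq ?_))
  ring

/-- Splitting the multiples of `Q` by their part supported on the primes of `Q N`. -/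
lemma split (hA2 : S_A2) {N Q : ℕ} (hN : 0 < N) (hQ : 0 < Q) (H : ℕ) :
    ∃ s : Finset ℕ, (∀ e ∈ s, 0 < e ∧ Q * e ≤ H ∧ ∀ p, p.Prime → p ∣ e → p ∣ Q * N) ∧
      ∀ f : ℕ → ℂ, ∑ h ∈ (Icc 1 H).filter (Q ∣ ·), f h =
        ∑ e ∈ s, ∑ r ∈ (Icc 1 (H / (Q * e))).filter (·.Coprime (Q * e * N)), f (Q * e * r) := by
  obtain ⟨hA, -, -⟩ := hA2
  have hfac : ∀ h ∈ (Icc 1 H).filter (Q ∣ ·), Q * (part h (Q * N) / Q) = part h (Q * N) := by
    intro h hh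
    obtain ⟨hh1, hh2⟩ := mem_filter.1 hh
    exact Nat.mul_div_cancel'
      ((hA h (Q * N) (mem_Icc.1 hh1).1).2.2.2.1 Q hh2 (Dvd.intro _ rfl))
  have hs : ∀ e ∈ ((Icc 1 H).filter (Q ∣ ·)).image (fun h => part h (Q * N) / Q),
      0 < Q * e ∧ Q * e ≤ H ∧ ∀ p, p.Prime → p ∣ Q * e → p ∣ Q * N := by
    intro e he
    obtain ⟨h, hh, rfl⟩ := mem_image.1 he
    rw [hfac h hh]
    obtain ⟨h1, h2⟩ := mem_Icc.1 (mem_filter.1 hh).1
    obtain ⟨a1, -, a3, -, -⟩ := hA h (Q * N) h1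
    exact ⟨Nat.pos_of_dvd_of_pos a1 h1, (Nat.le_of_dvd h1 a1).trans h2, a3⟩
  refine ⟨((Icc 1 H).filter (Q ∣ ·)).image (fun h => part h (Q * N) / Q), fun e he => ?_,
    fun f => ?_⟩
  · obtain ⟨a, b, c⟩ := hs e he
    exact ⟨Nat.pos_of_mul_pos_left a, b, fun p hp h => c p hp (h.mul_left _)⟩
  rw [← sum_fiberwise_of_maps_to (g := fun h => part h (Q * N) / Q)
    (fun h hh => mem_image_of_mem _ hh)]
  refine sum_congr rfl fun e he => ?_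
  obtain ⟨e0, eH, ep⟩ := hs e he
  have hself : part (Q * e) (Q * N) = Q * e := by
    obtain ⟨a1, a2, -, -, -⟩ := hA (Q * e) (Q * N) e0
    have : Q * e / part (Q * e) (Q * N) = 1 := by
      by_contra hne
      obtain ⟨p, hp, hd⟩ := Nat.exists_prime_and_dvd hne
      have h1 : p ∣ Q * N := ep p hp (hd.trans (Nat.div_dvd_of_dvd a1))
      exact hp.one_lt.ne' (Nat.eq_one_of_dvd_coprimes a2 hd h1)
    have h2 := Nat.mul_div_cancel' a1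
    rw [this, mul_one] at h2
    exact h2
  symm
  refine sum_nbij' (fun r => Q * e * r) (fun h => h / (Q * e)) ?_ ?_ ?_ ?_ (fun _ _ => rfl)
  · intro r hr
    obtain ⟨hr1, hr2⟩ := mem_filter.1 hr
    obtain ⟨r1, r2⟩ := mem_Icc.1 hr1
    have hcop : r.Coprime (Q * N) :=
      hr2.coprime_dvd_right ⟨e, by ring⟩
    refine mem_filter.2 ⟨mem_filter.2 ⟨mem_Icc.2 ⟨Nat.mul_pos e0 r1, ?_⟩, ⟨e * r, by ring⟩⟩, ?_⟩
    · rw [mul_comm]
      exact (Nat.le_div_iff_mul_le e0).1 r2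
    · rw [mul_comm (Q * e) r, (hA (Q * e) (Q * N) e0).2.2.2.2 r r1 hcop, hself,
        Nat.mul_div_cancel_left _ hQ]
  · intro h hh
    obtain ⟨hh1, hh2⟩ := mem_filter.1 hh
    have hp : Q * e = part h (Q * N) := by rw [← hh2]; exact hfac h hh1
    obtain ⟨h1, h2⟩ := mem_Icc.1 (mem_filter.1 hh1).1
    obtain ⟨a1, a2, a3, -, -⟩ := hA h (Q * N) h1
    rw [← hp] at a1 a2
    refine mem_filter.2 ⟨mem_Icc.2 ⟨Nat.div_pos (Nat.le_of_dvd h1 a1) e0,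
      Nat.div_le_div_right h2⟩, ?_⟩
    refine Nat.coprime_of_dvd fun p hp hd hd' => ?_
    have h3 : p ∣ Q * N := by
      rcases (Nat.Prime.dvd_mul hp).1 hd' with h4 | h4
      · exact ep p hp h4
      · exact h4.mul_left _
    exact hp.one_lt.ne' (Nat.eq_one_of_dvd_coprimes a2 hd h3)
  · intro r _
    exact Nat.mul_div_cancel_left _ e0
  · intro h hh
    obtain ⟨hh1, hh2⟩ := mem_filter.1 hh
    have hp : Q * e = part h (Q * N) := by rw [← hh2]; exact hfac h hh1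
    obtain ⟨h1, -⟩ := mem_Icc.1 (mem_filter.1 hh1).1
    have a1 := (hA h (Q * N) h1).1
    rw [← hp] at a1
    exact Nat.mul_div_cancel' a1

/-- The numerical comparison of one block with the final bound. -/
lemma num {η₁ M : ℝ} (h1 : 0 < η₁) (hM : 0 ≤ M) {Q e H : ℕ} (hQ : 1 ≤ Q) (he : 0 < e)
    (hH : Q * e ≤ H) :
    M / (Q * e : ℕ) * tau (Q * e) ^ 3 * (1 + Real.log (1 + 4 * ((Q * e : ℕ) : ℝ) ^ 2 / η₁)) *
      (1 + Real.log (1 + (H / (Q * e) : ℕ))) ^ 3 * Real.sqrt (1 + (Q * e : ℕ) / η₁) *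
      Real.sqrt (1 + ((H / (Q * e) : ℕ) : ℝ) ^ 2 / η₁) ≤
    (M / Q * tau Q ^ 3 * (1 + Real.log (1 + H + 4 * (H : ℝ) ^ 2 / η₁)) ^ 4 *
      Real.sqrt (1 + Q / η₁) * Real.sqrt (1 + (H : ℝ) ^ 2 / ((Q : ℝ) ^ 2 * η₁))) *
      (tau e ^ 2 * (e : ℝ) ^ (-(1 / 4 : ℝ))) ^ 2 := by
  have hQ' : (1 : ℝ) ≤ Q := by exact_mod_cast hQ
  have he' : (1 : ℝ) ≤ e := by exact_mod_cast he
  have hH' : ((Q * e : ℕ) : ℝ) ≤ H := by exact_mod_cast hH
  have hH0 : (0 : ℝ) ≤ H := Nat.cast_nonneg _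
  set L := 1 + Real.log (1 + H + 4 * (H : ℝ) ^ 2 / η₁) with hL
  have hq0 : (0 : ℝ) ≤ 4 * (H : ℝ) ^ 2 / η₁ := by positivity
  have hR : ((H / (Q * e) : ℕ) : ℝ) ≤ H / Q := by
    refine Nat.cast_div_le.trans (div_le_div_of_nonneg_left hH0 (by positivity) ?_)
    push_cast
    nlinarith
  have hR' : ((H / (Q * e) : ℕ) : ℝ) ≤ H := by exact_mod_cast Nat.div_le_self _ _
  have a1 : 1 + Real.log (1 + 4 * ((Q * e : ℕ) : ℝ) ^ 2 / η₁) ≤ L := by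
    have : 4 * ((Q * e : ℕ) : ℝ) ^ 2 / η₁ ≤ 4 * (H : ℝ) ^ 2 / η₁ := by gcongr
    have := Real.log_le_log (by positivity) (show 1 + 4 * ((Q * e : ℕ) : ℝ) ^ 2 / η₁ ≤
      1 + H + 4 * (H : ℝ) ^ 2 / η₁ by linarith)
    linarith
  have a1' : 0 ≤ 1 + Real.log (1 + 4 * ((Q * e : ℕ) : ℝ) ^ 2 / η₁) := by
    have := Real.log_nonneg (show 1 ≤ 1 + 4 * ((Q * e : ℕ) : ℝ) ^ 2 / η₁ from
      le_add_of_nonneg_right (by positivity))
    linarith
  have a2 : 1 + Real.log (1 + (H / (Q * e) : ℕ)) ≤ L := by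
    have := Real.log_le_log (by positivity) (show 1 + ((H / (Q * e) : ℕ) : ℝ) ≤
      1 + H + 4 * (H : ℝ) ^ 2 / η₁ by linarith)
    linarith
  have a2' : 0 ≤ 1 + Real.log (1 + (H / (Q * e) : ℕ)) := by
    have := Real.log_nonneg (show 1 ≤ 1 + ((H / (Q * e) : ℕ) : ℝ) from
      le_add_of_nonneg_right (by positivity))
    linarith
  have hL0 : 0 ≤ L := a1'.trans a1
  have a3 : Real.sqrt (1 + (Q * e : ℕ) / η₁) ≤ Real.sqrt e * Real.sqrt (1 + Q / η₁) := by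
    rw [← Real.sqrt_mul (by positivity)]
    refine Real.sqrt_le_sqrt ?_
    push_cast
    have : (e : ℝ) * (1 + Q / η₁) = e + Q * e / η₁ := by ring
    linarith
  have a4 : Real.sqrt (1 + ((H / (Q * e) : ℕ) : ℝ) ^ 2 / η₁) ≤
      Real.sqrt (1 + (H : ℝ) ^ 2 / ((Q : ℝ) ^ 2 * η₁)) := by
    refine Real.sqrt_le_sqrt ?_
    have : ((H / (Q * e) : ℕ) : ℝ) ^ 2 / η₁ ≤ ((H : ℝ) / Q) ^ 2 / η₁ := by gcongr
    have h2 : ((H : ℝ) / Q) ^ 2 / η₁ = (H : ℝ) ^ 2 / ((Q : ℝ) ^ 2 * η₁) := by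
      field_simp
    linarith
  have t1 : 1 ≤ tau e := one_le_tau he
  have tQ : 0 ≤ tau Q := tau_nonneg Q
  have a5 : tau (Q * e) ^ 3 ≤ tau Q ^ 3 * tau e ^ 4 := by
    calc tau (Q * e) ^ 3 ≤ (tau Q * tau e) ^ 3 :=
          pow_le_pow_left₀ (tau_nonneg _) (tau_mul_le Q e) 3
      _ = tau Q ^ 3 * tau e ^ 3 := mul_pow _ _ _
      _ ≤ tau Q ^ 3 * tau e ^ 4 :=
          mul_le_mul_of_nonneg_left (pow_le_pow_right₀ t1 (by norm_num)) (by positivity)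
  have a6 : ((e : ℝ) ^ (-(1 / 4 : ℝ))) ^ 2 = Real.sqrt e / e := by
    rw [← Real.rpow_natCast, ← Real.rpow_mul (by positivity), Real.sqrt_eq_rpow,
      eq_div_iff (by positivity), ← Real.rpow_add_one (by positivity)]
    norm_num
  have t0 : 0 ≤ tau (Q * e) := tau_nonneg _
  calc _ ≤ M / (Q * e : ℕ) * (tau Q ^ 3 * tau e ^ 4) * L * L ^ 3 *
        (Real.sqrt e * Real.sqrt (1 + Q / η₁)) *
        Real.sqrt (1 + (H : ℝ) ^ 2 / ((Q : ℝ) ^ 2 * η₁)) := by gcongr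
    _ = _ := by
      rw [mul_pow (tau e ^ 2), a6]
      push_cast
      field_simp

end PB

theorem pb (hA2 : S_A2) (hP1 : S_P1) (hP1c : S_P1c) (hOv : S_Ov) (hSh : S_Sh) (hPt : S_Pt)
    (h0 : S_PB0) : S_PB := by
  intro N hN
  obtain ⟨C1, hC1, hbl⟩ := PB.block hP1 hP1c hOv hSh hPt h0 hN
  obtain ⟨Ca, hCa⟩ := hA2.2.1 (1 / 4) 2 (by norm_num)
  obtain ⟨C, hC⟩ := exists_nat_ge (max (C1 * (Ca * tau N ^ Ca) ^ 2) ((3 + 2 * Ca : ℕ) : ℝ))
  have hCa1 : C1 * (Ca * tau N ^ Ca) ^ 2 ≤ C := (le_max_left _ _).trans hC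
  have hCa2 : 3 + 2 * Ca ≤ C := by exact_mod_cast (le_max_right _ _).trans hC
  refine ⟨C, fun A η₁ η₂ K θ F hθ hF hinv hK hb Q H w hQ hw => ?_⟩
  have h2 : 0 < η₂ := hθ.pos
  have h1 : 0 < η₁ := h2.trans_le hθ.le
  obtain ⟨s, hs, hsplit⟩ := PB.split hA2 hN hQ H
  rw [hsplit fun h => w h * ((∫ z : HH, F z * pt θ h z) / h)]
  have tQ : 1 ≤ tau Q := one_le_tau hQ
  have tN : 0 ≤ tau N := tau_nonneg N
  have hlog : 0 ≤ Real.log (1 + H + 4 * (H : ℝ) ^ 2 / η₁) :=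
    Real.log_nonneg (by
      have : (0 : ℝ) ≤ H + 4 * (H : ℝ) ^ 2 / η₁ := by positivity
      linarith)
  set E : ℝ := (1 + Real.log (1 + H + 4 * (H : ℝ) ^ 2 / η₁)) ^ 4 with hE
  set S₁ : ℝ := Real.sqrt (1 + Q / η₁) with hS₁
  set S₂ : ℝ := Real.sqrt (1 + (H : ℝ) ^ 2 / ((Q : ℝ) ^ 2 * η₁)) with hS₂
  have hE0 : 0 ≤ E := by positivity
  have hS₁0 : 0 ≤ S₁ := Real.sqrt_nonneg _
  have hS₂0 : 0 ≤ S₂ := Real.sqrt_nonneg _
  set B : ℝ := C1 * K ^ 2 * (η₁ / η₂) ^ 3 *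
    (A ^ 2 / η₂ * (1 + η₂) / Q * tau Q ^ 3 * E * S₁ * S₂) with hB
  have hB0 : 0 ≤ B := by positivity
  have hblock : ∀ e ∈ s, ‖∑ r ∈ (Icc 1 (H / (Q * e))).filter (·.Coprime (Q * e * N)),
      w (Q * e * r) * ((∫ z : HH, F z * pt θ (Q * e * r) z) / (Q * e * r : ℕ))‖ ≤
      Real.sqrt B * (tau e ^ 2 * (e : ℝ) ^ (-(1 / 4 : ℝ))) := by
    intro e he
    obtain ⟨e0, eH, -⟩ := hs e he
    have a := hbl A η₁ η₂ K θ F hθ hF hinv hK hb (Q * e) (H / (Q * e)) w (Nat.mul_pos hQ e0) hw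
    have b := PB.num h1 (show 0 ≤ A ^ 2 / η₂ * (1 + η₂) by positivity) hQ e0 eH
    refine (abs_le_of_sq_le_sq' ?_ (by positivity)).2
    rw [mul_pow, Real.sq_sqrt hB0]
    refine a.trans ((mul_le_mul_of_nonneg_left b (by positivity)).trans (le_of_eq ?_))
    rw [hB]
    ring
  have hsum := hCa (Q * N) s (Nat.mul_pos hQ hN) fun e he => ⟨(hs e he).1, (hs e he).2.2⟩
  have htau : tau (Q * N) ^ Ca ≤ tau Q ^ Ca * tau N ^ Ca := by
    rw [← mul_pow]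
    exact pow_le_pow_left₀ (tau_nonneg _) (tau_mul_le Q N) Ca
  have hnorm := (norm_sum_le _ _).trans (sum_le_sum hblock)
  rw [← mul_sum] at hnorm
  have hn2 := hnorm.trans (mul_le_mul_of_nonneg_left
    (hsum.trans (mul_le_mul_of_nonneg_left htau (Nat.cast_nonneg _))) (Real.sqrt_nonneg B))
  refine (pow_le_pow_left₀ (norm_nonneg _) hn2 2).trans ?_
  rw [mul_pow, Real.sq_sqrt hB0]
  have hp : tau Q ^ (3 + 2 * Ca) ≤ tau Q ^ C := pow_le_pow_right₀ tQ hCa2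
  calc B * (Ca * (tau Q ^ Ca * tau N ^ Ca)) ^ 2
      = C1 * (Ca * tau N ^ Ca) ^ 2 * K ^ 2 * (η₁ / η₂) ^ 3 * (A ^ 2 / η₂) * (1 + η₂) / Q *
        tau Q ^ (3 + 2 * Ca) * E * S₁ * S₂ := by
        rw [hB]
        ring
    _ ≤ _ := by gcongr

end MR
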