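import Pool.Agent.P.MP_79de8b_nt.Ms

/-! The norm of a combination of Poincaré series with frequencies `Q r`. -/

open Complex UpperHalfPlane MeasureTheory Finset CongruenceSubgroup Filter Topology
open scoped Real MatrixGroups ComplexConjugate

noncomputable section
namespace MR
namespace PB0

/-- The indicator of `Gp N` as an average of characters. -/
lemma ind_eq {N : ℕ} [NeZero N] (γ : SL(2, ℤ)) :
    Set.indicator (Gp N : Set SL(2, ℤ)) (fun _ => (1 : ℂ)) γ =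
      ∑ χ : DirichletCharacter ℂ N, (N.totient : ℂ)⁻¹ * wt (N ^ 2) χ.primitiveCharacter γ := by
  have hφ : (N.totient : ℂ) ≠ 0 := by
    exact_mod_cast (Nat.totient_pos.2 (NeZero.pos N)).ne'
  rw [← mul_sum]
  by_cases h : ((N ^ 2 : ℕ) : ℤ) ∣ γ 1 0
  · have hN : (N : ℤ) ∣ γ 1 0 := (Dvd.intro (N : ℤ) (by push_cast; ring)).trans h
    have h0 : ((γ 1 0 : ℤ) : ZMod N) = 0 := (ZMod.intCast_zmod_eq_zero_iff_dvd _ _).2 hN
    have hd := det_sl γ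
    have hc : IsCoprime (γ 1 1) (N : ℤ) := by
      obtain ⟨k, hk⟩ := hN
      exact ⟨γ 0 0, -(γ 0 1 * k), by linear_combination hd + γ 0 1 * hk⟩
    have hd' : ((γ 0 0 : ℤ) : ZMod N) * ((γ 1 1 : ℤ) : ZMod N) = 1 := by
      have := congrArg (Int.cast : ℤ → ZMod N) hd
      push_cast at this
      rw [h0] at this
      simpa using this
    simp only [wt, if_pos h, DirichletCharacter.primitiveCharacter_apply_of_isCoprime _ hc]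
    rw [DirichletCharacter.sum_characters_eq]
    have hm : γ ∈ (Gp N : Set SL(2, ℤ)) ↔ ((γ 1 1 : ℤ) : ZMod N) = 1 := by
      simp only [Gp, SetLike.mem_coe, Subgroup.mem_inf, Gamma0_mem, Gamma1_mem]
      constructor
      · exact fun h => h.2.2.1
      · intro h1
        refine ⟨(ZMod.intCast_zmod_eq_zero_iff_dvd _ _).2 h, ?_, h1, h0⟩
        rwa [h1, mul_one] at hd'
    split_ifs with h1
    · rw [Set.indicator_of_mem (hm.2 h1), inv_mul_cancel₀ hφ]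
    · rw [Set.indicator_of_notMem (fun h2 => h1 (hm.1 h2)), mul_zero]
  · simp only [wt, if_neg h, sum_const_zero, mul_zero]
    refine Set.indicator_of_notMem (fun h2 => h ?_) _
    simp only [Gp, SetLike.mem_coe, Subgroup.mem_inf, Gamma0_mem] at h2
    exact (ZMod.intCast_zmod_eq_zero_iff_dvd _ _).1 h2.1

lemma norm_wt_le (M : ℕ) {N₀ : ℕ} (χ : DirichletCharacter ℂ N₀) (γ : SL(2, ℤ)) :
    ‖wt M χ γ‖ ≤ 1 := by
  unfold wt; split_ifs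
  · exact χ.norm_le_one _
  · simp

/-- The form is linear in the weight. -/
lemma Bf_sum {ι : Type} (s : Finset ι) (c : ℂ) (w : ι → SL(2, ℤ) → ℂ) (hw : ∀ i g, ‖w i g‖ ≤ 1)
    (φ ψ : HH → ℂ) (hs : Summable fun g : SL(2, ℤ) => ∫ z, ‖φ z‖ * ‖ψ (g • z)‖) :
    Bf volume (fun g => ∑ i ∈ s, c * w i g) φ ψ = ∑ i ∈ s, c * Bf volume (w i) φ ψ := by
  unfold Bf
  have h1 : ∀ i, Summable fun g : SL(2, ℤ) => w i g * ∫ z : HH, φ z * conj (ψ (g • z)) := by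
    intro i
    refine Summable.of_norm_bounded hs fun g => ?_
    rw [norm_mul]
    refine (mul_le_of_le_one_left (norm_nonneg _) (hw i g)).trans ?_
    refine (norm_integral_le_integral_norm _).trans (le_of_eq ?_)
    simp
  simp_rw [sum_mul, ← tsum_mul_left, mul_assoc]
  exact Summable.tsum_finsetSum fun i _ => (h1 i).mul_left c

lemma measurableSet_SY (Y : ℝ) : MeasurableSet (SY Y) := by
  have h1 : Measurable fun z : HH => z.1.im :=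
    UpperHalfPlane.continuous_im.measurable.comp measurable_fst
  have h2 : Measurable fun z : HH => z.2.re :=
    UpperHalfPlane.continuous_re.measurable.comp measurable_snd
  exact (measurableSet_le measurable_const h1).inter
    ((measurableSet_le measurable_const h2).inter (measurableSet_lt h2 measurable_const))

lemma adm_pt (hPt : S_Pt) {A η₁ η₂ : ℝ} {θ : ℂ → ℝ → ℂ} (hθ : Prof A η₁ η₂ θ) {h H : ℕ}
    (h1 : 1 ≤ h) (hH : h ≤ H) : Adm volume (SY (η₁ / (2 * H))) (pt θ h) := by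
  have := ((hPt A η₁ η₂ θ hθ).1 h h1).1
  refine ⟨this.meas, this.l2, fun z hz => this.supp z fun hz' => hz ⟨le_trans ?_ hz'.1, hz'.2⟩⟩
  have hη : 0 < η₁ := hθ.pos.trans_le hθ.le
  have : (0 : ℝ) < h := by exact_mod_cast h1
  gcongr

/-- The specialisation of `S_P1`. -/
lemma p1 (hP1 : S_P1) {C : ℝ} (hOv : ∀ (Y : ℝ) (z : HH) (s : Finset SL(2, ℤ)), 0 < Y →
    (∀ g ∈ s, g • z ∈ SY Y) → (s.card : ℝ) ≤ C * (1 + 1 / Y))
    {H : Subgroup SL(2, ℤ)} {w : SL(2, ℤ) → ℂ} (hw : UChar H w) {Y : ℝ} (hY : 0 < Y) :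
    (∀ φ ψ, Adm volume (SY Y) φ → Adm volume (SY Y) ψ →
      Summable (fun g : SL(2, ℤ) => ∫ z, ‖φ z‖ * ‖ψ (g • z)‖) ∧
      ‖Bf volume w φ ψ‖ ^ 2 ≤ ‖Bf volume w φ φ‖ * ‖Bf volume w ψ ψ‖) ∧
    (∀ ψ, Adm volume (SY Y) ψ → ‖Bf volume w ψ ψ‖ ≤ C * (1 + 1 / Y) * ∫ z, ‖ψ z‖ ^ 2) ∧
    (∀ (s t : Finset ℕ) (x y : ℕ → ℂ) (φ ψ : ℕ → HH → ℂ), (∀ i ∈ s, Adm volume (SY Y) (φ i)) →
      (∀ j ∈ t, Adm volume (SY Y) (ψ j)) →
      Adm volume (SY Y) (fun z => ∑ i ∈ s, x i * φ i z) ∧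
      Bf volume w (fun z => ∑ i ∈ s, x i * φ i z) (fun z => ∑ j ∈ t, y j * ψ j z) =
        ∑ i ∈ s, ∑ j ∈ t, x i * conj (y j) * Bf volume w (φ i) (ψ j)) :=
  hP1 SL(2, ℤ) HH volume H w (SY Y) (C * (1 + 1 / Y)) mp_HH (measurableSet_SY Y) hw
    fun z s hs => hOv Y z s hY hs

/-- The square norm of a combination of test functions. -/
lemma norm_sq_comb (hPt : S_Pt) {A η₁ η₂ : ℝ} {θ : ℂ → ℝ → ℂ} (hθ : Prof A η₁ η₂ θ) (H : ℕ)
    (x : ℕ → ℂ) :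
    ∫ z : HH, ‖∑ n ∈ Icc 1 H, x n * pt θ n z‖ ^ 2 = DD θ * ∑ n ∈ Icc 1 H, ‖x n‖ ^ 2 * n := by
  obtain ⟨h1, -, h3⟩ := hPt A η₁ η₂ θ hθ
  have hi : ∀ m ∈ Icc 1 H, ∀ n ∈ Icc 1 H,
      Integrable fun z : HH => x m * conj (x n) * (pt θ m z * conj (pt θ n z)) := by
    intro m hm n hn
    exact (MemLp.integrable_mul (h1 m (mem_Icc.1 hm).1).1.l2
      (h1 n (mem_Icc.1 hn).1).1.l2.star).const_mul _
  apply Complex.ofReal_injective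
  rw [← integral_complex_ofReal]
  have e : ∀ z : HH, ((‖∑ n ∈ Icc 1 H, x n * pt θ n z‖ ^ 2 : ℝ) : ℂ) =
      ∑ m ∈ Icc 1 H, ∑ n ∈ Icc 1 H, x m * conj (x n) * (pt θ m z * conj (pt θ n z)) := by
    intro z
    push_cast
    rw [← Complex.mul_conj', map_sum, sum_mul_sum]
    refine sum_congr rfl fun m _ => sum_congr rfl fun n _ => ?_
    rw [map_mul]; ring
  simp_rw [e]
  rw [integral_finsetSum _ fun m hm => integrable_finsetSum _ (hi m hm)]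
  push_cast
  rw [mul_sum]
  refine sum_congr rfl fun m hm => ?_
  rw [integral_finsetSum _ (hi m hm)]
  rw [sum_eq_single m]
  · rw [integral_const_mul, h3 m m (mem_Icc.1 hm).1 (mem_Icc.1 hm).1, if_pos rfl,
      Complex.mul_conj']
    ring
  · intro n hn hne
    rw [integral_const_mul, h3 m n (mem_Icc.1 hm).1 (mem_Icc.1 hn).1, if_neg hne.symm, mul_zero]
  · exact fun h => absurd hm h

/-- The coefficients after regrouping. -/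
def cn (T : Finset ℕ) (a : ℕ → ℕ → ℕ → ℂ) (n : ℕ) : ℂ :=
  ∑ r ∈ T, ∑ r' ∈ T, ∑ δ ∈ (r.gcd r').divisors, if r / δ * (r' / δ) = n then a r r' δ else 0

lemma regroup {T : Finset ℕ} {R : ℕ} (hT : T ⊆ Icc 1 R) (a : ℕ → ℕ → ℕ → ℂ) (B : ℕ → ℂ) :
    ∑ r ∈ T, ∑ r' ∈ T, ∑ δ ∈ (r.gcd r').divisors, a r r' δ * B (r / δ * (r' / δ)) =
      ∑ n ∈ Icc 1 (R ^ 2), cn T a n * B n := by
  unfold cn
  simp_rw [sum_mul]
  rw [sum_comm (s := Icc 1 (R ^ 2))]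
  refine sum_congr rfl fun r hr => ?_
  rw [sum_comm (s := Icc 1 (R ^ 2))]
  refine sum_congr rfl fun r' hr' => ?_
  rw [sum_comm (s := Icc 1 (R ^ 2))]
  refine sum_congr rfl fun δ hδ => ?_
  simp_rw [ite_mul, zero_mul]
  rw [sum_ite_eq, if_pos]
  obtain ⟨h1, h2⟩ := mem_Icc.1 (hT hr)
  obtain ⟨h3, h4⟩ := mem_Icc.1 (hT hr')
  have hd := Nat.dvd_of_mem_divisors hδ
  have hδ0 := Nat.pos_of_mem_divisors hδ
  have d1 : δ ∣ r := hd.trans (Nat.gcd_dvd_left _ _)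
  have d2 : δ ∣ r' := hd.trans (Nat.gcd_dvd_right _ _)
  refine mem_Icc.2 ⟨Nat.mul_pos (Nat.div_pos (Nat.le_of_dvd h1 d1) hδ0)
    (Nat.div_pos (Nat.le_of_dvd h3 d2) hδ0), ?_⟩
  rw [sq]
  exact Nat.mul_le_mul ((Nat.div_le_self _ _).trans h2) ((Nat.div_le_self _ _).trans h4)

lemma norm_cn_le {T : Finset ℕ} {R : ℕ} (hT : T ⊆ Icc 1 R) {a : ℕ → ℕ → ℕ → ℂ}
    (ha : ∀ r r' δ, ‖a r r' δ‖ ≤ (δ : ℝ)⁻¹) {n : ℕ} (hn : 1 ≤ n) :
    ‖cn T a n‖ ≤ tau n * (1 + Real.log R) := by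
  have h1 : ‖cn T a n‖ ≤ ∑ r ∈ T, ∑ r' ∈ T, ∑ δ ∈ Icc 1 R,
      if δ ∣ r ∧ δ ∣ r' ∧ r / δ * (r' / δ) = n then (δ : ℝ)⁻¹ else 0 := by
    unfold cn
    refine (norm_sum_le _ _).trans (sum_le_sum fun r hr => ?_)
    refine (norm_sum_le _ _).trans (sum_le_sum fun r' hr' => ?_)
    refine (norm_sum_le _ _).trans ?_
    obtain ⟨h1, h2⟩ := mem_Icc.1 (hT hr)
    calc _ ≤ ∑ δ ∈ (r.gcd r').divisors,
          if δ ∣ r ∧ δ ∣ r' ∧ r / δ * (r' / δ) = n then (δ : ℝ)⁻¹ else 0 := by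
          refine sum_le_sum fun δ hδ => ?_
          have hd := Nat.dvd_of_mem_divisors hδ
          have d1 : δ ∣ r := hd.trans (Nat.gcd_dvd_left _ _)
          have d2 : δ ∣ r' := hd.trans (Nat.gcd_dvd_right _ _)
          simp only [d1, d2, true_and]
          split_ifs
          · exact ha _ _ _
          · simp
      _ ≤ _ := by
          refine sum_le_sum_of_subset_of_nonneg (fun δ hδ => ?_) fun δ _ _ => by
            split_ifs <;> positivity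
          have hd := Nat.dvd_of_mem_divisors hδ
          exact mem_Icc.2 ⟨Nat.pos_of_mem_divisors hδ,
            (Nat.le_of_dvd h1 (hd.trans (Nat.gcd_dvd_left _ _))).trans h2⟩
  refine h1.trans ?_
  rw [← sum_product', sum_comm]
  calc _ ≤ ∑ δ ∈ Icc 1 R, tau n * (δ : ℝ)⁻¹ := by
        refine sum_le_sum fun δ hδ => ?_
        rw [← sum_filter, sum_const, nsmul_eq_mul]
        gcongr
        unfold tau
        refine Nat.cast_le.2 (card_le_card_of_injOn (fun p => p.1 / δ) (fun p hp => ?_) ?_)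
        · obtain ⟨-, -, -, h⟩ := mem_filter.1 hp
          exact Nat.mem_divisors.2 ⟨Dvd.intro _ h, by omega⟩
        · intro p hp q hq hpq
          obtain ⟨-, p1, p2, p3⟩ := mem_filter.1 hp
          obtain ⟨-, q1, q2, q3⟩ := mem_filter.1 hq
          simp only at hpq
          have h0 : 0 < q.1 / δ := Nat.pos_of_ne_zero fun h => by
            rw [h, zero_mul] at q3; omega
          have h2 : p.2 / δ = q.2 / δ := by
            rw [hpq, ← q3] at p3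
            exact Nat.eq_of_mul_eq_mul_left h0 p3
          ext
          · rw [← Nat.mul_div_cancel' p1, ← Nat.mul_div_cancel' q1, hpq]
          · rw [← Nat.mul_div_cancel' p2, ← Nat.mul_div_cancel' q2, h2]
    _ ≤ _ := by
        rw [← mul_sum]
        exact mul_le_mul_of_nonneg_left (sum_inv_le_log R) (tau_nonneg n)

lemma key (x y : ℂ) {Q r r' δ : ℕ} (hQ : 0 < Q) (hr : 0 < r) (hr' : 0 < r') (h : δ ∣ r)
    (h' : δ ∣ r') :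
    x / (Q * r : ℕ) * conj (y / (Q * r' : ℕ)) *
        (Real.sqrt (((Q * r : ℕ) : ℝ) * (Q * r' : ℕ)) : ℝ) =
      (Q : ℂ)⁻¹ * (x * conj y / δ) / (Real.sqrt (r / δ * (r' / δ) : ℕ) : ℝ) := by
  obtain ⟨s, rfl⟩ := h
  obtain ⟨s', rfl⟩ := h'
  have hδ : 0 < δ := Nat.pos_of_mul_pos_right hr
  have hs : 0 < s := Nat.pos_of_mul_pos_left hr
  have hs' : 0 < s' := Nat.pos_of_mul_pos_left hr'
  rw [Nat.mul_div_cancel_left _ hδ, Nat.mul_div_cancel_left _ hδ]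
  obtain ⟨t, ht⟩ : ∃ t, t = Real.sqrt (s * s' : ℕ) := ⟨_, rfl⟩
  have ht0 : 0 < t := by rw [ht]; exact Real.sqrt_pos.2 (by positivity)
  have ht2 : t ^ 2 = s * s' := by rw [ht, Real.sq_sqrt (by positivity)]; push_cast; ring
  have e : Real.sqrt (((Q * (δ * s) : ℕ) : ℝ) * (Q * (δ * s') : ℕ)) = Q * δ * t := by
    rw [Real.sqrt_eq_iff_mul_self_eq (by positivity) (by positivity)]
    push_cast
    linear_combination -((Q : ℝ) ^ 2 * δ ^ 2) * ht2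
  rw [e, ← ht, map_div₀, Complex.conj_natCast]
  have h1 : (t : ℂ) ^ 2 = s * s' := by exact_mod_cast ht2
  have h2 : (t : ℂ) ≠ 0 := by exact_mod_cast ht0.ne'
  have h3 : (Q : ℂ) ≠ 0 := by exact_mod_cast hQ.ne'
  have h4 : (δ : ℂ) ≠ 0 := by exact_mod_cast hδ.ne'
  have h5 : (s : ℂ) ≠ 0 := by exact_mod_cast hs.ne'
  have h6 : (s' : ℂ) ≠ 0 := by exact_mod_cast hs'.ne'
  push_cast
  field_simp
  linear_combination x * conj y * h1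

lemma norm_one_add {N₀ : ℕ} (χ : DirichletCharacter ℂ N₀) : ‖1 + χ (-1)‖ ≤ 2 := by
  refine (norm_add_le _ _).trans ?_
  have := χ.norm_le_one (-1)
  rw [norm_one]; linarith

/-- Cauchy-Schwarz in the positive kernel. -/
lemma one (hA1 : S_A1) (hP1 : S_P1) (hPt : S_Pt) (hKer : S_Ker) {Co Cb : ℝ} (hCo : 0 ≤ Co)
    (hOv : ∀ (Y : ℝ) (z : HH) (s : Finset SL(2, ℤ)), 0 < Y →
      (∀ g ∈ s, g • z ∈ SY Y) → (s.card : ℝ) ≤ Co * (1 + 1 / Y))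
    {A η₁ η₂ : ℝ} {θ : ℂ → ℝ → ℂ} (hθ : Prof A η₁ η₂ θ)
    {M N₀ : ℕ} (χ : DirichletCharacter ℂ N₀) (hM : 0 < M) (hN : N₀ ∣ M) {k R : ℕ} (hk : 1 ≤ k)
    (hR : 1 ≤ R) (hb : ‖Bn (DD θ) (jj θ) M χ (k ^ 2) (k ^ 2)‖ ≤ Cb)
    {c : ℕ → ℂ} (hc : ∀ n, 1 ≤ n → ‖c n‖ ≤ tau n * (1 + Real.log R)) :
    ‖∑ n ∈ Icc 1 (R ^ 2), c n *
      ((1 + χ (-1)) * Bn (DD θ) (jj θ) M χ (k ^ 2) n / (Real.sqrt n : ℝ))‖ ^ 2 ≤
      2 * Cb * (Co * (1 + 2 * (R : ℝ) ^ 2 / η₁) * (9 * A ^ 2 / η₂ *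
        ((1 + Real.log R) ^ 2 * (1 + Real.log (R ^ 2 : ℕ)) ^ 4))) := by
  obtain ⟨hU, hB⟩ := hKer A η₁ η₂ θ hθ M N₀ χ hM hN
  have hη : 0 < η₁ := hθ.pos.trans_le hθ.le
  have hη₂ := hθ.pos
  have hk0 : (0 : ℝ) < k := by exact_mod_cast hk
  have hR0 : (0 : ℝ) < R := by exact_mod_cast hR
  have hk2 : 1 ≤ k ^ 2 := Nat.one_le_pow _ _ hk
  have hR2 : 1 ≤ R ^ 2 := Nat.one_le_pow _ _ hR
  obtain ⟨Ψ, hΨ⟩ : ∃ Ψ : HH → ℂ,
      Ψ = fun z => ∑ n ∈ Icc 1 (R ^ 2), conj (c n / n) * pt θ n z := ⟨_, rfl⟩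
  obtain ⟨a1, -, a3⟩ := p1 hP1 hOv hU (Y := η₁ / (2 * (k ^ 2 + R ^ 2 : ℕ))) (by positivity)
  obtain ⟨-, b2, b3⟩ := p1 hP1 hOv hU (Y := η₁ / (2 * (R ^ 2 : ℕ))) (by positivity)
  have adk := adm_pt hPt hθ hk2 (Nat.le_add_right (k ^ 2) (R ^ 2))
  have adn : ∀ n ∈ Icc 1 (R ^ 2), Adm volume (SY (η₁ / (2 * (k ^ 2 + R ^ 2 : ℕ)))) (pt θ n) :=
    fun n hn => adm_pt hPt hθ (mem_Icc.1 hn).1 ((mem_Icc.1 hn).2.trans (Nat.le_add_left _ _))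
  have adn' : ∀ n ∈ Icc 1 (R ^ 2), Adm volume (SY (η₁ / (2 * (R ^ 2 : ℕ)))) (pt θ n) :=
    fun n hn => adm_pt hPt hθ (mem_Icc.1 hn).1 (mem_Icc.1 hn).2
  have adΨ : Adm volume (SY (η₁ / (2 * (k ^ 2 + R ^ 2 : ℕ)))) Ψ :=
    hΨ ▸ (a3 _ _ (fun n => conj (c n / n)) (fun n => conj (c n / n)) _ _ adn adn).1
  have adΨ' : Adm volume (SY (η₁ / (2 * (R ^ 2 : ℕ)))) Ψ :=
    hΨ ▸ (b3 _ _ (fun n => conj (c n / n)) (fun n => conj (c n / n)) _ _ adn' adn').1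
  have e1 : Bf volume (wt M χ) (pt θ (k ^ 2)) Ψ = k * ∑ n ∈ Icc 1 (R ^ 2), c n *
      ((1 + χ (-1)) * Bn (DD θ) (jj θ) M χ (k ^ 2) n / (Real.sqrt n : ℝ)) := by
    have := (a3 {k ^ 2} (Icc 1 (R ^ 2)) (fun _ => 1) (fun n => conj (c n / n)) (pt θ) (pt θ)
      (fun i hi => by rw [mem_singleton.1 hi]; exact adk) adn).2
    simp only [sum_singleton, one_mul] at this
    rw [hΨ, mul_sum]
    refine this.trans (sum_congr rfl fun n hn => ?_)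
    have hn1 := (mem_Icc.1 hn).1
    have hn0 : (0 : ℝ) < n := by exact_mod_cast hn1
    rw [hB _ _ hk2 hn1, Complex.conj_conj]
    obtain ⟨t, ht⟩ : ∃ t, t = Real.sqrt n := ⟨_, rfl⟩
    have ht0 : 0 < t := by rw [ht]; exact Real.sqrt_pos.2 hn0
    have ht2 : t ^ 2 = n := by rw [ht, Real.sq_sqrt hn0.le]
    have e : Real.sqrt (((k ^ 2 : ℕ) : ℝ) * n) = k * t := by
      rw [Real.sqrt_eq_iff_mul_self_eq (by positivity) (by positivity)]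
      push_cast
      linear_combination -(k : ℝ) ^ 2 * ht2
    have h1 : (n : ℂ) = (t : ℂ) ^ 2 := by exact_mod_cast ht2.symm
    have h2 : (t : ℂ) ≠ 0 := by exact_mod_cast ht0.ne'
    rw [e, ← ht, h1]
    push_cast
    field_simp
  have e2 : ‖Bf volume (wt M χ) (pt θ (k ^ 2)) (pt θ (k ^ 2))‖ ≤ (k : ℝ) ^ 2 * (2 * Cb) := by
    rw [hB _ _ hk2 hk2, Real.sqrt_mul_self (by positivity), norm_mul, norm_mul,
      Complex.norm_real, Real.norm_of_nonneg (by positivity)]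
    push_cast
    calc _ ≤ 2 * (k : ℝ) ^ 2 * Cb := by gcongr; exact norm_one_add χ
      _ = _ := by ring
  have hl : 0 ≤ Real.log R := Real.log_natCast_nonneg R
  have e3 : ‖Bf volume (wt M χ) Ψ Ψ‖ ≤ Co * (1 + 2 * (R : ℝ) ^ 2 / η₁) * (9 * A ^ 2 / η₂ *
        ((1 + Real.log R) ^ 2 * (1 + Real.log (R ^ 2 : ℕ)) ^ 4)) := by
    refine (b2 Ψ adΨ').trans ?_
    have : 1 / (η₁ / (2 * (R ^ 2 : ℕ))) = 2 * (R : ℝ) ^ 2 / η₁ := by
      push_cast; field_simp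
    rw [this]
    gcongr
    rw [hΨ]
    simp only
    rw [norm_sq_comb hPt hθ]
    refine mul_le_mul (hPt A η₁ η₂ θ hθ).2.1 ?_ (by positivity) (by positivity)
    calc _ ≤ ∑ n ∈ Icc 1 (R ^ 2), (1 + Real.log R) ^ 2 * (tau n ^ 2 / n) := by
          refine sum_le_sum fun n hn => ?_
          have hn1 := (mem_Icc.1 hn).1
          have hn0 : (0 : ℝ) < n := by exact_mod_cast hn1
          rw [Complex.norm_conj, norm_div, Complex.norm_natCast]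
          calc _ ≤ (tau n * (1 + Real.log R) / n) ^ 2 * n := by gcongr; exact hc n hn1
            _ = _ := by field_simp
      _ ≤ _ := by
          rw [← mul_sum]
          gcongr
          exact hA1.2.2.2.2.1 _
  have e4 := (a1 _ _ adk adΨ).2
  rw [e1, norm_mul, Complex.norm_natCast, mul_pow] at e4
  refine le_of_mul_le_mul_left (e4.trans ?_) (pow_pos hk0 2)
  rw [← mul_assoc]
  exact mul_le_mul e2 e3 (norm_nonneg _) ((norm_nonneg _).trans e2)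

/-- The common bound. -/
def EE (x A η₁ η₂ : ℝ) (Q R : ℕ) : ℝ :=
  24 * (x + 1) * (A ^ 2 / η₂ * (1 + η₂) * tau Q ^ 2 * (1 + Real.log (1 + 4 * (Q : ℝ) ^ 2 / η₁)) *
    (1 + Real.log (1 + R)) ^ 3 * Real.sqrt (1 + Q / η₁) * Real.sqrt (1 + (R : ℝ) ^ 2 / η₁))

lemma log_nn {x : ℝ} (hx : 0 ≤ x) : 0 ≤ Real.log (1 + x) := Real.log_nonneg (by linarith)

lemma EE_nonneg {x A η₁ η₂ : ℝ} (hx : 0 ≤ x) (h₁ : 0 < η₁) (h₂ : 0 < η₂) (Q R : ℕ) :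
    0 ≤ EE x A η₁ η₂ Q R := by
  have := log_nn (x := 4 * (Q : ℝ) ^ 2 / η₁) (by positivity)
  have := log_nn (x := R) (by positivity)
  have := tau_nonneg Q
  unfold EE; positivity

lemma numeric {Co Cb A η₁ η₂ : ℝ} (hCo : 0 ≤ Co) (hCb : 0 ≤ Cb) (h₁ : 0 < η₁) (h₂ : 0 < η₂)
    {N N₀ Q k R : ℕ} (hN : N₀ ≤ N) (hQ : 1 ≤ Q) (hk : k ∣ Q) (hR : 1 ≤ R) :
    2 * (Cb * N₀ * (A ^ 2 / η₂) * Real.sqrt (1 + η₂) * tau (k ^ 2) ^ 2 *
      (1 + Real.log (1 + 4 * (k ^ 2 : ℕ) / η₁)) * (1 + Real.sqrt (k ^ 2 : ℕ) / η₁)) *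
      (Co * (1 + 2 * (R : ℝ) ^ 2 / η₁) * (9 * A ^ 2 / η₂ *
        ((1 + Real.log R) ^ 2 * (1 + Real.log (R ^ 2 : ℕ)) ^ 4))) ≤
      EE (Cb * N * Co) A η₁ η₂ Q R ^ 2 := by
  have hkQ : (k : ℝ) ≤ Q := by exact_mod_cast Nat.le_of_dvd hQ hk
  have hN' : (N₀ : ℝ) ≤ N := by exact_mod_cast hN
  have hR0 : (0 : ℝ) < R := by exact_mod_cast hR
  have l1 := log_nn (x := 4 * (Q : ℝ) ^ 2 / η₁) (by positivity)
  have l2 := log_nn (x := R) (by positivity)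
  have l3 := log_nn (x := 4 * (k ^ 2 : ℕ) / η₁) (by positivity)
  have l4 : 0 ≤ Real.log R := Real.log_natCast_nonneg R
  have l5 : 0 ≤ Real.log (R ^ 2 : ℕ) := Real.log_natCast_nonneg _
  have t0 := tau_nonneg Q
  have t1 := tau_nonneg (k ^ 2)
  have t2 := tau_nonneg k
  have f1 : Real.sqrt (1 + η₂) ≤ (1 + η₂) ^ 2 := by
    rw [Real.sqrt_le_left (by positivity), ← pow_mul]
    exact le_self_pow₀ (by linarith) (by norm_num)
  have f2 : tau (k ^ 2) ≤ tau Q ^ 2 := by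
    have := tau_le_of_dvd hQ hk
    rw [sq, sq]
    exact (tau_mul_le k k).trans (by gcongr)
  have f3 : 1 + Real.log (1 + 4 * (k ^ 2 : ℕ) / η₁) ≤
      (1 + Real.log (1 + 4 * (Q : ℝ) ^ 2 / η₁)) ^ 2 := by
    refine le_trans ?_ (le_self_pow₀ (by linarith) two_ne_zero)
    push_cast
    gcongr
  have f4 : 1 + Real.sqrt (k ^ 2 : ℕ) / η₁ ≤ Real.sqrt (1 + Q / η₁) ^ 2 := by
    rw [Real.sq_sqrt (by positivity)]
    push_cast
    rw [Real.sqrt_sq (by positivity)]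
    gcongr
  have f5 : 1 + 2 * (R : ℝ) ^ 2 / η₁ ≤ 2 * Real.sqrt (1 + (R : ℝ) ^ 2 / η₁) ^ 2 := by
    rw [Real.sq_sqrt (by positivity), mul_div_assoc]
    linarith
  have f6 : Real.log R ≤ Real.log (1 + R) := Real.log_le_log hR0 (by linarith)
  have f7 : 1 + Real.log (R ^ 2 : ℕ) ≤ 2 * (1 + Real.log (1 + R)) := by
    push_cast
    rw [Real.log_pow]; push_cast; linarith
  have f8 : Cb * N * Co ≤ (Cb * N * Co + 1) ^ 2 := by
    have : 0 ≤ Cb * N * Co := by positivity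
    nlinarith
  unfold EE
  calc _ ≤ 2 * (Cb * N * (A ^ 2 / η₂) * (1 + η₂) ^ 2 * (tau Q ^ 2) ^ 2 *
      (1 + Real.log (1 + 4 * (Q : ℝ) ^ 2 / η₁)) ^ 2 * Real.sqrt (1 + Q / η₁) ^ 2) *
      (Co * (2 * Real.sqrt (1 + (R : ℝ) ^ 2 / η₁) ^ 2) * (9 * A ^ 2 / η₂ *
        ((1 + Real.log (1 + R)) ^ 2 * (2 * (1 + Real.log (1 + R))) ^ 4))) := by gcongr
    _ = 24 ^ 2 * (Cb * N * Co) * (A ^ 2 / η₂ * (1 + η₂) * tau Q ^ 2 *
      (1 + Real.log (1 + 4 * (Q : ℝ) ^ 2 / η₁)) * (1 + Real.log (1 + R)) ^ 3 *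
      Real.sqrt (1 + Q / η₁) * Real.sqrt (1 + (R : ℝ) ^ 2 / η₁)) ^ 2 := by ring
    _ ≤ _ := by rw [mul_pow (24 * _) _ 2, mul_pow (24 : ℝ) _ 2]; gcongr

/-- The bound for one primitive character. -/
lemma fixed (hA1 : S_A1) (hA2 : S_A2) (hP1 : S_P1) (hPt : S_Pt) (hKer : S_Ker) (hOsc : S_Osc)
    (hHk : S_Hk) {Co Cb : ℝ} (hCo : 0 ≤ Co) (hCb : 0 ≤ Cb)
    (hOv : ∀ (Y : ℝ) (z : HH) (s : Finset SL(2, ℤ)), 0 < Y →
      (∀ g ∈ s, g • z ∈ SY Y) → (s.card : ℝ) ≤ Co * (1 + 1 / Y))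
    {A η₁ η₂ : ℝ} {θ : ℂ → ℝ → ℂ} (hθ : Prof A η₁ η₂ θ)
    (hBd : ∀ (M N₀ : ℕ) (χ : DirichletCharacter ℂ N₀) (m : ℕ), 0 < M → N₀ ∣ M → 1 ≤ m →
      ‖Bn (DD θ) (jj θ) M χ m m‖ ≤ Cb * N₀ * (A ^ 2 / η₂) * Real.sqrt (1 + η₂) * tau m ^ 2 *
        (1 + Real.log (1 + 4 * m / η₁)) * (1 + Real.sqrt m / η₁))
    {N N₀ : ℕ} (hN : 0 < N) (hN₀ : N₀ ∣ N) (χ : DirichletCharacter ℂ N₀) (hχ : χ.IsPrimitive)
    {Q R : ℕ} {w : ℕ → ℂ} (hQ : 1 ≤ Q) (hR : 1 ≤ R) (hw : ∀ r, ‖w r‖ ≤ 1) :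
    ‖Bf volume (wt (N ^ 2) χ)
      (fun z => ∑ r ∈ (Icc 1 R).filter (·.Coprime (Q * N)), w r / (Q * r : ℕ) * pt θ (Q * r) z)
      (fun z => ∑ r ∈ (Icc 1 R).filter (·.Coprime (Q * N)), w r / (Q * r : ℕ) * pt θ (Q * r) z)‖
    ≤ (Q : ℝ)⁻¹ * (tau Q * EE (Cb * N * Co) A η₁ η₂ Q R) := by
  obtain ⟨T, hT⟩ : ∃ T, T = (Icc 1 R).filter (·.Coprime (Q * N)) := ⟨_, rfl⟩
  rw [← hT]
  have hTs : T ⊆ Icc 1 R := hT ▸ filter_subset _ _
  have hTc : ∀ r ∈ T, r.Coprime (Q * N) := fun r hr => by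
    rw [hT] at hr; exact (mem_filter.1 hr).2
  have hη : 0 < η₁ := hθ.pos.trans_le hθ.le
  have hη₂ := hθ.pos
  have hM : 0 < N ^ 2 := by positivity
  have hNM : N₀ ∣ N ^ 2 := hN₀.trans (dvd_pow_self N two_ne_zero)
  have hN0 : 0 < N₀ := Nat.pos_of_dvd_of_pos hN₀ hN
  obtain ⟨hU, hB⟩ := hKer A η₁ η₂ θ hθ (N ^ 2) N₀ χ hM hNM
  obtain ⟨g1, g2, g3, -, -⟩ := hA2.1 Q N₀ hQ
  obtain ⟨g, hg⟩ : ∃ g, g = part Q N₀ := ⟨_, rfl⟩
  rw [← hg] at g1 g2 g3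
  obtain ⟨Q₁, hQ₁⟩ := g1
  have hg0 : 0 < g := Nat.pos_of_mul_pos_right (hQ₁ ▸ hQ)
  have hQ0 : 0 < Q₁ := Nat.pos_of_mul_pos_left (hQ₁ ▸ hQ)
  rw [hQ₁, Nat.mul_div_cancel_left _ hg0] at g2
  have hQd : Q₁ ∣ Q := Dvd.intro_left _ hQ₁.symm
  obtain ⟨Cs, -, hs⟩ := hOsc
  have hj : ∀ X, 0 < X → X < η₁ ^ 2 / 16 → jj θ X = 0 := fun X h1 h2 => by
    rw [jj, (hs A η₁ η₂ θ hθ X h1).1 h2, zero_div]
  have hH := hHk (DD θ) (jj θ) (η₁ ^ 2 / 16) (N ^ 2) N₀ χ g Q₁ (by positivity) hj hM hNM hχ hg0 g3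
    hQ0 g2
  rw [← hQ₁] at hH
  have hTc' : ∀ r ∈ T, r.Coprime (Q₁ * N ^ 2) := fun r hr =>
    Nat.Coprime.mul_right ((hTc r hr).coprime_dvd_right (hQd.mul_right N))
      (((hTc r hr).coprime_dvd_right (Dvd.intro_left Q rfl)).pow_right 2)
  obtain ⟨-, -, a3⟩ := p1 hP1 hOv hU (Y := η₁ / (2 * (Q * R : ℕ))) (by positivity)
  have ad : ∀ r ∈ T, Adm volume (SY (η₁ / (2 * (Q * R : ℕ)))) (pt θ (Q * r)) := fun r hr =>
    adm_pt hPt hθ (Nat.mul_pos hQ (mem_Icc.1 (hTs hr)).1)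
      (Nat.mul_le_mul_left _ (mem_Icc.1 (hTs hr)).2)
  obtain ⟨a, ha⟩ : ∃ a : ℕ → ℕ → ℕ → ℂ,
      a = fun r r' δ => w r * conj (w r') / δ * conj (χ ((r / δ : ℕ) : ZMod N₀)) := ⟨_, rfl⟩
  have ha' : ∀ r r' δ, ‖a r r' δ‖ ≤ (δ : ℝ)⁻¹ := fun r r' δ => by
    rw [ha]
    simp only [norm_mul, norm_div, Complex.norm_conj, Complex.norm_natCast]
    calc _ ≤ 1 * 1 / (δ : ℝ) * 1 := by
          gcongr
          exacts [hw r, hw r', χ.norm_le_one _]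
      _ = _ := by simp
  rw [(a3 T T (fun r => w r / (Q * r : ℕ)) (fun r => w r / (Q * r : ℕ)) (fun r => pt θ (Q * r))
    (fun r => pt θ (Q * r)) ad ad).2]
  have e : ∑ r ∈ T, ∑ r' ∈ T, w r / (Q * r : ℕ) * conj (w r' / (Q * r' : ℕ)) *
      Bf volume (wt (N ^ 2) χ) (pt θ (Q * r)) (pt θ (Q * r')) =
      (Q : ℂ)⁻¹ * ∑ δ₁ ∈ Q₁.divisors, χ ((Q₁ / δ₁ : ℕ) : ZMod N₀) *
        ∑ n ∈ Icc 1 (R ^ 2), cn T a n * ((1 + χ (-1)) *
          Bn (DD θ) (jj θ) (Nat.lcm N₀ (N ^ 2 / (N ^ 2).gcd (g * δ₁))) χ ((Q₁ / δ₁) ^ 2) n /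
            (Real.sqrt n : ℝ)) := by
    simp_rw [← regroup hTs a, mul_sum]
    rw [sum_comm (s := Q₁.divisors)]
    refine sum_congr rfl fun r hr => ?_
    rw [sum_comm (s := Q₁.divisors)]
    refine sum_congr rfl fun r' hr' => ?_
    have h1 := (mem_Icc.1 (hTs hr)).1
    have h2 := (mem_Icc.1 (hTs hr')).1
    rw [hB _ _ (Nat.mul_pos hQ h1) (Nat.mul_pos hQ h2), hH r r' h1 h2 (hTc' r hr) (hTc' r' hr')]
    simp_rw [mul_sum]
    refine sum_congr rfl fun δ₁ _ => sum_congr rfl fun δ hδ => ?_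
    have hd := Nat.dvd_of_mem_divisors hδ
    have k := key (w r) (w r') hQ h1 h2 (hd.trans (Nat.gcd_dvd_left _ _))
      (hd.trans (Nat.gcd_dvd_right _ _))
    rw [ha]
    linear_combination (1 + χ (-1)) * χ ((Q₁ / δ₁ : ℕ) : ZMod N₀) *
      conj (χ ((r / δ : ℕ) : ZMod N₀)) * Bn (DD θ) (jj θ)
        (Nat.lcm N₀ (N ^ 2 / (N ^ 2).gcd (g * δ₁))) χ ((Q₁ / δ₁) ^ 2) (r / δ * (r' / δ)) * k
  rw [e, norm_mul, norm_inv, Complex.norm_natCast]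
  have hE := EE_nonneg (x := Cb * N * Co) (A := A) (by positivity) hη hη₂ Q R
  gcongr
  refine (norm_sum_le _ _).trans ?_
  calc _ ≤ ∑ _δ ∈ Q₁.divisors, EE (Cb * N * Co) A η₁ η₂ Q R := by
        refine sum_le_sum fun δ₁ hδ => ?_
        rw [norm_mul]
        refine (mul_le_of_le_one_left (norm_nonneg _) (χ.norm_le_one _)).trans ?_
        have hd := Nat.dvd_of_mem_divisors hδ
        have hk : 1 ≤ Q₁ / δ₁ := Nat.div_pos (Nat.le_of_dvd hQ0 hd) (Nat.pos_of_mem_divisors hδ)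
        have hM' : 0 < Nat.lcm N₀ (N ^ 2 / (N ^ 2).gcd (g * δ₁)) :=
          Nat.lcm_pos hN0 (Nat.div_pos (Nat.gcd_le_left _ hM) (Nat.gcd_pos_of_pos_left _ hM))
        refine le_of_pow_le_pow_left₀ two_ne_zero hE ?_
        exact (one hA1 hP1 hPt hKer hCo hOv hθ χ hM' (Nat.dvd_lcm_left _ _) hk hR
          (hBd _ _ χ _ hM' (Nat.dvd_lcm_left _ _) (Nat.one_le_pow _ _ hk))
          fun n hn => norm_cn_le hTs ha' hn).trans
          (numeric hCo hCb hη hη₂ (Nat.le_of_dvd hN hN₀) hQ ((Nat.div_dvd_of_dvd hd).trans hQd) hR)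
    _ ≤ _ := by
        rw [sum_const, nsmul_eq_mul]
        gcongr
        exact tau_le_of_dvd hQ hQd

end PB0

open PB0 in
theorem pb0 (hA1 : S_A1) (hA2 : S_A2) (hP1 : S_P1) (hOv : S_Ov) (hPt : S_Pt) (hKer : S_Ker)
    (hOsc : S_Osc) (hHk : S_Hk) (hBd : S_Bd) : S_PB0 := by
  intro N hN
  have : NeZero N := ⟨hN.ne'⟩
  obtain ⟨Co, hCo1, hOv⟩ := hOv
  obtain ⟨Cb, hCb, hBd⟩ := hBd
  have hCo : 0 ≤ Co := zero_le_one.trans hCo1
  refine ⟨24 * (Cb * N * Co + 1), by positivity, fun A η₁ η₂ θ hθ Q R w hQ hw => ?_⟩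
  have hη : 0 < η₁ := hθ.pos.trans_le hθ.le
  have hη₂ := hθ.pos
  have hE := EE_nonneg (x := Cb * N * Co) (A := A) (by positivity) hη hη₂ Q R
  have ht := tau_nonneg Q
  refine le_trans (b := (Q : ℝ)⁻¹ * (tau Q * EE (Cb * N * Co) A η₁ η₂ Q R)) ?_
    (le_of_eq (by unfold EE; ring))
  rcases Nat.eq_zero_or_pos R with rfl | hR
  · simp only [Bf, show Icc 1 0 = (∅ : Finset ℕ) from rfl, filter_empty, sum_empty, zero_mul,
      integral_zero, mul_zero, tsum_zero, norm_zero]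
    positivity
  obtain ⟨a1, -, a3⟩ := p1 hP1 hOv (hKer A η₁ η₂ θ hθ 1 1 1 one_pos dvd_rfl).1
    (Y := η₁ / (2 * (Q * R : ℕ))) (by positivity)
  have ad : ∀ r ∈ (Icc 1 R).filter (·.Coprime (Q * N)),
      Adm volume (SY (η₁ / (2 * (Q * R : ℕ)))) (pt θ (Q * r)) := fun r hr =>
    adm_pt hPt hθ (Nat.mul_pos hQ (mem_Icc.1 (mem_filter.1 hr).1).1)
      (Nat.mul_le_mul_left _ (mem_Icc.1 (mem_filter.1 hr).1).2)
  have adΦ := (a3 _ _ (fun r => w r / (Q * r : ℕ)) (fun r => w r / (Q * r : ℕ))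
    (fun r => pt θ (Q * r)) (fun r => pt θ (Q * r)) ad ad).1
  have hi : (Set.indicator (Gp N : Set SL(2, ℤ)) fun _ => (1 : ℂ)) = fun γ =>
      ∑ χ : DirichletCharacter ℂ N, (N.totient : ℂ)⁻¹ * wt (N ^ 2) χ.primitiveCharacter γ :=
    funext ind_eq
  obtain ⟨Φ, hΦ⟩ : ∃ Φ : HH → ℂ, Φ = fun z =>
    ∑ r ∈ (Icc 1 R).filter (·.Coprime (Q * N)), w r / (Q * r : ℕ) * pt θ (Q * r) z := ⟨_, rfl⟩
  rw [← hΦ] at adΦ ⊢
  rw [hi, Bf_sum univ (N.totient : ℂ)⁻¹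
    (fun χ : DirichletCharacter ℂ N => wt (N ^ 2) χ.primitiveCharacter)
    (fun _ g => norm_wt_le _ _ g) Φ Φ (a1 Φ Φ adΦ adΦ).1]
  refine (norm_sum_le _ _).trans ?_
  have hφ : (0 : ℝ) < N.totient := by exact_mod_cast Nat.totient_pos.2 hN
  calc _ ≤ ∑ _χ : DirichletCharacter ℂ N,
        (N.totient : ℝ)⁻¹ * ((Q : ℝ)⁻¹ * (tau Q * EE (Cb * N * Co) A η₁ η₂ Q R)) := by
        refine sum_le_sum fun χ _ => ?_
        rw [norm_mul, norm_inv, Complex.norm_natCast]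
        gcongr
        rw [hΦ]
        exact fixed hA1 hA2 hP1 hPt hKer hOsc hHk hCo hCb hOv hθ (hBd A η₁ η₂ θ hθ) hN
          χ.conductor_dvd_level _ χ.primitiveCharacter_isPrimitive hQ hR hw
    _ = _ := by
        rw [sum_const, card_univ, ← Nat.card_eq_fintype_card,
          DirichletCharacter.card_eq_totient_of_hasEnoughRootsOfUnity, nsmul_eq_mul, ← mul_assoc,
          mul_inv_cancel₀ hφ.ne', one_mul]

end MR
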