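import Pool.Agent.P.MP_79de8b_nt.Basic

/-! The reproducing profile is a profile (package PrA of MP_79de8b_nt). -/

open Complex UpperHalfPlane MeasureTheory Finset
open scoped Real ComplexConjugate

noncomputable section
namespace MR
namespace PrA

lemma tent_nonneg (r : ℝ) (ζ : ℂ) : 0 ≤ tent r ζ := le_max_left _ _

lemma tent_le (r : ℝ) (ζ : ℂ) : tent r ζ ≤ 1 / 20 :=
  max_le (by norm_num) (by linarith [abs_nonneg (‖ζ‖ - r)])

lemma abs_tent_le (r : ℝ) (ζ : ℂ) : |tent r ζ| ≤ 1 := by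
  rw [abs_of_nonneg (tent_nonneg r ζ)]; linarith [tent_le r ζ]

lemma tent_ne_zero {r : ℝ} {ζ : ℂ} (h : tent r ζ ≠ 0) : |‖ζ‖ - r| < 1 / 20 := by
  by_contra hc
  exact h (max_eq_left (by linarith [not_lt.1 hc]))

lemma tent_lip (r : ℝ) (ζ ζ' : ℂ) : |tent r ζ - tent r ζ'| ≤ ‖ζ - ζ'‖ := by
  unfold tent
  rw [max_comm 0, max_comm 0]
  refine (abs_max_sub_max_le_abs _ _ _).trans ?_
  have h1 : |(|‖ζ'‖ - r| - |‖ζ‖ - r|)| ≤ |(‖ζ'‖ - r) - (‖ζ‖ - r)| := abs_abs_sub_abs_le_abs_sub _ _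
  have h2 : |‖ζ'‖ - ‖ζ‖| ≤ ‖ζ' - ζ‖ := abs_norm_sub_norm_le _ _
  rw [norm_sub_rev] at h2
  have e1 : 1 / 20 - |‖ζ‖ - r| - (1 / 20 - |‖ζ'‖ - r|) = |‖ζ'‖ - r| - |‖ζ‖ - r| := by ring
  have e2 : (‖ζ'‖ - r) - (‖ζ‖ - r) = ‖ζ'‖ - ‖ζ‖ := by ring
  rw [e1]; rw [e2] at h1; exact h1.trans h2

@[fun_prop] lemma continuous_tent (r : ℝ) : Continuous (tent r) := by
  unfold tent; fun_prop

/-- The product of the two tents in normalised coordinates. -/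
def aa (r t v : ℝ) (W : ℂ) (Y : ℝ) : ℝ :=
  tent r (W - t * v - Complex.I) * tent 0 (-v + (Y - 1) * Complex.I)

/-- The remaining factor in normalised coordinates. -/
def bb (κ : ℂ → ℂ → ℂ) (t : ℝ) (W : ℂ) (Y : ℝ) : ℂ :=
  ((W.im ^ 2 * Y ^ 2 : ℝ) : ℂ) / κ W ((t * Y : ℝ) * Complex.I)

lemma abs_aa_le (r t v : ℝ) (W : ℂ) (Y : ℝ) : |aa r t v W Y| ≤ 1 := by
  unfold aa; rw [abs_mul]
  exact mul_le_one₀ (abs_tent_le _ _) (abs_nonneg _) (abs_tent_le _ _)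

lemma aa_lip (r t v : ℝ) (W W' : ℂ) (Y Y' : ℝ) :
    |aa r t v W Y - aa r t v W' Y'| ≤ ‖W - W'‖ + |Y - Y'| := by
  unfold aa
  have h1 := tent_lip r (W - t * v - Complex.I) (W' - t * v - Complex.I)
  have h2 := tent_lip 0 (-v + (Y - 1) * Complex.I) (-v + (Y' - 1) * Complex.I)
  rw [show W - t * v - Complex.I - (W' - t * v - Complex.I) = W - W' by ring] at h1
  rw [show (-v + (Y - 1) * Complex.I - (-v + (Y' - 1) * Complex.I) : ℂ) =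
    ((Y - Y' : ℝ) : ℂ) * Complex.I by push_cast; ring, norm_mul, Complex.norm_I, mul_one,
    Complex.norm_real, Real.norm_eq_abs] at h2
  set A := tent r (W - t * v - Complex.I)
  set A' := tent r (W' - t * v - Complex.I)
  set B := tent 0 (-v + (Y - 1) * Complex.I)
  set B' := tent 0 (-v + (Y' - 1) * Complex.I)
  have hB : |B| ≤ 1 := abs_tent_le _ _
  have hA : |A'| ≤ 1 := abs_tent_le _ _
  calc |A * B - A' * B'| = |(A - A') * B + A' * (B - B')| := by ring_nf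
    _ ≤ |A - A'| * |B| + |A'| * |B - B'| := by
      rw [← abs_mul, ← abs_mul]; exact abs_add_le _ _
    _ ≤ ‖W - W'‖ * 1 + 1 * |Y - Y'| := by gcongr
    _ = _ := by ring

/-- The support of the two tents. -/
lemma supp_aa {t v : ℝ} {W : ℂ} {Y : ℝ} (ht0 : 0 < t) (ht1 : t ≤ 1)
    (h : aa (if 7 / 10 ≤ t then 9 / 20 else 3 / 20) t v W Y ≠ 0) :
    1 / 2 ≤ W.im ∧ W.im ≤ 2 ∧ |W.re| ≤ 2 ∧ 1 / 2 ≤ Y ∧ Y ≤ 2 ∧
      1 / 20 ≤ ‖W - (t * Y : ℝ) * Complex.I‖ := by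
  unfold aa at h
  have h1 := tent_ne_zero (left_ne_zero_of_mul h)
  have h2 := tent_ne_zero (right_ne_zero_of_mul h)
  set ζ₁ : ℂ := W - t * v - Complex.I with hζ₁
  set ζ₂ : ℂ := -v + (Y - 1) * Complex.I with hζ₂
  rw [sub_zero, abs_of_nonneg (norm_nonneg _)] at h2
  have hr : ‖ζ₁‖ < 1 / 2 := by
    have := (abs_lt.1 h1).2
    split_ifs at this <;> linarith
  have a1 : |W.im - 1| ≤ ‖ζ₁‖ := by
    have := Complex.abs_im_le_norm ζ₁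
    simpa [hζ₁] using this
  have a2 : |W.re - t * v| ≤ ‖ζ₁‖ := by
    have := Complex.abs_re_le_norm ζ₁
    simpa [hζ₁] using this
  have a3 : |Y - 1| ≤ ‖ζ₂‖ := by
    have := Complex.abs_im_le_norm ζ₂
    simpa [hζ₂] using this
  have a4 : |v| ≤ ‖ζ₂‖ := by
    have := Complex.abs_re_le_norm ζ₂
    simpa [hζ₂] using this
  have a5 : |t * v| ≤ 1 := by
    rw [abs_mul, abs_of_pos ht0]; nlinarith [abs_nonneg v]
  have b1 := abs_le.1 a1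
  have b2 := abs_le.1 a2
  have b3 := abs_le.1 a3
  have b5 := abs_le.1 a5
  refine ⟨by linarith, by linarith, abs_le.2 ⟨by linarith, by linarith⟩, by linarith,
    by linarith, ?_⟩
  have e : W - (t * Y : ℝ) * Complex.I = ζ₁ + ((1 - t : ℝ) : ℂ) * Complex.I - t * ζ₂ := by
    rw [hζ₁, hζ₂]; push_cast; ring
  have n1 : ‖((1 - t : ℝ) : ℂ) * Complex.I‖ = 1 - t := by
    rw [norm_mul, Complex.norm_I, mul_one, Complex.norm_real, Real.norm_eq_abs,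
      abs_of_nonneg (by linarith)]
  have n2 : ‖(t : ℂ) * ζ₂‖ ≤ 1 / 20 := by
    rw [norm_mul, Complex.norm_real, Real.norm_eq_abs, abs_of_pos ht0]
    nlinarith [norm_nonneg ζ₂]
  set U := W - (t * Y : ℝ) * Complex.I
  split_ifs at h1 with hc
  · have e2 : ζ₁ = U - ((1 - t : ℝ) : ℂ) * Complex.I + t * ζ₂ := by rw [e]; ring
    have : ‖ζ₁‖ ≤ ‖U‖ + ‖((1 - t : ℝ) : ℂ) * Complex.I‖ + ‖(t : ℂ) * ζ₂‖ := by
      rw [e2]; exact (norm_add_le _ _).trans (by gcongr; exact norm_sub_le _ _)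
    have := (abs_lt.1 h1).1
    linarith
  · have e2 : ((1 - t : ℝ) : ℂ) * Complex.I = U - ζ₁ + t * ζ₂ := by rw [e]; ring
    have : ‖((1 - t : ℝ) : ℂ) * Complex.I‖ ≤ ‖U‖ + ‖ζ₁‖ + ‖(t : ℂ) * ζ₂‖ := by
      rw [e2]; exact (norm_add_le _ _).trans (by gcongr; exact norm_sub_le _ _)
    have := (abs_lt.1 h1).2
    linarith [not_le.1 hc]

/-- The region where the kernel is controlled. -/
def Good (t : ℝ) (W : ℂ) (Y : ℝ) : Prop :=
  1 / 2 ≤ W.im ∧ W.im ≤ 2 ∧ |W.re| ≤ 2 ∧ 1 / 2 ≤ Y ∧ Y ≤ 2 ∧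
    1 / 20 ≤ ‖W - (t * Y : ℝ) * Complex.I‖

variable {κ : ℂ → ℂ → ℂ} {k : ℕ} {C₀ : ℝ}

lemma Kap.C_pos (hκ : Kap κ k C₀) : 0 < C₀ := by
  have h := hκ.low Complex.I (1 / 2) (by norm_num) (by norm_num) (by norm_num) (by norm_num)
    (by norm_num) (by
      rw [show Complex.I - ((1 / 2 : ℝ) : ℂ) * Complex.I = ((1 / 2 : ℝ) : ℂ) * Complex.I by
        push_cast; ring, norm_mul, Complex.norm_I, Complex.norm_real]
      norm_num)
  by_contra hc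
  nlinarith [norm_nonneg (κ Complex.I (((1 / 2 : ℝ) : ℂ) * Complex.I)), not_lt.1 hc]

lemma kap_low (hκ : Kap κ k C₀) {t : ℝ} (ht0 : 0 < t) (ht1 : t ≤ 1) {W : ℂ} {Y : ℝ}
    (h : Good t W Y) : 1 ≤ C₀ * ‖κ W ((t * Y : ℝ) * Complex.I)‖ := by
  obtain ⟨h1, h2, h3, h4, h5, h6⟩ := h
  exact hκ.low W (t * Y) h1 h2 h3 (by positivity) (by nlinarith) h6

lemma kap_ne (hκ : Kap κ k C₀) {t : ℝ} (ht0 : 0 < t) (ht1 : t ≤ 1) {W : ℂ} {Y : ℝ}
    (h : Good t W Y) : κ W ((t * Y : ℝ) * Complex.I) ≠ 0 := by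
  intro h0
  have := kap_low hκ ht0 ht1 h
  rw [h0] at this; norm_num at this

lemma norm_inv_kap (hκ : Kap κ k C₀) {t : ℝ} (ht0 : 0 < t) (ht1 : t ≤ 1) {W : ℂ} {Y : ℝ}
    (h : Good t W Y) : ‖(κ W ((t * Y : ℝ) * Complex.I))⁻¹‖ ≤ C₀ := by
  have h1 := kap_low hκ ht0 ht1 h
  have h2 := norm_pos_iff.2 (kap_ne hκ ht0 ht1 h)
  rw [norm_inv, inv_eq_one_div, div_le_iff₀ h2]; exact h1

lemma sq_bound {t : ℝ} {W : ℂ} {Y : ℝ} (h : Good t W Y) : |W.im ^ 2 * Y ^ 2| ≤ 16 := by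
  obtain ⟨h1, h2, -, h4, h5, -⟩ := h
  rw [abs_of_nonneg (by positivity)]
  have : W.im ^ 2 ≤ 4 := by nlinarith
  have : Y ^ 2 ≤ 4 := by nlinarith
  nlinarith [sq_nonneg W.im, sq_nonneg Y]

lemma norm_bb (hκ : Kap κ k C₀) {t : ℝ} (ht0 : 0 < t) (ht1 : t ≤ 1) {W : ℂ} {Y : ℝ}
    (h : Good t W Y) : ‖bb κ t W Y‖ ≤ 16 * C₀ := by
  unfold bb
  rw [div_eq_mul_inv, norm_mul, Complex.norm_real, Real.norm_eq_abs]
  exact mul_le_mul (sq_bound h) (norm_inv_kap hκ ht0 ht1 h) (norm_nonneg _) (by norm_num)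

lemma bb_lip (hκ : Kap κ k C₀) {t : ℝ} (ht0 : 0 < t) (ht1 : t ≤ 1) {W W' : ℂ} {Y Y' : ℝ}
    (h : Good t W Y) (h' : Good t W' Y') :
    ‖bb κ t W Y - bb κ t W' Y'‖ ≤ (16 * C₀ + 16 * C₀ ^ 3) * (‖W - W'‖ + |Y - Y'|) := by
  have hC := Kap.C_pos hκ
  have n1 := norm_inv_kap hκ ht0 ht1 h
  have n2 := norm_inv_kap hκ ht0 ht1 h'
  have k1 := kap_ne hκ ht0 ht1 h
  have k2 := kap_ne hκ ht0 ht1 h'
  have s2 := sq_bound h'
  obtain ⟨h1, h2, h3, h4, h5, -⟩ := h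
  obtain ⟨h1', h2', h3', h4', h5', -⟩ := h'
  have l := hκ.lip W W' (t * Y) (t * Y') h1 h2 h3 (by positivity) (by nlinarith) h1' h2' h3'
    (by positivity) (by nlinarith)
  have l2 : |t * Y - t * Y'| ≤ |Y - Y'| := by
    rw [← mul_sub, abs_mul, abs_of_pos ht0]; nlinarith [abs_nonneg (Y - Y')]
  set d := ‖W - W'‖ + |Y - Y'| with hd
  have hd0 : 0 ≤ d := by positivity
  replace l : ‖κ W ((t * Y : ℝ) * Complex.I) - κ W' ((t * Y' : ℝ) * Complex.I)‖ ≤ C₀ * d :=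
    l.trans (by rw [hd]; gcongr)
  have s3 : |W.im ^ 2 * Y ^ 2 - W'.im ^ 2 * Y' ^ 2| ≤ 16 * d := by
    have i1 : |W.im - W'.im| ≤ ‖W - W'‖ := by
      simpa using Complex.abs_im_le_norm (W - W')
    have e : W.im ^ 2 * Y ^ 2 - W'.im ^ 2 * Y' ^ 2 =
        (W.im - W'.im) * ((W.im + W'.im) * Y ^ 2) + (Y - Y') * ((Y + Y') * W'.im ^ 2) := by ring
    have j1 : |(W.im + W'.im) * Y ^ 2| ≤ 16 := by
      rw [abs_of_nonneg (by positivity)]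
      have : Y ^ 2 ≤ 4 := by nlinarith
      nlinarith [sq_nonneg Y]
    have j2 : |(Y + Y') * W'.im ^ 2| ≤ 16 := by
      rw [abs_of_nonneg (by positivity)]
      have : W'.im ^ 2 ≤ 4 := by nlinarith
      nlinarith [sq_nonneg W'.im]
    rw [e]
    calc _ ≤ |W.im - W'.im| * |(W.im + W'.im) * Y ^ 2| + |Y - Y'| * |(Y + Y') * W'.im ^ 2| := by
          rw [← abs_mul, ← abs_mul]; exact abs_add_le _ _
      _ ≤ ‖W - W'‖ * 16 + |Y - Y'| * 16 := by gcongr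
      _ = _ := by rw [hd]; ring
  unfold bb
  set K := κ W ((t * Y : ℝ) * Complex.I)
  set K' := κ W' ((t * Y' : ℝ) * Complex.I)
  set s := W.im ^ 2 * Y ^ 2
  set s' := W'.im ^ 2 * Y' ^ 2
  have e : (s : ℂ) / K - (s' : ℂ) / K' =
      ((s - s' : ℝ) : ℂ) * K⁻¹ - (s' : ℂ) * (K⁻¹ * K'⁻¹ * (K - K')) := by
    push_cast; field_simp; ring
  rw [e]
  calc _ ≤ ‖((s - s' : ℝ) : ℂ) * K⁻¹‖ + ‖(s' : ℂ) * (K⁻¹ * K'⁻¹ * (K - K'))‖ := norm_sub_le _ _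
    _ = |s - s'| * ‖K⁻¹‖ + |s'| * (‖K⁻¹‖ * ‖K'⁻¹‖ * ‖K - K'‖) := by
        simp only [norm_mul, Complex.norm_real, Real.norm_eq_abs]
    _ ≤ 16 * d * C₀ + 16 * (C₀ * C₀ * (C₀ * d)) := by gcongr
    _ = _ := by ring

/-- The normalised integrand. -/
def gg (κ : ℂ → ℂ → ℂ) (t v : ℝ) (W : ℂ) (Y : ℝ) : ℂ :=
  (aa (if 7 / 10 ≤ t then 9 / 20 else 3 / 20) t v W Y : ℂ) * bb κ t W Y

lemma norm_gg (hκ : Kap κ k C₀) {t : ℝ} (ht0 : 0 < t) (ht1 : t ≤ 1) (v : ℝ) (W : ℂ) (Y : ℝ) :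
    ‖gg κ t v W Y‖ ≤ 16 * C₀ := by
  have hC := Kap.C_pos hκ
  unfold gg
  by_cases h : aa (if 7 / 10 ≤ t then 9 / 20 else 3 / 20) t v W Y = 0
  · rw [h]; simp; positivity
  rw [norm_mul, Complex.norm_real, Real.norm_eq_abs]
  calc _ ≤ 1 * (16 * C₀) := by
        gcongr
        · exact abs_aa_le ..
        · exact norm_bb hκ ht0 ht1 (supp_aa ht0 ht1 h)
    _ = _ := one_mul _

lemma gg_lip (hκ : Kap κ k C₀) {t : ℝ} (ht0 : 0 < t) (ht1 : t ≤ 1) (v : ℝ) (W W' : ℂ)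
    (Y Y' : ℝ) :
    ‖gg κ t v W Y - gg κ t v W' Y'‖ ≤ (32 * C₀ + 16 * C₀ ^ 3) * (‖W - W'‖ + |Y - Y'|) := by
  have hC := Kap.C_pos hκ
  unfold gg
  have hl := aa_lip (if 7 / 10 ≤ t then 9 / 20 else 3 / 20) t v W W' Y Y'
  have hs := fun W Y => supp_aa (v := v) (W := W) (Y := Y) ht0 ht1
  have ha := abs_aa_le (if 7 / 10 ≤ t then 9 / 20 else 3 / 20) t v W Y
  set d := ‖W - W'‖ + |Y - Y'| with hd
  have hd0 : 0 ≤ d := by positivity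
  have hb : d * (16 * C₀) ≤ (32 * C₀ + 16 * C₀ ^ 3) * d := by
    have : 0 ≤ (16 * C₀ + 16 * C₀ ^ 3) * d := by positivity
    nlinarith
  by_cases h : aa (if 7 / 10 ≤ t then 9 / 20 else 3 / 20) t v W Y = 0
  · by_cases h' : aa (if 7 / 10 ≤ t then 9 / 20 else 3 / 20) t v W' Y' = 0
    · rw [h, h']; simp; positivity
    rw [h, zero_sub, abs_neg] at hl
    rw [h, Complex.ofReal_zero, zero_mul, zero_sub, norm_neg, norm_mul, Complex.norm_real,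
      Real.norm_eq_abs]
    exact (mul_le_mul hl (norm_bb hκ ht0 ht1 (hs _ _ h')) (norm_nonneg _) hd0).trans hb
  by_cases h' : aa (if 7 / 10 ≤ t then 9 / 20 else 3 / 20) t v W' Y' = 0
  · rw [h', sub_zero] at hl
    rw [h', Complex.ofReal_zero, zero_mul, sub_zero, norm_mul, Complex.norm_real,
      Real.norm_eq_abs]
    exact (mul_le_mul hl (norm_bb hκ ht0 ht1 (hs _ _ h)) (norm_nonneg _) hd0).trans hb
  have b1 := bb_lip hκ ht0 ht1 (hs _ _ h) (hs _ _ h')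
  have b2 := norm_bb hκ ht0 ht1 (hs _ _ h')
  set A := aa (if 7 / 10 ≤ t then 9 / 20 else 3 / 20) t v W Y
  set A' := aa (if 7 / 10 ≤ t then 9 / 20 else 3 / 20) t v W' Y'
  set B := bb κ t W Y
  set B' := bb κ t W' Y'
  have e : (A : ℂ) * B - A' * B' = A * (B - B') + ((A - A' : ℝ) : ℂ) * B' := by push_cast; ring
  rw [e]
  calc _ ≤ ‖(A : ℂ) * (B - B')‖ + ‖((A - A' : ℝ) : ℂ) * B'‖ := norm_add_le _ _
    _ = |A| * ‖B - B'‖ + |A - A'| * ‖B'‖ := by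
        simp only [norm_mul, Complex.norm_real, Real.norm_eq_abs]
    _ ≤ 1 * ((16 * C₀ + 16 * C₀ ^ 3) * d) + d * (16 * C₀) := by gcongr
    _ = _ := by ring

lemma continuous_gg (κ : ℂ → ℂ → ℂ) (t : ℝ) (W : ℂ) (Y : ℝ) :
    Continuous fun v => gg κ t v W Y := by
  unfold gg aa; fun_prop

/-- The normalising constant. -/
def cc (r : ℝ) : ℝ := (∫ ξ : ℂ, tent r ξ)⁻¹ * (∫ ξ : ℂ, tent 0 ξ)⁻¹

/-- The profile in normalised coordinates. -/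
lemma prf_eq (hκ : Kap κ k C₀) {η₁ η₂ : ℝ} (h2 : 0 < η₂) (h12 : η₂ ≤ η₁) (w : ℂ) (y : ℝ) :
    prf κ k η₁ η₂ w y = ((cc (rr η₁ η₂) * η₂ ^ 2 / η₁ : ℝ) : ℂ) *
      ∫ v in (-1 : ℝ)..1, gg κ (η₂ / η₁) v (w / η₁) (y / η₂) * ex (-(η₂ * v)) := by
  have h1 : 0 < η₁ := h2.trans_le h12
  have c1 : (η₁ : ℂ) ≠ 0 := by exact_mod_cast h1.ne'
  have c2 : (η₂ : ℂ) ≠ 0 := by exact_mod_cast h2.ne'
  unfold prf
  rw [← intervalIntegral.integral_const_mul, ← intervalIntegral.integral_const_mul]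
  refine intervalIntegral.integral_congr fun v _ => ?_
  have hk : κ w (y * Complex.I) =
      (η₁ : ℂ) ^ k * κ (w / η₁) (((η₂ / η₁ * (y / η₂) : ℝ) : ℂ) * Complex.I) := by
    rw [← hκ.hom η₁ h1]; congr 1
    · field_simp
    · push_cast; field_simp
  have e1 : (w - η₂ * v - η₁ * Complex.I) / η₁ =
      w / η₁ - ((η₂ / η₁ : ℝ) : ℂ) * v - Complex.I := by push_cast; field_simp
  have e2 : (-v + (y / η₂ - 1) * Complex.I : ℂ) = -v + (((y / η₂ : ℝ) : ℂ) - 1) * Complex.I := by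
    push_cast; ring
  have e3 : (w / η₁).im = w.im / η₁ := by rw [Complex.div_ofReal_im]
  obtain ⟨j, rfl⟩ : ∃ j, k = j + 1 := ⟨k - 1, by have := hκ.kpos; omega⟩
  simp only [hk, gg, aa, bb, rho, cc, e1, e2, e3, rr, Nat.add_sub_cancel]
  set K := κ (w / η₁) (((η₂ / η₁ * (y / η₂) : ℝ) : ℂ) * Complex.I)
  set r : ℝ := if 7 / 10 ≤ η₂ / η₁ then 9 / 20 else 3 / 20
  set T₁ := tent r (w / η₁ - ((η₂ / η₁ : ℝ) : ℂ) * v - Complex.I)
  set T₂ := tent 0 (-v + (((y / η₂ : ℝ) : ℂ) - 1) * Complex.I)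
  set I₁ := ∫ ξ : ℂ, tent r ξ
  set I₂ := ∫ ξ : ℂ, tent 0 ξ
  push_cast
  simp only [div_eq_mul_inv, mul_inv]
  field_simp
  ring

end PrA

open PrA in
theorem pra (_hRad : S_Rad) : S_PrA := by
  intro κ k C₀ hκ
  have hC := Kap.C_pos hκ
  set c := |PrA.cc (9 / 20)| + |PrA.cc (3 / 20)| with hc
  have hc0 : 0 ≤ c := by positivity
  set L := 32 * C₀ + 16 * C₀ ^ 3 with hL
  have hL0 : 0 ≤ L := by positivity
  refine ⟨c * (2 * L), by positivity, fun η₁ η₂ h2 h12 => ?_⟩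
  have h1 : 0 < η₁ := h2.trans_le h12
  have ht0 : 0 < η₂ / η₁ := by positivity
  have ht1 : η₂ / η₁ ≤ 1 := (div_le_one h1).2 h12
  have hcc : ‖((PrA.cc (rr η₁ η₂) * η₂ ^ 2 / η₁ : ℝ) : ℂ)‖ ≤ c * η₂ ^ 2 / η₁ := by
    rw [Complex.norm_real, Real.norm_eq_abs, abs_div, abs_mul, abs_of_pos h1,
      abs_of_pos (by positivity : 0 < η₂ ^ 2)]
    gcongr
    unfold rr
    split_ifs
    · exact le_add_of_nonneg_right (abs_nonneg _)
    · exact le_add_of_nonneg_left (abs_nonneg _)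
  have hint : ∀ (W : ℂ) (Y : ℝ), IntervalIntegrable
      (fun v => gg κ (η₂ / η₁) v W Y * ex (-(η₂ * v))) volume (-1) 1 := fun W Y =>
    ((continuous_gg κ _ W Y).mul (by fun_prop)).intervalIntegrable _ _
  refine ⟨h2, h12, by positivity, fun w y => ?_, fun w w' y y' => ?_, fun w y h => ?_⟩
  · rw [prf_eq hκ h2 h12, norm_mul]
    have : ‖∫ v in (-1 : ℝ)..1, gg κ (η₂ / η₁) v (w / η₁) (y / η₂) * ex (-(η₂ * v))‖ ≤
        L * |1 - (-1)| := by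
      refine intervalIntegral.norm_integral_le_of_norm_le_const fun v _ => ?_
      rw [norm_mul, norm_ex, mul_one]
      refine (norm_gg hκ ht0 ht1 _ _ _).trans ?_
      have : 0 ≤ 16 * C₀ + 16 * C₀ ^ 3 := by positivity
      linarith
    calc _ ≤ c * η₂ ^ 2 / η₁ * (L * |1 - (-1)|) := by gcongr
      _ = _ := by norm_num; ring
  · rw [prf_eq hκ h2 h12, prf_eq hκ h2 h12, ← mul_sub, norm_mul,
      ← intervalIntegral.integral_sub (hint _ _) (hint _ _)]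
    have e1 : ‖w / η₁ - w' / η₁‖ = ‖w - w'‖ / η₁ := by
      rw [← sub_div, norm_div, Complex.norm_real, Real.norm_eq_abs, abs_of_pos h1]
    have e2 : |y / η₂ - y' / η₂| = |y - y'| / η₂ := by
      rw [← sub_div, abs_div, abs_of_pos h2]
    have : ‖∫ v in (-1 : ℝ)..1, (gg κ (η₂ / η₁) v (w / η₁) (y / η₂) * ex (-(η₂ * v)) -
        gg κ (η₂ / η₁) v (w' / η₁) (y' / η₂) * ex (-(η₂ * v)))‖ ≤
        L * (‖w - w'‖ / η₁ + |y - y'| / η₂) * |1 - (-1)| := by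
      refine intervalIntegral.norm_integral_le_of_norm_le_const fun v _ => ?_
      rw [← sub_mul, norm_mul, norm_ex, mul_one, ← e1, ← e2]
      exact gg_lip hκ ht0 ht1 _ _ _ _ _
    calc _ ≤ c * η₂ ^ 2 / η₁ * (L * (‖w - w'‖ / η₁ + |y - y'| / η₂) * |1 - (-1)|) := by gcongr
      _ = _ := by norm_num; ring
  · rw [prf_eq hκ h2 h12] at h
    have h' := right_ne_zero_of_mul h
    have : ∃ v, gg κ (η₂ / η₁) v (w / η₁) (y / η₂) ≠ 0 := by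
      by_contra hn
      push Not at hn
      simp [hn] at h'
    obtain ⟨v, hv⟩ := this
    have hv' : aa (if 7 / 10 ≤ η₂ / η₁ then 9 / 20 else 3 / 20) (η₂ / η₁) v (w / η₁) (y / η₂) ≠ 0 := by
      intro h0; apply hv; unfold gg; rw [h0]; simp
    obtain ⟨s1, s2, s3, s4, s5, -⟩ := supp_aa ht0 ht1 hv'
    rw [Complex.div_ofReal_im] at s1 s2
    rw [Complex.div_ofReal_re, abs_div, abs_of_pos h1] at s3
    rw [le_div_iff₀ h1] at s1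
    rw [div_le_iff₀ h1] at s2 s3
    rw [le_div_iff₀ h2] at s4
    rw [div_le_iff₀ h2] at s5
    exact ⟨by linarith, s2, s3, by linarith, s5⟩

end MR
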