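import Pool.Agent.P.MP_79de8b_nt.Ms

/-! The reproducing formula for the profile `prf`. -/

open Complex UpperHalfPlane MeasureTheory Finset CongruenceSubgroup Filter Topology
open scoped Real MatrixGroups ComplexConjugate ENNReal NNReal

noncomputable section
namespace MR.PrB

@[fun_prop] lemma continuous_rho (r : ℝ) : Continuous (rho r) := by
  unfold rho tent; fun_prop

lemma rho_ne {r : ℝ} {ζ : ℂ} (h : rho r ζ ≠ 0) : |‖ζ‖ - r| < 1 / 20 := by
  by_contra hc
  apply h
  unfold rho tent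
  rw [max_eq_left (by linarith [not_lt.1 hc]), zero_div]

lemma rho_half {r : ℝ} (hr : r ≤ 9 / 20) {ζ : ℂ} (h : rho r ζ ≠ 0) : ‖ζ‖ < 1 / 2 := by
  have := (abs_lt.1 (rho_ne h)).2; linarith

lemma rho_zero {ζ : ℂ} (h : rho 0 ζ ≠ 0) : ‖ζ‖ < 1 / 20 := by
  have := (abs_lt.1 (rho_ne h)).2; linarith

lemma rho_zero' {v s : ℝ} (h : rho 0 (-v + s * Complex.I) ≠ 0) : |v| < 1 / 20 ∧ |s| < 1 / 20 := by
  have h0 := rho_zero h
  have h1 := Complex.abs_re_le_norm (-v + s * Complex.I)
  have h2 := Complex.abs_im_le_norm (-v + s * Complex.I)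
  simp at h1 h2
  constructor <;> linarith

lemma rr_nonneg (a b : ℝ) : 0 ≤ rr a b := by unfold rr; split_ifs <;> norm_num

lemma rr_le (a b : ℝ) : rr a b ≤ 9 / 20 := by unfold rr; split_ifs <;> norm_num

lemma int_cpt {X : Type*} [TopologicalSpace X] [MeasurableSpace X] [OpensMeasurableSpace X]
    [T2Space X] {μ : Measure X} [IsFiniteMeasureOnCompacts μ] {F : X → ℂ} (hF : Continuous F)
    {S K : Set X} (hS : MeasurableSet S) (hK : IsCompact K)
    (h : ∀ p ∈ S, F p ≠ 0 → p ∈ K) : IntegrableOn F S μ :=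
  (hF.continuousOn.integrableOn_compact hK).of_forall_diff_eq_zero hS fun p hp => by
    by_contra hc; exact hp.2 (h p hp.1 hc)

/-- A box in the upper half plane. -/
def box (a b c d : ℝ) : Set ℍ := {z | a ≤ z.re ∧ z.re ≤ b ∧ c ≤ z.im ∧ z.im ≤ d}

lemma box_cpt (a b d : ℝ) {c : ℝ} (hc : 0 < c) : IsCompact (box a b c d) := by
  rw [UpperHalfPlane.isEmbedding_coe.isCompact_iff]
  convert (isCompact_Icc (a := a) (b := b)).reProdIm (isCompact_Icc (a := c) (b := d)) using 1
  ext w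
  simp only [Set.mem_image, box, Set.mem_setOf_eq, Complex.mem_reProdIm, Set.mem_Icc]
  constructor
  · rintro ⟨z, ⟨h1, h2, h3, h4⟩, rfl⟩
    exact ⟨⟨h1, h2⟩, h3, h4⟩
  · rintro ⟨⟨h1, h2⟩, h3, h4⟩
    exact ⟨⟨w, lt_of_lt_of_le hc h3⟩, ⟨h1, h2, h3, h4⟩, rfl⟩

lemma ne_of_ii {f : ℝ → ℂ} (h : ∫ v in (-1 : ℝ)..1, f v ≠ 0) : ∃ v, f v ≠ 0 := by
  by_contra hc
  push Not at hc
  exact h (by simp [hc])

/-- The kernel does not vanish on the support of the two tents. -/
lemma kap_ne {κ : ℂ → ℂ → ℂ} {k : ℕ} {C : ℝ} (hκ : Kap κ k C) {η₁ η₂ : ℝ} (h2 : 0 < η₂)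
    (h12 : η₂ ≤ η₁) {w : ℂ} {y v : ℝ}
    (ha : rho (rr η₁ η₂) ((w - η₂ * v - η₁ * Complex.I) / η₁) ≠ 0)
    (hb : rho 0 (-v + (y / η₂ - 1) * Complex.I) ≠ 0) : κ w (y * Complex.I) ≠ 0 := by
  have h1 : 0 < η₁ := lt_of_lt_of_le h2 h12
  have h1c : (η₁ : ℂ) ≠ 0 := by exact_mod_cast h1.ne'
  have h2c : (η₂ : ℂ) ≠ 0 := by exact_mod_cast h2.ne'
  set ζ := (w - η₂ * v - η₁ * Complex.I) / η₁ with hζ
  set ξ : ℂ := -v + (y / η₂ - 1) * Complex.I with hξ
  set t := η₂ / η₁ with ht
  have t0 : 0 < t := div_pos h2 h1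
  have t1 : t ≤ 1 := (div_le_one h1).2 h12
  have n1 := rho_half (rr_le _ _) ha
  have n2 := rho_zero hb
  obtain ⟨n3, n4⟩ : |v| < 1 / 20 ∧ |y / η₂ - 1| < 1 / 20 := rho_zero' (by simpa using hb)
  have e1 : w / η₁ = ζ + t * v + Complex.I := by
    rw [hζ, ht]; push_cast; field_simp; ring
  have e2 : y / η₁ = t * (y / η₂) := by rw [ht]; field_simp
  have e3 : w / η₁ - (y / η₁ : ℝ) * Complex.I = ζ + (1 - t : ℝ) * Complex.I - t * ξ := by
    rw [e1, e2, hξ]; push_cast; ring
  have r1 := abs_le.1 (Complex.abs_re_le_norm ζ)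
  have r2 := abs_le.1 (Complex.abs_im_le_norm ζ)
  have a3 := abs_lt.1 n3
  have a4 := abs_lt.1 n4
  have m1 : ‖((1 - t : ℝ) : ℂ) * Complex.I‖ = 1 - t := by
    rw [norm_mul, Complex.norm_I, mul_one, Complex.norm_real, Real.norm_of_nonneg (by linarith)]
  have m2 : ‖(t : ℂ) * ξ‖ ≤ 1 / 20 := by
    rw [norm_mul, Complex.norm_real, Real.norm_of_nonneg t0.le]
    nlinarith [norm_nonneg ξ]
  have low := hκ.low (w / η₁) (y / η₁) (by rw [e1]; simp; linarith) (by rw [e1]; simp; linarith)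
    (by rw [e1]; simp; rw [abs_le]; constructor <;> nlinarith) (by rw [e2]; nlinarith)
    (by rw [e2]; nlinarith) (by
      rw [e3]
      have b1 := norm_sub_norm_le (ζ + (1 - t : ℝ) * Complex.I) (t * ξ)
      have b2 := abs_lt.1 (rho_ne ha)
      by_cases hc : 7 / 10 ≤ t
      · have : rr η₁ η₂ = 9 / 20 := if_pos hc
        have b3 := norm_sub_norm_le ζ (-((1 - t : ℝ) * Complex.I))
        rw [sub_neg_eq_add, norm_neg, m1] at b3
        linarith [b2.1]
      · have : rr η₁ η₂ = 3 / 20 := if_neg hc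
        have b3 := norm_sub_norm_le ((1 - t : ℝ) * Complex.I) (-ζ)
        rw [sub_neg_eq_add, norm_neg, m1, add_comm] at b3
        linarith [b2.2, not_le.1 hc])
  have e4 := hκ.hom η₁ h1 (w / η₁) ((y / η₁ : ℝ) * Complex.I)
  have e5 : (η₁ : ℂ) * (w / η₁) = w := by field_simp
  have e6 : (η₁ : ℂ) * ((y / η₁ : ℝ) * Complex.I) = y * Complex.I := by push_cast; field_simp
  rw [e5, e6] at e4
  rw [e4]
  refine mul_ne_zero (pow_ne_zero _ h1c) fun h0 => ?_
  rw [h0] at low
  norm_num at low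

/-- The reproducing formula in the first variable. -/
lemma lemA (hRad : S_Rad) {r : ℝ} (hr0 : 0 ≤ r) (hr : r ≤ 9 / 20) {U : ℍ → ℂ} (hU : MV U)
    {a : ℝ} (ha : 0 < a) (x : ℝ) :
    ∫ z : ℍ, U z * (rho r ((z - x - a * Complex.I) / a) * (z.im / a) ^ 2 : ℝ) = U (pnt x a) := by
  have hac : (a : ℂ) ≠ 0 := by exact_mod_cast ha.ne'
  let F : ℂ → ℂ := fun w => U (ofComplex w) * rho r ((w - x - a * Complex.I) / a)
  have h1 := integral_H_C (fun w => F w * ((w.im / a) ^ 2 : ℝ))
  have h2 : ∫ z : ℍ, U z * (rho r ((z - x - a * Complex.I) / a) * (z.im / a) ^ 2 : ℝ) =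
      ∫ z : ℍ, F z * (((z : ℂ).im / a) ^ 2 : ℝ) := by
    refine integral_congr_ae (Eventually.of_forall fun z => ?_)
    simp only [F, ofComplex_apply, UpperHalfPlane.coe_im]
    push_cast; ring
  have h3 : ∫ z in {z : ℂ | 0 < z.im}, ((1 / z.im ^ 2 : ℝ) : ℂ) * (F z * ((z.im / a) ^ 2 : ℝ)) =
      ∫ z in {z : ℂ | 0 < z.im}, ((a : ℂ) ^ 2)⁻¹ * F z := by
    refine setIntegral_congr_fun measurableSet_im_pos fun z hz => ?_
    have : (z.im : ℂ) ≠ 0 := by exact_mod_cast (ne_of_gt hz)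
    push_cast; field_simp
  have h4 : ∫ z in {z : ℂ | 0 < z.im}, ((a : ℂ) ^ 2)⁻¹ * F z = ∫ z, ((a : ℂ) ^ 2)⁻¹ * F z := by
    refine setIntegral_eq_integral_of_forall_compl_eq_zero fun z hz => ?_
    have : rho r ((z - x - a * Complex.I) / a) = 0 := by
      by_contra hc
      have b1 := rho_half hr hc
      have b2 := abs_le.1 (Complex.abs_im_le_norm ((z - x - a * Complex.I) / a))
      have b3 : ((z - x - a * Complex.I) / a).im = (z.im - a) / a := by
        rw [Complex.div_ofReal_im]; simp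
      have b4 : -(1 / 2) < (z.im - a) / a := by linarith [b2.1]
      rw [lt_div_iff₀ ha] at b4
      exact hz (show 0 < z.im by linarith)
    simp [F, this]
  have h5 : ∫ ζ : ℂ, F (x + a * Complex.I + a • ζ) = ((a ^ 2)⁻¹ : ℝ) • ∫ w, F w := by
    have := Measure.integral_comp_smul (volume : Measure ℂ) (fun w => F (x + a * Complex.I + w)) a
    rw [this, integral_add_left_eq_self, Complex.finrank_real_complex,
      abs_of_nonneg (by positivity)]
  have h6 := (hRad r hr0 hr).2 U hU (pnt x a)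
  rw [pnt_im x ha, coe_pnt x ha] at h6
  rw [h2, h1, h3, h4, integral_const_mul, ← h6]
  have h7 : ((a : ℂ) ^ 2)⁻¹ * ∫ w, F w = ((a ^ 2)⁻¹ : ℝ) • ∫ w, F w := by
    rw [Complex.real_smul]; push_cast; rfl
  rw [h7, ← h5]
  refine integral_congr_ae (Eventually.of_forall fun ζ => ?_)
  simp only [F, Complex.real_smul]
  have : ((x : ℂ) + a * Complex.I + a * ζ - x - a * Complex.I) / a = ζ := by field_simp; ring
  rw [this, mul_comm]

/-- Change of variables in the second tent. -/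
lemma lemC {φ : ℂ → ℂ} (hφ : Continuous φ) (hs : ∀ ζ, φ ζ ≠ 0 → ‖ζ‖ < 1 / 20) {b : ℝ}
    (hb : 0 < b) :
    ∫ y in Set.Ioi (0 : ℝ), ∫ v in (-1 : ℝ)..1, φ (-v + (y / b - 1 : ℝ) * Complex.I) =
      b * ∫ ζ, φ ζ := by
  have hs' : ∀ t s : ℝ, φ (t + s * Complex.I) ≠ 0 → |t| < 1 / 20 ∧ |s| < 1 / 20 := by
    intro t s h
    have h0 := hs _ h
    have h1 := Complex.abs_re_le_norm (t + s * Complex.I)
    have h2 := Complex.abs_im_le_norm (t + s * Complex.I)
    simp at h1 h2
    constructor <;> linarith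
  let g : ℝ → ℂ := fun s => ∫ t : ℝ, φ (t + s * Complex.I)
  have h1 : ∀ s : ℝ, ∫ v in (-1 : ℝ)..1, φ (-v + s * Complex.I) = g s := by
    intro s
    rw [intervalIntegral.integral_eq_integral_of_support_subset]
    · have := integral_neg_eq_self (fun t : ℝ => φ (t + s * Complex.I)) volume
      simpa using this
    · intro v hv
      have := abs_lt.1 (hs' (-v) s (by simpa using hv)).1
      constructor <;> linarith [this.1, this.2]
  have h2 : ∫ ζ, φ ζ = ∫ s, g s := by
    rw [← Complex.volume_preserving_equiv_real_prod.symm.integral_comp' φ]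
    have e : ∀ p : ℝ × ℝ, Complex.measurableEquivRealProd.symm p = p.1 + p.2 * Complex.I := by
      intro p; apply Complex.ext <;> simp
    simp only [e]
    rw [Measure.volume_eq_prod, integral_prod_symm]
    rw [← integrableOn_univ]
    refine int_cpt (by fun_prop) MeasurableSet.univ
      ((isCompact_Icc (a := (-1 : ℝ)) (b := 1)).prod (isCompact_Icc (a := (-1 : ℝ)) (b := 1)))
      fun p _ hp => ?_
    obtain ⟨a1, a2⟩ := hs' _ _ hp
    rw [abs_lt] at a1 a2
    exact ⟨⟨by linarith, by linarith⟩, ⟨by linarith, by linarith⟩⟩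
  simp only [h1]
  rw [setIntegral_eq_integral_of_forall_compl_eq_zero, h2]
  · have := Measure.integral_comp_div (fun s => g (s - 1)) b
    rw [this, integral_sub_right_eq_self g 1, abs_of_pos hb, Complex.real_smul]
  · intro y hy
    have hy' : y / b ≤ 0 := div_nonpos_of_nonpos_of_nonneg (not_lt.1 hy) hb.le
    have : ∀ t : ℝ, φ (t + (y / b - 1 : ℝ) * Complex.I) = 0 := by
      intro t
      by_contra hc
      have := abs_lt.1 (hs' _ _ hc).2
      linarith [this.1]
    simp only [g, this, integral_zero]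

/-- Shift of the horizontal variable. -/
lemma lemS {W : ℝ → ℝ → ℂ} (hW : Continuous W.uncurry) (hWp : ∀ x y, W (x + 1) y = W x y)
    {E : ℝ → ℂ} (hE : Continuous E) (hEp : ∀ x, E (x + 1) = E x) (b : ℝ) :
    ∫ x in (0 : ℝ)..1, ∫ ζ : ℂ, W x ζ.im * E (x - b * ζ.re) * rho 0 ζ =
      ∫ x in (0 : ℝ)..1, ∫ ζ : ℂ, W (x + b * ζ.re) ζ.im * E x * rho 0 ζ := by
  have key : ∀ F : ℝ → ℂ → ℂ, Continuous F.uncurry →
      ∫ x in (0 : ℝ)..1, ∫ ζ : ℂ, F x ζ * rho 0 ζ =
        ∫ ζ : ℂ, ∫ x in (0 : ℝ)..1, F x ζ * rho 0 ζ := by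
    intro F hF
    refine intervalIntegral_integral_swap ?_
    rw [← Measure.restrict_univ (μ := (volume : Measure ℂ)), Measure.prod_restrict]
    refine int_cpt (F := fun p : ℝ × ℂ => F p.1 p.2 * rho 0 p.2) (by fun_prop)
      (measurableSet_uIoc.prod MeasurableSet.univ)
      ((isCompact_uIcc (a := (0 : ℝ)) (b := 1)).prod (isCompact_closedBall (0 : ℂ) 1))
      fun p hp h => ⟨Set.uIoc_subset_uIcc hp.1, ?_⟩
    have : rho 0 p.2 ≠ 0 := fun h0 => h (by simp [h0])
    have := rho_zero this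
    rw [mem_closedBall_zero_iff]; linarith
  rw [key (fun x ζ => W x ζ.im * E (x - b * ζ.re)) (by fun_prop),
    key (fun x ζ => W (x + b * ζ.re) ζ.im * E x) (by fun_prop)]
  refine integral_congr_ae (Eventually.of_forall fun ζ => ?_)
  have hp : Function.Periodic (fun x => W x ζ.im * E (x - b * ζ.re) * rho 0 ζ) 1 := by
    intro x
    simp only
    rw [hWp, show x + 1 - b * ζ.re = x - b * ζ.re + 1 by ring, hEp]
  have h1 := hp.intervalIntegral_add_eq 0 (b * ζ.re)
  have h2 := intervalIntegral.integral_comp_add_right (a := 0) (b := 1)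
    (fun x => W x ζ.im * E (x - b * ζ.re) * rho 0 ζ) (b * ζ.re)
  simp only [zero_add, add_sub_cancel_right] at h1 h2
  simp only
  rw [h1, h2, add_comm]

lemma per_pnt {U : ℍ → ℂ} (hp : ∀ z : ℍ, U (ofComplex (z + 1)) = U z) (x : ℝ) {y : ℝ}
    (hy : 0 < y) : U (pnt (x + 1) y) = U (pnt x y) := by
  rw [← hp (pnt x y), coe_pnt x hy, pnt]
  congr 2
  push_cast; ring

lemma cont_pnt {α : Type*} [TopologicalSpace α] {f g : α → ℝ} (hf : Continuous f)
    (hg : Continuous g) (h : ∀ a, 0 < g a) : Continuous fun a => pnt (f a) (g a) :=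
  continuous_ofComplex_comp (by fun_prop) fun a => by simpa using h a

/-- The reproducing formula in the second variable. -/
lemma lemD (hRad : S_Rad) {U : ℍ → ℂ} (hU : MV U) (hp : ∀ z : ℍ, U (ofComplex (z + 1)) = U z)
    {E : ℝ → ℂ} (hE : Continuous E) (hEp : ∀ x, E (x + 1) = E x) {b : ℝ} (hb : 0 < b) :
    ∫ z : ℍ, (if 0 ≤ z.re ∧ z.re < 1 then ∫ v in (-1 : ℝ)..1, E (z.re + b * v) * (U z *
      (rho 0 (-v + (z.im / b - 1 : ℝ) * Complex.I) * (z.im / b) ^ 2 : ℝ)) else 0) =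
      (b : ℂ)⁻¹ * ∫ x in (0 : ℝ)..1, E x * U (pnt x b) := by
  have hbc : (b : ℂ) ≠ 0 := by exact_mod_cast hb.ne'
  have hm : ∀ s : ℝ, 0 < max (b * (1 + s)) (b / 2) := fun s =>
    lt_max_of_lt_right (half_pos hb)
  let W : ℝ → ℝ → ℂ := fun x s => U (pnt x (max (b * (1 + s)) (b / 2)))
  have hW : Continuous W.uncurry :=
    hU.cont.comp (cont_pnt continuous_fst (by fun_prop) fun p => hm p.2)
  have hWp : ∀ x s, W (x + 1) s = W x s := fun x s => per_pnt hp x (hm s)
  have hW1 : ∀ x s, |s| < 1 / 20 → W x s = U (pnt x (b * (1 + s))) := by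
    intro x s hs
    have := (abs_lt.1 hs).1
    simp only [W]
    rw [max_eq_left (by nlinarith)]
  let φ : ℝ → ℂ → ℂ := fun x ζ => W x ζ.im * E (x - b * ζ.re) * rho 0 ζ
  have hφ : Continuous φ.uncurry := by
    have : Continuous fun p : ℝ × ℂ => W p.1 p.2.im :=
      hW.comp (f := fun p : ℝ × ℂ => (p.1, p.2.im)) (by fun_prop)
    exact (this.mul (by fun_prop)).mul (by fun_prop)
  have hφ0 : ∀ x ζ, φ x ζ ≠ 0 → rho 0 ζ ≠ 0 := fun x ζ h h0 => h (by simp [φ, h0])
  let Φ : ℝ × ℝ → ℂ := fun p => ∫ v in (-1 : ℝ)..1, φ p.1 (-v + (p.2 / b - 1 : ℝ) * Complex.I)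
  have hΦ : Continuous Φ := by
    refine intervalIntegral.continuous_parametric_intervalIntegral_of_continuous' ?_ _ _
    exact hφ.comp (f := fun q : (ℝ × ℝ) × ℝ =>
      (q.1.1, -(q.2 : ℂ) + (q.1.2 / b - 1 : ℝ) * Complex.I)) (by fun_prop)
  have hmeas : MeasurableSet (Set.Ico (0 : ℝ) 1 ×ˢ Set.Ioi (0 : ℝ)) :=
    measurableSet_Ico.prod measurableSet_Ioi
  have hint : IntegrableOn Φ (Set.Ico (0 : ℝ) 1 ×ˢ Set.Ioi (0 : ℝ)) (volume.prod volume) := by
    refine int_cpt hΦ hmeas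
      ((isCompact_Icc (a := (0 : ℝ)) (b := 1)).prod (isCompact_Icc (a := (0 : ℝ)) (b := 2 * b)))
      fun p hp h => ⟨Set.Ico_subset_Icc_self hp.1, le_of_lt hp.2, ?_⟩
    obtain ⟨v, hv⟩ := ne_of_ii h
    have := (abs_lt.1 (rho_zero' (hφ0 _ _ hv)).2).2
    have h2 : p.2 / b < 2 := by linarith
    rw [div_lt_iff₀ hb] at h2
    exact h2.le
  have hprod : (volume : Measure ℝ).prod ((volume : Measure ℝ).restrict (Set.Ioi 0)) =
      (volume.prod volume).restrict (Set.univ ×ˢ Set.Ioi 0) := by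
    rw [← Measure.prod_restrict, Measure.restrict_univ]
  rw [integral_H_R, hprod,
    setIntegral_congr_fun (g := (Set.Ico (0 : ℝ) 1 ×ˢ (Set.univ : Set ℝ)).indicator
      fun p => ((b : ℂ) ^ 2)⁻¹ * Φ p) (MeasurableSet.univ.prod measurableSet_Ioi),
    setIntegral_indicator (measurableSet_Ico.prod MeasurableSet.univ), Set.prod_inter_prod,
    Set.univ_inter, Set.inter_univ, integral_const_mul, setIntegral_prod _ hint]
  · have h1 : ∀ x : ℝ, ∫ y in Set.Ioi (0 : ℝ), Φ (x, y) = b * ∫ ζ, φ x ζ := fun x =>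
      lemC (hφ.comp (f := fun ζ : ℂ => (x, ζ)) (by fun_prop))
        (fun ζ h => rho_zero (hφ0 _ _ h)) hb
    simp only [h1]
    rw [integral_const_mul, integral_Ico_eq_integral_Ioc,
      ← intervalIntegral.integral_of_le zero_le_one, lemS hW hWp hE hEp b, ← mul_assoc]
    congr 1
    · field_simp
    · refine intervalIntegral.integral_congr fun x _ => ?_
      have h6 := (hRad 0 le_rfl (by norm_num)).2 U hU (pnt x b)
      rw [pnt_im x hb, coe_pnt x hb] at h6
      rw [← h6, ← integral_const_mul]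
      refine integral_congr_ae (Eventually.of_forall fun ζ => ?_)
      simp only
      by_cases h0 : rho 0 ζ = 0
      · simp [h0]
      · have a1 := rho_zero h0
        have a2 := Complex.abs_im_le_norm ζ
        rw [hW1 _ _ (by linarith), pnt]
        have : ((x + b * ζ.re : ℝ) : ℂ) + (b * (1 + ζ.im) : ℝ) * Complex.I =
            x + b * Complex.I + b * ζ := by
          conv_rhs => rw [← Complex.re_add_im ζ]
          push_cast; ring
        rw [this]; ring
  · rintro ⟨x, y⟩ ⟨-, hy⟩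
    have hy : 0 < y := hy
    have hyc : (y : ℂ) ≠ 0 := by exact_mod_cast hy.ne'
    simp only [pnt_re x hy, pnt_im x hy, Set.indicator, Set.mem_prod, Set.mem_Ico, Set.mem_univ,
      and_true]
    split_ifs with h
    · simp only [Φ]
      rw [← intervalIntegral.integral_const_mul, ← intervalIntegral.integral_const_mul]
      refine intervalIntegral.integral_congr fun v _ => ?_
      simp only [φ]
      by_cases h0 : rho 0 (-v + (y / b - 1 : ℝ) * Complex.I) = 0
      · simp only [h0]; simp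
      · have a1 := (rho_zero' h0).2
        have e1 : (-(v : ℂ) + (y / b - 1 : ℝ) * Complex.I).im = y / b - 1 := by simp
        have e2 : (-(v : ℂ) + (y / b - 1 : ℝ) * Complex.I).re = -v := by simp
        have e3 : b * (1 + (y / b - 1)) = y := by field_simp; ring
        rw [e1, e2, hW1 _ _ a1, e3, show x - b * -v = x + b * v by ring]
        generalize rho 0 (-v + (y / b - 1 : ℝ) * Complex.I) = R
        push_cast; field_simp
    · simp

end MR.PrB

namespace MR
open PrB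

theorem prb (hRad : S_Rad) : S_PrB := by
  intro κ k C₀ hκ η₁ η₂ h2 h12 U₁ U₂ hU₁ hU₂ hp₁ hp₂ h hh
  have h1 : 0 < η₁ := lt_of_lt_of_le h2 h12
  have hr : (0 : ℝ) < h := by exact_mod_cast hh
  have hc : (h : ℂ) ≠ 0 := by exact_mod_cast hr.ne'
  have h1c : (η₁ : ℂ) ≠ 0 := by exact_mod_cast h1.ne'
  have h2c : (η₂ : ℂ) ≠ 0 := by exact_mod_cast h2.ne'
  set a : ℝ := η₁ / h with ha
  set b : ℝ := η₂ / h with hb
  have a0 : 0 < a := div_pos h1 hr
  have b0 : 0 < b := div_pos h2 hr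
  set r := rr η₁ η₂ with hrr
  let K : ℂ := η₂ * (η₁ ^ (k - 1) * η₂) / (h : ℂ) ^ k
  let A : ℍ → ℝ → ℂ := fun z x =>
    U₁ z * (rho r ((z - x - a * Complex.I) / a) * (z.im / a) ^ 2 : ℝ)
  let B : ℍ → ℝ → ℂ := fun z v => ex (-(h * (z.re + b * v))) * (U₂ z *
    (rho 0 (-v + (z.im / b - 1 : ℝ) * Complex.I) * (z.im / b) ^ 2 : ℝ))
  let G : HH → ℝ → ℂ := fun z v => A z.1 (z.2.re + b * v) * B z.2 v
  have cA : Continuous A.uncurry := by
    have := hU₁.cont
    have := UpperHalfPlane.continuous_coe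
    have := UpperHalfPlane.continuous_im
    simp only [A, Function.uncurry_def]
    fun_prop
  have cB : Continuous B.uncurry := by
    have := hU₂.cont
    have := UpperHalfPlane.continuous_re
    have := UpperHalfPlane.continuous_im
    simp only [B, Function.uncurry_def]
    fun_prop
  have cG : Continuous G.uncurry := by
    have := UpperHalfPlane.continuous_re
    exact (cA.comp (f := fun p : HH × ℝ => (p.1.1, p.1.2.re + b * p.2)) (by fun_prop)).mul
      (cB.comp (f := fun p : HH × ℝ => (p.1.2, p.2)) (by fun_prop))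
  have sA : ∀ z x, A z x ≠ 0 → z ∈ box (x - a) (x + a) (a / 2) (2 * a) := by
    intro z x hz
    have h0 : rho r ((z - x - a * Complex.I) / a) ≠ 0 := fun h0 => hz (by simp [A, h0])
    have n1 := rho_half (rr_le _ _) h0
    have n2 := abs_le.1 (Complex.abs_re_le_norm ((z - x - a * Complex.I) / a))
    have n3 := abs_le.1 (Complex.abs_im_le_norm ((z - x - a * Complex.I) / a))
    have e1 : (((z : ℂ) - x - a * Complex.I) / a).re = (z.re - x) / a := by
      rw [Complex.div_ofReal_re]; simp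
    have e2 : (((z : ℂ) - x - a * Complex.I) / a).im = (z.im - a) / a := by
      rw [Complex.div_ofReal_im]; simp
    have m1 : -(1 / 2) ≤ (z.re - x) / a := by linarith [n2.1]
    have m2 : (z.re - x) / a ≤ 1 / 2 := by linarith [n2.2]
    have m3 : -(1 / 2) ≤ (z.im - a) / a := by linarith [n3.1]
    have m4 : (z.im - a) / a ≤ 1 / 2 := by linarith [n3.2]
    rw [le_div_iff₀ a0] at m1 m3
    rw [div_le_iff₀ a0] at m2 m4
    exact ⟨by linarith, by linarith, by linarith, by linarith⟩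
  have sB : ∀ z v, B z v ≠ 0 → |v| ≤ 1 ∧ b / 2 ≤ z.im ∧ z.im ≤ 2 * b := by
    intro z v hz
    have h0 : rho 0 (-v + (z.im / b - 1 : ℝ) * Complex.I) ≠ 0 := fun h0 =>
      hz (by simp only [B, h0]; simp)
    obtain ⟨n1, n2⟩ := rho_zero' h0
    rw [abs_lt] at n2
    have m1 : 1 / 2 ≤ z.im / b := by linarith [n2.1]
    have m2 : z.im / b ≤ 2 := by linarith [n2.2]
    rw [le_div_iff₀ b0] at m1
    rw [div_le_iff₀ b0] at m2
    exact ⟨by linarith, by linarith, m2⟩
  have sG : ∀ (z : HH) v, 0 ≤ z.2.re → z.2.re < 1 → G z v ≠ 0 →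
      z.1 ∈ box (-b - a) (1 + b + a) (a / 2) (2 * a) ∧ z.2 ∈ box 0 1 (b / 2) (2 * b) := by
    intro z v z0 z1 hz
    obtain ⟨n1, n2, n3, n4⟩ := sA _ _ (left_ne_zero_of_mul hz)
    obtain ⟨n5, n6, n7⟩ := sB _ _ (right_ne_zero_of_mul hz)
    rw [abs_le] at n5
    exact ⟨⟨by nlinarith [n5.1], by nlinarith [n5.2], n3, n4⟩, z0, z1.le, n6, n7⟩
  -- the integrand
  have step1 : ∀ z : HH, U₁ z.1 * U₂ z.2 * κ z.1 z.2 * pt (prf κ k η₁ η₂) h z =
      K * if 0 ≤ z.2.re ∧ z.2.re < 1 then ∫ v in (-1 : ℝ)..1, G z v else 0 := by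
    intro z
    unfold pt
    split_ifs with hz
    swap
    · simp
    have e1 : ((h : ℂ) * z.2).re = h * z.2.re := by simp
    have e2 : ((h : ℂ) * z.2).im = h * z.2.im := by simp
    unfold ph prf
    rw [e1, e2]
    set w : ℂ := h * (z.1 : ℂ) - (h * z.2.re : ℝ) with hw
    set y : ℝ := h * z.2.im with hy
    have e3 : κ w (y * Complex.I) = (h : ℂ) ^ k * κ z.1 z.2 := by
      have t1 := hκ.tr z.2.re (z.1 - z.2.re) (z.2.im * Complex.I)
      have t2 := hκ.hom h hr (z.1 - z.2.re) (z.2.im * Complex.I)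
      have t3 : (z.2.im : ℂ) * Complex.I + z.2.re = z.2 := by
        rw [add_comm]; exact Complex.re_add_im _
      rw [sub_add_cancel, t3] at t1
      rw [t1, ← Complex.ofReal_natCast, ← t2, hw, hy]
      congr 1 <;> push_cast <;> ring
    rw [← intervalIntegral.integral_const_mul, ← intervalIntegral.integral_const_mul,
      ← intervalIntegral.integral_const_mul, ← intervalIntegral.integral_const_mul]
    refine intervalIntegral.integral_congr fun v _ => ?_
    have e4 : ((z.1 : ℂ) - (z.2.re + b * v : ℝ) - a * Complex.I) / a =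
        (w - η₂ * v - η₁ * Complex.I) / η₁ := by
      rw [hw, ha, hb]; push_cast; field_simp; ring
    have e5 : z.2.im / b = y / η₂ := by rw [hy, hb]; field_simp
    have e6 : z.1.im / a = w.im / η₁ := by rw [hw, ha]; simp; field_simp
    have e7 : ex (-(h * (z.2.re + b * v))) = ex (-(h * z.2.re)) * ex (-(η₂ * v)) := by
      rw [← ex_add]; congr 1; rw [hb]; field_simp; ring
    have e8 : ((y / η₂ - 1 : ℝ) : ℂ) = y / η₂ - 1 := by push_cast; rfl
    simp only [G, A, B, e4, e5, e6, e7, e8, ← hrr]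
    by_cases c1 : rho r ((w - η₂ * v - η₁ * Complex.I) / η₁) = 0
    · simp [c1]
    by_cases c2 : rho 0 (-v + (y / η₂ - 1) * Complex.I) = 0
    · simp [c2]
    have c3 := kap_ne hκ h2 h12 c1 c2
    rw [e3] at c3 ⊢
    have c4 := right_ne_zero_of_mul c3
    generalize rho r ((w - η₂ * v - η₁ * Complex.I) / η₁) = R₁
    generalize rho 0 (-v + (y / η₂ - 1) * Complex.I) = R₂
    simp only [K]
    push_cast
    field_simp
  have hS : MeasurableSet {z : HH | 0 ≤ z.2.re ∧ z.2.re < 1} := by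
    have := (UpperHalfPlane.continuous_re.comp (continuous_snd (X := ℍ))).measurable
    exact (measurableSet_le measurable_const this).inter (measurableSet_lt this measurable_const)
  have step2 : Integrable (fun z : HH =>
      if 0 ≤ z.2.re ∧ z.2.re < 1 then ∫ v in (-1 : ℝ)..1, G z v else 0)
      ((volume : Measure ℍ).prod volume) := by
    have := (integrable_indicator_iff hS).2 (int_cpt (μ := (volume : Measure ℍ).prod volume)
      (intervalIntegral.continuous_parametric_intervalIntegral_of_continuous' (μ := volume)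
        cG (-1) 1) hS
      ((box_cpt (-b - a) (1 + b + a) (2 * a) (half_pos a0)).prod
        (box_cpt 0 1 (2 * b) (half_pos b0))) fun z hz h0 => by
        obtain ⟨v, hv⟩ := ne_of_ii h0
        exact sG z v hz.1 hz.2 hv)
    refine this.congr (Eventually.of_forall fun z => ?_)
    simp only [Set.indicator, Set.mem_setOf_eq]
  let E : ℝ → ℂ := fun x => U₁ (pnt x a) * ex (-(h * x))
  have cE : Continuous E :=
    (hU₁.cont.comp (cont_pnt continuous_id continuous_const fun _ => a0)).mul (by fun_prop)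
  have pE : ∀ x, E (x + 1) = E x := by
    intro x
    simp only [E]
    rw [per_pnt hp₁ x a0, show -((h : ℝ) * (x + 1)) = -(h * x) + ((-h : ℤ) : ℝ) by
      push_cast; ring, ex_add_int]
  have step3 : ∀ z₂ : ℍ, ∫ z₁ : ℍ, (if 0 ≤ z₂.re ∧ z₂.re < 1 then
      ∫ v in (-1 : ℝ)..1, G (z₁, z₂) v else 0) = if 0 ≤ z₂.re ∧ z₂.re < 1 then
      ∫ v in (-1 : ℝ)..1, E (z₂.re + b * v) * (U₂ z₂ *
        (rho 0 (-v + (z₂.im / b - 1 : ℝ) * Complex.I) * (z₂.im / b) ^ 2 : ℝ)) else 0 := by
    intro z₂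
    split_ifs with hz
    swap
    · simp
    rw [← intervalIntegral_integral_swap (f := fun v z₁ => G (z₁, z₂) v)]
    · refine intervalIntegral.integral_congr fun v _ => ?_
      simp only [G]
      rw [integral_mul_const, lemA hRad (rr_nonneg _ _) (rr_le _ _) hU₁ a0]
      simp only [E, B]
      ring
    · rw [← Measure.restrict_univ (μ := (volume : Measure ℍ)), Measure.prod_restrict]
      refine int_cpt (F := fun p : ℝ × ℍ => G (p.2, z₂) p.1)
        (cG.comp (f := fun p : ℝ × ℍ => ((p.2, z₂), p.1)) (by fun_prop))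
        (measurableSet_uIoc.prod MeasurableSet.univ)
        ((isCompact_uIcc (a := (-1 : ℝ)) (b := 1)).prod
          (box_cpt (-b - a) (1 + b + a) (2 * a) (half_pos a0)))
        fun p hp h0 => ⟨Set.uIoc_subset_uIcc hp.1, (sG (p.2, z₂) p.1 hz.1 hz.2 h0).1⟩
  simp only [step1]
  rw [integral_const_mul, Measure.volume_eq_prod, integral_prod_symm _ step2]
  simp only [step3]
  rw [lemD hRad hU₂ hp₂ cE pE b0, ← mul_assoc, ← intervalIntegral.integral_const_mul,
    ← intervalIntegral.integral_div]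
  refine intervalIntegral.integral_congr fun x _ => ?_
  simp only [K, E, hb]
  push_cast
  field_simp

end MR
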