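import Pool.Agent.P.MP_79de8b_nt.Ms

/-! The test functions of a profile: support, norm and orthogonality. -/

open Complex UpperHalfPlane MeasureTheory Finset CongruenceSubgroup Filter Topology
open scoped Real MatrixGroups ComplexConjugate ENNReal NNReal

noncomputable section
namespace MR
namespace Pt

variable {A η₁ η₂ : ℝ} {θ : ℂ → ℝ → ℂ}

lemma pos1 (P : Prof A η₁ η₂ θ) : 0 < η₁ := lt_of_lt_of_le P.pos P.le

/-- A profile is continuous. -/
lemma cont (P : Prof A η₁ η₂ θ) : Continuous fun p : ℂ × ℝ => θ p.1 p.2 := by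
  have h1 := pos1 P
  have h2 := P.pos
  have hA := P.nn
  refine (LipschitzWith.of_dist_le_mul (K := ⟨A * (1 / η₁ + 1 / η₂), by positivity⟩)
    fun p q => ?_).continuous
  rw [dist_eq_norm]
  refine (P.lip _ _ _ _).trans ?_
  have e1 : ‖p.1 - q.1‖ ≤ dist p q := by
    rw [← dist_eq_norm, Prod.dist_eq]; exact le_max_left _ _
  have e2 : |p.2 - q.2| ≤ dist p q := by
    rw [← Real.dist_eq, Prod.dist_eq]; exact le_max_right _ _
  have e3 : ‖p.1 - q.1‖ / η₁ ≤ dist p q / η₁ := div_le_div_of_nonneg_right e1 h1.le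
  have e4 : |p.2 - q.2| / η₂ ≤ dist p q / η₂ := div_le_div_of_nonneg_right e2 h2.le
  calc A * (‖p.1 - q.1‖ / η₁ + |p.2 - q.2| / η₂) ≤ A * (dist p q / η₁ + dist p q / η₂) := by
        gcongr
    _ = A * (1 / η₁ + 1 / η₂) * dist p q := by ring

lemma pt_eq (h : ℕ) (z : HH) : pt θ h z = if 0 ≤ z.2.re ∧ z.2.re < 1 then
    ex (-(h * z.2.re)) * θ (h * ((z.1 : ℂ) - z.2.re)) (h * z.2.im) else 0 := by
  unfold pt ph
  split_ifs
  · congr 2
    · simp
    · simp [mul_sub]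
    · simp
  · rfl

lemma meas_re : Measurable fun z : ℍ => z.re := UpperHalfPlane.continuous_re.measurable

lemma meas_im : Measurable fun z : ℍ => z.im := UpperHalfPlane.continuous_im.measurable

lemma meas_pt (P : Prof A η₁ η₂ θ) (h : ℕ) : Measurable (pt θ h) := by
  have e : pt θ h = fun z : HH => if 0 ≤ z.2.re ∧ z.2.re < 1 then
      ex (-(h * z.2.re)) * θ (h * ((z.1 : ℂ) - z.2.re)) (h * z.2.im) else 0 :=
    funext (pt_eq h)
  rw [e]
  have m1 : Measurable fun z : HH => z.2.re := meas_re.comp measurable_snd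
  have m2 : Measurable fun z : HH => z.2.im := meas_im.comp measurable_snd
  have m3 : Measurable fun z : HH => (z.1 : ℂ) := UpperHalfPlane.measurable_coe.comp measurable_fst
  refine Measurable.ite ?_ ?_ measurable_const
  · exact (measurableSet_le measurable_const m1).inter (measurableSet_lt m1 measurable_const)
  · refine Measurable.mul (measurable_ex.comp (m1.const_mul _).neg) ?_
    exact (cont P).measurable.comp
      (((m3.sub (Complex.measurable_ofReal.comp m1)).const_mul _).prodMk (m2.const_mul _))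

lemma norm_pt_le (P : Prof A η₁ η₂ θ) (h : ℕ) (z : HH) : ‖pt θ h z‖ ≤ A := by
  rw [pt_eq]
  split_ifs
  · rw [norm_mul, norm_ex, one_mul]; exact P.bd _ _
  · simpa using P.nn

/-- The support conditions. -/
lemma supp_pt (P : Prof A η₁ η₂ θ) {h : ℕ} {z : HH} (hz : pt θ h z ≠ 0) :
    (0 ≤ z.2.re ∧ z.2.re < 1) ∧ η₁ / 2 ≤ h * z.1.im ∧ h * z.1.im ≤ 2 * η₁ ∧
      |h * (z.1.re - z.2.re)| ≤ 2 * η₁ ∧ η₂ / 2 ≤ h * z.2.im ∧ h * z.2.im ≤ 2 * η₂ := by
  rw [pt_eq] at hz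
  split_ifs at hz with hs
  · have := P.supp _ _ (right_ne_zero_of_mul hz)
    refine ⟨hs, ?_⟩
    simpa using this
  · exact absurd rfl hz

lemma del_le (P : Prof A η₁ η₂ θ) {h : ℕ} (hh : 1 ≤ h) {z : HH} (hz : pt θ h z ≠ 0) :
    del z ≤ 80 * η₁ / η₂ := by
  obtain ⟨-, a1, a2, a3, a4, a5⟩ := supp_pt P hz
  have h1 := pos1 P
  have h2 := P.pos
  have h3 := P.le
  have hh' : (0 : ℝ) < h := by exact_mod_cast hh
  have y1 := z.1.im_pos
  have y2 := z.2.im_pos
  have e : ‖(z.1 : ℂ) - conj (z.2 : ℂ)‖ ^ 2 = (z.1.re - z.2.re) ^ 2 + (z.1.im + z.2.im) ^ 2 := by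
    rw [← Complex.normSq_eq_norm_sq, Complex.normSq_apply]; simp; ring
  unfold del
  rw [e, div_le_div_iff₀ (by positivity) h2]
  have b1 : ((h : ℝ) * (z.1.re - z.2.re)) ^ 2 ≤ (2 * η₁) ^ 2 := by
    rw [← sq_abs]; gcongr
  have b2 : ((h : ℝ) * z.1.im + h * z.2.im) ^ 2 ≤ (4 * η₁) ^ 2 := by
    gcongr; linarith
  have b3 : η₁ / 2 * (η₂ / 2) ≤ (h * z.1.im) * (h * z.2.im) := by gcongr
  have hsq : (0 : ℝ) < (h : ℝ) ^ 2 := by positivity
  refine le_of_mul_le_mul_left ?_ hsq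
  calc (h : ℝ) ^ 2 * (((z.1.re - z.2.re) ^ 2 + (z.1.im + z.2.im) ^ 2) * η₂)
      = (((h : ℝ) * (z.1.re - z.2.re)) ^ 2 + ((h : ℝ) * z.1.im + h * z.2.im) ^ 2) * η₂ := by ring
    _ ≤ ((2 * η₁) ^ 2 + (4 * η₁) ^ 2) * η₂ := by gcongr
    _ = 80 * η₁ * (η₁ / 2 * (η₂ / 2)) := by ring
    _ ≤ 80 * η₁ * ((h * z.1.im) * (h * z.2.im)) := by gcongr
    _ = _ := by ring

/-- The box in sheared coordinates. -/
def box (η₁ η₂ : ℝ) (h : ℕ) : Set HH :=
  {z : ℍ | -(2 * η₁ / h) ≤ z.re ∧ z.re ≤ 2 * η₁ / h ∧ η₁ / (2 * h) ≤ z.im ∧ z.im ≤ 2 * η₁ / h} ×ˢ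
  {z : ℍ | 0 ≤ z.re ∧ z.re ≤ 1 ∧ η₂ / (2 * h) ≤ z.im ∧ z.im ≤ 2 * η₂ / h}

lemma meas_box1 (a b c d : ℝ) :
    MeasurableSet {z : ℍ | a ≤ z.re ∧ z.re ≤ b ∧ c ≤ z.im ∧ z.im ≤ d} :=
  (measurableSet_le measurable_const meas_re).inter
    ((measurableSet_le meas_re measurable_const).inter
      ((measurableSet_le measurable_const meas_im).inter (measurableSet_le meas_im measurable_const)))

lemma meas_box (η₁ η₂ : ℝ) (h : ℕ) : MeasurableSet (box η₁ η₂ h) :=
  (meas_box1 _ _ _ _).prod (meas_box1 _ _ _ _)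

lemma volume_box' (h1 : 0 < η₁) (h2 : 0 < η₂) {h : ℕ} (hh : 1 ≤ h) :
    volume (box η₁ η₂ h) = ENNReal.ofReal (9 * h / η₂) := by
  have hh' : (0 : ℝ) < h := by exact_mod_cast hh
  unfold box
  rw [Measure.volume_eq_prod, Measure.prod_prod,
    volume_box (by positivity) (by rw [div_le_div_iff₀ (by positivity) hh']; nlinarith),
    volume_box (by positivity) (by rw [div_le_div_iff₀ (by positivity) hh']; nlinarith)]
  have e1 : 1 / (η₁ / (2 * h)) - 1 / (2 * η₁ / h) = 3 * h / (2 * η₁) := by field_simp; ring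
  have e2 : 1 / (η₂ / (2 * h)) - 1 / (2 * η₂ / h) = 3 * h / (2 * η₂) := by field_simp; ring
  have e3 : 2 * η₁ / h - -(2 * η₁ / h) = 4 * η₁ / h := by ring
  rw [e1, e2, e3, sub_zero, ← ENNReal.ofReal_mul (by positivity), ← ENNReal.ofReal_mul zero_le_one,
    ← ENNReal.ofReal_mul (by positivity)]
  congr 1
  field_simp
  ring

/-- A set containing the support of `pt θ h`. -/
def sup (η₁ η₂ : ℝ) (h : ℕ) : Set HH := shear.symm ⁻¹' box η₁ η₂ h

lemma meas_sup (η₁ η₂ : ℝ) (h : ℕ) : MeasurableSet (sup η₁ η₂ h) :=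
  shear.symm.measurable (meas_box η₁ η₂ h)

lemma volume_sup (h1 : 0 < η₁) (h2 : 0 < η₂) {h : ℕ} (hh : 1 ≤ h) :
    volume (sup η₁ η₂ h) = ENNReal.ofReal (9 * h / η₂) := by
  rw [sup, (mp_shear.symm shear).measure_preimage (meas_box η₁ η₂ h).nullMeasurableSet,
    volume_box' h1 h2 hh]

lemma mem_sup (P : Prof A η₁ η₂ θ) {h : ℕ} (hh : 1 ≤ h) {z : HH} (hz : pt θ h z ≠ 0) :
    z ∈ sup η₁ η₂ h := by
  obtain ⟨⟨s1, s2⟩, a1, a2, a3, a4, a5⟩ := supp_pt P hz
  have hh' : (0 : ℝ) < h := by exact_mod_cast hh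
  rw [abs_le] at a3
  change (((-z.2.re) +ᵥ z.1 : ℍ), z.2) ∈ box η₁ η₂ h
  refine ⟨⟨?_, ?_, ?_, ?_⟩, s1, s2.le, ?_, ?_⟩
  · rw [UpperHalfPlane.vadd_re, ← neg_div, div_le_iff₀ hh']; linarith [a3.1]
  · rw [UpperHalfPlane.vadd_re, le_div_iff₀ hh']; linarith [a3.2]
  · rw [UpperHalfPlane.vadd_im, div_le_iff₀ (by positivity)]; linarith
  · rw [UpperHalfPlane.vadd_im, le_div_iff₀ hh']; linarith
  · rw [div_le_iff₀ (by positivity)]; linarith
  · rw [le_div_iff₀ hh']; linarith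

lemma norm_pt_le_ind (P : Prof A η₁ η₂ θ) {h : ℕ} (hh : 1 ≤ h) (z : HH) :
    ‖pt θ h z‖ ≤ (sup η₁ η₂ h).indicator (fun _ => A) z := by
  by_cases hz : pt θ h z = 0
  · rw [hz, norm_zero]; exact Set.indicator_nonneg (fun _ _ => P.nn) z
  · rw [Set.indicator_of_mem (mem_sup P hh hz)]; exact norm_pt_le P h z

lemma memLp_pt (P : Prof A η₁ η₂ θ) {h : ℕ} (hh : 1 ≤ h) (p : ℝ≥0∞) :
    MemLp (pt θ h) p volume := by
  have hfin : volume (sup η₁ η₂ h) ≠ ⊤ := by
    rw [volume_sup (pos1 P) P.pos hh]; exact ENNReal.ofReal_ne_top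
  refine (memLp_indicator_const p (meas_sup η₁ η₂ h) A (Or.inr hfin)).mono'
    (meas_pt P h).aestronglyMeasurable (Eventually.of_forall (norm_pt_le_ind P hh))

lemma adm (P : Prof A η₁ η₂ θ) {h : ℕ} (hh : 1 ≤ h) :
    Adm volume (SY (η₁ / (2 * h))) (pt θ h) := by
  refine ⟨meas_pt P h, memLp_pt P hh 2, fun z hz => ?_⟩
  by_contra hne
  obtain ⟨⟨s1, s2⟩, a1, -⟩ := supp_pt P hne
  have hh' : (0 : ℝ) < h := by exact_mod_cast hh
  exact hz ⟨by rw [div_le_iff₀ (by positivity)]; linarith, s1, s2⟩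

lemma DD_le (P : Prof A η₁ η₂ θ) : DD θ ≤ 9 * A ^ 2 / η₂ := by
  have h2 := P.pos
  have hv := volume_sup (pos1 P) P.pos (h := 1) le_rfl
  have hfin : volume (sup η₁ η₂ 1) ≠ ⊤ := by rw [hv]; exact ENNReal.ofReal_ne_top
  have hi : Integrable ((sup η₁ η₂ 1).indicator fun _ => A ^ 2) volume :=
    (integrable_indicator_iff (meas_sup η₁ η₂ 1)).2 (integrableOn_const hfin)
  have : DD θ ≤ ∫ z, (sup η₁ η₂ 1).indicator (fun _ => A ^ 2) z := by
    refine integral_mono_of_nonneg (Eventually.of_forall fun z => by positivity) hi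
      (Eventually.of_forall fun z => ?_)
    by_cases hz : pt θ 1 z = 0
    · simp only [hz, norm_zero]
      rw [zero_pow two_ne_zero]
      exact Set.indicator_nonneg (fun _ _ => by positivity) z
    · simp only
      rw [Set.indicator_of_mem (mem_sup P le_rfl hz)]
      have := norm_pt_le P 1 z
      gcongr
  refine this.trans (le_of_eq ?_)
  rw [integral_indicator_const _ (meas_sup η₁ η₂ 1), Measure.real, hv,
    ENNReal.toReal_ofReal (by positivity), smul_eq_mul]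
  push_cast
  ring

/-- Separation of variables on `ℍ`. -/
lemma integral_sep (a b : ℝ → ℂ) : ∫ z : ℍ, a z.re * b z.im =
    (∫ x, a x) * ∫ y in Set.Ioi (0 : ℝ), ((1 / y ^ 2 : ℝ) : ℂ) * b y := by
  have := mp_reim.integral_comp me_reim (fun p => a p.1 * b p.2)
  rw [this, muR, integral_withDensity_eq_integral_toReal_smul (by fun_prop) (by simp),
    ← integral_prod_mul]
  refine integral_congr_ae (Eventually.of_forall fun z => ?_)
  simp only
  rw [ENNReal.toReal_ofReal (by positivity), Complex.real_smul]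
  ring

/-- Scaling on `ℍ`. -/
lemma integral_scale (F : ℂ → ℂ) {h : ℝ} (hh : 0 < h) :
    ∫ w : ℍ, F (h * (w : ℂ)) = ∫ w : ℍ, F w := by
  have hd : (!![h, 0; 0, 1] : Matrix (Fin 2) (Fin 2) ℝ).det ≠ 0 := by
    simp [Matrix.det_fin_two, hh.ne']
  have : MeasurableConstSMul (GL (Fin 2) ℝ) ℍ := ⟨fun g => (continuous_const_smul g).measurable⟩
  rw [← integral_smul_eq_self (fun w : ℍ => F w) (g := Matrix.GeneralLinearGroup.mkOfDetNeZero _ hd)]
  refine integral_congr_ae (Eventually.of_forall fun z => ?_)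
  simp only
  rw [UpperHalfPlane.coe_smul_of_det_pos (by simpa [Matrix.det_fin_two] using hh)]
  simp [UpperHalfPlane.num, UpperHalfPlane.denom]

lemma integral_scale_y (g : ℝ → ℂ) {h : ℝ} (hh : 0 < h) :
    ∫ y in Set.Ioi (0 : ℝ), ((1 / y ^ 2 : ℝ) : ℂ) * g (h * y) =
      h * ∫ y in Set.Ioi (0 : ℝ), ((1 / y ^ 2 : ℝ) : ℂ) * g y := by
  have := integral_comp_mul_left_Ioi (fun y : ℝ => ((1 / y ^ 2 : ℝ) : ℂ) * g y) 0 hh
  rw [mul_zero] at this
  have hc : (h : ℂ) ≠ 0 := by exact_mod_cast hh.ne'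
  have e : ∫ y in Set.Ioi (0 : ℝ), ((1 / y ^ 2 : ℝ) : ℂ) * g (h * y) =
      (h : ℂ) ^ 2 * ∫ y in Set.Ioi (0 : ℝ), ((1 / (h * y) ^ 2 : ℝ) : ℂ) * g (h * y) := by
    rw [← integral_const_mul]
    refine setIntegral_congr_fun measurableSet_Ioi fun y hy => ?_
    have hy' : (y : ℂ) ≠ 0 := by exact_mod_cast (ne_of_gt hy)
    push_cast
    field_simp
  rw [e, this, Complex.real_smul]
  push_cast
  field_simp

/-- The horizontal factor. -/
def aa (m n : ℕ) (x : ℝ) : ℂ := if 0 ≤ x ∧ x < 1 then ex (((n : ℤ) - m : ℤ) * x / 1) else 0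

lemma integral_aa (m n : ℕ) : ∫ x, aa m n x = if m = n then 1 else 0 := by
  have e : aa m n = (Set.Ico (0 : ℝ) 1).indicator fun x => ex (((n : ℤ) - m : ℤ) * x / 1) := by
    funext x
    simp only [aa, Set.indicator_apply, Set.mem_Ico]
  rw [e, integral_indicator measurableSet_Ico, integral_Ico_eq_integral_Ioo,
    ← integral_Ioc_eq_integral_Ioo, ← intervalIntegral.integral_of_le zero_le_one,
    integral_ex one_ne_zero]
  by_cases h : m = n
  · simp [h]
  · rw [if_neg h, if_neg (by omega)]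

/-- The remaining factor. -/
def GG (θ : ℂ → ℝ → ℂ) (m n : ℕ) : ℂ :=
  ∫ w : ℍ, ∫ y in Set.Ioi (0 : ℝ), ((1 / y ^ 2 : ℝ) : ℂ) *
    (θ (m * (w : ℂ)) (m * y) * conj (θ (n * (w : ℂ)) (n * y)))

lemma inner_eq (P : Prof A η₁ η₂ θ) {m : ℕ} (hm : 1 ≤ m) (n : ℕ) :
    ∫ z : HH, pt θ m z * conj (pt θ n z) = (if m = n then 1 else 0) * GG θ m n := by
  have hi : Integrable (fun z : HH => pt θ m z * conj (pt θ n z)) volume := by
    have := (memLp_one_iff_integrable.1 (memLp_pt P hm 1)).mul_bdd (c := A)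
      (g := fun z => conj (pt θ n z))
      (Complex.continuous_conj.measurable.comp (meas_pt P n)).aestronglyMeasurable
      (Eventually.of_forall fun z => by rw [RCLike.norm_conj]; exact norm_pt_le P n z)
    exact this
  have hi2 := (mp_shear.integrable_comp_emb shear.measurableEmbedding).2 hi
  have e : ((fun z : HH => pt θ m z * conj (pt θ n z)) ∘ shear) = fun z : HH => aa m n z.2.re *
      (θ (m * (z.1 : ℂ)) (m * z.2.im) * conj (θ (n * (z.1 : ℂ)) (n * z.2.im))) := by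
    funext z
    simp only [Function.comp, pt_eq, shear_fst, shear_snd, aa, add_sub_cancel_right]
    split_ifs
    · rw [map_mul, conj_ex, neg_neg]
      have : ex (((n : ℤ) - m : ℤ) * z.2.re / 1) = ex (-(m * z.2.re)) * ex (n * z.2.re) := by
        rw [← ex_add]; congr 1; push_cast; ring
      rw [this]; ring
    · simp
  rw [← mp_shear.integral_comp' (fun z : HH => pt θ m z * conj (pt θ n z))]
  change ∫ z : HH, ((fun z : HH => pt θ m z * conj (pt θ n z)) ∘ shear) z = _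
  rw [e] at hi2 ⊢
  rw [Measure.volume_eq_prod] at hi2 ⊢
  rw [integral_prod _ hi2, GG, ← integral_const_mul]
  refine integral_congr_ae (Eventually.of_forall fun w => ?_)
  simp only
  rw [integral_sep (aa m n)
    (fun y => θ (m * (w : ℂ)) (m * y) * conj (θ (n * (w : ℂ)) (n * y))), integral_aa]

lemma GG_scale {m : ℕ} (hm : 1 ≤ m) : GG θ m m = m * GG θ 1 1 := by
  have hm' : (0 : ℝ) < m := by exact_mod_cast hm
  unfold GG
  have e1 : ∀ w : ℍ, ∫ y in Set.Ioi (0 : ℝ), ((1 / y ^ 2 : ℝ) : ℂ) *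
      (θ (m * (w : ℂ)) (m * y) * conj (θ (m * (w : ℂ)) (m * y))) =
      (m : ℂ) * ∫ y in Set.Ioi (0 : ℝ), ((1 / y ^ 2 : ℝ) : ℂ) *
      (θ (m * (w : ℂ)) y * conj (θ (m * (w : ℂ)) y)) := fun w => by
    simpa using integral_scale_y (fun y => θ (m * (w : ℂ)) y * conj (θ (m * (w : ℂ)) y)) hm'
  simp_rw [e1]
  rw [integral_const_mul]
  congr 1
  have := integral_scale (fun u => ∫ y in Set.Ioi (0 : ℝ), ((1 / y ^ 2 : ℝ) : ℂ) *
    (θ u y * conj (θ u y))) hm'
  simp only [Complex.ofReal_natCast] at this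
  simp only [Nat.cast_one, one_mul]
  exact this

lemma DD_eq (P : Prof A η₁ η₂ θ) : (DD θ : ℂ) = GG θ 1 1 := by
  have := inner_eq P (m := 1) le_rfl 1
  rw [if_pos rfl, one_mul] at this
  rw [← this, DD, ← integral_complex_ofReal]
  refine integral_congr_ae (Eventually.of_forall fun z => ?_)
  simp only
  rw [Complex.mul_conj, Complex.normSq_eq_norm_sq]

end Pt

theorem ptt : S_Pt := by
  intro A η₁ η₂ θ P
  refine ⟨fun h hh => ⟨Pt.adm P hh, fun z hz => Pt.del_le P hh hz⟩, Pt.DD_le P,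
    fun m n hm _ => ?_⟩
  rw [Pt.inner_eq P hm n]
  split_ifs with h
  · subst h
    rw [one_mul, Pt.GG_scale hm, Pt.DD_eq P]
  · rw [zero_mul]

end MR
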