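import Pool.Agent.P.MP_79de8b_nt.Basic

/-! The error in the identity of Ramare. -/

open Finset

noncomputable section
namespace MR
namespace R1

variable {a : ℕ → ℂ} {S : Finset ℕ} {c K : ℝ} {m p : ℕ}

/-- The normalised square. -/
def ga (a : ℕ → ℂ) (n : ℕ) : ℝ := ‖a n‖ ^ 2 / (n : ℝ) ^ 2

/-- The contribution of one prime to the error. -/
def er (a : ℕ → ℂ) (S : Finset ℕ) (m p : ℕ) : ℂ :=
  a m / om S m - (a p * a (m / p) / (om S (m / p) + 1) +
    if p ^ 2 ∣ m then a (p ^ 2) * a (m / p ^ 2) / (om S (m / p ^ 2) + 1) else 0)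

/-- The local weight. -/
def tt (a : ℕ → ℂ) (K : ℝ) (p v : ℕ) : ℝ :=
  if v = 2 then ga a p ^ 2 else 9 * K ^ 2 * ((p : ℝ) ^ (-(2 / 5 : ℝ))) ^ v

lemma ww_nonneg (t : ℝ) : 0 ≤ ww t := by unfold ww; positivity

lemma tt_nonneg (a : ℕ → ℂ) (K : ℝ) (p v : ℕ) : 0 ≤ tt a K p v := by
  unfold tt; split_ifs <;> positivity

lemma ident (hS : ∀ p ∈ S, p.Prime) (m : ℕ) :
    a m - aE a S m - aR a S m = ∑ p ∈ S.filter (· ∣ m), er a S m p := by
  unfold er
  rw [sum_sub_distrib]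
  congr 1
  · rw [sum_const, nsmul_eq_mul, aE]
    change _ = (om S m : ℂ) * _
    split_ifs with h
    · simp [h]
    · rw [mul_div_cancel₀ _ (Nat.cast_ne_zero.mpr h), sub_zero]
  · unfold aR PS
    rw [filter_union, sum_union, sum_add_distrib, filter_image,
      sum_image fun x _ y _ h => Nat.pow_left_injective two_ne_zero h, ← sum_filter, filter_filter]
    · congr 2
      exact filter_congr fun p _ => ⟨fun h => ⟨(dvd_pow_self p two_ne_zero).trans h, h⟩, And.right⟩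
    · refine disjoint_left.mpr fun x h1 h2 => ?_
      obtain ⟨y, -, rfl⟩ := mem_image.mp (mem_filter.mp h2).1
      exact Nat.Prime.not_prime_pow le_rfl (hS _ (mem_filter.mp h1).1)

lemma om_mul (hS : ∀ p ∈ S, p.Prime) (hp : p ∈ S) (hm : ¬p ∣ m) (v : ℕ) :
    om S (p ^ (v + 1) * m) = om S m + 1 := by
  unfold om
  rw [← card_insert_of_notMem (a := p) fun h => hm (mem_filter.mp h).2]
  congr 1
  ext q
  simp only [mem_filter, mem_insert]
  constructor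
  · rintro ⟨h1, h2⟩
    rcases ((hS q h1).dvd_mul).mp h2 with h3 | h3
    · exact Or.inl ((Nat.prime_dvd_prime_iff_eq (hS q h1) (hS p hp)).mp
        ((hS q h1).dvd_of_dvd_pow h3))
    · exact Or.inr ⟨h1, h3⟩
  · rintro (rfl | ⟨h1, h2⟩)
    · exact ⟨hp, (dvd_pow_self q v.succ_ne_zero).mul_right m⟩
    · exact ⟨h1, h2.mul_left _⟩

lemma term (a : ℕ → ℂ) (s t n : ℕ) :
    ‖a s * a t / (n + 1)‖ ^ 2 / ((s * t : ℕ) : ℝ) ^ 2 ≤ ga a s * ga a t := by
  have h : (1 : ℝ) ≤ ‖(n : ℂ) + 1‖ := by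
    rw [← Nat.cast_succ, Complex.norm_natCast]
    exact_mod_cast n.succ_pos
  unfold ga
  rw [div_mul_div_comm, ← mul_pow, ← mul_pow, ← norm_mul, Nat.cast_mul, norm_div]
  gcongr
  exact div_le_self (norm_nonneg _) h

lemma ga_pow (W : Wt (ga a) c K) (hp : p.Prime) (i : ℕ) :
    ga a (p ^ i) ≤ K * ((p : ℝ) ^ (-(2 / 5 : ℝ))) ^ i := by
  refine (W.pw _ (Nat.one_le_pow _ _ hp.pos)).trans_eq ?_
  rw [Nat.cast_pow, ← Real.rpow_natCast, ← Real.rpow_natCast, ← Real.rpow_mul (by positivity),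
    ← Real.rpow_mul (by positivity), mul_comm (i : ℝ)]

lemma er_one (ha : ∀ m n : ℕ, m.Coprime n → a (m * n) = a m * a n) (hS : ∀ p ∈ S, p.Prime)
    (hp : p ∈ S) (h1 : p ∣ m) (h2 : ¬p ^ 2 ∣ m) : er a S m p = 0 := by
  obtain ⟨t, rfl⟩ := h1
  have ht : ¬p ∣ t := fun h => h2 (by rw [pow_two]; exact mul_dvd_mul_left p h)
  have h3 := om_mul hS hp ht 0
  rw [zero_add, pow_one] at h3
  rw [er, if_neg h2, h3, Nat.mul_div_cancel_left _ (hS p hp).pos,
    ha _ _ ((hS p hp).coprime_iff_not_dvd.mpr ht)]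
  simp

lemma er_le (W : Wt (ga a) c K) (ha : ∀ m n : ℕ, m.Coprime n → a (m * n) = a m * a n)
    (hS : ∀ p ∈ S, p.Prime) (hp : p ∈ S) {t : ℕ} (ht : ¬p ∣ t) (v : ℕ) :
    ‖er a S (p ^ (v + 2) * t) p‖ ^ 2 / ((p ^ (v + 2) * t : ℕ) : ℝ) ^ 2 ≤
      tt a K p (v + 2) * ga a t := by
  have hq := hS p hp
  have hc : ∀ i, (p ^ i).Coprime t := fun i => (hq.coprime_iff_not_dvd.mpr ht).pow_left i
  have e1 : p ^ (v + 2) * t = p * (p ^ (v + 1) * t) := by ring
  have e2 : p ^ (v + 2) * t = p ^ 2 * (p ^ v * t) := by ring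
  have d1 : p ^ (v + 2) * t / p = p ^ (v + 1) * t := by rw [e1, Nat.mul_div_cancel_left _ hq.pos]
  have d2 : p ^ (v + 2) * t / p ^ 2 = p ^ v * t := by
    rw [e2, Nat.mul_div_cancel_left _ (pow_pos hq.pos 2)]
  have t0 := term a (p ^ (v + 2)) t (om S t)
  have t1 := term a p (p ^ (v + 1) * t) (om S (p ^ (v + 1) * t))
  have t2 := term a (p ^ 2) (p ^ v * t) (om S (p ^ v * t))
  rw [← e1, W.mul _ _ (hc _)] at t1
  rw [← e2, W.mul _ _ (hc _)] at t2
  rw [er, if_pos ⟨_, e2⟩, d1, d2, om_mul hS hp ht (v + 1), ha _ _ (hc _), Nat.cast_succ]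
  obtain rfl | hv := v.eq_zero_or_pos
  · simp only [zero_add, pow_zero, one_mul, pow_one] at t1 ⊢
    rw [sub_add_cancel_right, norm_neg, tt, if_pos rfl]
    exact t1.trans_eq (by ring)
  rw [tt, if_neg (by omega)]
  set x := (p : ℝ) ^ (-(2 / 5 : ℝ))
  have hx : 0 ≤ x := by positivity
  have hK := W.K1
  have hg := W.nn t
  have b0 : ga a (p ^ (v + 2)) * ga a t ≤ K ^ 2 * x ^ (v + 2) * ga a t :=
    mul_le_mul_of_nonneg_right ((ga_pow W hq _).trans
      (mul_le_mul_of_nonneg_right (by nlinarith) (by positivity))) hg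
  have b1 : ga a p * (ga a (p ^ (v + 1)) * ga a t) ≤ K ^ 2 * x ^ (v + 2) * ga a t := by
    have := ga_pow W hq 1
    rw [pow_one] at this
    rw [← mul_assoc]
    exact mul_le_mul_of_nonneg_right ((mul_le_mul this (ga_pow W hq _) (W.nn _)
      (by positivity)).trans_eq (by ring)) hg
  have b2 : ga a (p ^ 2) * (ga a (p ^ v) * ga a t) ≤ K ^ 2 * x ^ (v + 2) * ga a t := by
    rw [← mul_assoc]
    exact mul_le_mul_of_nonneg_right ((mul_le_mul (ga_pow W hq _) (ga_pow W hq _) (W.nn _)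
      (by positivity)).trans_eq (by ring)) hg
  generalize a (p ^ (v + 2)) * a t / (om S t + 1) = A at t0 ⊢
  generalize a p * a (p ^ (v + 1) * t) / (om S (p ^ (v + 1) * t) + 1) = B at t1 ⊢
  generalize a (p ^ 2) * a (p ^ v * t) / (om S (p ^ v * t) + 1) = C at t2 ⊢
  have h1 : ‖A - (B + C)‖ ≤ ‖A‖ + (‖B‖ + ‖C‖) :=
    (norm_sub_le _ _).trans (add_le_add le_rfl (norm_add_le _ _))
  have h2 : ‖A - (B + C)‖ ^ 2 ≤ 3 * (‖A‖ ^ 2 + ‖B‖ ^ 2 + ‖C‖ ^ 2) :=
    (pow_le_pow_left₀ (norm_nonneg _) h1 2).trans (by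
      nlinarith [sq_nonneg (‖A‖ - ‖B‖), sq_nonneg (‖A‖ - ‖C‖), sq_nonneg (‖B‖ - ‖C‖)])
  refine (div_le_div_of_nonneg_right h2 (by positivity)).trans ?_
  rw [mul_div_assoc, add_div, add_div]
  linarith

lemma card_le (hS : ∀ p ∈ S, p.Prime) (hm : m ≠ 0) :
    ((S.filter (· ∣ m)).card : ℝ) ≤ 2 * Real.log m := by
  have h1 : (S.filter (· ∣ m)).card ≤ m.primeFactors.card := card_le_card fun p hp =>
    Nat.mem_primeFactors.mpr ⟨hS p (mem_filter.mp hp).1, (mem_filter.mp hp).2, hm⟩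
  have h2 : 2 ^ m.primeFactors.card ≤ m := (pow_card_le_prod _ _ _ fun p hp =>
    (Nat.prime_of_mem_primeFactors hp).two_le).trans
      (Nat.le_of_dvd (Nat.pos_of_ne_zero hm) (Nat.prod_primeFactors_dvd m))
  have h3 : ((2 : ℝ) ^ (S.filter (· ∣ m)).card) ≤ m := by
    exact_mod_cast (Nat.pow_le_pow_right two_pos h1).trans h2
  have h4 := Real.log_le_log (by positivity) h3
  rw [Real.log_pow] at h4
  nlinarith [Real.log_two_gt_d9, Nat.cast_nonneg (α := ℝ) (S.filter (· ∣ m)).card]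

lemma point (W : Wt (ga a) c K) (ha : ∀ m n : ℕ, m.Coprime n → a (m * n) = a m * a n)
    (hS : ∀ p ∈ S, p.Prime) {M : ℕ} (hm : m ∈ Icc 1 M) :
    ‖a m - aE a S m - aR a S m‖ ^ 2 / (m : ℝ) ^ 2 ≤ 2 * Real.log M * ∑ p ∈ S.filter (· ≤ M),
      ∑ v ∈ Ico 2 (M + 1), tt a K p v * if p ^ v ∣ m then ga a (m / p ^ v) else 0 := by
  obtain ⟨h1, h2⟩ := mem_Icc.mp hm
  have hm0 : m ≠ 0 := by omega
  have hn : ∀ p v, 0 ≤ tt a K p v * if p ^ v ∣ m then ga a (m / p ^ v) else 0 := fun p v =>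
    mul_nonneg (tt_nonneg _ _ _ _) (by split_ifs; exacts [W.nn _, le_rfl])
  rw [ident hS]
  refine (div_le_div_of_nonneg_right ((pow_le_pow_left₀ (norm_nonneg _) (norm_sum_le _ _) 2).trans
    sq_sum_le_card_mul_sum_sq) (by positivity)).trans ?_
  rw [mul_div_assoc, sum_div]
  refine mul_le_mul ((card_le hS hm0).trans (by gcongr)) ?_ (sum_nonneg fun _ _ => by positivity)
    (by have := Real.log_natCast_nonneg M; positivity)
  refine (sum_le_sum fun p hp => ?_).trans (sum_le_sum_of_subset_of_nonneg (fun p hp =>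
    mem_filter.mpr ⟨(mem_filter.mp hp).1, (Nat.le_of_dvd h1 (mem_filter.mp hp).2).trans h2⟩)
    fun p _ _ => sum_nonneg fun v _ => hn p v)
  obtain ⟨h3, h4⟩ := mem_filter.mp hp
  by_cases h5 : p ^ 2 ∣ m
  · obtain ⟨u, rfl⟩ := h5
    obtain ⟨v, t, ht, rfl⟩ := Nat.exists_eq_pow_mul_and_not_dvd (right_ne_zero_of_mul hm0) p
      (hS p h3).ne_one
    have e : p ^ 2 * (p ^ v * t) = p ^ (v + 2) * t := by ring
    rw [e] at h1 h2 hn ⊢
    refine (er_le W ha hS h3 ht v).trans (le_trans (le_of_eq ?_)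
      (single_le_sum (fun v _ => hn p v) (a := v + 2) (mem_Ico.mpr ⟨Nat.le_add_left 2 v, ?_⟩)))
    · rw [if_pos (dvd_mul_right _ _), Nat.mul_div_cancel_left _ (pow_pos (hS p h3).pos _)]
    · have := Nat.lt_pow_self (n := v + 2) (hS p h3).one_lt
      have := Nat.le_of_dvd h1 (dvd_mul_right _ _)
      omega
  · rw [er_one ha hS h3 h4 h5, norm_zero, zero_pow two_ne_zero, zero_div]
    exact sum_nonneg fun v _ => hn p v

lemma mult_sum {γ : ℕ → ℝ} (W : Wt γ c K) (hs : ∀ η, 0 < η → Summable fun n : ℕ => γ n * ww (n * η))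
    (A : Finset ℕ) {d : ℕ} (hd : 0 < d) {η : ℝ} (hη : 0 < η) :
    ∑ m ∈ A, (if d ∣ m then γ (m / d) else 0) * ww (m * η) ≤ K := by
  have hd' : 0 < d * η := by positivity
  have h1 := W.bd _ hd'
  simp only [IP, Set.ofPred_true, Set.indicator_univ] at h1
  refine le_trans ?_ (((hs _ hd').sum_le_tsum ((A.filter (d ∣ ·)).image (· / d))
    fun n _ => mul_nonneg (W.nn n) (ww_nonneg _)).trans h1)
  rw [sum_image, sum_filter]
  · refine sum_le_sum fun m _ => ?_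
    split_ifs with h
    · obtain ⟨t, rfl⟩ := h
      rw [Nat.mul_div_cancel_left _ hd, Nat.cast_mul, mul_comm (d : ℝ), mul_assoc (t : ℝ)]
    · rw [zero_mul]
  · intro x hx y hy h
    rw [← Nat.mul_div_cancel' (mem_filter.mp hx).2, ← Nat.mul_div_cancel' (mem_filter.mp hy).2]
    exact congrArg (d * ·) h

lemma sum_tt (W : Wt (ga a) c K) (hp : p.Prime) {P₀ : ℝ} (h1 : 1 ≤ P₀) (h2 : P₀ < p) (M : ℕ) :
    ∑ v ∈ Ico 2 (M + 1), tt a K p v ≤
      (K * ga a p + 45 * K ^ 2 * (p : ℝ)⁻¹) * P₀ ^ (-(1 / 5 : ℝ)) := by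
  have hp2 : (2 : ℝ) ≤ p := by exact_mod_cast hp.two_le
  have hK := W.K1
  have h3 : (p : ℝ) ^ (-(1 / 5 : ℝ)) ≤ P₀ ^ (-(1 / 5 : ℝ)) :=
    Real.rpow_le_rpow_of_nonpos (by linarith) h2.le (by norm_num)
  have h4 : (p : ℝ) ^ (-(2 / 5 : ℝ)) ≤ P₀ ^ (-(1 / 5 : ℝ)) :=
    (Real.rpow_le_rpow_of_exponent_le (by linarith) (by norm_num)).trans h3
  have h5 : ((p : ℝ) ^ (-(2 / 5 : ℝ))) ^ 3 = (p : ℝ)⁻¹ * (p : ℝ) ^ (-(1 / 5 : ℝ)) := by
    rw [← Real.rpow_natCast, ← Real.rpow_mul (by positivity), ← Real.rpow_neg_one,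
      ← Real.rpow_add (by positivity)]
    norm_num
  have h6 : ((p : ℝ) ^ (-(2 / 5 : ℝ))) ^ 5 = ((p : ℝ) ^ 2)⁻¹ := by
    rw [← Real.rpow_natCast, ← Real.rpow_mul (by positivity), ← Real.rpow_natCast,
      ← Real.rpow_neg (by positivity)]
    norm_num
  have h7 := ga_pow W hp 1
  rw [pow_one, pow_one] at h7
  calc _ ≤ ∑ v ∈ insert 2 (Ico 3 (M + 1)), tt a K p v :=
        sum_le_sum_of_subset_of_nonneg (fun v hv => by
          simp only [mem_insert, mem_Ico] at hv ⊢; omega) fun v _ _ => tt_nonneg _ _ _ _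
    _ = ga a p ^ 2 + 9 * K ^ 2 * ∑ v ∈ Ico 3 (M + 1), ((p : ℝ) ^ (-(2 / 5 : ℝ))) ^ v := by
        rw [sum_insert (by simp), mul_sum, tt, if_pos rfl]
        congr 1
        exact sum_congr rfl fun v hv => if_neg (by have := (mem_Ico.mp hv).1; omega)
    _ ≤ _ := by
        set x := (p : ℝ) ^ (-(2 / 5 : ℝ))
        have hx : 0 ≤ x := by positivity
        have h8 : x ≤ 4 / 5 := by
          refine le_of_pow_le_pow_left₀ (n := 5) (by norm_num) (by norm_num) ?_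
          rw [h6]
          exact (inv_anti₀ (by norm_num) (pow_le_pow_left₀ zero_le_two hp2 2)).trans (by norm_num)
        have h9 : ∑ v ∈ Ico 3 (M + 1), x ^ v ≤ 5 * ((p : ℝ)⁻¹ * P₀ ^ (-(1 / 5 : ℝ))) := by
          refine (geom_sum_Ico_le_of_lt_one hx (by linarith)).trans ?_
          rw [div_le_iff₀ (by linarith), h5]
          have : (p : ℝ)⁻¹ * (p : ℝ) ^ (-(1 / 5 : ℝ)) ≤ (p : ℝ)⁻¹ * P₀ ^ (-(1 / 5 : ℝ)) := by gcongr
          have : 0 ≤ (p : ℝ)⁻¹ * P₀ ^ (-(1 / 5 : ℝ)) := by positivity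
          nlinarith
        have h10 : ga a p ^ 2 ≤ K * P₀ ^ (-(1 / 5 : ℝ)) * ga a p := by
          rw [pow_two]
          exact mul_le_mul_of_nonneg_right (h7.trans (by gcongr)) (W.nn p)
        nlinarith [mul_le_mul_of_nonneg_left h9 (show 0 ≤ 9 * K ^ 2 by positivity)]

end R1

open R1

theorem r1 (h0 : S_S0) : S_R1 := by
  intro c K
  obtain ⟨C, hC, h0⟩ := h0 c K
  refine ⟨2 * K * (K * C + 45 * K ^ 2), fun a W ha S P₀ η M h1 hS hη => ?_⟩
  replace W : Wt (ga a) c K := W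
  obtain ⟨h2, -, h3, -⟩ := h0 _ W
  have hs : ∀ η, 0 < η → Summable fun n : ℕ => ga a n * ww (n * η) := fun η hη => by
    simpa only [Set.ofPred_true, Set.indicator_univ] using (h2 (fun _ => True) η hη).1
  have hK := W.K1
  have hL := Real.log_natCast_nonneg M
  have hsub : S.filter (· ≤ M) ⊆ Icc 1 M := fun p hp =>
    mem_Icc.mpr ⟨(hS p (mem_filter.mp hp).1).1.pos, (mem_filter.mp hp).2⟩
  calc _ ≤ ∑ m ∈ Icc 1 M, (2 * Real.log M * ∑ p ∈ S.filter (· ≤ M), ∑ v ∈ Ico 2 (M + 1),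
          tt a K p v * if p ^ v ∣ m then ga a (m / p ^ v) else 0) * ww (m * η) :=
        sum_le_sum fun m hm => mul_le_mul_of_nonneg_right
          (point W ha (fun p hp => (hS p hp).1) hm) (ww_nonneg _)
    _ = 2 * Real.log M * ∑ p ∈ S.filter (· ≤ M), ∑ v ∈ Ico 2 (M + 1), tt a K p v *
          ∑ m ∈ Icc 1 M, (if p ^ v ∣ m then ga a (m / p ^ v) else 0) * ww (m * η) := by
        simp only [mul_assoc, ← mul_sum]
        congr 2
        simp only [sum_mul, mul_sum, mul_assoc]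
        rw [sum_comm]
        exact sum_congr rfl fun p _ => sum_comm
    _ ≤ 2 * Real.log M * ∑ p ∈ S.filter (· ≤ M),
          (K * ga a p + 45 * K ^ 2 * (p : ℝ)⁻¹) * P₀ ^ (-(1 / 5 : ℝ)) * K := by
        refine mul_le_mul_of_nonneg_left (sum_le_sum fun p hp => ?_) (by positivity)
        have hp' := hS p (mem_filter.mp hp).1
        refine (sum_le_sum fun v _ => mul_le_mul_of_nonneg_left
          (mult_sum W hs _ (pow_pos hp'.1.pos v) hη) (tt_nonneg _ _ _ _)).trans ?_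
        rw [← sum_mul]
        exact mul_le_mul_of_nonneg_right (sum_tt W hp'.1 h1 hp'.2 M) (by positivity)
    _ ≤ 2 * (1 + Real.log M) * ((K * (C * (1 + Real.log M)) + 45 * K ^ 2 * (1 + Real.log M)) *
          P₀ ^ (-(1 / 5 : ℝ)) * K) := by
        rw [← sum_mul, ← sum_mul, sum_add_distrib, ← mul_sum, ← mul_sum]
        have h4 := (sum_le_sum_of_subset_of_nonneg hsub fun n _ _ => W.nn n).trans (h3 M)
        have h5 := (sum_le_sum_of_subset_of_nonneg (f := fun n : ℕ => (n : ℝ)⁻¹) hsub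
          fun n _ _ => by positivity).trans (sum_inv_le_log M)
        have h6 := sum_nonneg (s := S.filter (· ≤ M)) fun n _ => W.nn n
        gcongr
        linarith
    _ = _ := by ring

end MR
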