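import Pool.Agent.P.MP_79de8b_nt.Basic

/-! The bilinear part of the Ramare decomposition in the core window. -/

open Complex UpperHalfPlane MeasureTheory Finset CongruenceSubgroup Filter Topology
open scoped Real MatrixGroups ComplexConjugate

noncomputable section
namespace MR
namespace R2

/-! ### Translation of the region -/

theorem transl {R : Set (ℝ × ℝ)} (hR : MeasurableSet R) (T : Finset ℕ) (τ : ℕ → ℝ × ℝ)
    (J : ℕ → ℝ × ℝ → ℂ) (hJ : ∀ s, Measurable (J s)) {l D : ℝ} (hl : 0 ≤ l)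
    (hbox : ∀ s ∈ T, ∀ p, p - τ s ∈ R → p ∈ Set.Icc (-l) 0 ×ˢ Set.Icc (-l) 0)
    (hD : ∀ p, ∀ T' ⊆ T, (∀ s ∈ T', p - τ s ∈ R) → ‖∑ s ∈ T', J s p‖ ≤ D)
    (I : ℝ × ℝ → ℂ) (hI : ∀ p, I p = ∑ s ∈ T, J s (p + τ s)) :
    IntegrableOn I R ∧ ‖∫ p in R, I p‖ ≤ D * l ^ 2 := by
  classical
  set Q : Set (ℝ × ℝ) := Set.Icc (-l) 0 ×ˢ Set.Icc (-l) 0 with hQ
  have hQm : MeasurableSet Q := measurableSet_Icc.prod measurableSet_Icc
  have hQv : volume.real Q = l ^ 2 := by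
    rw [hQ, Measure.volume_eq_prod, measureReal_prod_prod, Real.volume_real_Icc_of_le (by linarith)]
    ring
  have hQf : volume Q ≠ ⊤ := (isCompact_Icc.prod isCompact_Icc).measure_lt_top.ne
  have hint : Integrable (Q.indicator fun _ => D) :=
    (integrable_indicator_iff hQm).2 (integrableOn_const hQf)
  set G : ℕ → ℝ × ℝ → ℂ := fun s p => if p - τ s ∈ R then J s p else 0 with hG
  have hsum : ∀ T' ⊆ T, ∀ p, ‖∑ s ∈ T', G s p‖ ≤ Q.indicator (fun _ => D) p := by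
    intro T' hT' p
    simp only [hG]
    rw [← sum_filter]
    by_cases hp : p ∈ Q
    · rw [Set.indicator_of_mem hp]
      exact hD p _ ((filter_subset _ _).trans hT') fun s hs => (mem_filter.1 hs).2
    · rw [Set.indicator_of_notMem hp, filter_false_of_mem fun s hs h => hp (hbox s (hT' hs) p h)]
      simp
  have hGi : ∀ s ∈ T, Integrable (G s) := by
    intro s hs
    refine hint.mono' ?_ (Eventually.of_forall fun p => ?_)
    · refine (Measurable.ite ?_ (hJ s) measurable_const).aestronglyMeasurable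
      exact (measurable_id.sub_const (τ s)) hR
    · simpa using hsum {s} (singleton_subset_iff.2 hs) p
  have e : R.indicator I = fun p => ∑ s ∈ T, G s (p + τ s) := by
    funext p
    simp only [hG, add_sub_cancel_right]
    by_cases hp : p ∈ R
    · simp only [Set.indicator_of_mem hp, hp, if_true, hI]
    · simp [hp]
  refine ⟨(integrable_indicator_iff hR).1 ?_, ?_⟩
  · rw [e]
    exact integrable_finsetSum _ fun s hs => (hGi s hs).comp_add_right (τ s)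
  · rw [← integral_indicator hR, e,
      integral_finsetSum _ fun s hs => (hGi s hs).comp_add_right (τ s),
      sum_congr rfl fun s _ => integral_add_right_eq_self (G s) (τ s), ← integral_finsetSum _ hGi]
    refine (norm_integral_le_of_norm_le hint (Eventually.of_forall (hsum T subset_rfl))).trans ?_
    rw [integral_indicator hQm, setIntegral_const, hQv, smul_eq_mul, mul_comm]

theorem meas_sum {X : Type*} [MeasurableSpace X] {M : X → ℕ} (hM : Measurable M) {f : ℕ → X → ℂ}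
    (hf : ∀ n, Measurable (f n)) : Measurable fun x => ∑ n ∈ Icc 1 (M x), f n x := by
  have h : Measurable fun z : X × ℕ => ∑ n ∈ Icc 1 z.2, f n z.1 :=
    measurable_from_prod_countable_left fun k =>
      Finset.measurable_sum (f := f) (Icc 1 k) fun n _ => hf n
  exact h.comp (measurable_id.prodMk hM)

theorem continuous_cf (P : ℕ) (b : ℕ → ℂ) (n : ℕ) : Continuous fun u => cf P b u n := by
  unfold cf; fun_prop

/-! ### Push forward of coefficients -/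

theorem push_sum {ι : Type*} (X : Finset ι) (f : ι → ℕ) (c : ι → ℂ) (Y : Finset ℕ)
    (hf : ∀ x ∈ X, f x ∈ Y) (F : ℕ → ℂ) :
    ∑ x ∈ X, c x * F (f x) = ∑ k ∈ Y, (∑ x ∈ X.filter (fun x => f x = k), c x) * F k := by
  rw [← sum_fiberwise_of_maps_to hf]
  refine sum_congr rfl fun k _ => ?_
  rw [sum_mul]
  exact sum_congr rfl fun x hx => by rw [(mem_filter.1 hx).2]

theorem push_sq {ι : Type*} (X : Finset ι) (f : ι → ℕ) (c : ι → ℂ) (Y : Finset ℕ)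
    (hf : ∀ x ∈ X, f x ∈ Y) {W : ℝ}
    (hW : ∀ k ∈ Y, ((X.filter (fun x => f x = k)).card : ℝ) ≤ W) :
    ∑ k ∈ Y, ‖∑ x ∈ X.filter (fun x => f x = k), c x‖ ^ 2 ≤ W * ∑ x ∈ X, ‖c x‖ ^ 2 := by
  rw [← sum_fiberwise_of_maps_to hf, mul_sum]
  refine sum_le_sum fun k hk => ?_
  refine (pow_le_pow_left₀ (norm_nonneg _) (norm_sum_le _ _) 2).trans ?_
  refine sq_sum_le_card_mul_sum_sq.trans ?_
  exact mul_le_mul_of_nonneg_right (hW k hk) (sum_nonneg fun _ _ => by positivity)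

theorem cls_congr {ρ ρ' D : ℕ} (h : ρ ≡ ρ' [MOD D]) : cls ρ D = cls ρ' D := by
  funext t
  unfold cls
  congr 1
  exact propext ⟨fun h' => h'.trans h, fun h' => h'.trans h.symm⟩

/-- the bilinear bound with the extra variable s -/
theorem bilS (hBil : S_Bil) : ∃ C : ℕ, ∀ (c N ρ A B₀ B : ℕ) (e : ℤ) (T : Finset ℕ)
    (α β w : ℕ → ℂ) (W Z : ℝ), 0 < c → 0 < N → N ∣ c → (e = 1 ∨ e = -1) → 1 ≤ B → 6 * B ≤ c →
    (∀ s ∈ T, 1 ≤ s ∧ s * B₀ ≤ B) → 0 ≤ W → 0 ≤ Z →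
    (∀ k ∈ Icc 1 B, ((T.filter (· ∣ k)).card : ℝ) ≤ W) →
    C * tau c ^ C * (c : ℝ) ^ 2 * (∑ m ∈ Icc 1 A, ‖α m‖ ^ 2) *
      (W * ((∑ s ∈ T, ‖w s‖ ^ 2) * ∑ n ∈ Icc 1 B₀, ‖β n‖ ^ 2)) *
      (B / c + (N * A : ℕ) / Real.sqrt c + Real.sqrt ((N * A : ℕ) / c)) ≤ Z ^ 2 →
    ‖∑ s ∈ T, w s * ∑ m ∈ Icc 1 A, ∑ n ∈ Icc 1 B₀,
      α m * β n * kl (cls (s * ρ) N) (N * m) (s * (e * n)) c‖ ≤ N * Z := by
  obtain ⟨C, hC⟩ := hBil
  refine ⟨C, fun c N ρ A B₀ B e T α β w W Z hc hN hNc he hB1 hB6 hT hW0 hZ hW hbd => ?_⟩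
  rw [← sum_fiberwise_of_maps_to (g := fun s => s % N) (t := range N)
    fun s _ => mem_range.2 (Nat.mod_lt _ hN)]
  refine (norm_sum_le _ _).trans ((sum_le_card_nsmul _ _ Z fun r _ => ?_).trans (by simp))
  set Tr := T.filter (fun s => s % N = r) with hTr
  have hTT : Tr ⊆ T := filter_subset _ _
  have hf1 : ∀ m ∈ Icc 1 A, N * m ∈ Icc 1 (N * A) := fun m hm => by
    rw [mem_Icc] at hm ⊢
    exact ⟨Nat.mul_pos hN hm.1, Nat.mul_le_mul_left _ hm.2⟩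
  have hf2 : ∀ x ∈ Tr ×ˢ Icc 1 B₀, x.1 * x.2 ∈ Icc 1 B := fun x hx => by
    obtain ⟨h1, h2⟩ := mem_product.1 hx
    rw [mem_Icc] at h2 ⊢
    obtain ⟨h3, h4⟩ := hT _ (hTT h1)
    exact ⟨Nat.mul_pos h3 h2.1, (Nat.mul_le_mul_left _ h2.2).trans h4⟩
  set α' : ℕ → ℂ := fun k => ∑ m ∈ (Icc 1 A).filter (fun m => N * m = k), α m with hα'
  set β' : ℕ → ℂ := fun k => ∑ x ∈ (Tr ×ˢ Icc 1 B₀).filter (fun x => x.1 * x.2 = k),
    w x.1 * β x.2 with hβ'
  have key : ∑ s ∈ Tr, w s * ∑ m ∈ Icc 1 A, ∑ n ∈ Icc 1 B₀,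
      α m * β n * kl (cls (s * ρ) N) (N * m) (s * (e * n)) c =
      ∑ m ∈ Icc 1 (N * A), ∑ k ∈ Icc 1 B,
        α' m * β' k * kl (cls (r * ρ) N) (1 * m) (e * k) (1 * c) := by
    have e1 : ∀ m : ℕ, ∑ k ∈ Icc 1 B, β' k * kl (cls (r * ρ) N) m (e * k) c =
        ∑ s ∈ Tr, ∑ n ∈ Icc 1 B₀, w s * β n * kl (cls (s * ρ) N) m (s * (e * n)) c := by
      intro m
      rw [← push_sum _ (fun x : ℕ × ℕ => x.1 * x.2) (fun x => w x.1 * β x.2) _ hf2
        (fun k => kl (cls (r * ρ) N) m (e * k) c), sum_product]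
      refine sum_congr rfl fun s hs => sum_congr rfl fun n _ => ?_
      have h1 : s * ρ ≡ r * ρ [MOD N] := by
        refine Nat.ModEq.mul_right _ ?_
        rw [← (mem_filter.1 hs).2]
        exact (Nat.mod_modEq s N).symm
      rw [cls_congr h1]
      congr 2
      push_cast; ring
    simp only [one_mul, mul_assoc (α' _), ← mul_sum, e1]
    rw [← push_sum _ (fun m => N * m) α _ hf1 (fun m : ℕ => ∑ s ∈ Tr, ∑ n ∈ Icc 1 B₀,
      w s * β n * kl (cls (s * ρ) N) m (s * (e * n)) c)]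
    simp only [mul_sum]
    rw [sum_comm]
    refine sum_congr rfl fun m _ => sum_congr rfl fun s _ => sum_congr rfl fun n _ => ?_
    push_cast; ring
  rw [key]
  have h1 := hC 1 c N (r * ρ) (N * A) B 1 e α' β' one_pos hc (Nat.coprime_one_left c) hNc
    (Or.inl rfl) he hB1 hB6
  have h2 : ∑ m ∈ Icc 1 (N * A), ‖α' m‖ ^ 2 ≤ ∑ m ∈ Icc 1 A, ‖α m‖ ^ 2 := by
    have := push_sq _ (fun m => N * m) α _ hf1 (W := 1) fun k _ => by
      have : ((Icc 1 A).filter (fun m => N * m = k)).card ≤ 1 := by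
        refine card_le_one.2 fun x hx y hy => Nat.eq_of_mul_eq_mul_left hN ?_
        rw [(mem_filter.1 hx).2, (mem_filter.1 hy).2]
      exact_mod_cast this
    rwa [one_mul] at this
  have h3 : ∑ k ∈ Icc 1 B, ‖β' k‖ ^ 2 ≤
      W * ((∑ s ∈ T, ‖w s‖ ^ 2) * ∑ n ∈ Icc 1 B₀, ‖β n‖ ^ 2) := by
    have := push_sq _ (fun x : ℕ × ℕ => x.1 * x.2) (fun x => w x.1 * β x.2) _ hf2 (W := W)
      fun k hk => by
        refine le_trans ?_ (hW k hk)
        have : ((Tr ×ˢ Icc 1 B₀).filter (fun x => x.1 * x.2 = k)).card ≤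
            (T.filter (· ∣ k)).card := by
          refine card_le_card_of_injOn Prod.fst (fun x hx => ?_) fun x hx y hy hxy => ?_
          · obtain ⟨hx1, hx2⟩ := mem_filter.1 (mem_coe.1 hx)
            exact mem_coe.2 (mem_filter.2 ⟨hTT (mem_product.1 hx1).1, hx2 ▸ dvd_mul_right _ _⟩)
          · obtain ⟨hx1, hx2⟩ := mem_filter.1 (mem_coe.1 hx)
            obtain ⟨-, hy2⟩ := mem_filter.1 (mem_coe.1 hy)
            refine Prod.ext hxy (Nat.eq_of_mul_eq_mul_left (hT _ (hTT (mem_product.1 hx1).1)).1 ?_)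
            rw [hx2, hxy, hy2]
        exact_mod_cast this
    refine this.trans (mul_le_mul_of_nonneg_left ?_ hW0)
    rw [sum_product]
    simp only [norm_mul, mul_pow, ← mul_sum, ← sum_mul]
    exact mul_le_mul_of_nonneg_right
      (sum_le_sum_of_subset_of_nonneg hTT fun _ _ _ => by positivity)
      (sum_nonneg fun _ _ => by positivity)
  refine (pow_le_pow_iff_left₀ (norm_nonneg _) hZ two_ne_zero).1 (h1.trans (le_trans ?_ hbd))
  simp only [Nat.cast_one, one_mul]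
  have := tau_nonneg c
  gcongr

/-! ### The algebraic identity -/

theorem av_kl {N q : ℕ} (hN : 0 < N) (hq : 0 < q) (ρ : ℕ) (ε : Bool) (X Y : Finset ℕ)
    (A B : ℕ → ℂ) :
    (av (UU N q ρ) fun x => (∑ m ∈ X, A m * ex (m * x / q)) *
      cj ε (∑ n ∈ Y, B n * ex (n * (-(iv x (q * N) : ℝ) / q) / N))) =
    ∑ m ∈ X, A m * (((UU N q ρ).card : ℂ)⁻¹ *
      ∑ n ∈ Y, cj ε (B n) * kl (cls ρ N) (N * m) (sg ε * n) (q * N)) := by
  have hk : ∀ a b : ℤ, kl (cls ρ N) a b (q * N) =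
      ∑ x ∈ UU N q ρ, ex (((a * x + b * iv x (q * N) : ℤ) : ℝ) / (q * N : ℕ)) := by
    intro a b
    unfold kl UU cls
    rw [sum_filter]
    refine sum_congr rfl fun x _ => ?_
    split_ifs <;> simp
  unfold av
  simp only [hk, cj_sum, cj_mul, cj_ex, sum_mul_sum]
  simp only [mul_sum, div_eq_mul_inv, sum_mul]
  rw [sum_comm]
  refine sum_congr rfl fun m _ => ?_
  rw [sum_comm]
  refine sum_congr rfl fun n _ => sum_congr rfl fun x _ => ?_
  have hN' : (N : ℝ) ≠ 0 := by positivity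
  have hq' : (q : ℝ) ≠ 0 := by positivity
  have e : (((N * m : ℤ) * x + sg ε * n * iv x (q * N) : ℤ) : ℝ) * ((q * N : ℕ) : ℝ)⁻¹ =
      m * x * (q : ℝ)⁻¹ + -(sg ε * (n * (-(iv x (q * N) : ℝ) * (q : ℝ)⁻¹) * (N : ℝ)⁻¹)) := by
    push_cast; field_simp
  rw [e, ex_add]
  ring

/-- the damped coefficients -/
def a' (a : ℕ → ℂ) (S : Finset ℕ) (m : ℕ) : ℂ := a m / (om S m + 1)

theorem norm_cf_a' (a : ℕ → ℂ) (S : Finset ℕ) (t : ℝ) (m : ℕ) :
    ‖cf 1 (a' a S) t m‖ ≤ ‖cf 1 a t m‖ := by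
  unfold cf a'
  rw [norm_mul, norm_mul, norm_div]
  refine mul_le_mul_of_nonneg_right (div_le_self (norm_nonneg _) ?_) (norm_nonneg _)
  have : ((om S m : ℂ) + 1) = ((om S m + 1 : ℕ) : ℂ) := by push_cast; rfl
  rw [this, Complex.norm_natCast]
  exact_mod_cast Nat.le_add_left 1 _

theorem ramare (a : ℕ → ℂ) (S : Finset ℕ) (hS : ∀ s ∈ PS S, 0 < s) (y u : ℝ) (F : ℕ → ℂ) :
    ∑ m ∈ Icc 1 ⌊y * Real.exp (-u)⌋₊, cf 1 (aR a S) u m * F m =
      ∑ s ∈ PS S, a s / s * ∑ m ∈ Icc 1 ⌊y * Real.exp (-(u + Real.log s))⌋₊,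
        cf 1 (a' a S) (u + Real.log s) m * F (s * m) := by
  have e1 : ∀ m, cf 1 (aR a S) u m * F m = ∑ s ∈ PS S, if s ∣ m then
      cf 1 (fun m => a s * a' a S (m / s)) u m * F m else 0 := by
    intro m
    rw [← sum_filter, ← sum_mul]
    congr 1
    unfold cf aR a'
    rw [sum_mul]
    exact sum_congr rfl fun s _ => by rw [mul_div_assoc]
  simp only [e1]
  rw [sum_comm]
  refine sum_congr rfl fun s hs => ?_
  have hs0 := hS s hs
  have hs' : (0 : ℝ) < s := by exact_mod_cast hs0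
  have e2 : ⌊y * Real.exp (-(u + Real.log s))⌋₊ = ⌊y * Real.exp (-u)⌋₊ / s := by
    rw [← Nat.floor_div_natCast, neg_add, Real.exp_add, Real.exp_neg (Real.log s), Real.exp_log hs',
      div_eq_mul_inv, mul_assoc]
  rw [e2, ← sum_filter, mul_sum]
  generalize ⌊y * Real.exp (-u)⌋₊ = M
  have e3 : (Icc 1 M).filter (s ∣ ·) = (Icc 1 (M / s)).image (s * ·) := by
    ext m
    simp only [mem_filter, mem_Icc, mem_image, Nat.le_div_iff_mul_le hs0]
    constructor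
    · rintro ⟨⟨h1, h2⟩, n, rfl⟩
      exact ⟨n, ⟨Nat.pos_of_mul_pos_left h1, by rwa [mul_comm]⟩, rfl⟩
    · rintro ⟨n, ⟨h1, h2⟩, rfl⟩
      exact ⟨⟨Nat.mul_pos hs0 h1, by rwa [mul_comm]⟩, dvd_mul_right _ _⟩
  rw [e3, sum_image fun x _ z _ h => Nat.eq_of_mul_eq_mul_left hs0 h]
  refine sum_congr rfl fun m _ => ?_
  unfold cf
  beta_reduce
  rw [Nat.mul_div_cancel_left m hs0, Real.exp_add, Real.exp_log hs']
  have e4 : 2 * π * ((s * m : ℕ) : ℝ) * Real.exp u / (1 : ℕ) =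
      2 * π * m * (Real.exp u * s) / (1 : ℕ) := by push_cast; ring
  have hsc : (s : ℂ) ≠ 0 := by exact_mod_cast hs0.ne'
  rw [e4]
  simp only [Complex.ofReal_mul, Complex.ofReal_natCast]
  field_simp

theorem mem_PS {S : Finset ℕ} {s : ℕ} (hs : s ∈ PS S) : ∃ p ∈ S, s = p ∨ s = p ^ 2 := by
  rcases mem_union.1 hs with h | h
  · exact ⟨s, h, Or.inl rfl⟩
  · obtain ⟨p, hp, rfl⟩ := mem_image.1 h
    exact ⟨p, hp, Or.inr rfl⟩

theorem card_PS_le {S : Finset ℕ} (hS : ∀ p ∈ S, p.Prime) {k : ℕ} (hk : k ≠ 0) :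
    ((PS S).filter (· ∣ k)).card ≤ 2 * k.primeFactors.card := by
  have h : (PS S).filter (· ∣ k) ⊆ k.primeFactors ∪ k.primeFactors.image (· ^ 2) := by
    intro s hs
    obtain ⟨h1, h2⟩ := mem_filter.1 hs
    obtain ⟨p, hp, rfl | rfl⟩ := mem_PS h1
    · exact mem_union_left _ (Nat.mem_primeFactors.2 ⟨hS _ hp, h2, hk⟩)
    · exact mem_union_right _ (mem_image_of_mem _
        (Nat.mem_primeFactors.2 ⟨hS _ hp, (dvd_pow_self p two_ne_zero).trans h2, hk⟩))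
  have h2 := card_image_le (s := k.primeFactors) (f := (· ^ 2))
  have h3 := (card_le_card h).trans (card_union_le _ _)
  omega

theorem sum_cf_sq (hSer : S_Ser) {P : ℕ} {K : ℝ} {b : ℕ → ℂ} {g : ℍ → ℂ} (h : Ser P K b g)
    (u : ℝ) (X : Finset ℕ) : ∑ n ∈ X, ‖cf P b u n‖ ^ 2 ≤ K ^ 2 := by
  obtain ⟨-, -, -, -, -, -, -, h8, -, h10, -⟩ := hSer P K b g h
  exact (sum_le_hasSum X (fun _ _ => by positivity) (h10 u)).trans (h8 _ (Real.exp_pos u)).2.2.1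

/-- the error factor of the bilinear bound -/
theorem err_le {y l L P₀ N c A B : ℝ} (hy : 1 ≤ y) (hl : 1 ≤ l) (hL : 1 ≤ L) (hP : 1 ≤ P₀)
    (hN : 1 ≤ N) (h6 : 6 * N * l ^ 2 * L ^ 3 ≤ y ^ 2) (hc : y ^ 20 ≤ c) (hB : B ≤ y ^ 14)
    (hA : A ≤ N * (l ^ 2 * (y ^ 10 * L ^ 3 / P₀))) :
    B / c + A / Real.sqrt c + Real.sqrt (A / c) ≤
      2 * N * l ^ 2 * (L ^ 2 / Real.sqrt P₀ + 1 / y) ^ 2 := by
  have hy0 : 0 < y := by linarith
  have hc0 : 0 < c := lt_of_lt_of_le (by positivity) hc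
  have hP0 : 0 < P₀ := by linarith
  have hsP : 0 < Real.sqrt P₀ := Real.sqrt_pos.2 hP0
  have hNl : 1 ≤ N * l ^ 2 := one_le_mul_of_one_le_of_one_le hN (one_le_pow₀ hl)
  have h1 : B / c ≤ (1 / y) ^ 2 := by
    calc B / c ≤ y ^ 14 / y ^ 20 := div_le_div₀ (by positivity) hB (by positivity) hc
      _ = (1 / y) ^ 6 := by field_simp
      _ ≤ (1 / y) ^ 2 := pow_le_pow_of_le_one (by positivity) ((div_le_one hy0).2 hy) (by norm_num)
  have h2 : A / Real.sqrt c ≤ N * l ^ 2 * (L ^ 2 / Real.sqrt P₀) ^ 2 := by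
    have h3 : y ^ 10 ≤ Real.sqrt c := Real.le_sqrt_of_sq_le (by rw [← pow_mul]; exact hc)
    calc A / Real.sqrt c ≤ N * (l ^ 2 * (y ^ 10 * L ^ 3 / P₀)) / y ^ 10 :=
          div_le_div₀ (by positivity) hA (by positivity) h3
      _ = N * l ^ 2 * (L ^ 3 / P₀) := by field_simp
      _ ≤ N * l ^ 2 * (L ^ 4 / P₀) := by gcongr; norm_num
      _ = _ := by rw [div_pow, Real.sq_sqrt hP0.le, ← pow_mul]
  have h3 : Real.sqrt (A / c) ≤ (1 / y) ^ 2 := by
    rw [Real.sqrt_le_left (by positivity)]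
    have h4 : A ≤ y ^ 12 := by
      calc A ≤ N * (l ^ 2 * (y ^ 10 * L ^ 3 / P₀)) := hA
        _ ≤ N * (l ^ 2 * (y ^ 10 * L ^ 3)) := by gcongr; exact div_le_self (by positivity) hP
        _ = y ^ 10 * (N * l ^ 2 * L ^ 3) := by ring
        _ ≤ y ^ 10 * y ^ 2 := by
          gcongr
          have : 0 ≤ N * l ^ 2 * L ^ 3 := by positivity
          linarith
        _ = y ^ 12 := by ring
    calc A / c ≤ y ^ 12 / y ^ 20 := div_le_div₀ (by positivity) h4 (by positivity) hc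
      _ = (1 / y) ^ 8 := by field_simp
      _ ≤ (1 / y) ^ 4 := pow_le_pow_of_le_one (by positivity) ((div_le_one hy0).2 hy) (by norm_num)
      _ = _ := by ring
  have h5 : 0 ≤ L ^ 2 / Real.sqrt P₀ := by positivity
  have h7 : 0 ≤ 1 / y := by positivity
  generalize L ^ 2 / Real.sqrt P₀ = a at *
  generalize 1 / y = b at *
  have h8 : b ^ 2 ≤ N * l ^ 2 * b ^ 2 := le_mul_of_one_le_left (by positivity) hNl
  have h9 : 0 ≤ N * l ^ 2 * (a * b) := by positivity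
  have h10 : 0 ≤ N * l ^ 2 * a ^ 2 := by positivity
  nlinarith

end R2

open R2 in
theorem r2 (hA1 : S_A1) (hAv : S_Av) (hKM : S_KM) (hBil : S_Bil) (hSer : S_Ser) (hS0 : S_S0)
    (hWt : S_Wt) : S_R2 := by
  intro N Φ
  obtain ⟨Cb, hb⟩ := bilS hBil
  obtain ⟨c₀, K₀, hW⟩ := hWt N Φ
  obtain ⟨C₀, hC₀, hS⟩ := hS0 c₀ K₀
  obtain ⟨-, -, hΓ, -⟩ := hS _ hW
  obtain ⟨k₁, hk₁⟩ := exists_le_Lam_pow (Cb * tau N ^ Cb * Φ.K ^ 4 * (16 * C₀ * N))
  obtain ⟨k₂, hk₂⟩ := exists_le_Lam_pow ((N : ℝ) ^ 2)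
  refine ⟨k₂ + (k₁ + Cb + 4) + 1 + 2, fun σ ε q ρ L P₀ S R hq hρ hL hP h6 hS' hR hRs => ?_⟩
  have hN := Φ.pos
  have hN' : (1 : ℝ) ≤ N := by exact_mod_cast hN
  have hq0 : 0 < q := by omega
  have hq' : (0 : ℝ) < q := by exact_mod_cast hq0
  have hc : 0 < q * N := Nat.mul_pos hq0 hN
  have hl := one_le_log hq
  have hΛ := one_le_Lam hq
  have hlΛ := log_le_Lam hq
  set l := Real.log q with hl_def
  set y := Real.exp (l / 20) with hy_def
  have hy : 1 ≤ y := Real.one_le_exp (by linarith)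
  have hpow : ∀ k : ℕ, y ^ k = Real.exp (k * l / 20) := fun k => by
    rw [hy_def, ← Real.exp_nat_mul, mul_div_assoc]
  have hy20 : y ^ 20 = q := by
    rw [hpow, show ((20 : ℕ) : ℝ) * l / 20 = l by push_cast; ring, Real.exp_log hq']
  have e10 : (q : ℝ) ^ (1 / 10 : ℝ) = y ^ 2 := by
    rw [hpow, Real.rpow_def_of_pos hq']; congr 1; push_cast; ring
  have e20 : (q : ℝ) ^ (1 / 20 : ℝ) = y := by
    rw [Real.rpow_def_of_pos hq']; congr 1; ring
  rw [e10] at h6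
  rw [e20]
  have hL3 : Real.exp (3 * Real.log L) = L ^ 3 := by
    rw [show (3 : ℝ) = ((3 : ℕ) : ℝ) by norm_num, Real.exp_nat_mul, Real.exp_log (by linarith)]
  have hNl : 1 ≤ (N : ℝ) * l ^ 2 := one_le_mul_of_one_le_of_one_le hN' (one_le_pow₀ hl)
  have hL31 : 1 ≤ L ^ 3 := one_le_pow₀ hL
  have hy6 : 6 ≤ y ^ 2 := by nlinarith
  have hlogL : 3 * Real.log L ≤ l / 10 := by
    rw [← Real.exp_le_exp, hL3, show l / 10 = ((2 : ℕ) : ℝ) * l / 20 by push_cast; ring, ← hpow]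
    nlinarith
  have hexp : ∀ v : ℝ, |v + l / 2| ≤ 3 * Real.log L → Real.exp (-v) ≤ y ^ 10 * L ^ 3 := by
    intro v hv
    rw [hpow, ← hL3, ← Real.exp_add, Real.exp_le_exp]
    push_cast
    linarith [(abs_le.1 hv).1]
  -- the members of PS S
  have hPS : ∀ s ∈ PS S, 0 < s ∧ P₀ < s ∧ (s : ℝ) ≤ y ^ 2 ∧ s.Coprime (q * N) := by
    intro s hs
    obtain ⟨p, hp, h⟩ := mem_PS hs
    obtain ⟨h1, h2, h3, h4⟩ := hS' p hp
    have h5 : (p : ℝ) ≤ y := by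
      refine (pow_le_pow_iff_left₀ (Nat.cast_nonneg _) (by linarith) (n := 20) (by norm_num)).1 ?_
      rw [hy20]; exact_mod_cast h4
    have h7 : (1 : ℝ) ≤ p := by exact_mod_cast h1.one_le
    have h8 := (Nat.Prime.coprime_iff_not_dvd h1).2 h3
    rcases h with rfl | rfl
    · exact ⟨h1.pos, h2, by nlinarith, h8⟩
    · refine ⟨pow_pos h1.pos 2, ?_, ?_, h8.pow_left 2⟩ <;> push_cast <;> nlinarith
  have hlogs : ∀ s ∈ PS S, 0 ≤ Real.log s ∧ Real.log s ≤ l / 10 := by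
    intro s hs
    refine ⟨Real.log_natCast_nonneg s, ?_⟩
    rw [Real.log_le_iff_le_exp (by exact_mod_cast (hPS s hs).1),
      show l / 10 = ((2 : ℕ) : ℝ) * l / 20 by push_cast; ring, ← hpow]
    exact (hPS s hs).2.2.1
  set Y := L ^ 2 / Real.sqrt P₀ + 1 / y with hY
  have hY0 : 0 ≤ Y := by positivity
  set U : ℂ := ((UU N q ρ).card : ℂ)⁻¹ with hU
  have hUn : ‖U‖ * q ≤ Lam q := by
    obtain ⟨-, h1, -⟩ := hAv N q ρ hN hq0 hρ
    have h2 := (hA1.2.2.1 q hq0).2.2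
    have h3 : (0 : ℝ) < q.totient := by exact_mod_cast Nat.totient_pos.2 hq0
    have h4 : (q.totient : ℝ) ≤ (UU N q ρ).card := by exact_mod_cast h1
    rw [hU, norm_inv, Complex.norm_natCast, inv_mul_le_iff₀ (by linarith)]
    have := tau_le_Lam hq
    have := tau_nonneg q
    nlinarith
  have key := transl hR (PS S) (fun s => (Real.log s, 0))
    (fun s p => Φ.a s / s * ∑ m ∈ Icc 1 ⌊l ^ 2 * Real.exp (-p.1)⌋₊, cf 1 (a' Φ.a S) p.1 m *
      (U * ∑ n ∈ Icc 1 ⌊l ^ 2 * N * Real.exp (-p.2)⌋₊, cj ε (cf N (Φ.b σ) p.2 n) *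
        kl (cls (s * ρ) N) (N * m) (s * (sg ε * n)) (q * N)))
    (l := l) (D := Lam q ^ (k₂ + (k₁ + Cb + 4) + 1) * Y) ?_ (by linarith) ?_ ?_
    (fun p : ℝ × ℝ => av (UU N q ρ) fun x =>
      (∑ m ∈ Icc 1 ⌊l ^ 2 * Real.exp (-p.1)⌋₊, cf 1 (aR Φ.a S) p.1 m * ex (m * x / q)) *
      cj ε (∑ n ∈ Icc 1 ⌊l ^ 2 * N * Real.exp (-p.2)⌋₊,
        cf N (Φ.b σ) p.2 n * ex (n * (-(iv x (q * N) : ℝ) / q) / N))) ?_
  · refine ⟨key.1, key.2.trans ?_⟩
    rw [pow_add (Lam q) _ 2, mul_right_comm]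
    gcongr
  · intro s
    refine (meas_sum (by fun_prop) fun m => ?_).const_mul _
    refine ((continuous_cf _ _ _).measurable.comp measurable_fst).mul ?_
    refine (meas_sum (by fun_prop) fun n => ?_).const_mul _
    exact (((continuous_cj ε).comp (continuous_cf _ _ _)).measurable.comp measurable_snd).mul_const _
  · intro s hs p hp
    obtain ⟨h1, h2⟩ := hRs hp
    obtain ⟨h3, h4⟩ := hlogs s hs
    simp only [Prod.fst_sub, Prod.snd_sub, sub_zero, abs_le] at h1 h2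
    exact ⟨⟨by linarith [h1.1], by linarith [h1.2]⟩, by linarith [h2.1], by linarith [h2.2]⟩
  · intro p T hT hp
    rcases T.eq_empty_or_nonempty with rfl | ⟨s₀, hs₀⟩
    · rw [sum_empty, norm_zero]; positivity
    obtain ⟨h1, h2⟩ := hRs (hp s₀ hs₀)
    simp only [Prod.fst_sub, Prod.snd_sub, sub_zero] at h1 h2
    have hs₀' := hPS s₀ (hT hs₀)
    have hA : Real.exp (-p.1) ≤ y ^ 10 * L ^ 3 / P₀ := by
      have h3 := hexp _ h1
      have h4 : (0 : ℝ) < s₀ := by exact_mod_cast hs₀'.1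
      rw [neg_sub, sub_eq_add_neg, Real.exp_add, Real.exp_log h4] at h3
      rw [le_div_iff₀ (by linarith)]
      nlinarith [Real.exp_pos (-p.1), hs₀'.2.1]
    have hB₀ : (⌊l ^ 2 * N * Real.exp (-p.2)⌋₊ : ℝ) ≤ y ^ 12 := by
      calc _ ≤ l ^ 2 * N * Real.exp (-p.2) := Nat.floor_le (by positivity)
        _ ≤ l ^ 2 * N * (y ^ 10 * L ^ 3) := by gcongr; exact hexp _ h2
        _ = y ^ 10 * (N * l ^ 2 * L ^ 3) := by ring
        _ ≤ y ^ 10 * y ^ 2 := by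
          gcongr
          have : 0 ≤ N * l ^ 2 * L ^ 3 := by positivity
          linarith
        _ = y ^ 12 := by ring
    have hBy : (⌊y ^ 14⌋₊ : ℝ) ≤ y ^ 14 := Nat.floor_le (by positivity)
    have hqc : y ^ 20 ≤ ((q * N : ℕ) : ℝ) := by
      rw [hy20]; exact_mod_cast Nat.le_mul_of_pos_right q hN
    have h14 : y ^ 14 ≤ y ^ 20 := pow_le_pow_right₀ hy (by norm_num)
    have hbd := hb (q * N) N ρ ⌊l ^ 2 * Real.exp (-p.1)⌋₊ ⌊l ^ 2 * N * Real.exp (-p.2)⌋₊ ⌊y ^ 14⌋₊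
      (sg ε) T (cf 1 (a' Φ.a S) p.1) (fun n => cj ε (cf N (Φ.b σ) p.2 n)) (fun s => Φ.a s / s)
      (4 * l) ((q * N : ℕ) * (Lam q ^ (k₁ + Cb + 4) * Y)) hc hN (dvd_mul_left _ _) (sg_eq ε)
      (Nat.le_floor (by exact_mod_cast one_le_pow₀ hy)) ?_ ?_ (by linarith) (by positivity) ?_ ?_
    · have e : ∑ s ∈ T, Φ.a s / s * ∑ m ∈ Icc 1 ⌊l ^ 2 * Real.exp (-p.1)⌋₊,
          cf 1 (a' Φ.a S) p.1 m * (U * ∑ n ∈ Icc 1 ⌊l ^ 2 * N * Real.exp (-p.2)⌋₊,
            cj ε (cf N (Φ.b σ) p.2 n) * kl (cls (s * ρ) N) (N * m) (s * (sg ε * n)) (q * N)) =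
          U * ∑ s ∈ T, Φ.a s / s * ∑ m ∈ Icc 1 ⌊l ^ 2 * Real.exp (-p.1)⌋₊,
            ∑ n ∈ Icc 1 ⌊l ^ 2 * N * Real.exp (-p.2)⌋₊, cf 1 (a' Φ.a S) p.1 m *
              cj ε (cf N (Φ.b σ) p.2 n) * kl (cls (s * ρ) N) (N * m) (s * (sg ε * n)) (q * N) := by
        simp only [mul_sum]
        exact sum_congr rfl fun s _ => sum_congr rfl fun m _ => sum_congr rfl fun n _ => by ring
      rw [e, norm_mul]
      calc _ ≤ ‖U‖ * (N * ((q * N : ℕ) * (Lam q ^ (k₁ + Cb + 4) * Y))) :=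
            mul_le_mul_of_nonneg_left hbd (norm_nonneg _)
        _ = (N : ℝ) ^ 2 * Lam q ^ (k₁ + Cb + 4) * (‖U‖ * q) * Y := by push_cast; ring
        _ ≤ Lam q ^ k₂ * Lam q ^ (k₁ + Cb + 4) * Lam q * Y := by gcongr; exact hk₂ q hq
        _ = _ := by ring
    · have : 6 * (⌊y ^ 14⌋₊ : ℝ) ≤ ((q * N : ℕ) : ℝ) := by
        calc _ ≤ y ^ 2 * y ^ 14 := by gcongr
          _ = y ^ 16 := by ring
          _ ≤ y ^ 20 := pow_le_pow_right₀ hy (by norm_num)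
          _ ≤ _ := hqc
      exact_mod_cast this
    · intro s hs
      refine ⟨(hPS s (hT hs)).1, Nat.le_floor ?_⟩
      push_cast
      calc _ ≤ y ^ 2 * y ^ 12 := by gcongr; exact (hPS s (hT hs)).2.2.1
        _ = y ^ 14 := by ring
    · intro k hk
      obtain ⟨hk1, hk2⟩ := mem_Icc.1 hk
      have h3 : (T.filter (· ∣ k)).card ≤ 2 * k.primeFactors.card :=
        (card_le_card (filter_subset_filter _ hT)).trans
          (card_PS_le (fun p hp => (hS' p hp).1) (by omega))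
      have h4 : (2 : ℝ) ^ k.primeFactors.card ≤ q := by
        have h5 : (k : ℝ) ≤ ⌊y ^ 14⌋₊ := by exact_mod_cast hk2
        linarith [(hA1.2.2.1 k hk1).2.1, tau_le_self k]
      have h5 := Real.log_le_log (by positivity) h4
      rw [Real.log_pow] at h5
      have h7 := Real.log_two_gt_d9
      have h8 : ((T.filter (· ∣ k)).card : ℝ) ≤ 2 * k.primeFactors.card := by exact_mod_cast h3
      have h9 : (0 : ℝ) ≤ k.primeFactors.card := Nat.cast_nonneg _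
      nlinarith
    · have a1 : ∑ m ∈ Icc 1 ⌊l ^ 2 * Real.exp (-p.1)⌋₊, ‖cf 1 (a' Φ.a S) p.1 m‖ ^ 2 ≤ Φ.K ^ 2 :=
        (sum_le_sum fun m _ => pow_le_pow_left₀ (norm_nonneg _) (norm_cf_a' _ _ _ _) 2).trans
          (sum_cf_sq hSer Φ.sera _ _)
      have a2 : ∑ n ∈ Icc 1 ⌊l ^ 2 * N * Real.exp (-p.2)⌋₊, ‖cj ε (cf N (Φ.b σ) p.2 n)‖ ^ 2 ≤
          Φ.K ^ 2 := by
        refine le_trans (le_of_eq (sum_congr rfl fun n _ => ?_)) (sum_cf_sq hSer (Φ.ser σ) p.2 _)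
        cases ε <;> simp [cj]
      have a3 : ∑ s ∈ T, ‖Φ.a s / s‖ ^ 2 ≤ C₀ * (2 * l) := by
        have h3 : T ⊆ Icc 1 q := fun s hs => by
          obtain ⟨h4, -, h5, -⟩ := hPS s (hT hs)
          have : (s : ℝ) ≤ q := by
            rw [← hy20]; exact h5.trans (pow_le_pow_right₀ hy (by norm_num))
          exact mem_Icc.2 ⟨h4, by exact_mod_cast this⟩
        simp only [norm_div, div_pow, Complex.norm_natCast]
        refine (sum_le_sum_of_subset_of_nonneg h3 fun _ _ _ => by positivity).trans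
          ((hΓ q).trans ?_)
        gcongr
        linarith
      have a4 := err_le (A := ((N * ⌊l ^ 2 * Real.exp (-p.1)⌋₊ : ℕ) : ℝ)) hy hl hL hP hN' h6 hqc hBy
        (by
          push_cast
          gcongr
          exact (Nat.floor_le (by positivity)).trans (by gcongr))
      have a5 : tau (q * N) ≤ Lam q * tau N :=
        (tau_mul_le q N).trans (mul_le_mul_of_nonneg_right (tau_le_Lam hq) (tau_nonneg N))
      have a6 := tau_nonneg (q * N)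
      have a7 := tau_nonneg N
      have a8 := Φ.one_le
      calc _ ≤ Cb * (Lam q * tau N) ^ Cb * ((q * N : ℕ) : ℝ) ^ 2 * Φ.K ^ 2 *
            (4 * l * (C₀ * (2 * l) * Φ.K ^ 2)) * (2 * N * l ^ 2 * Y ^ 2) := by gcongr
        _ = ((q * N : ℕ) : ℝ) ^ 2 * ((Cb * tau N ^ Cb * Φ.K ^ 4 * (16 * C₀ * N)) * Lam q ^ Cb *
            l ^ 4 * Y ^ 2) := by ring
        _ ≤ ((q * N : ℕ) : ℝ) ^ 2 * (Lam q ^ k₁ * Lam q ^ Cb * Lam q ^ 4 * Y ^ 2) := by
            gcongr; exact hk₁ q hq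
        _ = ((q * N : ℕ) : ℝ) ^ 2 * (Lam q ^ (k₁ + Cb + 4) * Y ^ 2) := by ring
        _ ≤ ((q * N : ℕ) : ℝ) ^ 2 * ((Lam q ^ (k₁ + Cb + 4)) ^ 2 * Y ^ 2) := by
            gcongr; exact le_self_pow₀ (one_le_pow₀ hΛ) two_ne_zero
        _ = _ := by ring
  · intro p
    rw [av_kl hN hq0, ramare _ _ fun s hs => (hPS s hs).1]
    refine sum_congr rfl fun s hs => ?_
    simp only [Prod.fst_add, Prod.snd_add, add_zero]
    congr 1
    refine sum_congr rfl fun m _ => ?_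
    congr 2
    refine sum_congr rfl fun n _ => ?_
    rw [← hKM.2.2.1 (q * N) N ρ s _ _ hc (dvd_mul_left _ _) (hPS s hs).2.2.2]
    congr 2
    push_cast; ring

end MR
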