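import Pool.Agent.P.MP_79de8b_nt.Basic

/-! The half plane integral, region by region. -/

open Complex UpperHalfPlane MeasureTheory Finset CongruenceSubgroup Filter Topology
open scoped Real MatrixGroups ComplexConjugate

noncomputable section
namespace MR
namespace Reg

/-- `(u, u') ↦ (a - u', a - u)`. -/
def iot (a : ℝ) : ℝ × ℝ ≃ᵐ ℝ × ℝ :=
  ((MeasurableEquiv.subLeft a).prodCongr (MeasurableEquiv.subLeft a)).trans
    MeasurableEquiv.prodComm

lemma iot_apply (a : ℝ) (p : ℝ × ℝ) : iot a p = (a - p.2, a - p.1) := rfl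

lemma mp_iot (a : ℝ) : MeasurePreserving (iot a) volume volume :=
  Measure.measurePreserving_swap.comp
    ((Measure.measurePreserving_sub_left volume a).prod (Measure.measurePreserving_sub_left volume a))

/-- `(u, u') ↦ (u, a - u')`. -/
def kap (a : ℝ) : ℝ × ℝ ≃ᵐ ℝ × ℝ := (MeasurableEquiv.refl ℝ).prodCongr (MeasurableEquiv.subLeft a)

lemma kap_apply (a : ℝ) (p : ℝ × ℝ) : kap a p = (p.1, a - p.2) := rfl

lemma mp_kap (a : ℝ) : MeasurePreserving (kap a) volume volume :=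
  (MeasurePreserving.id volume).prod (Measure.measurePreserving_sub_left volume a)

lemma int_iot (a : ℝ) (f : ℝ × ℝ → ℂ) (s : Set (ℝ × ℝ)) :
    ∫ p in s, f (iot a p) = ∫ p in iot a ⁻¹' s, f p := by
  rw [← (mp_iot a).setIntegral_preimage_emb (iot a).measurableEmbedding]
  congr 2
  ext p; simp [iot_apply]

lemma int_kap (a : ℝ) (f : ℝ × ℝ → ℂ) (s : Set (ℝ × ℝ)) :
    ∫ p in s, f (kap a p) = ∫ p in kap a ⁻¹' s, f p := by
  rw [← (mp_kap a).setIntegral_preimage_emb (kap a).measurableEmbedding]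
  congr 2
  ext p; simp [kap_apply]

lemma tendsto_log : Tendsto (fun q : ℕ => Real.log q) atTop atTop :=
  Real.tendsto_log_atTop.comp tendsto_natCast_atTop_atTop

lemma sqrt_pow {q : ℕ} (hq : 3 ≤ q) (j : ℕ) : Real.sqrt (Lam q ^ (2 * j)) = Lam q ^ j := by
  rw [pow_mul', Real.sqrt_sq (pow_nonneg (Lam_pos hq).le _)]

lemma ev_le (k : ℕ) : ∀ᶠ q : ℕ in atTop, Lam q ^ k ≤ q := by
  simpa using eventually_Lam_pow_le k one_pos one_pos

/-- One half of the shifted convolution region. -/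
lemma half (hSer : S_Ser) (hHor : S_Hor) (hMT : S_MT) (hT2 : S_T2) {N : ℕ} (Φ : Fam N) :
    ∃ (c : ℝ) (D : SL(2, ℤ) → ℝ) (j₀ : ℕ), ∀ j ≥ j₀, ∀ (σ : SL(2, ℤ)) (ε : Bool), ∀ e > 0,
    ∀ᶠ q : ℕ in atTop, ∀ ρ : ℕ, ρ.Coprime N → ∀ R : Set (ℝ × ℝ), MeasurableSet R →
      R ⊆ {p | p.2 ≤ p.1 ∧ p.1 - p.2 ≤ Real.log q - 2 * Real.log (Lam q ^ (2 * j)) ∧
        -(2 * Real.log q) ≤ p.1 + p.2 ∧ p.1 ≤ Real.log q} →
      {p : ℝ × ℝ | p.2 ≤ p.1 ∧ -(2 * Real.log q) < p.1 + p.2 ∧ p.1 - p.2 ≤ Real.log q / 2 ∧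
        p.1 ≤ 2 * Real.log (Real.log q)} ⊆ R →
      ‖(∫ p in R, Cor Φ σ ε q ρ p.1 p.2) -
        ((if ε then 2 * c * Real.log q + D σ else 0 : ℝ) : ℂ)‖ ≤ e := by
  obtain ⟨c, C, -, hC0, hc⟩ := hHor N Φ
  obtain ⟨C₁, hC₁⟩ := hT2 N Φ
  have hm := fun σ => hMT (Ib N (Φ.b σ)) c (C + Φ.K ^ 2)
    (hSer _ _ _ _ (Φ.ser σ)).2.2.2.2.2.2.2.2.1 (fun η hη => by
      obtain ⟨-, h1, h2, h3⟩ := (hSer _ _ _ _ (Φ.ser σ)).2.2.2.2.2.2.2.1 η hη
      refine ⟨(hc σ η hη).trans ?_, ?_, ?_⟩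
      · gcongr; linarith [sq_nonneg Φ.K]
      · rw [abs_of_nonneg h1]; linarith
      · rw [abs_of_nonneg h1]; refine h3.trans ?_; gcongr; linarith)
  choose D hD using hm
  refine ⟨c, D, C₁ + 1, fun j hj σ ε e he => ?_⟩
  obtain ⟨l₀, hl₀⟩ := hD σ (e / 2) (half_pos he)
  filter_upwards [eventually_ge_atTop 3, ev_le (2 * j), tendsto_log.eventually_ge_atTop l₀,
    tendsto_Lam.eventually_ge_atTop (2 / e)] with q hq h1 h2 h3 ρ hρ R hR hR1 hR2
  have hL := Lam_pos hq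
  have h4 := hC₁ σ ε q ρ _ R hq hρ (one_le_pow₀ (one_le_Lam hq)) h1 hR hR1
  have h5 : Lam q ^ C₁ / Real.sqrt (Lam q ^ (2 * j)) ≤ e / 2 := by
    rw [sqrt_pow hq, div_le_iff₀ (by positivity)]
    rw [div_le_iff₀ he] at h3
    calc _ = Lam q ^ C₁ * 1 := (mul_one _).symm
      _ ≤ Lam q ^ C₁ * (e / 2 * Lam q) := by gcongr; linarith
      _ = e / 2 * Lam q ^ (C₁ + 1) := by ring
      _ ≤ _ := by gcongr; exact one_le_Lam hq
  have h6 : ‖(∫ p in R, Psi Φ σ ε 0 p.1 p.2) -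
      ((if ε then 2 * c * Real.log q + D σ else 0 : ℝ) : ℂ)‖ ≤ e / 2 := by
    have hP := (hSer _ _ _ _ (Φ.ser σ)).2.2.2.2.2.2.1
    cases ε
    · have : ∀ u u', Psi Φ σ false 0 u u' = 0 := fun u u' => by
        simp [Psi, (hP u u').2]
      simpa [this] using (half_pos he).le
    · have : ∀ u u', Psi Φ σ true 0 u u' =
          ((Real.exp (u + u') / ((Real.exp u + Real.exp u') / 2) ^ 2 *
            Ib N (Φ.b σ) ((Real.exp u + Real.exp u') / 2) : ℝ) : ℂ) := fun u u' => by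
        rw [← (hP u u').1]; simp [Psi]
      simp_rw [this]
      rw [integral_complex_ofReal, if_pos trivial, ← Complex.ofReal_sub, Complex.norm_real, Real.norm_eq_abs,
        ← sub_sub]
      exact hl₀ _ h2 R hR (fun p hp => ⟨(hR1 hp).1, (hR1 hp).2.2.1⟩) hR2
  calc _ ≤ _ := norm_sub_le_norm_sub_add_norm_sub _ (∫ p in R, Psi Φ σ ε 0 p.1 p.2) _
    _ ≤ e / 2 + e / 2 := add_le_add (h4.trans h5) h6
    _ = e := by ring

end Reg

open Reg in
theorem reg (hSer : S_Ser) (hDual : S_Dual) (hCt : S_Ct) (hHor : S_Hor) (hMT : S_MT)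
    (hT2 : S_T2) (hSide : S_Side) (hCore : S_Core) : S_Reg := by
  intro N Φ
  obtain ⟨c, D, j₀, hD⟩ := half hSer hHor hMT hT2 Φ
  obtain ⟨C₂, hC₂⟩ := hSide N Φ
  refine ⟨4 * c, fun ε => ⟨fun u => if ε then D 1 + D (sig u) else 0, fun e he => ?_⟩⟩
  set j := j₀ + C₂ + 3 with hj
  have he5 : 0 < e / 5 := by positivity
  obtain ⟨q₁, hq₁⟩ := hCore N Φ (2 * j) (e / 5) he5
  have hK := Φ.one_le
  rw [← eventually_atTop]
  filter_upwards [eventually_ge_atTop 3, eventually_ge_atTop q₁, ev_le (2 * j * 8), ev_le 16,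
    hD j (by omega) 1 ε _ he5,
    (eventually_all_finset (range N)).2 fun u _ => hD j (by omega) (sig u) ε _ he5,
    tendsto_log.eventually_ge_atTop (40 * Φ.K ^ 2 / e),
    tendsto_Lam.eventually_ge_atTop (160 / e),
    eventually_Lam_pow_le (C₂ + 2 + 2 * j * 4) (δ := 1 / 20) (e := e / 160) (by norm_num)
      (by positivity)] with q hq hq1 h8 h16 hp hd hl hΛ hs ρ hρ
  have hq0 : 0 < q := by omega
  have hqR : (0 : ℝ) < q := by exact_mod_cast hq0
  have hL0 := Lam_pos hq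
  have hl1 := one_le_log hq
  set l := Real.log q with hldef
  set L := Lam q ^ (2 * j) with hLdef
  have hL1 : 1 ≤ L := one_le_pow₀ (one_le_Lam hq)
  have hL8 : L ^ 8 ≤ q := by rwa [hLdef, ← pow_mul]
  have hl16 : l ^ 16 ≤ q := (pow_le_pow_left₀ (by linarith) (log_le_Lam hq) 16).trans h16
  have hlam0 : 0 ≤ Real.log L := Real.log_nonneg hL1
  have hlam : 8 * Real.log L ≤ l := by
    have := Real.log_le_log (by positivity) hL8
    rwa [Real.log_pow, Nat.cast_ofNat] at this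
  have hll0 : 0 ≤ Real.log l := Real.log_nonneg hl1
  have hll : 16 * Real.log l ≤ l := by
    have := Real.log_le_log (by positivity) hl16
    rwa [Real.log_pow, Nat.cast_ofNat] at this
  obtain ⟨-, hmix, ρ', hρ', hcor, -⟩ := hDual N Φ q ρ hq0 hρ
  obtain ⟨-, hint, -, hout⟩ := (hCt N Φ 1 ε q ρ).2.2.2.2 hq0 hρ
  set σ := sig (q * ρ % N) with hσ
  set f : ℝ × ℝ → ℂ := fun p => Cor Φ 1 ε q ρ p.1 p.2 with hf
  set H : Set (ℝ × ℝ) := {p | p.2 ≤ p.1} with hH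
  set t₁ : Set (ℝ × ℝ) := {p | p.1 ≤ 2 * Real.log l ∧ -(2 * l) - 2 * Real.log l ≤ p.2} with ht₁
  set t₂ : Set (ℝ × ℝ) := {p | p.1 - p.2 ≤ l - 2 * Real.log L} with ht₂
  set t₃ : Set (ℝ × ℝ) := {p | -(2 * l) ≤ p.1 + p.2} with ht₃
  set t₄ : Set (ℝ × ℝ) := {p | |p.1 + l / 2| ≤ 3 * Real.log L ∧
    |-(2 * l) - p.2 + l / 2| ≤ 3 * Real.log L} with ht₄
  have mH : MeasurableSet H := measurableSet_le measurable_snd measurable_fst
  have m₁ : MeasurableSet t₁ :=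
    (measurableSet_le measurable_fst measurable_const).inter
      (measurableSet_le measurable_const measurable_snd)
  have m₂ : MeasurableSet t₂ := measurableSet_le (by fun_prop) measurable_const
  have m₃ : MeasurableSet t₃ := measurableSet_le measurable_const (by fun_prop)
  have m₄ : MeasurableSet t₄ :=
    (measurableSet_le (f := fun p : ℝ × ℝ => |p.1 + l / 2|) (by fun_prop) measurable_const).inter
      (measurableSet_le (f := fun p : ℝ × ℝ => |-(2 * l) - p.2 + l / 2|) (by fun_prop)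
        measurable_const)
  have hsplit : ∫ p in H, f p = (∫ p in H ∩ t₁ ∩ t₂ ∩ t₃, f p) + (∫ p in (H ∩ t₁ ∩ t₂) \ t₃, f p) +
      (∫ p in ((H ∩ t₁) \ t₂) ∩ t₄, f p) + (∫ p in ((H ∩ t₁) \ t₂) \ t₄, f p) +
      ∫ p in H \ t₁, f p := by
    rw [← integral_inter_add_sdiff (s := H) m₁ hint.integrableOn,
      ← integral_inter_add_sdiff (s := H ∩ t₁) m₂ hint.integrableOn,
      ← integral_inter_add_sdiff (s := H ∩ t₁ ∩ t₂) m₃ hint.integrableOn,
      ← integral_inter_add_sdiff (s := (H ∩ t₁) \ t₂) m₄ hint.integrableOn]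
    ring
  have b1 := hp ρ hρ (H ∩ t₁ ∩ t₂ ∩ t₃) (((mH.inter m₁).inter m₂).inter m₃)
    (fun p hp => ⟨hp.1.1.1, hp.1.2, hp.2, by have := hp.1.1.2.1; linarith⟩)
    (fun p hp => by
      obtain ⟨h1, h2, h3, h4⟩ := hp
      exact ⟨⟨⟨h1, h4, by linarith⟩, by simp only [ht₂, Set.mem_ofPred_eq]; linarith⟩, h2.le⟩)
  have b2 : ‖(∫ p in (H ∩ t₁ ∩ t₂) \ t₃, f p) -
      ((if ε then 2 * c * l + D σ else 0 : ℝ) : ℂ)‖ ≤ e / 5 := by
    have e1 : ∀ p, f p = cj ε ((fun p : ℝ × ℝ => Cor Φ σ ε q ρ' p.1 p.2) (iot (-(2 * l)) p)) := by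
      intro p
      simp only [hf, iot_apply]
      rw [hcor, ((hCt N Φ σ ε q ρ').2.2.2.1 _ _).2.2.2]
    simp_rw [e1]
    rw [integral_cj, int_iot (-(2 * l)) (fun p : ℝ × ℝ => Cor Φ σ ε q ρ' p.1 p.2), ← cj_ofReal ε,
      ← cj_sub, norm_cj]
    refine hd _ (mem_range.2 (Nat.mod_lt _ Φ.pos)) ρ' hρ' _
      ((iot _).measurable (((mH.inter m₁).inter m₂).diff m₃)) (fun p hp => ?_) fun p hp => ?_
    · simp only [Set.mem_preimage, iot_apply, hH, ht₁, ht₂, ht₃, Set.mem_sdiff, Set.mem_inter_iff,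
        Set.mem_ofPred_eq, not_le] at hp
      obtain ⟨⟨⟨h1, h2, h3⟩, h4⟩, h5⟩ := hp
      exact ⟨by linarith, by linarith, by linarith, by linarith⟩
    · obtain ⟨h1, h2, h3, h4⟩ := hp
      simp only [Set.mem_preimage, iot_apply, hH, ht₁, ht₂, ht₃, Set.mem_sdiff, Set.mem_inter_iff,
        Set.mem_ofPred_eq, not_le]
      exact ⟨⟨⟨by linarith, by linarith, by linarith⟩, by linarith⟩, by linarith⟩
  have b3 : ‖∫ p in ((H ∩ t₁) \ t₂) ∩ t₄, f p‖ ≤ e / 5 := by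
    have e1 : ∀ p, f p = -((fun p : ℝ × ℝ => Mix Φ σ ε q ρ p.1 p.2) (kap (-(2 * l)) p)) := by
      intro p
      simp only [hf, kap_apply]
      rw [hmix]
    simp_rw [e1]
    rw [integral_neg, int_kap (-(2 * l)) (fun p : ℝ × ℝ => Mix Φ σ ε q ρ p.1 p.2), norm_neg]
    refine hq₁ q hq1 σ ε ρ _ hρ ((kap _).measurable (((mH.inter m₁).diff m₂).inter m₄))
      fun p hp => ?_
    have := hp.2
    simp only [kap_apply, ht₄, Set.mem_ofPred_eq, sub_sub_cancel] at this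
    exact this
  have b4 : ‖∫ p in ((H ∩ t₁) \ t₂) \ t₄, f p‖ ≤ e / 5 := by
    have hsub : ((H ∩ t₁) \ t₂) \ t₄ ⊆ Set.Icc (-(3 * l)) l ×ˢ Set.Icc (-(3 * l)) l := by
      rintro p ⟨⟨⟨h1, h2, h3⟩, -⟩, -⟩
      have h1' : p.2 ≤ p.1 := h1
      exact ⟨⟨by linarith, by linarith⟩, by linarith, by linarith⟩
    have hvol : volume (Set.Icc (-(3 * l)) l ×ˢ Set.Icc (-(3 * l)) l) =
        ENNReal.ofReal (16 * l ^ 2) := by
      rw [Measure.volume_eq_prod, Measure.prod_prod, Real.volume_Icc,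
        ← ENNReal.ofReal_mul (by linarith)]
      congr 1; ring
    have hfin : volume (((H ∩ t₁) \ t₂) \ t₄) ≤ ENNReal.ofReal (16 * l ^ 2) :=
      hvol ▸ measure_mono hsub
    have hb := norm_setIntegral_le_of_norm_le_const (f := f)
      (C := Lam q ^ C₂ * (1 / Real.sqrt L + L ^ 4 / (q : ℝ) ^ (1 / 20 : ℝ)))
      (hfin.trans_lt ENNReal.ofReal_lt_top) (by
        rintro p ⟨⟨⟨h1, h2, h3⟩, h4⟩, h5⟩
        simp only [hf]
        rw [hmix, norm_neg]
        have h4' : l - 2 * Real.log L < p.1 - p.2 := not_le.1 h4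
        exact hC₂ ε q ρ L _ _ hq hρ hL1 hL8 hl16 h2 (by linarith) (by linarith) h5)
    refine hb.trans ?_
    have h1 : volume.real (((H ∩ t₁) \ t₂) \ t₄) ≤ 16 * Lam q ^ 2 := by
      refine (ENNReal.toReal_le_of_le_ofReal (by positivity) hfin).trans ?_
      gcongr; exact log_le_Lam hq
    have hq20 : (0 : ℝ) < (q : ℝ) ^ (1 / 20 : ℝ) := by positivity
    have h2 : Lam q ^ (C₂ + 2) / Lam q ^ j ≤ e / 160 := by
      rw [div_le_iff₀ (by positivity)]
      rw [div_le_iff₀ he] at hΛ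
      calc _ = Lam q ^ (C₂ + 2) * 1 := (mul_one _).symm
        _ ≤ Lam q ^ (C₂ + 2) * (e / 160 * Lam q) := by gcongr; linarith
        _ = e / 160 * Lam q ^ (C₂ + 3) := by ring
        _ ≤ _ := by gcongr; exacts [one_le_Lam hq, by omega]
    have h3 : Lam q ^ (C₂ + 2 + 2 * j * 4) / (q : ℝ) ^ (1 / 20 : ℝ) ≤ e / 160 := by
      rwa [div_le_iff₀ hq20]
    calc _ ≤ Lam q ^ C₂ * (1 / Real.sqrt L + L ^ 4 / (q : ℝ) ^ (1 / 20 : ℝ)) * (16 * Lam q ^ 2) := by
          gcongr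
      _ = 16 * (Lam q ^ (C₂ + 2) / Lam q ^ j +
          Lam q ^ (C₂ + 2 + 2 * j * 4) / (q : ℝ) ^ (1 / 20 : ℝ)) := by
          rw [hLdef, sqrt_pow hq]; ring
      _ ≤ 16 * (e / 160 + e / 160) := by gcongr
      _ = e / 5 := by ring
  have b5 : ‖∫ p in H \ t₁, f p‖ ≤ e / 5 := by
    refine (hout (2 * Real.log l) (by linarith) _ fun p hp => ?_).trans ?_
    · have := hp.2
      simp only [ht₁, Set.mem_ofPred_eq, not_and_or, not_le] at this
      exact this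
    · have e1 : Real.exp (-(2 * Real.log l)) = 1 / l ^ 2 := by
        rw [Real.exp_neg, show 2 * Real.log l = Real.log (l ^ 2) by simp,
          Real.exp_log (by positivity), one_div]
      rw [e1]
      rw [div_le_iff₀ he] at hl
      calc _ ≤ 4 * Φ.K ^ 2 * (1 / l ^ 2) * (l + l) := by gcongr
        _ = 40 * Φ.K ^ 2 / (5 * l) := by field_simp; ring
        _ ≤ l * e / (5 * l) := by gcongr
        _ = e / 5 := by field_simp
  have e2 : (((if ε then 4 * c else 0) * l + (if ε then D 1 + D σ else 0) : ℝ) : ℂ) =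
      ((if ε then 2 * c * l + D 1 else 0 : ℝ) : ℂ) + ((if ε then 2 * c * l + D σ else 0 : ℝ) : ℂ) := by
    cases ε
    · simp
    · simp; ring
  rw [hsplit, e2]
  have key : ∀ a b c d g x y : ℂ, a + b + c + d + g - (x + y) = (a - x) + (b - y) + c + d + g := by
    intros; ring
  rw [key]
  refine (norm_add_le _ _).trans ?_
  refine (add_le_add_left (norm_add_le _ _) _).trans ?_
  refine (add_le_add_left (add_le_add_left (norm_add_le _ _) _) _).trans ?_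
  refine (add_le_add_left (add_le_add_left (add_le_add_left (norm_add_le _ _) _) _) _).trans ?_
  linarith

end MR
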