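import Pool.Agent.P.MP_79de8b_nt.Basic

/-! The mass of the multiples of a finite set of primes. -/

open Finset Filter Topology

namespace MR

namespace S1

/-- the renewal estimate -/
theorem ren (E R : ℝ → ℝ) (a t : ℕ → ℝ) (A B : ℝ) (hA : 0 ≤ A)
    (hE : ∀ η, 0 < η → E η = R η - ∑' k, a k * E (t k * η))
    (hR : ∀ η, 0 < η → |R η| ≤ A * η ^ (1 / 5 : ℝ)) (hB : ∀ η, 0 < η → |E η| ≤ B)
    (ha : ∀ k, 0 ≤ a k) (ht : ∀ k, 1 ≤ t k)
    (hat : ∀ k, a k * t k ^ (1 / 5 : ℝ) ≤ 1 / 4 * (1 / 2) ^ k) (η : ℝ) (hη : 0 < η) :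
    |E η| ≤ 2 * A * η ^ (1 / 5 : ℝ) := by
  have hB0 : 0 ≤ B := (abs_nonneg _).trans (hB 1 one_pos)
  have key : ∀ j : ℕ, ∀ η, 0 < η → |E η| ≤ 2 * A * η ^ (1 / 5 : ℝ) + B * (1 / 2) ^ j := by
    intro j
    induction j with
    | zero =>
      intro η hη
      have : 0 ≤ 2 * A * η ^ (1 / 5 : ℝ) := by positivity
      linarith [hB η hη]
    | succ j ih =>
      intro η hη
      set W := 2 * A * η ^ (1 / 5 : ℝ) + B * (1 / 2) ^ j with hW
      have h1 : ‖∑' k, a k * E (t k * η)‖ ≤ 1 / 4 * 2 * W := by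
        refine tsum_of_norm_bounded ((hasSum_geometric_two.mul_left (1 / 4)).mul_right W)
          fun k => ?_
        have h0 : 0 < t k := by linarith [ht k]
        have h2 := ih (t k * η) (by positivity)
        have h3 : 1 ≤ t k ^ (1 / 5 : ℝ) := Real.one_le_rpow (ht k) (by norm_num)
        rw [Real.mul_rpow h0.le hη.le] at h2
        have h4 : |E (t k * η)| ≤ t k ^ (1 / 5 : ℝ) * W := by
          have : B * (1 / 2) ^ j ≤ t k ^ (1 / 5 : ℝ) * (B * (1 / 2) ^ j) :=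
            le_mul_of_one_le_left (by positivity) h3
          rw [hW]; linarith
        rw [Real.norm_eq_abs, abs_mul, abs_of_nonneg (ha k)]
        refine (mul_le_mul_of_nonneg_left h4 (ha k)).trans ?_
        rw [← mul_assoc]
        exact mul_le_mul_of_nonneg_right (hat k) (by positivity)
      rw [Real.norm_eq_abs] at h1
      rw [hE η hη]
      refine (abs_sub _ _).trans ?_
      rw [pow_succ]
      linarith [hR η hη]
  have h : Tendsto (fun j : ℕ => 2 * A * η ^ (1 / 5 : ℝ) + B * (1 / 2) ^ j) atTop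
      (𝓝 (2 * A * η ^ (1 / 5 : ℝ) + B * 0)) :=
    ((tendsto_pow_atTop_nhds_zero_of_lt_one (by norm_num) (by norm_num)).const_mul B).const_add _
  rw [mul_zero, add_zero] at h
  exact ge_of_tendsto' h fun j => key j η hη

theorem inj {p : ℕ} (hp : p.Prime) :
    Function.Injective fun x : ℕ × {m : ℕ | ¬p ∣ m} => p ^ x.1 * x.2.1 := by
  have key : ∀ (k d m n : ℕ), ¬p ∣ m → p ^ k * m = p ^ (k + d) * n → d = 0 ∧ m = n := by
    intro k d m n hm h
    rw [pow_add, mul_assoc] at h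
    have h1 := Nat.eq_of_mul_eq_mul_left (pow_pos hp.pos k) h
    rcases Nat.eq_zero_or_pos d with rfl | hd
    · exact ⟨rfl, by simpa using h1⟩
    · exact absurd (h1 ▸ (dvd_pow_self p hd.ne').mul_right n) hm
  rintro ⟨k, m, hm⟩ ⟨j, n, hn⟩ h
  rcases le_total k j with h1 | h1
  · obtain ⟨d, rfl⟩ := Nat.exists_eq_add_of_le h1
    obtain ⟨rfl, rfl⟩ := key k d m n hm h
    rfl
  · obtain ⟨d, rfl⟩ := Nat.exists_eq_add_of_le h1
    obtain ⟨rfl, rfl⟩ := key j d n m hn h.symm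
    rfl

variable {γ : ℕ → ℝ} {c K : ℝ}

/-- removal of the power of `p` -/
theorem split (h : Wt γ c K) {p : ℕ} (hp : p.Prime) (P : ℕ → Prop)
    (hP : ∀ k m, P (p ^ k * m) ↔ P m) {η : ℝ}
    (hs : Summable (Set.indicator {n | P n} fun n : ℕ => γ n * ww (n * η))) :
    HasSum (fun k => γ (p ^ k) * IP γ (fun n => ¬p ∣ n ∧ P n) (p ^ k * η)) (IP γ P η) := by
  set a := Set.indicator {n | P n} fun n : ℕ => γ n * ww (n * η) with ha
  have h1 : HasSum (fun x : ℕ × {m : ℕ | ¬p ∣ m} => a (p ^ x.1 * x.2.1)) (IP γ P η) := by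
    refine ((inj hp).hasSum_iff (f := a) fun n hn => ?_).2 hs.hasSum
    rcases eq_or_ne n 0 with rfl | h0
    · rw [ha]
      by_cases h1 : 0 ∈ {n | P n}
      · rw [Set.indicator_of_mem h1, h.zero, zero_mul]
      · exact Set.indicator_of_notMem h1 _
    · obtain ⟨e, m, h1, h2⟩ := Nat.exists_eq_pow_mul_and_not_dvd h0 p hp.ne_one
      exact absurd ⟨(e, ⟨m, h1⟩), h2.symm⟩ hn
  refine h1.prod_fiberwise fun k => ?_
  have h2 : ∑' m : {m : ℕ | ¬p ∣ m}, a (p ^ k * m.1) =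
      γ (p ^ k) * IP γ (fun n => ¬p ∣ n ∧ P n) (p ^ k * η) := by
    rw [tsum_subtype {m : ℕ | ¬p ∣ m} fun m => a (p ^ k * m), IP, ← tsum_mul_left]
    refine tsum_congr fun m => ?_
    by_cases h3 : p ∣ m
    · rw [Set.indicator_of_notMem (by simpa using h3), Set.indicator_of_notMem
        (show m ∉ {n | ¬p ∣ n ∧ P n} from fun h4 => h4.1 h3), mul_zero]
    rw [Set.indicator_of_mem (by simpa using h3), ha]
    by_cases h4 : P m
    · rw [Set.indicator_of_mem (show p ^ k * m ∈ {n | P n} from (hP k m).2 h4),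
        Set.indicator_of_mem (show m ∈ {n | ¬p ∣ n ∧ P n} from ⟨h3, h4⟩),
        h.mul _ _ (((Nat.Prime.coprime_iff_not_dvd hp).2 h3).pow_left k)]
      push_cast
      rw [mul_assoc, mul_comm ((p : ℝ) ^ k) m, mul_assoc]
    · rw [Set.indicator_of_notMem (show p ^ k * m ∉ {n | P n} from fun h5 => h4 ((hP k m).1 h5)),
        Set.indicator_of_notMem (show m ∉ {n | ¬p ∣ n ∧ P n} from fun h5 => h4 h5.2), mul_zero]
  rw [← h2]
  exact (h1.summable.prod_factor k).hasSum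

theorem small (h : Wt γ c K) {p : ℕ} (hp : ⌈(4 * K) ^ 5⌉₊ ≤ p) (k : ℕ) :
    γ (p ^ (k + 1)) * ((p : ℝ) ^ (k + 1)) ^ (1 / 5 : ℝ) ≤ 1 / 4 * (1 / 2) ^ k := by
  have hK := h.K1
  have h1 : (4 * K) ^ 5 ≤ (p : ℝ) := (Nat.le_ceil _).trans (by exact_mod_cast hp)
  have h0 : (0 : ℝ) < p := lt_of_lt_of_le (by positivity) h1
  have h2 : 4 * K ≤ (p : ℝ) ^ (1 / 5 : ℝ) := by
    have := Real.rpow_le_rpow (by positivity) h1 (show (0 : ℝ) ≤ 1 / 5 by norm_num)
    rwa [← Real.rpow_natCast, ← Real.rpow_mul (by positivity), Nat.cast_ofNat,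
      mul_one_div_cancel (by norm_num), Real.rpow_one] at this
  have h3 := h.pw (p ^ (k + 1)) (Nat.one_le_pow _ _ (by exact_mod_cast h0))
  refine (mul_le_mul_of_nonneg_right h3 (by positivity)).trans ?_
  push_cast
  rw [mul_assoc, ← Real.rpow_add (by positivity), show -(2 / 5 : ℝ) + 1 / 5 = -(1 / 5) by norm_num,
    Real.rpow_neg (by positivity), ← Real.rpow_pow_comm h0.le]
  generalize (p : ℝ) ^ (1 / 5 : ℝ) = s at h2
  have h4 : 0 < s := by linarith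
  have h5 : s⁻¹ ^ k ≤ (1 / 2) ^ k := by
    refine pow_le_pow_left₀ (by positivity) ?_ k
    rw [one_div]
    exact inv_anti₀ (by norm_num) (by linarith)
  have h6 : K * s⁻¹ ≤ 1 / 4 := by
    rw [← div_eq_mul_inv, div_le_iff₀ h4]; linarith
  rw [← inv_pow, pow_succ', ← mul_assoc]
  exact mul_le_mul h6 h5 (by positivity) (by norm_num)

section
variable (h : Wt γ c K)
  (hI : ∀ (P : ℕ → Prop) (η : ℝ), 0 < η →
    Summable (Set.indicator {n | P n} fun n : ℕ => γ n * ww (n * η)) ∧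
    0 ≤ IP γ P η ∧ IP γ P η ≤ K)
  (hG : ∀ p : ℕ, 2 ≤ p → (Summable fun k => γ (p ^ k)) ∧ 1 ≤ Gloc γ p)
include h hI hG

theorem step {p : ℕ} (hp : p.Prime) (hp0 : ⌈(4 * K) ^ 5⌉₊ ≤ p) (P : ℕ → Prop)
    (hP : ∀ k m, P (p ^ k * m) ↔ P m) (d A : ℝ) (hA : 0 ≤ A)
    (hd : ∀ η, 0 < η → |IP γ P η - d| ≤ A * η ^ (1 / 5 : ℝ)) (η : ℝ) (hη : 0 < η) :
    |IP γ (fun n => ¬p ∣ n ∧ P n) η - d / Gloc γ p| ≤ 2 * A * η ^ (1 / 5 : ℝ) := by
  obtain ⟨g1, g2⟩ := hG p hp.two_le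
  refine ren (fun η => IP γ (fun n => ¬p ∣ n ∧ P n) η - d / Gloc γ p) (fun η => IP γ P η - d)
    (fun k => γ (p ^ (k + 1))) (fun k => (p : ℝ) ^ (k + 1)) A (K + |d / Gloc γ p|) hA
    (fun η hη => ?_) hd (fun η hη => ?_) (fun k => h.nn _)
    (fun k => one_le_pow₀ (by exact_mod_cast hp.one_le)) (small h hp0) η hη
  · have h1 := (split h hp P hP (hI P η hη).1).sub (g1.hasSum.mul_right (d / Gloc γ p))
    have h2 : (∑' k, γ (p ^ k)) * (d / Gloc γ p) = d := by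
      rw [← Gloc]; field_simp
    rw [h2] at h1
    simp only [← mul_sub] at h1
    rw [← h1.tsum_eq, h1.summable.tsum_eq_zero_add]
    simp [h.one]
  · obtain ⟨-, h1, h2⟩ := hI (fun n => ¬p ∣ n ∧ P n) η hη
    exact (abs_sub _ _).trans (add_le_add (abs_le.2 ⟨by linarith, h2⟩) le_rfl)

theorem cop (U : Finset ℕ) (hU : ∀ p ∈ U, p.Prime ∧ ⌈(4 * K) ^ 5⌉₊ ≤ p) (η : ℝ) (hη : 0 < η) :
    |IP γ (fun n => ∀ p ∈ U, ¬p ∣ n) η - c * ∏ p ∈ U, 1 / Gloc γ p| ≤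
      2 ^ U.card * K * η ^ (1 / 5 : ℝ) := by
  induction U using Finset.induction_on generalizing η with
  | empty => simpa using h.asy η hη
  | insert p U hp ih =>
    have h1 := hU p (mem_insert_self _ _)
    have h2 : ∀ q ∈ U, q.Prime ∧ ⌈(4 * K) ^ 5⌉₊ ≤ q := fun q hq => hU q (mem_insert_of_mem hq)
    have := step h hI hG h1.1 h1.2 (fun n => ∀ p ∈ U, ¬p ∣ n) (fun k m => forall₂_congr
      fun q hq => not_congr (Nat.Coprime.dvd_mul_left (Nat.Coprime.pow_right k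
        ((Nat.coprime_primes (h2 q hq).1 h1.1).2 fun e => hp (e ▸ hq))))) _ _
      (by have := h.K1; positivity) (ih h2) η hη
    simp only [forall_mem_insert]
    rw [prod_insert hp, card_insert_of_notMem hp]
    convert this using 2 <;> ring

theorem mixed (T U : Finset ℕ) (hT : ∀ p ∈ T, p.Prime ∧ ⌈(4 * K) ^ 5⌉₊ ≤ p)
    (hU : ∀ p ∈ U, p.Prime ∧ ⌈(4 * K) ^ 5⌉₊ ≤ p) (hd : Disjoint T U) (η : ℝ) (hη : 0 < η) :
    |IP γ (fun n => (∀ p ∈ T, p ∣ n) ∧ ∀ p ∈ U, ¬p ∣ n) η -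
      c * (∏ p ∈ T, (1 - 1 / Gloc γ p)) * ∏ p ∈ U, 1 / Gloc γ p| ≤
      4 ^ T.card * 2 ^ U.card * K * η ^ (1 / 5 : ℝ) := by
  induction T using Finset.induction_on generalizing U with
  | empty => simpa using cop h hI hG U hU η hη
  | insert p T hp ih =>
    rw [disjoint_insert_left] at hd
    have h2 : ∀ q ∈ T, q.Prime ∧ ⌈(4 * K) ^ 5⌉₊ ≤ q := fun q hq => hT q (mem_insert_of_mem hq)
    have h3 := ih U h2 hU hd.2
    have h4 := ih (insert p U) h2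
      (forall_mem_insert _ _ _ |>.2 ⟨hT p (mem_insert_self _ _), hU⟩)
      (disjoint_insert_right.2 ⟨hp, hd.2⟩)
    have h5 : IP γ (fun n => (∀ q ∈ insert p T, q ∣ n) ∧ ∀ q ∈ U, ¬q ∣ n) η =
        IP γ (fun n => (∀ q ∈ T, q ∣ n) ∧ ∀ q ∈ U, ¬q ∣ n) η -
        IP γ (fun n => (∀ q ∈ T, q ∣ n) ∧ ∀ q ∈ insert p U, ¬q ∣ n) η := by
      unfold IP
      rw [← (hI _ η hη).1.tsum_sub (hI _ η hη).1]
      refine tsum_congr fun n => ?_
      classical
      simp only [Set.indicator_apply, Set.mem_ofPred_eq, forall_mem_insert]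
      by_cases a1 : p ∣ n <;> by_cases a2 : (∀ q ∈ T, q ∣ n) <;>
        by_cases a3 : (∀ q ∈ U, ¬q ∣ n) <;> simp only [a1, a2, a3] <;> simp
    rw [prod_insert hd.1, card_insert_of_notMem hd.1] at h4
    rw [h5, prod_insert hp, card_insert_of_notMem hp]
    have hK := h.K1
    have h6 : 0 ≤ 4 ^ T.card * 2 ^ U.card * K * η ^ (1 / 5 : ℝ) := by positivity
    rw [abs_le] at h3 h4 ⊢
    rw [pow_succ] at h4 ⊢
    constructor <;> linarith [h3.1, h3.2, h4.1, h4.2]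

end

end S1

theorem s1 (h0 : S_S0) : S_S1 := by
  intro c K
  obtain ⟨C, -, h0⟩ := h0 c K
  refine ⟨⌈(4 * K) ^ 5⌉₊, fun γ h T hT η hη => ?_⟩
  obtain ⟨hI, -, -, hG, -⟩ := h0 γ h
  simpa using S1.mixed h hI (fun p hp => ⟨(hG p hp).1, (hG p hp).2.1⟩) T ∅ hT (by simp)
    (disjoint_empty_right _) η hη

end MR
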