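import Pool.Agent.P.MP_79de8b_nt.Basic

/-! Lower bound for the product of the local factors. -/

open Finset
open scoped Real

noncomputable section
namespace MR

namespace S3

lemma ww_nonneg (t : ℝ) : 0 ≤ ww t := by unfold ww; positivity

lemma ww_le {t : ℝ} (ht : 0 ≤ t) : ww t ≤ t / (1 + t) - t / 32 / (1 + t / 32) := by
  have h1 : (1 + t) ^ 3 ≤ Real.exp (4 * π * t) := by
    calc (1 + t) ^ 3 ≤ Real.exp t ^ 3 := by
          gcongr; linarith [Real.add_one_le_exp t]
      _ = Real.exp (3 * t) := by rw [← Real.exp_nat_mul]; norm_num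
      _ ≤ _ := Real.exp_le_exp.2 (by nlinarith [Real.pi_gt_three])
  have h2 : ww t ≤ t ^ 2 / (1 + t) ^ 3 := by
    unfold ww
    rw [Real.exp_neg, ← div_eq_mul_inv]
    gcongr
  refine h2.trans ?_
  rw [div_sub_div _ _ (by positivity) (by positivity), div_le_div_iff₀ (by positivity) (by positivity)]
  have h3 : 0 ≤ t ^ 2 := by positivity
  have h4 : 0 ≤ t ^ 3 := by positivity
  have h5 : 0 ≤ t ^ 4 := by positivity
  nlinarith

lemma sum_ww_le {t : ℝ} (ht : 0 ≤ t) (J : ℕ) : ∑ j ∈ range J, ww (t * (1 / 32) ^ j) ≤ 1 := by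
  have h : ∀ J : ℕ, ∑ j ∈ range J, ww (t * (1 / 32) ^ j) ≤
      t / (1 + t) - t * (1 / 32) ^ J / (1 + t * (1 / 32) ^ J) := by
    intro J
    induction J with
    | zero => simp
    | succ J ih =>
      rw [sum_range_succ]
      have := ww_le (t := t * (1 / 32) ^ J) (by positivity)
      have e : t * (1 / 32) ^ (J + 1) = t * (1 / 32) ^ J / 32 := by ring
      rw [e]
      linarith
  have h1 : t / (1 + t) ≤ 1 := by rw [div_le_one (by positivity)]; linarith
  have h2 : 0 ≤ t * (1 / 32) ^ J / (1 + t * (1 / 32) ^ J) := by positivity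
  linarith [h J]

lemma ww_tail {t y : ℝ} (hy : 0 < y) (ht : y ≤ t) : ww t ≤ ww (t / 2) / y := by
  have h0 : 0 < t := hy.trans_le ht
  have e : ww t = ww (t / 2) * (4 * Real.exp (-(2 * π * t))) := by
    unfold ww
    rw [show -(4 * π * t) = -(4 * π * (t / 2)) + -(2 * π * t) by ring, Real.exp_add]
    ring
  rw [e, div_eq_mul_inv (ww (t / 2))]
  refine mul_le_mul_of_nonneg_left ?_ (ww_nonneg _)
  rw [Real.exp_neg, ← div_eq_mul_inv, ← one_div, div_le_div_iff₀ (Real.exp_pos _) hy]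
  nlinarith [Real.add_one_le_exp (2 * π * t), Real.pi_gt_three]

variable {γ : ℕ → ℝ} {c K : ℝ}

lemma IP_true (γ : ℕ → ℝ) (η : ℝ) : IP γ (fun _ => True) η = ∑' n : ℕ, γ n * ww (n * η) := by
  simp [IP]

lemma IP_le (hγ : Wt γ c K) (hs : ∀ η, 0 < η → Summable fun n : ℕ => γ n * ww (n * η)) {η : ℝ}
    (hη : 0 < η) {X : ℕ} (hX : 0 < X) :
    IP γ (fun _ => True) η ≤ ∑ n ∈ Icc 1 X, γ n * ww (n * η) + K / (X * η) := by
  have hX' : (0 : ℝ) < X := by exact_mod_cast hX
  have hn : ∀ (η : ℝ) (n : ℕ), 0 ≤ γ n * ww (n * η) := fun η n => mul_nonneg (hγ.nn n) (ww_nonneg _)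
  rw [IP_true]
  refine (hs η hη).tsum_le_of_sum_le fun s => ?_
  rw [← sum_filter_add_sum_filter_not s fun n => n ∈ Icc 1 X]
  refine add_le_add (sum_le_sum_of_subset_of_nonneg (fun n hn => (mem_filter.1 hn).2)
    fun n _ _ => hn η n) ?_
  have h1 := hγ.bd (η / 2) (by positivity)
  rw [IP_true] at h1
  calc _ ≤ ∑ n ∈ s.filter (fun n => ¬ n ∈ Icc 1 X), γ n * ww (n * (η / 2)) / (X * η) := by
        refine sum_le_sum fun n hn => ?_
        rcases Nat.eq_zero_or_pos n with rfl | h0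
        · simp [hγ.zero]
        · have h2 : X ≤ n := by
            have := (mem_filter.1 hn).2
            rw [mem_Icc] at this
            omega
          have h3 : (X : ℝ) ≤ n := by exact_mod_cast h2
          rw [mul_div_assoc, ← mul_div_assoc (n : ℝ)]
          exact mul_le_mul_of_nonneg_left (ww_tail (by positivity) (by gcongr)) (hγ.nn n)
    _ ≤ _ := by
        rw [← sum_div]
        gcongr
        exact ((hs _ (by positivity)).sum_le_tsum _ fun n _ => hn _ n).trans h1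

/-- the logarithmic lower bound for the partial sums -/
lemma log_le (hγ : Wt γ c K) (hs : ∀ η, 0 < η → Summable fun n : ℕ => γ n * ww (n * η)) {X : ℕ}
    (hX : 0 < X) : c * Nat.log 32 X ≤ 3 * K + ∑ n ∈ Icc 1 X, γ n := by
  have hX' : (0 : ℝ) < X := by exact_mod_cast hX
  have hK : 0 ≤ K := zero_le_one.trans hγ.K1
  set J := Nat.log 32 X
  have hJ : (32 : ℝ) ^ J ≤ X := by exact_mod_cast Nat.pow_log_le_self 32 hX.ne'
  have h1 : ∀ j : ℕ, c ≤ K * (1 / 2) ^ j + (∑ n ∈ Icc 1 X, γ n * ww (n * (1 / 32) ^ j) +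
      K / X * 32 ^ j) := by
    intro j
    have h2 := (abs_le.1 (hγ.asy ((1 / 32) ^ j) (by positivity))).1
    have h3 := IP_le hγ hs (η := (1 / 32) ^ j) (by positivity) hX
    have e1 : (((1 / 32 : ℝ) ^ j) ^ (1 / 5 : ℝ)) = (1 / 2) ^ j := by
      rw [show (1 / 32 : ℝ) = (1 / 2) ^ 5 by norm_num, ← pow_mul, mul_comm, pow_mul,
        show (1 / 5 : ℝ) = ((5 : ℕ) : ℝ)⁻¹ by norm_num, Real.pow_rpow_inv_natCast (by positivity)
        (by norm_num)]
    have e2 : K / (X * (1 / 32) ^ j) = K / X * 32 ^ j := by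
      rw [one_div, inv_pow]; field_simp
    rw [e1] at h2
    rw [e2] at h3
    linarith
  have h4 := sum_le_sum fun j (_ : j ∈ range J) => h1 j
  rw [sum_const, card_range, nsmul_eq_mul, sum_add_distrib, sum_add_distrib, ← mul_sum, ← mul_sum,
    sum_comm] at h4
  have h5 : ∑ j ∈ range J, (1 / 2 : ℝ) ^ j ≤ 2 := sum_geometric_two_le J
  have h6 : ∑ j ∈ range J, (32 : ℝ) ^ j ≤ X := by
    refine le_trans ?_ hJ
    rw [geom_sum_eq (by norm_num)]
    have : (0 : ℝ) < 32 ^ J := by positivity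
    linarith
  have h7 : ∑ n ∈ Icc 1 X, ∑ j ∈ range J, γ n * ww (n * (1 / 32) ^ j) ≤ ∑ n ∈ Icc 1 X, γ n := by
    refine sum_le_sum fun n _ => ?_
    rw [← mul_sum]
    exact mul_le_of_le_one_right (hγ.nn n) (sum_ww_le (Nat.cast_nonneg n) J)
  have h8 : K / X * ∑ j ∈ range J, (32 : ℝ) ^ j ≤ K := by
    calc _ ≤ K / X * X := by gcongr
      _ = K := by field_simp
  have h9 := mul_le_mul_of_nonneg_left h5 hK
  linarith

/-- removing the primes of `T` -/
lemma euler (hγ : Wt γ c K) (hs : ∀ p : ℕ, 2 ≤ p → Summable fun k => γ (p ^ k)) (X : ℕ)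
    (A : ℕ → Prop) [DecidablePred A] (T : Finset ℕ) (hT : ∀ p ∈ T, p.Prime) :
    ∑ n ∈ (Icc 1 X).filter (fun n => ∀ p ∈ n.primeFactors, A p ∨ p ∈ T), γ n ≤
      (∑ n ∈ (Icc 1 X).filter (fun n => ∀ p ∈ n.primeFactors, A p), γ n) * ∏ p ∈ T, Gloc γ p := by
  induction T using Finset.induction_on with
  | empty =>
    rw [prod_empty, mul_one]
    exact le_of_eq (sum_congr (filter_congr fun n _ => by simp) fun _ _ => rfl)
  | insert p T hp ih =>
    have pp : p.Prime := hT p (mem_insert_self _ _)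
    have ih := ih fun q hq => hT q (mem_insert_of_mem hq)
    have hG : ∑ k ∈ range (X + 1), γ (p ^ k) ≤ Gloc γ p :=
      (hs p pp.two_le).sum_le_tsum _ fun k _ => hγ.nn _
    have hG0 : 0 ≤ Gloc γ p := (sum_nonneg fun k _ => hγ.nn _).trans hG
    rw [prod_insert hp, mul_left_comm]
    refine le_trans ?_ (mul_le_mul_of_nonneg_left ih hG0)
    refine le_trans ?_ (mul_le_mul_of_nonneg_right hG (sum_nonneg fun n _ => hγ.nn n))
    rw [sum_mul_sum, ← sum_product']
    set s := (Icc 1 X).filter (fun n => ∀ q ∈ n.primeFactors, A q ∨ q ∈ insert p T) with hs'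
    have inj : Set.InjOn (fun n : ℕ => (n.factorization p, n / p ^ n.factorization p)) s := by
      intro m _ n _ h
      simp only [Prod.mk.injEq] at h
      rw [← Nat.ordProj_mul_ordCompl_eq_self m p, ← Nat.ordProj_mul_ordCompl_eq_self n p, h.2, h.1]
    calc ∑ n ∈ s, γ n = ∑ z ∈ s.image (fun n : ℕ => (n.factorization p, n / p ^ n.factorization p)),
          γ (p ^ z.1) * γ z.2 := by
          rw [sum_image inj]
          refine sum_congr rfl fun n hn => ?_
          have h0 : n ≠ 0 := by have := (mem_Icc.1 (mem_filter.1 hn).1).1; omega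
          rw [← hγ.mul _ _ ((Nat.coprime_ordCompl pp h0).pow_left _),
            Nat.ordProj_mul_ordCompl_eq_self]
      _ ≤ _ := by
          refine sum_le_sum_of_subset_of_nonneg (fun z hz => ?_)
            fun z _ _ => mul_nonneg (hγ.nn _) (hγ.nn _)
          obtain ⟨n, hn, rfl⟩ := mem_image.1 hz
          obtain ⟨h1, h2⟩ := mem_filter.1 hn
          obtain ⟨h3, h4⟩ := mem_Icc.1 h1
          have h0 : n ≠ 0 := by omega
          refine mem_product.2 ⟨mem_range.2 ?_, mem_filter.2 ⟨mem_Icc.2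
            ⟨Nat.ordCompl_pos p h0, (Nat.div_le_self _ _).trans h4⟩, fun q hq => ?_⟩⟩
          · have := Nat.factorization_lt p h0
            simp only
            omega
          · have hq' := Nat.dvd_of_mem_primeFactors hq
            rcases h2 q (Nat.mem_primeFactors.2 ⟨Nat.prime_of_mem_primeFactors hq,
              hq'.trans (Nat.ordCompl_dvd n p), h0⟩) with h | h
            · exact Or.inl h
            · rcases mem_insert.1 h with rfl | h
              · exact absurd hq' (Nat.not_dvd_ordCompl pp h0)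
              · exact Or.inr h

end S3

open S3

theorem s3 (h0 : S_S0) : S_S3 := by
  intro c K
  obtain ⟨C, hC, h⟩ := h0 c K
  refine ⟨27 + 4 * (|c| + 3 * |K| + 1) * (C * Real.exp C), fun γ hγ P₀ P₁ B h1 h2 h3 => ?_⟩
  obtain ⟨a1, -, -, a4, a5⟩ := h γ hγ
  have hc := hγ.c0
  have hK : 0 ≤ K := zero_le_one.trans hγ.K1
  rw [abs_of_nonneg hc, abs_of_nonneg hK] at h1 ⊢
  have hCe : 0 ≤ 4 * (c + 3 * K + 1) * (C * Real.exp C) := by positivity
  have hP0 : 27 ≤ P₀ := by linarith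
  have hP1 : 27 ≤ P₁ := hP0.trans h2
  set X := ⌊P₁⌋₊ with hX
  have hX1 : 1 ≤ X := Nat.le_floor (by push_cast; linarith)
  set U := (Icc 1 X).filter fun p : ℕ => p.Prime ∧ P₀ < p with hU
  have hUp : ∀ p ∈ U, p.Prime := fun p hp => (mem_filter.1 hp).2.1
  have b1 := log_le hγ (fun η hη => by simpa using (a1 (fun _ => True) η hη).1) hX1
  have b2 : 1 ≤ ∑ n ∈ Icc 1 X, γ n :=
    hγ.one ▸ single_le_sum (fun n _ => hγ.nn n) (mem_Icc.2 ⟨le_rfl, hX1⟩)
  have b3 : Real.log P₁ ≤ 4 * (Nat.log 32 X + 1) := by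
    have e1 : P₁ ≤ (32 : ℝ) ^ (Nat.log 32 X + 1) := by
      have e2 : X + 1 ≤ 32 ^ (Nat.log 32 X + 1) := Nat.lt_pow_succ_log_self (by norm_num) X
      refine (Nat.lt_floor_add_one P₁).le.trans ?_
      exact_mod_cast e2
    refine (Real.log_le_log (by linarith) e1).trans ?_
    rw [Real.log_pow, mul_comm, show (32 : ℝ) = 2 ^ 5 by norm_num, Real.log_pow]
    push_cast
    gcongr
    linarith [Real.log_two_lt_d9]
  have b4 : c * Real.log P₁ ≤ 4 * (c + 3 * K + 1) * ∑ n ∈ Icc 1 X, γ n := by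
    have := mul_le_mul_of_nonneg_left b3 hc
    nlinarith [mul_le_mul_of_nonneg_left b2 (show 0 ≤ c + 3 * K by positivity)]
  have b5 := euler hγ (fun p hp => (a4 p hp).1) X (fun p => (p : ℝ) ≤ P₀) U hUp
  rw [filter_true_of_mem fun n hn p hp => by
    rcases le_or_gt (p : ℝ) P₀ with h | h
    · exact Or.inl h
    · have pp := Nat.prime_of_mem_primeFactors hp
      exact Or.inr (mem_filter.2 ⟨mem_Icc.2 ⟨pp.one_le,
        (Nat.le_of_mem_primeFactors hp).trans (mem_Icc.1 hn).2⟩, pp, h⟩)] at b5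
  have b6 := a5 P₀ ((Icc 1 X).filter fun n => ∀ p ∈ n.primeFactors, (p : ℝ) ≤ P₀) (by linarith)
    fun n hn => by
      obtain ⟨n1, n2⟩ := mem_filter.1 hn
      have n3 := (mem_Icc.1 n1).1
      exact ⟨n3, fun p pp hp => n2 p (Nat.mem_primeFactors.2 ⟨pp, hp, by omega⟩)⟩
  have hG : ∀ p ∈ U, 0 ≤ Gloc γ p := fun p hp => zero_le_one.trans (a4 p (hUp p hp).two_le).2.1
  have b7 : ∏ p ∈ U ∩ B, Gloc γ p ≤ Real.exp C := by
    have e1 : (B.card : ℝ) ≤ P₀ ^ (2 / 5 : ℝ) := by
      refine le_of_pow_le_pow_left₀ (n := 3) (by norm_num) (by positivity) (h3.trans ?_)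
      rw [← Real.rpow_natCast, ← Real.rpow_mul (by linarith)]
      conv_lhs => rw [← Real.rpow_one P₀]
      exact Real.rpow_le_rpow_of_exponent_le (by linarith) (by norm_num)
    have e2 : (0 : ℝ) < P₀ ^ (2 / 5 : ℝ) := by positivity
    calc _ ≤ ∏ p ∈ U ∩ B, Real.exp (C / P₀ ^ (2 / 5 : ℝ)) := by
          refine prod_le_prod (fun p hp => hG p (mem_inter.1 hp).1) fun p hp => ?_
          have hp := (mem_inter.1 hp).1
          refine (a4 p (hUp p hp).two_le).2.2.trans ?_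
          have e3 : (p : ℝ) ^ (-(2 / 5 : ℝ)) ≤ (P₀ ^ (2 / 5 : ℝ))⁻¹ := by
            rw [Real.rpow_neg (Nat.cast_nonneg _)]
            gcongr
            exact (mem_filter.1 hp).2.2.le
          have e4 := Real.add_one_le_exp (C / P₀ ^ (2 / 5 : ℝ))
          have e6 : C * (p : ℝ) ^ (-(2 / 5 : ℝ)) ≤ C / P₀ ^ (2 / 5 : ℝ) :=
            mul_le_mul_of_nonneg_left e3 (by linarith)
          linarith
      _ = Real.exp ((U ∩ B).card * (C / P₀ ^ (2 / 5 : ℝ))) := by
          rw [prod_const, Real.exp_nat_mul]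
      _ ≤ _ := by
          refine Real.exp_le_exp.2 ?_
          have e5 : ((U ∩ B).card : ℝ) ≤ B.card := by
            exact_mod_cast card_le_card inter_subset_right
          calc _ ≤ P₀ ^ (2 / 5 : ℝ) * (C / P₀ ^ (2 / 5 : ℝ)) := by gcongr; linarith
            _ = C := by field_simp
  have b8 : ∏ p ∈ U, Gloc γ p = (∏ p ∈ U \ B, Gloc γ p) * ∏ p ∈ U ∩ B, Gloc γ p := by
    rw [← prod_union (disjoint_sdiff_inter U B), sdiff_union_inter]
  have b9 : 0 ≤ ∏ p ∈ U \ B, Gloc γ p := prod_nonneg fun p hp => hG p (mem_sdiff.1 hp).1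
  have l0 : 0 ≤ Real.log P₀ := Real.log_nonneg (by linarith)
  have l1 : 1 ≤ Real.log (Real.log P₁) := by
    have e3 : Real.exp 1 ≤ 3 := by linarith [Real.exp_one_lt_d9]
    rw [Real.le_log_iff_exp_le (Real.log_pos (by linarith))]
    refine e3.trans ?_
    rw [Real.le_log_iff_exp_le (by linarith)]
    calc Real.exp 3 = Real.exp 1 ^ 3 := by rw [← Real.exp_nat_mul]; norm_num
      _ ≤ 3 ^ 3 := by gcongr
      _ ≤ _ := by linarith
  have b10 : 0 ≤ ∏ p ∈ U ∩ B, Gloc γ p := prod_nonneg fun p hp => hG p (mem_inter.1 hp).1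
  rw [b8] at b5
  generalize ∏ p ∈ U \ B, Gloc γ p = V₁ at *
  generalize ∏ p ∈ U ∩ B, Gloc γ p = V₂ at *
  calc c * Real.log P₁ ≤ 4 * (c + 3 * K + 1) * ((C * Real.log P₀ ^ 3) * (V₁ * Real.exp C)) := by
        refine b4.trans (mul_le_mul_of_nonneg_left (b5.trans ?_) (by positivity))
        gcongr
    _ = 4 * (c + 3 * K + 1) * (C * Real.exp C) * Real.log P₀ ^ 3 * 1 * V₁ := by ring
    _ ≤ _ := by gcongr; linarith

end MR
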