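import Pool.Agent.P.MP_79de8b_nt.Basic

/-! Expansions in `e(n z / P)`: termwise integration, mean value property, truncation. -/

open Complex UpperHalfPlane MeasureTheory Finset CongruenceSubgroup Filter Topology
open scoped Real MatrixGroups ComplexConjugate

noncomputable section
namespace MR
namespace SerL

variable {P : ℕ} {K : ℝ} {b : ℕ → ℂ} {g : ℍ → ℂ}

lemma sm_exp (k : ℕ) {c : ℝ} (hc : 0 < c) :
    Summable fun n : ℕ => (n : ℝ) ^ k * Real.exp (-(c * n)) := by
  have h : ‖Real.exp (-c)‖ < 1 := by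
    rw [Real.norm_eq_abs, abs_of_pos (Real.exp_pos _)]
    exact Real.exp_lt_one_iff.2 (by linarith)
  refine (summable_pow_mul_geometric_of_norm_lt_one k h).congr fun n => ?_
  rw [← Real.exp_nat_mul]; congr 2; ring

/-- The `n`-th term. -/
def tm (P : ℕ) (b : ℕ → ℂ) (n : ℕ) (w : ℂ) : ℂ := b n * cexp (2 * π * Complex.I * n * w / P)

lemma norm_tm (n : ℕ) (w : ℂ) :
    ‖tm P b n w‖ = ‖b n‖ * Real.exp (-(2 * π * w.im / P * n)) := by
  unfold tm
  rw [norm_mul, Complex.norm_exp]
  congr 2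
  have : 2 * π * Complex.I * n * w / P = ((2 * π * n / P : ℝ) : ℂ) * (Complex.I * w) := by
    push_cast; ring
  rw [this, Complex.re_ofReal_mul]; simp; ring

/-- The sum of the series. -/
def gs (P : ℕ) (b : ℕ → ℂ) (w : ℂ) : ℂ := ∑' n, tm P b n w

lemma Ppos (h : Ser P K b g) : (0 : ℝ) < P := by exact_mod_cast h.pos

lemma Knn (h : Ser P K b g) : 0 ≤ K := by linarith [h.one]

lemma diff_gs (h : Ser P K b g) : DifferentiableOn ℂ (gs P b) {w | 0 < w.im} := by
  intro w hw
  have hw' : 0 < w.im := hw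
  have hP := Ppos h
  have hK := Knn h
  have hU : IsOpen {v : ℂ | w.im / 2 < v.im} := isOpen_lt continuous_const Complex.continuous_im
  have hc : 0 < 2 * π * (w.im / 2) / P := by have := Real.pi_pos; positivity
  have := differentiableOn_tsum_of_summable_norm
    (u := fun n : ℕ => K * ((n : ℝ) ^ 1 * Real.exp (-(2 * π * (w.im / 2) / P * n))))
    (F := fun n => tm P b n) ((sm_exp 1 hc).mul_left K)
    (fun n => by unfold tm; fun_prop) hU (fun n v hv => by
      have hv' : w.im / 2 ≤ v.im := le_of_lt hv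
      rw [norm_tm, pow_one, ← mul_assoc]
      have h1 := h.bb n
      have := Real.pi_pos
      gcongr)
  exact (this.differentiableAt (hU.mem_nhds (by
    show w.im / 2 < w.im
    linarith))).differentiableWithinAt

lemma g_eq (h : Ser P K b g) (z : ℍ) : g z = gs P b z := (h.hs z).tsum_eq.symm

lemma cont_g (h : Ser P K b g) : Continuous g := by
  have : g = fun z : ℍ => gs P b z := funext (g_eq h)
  rw [this]
  exact (diff_gs h).continuousOn.comp_continuous UpperHalfPlane.continuous_coe fun z => z.im_pos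

lemma cont_FF (h : Ser P K b g) : Continuous fun p : ℝ × ℝ => FF g p.1 p.2 := by
  unfold FF pnt
  refine Continuous.mul (by fun_prop) ((cont_g h).comp (continuous_ofComplex_comp (by fun_prop) ?_))
  intro p
  have := Real.exp_pos p.2
  simpa only [Complex.add_im, Complex.ofReal_im, Complex.mul_im, Complex.ofReal_re, Complex.I_im,
    Complex.I_re, mul_one, mul_zero, zero_add, add_zero] using this

lemma cont_FF1 (h : Ser P K b g) (u : ℝ) : Continuous fun x : ℝ => FF g x u :=
  (cont_FF h).comp (f := fun x : ℝ => (x, u)) (by fun_prop)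

lemma hs_FF (h : Ser P K b g) (x u : ℝ) :
    HasSum (fun n : ℕ => cf P b u n * ex (n * x / P)) (FF g x u) := by
  have h1 := (h.hs (pnt x (Real.exp u))).mul_left ((Real.exp u : ℝ) : ℂ)
  unfold FF
  refine h1.congr_fun fun n => ?_
  rw [coe_pnt x (Real.exp_pos u)]
  unfold cf ex
  generalize Real.exp u = y
  rw [Complex.ofReal_mul, Complex.ofReal_exp]
  have : cexp (2 * π * Complex.I * n * (x + y * Complex.I) / P) =
      cexp ((-(2 * π * n * y / P) : ℝ) : ℂ) * cexp (2 * π * Complex.I * (n * x / P : ℝ)) := by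
    rw [← Complex.exp_add]; congr 1; push_cast
    linear_combination (2 * π * n * y / P : ℂ) * Complex.I_mul_I
  rw [this]; ring

lemma per_FF (h : Ser P K b g) (x u : ℝ) : FF g (x + P) u = FF g x u := by
  refine (hs_FF h (x + P) u).unique ?_
  convert hs_FF h x u using 3 with n
  have hP := Ppos h
  rw [show (n : ℝ) * (x + P) / P = n * x / P + n by field_simp, ex_add, ex_nat, mul_one]

lemma norm_FF (x u : ℝ) : ‖FF g x u‖ = Real.exp u * ‖g (pnt x (Real.exp u))‖ := by
  unfold FF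
  rw [norm_mul, Complex.norm_real, Real.norm_eq_abs, abs_of_pos (Real.exp_pos u)]

lemma bd_FF (h : Ser P K b g) (x u : ℝ) :
    ‖FF g x u‖ ≤ K ∧ ‖FF g x u‖ ≤ K * Real.exp (-u) := by
  have h1 := h.bd1 (pnt x (Real.exp u))
  have h2 := h.bd2 (pnt x (Real.exp u))
  rw [pnt_im x (Real.exp_pos u)] at h1 h2
  rw [norm_FF]
  refine ⟨h1, ?_⟩
  rw [Real.exp_neg, ← div_eq_mul_inv, le_div_iff₀ (Real.exp_pos u)]
  calc _ = Real.exp u ^ 2 * ‖g (pnt x (Real.exp u))‖ := by ring
    _ ≤ K := h2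

lemma norm_cf (u : ℝ) (n : ℕ) :
    ‖cf P b u n‖ = ‖b n‖ * (Real.exp u * Real.exp (-(2 * π * n * Real.exp u / P))) := by
  unfold cf
  rw [norm_mul, Complex.norm_real, Real.norm_eq_abs, abs_of_pos (by positivity)]

lemma sm_cf (h : Ser P K b g) (u : ℝ) : Summable fun n => ‖cf P b u n‖ := by
  have hP := Ppos h
  have hc : 0 < 2 * π * Real.exp u / P := by have := Real.pi_pos; positivity
  refine Summable.of_nonneg_of_le (fun _ => norm_nonneg _) (fun n => ?_)
    ((sm_exp 1 hc).mul_left (K * Real.exp u))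
  rw [norm_cf, pow_one]
  calc _ ≤ K * n * (Real.exp u * Real.exp (-(2 * π * n * Real.exp u / P))) := by
        gcongr; exact h.bb n
    _ = _ := by
        rw [show 2 * π * n * Real.exp u / P = 2 * π * Real.exp u / P * n by ring]; ring

lemma cf_zero (h : Ser P K b g) (u : ℝ) : cf P b u 0 = 0 := by
  unfold cf; rw [h.b0, zero_mul]

/-- Termwise integration. -/
lemma hs_int {a : ℕ → ℂ} (ha : Summable fun n => ‖a n‖) {F : ℝ → ℂ} {c : ℝ}
    (hF : ∀ x, HasSum (fun n : ℕ => a n * ex (n * x / c)) (F x)) {φ : ℝ → ℂ}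
    (hφ : Continuous φ) (s t : ℝ) :
    HasSum (fun n : ℕ => a n * ∫ x in s..t, ex (n * x / c) * φ x) (∫ x in s..t, F x * φ x) := by
  have := intervalIntegral.hasSum_integral_of_dominated_convergence (μ := volume) (a := s) (b := t)
    (F := fun (n : ℕ) (x : ℝ) => a n * (ex (n * x / c) * φ x)) (f := fun x => F x * φ x)
    (fun n x => ‖a n‖ * ‖φ x‖)
    (fun n => (Continuous.aestronglyMeasurable (by fun_prop)))
    (fun n => ae_of_all _ fun x _ => by rw [norm_mul, norm_mul, norm_ex, one_mul])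
    (ae_of_all _ fun x _ => ha.mul_right _)
    (by
      simp_rw [tsum_mul_right]
      exact (Continuous.intervalIntegrable (by fun_prop) _ _))
    (ae_of_all _ fun x _ => by
      simpa only [mul_assoc] using (hF x).mul_right (φ x))
  simpa only [intervalIntegral.integral_const_mul] using this

lemma coef (h : Ser P K b g) (m : ℕ) (u : ℝ) :
    ∫ x in (0 : ℝ)..P, FF g x u * ex (-(m * x / P)) = cf P b u m * P := by
  have hP := Ppos h
  have h1 := hs_int (sm_cf h u) (hs_FF h · u) (φ := fun x => ex (-(m * x / P))) (by fun_prop) 0 P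
  refine h1.unique ?_
  have e : ∀ n : ℕ, ∫ x in (0 : ℝ)..P, ex (n * x / P) * ex (-(m * x / P)) =
      if n = m then (P : ℂ) else 0 := fun n => by
    have h2 := integral_ex hP.ne' ((n : ℤ) - m)
    have h3 : ∀ x : ℝ, ex (n * x / P) * ex (-(m * x / P)) =
        ex ((((n : ℤ) - m : ℤ) : ℝ) * x / P) := fun x => by
      rw [← ex_add]; congr 1; push_cast; ring
    simp_rw [h3]
    rw [h2]
    simp [sub_eq_zero]
  simp_rw [e]
  convert hasSum_single (f := fun n : ℕ => cf P b u n * if n = m then (P : ℂ) else 0) m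
    (fun n hn => by simp [hn]) using 1
  simp

lemma coef0 (h : Ser P K b g) (m : ℕ) (u : ℝ) :
    ∫ x in (0 : ℝ)..P, FF g x u * ex (m * x / P) = 0 := by
  have hP := Ppos h
  have h1 := hs_int (sm_cf h u) (hs_FF h · u) (φ := fun x => ex (m * x / P)) (by fun_prop) 0 P
  refine h1.unique ?_
  convert hasSum_zero with n
  rcases Nat.eq_zero_or_pos n with rfl | hn
  · rw [cf_zero h, zero_mul]
  have h2 := integral_ex hP.ne' ((n : ℤ) + m)
  have h3 : ∀ x : ℝ, ex (n * x / P) * ex (m * x / P) =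
      ex ((((n : ℤ) + m : ℤ) : ℝ) * x / P) := fun x => by
    rw [← ex_add]; congr 1; push_cast; ring
  simp_rw [h3]
  rw [h2, if_neg (by omega), mul_zero]

lemma sm_b (h : Ser P K b g) {η : ℝ} (hη : 0 < η) :
    Summable fun n : ℕ => ‖b n‖ ^ 2 * Real.exp (-(4 * π * n * η / P)) := by
  have hP := Ppos h
  have hc : 0 < 4 * π * η / P := by have := Real.pi_pos; positivity
  refine Summable.of_nonneg_of_le (fun _ => by positivity) (fun n => ?_)
    ((sm_exp 2 hc).mul_left (K ^ 2))
  calc _ ≤ (K * n) ^ 2 * Real.exp (-(4 * π * n * η / P)) := by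
        gcongr; exact h.bb n
    _ = _ := by
        rw [show 4 * π * n * η / P = 4 * π * η / P * n by ring]; ring

lemma pair (h : Ser P K b g) (u u' : ℝ) :
    (∫ x in (0 : ℝ)..P, FF g x u * conj (FF g x u')) / P =
      ((Real.exp (u + u') / ((Real.exp u + Real.exp u') / 2) ^ 2 *
        Ib P b ((Real.exp u + Real.exp u') / 2) : ℝ) : ℂ) := by
  have hP := Ppos h
  have hP' : (P : ℂ) ≠ 0 := by exact_mod_cast h.pos.ne'
  have h1 := hs_int (sm_cf h u) (hs_FF h · u) (φ := fun x => conj (FF g x u'))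
    (Complex.continuous_conj.comp (cont_FF1 h u')) 0 P
  have e : ∀ n : ℕ, ∫ x in (0 : ℝ)..P, ex (n * x / P) * conj (FF g x u') =
      conj (cf P b u' n) * P := fun n => by
    have h2 : ∀ x : ℝ, ex (n * x / P) * conj (FF g x u') =
        conj (FF g x u' * ex (-(n * x / P))) := fun x => by
      rw [map_mul, conj_ex, neg_neg, mul_comm]
    simp_rw [h2]
    rw [intervalIntegral.intervalIntegral_conj, coef h, map_mul, Complex.conj_natCast]
  simp_rw [e] at h1
  set η := (Real.exp u + Real.exp u') / 2 with hη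
  have hη0 : 0 < η := by positivity
  have h3 := Complex.hasSum_ofReal.2 ((sm_b h hη0).hasSum.mul_left (Real.exp (u + u')))
  have h4 := h1.div_const (P : ℂ)
  have h5 : (fun n : ℕ => cf P b u n * (conj (cf P b u' n) * P) / P) = fun n : ℕ =>
      ((Real.exp (u + u') * (‖b n‖ ^ 2 * Real.exp (-(4 * π * n * η / P))) : ℝ) : ℂ) := by
    funext n
    have h6 : Real.exp (-(4 * π * n * η / P)) = Real.exp (-(2 * π * n * Real.exp u / P)) *
        Real.exp (-(2 * π * n * Real.exp u' / P)) := by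
      rw [← Real.exp_add, hη]; congr 1; ring
    have h7 : b n * conj (b n) = ((‖b n‖ ^ 2 : ℝ) : ℂ) := by
      rw [Complex.mul_conj, Complex.normSq_eq_norm_sq]
    rw [h6, Real.exp_add, ← mul_assoc, mul_div_cancel_right₀ _ hP']
    unfold cf
    rw [map_mul, Complex.conj_ofReal, Complex.ofReal_mul _ (‖b n‖ ^ 2 * _),
      Complex.ofReal_mul (‖b n‖ ^ 2), ← h7]
    simp only [Complex.ofReal_mul]
    ring
  rw [h5] at h4
  rw [h4.unique h3]
  congr 1
  unfold Ib
  rw [← mul_assoc, div_mul_cancel₀ _ (by positivity)]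

lemma pair0 (h : Ser P K b g) (u u' : ℝ) : ∫ x in (0 : ℝ)..P, FF g x u * FF g x u' = 0 := by
  have h1 := hs_int (sm_cf h u) (hs_FF h · u) (φ := fun x => FF g x u') (cont_FF1 h u') 0 P
  refine h1.unique ?_
  convert hasSum_zero with n
  simp_rw [mul_comm (ex _)]
  rw [coef0 h, mul_zero]

lemma Ib_le (h : Ser P K b g) (u : ℝ) {B : ℝ} (hB : ∀ x, ‖FF g x u‖ ≤ B) :
    Ib P b (Real.exp u) ≤ B ^ 2 := by
  have hP := Ppos h
  have h1 := pair h u u
  have hy := Real.exp_pos u
  rw [show (Real.exp u + Real.exp u) / 2 = Real.exp u by ring, Real.exp_add,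
    show Real.exp u * Real.exp u / Real.exp u ^ 2 = 1 by field_simp, one_mul] at h1
  have h2 : ‖∫ x in (0 : ℝ)..P, FF g x u * conj (FF g x u)‖ ≤ B ^ 2 * |(P : ℝ) - 0| :=
    intervalIntegral.norm_integral_le_of_norm_le_const fun x _ => by
      rw [norm_mul, Complex.norm_conj, ← sq]
      exact pow_le_pow_left₀ (norm_nonneg _) (hB x) 2
  rw [sub_zero, abs_of_pos hP] at h2
  calc Ib P b (Real.exp u) ≤ ‖((Ib P b (Real.exp u) : ℝ) : ℂ)‖ := by
        rw [Complex.norm_real]; exact le_abs_self _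
    _ ≤ B ^ 2 := by
        rw [← h1, norm_div, Complex.norm_natCast, div_le_iff₀ hP]; exact h2

lemma Ib_bd (h : Ser P K b g) {η : ℝ} (hη : 0 < η) :
    0 ≤ Ib P b η ∧ Ib P b η ≤ K ^ 2 ∧ Ib P b η ≤ K ^ 2 / η ^ 2 := by
  refine ⟨mul_nonneg (sq_nonneg _) (tsum_nonneg fun n => by positivity), ?_, ?_⟩
  · have := Ib_le h (Real.log η) fun x => (bd_FF h x _).1
    rwa [Real.exp_log hη] at this
  · have := Ib_le h (Real.log η) fun x => (bd_FF h x _).2
    rwa [Real.exp_neg, Real.exp_log hη, ← div_eq_mul_inv, div_pow] at this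

lemma cont_Ib (h : Ser P K b g) : ContinuousOn (Ib P b) (Set.Ioi 0) := by
  intro η hη
  have hη' : 0 < η := hη
  have hP := Ppos h
  have h1 : ContinuousOn (fun t : ℝ => ∑' n : ℕ, ‖b n‖ ^ 2 * Real.exp (-(4 * π * n * t / P)))
      (Set.Ioi (η / 2)) := by
    refine continuousOn_tsum (fun n => Continuous.continuousOn (by fun_prop))
      (sm_b h (half_pos hη')) fun n t ht => ?_
    have ht' : η / 2 ≤ t := le_of_lt ht
    have := Real.pi_pos
    rw [Real.norm_eq_abs, abs_of_nonneg (by positivity)]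
    gcongr
  have h2 := h1.continuousAt (Ioi_mem_nhds (half_lt_self hη'))
  unfold Ib
  exact ((continuousAt_id.pow 2).mul h2).continuousWithinAt

lemma hs_sq (h : Ser P K b g) (u : ℝ) :
    HasSum (fun n => ‖cf P b u n‖ ^ 2) (Ib P b (Real.exp u)) := by
  have h1 := (sm_b h (Real.exp_pos u)).hasSum.mul_left (Real.exp u ^ 2)
  unfold Ib
  refine h1.congr_fun fun n => ?_
  have h6 : Real.exp (-(4 * π * n * Real.exp u / P)) =
      Real.exp (-(2 * π * n * Real.exp u / P)) ^ 2 := by
    rw [sq, ← Real.exp_add]; congr 1; ring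
  rw [norm_cf, h6]; ring

lemma im_P (h : Ser P K b g) {w : ℂ} (hw : 0 < w.im) : 0 < ((P : ℂ) * w).im := by
  have := Ppos h
  simp only [Complex.mul_im, Complex.natCast_re, Complex.natCast_im, zero_mul, add_zero]
  positivity

lemma cont_U (h : Ser P K b g) : Continuous fun z : ℍ => g (ofComplex (P * z)) :=
  (cont_g h).comp (continuous_ofComplex_comp
    (continuous_const.mul UpperHalfPlane.continuous_coe) fun z => im_P h z.im_pos)

lemma mean_U (h : Ser P K b g) (z : ℍ) (r : ℝ) (h0 : 0 < r) (h1 : r < 1) :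
    ∫ φ in (0 : ℝ)..2 * π, g (ofComplex (P * ((ofComplex (z + z.im * r * cexp (φ * Complex.I)) : ℍ)
      : ℂ))) = 2 * π * g (ofComplex (P * z)) := by
  have hy := z.im_pos
  have hR : 0 < z.im * r := by positivity
  have hsub : Metric.closedBall (z : ℂ) |z.im * r| ⊆ {w : ℂ | 0 < w.im} := by
    intro w hw
    rw [abs_of_pos hR, Metric.mem_closedBall, dist_eq_norm] at hw
    have h2 := (Complex.abs_im_le_norm (w - z)).trans hw
    rw [Complex.sub_im, UpperHalfPlane.coe_im] at h2
    have h3 := (abs_le.1 h2).1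
    show 0 < w.im
    nlinarith
  have hd : DifferentiableOn ℂ (fun w : ℂ => gs P b (P * w)) {w : ℂ | 0 < w.im} :=
    (diff_gs h).comp (by fun_prop) fun w hw => im_P h hw
  have hav : Real.circleAverage (fun w : ℂ => gs P b (P * w)) z (z.im * r) = gs P b (P * z) :=
    circleAverage_of_differentiable_on_off_countable Set.countable_empty
      (hd.continuousOn.mono hsub) fun w hw =>
        hd.differentiableAt ((isOpen_lt continuous_const Complex.continuous_im).mem_nhds
          (hsub (Metric.ball_subset_closedBall hw.1)))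
  have e : ∀ φ : ℝ, g (ofComplex (P * ((ofComplex (z + z.im * r * cexp (φ * Complex.I)) : ℍ)
      : ℂ))) = gs P b (P * circleMap z (z.im * r) φ) := fun φ => by
    have h2 : (z : ℂ) + z.im * r * cexp (φ * Complex.I) = circleMap z (z.im * r) φ := by
      unfold circleMap; push_cast; ring
    have h3 : 0 < (circleMap z (z.im * r) φ).im :=
      hsub (Metric.sphere_subset_closedBall (circleMap_mem_sphere' _ _ _))
    rw [h2, coe_ofComplex h3, g_eq h, coe_ofComplex (im_P h h3)]
  simp_rw [e]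
  rw [g_eq h, coe_ofComplex (im_P h hy), ← hav, Real.circleAverage_def, Complex.real_smul]
  have : (π : ℂ) ≠ 0 := by exact_mod_cast Real.pi_ne_zero
  push_cast
  field_simp

lemma mv1 (h : Ser P K b g) : MV (fun z => g (ofComplex (P * z))) := ⟨cont_U h, mean_U h⟩

lemma mv2 (h : Ser P K b g) : MV (fun z => conj (g (ofComplex (P * z)))) := by
  refine ⟨Complex.continuous_conj.comp (cont_U h), fun z r h0 h1 => ?_⟩
  rw [intervalIntegral.intervalIntegral_conj, mean_U h z r h0 h1, map_mul, map_mul,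
    Complex.conj_ofReal, map_ofNat]

lemma cf_geom (h : Ser P K b g) (u : ℝ) (n : ℕ) :
    ‖cf P b u n‖ ≤ K * P * Real.exp (-(π * Real.exp u / P)) ^ n := by
  have hP := Ppos h
  have hK := Knn h
  have hy := Real.exp_pos u
  rw [norm_cf, ← Real.exp_nat_mul]
  generalize Real.exp u = y at hy ⊢
  set t := n * y / P with ht
  have ht0 : 0 ≤ t := by positivity
  have h1 : t * Real.exp (-(π * t)) ≤ 1 := by
    rw [Real.exp_neg, ← div_eq_mul_inv, div_le_one (Real.exp_pos _)]
    have := Real.add_one_le_exp (π * t)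
    have := Real.pi_gt_three
    nlinarith
  have h2 : Real.exp (-(2 * π * n * y / P)) = Real.exp (-(π * t)) * Real.exp (-(π * t)) := by
    rw [← Real.exp_add, ht]; congr 1; ring
  rw [h2, show (n : ℝ) * -(π * y / P) = -(π * t) by rw [ht]; ring]
  calc _ ≤ K * n * (y * (Real.exp (-(π * t)) * Real.exp (-(π * t)))) := by
        gcongr; exact h.bb n
    _ = K * P * Real.exp (-(π * t)) * (t * Real.exp (-(π * t))) := by
        rw [ht]; field_simp
    _ ≤ K * P * Real.exp (-(π * t)) * 1 := by gcongr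
    _ = _ := mul_one _

lemma trunc (h : Ser P K b g) (q M : ℕ) (x u : ℝ) (hq : 3 ≤ q) (hu : -(3 * Real.log q) ≤ u)
    (hM : Real.log q ^ 2 * P * Real.exp (-u) ≤ M + 1) :
    ‖FF g x u - ∑ n ∈ Icc 1 M, cf P b u n * ex (n * x / P)‖ ≤
      K * P * (1 + P) * Real.exp 6 / (q : ℝ) ^ 5 := by
  have hP := Ppos h
  have hK := Knn h
  have hy := Real.exp_pos u
  have hq0 : (0 : ℝ) < q := by exact_mod_cast (by omega : 0 < q)
  have hq1 : (1 : ℝ) ≤ q := by exact_mod_cast (by omega : 1 ≤ q)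
  have hpi := Real.pi_gt_three
  have e : ∑ n ∈ Icc 1 M, cf P b u n * ex (n * x / P) =
      ∑ n ∈ range (M + 1), cf P b u n * ex (n * x / P) := by
    rw [range_eq_Ico, sum_eq_sum_Ico_succ_bot (by omega), cf_zero h, zero_mul, zero_add]
    rfl
  set s := π * Real.exp u / P with hs
  have hs0 : 0 < s := by positivity
  set ρ := Real.exp (-s) with hρ
  have hρ0 : 0 < ρ := Real.exp_pos _
  have hρ1 : ρ < 1 := Real.exp_lt_one_iff.2 (by linarith)
  have h1 := (hasSum_nat_add_iff' (M + 1)).2 (hs_FF h x u)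
  have h2 := (hasSum_geometric_of_lt_one hρ0.le hρ1).mul_left (K * P * ρ ^ (M + 1))
  have h3 := h1.norm_le_of_bounded h2 fun n => by
    rw [norm_mul, norm_ex, mul_one]
    refine (cf_geom h u _).trans (le_of_eq ?_)
    rw [pow_add]; ring
  rw [e]
  refine h3.trans ?_
  have h4 : ρ ^ (M + 1) ≤ Real.exp 6 / (q : ℝ) ^ 8 := by
    have h5 : (q : ℝ) ^ 8 = Real.exp (8 * Real.log q) := by
      rw [show (8 : ℝ) = (8 : ℕ) by norm_num, Real.exp_nat_mul, Real.exp_log hq0]
    rw [h5, ← Real.exp_sub, hρ, ← Real.exp_nat_mul, Real.exp_le_exp]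
    rw [Real.exp_neg, ← div_eq_mul_inv, div_le_iff₀ hy] at hM
    have h6 : Real.log q ^ 2 ≤ (M + 1) * Real.exp u / P := by
      rw [le_div_iff₀ hP]; exact hM
    have h7 : ((M + 1 : ℕ) : ℝ) * -s = -(π * ((M + 1) * Real.exp u / P)) := by
      rw [hs]; push_cast; ring
    rw [h7]
    nlinarith [sq_nonneg (Real.log q), sq_nonneg (3 * Real.log q - 4)]
  have h5 : (1 - ρ)⁻¹ ≤ (1 + P) * (q : ℝ) ^ 3 := by
    have h6 : (1 + s) * ρ ≤ 1 := by
      rw [hρ, Real.exp_neg, ← div_eq_mul_inv, div_le_one (Real.exp_pos _)]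
      linarith [Real.add_one_le_exp s]
    have h7 : 1 ≤ Real.exp u * (q : ℝ) ^ 3 := by
      have h8 : (q : ℝ) ^ 3 = Real.exp (3 * Real.log q) := by
        rw [show (3 : ℝ) = (3 : ℕ) by norm_num, Real.exp_nat_mul, Real.exp_log hq0]
      rw [h8, ← Real.exp_add]
      exact Real.one_le_exp (by linarith)
    have h8 : 1 ≤ s * (P * (q : ℝ) ^ 3) := by
      rw [hs, show π * Real.exp u / P * (P * (q : ℝ) ^ 3) = π * (Real.exp u * (q : ℝ) ^ 3) by
        field_simp]
      nlinarith
    have h9 : (1 : ℝ) ≤ (q : ℝ) ^ 3 := one_le_pow₀ hq1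
    have h10 : (1 - ρ)⁻¹ ≤ 1 + s⁻¹ := by
      rw [inv_le_iff_one_le_mul₀ (by linarith)]
      have : (1 + s⁻¹) * (1 - ρ) = (1 + s - (1 + s) * ρ) / s := by field_simp; ring
      rw [this, le_div_iff₀ hs0]; linarith
    have h11 : s⁻¹ ≤ P * (q : ℝ) ^ 3 := by
      rw [inv_le_iff_one_le_mul₀' hs0]; exact h8
    linarith
  have h6 : 0 ≤ (1 - ρ)⁻¹ := inv_nonneg.2 (by linarith)
  calc K * P * ρ ^ (M + 1) * (1 - ρ)⁻¹
      ≤ K * P * (Real.exp 6 / (q : ℝ) ^ 8) * ((1 + P) * (q : ℝ) ^ 3) := by gcongr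
    _ = _ := by field_simp

end SerL

open SerL in
theorem ser : S_Ser := fun _ _ _ _ h =>
  ⟨cont_g h, cont_FF h, per_FF h, bd_FF h, hs_FF h, sm_cf h, fun u u' => ⟨pair h u u', pair0 h u u'⟩,
    fun _ hη => ⟨sm_b h hη, Ib_bd h hη⟩, cont_Ib h, hs_sq h, fun n u => by
      rw [coef h, mul_div_cancel_right₀ _ (by exact_mod_cast h.pos.ne')], mv1 h, mv2 h⟩

open SerL in
theorem tr (_h : S_Ser) : S_Tr := fun P K =>
  ⟨|K| * P * (1 + P) * Real.exp 6, by positivity, fun _ _ h q M x u hq hu hM => by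
    rw [abs_of_nonneg (Knn h)]; exact trunc h q M x u hq hu hM⟩

end MR
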