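import Pool.Agent.P.MP_79de8b_nt.Ms

/-! The point pair invariant and the mass of a neighbourhood of the diagonal. -/

open Complex UpperHalfPlane MeasureTheory Finset CongruenceSubgroup Filter Topology
open scoped Real MatrixGroups ComplexConjugate ENNReal NNReal

noncomputable section
namespace MR
namespace Sh

lemma meas_del : Measurable del := by
  have h1 : Measurable fun z : HH => (z.1 : ℂ) := UpperHalfPlane.measurable_coe.comp measurable_fst
  have h2 : Measurable fun z : HH => (z.2 : ℂ) := UpperHalfPlane.measurable_coe.comp measurable_snd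
  have h3 : Measurable fun z : HH => z.1.im := Complex.measurable_im.comp h1
  have h4 : Measurable fun z : HH => z.2.im := Complex.measurable_im.comp h2
  have h5 : Measurable fun z : HH => conj (z.2 : ℂ) := Complex.continuous_conj.measurable.comp h2
  exact (((h1.sub h5).norm).pow_const 2).div (h3.mul h4)

lemma del_smul (g : SL(2, ℤ)) (z : HH) : del (g • z) = del z := by
  have d1 := den_ne_zero g z.1
  have d2 := den_ne_zero g z.2
  have d3 : ((g 1 0 : ℤ) * conj (z.2 : ℂ) + (g 1 1 : ℤ)) =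
      conj ((g 1 0 : ℤ) * (z.2 : ℂ) + (g 1 1 : ℤ)) := by simp
  have d4 : ((g 1 0 : ℤ) * conj (z.2 : ℂ) + (g 1 1 : ℤ)) ≠ 0 := by
    rw [d3]; exact (map_ne_zero _).2 d2
  have hd : ((g 0 0 : ℤ) : ℂ) * (g 1 1 : ℤ) - (g 0 1 : ℤ) * (g 1 0 : ℤ) = 1 := by
    exact_mod_cast det_sl g
  have e : ((g • z.1 : ℍ) : ℂ) - conj ((g • z.2 : ℍ) : ℂ) = ((z.1 : ℂ) - conj (z.2 : ℂ)) /
      (((g 1 0 : ℤ) * (z.1 : ℂ) + (g 1 1 : ℤ)) * ((g 1 0 : ℤ) * conj (z.2 : ℂ) + (g 1 1 : ℤ))) := by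
    rw [coe_smul_sl, coe_smul_sl, map_div₀, ← d3]
    simp only [map_add, map_mul, map_intCast]
    rw [div_sub_div _ _ d1 d4]
    congr 1
    linear_combination ((z.1 : ℂ) - conj (z.2 : ℂ)) * hd
  have n1 := norm_ne_zero_iff.2 d1
  have n2 := norm_ne_zero_iff.2 d2
  have y1 := z.1.im_pos.ne'
  have y2 := z.2.im_pos.ne'
  unfold del
  rw [smul_HH]
  simp only
  rw [e, im_smul_sl, im_smul_sl, norm_div, norm_mul, d3, Complex.norm_conj]
  generalize ‖((g 1 0 : ℤ) * (z.1 : ℂ) + (g 1 1 : ℤ))‖ = a at *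
  generalize ‖((g 1 0 : ℤ) * (z.2 : ℂ) + (g 1 1 : ℤ))‖ = b at *
  field_simp

lemma del_eq (z : HH) :
    del z = ((z.1.re - z.2.re) ^ 2 + (z.1.im + z.2.im) ^ 2) / (z.1.im * z.2.im) := by
  unfold del
  rw [← Complex.normSq_eq_norm_sq, Complex.normSq_apply]
  simp only [sub_re, sub_im, conj_re, conj_im, coe_re, coe_im]
  ring

/-- The volume of a ball for the point pair invariant. -/
lemma vol_ball (w : ℍ) {D : ℝ} (hD : 0 < D) :
    volume {z : ℍ | del (w, z) ≤ D} ≤ ENNReal.ofReal (8 * D) := by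
  have hy := w.im_pos
  have hc : 0 < w.im / D := div_pos hy hD
  let B : ℕ → Set ℍ := fun k => {z : ℍ | w.re - w.im * 2 ^ (k + 1) ≤ z.re ∧
    z.re ≤ w.re + w.im * 2 ^ (k + 1) ∧ w.im / D * 4 ^ k ≤ z.im ∧ z.im ≤ w.im / D * 4 ^ (k + 1)}
  have hsub : {z : ℍ | del (w, z) ≤ D} ⊆ ⋃ k, B k := by
    intro z hz
    have hz2 := z.im_pos
    rw [Set.mem_ofPred_eq, del_eq, div_le_iff₀ (mul_pos hy hz2)] at hz
    simp only at hz
    have h1 : 1 ≤ z.im / (w.im / D) := by
      rw [le_div_iff₀ hc, one_mul, div_le_iff₀ hD]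
      have : w.im * w.im ≤ w.im * (z.im * D) := by nlinarith [sq_nonneg (w.re - z.re)]
      exact le_of_mul_le_mul_left this hy
    obtain ⟨k, k1, k2⟩ := exists_nat_pow_near h1 (by norm_num : (1 : ℝ) < 4)
    rw [le_div_iff₀ hc] at k1
    rw [div_lt_iff₀ hc] at k2
    have h4 : (4 : ℝ) ^ (k + 1) = (2 ^ (k + 1)) ^ 2 := by
      rw [← pow_mul, mul_comm, pow_mul]; norm_num
    have h2 : (w.re - z.re) ^ 2 ≤ (w.im * 2 ^ (k + 1)) ^ 2 := by
      have a1 : D * (w.im * z.im) ≤ D * (w.im * (4 ^ (k + 1) * (w.im / D))) := by gcongr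
      have a2 : D * (w.im * (4 ^ (k + 1) * (w.im / D))) = (w.im * 2 ^ (k + 1)) ^ 2 := by
        rw [h4]; field_simp
      nlinarith [sq_nonneg (w.im + z.im)]
    have h3 := abs_le_of_sq_le_sq' h2 (by positivity)
    exact Set.mem_iUnion.2 ⟨k, by linarith [h3.2], by linarith [h3.1], by linarith, by linarith⟩
  have hB : ∀ k, volume (B k) ≤ ENNReal.ofReal (4 * D * (1 / 2) ^ k) := by
    intro k
    have p4 : (0 : ℝ) < 4 ^ k := by positivity
    have hle : w.im / D * 4 ^ k ≤ w.im / D * 4 ^ (k + 1) := by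
      rw [pow_succ]; nlinarith [mul_pos hc p4]
    rw [volume_box (mul_pos hc p4) hle, ← ENNReal.ofReal_mul (by
      have : (0 : ℝ) < w.im * 2 ^ (k + 1) := by positivity
      linarith)]
    refine ENNReal.ofReal_le_ofReal ?_
    have h4 : (4 : ℝ) ^ k = 2 ^ k * 2 ^ k := by rw [← mul_pow]; norm_num
    have p2 : (0 : ℝ) < 2 ^ k := by positivity
    have e1 : (w.re + w.im * 2 ^ (k + 1) - (w.re - w.im * 2 ^ (k + 1))) *
        (1 / (w.im / D * 4 ^ k) - 1 / (w.im / D * 4 ^ (k + 1))) = 3 * D * (1 / 2) ^ k := by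
      rw [pow_succ 4, pow_succ 2, h4, one_div_pow]
      field_simp
      ring
    rw [e1]
    gcongr
    norm_num
  refine (measure_mono hsub).trans ((measure_iUnion_le _).trans
    ((ENNReal.tsum_le_tsum hB).trans (le_of_eq ?_)))
  rw [← ENNReal.ofReal_tsum_of_nonneg (fun k => by positivity)
    (summable_geometric_two.mul_left _), tsum_mul_left, tsum_geometric_two]
  congr 1
  ring

lemma vol_fd : volume (ModularGroup.fd : Set ℍ) ≤ 2 := by
  let B : ℕ → Set ℍ := fun k => {z : ℍ | -(1 / 2) ≤ z.re ∧ z.re ≤ 1 / 2 ∧ 1 / 2 ≤ z.im ∧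
    z.im ≤ 1 / 2 + k}
  have hsub : (ModularGroup.fd : Set ℍ) ⊆ ⋃ k, B k := by
    intro z hz
    have h1 := ModularGroup.three_le_four_mul_im_sq_of_mem_fd hz
    have h2 := abs_le.1 hz.2
    obtain ⟨k, hk⟩ := exists_nat_ge z.im
    refine Set.mem_iUnion.2 ⟨k, h2.1, h2.2, ?_, by linarith⟩
    nlinarith [z.im_pos]
  have hm : Monotone B := fun a b hab z hz =>
    ⟨hz.1, hz.2.1, hz.2.2.1, hz.2.2.2.trans (by gcongr)⟩
  refine (measure_mono hsub).trans ?_
  rw [hm.measure_iUnion]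
  refine iSup_le fun k => ?_
  have hk : (0 : ℝ) ≤ k := k.cast_nonneg
  rw [volume_box (by norm_num) (by linarith), ← ENNReal.ofReal_mul (by norm_num),
    ← ENNReal.ofReal_ofNat 2]
  refine ENNReal.ofReal_le_ofReal ?_
  have : 0 ≤ 1 / (1 / 2 + (k : ℝ)) := by positivity
  norm_num at this ⊢
  linarith

/-- A set of finite volume meeting every orbit of a subgroup of finite index. -/
lemma exists_dom (Γ : Subgroup SL(2, ℤ)) [Γ.FiniteIndex] : ∃ F : Set ℍ, MeasurableSet F ∧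
    volume F ≠ ∞ ∧ ∀ z : ℍ, ∃ g ∈ Γ, g • z ∈ F := by
  have hf : MeasurableSet (ModularGroup.fd : Set ℍ) := ModularGroup.isClosed_fd.measurableSet
  refine ⟨⋃ q : SL(2, ℤ) ⧸ Γ, (fun z : ℍ => q.out • z) ⁻¹' ModularGroup.fd,
    MeasurableSet.iUnion fun q => (mp_sl _).measurable hf, ?_, fun z => ?_⟩
  · refine ((measure_iUnion_le _).trans_lt ?_).ne
    have := Fintype.ofFinite (SL(2, ℤ) ⧸ Γ)
    rw [tsum_fintype]
    refine ENNReal.sum_lt_top.2 fun q _ => ?_
    rw [(mp_sl _).measure_preimage hf.nullMeasurableSet]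
    exact vol_fd.trans_lt (by norm_num)
  · obtain ⟨γ, hγ⟩ := ModularGroup.exists_smul_mem_fd z
    obtain ⟨h, hh⟩ := QuotientGroup.mk_out_eq_mul Γ γ
    refine ⟨(h : SL(2, ℤ))⁻¹, Γ.inv_mem h.2, Set.mem_iUnion.2 ⟨(γ : SL(2, ℤ) ⧸ Γ), ?_⟩⟩
    rw [Set.mem_preimage, hh, mul_smul, smul_inv_smul]
    exact hγ

/-- Unfolding. -/
lemma unfold_le (Γ : Subgroup SL(2, ℤ)) {S T : Set HH} (hS : MeasurableSet S)
    (hT : MeasurableSet T) (hST : ∀ z ∈ T, ∃ g ∈ Γ, g • z ∈ S) {ω : HH → ℝ≥0∞}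
    (hω : Measurable ω)
    (h : ∀ z, ∑' g : SL(2, ℤ), Set.indicator (Γ : Set SL(2, ℤ)) (fun g => ω (g • z)) g ≤ 1) :
    ∫⁻ z in T, ω z ≤ volume S := by
  let F : SL(2, ℤ) → HH → ℝ≥0∞ := fun g z =>
    S.indicator 1 z * Set.indicator (Γ : Set SL(2, ℤ)) (fun g => ω (g • z)) g
  have hF : ∀ g, Measurable (F g) := by
    intro g
    refine (measurable_one.indicator hS).mul ?_
    by_cases hg : g ∈ Γ
    · simp only [Set.indicator_of_mem (show g ∈ (Γ : Set SL(2, ℤ)) from hg)]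
      exact hω.comp (mp_HH g).measurable
    · simp only [Set.indicator_of_notMem (show g ∉ (Γ : Set SL(2, ℤ)) from hg)]
      exact measurable_const
  calc ∫⁻ z in T, ω z = ∫⁻ z, T.indicator ω z := (lintegral_indicator hT _).symm
    _ ≤ ∫⁻ z, ∑' g, F g (g⁻¹ • z) := by
      refine lintegral_mono fun z => ?_
      by_cases hz : z ∈ T
      · obtain ⟨g, hg, hs⟩ := hST z hz
        refine le_trans (le_of_eq ?_) (ENNReal.le_tsum g⁻¹)
        simp only [F, inv_inv, inv_smul_smul, Set.indicator_of_mem hz, Set.indicator_of_mem hs,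
          Set.indicator_of_mem (show g⁻¹ ∈ (Γ : Set SL(2, ℤ)) from Γ.inv_mem hg), Pi.one_apply,
          one_mul]
      · simp only [Set.indicator_of_notMem hz, zero_le]
    _ = ∑' g, ∫⁻ z, F g (g⁻¹ • z) :=
      lintegral_tsum fun g => ((hF g).comp (mp_HH g⁻¹).measurable).aemeasurable
    _ = ∑' g, ∫⁻ z, F g z := tsum_congr fun g => (mp_HH g⁻¹).lintegral_comp (hF g)
    _ = ∫⁻ z, ∑' g, F g z := (lintegral_tsum fun g => (hF g).aemeasurable).symm
    _ ≤ ∫⁻ z, S.indicator 1 z := by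
      refine lintegral_mono fun z => ?_
      simp only [F, ENNReal.tsum_mul_left]
      exact mul_le_of_le_one_right' (h z)
    _ = volume S := lintegral_indicator_one hS

end Sh

theorem sh : S_Sh := by
  refine ⟨Sh.meas_del, Sh.del_smul, fun N hN => ?_⟩
  have : NeZero N := ⟨hN.ne'⟩
  have : NeZero (N ^ 2) := ⟨by positivity⟩
  have : (Gp N).FiniteIndex := by unfold Gp; infer_instance
  obtain ⟨F, hF, hv, hc⟩ := Sh.exists_dom (Gp N)
  refine ⟨8 * (volume F).toReal, by positivity, fun D ω hD hω h => ?_⟩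
  have hT : MeasurableSet {z : HH | del z ≤ D} := measurableSet_le Sh.meas_del measurable_const
  have hS : MeasurableSet (Prod.fst ⁻¹' F ∩ {z : HH | del z ≤ D}) := (measurable_fst hF).inter hT
  refine (Sh.unfold_le (Gp N) hS hT (fun z hz => ?_) hω h).trans ?_
  · obtain ⟨g, hg, hz1⟩ := hc z.1
    exact ⟨g, hg, hz1, by rw [Set.mem_ofPred_eq, Sh.del_smul]; exact hz⟩
  · rw [Measure.volume_eq_prod, Measure.prod_apply hS]
    calc ∫⁻ w, volume (Prod.mk w ⁻¹' (Prod.fst ⁻¹' F ∩ {z : HH | del z ≤ D}))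
        ≤ ∫⁻ w, F.indicator (fun _ => ENNReal.ofReal (8 * D)) w := by
          refine lintegral_mono fun w => ?_
          by_cases hw : w ∈ F
          · rw [Set.indicator_of_mem hw]
            exact (measure_mono fun z hz => hz.2).trans (Sh.vol_ball w hD)
          · have : Prod.mk w ⁻¹' (Prod.fst ⁻¹' F ∩ {z : HH | del z ≤ D}) = ∅ :=
              Set.eq_empty_of_forall_notMem fun z hz => hw hz.1
            simp only [this, measure_empty, zero_le]
      _ = ENNReal.ofReal (8 * D) * volume F := lintegral_indicator_const hF _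
      _ = ENNReal.ofReal (8 * (volume F).toReal * D) := by
          rw [mul_right_comm, ENNReal.ofReal_mul (by positivity : 0 ≤ 8 * D),
            ENNReal.ofReal_toReal hv]

end MR
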