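import Pool.Agent.P.MP_79de8b_nt.Basic

/-! The mixed region away from the core window. -/

open Complex UpperHalfPlane MeasureTheory Finset CongruenceSubgroup Filter Topology
open scoped Real MatrixGroups ComplexConjugate

noncomputable section
namespace MR
namespace Side

lemma four {l m u v : ℝ} (hm : 0 ≤ m) (hml : 8 * m ≤ l) (hu : -u ≤ l / 2 - m) (hv : -v ≤ l - m) :
    Real.exp (-v) / Real.exp l + Real.exp (-u) / Real.sqrt (Real.exp l) +
      Real.sqrt (Real.exp (-u) / Real.exp l) + 1 / Real.exp l ≤ 4 / Real.exp m := by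
  rw [← Real.exp_sub, ← Real.exp_sub, ← Real.exp_half, ← Real.exp_half, ← Real.exp_sub, one_div,
    ← Real.exp_neg, div_eq_mul_inv 4, ← Real.exp_neg]
  have h1 : Real.exp (-v - l) ≤ Real.exp (-m) := Real.exp_le_exp.2 (by linarith)
  have h2 : Real.exp (-u - l / 2) ≤ Real.exp (-m) := Real.exp_le_exp.2 (by linarith)
  have h3 : Real.exp ((-u - l) / 2) ≤ Real.exp (-m) := Real.exp_le_exp.2 (by linarith)
  have h4 : Real.exp (-l) ≤ Real.exp (-m) := Real.exp_le_exp.2 (by linarith)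
  linarith

lemma corner {l m u w : ℝ} (hm : 0 ≤ m) (hl : 0 ≤ l) (hu : -u ≤ 3 * m) (hw : w ≤ -(5 * l / 8))
    (hw' : -w ≤ l + m) :
    (1 + Real.exp (-u)) * (Real.exp (w / 5) + Real.exp (-(4 * w / 5)) / Real.exp l) ≤
      4 * (Real.exp m ^ 4 / Real.exp (l * (1 / 20))) := by
  have h1 : 1 + Real.exp (-u) ≤ 2 * Real.exp (3 * m) := by
    have := Real.one_le_exp (x := 3 * m) (by linarith)
    have := Real.exp_le_exp.2 hu
    linarith
  have h2 : Real.exp (w / 5) ≤ Real.exp (m - l / 20) := Real.exp_le_exp.2 (by linarith)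
  have h3 : Real.exp (-(4 * w / 5)) / Real.exp l ≤ Real.exp (m - l / 20) := by
    rw [← Real.exp_sub]; exact Real.exp_le_exp.2 (by linarith)
  calc _ ≤ 2 * Real.exp (3 * m) * (Real.exp (m - l / 20) + Real.exp (m - l / 20)) := by gcongr
    _ = 4 * (Real.exp (3 * m) * Real.exp (m - l / 20)) := by ring
    _ = _ := by
      rw [← Real.exp_add, ← Real.exp_nat_mul, ← Real.exp_sub]; congr 2; push_cast; ring

end Side

open Side in
theorem side (hDual : S_Dual) (hCt : S_Ct) (hT0 : S_T0) (hMx : S_Mx) : S_Side := by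
  intro N Φ
  obtain ⟨C₁, h₁⟩ := hT0 N Φ
  obtain ⟨C₂, h₂⟩ := hMx N Φ
  refine ⟨C₁ + C₂ + 2, fun ε q ρ L u v hq hρ hL hL8 hl16 hu hv huv hc => ?_⟩
  have hq0 : 0 < q := by omega
  have hqR : (0 : ℝ) < q := by exact_mod_cast hq0
  have hΛ2 := two_le_Lam hq
  have hΛ1 := one_le_Lam hq
  have hl1 := one_le_log hq
  have hL0 : 0 < L := by linarith
  have hm0 : 0 ≤ Real.log L := Real.log_nonneg hL
  have hm : 8 * Real.log L ≤ Real.log q := by
    have := Real.log_le_log (by positivity) hL8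
    rwa [Real.log_pow, Nat.cast_ofNat] at this
  have hll : 16 * Real.log (Real.log q) ≤ Real.log q := by
    have := Real.log_le_log (by positivity) hl16
    rwa [Real.log_pow, Nat.cast_ofNat] at this
  obtain ⟨-, hmix, ρ', hρ', hcor, -⟩ := hDual N Φ q ρ hq0 hρ
  have eM : ‖Mix Φ (sig (q * ρ % N)) ε q ρ u v‖ = ‖Cor Φ 1 ε q ρ u (-(2 * Real.log q) - v)‖ := by
    rw [hmix, norm_neg, sub_sub_cancel]
  have hq20 : (0 : ℝ) < (q : ℝ) ^ (1 / 20 : ℝ) := by positivity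
  have fin1 : ∀ x a w : ℝ, -a ≤ 3 * Real.log L → w ≤ -(5 * Real.log q / 8) →
      -w ≤ Real.log q + Real.log L →
      x ≤ Lam q ^ C₁ * (1 + Real.exp (-a)) * (Real.exp (w / 5) + Real.exp (-(4 * w / 5)) / q) →
      x ≤ Lam q ^ (C₁ + C₂ + 2) * (1 / Real.sqrt L + L ^ 4 / (q : ℝ) ^ (1 / 20 : ℝ)) := by
    intro x a w h1 h2 h3 h4
    have h5 := corner hm0 (by linarith) h1 h2 h3
    rw [Real.exp_log hqR, Real.exp_log hL0, ← Real.rpow_def_of_pos hqR] at h5
    calc x ≤ Lam q ^ C₁ * (4 * (L ^ 4 / (q : ℝ) ^ (1 / 20 : ℝ))) := by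
          refine h4.trans ?_; rw [mul_assoc]; gcongr
      _ = Lam q ^ C₁ * 1 * 2 ^ 2 * (0 + L ^ 4 / (q : ℝ) ^ (1 / 20 : ℝ)) := by ring
      _ ≤ Lam q ^ C₁ * Lam q ^ C₂ * Lam q ^ 2 *
          (1 / Real.sqrt L + L ^ 4 / (q : ℝ) ^ (1 / 20 : ℝ)) := by
          gcongr
          · exact one_le_pow₀ hΛ1
          · positivity
      _ = _ := by ring
  have fin2 : ∀ x : ℝ, x ^ 2 ≤ Lam q ^ C₂ * (4 / L) →
      x ≤ Lam q ^ (C₁ + C₂ + 2) * (1 / Real.sqrt L + L ^ 4 / (q : ℝ) ^ (1 / 20 : ℝ)) := by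
    intro x h
    have hs : 0 < Real.sqrt L := Real.sqrt_pos.2 hL0
    have h1 : x ≤ Lam q ^ (C₁ + C₂ + 2) * (1 / Real.sqrt L) := by
      refine le_of_sq_le_sq ?_ (by positivity) |>.trans le_rfl
      rw [mul_pow, div_pow, Real.sq_sqrt hL0.le]
      calc _ ≤ _ := h
        _ = Lam q ^ C₂ * 2 ^ 2 * (1 ^ 2 / L) := by ring
        _ ≤ Lam q ^ C₂ * Lam q ^ 2 * (1 ^ 2 / L) := by gcongr
        _ ≤ _ := by
          gcongr
          rw [← pow_add, ← pow_mul]; exact Lam_pow_mono hq (by omega)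
    refine h1.trans ?_
    gcongr
    exact le_add_of_nonneg_right (by positivity)
  by_cases c1 : Real.log q - Real.log L < -v
  · rw [eM]
    exact fin1 _ u _ (by linarith) (by linarith) (by linarith)
      ((h₁ 1 q ρ hq hρ).1 ε u _ (by linarith))
  by_cases c2 : Real.log q - Real.log L < -u
  · rw [eM, hcor, sub_sub_cancel, ((hCt N Φ _ ε q ρ').2.2.2.1 _ _).2.2.2, norm_cj]
    exact fin1 _ v _ (by linarith) (by linarith) (by linarith)
      ((h₁ _ q ρ' hq hρ').1 ε v _ (by linarith))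
  obtain ⟨h3, h4⟩ := h₂ (sig (q * ρ % N)) ε q ρ u v hq hρ (by linarith) (by linarith)
  by_cases c3 : -u ≤ Real.log q / 2 - Real.log L
  · have h5 := four hm0 hm c3 (not_lt.1 c1)
    rw [Real.exp_log hqR, Real.exp_log hL0] at h5
    have h6 := h3 1 (one_dvd q) (Nat.coprime_one_left _)
    simp only [Nat.cast_one, one_mul] at h6
    exact fin2 _ (h6.trans (by gcongr))
  by_cases c4 : -v ≤ Real.log q / 2 - Real.log L
  · have h5 := four hm0 hm c4 (not_lt.1 c2)
    rw [Real.exp_log hqR, Real.exp_log hL0] at h5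
    exact fin2 _ (h4.trans (by gcongr))
  exact absurd ⟨abs_le.2 ⟨by linarith, by linarith⟩, abs_le.2 ⟨by linarith, by linarith⟩⟩ hc

end MR
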