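import Pool.Agent.P.MP_79de8b_nt.Basic

/-! The sieve bound `S_Sv` (pure sieve of Brun with the Rankin-Selberg weight). -/

open Finset Filter Topology
open scoped Real

noncomputable section
namespace MR
namespace Sv

/-- Truncated inclusion-exclusion sum. -/
def F (J : ℕ) (S : Finset ℕ) (x : ℕ → ℝ) : ℝ :=
  ∑ T ∈ S.powerset, (if T.card ≤ J then (-1 : ℝ) ^ T.card else 0) * ∏ p ∈ T, x p

lemma F_insert_zero {S : Finset ℕ} {a : ℕ} (ha : a ∉ S) (x : ℕ → ℝ) :
    F 0 (insert a S) x = F 0 S x := by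
  unfold F
  rw [sum_powerset_insert ha, add_eq_left]
  refine sum_eq_zero fun T hT => ?_
  have : a ∉ T := fun h => ha (mem_powerset.1 hT h)
  rw [card_insert_of_notMem this, if_neg (by omega), zero_mul]

lemma F_insert_succ {S : Finset ℕ} {a : ℕ} (ha : a ∉ S) (x : ℕ → ℝ) (J : ℕ) :
    F (J + 1) (insert a S) x = F (J + 1) S x - x a * F J S x := by
  unfold F
  rw [sum_powerset_insert ha, sub_eq_add_neg, mul_sum, ← sum_neg_distrib]
  congr 1
  refine sum_congr rfl fun T hT => ?_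
  have : a ∉ T := fun h => ha (mem_powerset.1 hT h)
  rw [card_insert_of_notMem this, prod_insert this]
  by_cases h : T.card ≤ J
  · rw [if_pos h, if_pos (by omega)]; ring
  · rw [if_neg h, if_neg (by omega)]; ring

/-- Bonferroni inequalities. -/
lemma bonf (x : ℕ → ℝ) (h0 : ∀ p, 0 ≤ x p) (h1 : ∀ p, x p ≤ 1) (S : Finset ℕ) :
    ∀ J, 0 ≤ (-1 : ℝ) ^ J * (F J S x - ∏ p ∈ S, (1 - x p)) := by
  induction S using Finset.induction_on with
  | empty => intro J; simp [F]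
  | insert a S ha ih =>
    intro J
    have hP : 0 ≤ ∏ p ∈ S, (1 - x p) := prod_nonneg fun p _ => by linarith [h1 p]
    rw [prod_insert ha]
    cases J with
    | zero =>
      rw [F_insert_zero ha]
      have := ih 0
      have := mul_nonneg (h0 a) hP
      simp only [pow_zero, one_mul] at *
      nlinarith
    | succ J =>
      rw [F_insert_succ ha]
      have e1 := ih (J + 1)
      have e2 := mul_nonneg (h0 a) (ih J)
      rw [pow_succ] at *
      nlinarith

lemma sum_pow_prod (S : Finset ℕ) (x : ℕ → ℝ) (t : ℝ) :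
    ∑ T ∈ S.powerset, t ^ T.card * ∏ p ∈ T, x p = ∏ p ∈ S, (1 + t * x p) := by
  rw [prod_one_add]
  refine sum_congr rfl fun T _ => ?_
  rw [prod_mul_distrib, prod_const]

/-- The tail of the truncated sum. -/
lemma F_le (x : ℕ → ℝ) (S : Finset ℕ) (h0 : ∀ p ∈ S, 0 ≤ x p) (J : ℕ) :
    F J S x ≤ ∏ p ∈ S, (1 - x p) + (∏ p ∈ S, (1 + 2 * x p)) / 2 ^ J := by
  have e := sum_pow_prod S x (-1)
  simp only [neg_mul, one_mul, ← sub_eq_add_neg] at e
  rw [← e, ← sum_pow_prod, sum_div, ← sum_add_distrib]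
  refine sum_le_sum fun T hT => ?_
  have hx : 0 ≤ ∏ p ∈ T, x p := prod_nonneg fun p hp => h0 p (mem_powerset.1 hT hp)
  split_ifs with h
  · have : 0 ≤ 2 ^ T.card * (∏ p ∈ T, x p) / 2 ^ J := by positivity
    linarith
  · have h2 : (1 : ℝ) ≤ 2 ^ T.card / 2 ^ J := by
      rw [one_le_div (by positivity)]
      exact pow_le_pow_right₀ (by norm_num) (by omega)
    have h3 : (-1 : ℝ) ≤ (-1) ^ T.card := by
      rcases neg_one_pow_eq_or ℝ T.card with h | h <;> simp [h]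
    rw [mul_div_right_comm]
    nlinarith

/-- The number of terms of the truncated sum. -/
lemma count_le (S : Finset ℕ) (J : ℕ) {μ : ℝ} (h1 : 1 ≤ μ) (hS : (S.card : ℝ) ≤ μ) :
    ∑ T ∈ S.powerset, (if T.card ≤ J then (4 : ℝ) ^ T.card else 0) ≤ μ ^ J * Real.exp 4 := by
  have hμ : 0 < μ := by linarith
  have e := sum_pow_prod S (fun _ => 1) (4 / μ)
  simp only [prod_const_one, mul_one, prod_const] at e
  have h2 : (1 + 4 / μ) ^ S.card ≤ Real.exp 4 := by
    calc _ ≤ Real.exp (4 / μ) ^ S.card := by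
          gcongr; linarith [Real.add_one_le_exp (4 / μ)]
      _ = Real.exp (S.card * (4 / μ)) := (Real.exp_nat_mul _ _).symm
      _ ≤ _ := by
          gcongr
          rw [← mul_div_assoc, div_le_iff₀ hμ]; linarith
  refine le_trans ?_ (mul_le_mul_of_nonneg_left h2 (by positivity))
  rw [← e, mul_sum]
  refine sum_le_sum fun T _ => ?_
  split_ifs with h
  · rw [div_pow, ← mul_div_assoc, le_div_iff₀ (by positivity), mul_comm]
    gcongr
  · positivity

lemma ww_nonneg (t : ℝ) : 0 ≤ ww t := by unfold ww; positivity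

/-- The sieve inequality. -/
lemma IP_le {γ : ℕ → ℝ} (hγ : ∀ n, 0 ≤ γ n) {η : ℝ}
    (hs : ∀ P : ℕ → Prop, Summable (Set.indicator {n | P n} fun n : ℕ => γ n * ww (n * η)))
    (S : Finset ℕ) (m : ℕ) :
    IP γ (fun n => om S n = 0) η ≤ ∑ T ∈ S.powerset,
      (if T.card ≤ 2 * m then (-1 : ℝ) ^ T.card else 0) * IP γ (fun n => ∀ p ∈ T, p ∣ n) η := by
  have h1 := hasSum_sum (s := S.powerset) fun T _ =>
    ((hs (fun n => ∀ p ∈ T, p ∣ n)).hasSum.mul_left
      (if T.card ≤ 2 * m then (-1 : ℝ) ^ T.card else 0))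
  refine hasSum_le (fun n => ?_) (hs _).hasSum h1
  have hw : 0 ≤ γ n * ww (n * η) := mul_nonneg (hγ n) (ww_nonneg _)
  set x : ℕ → ℝ := fun p => if p ∣ n then 1 else 0 with hx
  have hb := bonf x (fun p => by simp only [hx]; split_ifs <;> norm_num)
    (fun p => by simp only [hx]; split_ifs <;> norm_num) S (2 * m)
  rw [pow_mul, neg_one_sq, one_pow, one_mul, sub_nonneg] at hb
  have e1 : ∀ T : Finset ℕ, Set.indicator {n | ∀ p ∈ T, p ∣ n}
      (fun n : ℕ => γ n * ww (n * η)) n = (∏ p ∈ T, x p) * (γ n * ww (n * η)) := by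
    intro T
    by_cases h : ∀ p ∈ T, p ∣ n
    · rw [Set.indicator_of_mem (by exact h), prod_eq_one fun p hp => if_pos (h p hp), one_mul]
    · rw [Set.indicator_of_notMem (by exact h)]
      push Not at h
      obtain ⟨p, hp, hpn⟩ := h
      rw [prod_eq_zero hp (if_neg hpn), zero_mul]
  have e2 : Set.indicator {n | om S n = 0} (fun n : ℕ => γ n * ww (n * η)) n ≤
      (∏ p ∈ S, (1 - x p)) * (γ n * ww (n * η)) := by
    by_cases h : om S n = 0
    · rw [Set.indicator_of_mem (by exact h), prod_eq_one, one_mul]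
      intro p hp
      have : ¬ p ∣ n := fun hd => by
        have := card_eq_zero.1 h
        exact (filter_eq_empty_iff.1 this) hp hd
      simp [hx, this]
    · rw [Set.indicator_of_notMem (by exact h)]
      refine mul_nonneg (prod_nonneg fun p _ => ?_) hw
      simp only [hx]; split_ifs <;> norm_num
  simp only [e1, ← mul_assoc]
  rw [← sum_mul, ← sum_mul, mul_assoc]
  exact e2.trans (mul_le_mul_of_nonneg_right hb hw)

/-- The product of the local factors is a sum over smooth numbers. -/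
lemma prod_le {γ : ℕ → ℝ} {c K : ℝ} (hγ : Wt γ c K)
    (hs : ∀ p : ℕ, 2 ≤ p → Summable fun k => γ (p ^ k)) {S : Finset ℕ} (hS : ∀ p ∈ S, p.Prime)
    {A : ℝ} (hA : ∀ s : Finset ℕ, (∀ n ∈ s, 0 < n ∧ ∀ p, p.Prime → p ∣ n → p ∈ S) →
      ∑ n ∈ s, γ n ≤ A) : ∏ p ∈ S, Gloc γ p ≤ A := by
  have h := (EulerProduct.summable_and_hasSum_factoredNumbers_prod_filter_prime_tsum (f := γ)
    hγ.one (fun {m n} h => hγ.mul m n h) (fun {p} hp => (hs p hp.two_le).norm) S).2
  rw [filter_true_of_mem hS] at h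
  refine hasSum_le_of_sum_le h fun u => ?_
  have := hA (u.map (Function.Embedding.subtype _)) fun n hn => by
    obtain ⟨m, _, rfl⟩ := mem_map.1 hn
    have hm := Nat.mem_factoredNumbers'.1 m.2
    exact ⟨Nat.pos_of_ne_zero (Nat.ne_zero_of_mem_factoredNumbers m.2), hm⟩
  rwa [sum_map] at this

lemma pow_le_exp (k : ℕ) {t : ℝ} (ht : 0 ≤ t) : t ^ k ≤ k.factorial * Real.exp t := by
  have := Real.pow_div_factorial_le_exp t ht k
  rwa [div_le_iff₀ (by positivity), mul_comm] at this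

end Sv

open Sv in
theorem sv (h0 : S_S0) (h1 : S_S1) (h3 : S_S3) : S_Sv := by
  intro c K
  obtain ⟨C0, hC0, h0⟩ := h0 c K
  obtain ⟨p₀, h1⟩ := h1 c K
  obtain ⟨C3, h3⟩ := h3 c K
  set A : ℝ := 18 * |C3| + |c| * C0 ^ 2 * (125 : ℕ).factorial +
    |K| * Real.exp 4 * (17 : ℕ).factorial with hA
  have hA0 : 0 ≤ A := by positivity
  refine ⟨A + |C3| + p₀ + 120 ^ 20, fun γ hγ l P₀ η B hl hP hPl hB hη hηl => ?_⟩
  obtain ⟨hs, -, -, hG, hsm⟩ := h0 γ hγ
  have hC3 := abs_nonneg C3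
  have hp0 : (0 : ℝ) ≤ p₀ := Nat.cast_nonneg _
  have hl1 : (120 : ℝ) ^ 20 ≤ l := by linarith
  have hl0 : 1 ≤ l := le_trans (by norm_num) hl1
  have hP3 : 3 ≤ P₀ := by
    have : (3 : ℝ) ≤ 120 ^ 20 := by norm_num
    linarith
  obtain ⟨t, ht, rfl⟩ : ∃ t : ℝ, 120 ≤ t ∧ l = t ^ 20 := by
    refine ⟨l ^ (((20 : ℕ) : ℝ)⁻¹), ?_, (Real.rpow_inv_natCast_pow (by linarith) (by norm_num)).symm⟩
    refine le_of_pow_le_pow_left₀ (n := 20) (by norm_num) (by positivity) ?_
    rwa [Real.rpow_inv_natCast_pow (by linarith) (by norm_num)]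
  have ht0 : 0 < t := by linarith
  have ht1 : 1 ≤ t := by linarith
  have e1 : (t ^ 20) ^ (9 / 10 : ℝ) = t ^ 18 := by
    rw [← Real.rpow_natCast, ← Real.rpow_mul ht0.le, ← Real.rpow_natCast]; norm_num
  have e2 : (t ^ 20) ^ (-(17 / 20 : ℝ)) = (t ^ 17)⁻¹ := by
    rw [← Real.rpow_natCast, ← Real.rpow_mul ht0.le, ← Real.rpow_natCast, ← Real.rpow_neg ht0.le]
    norm_num
  have e3 : Real.sqrt (t ^ 20) = t ^ 10 := by
    rw [show t ^ 20 = (t ^ 10) ^ 2 by ring, Real.sqrt_sq (by positivity)]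
  rw [e1, e2]
  rw [e3] at hPl
  set P₁ := Real.exp (t ^ 18) with hP₁
  have hP01 : P₀ ≤ P₁ := hPl.trans (Real.exp_le_exp.2 (pow_le_pow_right₀ ht1 (by norm_num)))
  set S := ((Icc 1 ⌊P₁⌋₊).filter fun p : ℕ => p.Prime ∧ P₀ < p) \ B with hS
  have hSm : ∀ p ∈ S, p.Prime ∧ P₀ < p ∧ (p : ℝ) ≤ P₁ := fun p hp => by
    have := mem_filter.1 (mem_sdiff.1 hp).1
    exact ⟨this.2.1, this.2.2, (Nat.le_floor_iff (by linarith)).1 (mem_Icc.1 this.1).2⟩
  have hSc : (S.card : ℝ) ≤ P₁ := by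
    have : S.card ≤ ⌊P₁⌋₊ := by
      calc _ ≤ (Icc 1 ⌊P₁⌋₊).card := card_le_card (sdiff_subset.trans (filter_subset _ _))
        _ = _ := by simp
    exact le_trans (by exact_mod_cast this) (Nat.floor_le (by linarith))
  have hG1 : ∀ p ∈ S, 1 ≤ Gloc γ p := fun p hp => (hG p (hSm p hp).1.two_le).2.1
  set x : ℕ → ℝ := fun p => 1 - 1 / Gloc γ p with hx
  have hx0 : ∀ p ∈ S, 0 ≤ x p := fun p hp => by
    have := hG1 p hp
    simp only [hx, sub_nonneg]
    rw [div_le_one (by linarith)]; exact this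
  set m := ⌈t⌉₊ with hm
  have hm1 : t ≤ m := Nat.le_ceil t
  have hm2 : (m : ℝ) ≤ t + 1 := (Nat.ceil_lt_add_one ht0.le).le
  have hc := hγ.c0
  have hK : 0 ≤ K := by linarith [hγ.K1]
  have hη5 : 0 ≤ η ^ (1 / 5 : ℝ) := by positivity
  -- the sieve
  have s1 : IP γ (fun n => om S n = 0) η ≤
      c * F (2 * m) S x + P₁ ^ (2 * m) * Real.exp 4 * (K * η ^ (1 / 5 : ℝ)) := by
    refine (IP_le hγ.nn (fun P => (hs P η hη).1) S m).trans ?_
    refine le_trans ?_ (add_le_add_right (mul_le_mul_of_nonneg_right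
      (count_le S (2 * m) (by linarith) hSc) (by positivity)) _)
    unfold F
    rw [mul_sum, sum_mul, ← sum_add_distrib]
    refine sum_le_sum fun T hT => ?_
    have := abs_le.1 (h1 γ hγ T (fun p hp => by
      have := hSm p (mem_powerset.1 hT hp)
      refine ⟨this.1, ?_⟩
      have h2 : (p₀ : ℝ) ≤ p := by
        have : (0 : ℝ) ≤ 120 ^ 20 := by positivity
        linarith [this, (hSm p (mem_powerset.1 hT hp)).2.1]
      exact_mod_cast h2) η hη)
    split_ifs with h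
    · rcases neg_one_pow_eq_or ℝ T.card with h | h <;> rw [h] <;> simp only [hx] <;>
        linarith [this.1, this.2]
    · simp
  set G := ∏ p ∈ S, Gloc γ p with hGd
  have hGpos : 0 < G := prod_pos fun p hp => by linarith [hG1 p hp]
  have hGle : G ≤ C0 * (t ^ 18) ^ 3 := by
    refine prod_le hγ (fun p hp => (hG p hp).1) (fun p hp => (hSm p hp).1) fun s hs' => ?_
    have := hsm P₁ s (by linarith) fun n hn =>
      ⟨(hs' n hn).1, fun p hp hd => (hSm p ((hs' n hn).2 p hp hd)).2.2⟩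
    rwa [hP₁, Real.log_exp] at this
  have s2 : ∏ p ∈ S, (1 - x p) = G⁻¹ := by
    rw [hGd, ← prod_inv_distrib]
    exact prod_congr rfl fun p _ => by simp [hx]
  have s3 : ∏ p ∈ S, (1 + 2 * x p) ≤ G ^ 2 := by
    rw [hGd, ← prod_pow]
    refine prod_le_prod (fun p hp => by linarith [hx0 p hp]) fun p hp => ?_
    have h2 := hG1 p hp
    have h4 : 1 / Gloc γ p * Gloc γ p = 1 := by field_simp
    have h5 : 0 < 1 / Gloc γ p := by positivity
    simp only [hx]
    nlinarith [sq_nonneg (Gloc γ p - 1), sq_nonneg (1 / Gloc γ p - 1)]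
  have hL1 : 1 ≤ Real.log P₀ := by
    rw [Real.le_log_iff_exp_le (by linarith)]
    linarith [Real.exp_one_lt_d9]
  have hL : 1 ≤ Real.log P₀ ^ 3 := one_le_pow₀ hL1
  have h17 : 0 < t ^ 17 := by positivity
  -- main term
  have m1 : c * G⁻¹ ≤ 18 * |C3| * Real.log P₀ ^ 3 * (t ^ 17)⁻¹ := by
    have h := h3 γ hγ P₀ P₁ B (by
      have : (0 : ℝ) ≤ 120 ^ 20 := by positivity
      linarith [le_abs_self C3]) hP01 hB
    rw [hP₁, Real.log_exp, Real.log_pow, ← hP₁, ← hS, ← hGd] at h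
    have hlt : Real.log t ≤ t := (Real.log_le_sub_one_of_pos ht0).trans (by linarith)
    have hlt0 : 0 ≤ Real.log t := Real.log_nonneg ht1
    have h' : c * t ^ 18 ≤ |C3| * Real.log P₀ ^ 3 * (18 * t) * G := by
      refine h.trans ?_
      push_cast
      gcongr
      exact le_abs_self C3
    rw [← div_eq_mul_inv, ← div_eq_mul_inv, div_le_div_iff₀ hGpos h17]
    refine le_of_mul_le_mul_right ?_ ht0
    calc _ = c * t ^ 18 := by ring
      _ ≤ _ := h'
      _ = _ := by ring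
  -- tail
  have m2 : c * (G ^ 2 / 2 ^ (2 * m)) ≤ |c| * C0 ^ 2 * (125 : ℕ).factorial * (t ^ 17)⁻¹ := by
    have h2 : Real.exp t ≤ 2 ^ (2 * m) := by
      calc _ ≤ Real.exp (m * 1) := by gcongr; linarith
        _ = Real.exp 1 ^ m := Real.exp_nat_mul _ _
        _ ≤ (2 ^ 2) ^ m := by gcongr; linarith [Real.exp_one_lt_d9]
        _ = _ := by rw [← pow_mul]
    have h4 := pow_le_exp 125 ht0.le
    rw [abs_of_nonneg hc, mul_assoc, mul_assoc]
    refine mul_le_mul_of_nonneg_left ?_ hc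
    rw [← div_eq_mul_inv, ← mul_div_assoc, div_le_div_iff₀ (by positivity) h17]
    calc _ ≤ (C0 * (t ^ 18) ^ 3) ^ 2 * t ^ 17 := by gcongr
      _ = C0 ^ 2 * t ^ 125 := by ring
      _ ≤ C0 ^ 2 * ((125 : ℕ).factorial * 2 ^ (2 * m)) := by
          gcongr
          exact h4.trans (by gcongr)
      _ = _ := by ring
  -- error
  have m3 : P₁ ^ (2 * m) * Real.exp 4 * (K * η ^ (1 / 5 : ℝ)) ≤
      |K| * Real.exp 4 * (17 : ℕ).factorial * (t ^ 17)⁻¹ := by
    have h2 : η ^ (1 / 5 : ℝ) ≤ Real.exp (-(t ^ 20 / 3) * (1 / 5)) := by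
      rw [Real.exp_mul]; gcongr
    have h4 : P₁ ^ (2 * m) * η ^ (1 / 5 : ℝ) ≤ Real.exp (-t) := by
      rw [hP₁, ← Real.exp_nat_mul]
      refine (mul_le_mul_of_nonneg_left h2 (by positivity)).trans ?_
      rw [← Real.exp_add]
      gcongr
      push_cast
      have h5 : t ≤ t ^ 19 := le_self_pow₀ ht1 (by norm_num)
      have h6 : 2 * (m : ℝ) * t ^ 18 ≤ 4 * t ^ 19 := by
        calc _ ≤ 4 * t * t ^ 18 := by gcongr ?_ * _; linarith
          _ = _ := by ring
      have h7 : 120 * t ^ 19 ≤ t ^ 20 := by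
        calc _ ≤ t * t ^ 19 := by gcongr
          _ = _ := by ring
      have : 0 < t ^ 19 := by positivity
      linarith
    have h5 : Real.exp (-t) ≤ (17 : ℕ).factorial * (t ^ 17)⁻¹ := by
      rw [Real.exp_neg, ← div_eq_mul_inv, le_div_iff₀ h17, inv_mul_le_iff₀ (Real.exp_pos t),
        mul_comm]
      exact pow_le_exp 17 ht0.le
    rw [abs_of_nonneg hK]
    calc _ = K * Real.exp 4 * (P₁ ^ (2 * m) * η ^ (1 / 5 : ℝ)) := by ring
      _ ≤ K * Real.exp 4 * ((17 : ℕ).factorial * (t ^ 17)⁻¹) :=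
          mul_le_mul_of_nonneg_left (h4.trans h5) (by positivity)
      _ = _ := by ring
  have s4 := F_le x S hx0 (2 * m)
  rw [s2] at s4
  have s5 : c * F (2 * m) S x ≤ c * G⁻¹ + c * (G ^ 2 / 2 ^ (2 * m)) := by
    rw [← mul_add]
    refine mul_le_mul_of_nonneg_left (s4.trans ?_) hc
    gcongr
  have hi : 0 < (t ^ 17)⁻¹ := by positivity
  calc _ ≤ 18 * |C3| * Real.log P₀ ^ 3 * (t ^ 17)⁻¹ +
        |c| * C0 ^ 2 * (125 : ℕ).factorial * 1 * (t ^ 17)⁻¹ +
        |K| * Real.exp 4 * (17 : ℕ).factorial * 1 * (t ^ 17)⁻¹ := by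
        rw [mul_one, mul_one]; linarith
    _ ≤ 18 * |C3| * Real.log P₀ ^ 3 * (t ^ 17)⁻¹ +
        |c| * C0 ^ 2 * (125 : ℕ).factorial * Real.log P₀ ^ 3 * (t ^ 17)⁻¹ +
        |K| * Real.exp 4 * (17 : ℕ).factorial * Real.log P₀ ^ 3 * (t ^ 17)⁻¹ := by gcongr
    _ = A * Real.log P₀ ^ 3 * (t ^ 17)⁻¹ := by rw [hA]; ring
    _ ≤ _ := by
        gcongr
        have : (0 : ℝ) ≤ 120 ^ 20 := by positivity
        linarith

end MR
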