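import Pool.Agent.P.MP_79de8b_nt.Basic

/-! Package T0: trivial bounds for the averages over a class of reduced residues. -/

open Complex UpperHalfPlane MeasureTheory Finset CongruenceSubgroup Filter Topology
open scoped Real MatrixGroups ComplexConjugate

noncomputable section
namespace MR
namespace T0

lemma geo_Icc {c : ℝ} (hc : 0 < c) (M : ℕ) :
    ∑ j ∈ Icc 1 M, Real.exp (-(c * j)) ≤ (1 - Real.exp (-(c * M))) / c := by
  induction M with
  | zero => simp
  | succ M ih =>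
    rw [sum_Icc_succ_top (by omega)]
    have h1 : Real.exp (-(c * M)) = Real.exp c * Real.exp (-(c * ((M + 1 : ℕ) : ℝ))) := by
      rw [← Real.exp_add]; congr 1; push_cast; ring
    have h2 := Real.add_one_le_exp c
    have h3 := Real.exp_pos (-(c * ((M + 1 : ℕ) : ℝ)))
    rw [le_div_iff₀ hc] at ih ⊢
    nlinarith

lemma geo_pos {c : ℝ} (hc : 0 < c) (t : Finset ℕ) (ht : 0 ∉ t) :
    ∑ j ∈ t, Real.exp (-(c * j)) ≤ 1 / c := by
  have hs : t ⊆ Icc 1 (t.sup id) := fun j hj => mem_Icc.2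
    ⟨Nat.pos_of_ne_zero fun h => ht (h ▸ hj), le_sup (f := id) hj⟩
  refine (sum_le_sum_of_subset_of_nonneg hs fun _ _ _ => (Real.exp_pos _).le).trans ?_
  refine (geo_Icc hc _).trans ?_
  gcongr
  linarith [Real.exp_pos (-(c * (t.sup id : ℕ)))]

lemma geo_all {c : ℝ} (hc : 0 < c) (t : Finset ℕ) :
    ∑ j ∈ t, Real.exp (-(c * j)) ≤ 1 + 1 / c := by
  have hs : t ⊆ insert 0 (t.erase 0) := subset_insert_iff.2 subset_rfl
  refine (sum_le_sum_of_subset_of_nonneg hs fun _ _ _ => (Real.exp_pos _).le).trans ?_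
  rw [sum_insert (notMem_erase 0 t)]
  have := geo_pos hc (t.erase 0) (notMem_erase 0 t)
  simpa using this

/-- A sum over integers in one class modulo `Q` is bounded by a geometric sum. -/
lemma cls_le {a : ℝ} (ha : 0 < a) {Q : ℕ} (s : Finset ℕ)
    (hs : ∀ m ∈ s, ∀ m' ∈ s, m % Q = m' % Q) :
    ∑ m ∈ s, Real.exp (-(a * m)) ≤ ∑ j ∈ s.image (· / Q), Real.exp (-(a * Q * j)) := by
  rw [sum_image]
  · refine sum_le_sum fun m _ => Real.exp_le_exp.2 ?_
    have h1 : (Q : ℝ) * (m / Q : ℕ) ≤ m := by exact_mod_cast Nat.mul_div_le m Q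
    nlinarith
  · intro m hm m' hm' h
    have h1 := Nat.div_add_mod m Q
    have h2 := Nat.div_add_mod m' Q
    have h3 := hs m hm m' hm'
    beta_reduce at h
    rw [← h1, ← h2, h, h3]

lemma cls_all {a : ℝ} (ha : 0 < a) {Q : ℕ} (hQ : 0 < Q) (s : Finset ℕ) {h e : ℤ}
    (he : e = 1 ∨ e = -1) (hs : ∀ m ∈ s, (Q : ℤ) ∣ h - e * m) :
    ∑ m ∈ s, Real.exp (-(a * m)) ≤ 1 + 1 / (a * Q) := by
  refine (cls_le ha (Q := Q) s fun m hm m' hm' => ?_).trans (geo_all (by positivity) _)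
  have h1 := dvd_sub (hs m hm) (hs m' hm')
  have h2 : (Q : ℤ) ∣ (m' : ℤ) - m := by
    rcases he with rfl | rfl
    · rw [show (m' : ℤ) - m = h - 1 * m - (h - 1 * m') by ring]; exact h1
    · rw [← dvd_neg, show -((m' : ℤ) - m) = h - -1 * m - (h - -1 * m') by ring]; exact h1
  exact (Nat.modEq_iff_dvd.2 h2)

lemma cls_pos {a : ℝ} (ha : 0 < a) {Q : ℕ} (hQ : 0 < Q) (s : Finset ℕ)
    (hs : ∀ m ∈ s, m ≠ 0 ∧ Q ∣ m) :
    ∑ m ∈ s, Real.exp (-(a * m)) ≤ 1 / (a * Q) := by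
  refine (cls_le ha (Q := Q) s fun m hm m' hm' => ?_).trans (geo_pos (by positivity) _ ?_)
  · rw [Nat.mod_eq_zero_of_dvd (hs m hm).2, Nat.mod_eq_zero_of_dvd (hs m' hm').2]
  · intro h0
    obtain ⟨m, hm, h⟩ := mem_image.1 h0
    have := Nat.div_pos (Nat.le_of_dvd (Nat.pos_of_ne_zero (hs m hm).1) (hs m hm).2) hQ
    omega

lemma hasSum_av (s : Finset ℕ) {f : ℕ → ℕ → ℂ} {F : ℕ → ℂ}
    (h : ∀ x, HasSum (fun m => f m x) (F x)) : HasSum (fun m => av s (f m)) (av s F) := by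
  unfold av
  exact (hasSum_sum fun x _ => h x).div_const _

lemma norm_le_of_hasSum {f : ℕ → ℂ} {A : ℂ} {B : ℝ} (h : HasSum f A)
    (hB : ∀ M, ∑ m ∈ range M, ‖f m‖ ≤ B) : ‖A‖ ≤ B :=
  le_of_tendsto' h.tendsto_sum_nat.norm fun M => (norm_sum_le _ _).trans (hB M)

/-- The average of an additive character. -/
lemma av_ex (hA1 : S_A1) (hAv : S_Av) {N q ρ : ℕ} (hN : 0 < N) (hq : 0 < q) (hρ : ρ.Coprime N)
    (h : ℤ) : ‖av (UU N q ρ) fun x => ex (h * x / (q * N))‖ ≤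
      tau q / q * ∑ δ ∈ q.divisors, if ((q / δ : ℕ) : ℤ) ∣ h then ((q / δ : ℕ) : ℝ) else 0 := by
  obtain ⟨-, h2, -, ⟨x₀, h4⟩, -⟩ := hAv N q ρ hN hq hρ
  have h5 := (hA1.2.2.1 q hq).2.2
  have hq' : (0 : ℝ) < q := by exact_mod_cast hq
  have ht : (0 : ℝ) < q.totient := by exact_mod_cast Nat.totient_pos.2 hq
  have h2' : (q.totient : ℝ) ≤ (UU N q ρ).card := by exact_mod_cast h2
  have hS : 0 ≤ ∑ δ ∈ q.divisors, if ((q / δ : ℕ) : ℤ) ∣ h then ((q / δ : ℕ) : ℝ) else 0 :=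
    sum_nonneg fun δ _ => by split_ifs <;> positivity
  unfold av
  rw [norm_div, Complex.norm_natCast, h4]
  have h6 : ‖∑ δ ∈ q.divisors.filter (·.Coprime N), (ArithmeticFunction.moebius δ : ℂ) *
      (if ((q / δ : ℕ) : ℤ) ∣ h then ((q / δ : ℕ) : ℂ) * ex (h * x₀ δ / (q * N)) else 0)‖ ≤
      ∑ δ ∈ q.divisors, if ((q / δ : ℕ) : ℤ) ∣ h then ((q / δ : ℕ) : ℝ) else 0 := by
    refine (norm_sum_le _ _).trans ?_
    refine le_trans (sum_le_sum fun δ _ => ?_) (sum_le_sum_of_subset_of_nonneg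
      (filter_subset (·.Coprime N) q.divisors) fun δ _ _ => by split_ifs <;> positivity)
    have hm : ‖(ArithmeticFunction.moebius δ : ℂ)‖ ≤ 1 := by
      rw [Complex.norm_intCast]; exact_mod_cast ArithmeticFunction.abs_moebius_le_one
    rw [norm_mul]
    split_ifs
    · rw [norm_mul, norm_ex, mul_one, Complex.norm_natCast]
      exact mul_le_of_le_one_left (by positivity) hm
    · simp
  rw [div_le_iff₀ (by linarith)]
  refine h6.trans ?_
  have h7 : 1 ≤ tau q / q * (UU N q ρ).card := by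
    rw [div_mul_eq_mul_div, le_div_iff₀ hq', one_mul]
    exact h5.trans (mul_le_mul_of_nonneg_left h2' (tau_nonneg q))
  nlinarith

/-- The average of a trigonometric series. -/
lemma av_ser (hA1 : S_A1) (hAv : S_Av) {N q ρ : ℕ} (hN : 0 < N) (hq : 0 < q) (hρ : ρ.Coprime N)
    (c : ℕ → ℂ) (k : ℕ → ℤ) (F : ℕ → ℂ)
    (hF : ∀ x : ℕ, HasSum (fun m => c m * ex (k m * x / (q * N))) (F x)) (B : ℝ)
    (hB : ∀ Q : ℕ, 0 < Q → Q ≤ q → ∀ M,
      Q * ∑ m ∈ (range M).filter (fun m => (Q : ℤ) ∣ k m), ‖c m‖ ≤ B) :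
    ‖av (UU N q ρ) F‖ ≤ tau q ^ 2 * B / q := by
  refine norm_le_of_hasSum (hasSum_av _ hF) fun M => ?_
  have ht := tau_nonneg q
  calc ∑ m ∈ range M, ‖av (UU N q ρ) fun x => c m * ex (k m * x / (q * N))‖
      ≤ ∑ m ∈ range M, ‖c m‖ * (tau q / q *
        ∑ δ ∈ q.divisors, if ((q / δ : ℕ) : ℤ) ∣ k m then ((q / δ : ℕ) : ℝ) else 0) := by
        refine sum_le_sum fun m _ => ?_
        rw [av_const_mul, norm_mul]
        exact mul_le_mul_of_nonneg_left (av_ex hA1 hAv hN hq hρ _) (norm_nonneg _)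
    _ = tau q / q * ∑ δ ∈ q.divisors, ((q / δ : ℕ) : ℝ) *
        ∑ m ∈ (range M).filter (fun m => ((q / δ : ℕ) : ℤ) ∣ k m), ‖c m‖ := by
        simp only [mul_sum, sum_filter]
        rw [sum_comm]
        refine sum_congr rfl fun δ _ => sum_congr rfl fun m _ => ?_
        split_ifs <;> ring
    _ ≤ tau q / q * ∑ _δ ∈ q.divisors, B := by
        refine mul_le_mul_of_nonneg_left (sum_le_sum fun δ hδ => ?_) (by positivity)
        have hd := Nat.dvd_of_mem_divisors hδ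
        exact hB _ (Nat.div_pos (Nat.le_of_dvd hq hd) (Nat.pos_of_dvd_of_pos hd hq))
          (Nat.div_le_self _ _) M
    _ = _ := by rw [sum_const, nsmul_eq_mul]; unfold tau; ring

lemma rpow_le_one_add {t : ℝ} (ht : 0 ≤ t) : t ^ (4 / 5 : ℝ) ≤ 1 + t := by
  rcases le_total t 1 with h | h
  · linarith [Real.rpow_le_one ht h (by norm_num : (0 : ℝ) ≤ 4 / 5)]
  · linarith [Real.rpow_le_self_of_one_le h (by norm_num : (4 / 5 : ℝ) ≤ 1)]

/-- Pointwise bound for the terms of the expansion. -/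
lemma cf_le {N : ℕ} (hN : 0 < N) {b : ℕ → ℂ} {C : ℝ} (hC : 0 ≤ C)
    (hb : ∀ n, ‖b n‖ ≤ C * (n : ℝ) ^ (4 / 5 : ℝ)) (u : ℝ) (n : ℕ) :
    ‖cf N b u n‖ ≤ C * N * Real.exp (u / 5) * Real.exp (-(π * Real.exp u / N * n)) := by
  have hN' : (1 : ℝ) ≤ N := by exact_mod_cast hN
  have hy := Real.exp_pos u
  have h1 : (n : ℝ) ^ (4 / 5 : ℝ) * Real.exp u =
      (n * Real.exp u) ^ (4 / 5 : ℝ) * Real.exp (u / 5) := by
    rw [Real.mul_rpow (by positivity) hy.le, ← Real.exp_mul, mul_assoc, ← Real.exp_add]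
    congr 2; ring
  have h2 : (n * Real.exp u) ^ (4 / 5 : ℝ) ≤ N * Real.exp (π * Real.exp u / N * n) := by
    refine (rpow_le_one_add (by positivity)).trans ?_
    have h3 := Real.add_one_le_exp (π * Real.exp u / N * n)
    have h4 : (N : ℝ) * (π * Real.exp u / N * n) = π * (n * Real.exp u) := by field_simp
    have h5 : (0 : ℝ) ≤ n * Real.exp u := by positivity
    have h6 := Real.pi_gt_three
    nlinarith
  have h3 : Real.exp (-(2 * π * n * Real.exp u / N)) * Real.exp (π * Real.exp u / N * n) =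
      Real.exp (-(π * Real.exp u / N * n)) := by
    rw [← Real.exp_add]; congr 1; ring
  unfold cf
  rw [norm_mul, Complex.norm_real, Real.norm_of_nonneg (by positivity)]
  calc _ ≤ C * (n : ℝ) ^ (4 / 5 : ℝ) *
        (Real.exp u * Real.exp (-(2 * π * n * Real.exp u / N))) := by gcongr; exact hb n
    _ = C * ((n * Real.exp u) ^ (4 / 5 : ℝ) * Real.exp (u / 5)) *
        Real.exp (-(2 * π * n * Real.exp u / N)) := by rw [← h1]; ring
    _ ≤ C * (N * Real.exp (π * Real.exp u / N * n) * Real.exp (u / 5)) *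
        Real.exp (-(2 * π * n * Real.exp u / N)) := by gcongr
    _ = _ := by rw [← h3]; ring

lemma ratio_le {N : ℕ} (hN : 0 < N) (u : ℝ) :
    Real.exp (u / 5) * (1 / (π * Real.exp u / N)) ≤ N * Real.exp (-(4 * u / 5)) := by
  have hN' : (0 : ℝ) < N := by exact_mod_cast hN
  have hy := Real.exp_pos u
  have h1 : Real.exp (u / 5) = Real.exp u * Real.exp (-(4 * u / 5)) := by
    rw [← Real.exp_add]; congr 1; ring
  have h2 := Real.pi_gt_three
  have h3 := Real.exp_pos (-(4 * u / 5))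
  rw [h1, show Real.exp u * Real.exp (-(4 * u / 5)) * (1 / (π * Real.exp u / N)) =
    N * Real.exp (-(4 * u / 5)) / π by field_simp]
  exact div_le_self (by positivity) (by linarith)

/-- Sum over a class. -/
lemma sum_all {N : ℕ} (hN : 0 < N) {b : ℕ → ℂ} {C : ℝ} (hC : 0 ≤ C)
    (hb : ∀ n, ‖b n‖ ≤ C * (n : ℝ) ^ (4 / 5 : ℝ)) (u : ℝ) {Q q : ℕ} (hQ : 0 < Q) (hq : Q ≤ q)
    (s : Finset ℕ) {h e : ℤ} (he : e = 1 ∨ e = -1) (hs : ∀ m ∈ s, (Q : ℤ) ∣ h - e * m) :
    Q * ∑ m ∈ s, ‖cf N b u m‖ ≤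
      C * N ^ 2 * (q * Real.exp (u / 5) + Real.exp (-(4 * u / 5))) := by
  have hN' : (1 : ℝ) ≤ N := by exact_mod_cast hN
  have hQ' : (0 : ℝ) < Q := by exact_mod_cast hQ
  have hq' : (Q : ℝ) ≤ q := by exact_mod_cast hq
  have ha : 0 < π * Real.exp u / N := by have := Real.pi_pos; positivity
  have h1 := cls_all ha hQ s he hs
  have h2 := ratio_le hN u
  have h3 := Real.exp_pos (u / 5)
  calc _ ≤ Q * ∑ m ∈ s, C * N * Real.exp (u / 5) * Real.exp (-(π * Real.exp u / N * m)) := by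
        gcongr with m; exact cf_le hN hC hb u m
    _ ≤ Q * (C * N * Real.exp (u / 5) * (1 + 1 / (π * Real.exp u / N * Q))) := by
        rw [← mul_sum]; gcongr
    _ = C * N * (Q * Real.exp (u / 5) + Real.exp (u / 5) * (1 / (π * Real.exp u / N))) := by
        field_simp
    _ ≤ C * N * (N * (q * Real.exp (u / 5)) + N * Real.exp (-(4 * u / 5))) := by
        have h4 : Q * Real.exp (u / 5) ≤ q * Real.exp (u / 5) := by gcongr
        have h5 : q * Real.exp (u / 5) ≤ N * (q * Real.exp (u / 5)) :=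
          le_mul_of_one_le_left (by positivity) hN'
        exact mul_le_mul_of_nonneg_left (add_le_add (h4.trans h5) h2) (by positivity)
    _ = _ := by ring

/-- Sum over the multiples. -/
lemma sum_mul {N : ℕ} (hN : 0 < N) {b : ℕ → ℂ} {C : ℝ} (hC : 0 ≤ C) (hb0 : b 0 = 0)
    (hb : ∀ n, ‖b n‖ ≤ C * (n : ℝ) ^ (4 / 5 : ℝ)) (u : ℝ) {Q : ℕ} (hQ : 0 < Q)
    (s : Finset ℕ) (hs : ∀ m ∈ s, Q ∣ m) :
    Q * ∑ m ∈ s, ‖cf N b u m‖ ≤ C * N ^ 2 * Real.exp (-(4 * u / 5)) := by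
  have hN' : (1 : ℝ) ≤ N := by exact_mod_cast hN
  have hQ' : (0 : ℝ) < Q := by exact_mod_cast hQ
  have ha : 0 < π * Real.exp u / N := by have := Real.pi_pos; positivity
  have h1 := cls_pos ha hQ (s.erase 0) fun m hm => ⟨ne_of_mem_erase hm, hs m (mem_of_mem_erase hm)⟩
  have h2 := ratio_le hN u
  have h3 := Real.exp_pos (u / 5)
  rw [← sum_erase (a := 0) s (by simp [cf, hb0])]
  calc _ ≤ Q * ∑ m ∈ s.erase 0,
        C * N * Real.exp (u / 5) * Real.exp (-(π * Real.exp u / N * m)) := by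
        gcongr with m; exact cf_le hN hC hb u m
    _ ≤ Q * (C * N * Real.exp (u / 5) * (1 / (π * Real.exp u / N * Q))) := by
        rw [← mul_sum]; gcongr
    _ = C * N * (Real.exp (u / 5) * (1 / (π * Real.exp u / N))) := by
        field_simp
    _ ≤ C * N * (N * Real.exp (-(4 * u / 5))) := by gcongr
    _ = _ := by ring

lemma exp_le_one_add (u : ℝ) : Real.exp (-(4 * u / 5)) ≤ 1 + Real.exp (-u) := by
  have := rpow_le_one_add (Real.exp_pos (-u)).le
  rwa [← Real.exp_mul, show -u * (4 / 5) = -(4 * u / 5) by ring] at this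

end T0

open T0 in
theorem t0 (hA1 : S_A1) (hAv : S_Av) (hSer : S_Ser) (hPtw : S_Ptw) : S_T0 := by
  intro N Φ
  obtain ⟨C, hC1, hC⟩ := hPtw N Φ
  have hC0 : 0 ≤ C := by linarith
  have hN := Φ.pos
  have hN' : (1 : ℝ) ≤ N := by exact_mod_cast hN
  obtain ⟨k, hk⟩ := exists_le_Lam_pow ((C * N ^ 2) ^ 2)
  have hD : 1 ≤ C * N ^ 2 := one_le_mul_of_one_le_of_one_le hC1 (one_le_pow₀ hN')
  refine ⟨k + 2, fun σ q ρ hq hρ => ?_⟩
  have hq0 : 0 < q := by omega
  have hq' : (0 : ℝ) < q := by exact_mod_cast hq0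
  have hser := (hSer N Φ.K _ _ (Φ.ser σ)).2.2.2.2.1
  have hL : tau q ^ 2 * (C * N ^ 2) ^ 2 ≤ Lam q ^ (k + 2) := by
    rw [pow_add, mul_comm]
    have := tau_nonneg q
    have := tau_le_Lam hq
    have := hk q hq
    have := Lam_pos hq
    gcongr
  refine ⟨fun ε u u' _ => ?_, fun u => ?_⟩
  · have h1 : ∀ n : ℕ, ‖av (UU N q ρ) fun x => ex (n * (x / q) / N) *
        cj ε (FF (Φ.G σ) (x / q) u')‖ ≤
        tau q ^ 2 * (C * N ^ 2 * (q * Real.exp (u' / 5) + Real.exp (-(4 * u' / 5)))) / q := by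
      intro n
      refine av_ser hA1 hAv hN hq0 hρ (fun m => cj ε (cf N (Φ.b σ) u' m))
        (fun m => n - sg ε * m) _ (fun x => ?_) _ fun Q hQ hQq M => ?_
      · have h2 : HasSum (fun m : ℕ => cj ε (cf N (Φ.b σ) u' m * ex (m * (x / q) / N)))
            (cj ε (FF (Φ.G σ) (x / q) u')) := by
          cases ε
          · exact hser _ _
          · exact (Complex.hasSum_conj').2 (hser _ _)
        refine (h2.mul_left (ex (n * (x / q) / N))).congr_fun fun m => ?_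
        rw [cj_mul, cj_ex, mul_left_comm, ← ex_add]
        congr 2
        push_cast
        field_simp
        ring
      · simp only [norm_cj]
        exact sum_all hN hC0 (hC σ) u' hQ hQq _ (sg_eq ε) fun m hm => (mem_filter.1 hm).2
    have h2 : HasSum (fun n : ℕ => av (UU N q ρ) fun x => cf N (Φ.b σ) u n *
        (ex (n * (x / q) / N) * cj ε (FF (Φ.G σ) (x / q) u'))) (Cor Φ σ ε q ρ u u') := by
      refine hasSum_av _ fun x => ?_
      simpa only [mul_assoc] using (hser (x / q) u).mul_right (cj ε (FF (Φ.G σ) (x / q) u'))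
    refine norm_le_of_hasSum h2 fun M => ?_
    have h3 := sum_mul hN hC0 (Φ.ser σ).b0 (hC σ) u one_pos (range M) fun m _ => one_dvd m
    rw [Nat.cast_one, one_mul] at h3
    have h4 := exp_le_one_add u
    calc _ ≤ ∑ n ∈ range M, ‖cf N (Φ.b σ) u n‖ * (tau q ^ 2 *
          (C * N ^ 2 * (q * Real.exp (u' / 5) + Real.exp (-(4 * u' / 5)))) / q) := by
          refine sum_le_sum fun n _ => ?_
          rw [av_const_mul, norm_mul]
          exact mul_le_mul_of_nonneg_left (h1 n) (norm_nonneg _)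
      _ ≤ C * N ^ 2 * (1 + Real.exp (-u)) * (tau q ^ 2 *
          (C * N ^ 2 * (q * Real.exp (u' / 5) + Real.exp (-(4 * u' / 5)))) / q) := by
          rw [← Finset.sum_mul]
          gcongr
          exact h3.trans (by gcongr)
      _ = tau q ^ 2 * (C * N ^ 2) ^ 2 * (1 + Real.exp (-u)) *
          (Real.exp (u' / 5) + Real.exp (-(4 * u' / 5)) / q) := by field_simp
      _ ≤ _ := by gcongr
  · have h1 : ‖av (UU N q ρ) fun x => FF (Φ.G σ) (x / q) u‖ ≤
        tau q ^ 2 * (C * N ^ 2 * Real.exp (-(4 * u / 5))) / q := by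
      refine av_ser hA1 hAv hN hq0 hρ (fun m => cf N (Φ.b σ) u m) (fun m => m) _
        (fun x => ?_) _ fun Q hQ _ M => ?_
      · convert hser (x / q) u using 4 with m
        push_cast
        field_simp
      · exact sum_mul hN hC0 (Φ.ser σ).b0 (hC σ) u hQ _ fun m hm =>
          Int.natCast_dvd_natCast.1 (mem_filter.1 hm).2
    refine h1.trans ?_
    rw [← mul_assoc]
    gcongr
    refine le_trans ?_ hL
    have := tau_nonneg q
    gcongr
    nlinarith

end MR
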