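import Pool.Agent.P.MP_79de8b_nt.Core

/-! The shifted convolution region. -/

open Complex UpperHalfPlane MeasureTheory Finset CongruenceSubgroup Filter Topology
open scoped Real MatrixGroups ComplexConjugate

noncomputable section
namespace MR
namespace T2

lemma vol_lt {R : Set (ℝ × ℝ)} {m : ℝ} (hR : R ⊆ {p | |p.1 + 0| ≤ m ∧ |p.2 + 0| ≤ m}) :
    volume R ≠ ⊤ := by
  have hsub : R ⊆ Set.Icc (-m) m ×ˢ Set.Icc (-m) m := fun p hp => by
    obtain ⟨h1, h2⟩ := hR hp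
    rw [add_zero, abs_le] at h1 h2
    exact ⟨h1, h2⟩
  exact ((measure_mono hsub).trans_lt (isCompact_Icc.prod isCompact_Icc).measure_lt_top).ne

lemma region_sub {l L : ℝ} (hl : 0 ≤ l) (hL : 1 ≤ L) {R : Set (ℝ × ℝ)}
    (hR : R ⊆ {p | p.2 ≤ p.1 ∧ p.1 - p.2 ≤ l - 2 * Real.log L ∧ -(2 * l) ≤ p.1 + p.2 ∧ p.1 ≤ l}) :
    R ⊆ {p | |p.1 + 0| ≤ 2 * l ∧ |p.2 + 0| ≤ 2 * l} := fun p hp => by
  obtain ⟨h1, h2, h3, h4⟩ := hR hp
  have := Real.log_nonneg hL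
  exact ⟨abs_le.2 ⟨by linarith, by linarith⟩, abs_le.2 ⟨by linarith, by linarith⟩⟩

/-- The numerical bound. -/
lemma num {N C : ℕ} (hN : 0 < N) : ∃ c : ℝ, 0 ≤ c ∧ ∀ (q δ H : ℕ) (L t t' : ℝ), 3 ≤ q → δ ∣ q →
    1 ≤ L → t' ≤ t → t - t' ≤ Real.log q - 2 * Real.log L → Real.exp t' ≤ 2 * Real.log q ^ 2 →
    1 / (N * (q : ℝ) ^ 2) ≤ Real.exp t' → (H : ℝ) ≤ 2 * Real.log q ^ 2 * N * q ^ 2 →
    (H : ℝ) ≤ N * q * Real.exp ((t + t') / 2) →
    C * (Real.exp t / (q / δ : ℕ)) * (1 + Real.exp t') * tau (q / δ) ^ C *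
      (1 + Real.log (1 + H + 4 * (H : ℝ) ^ 2 / Real.exp t)) ^ 4 *
      Real.sqrt (1 + (q / δ : ℕ) / Real.exp t) *
      Real.sqrt (1 + (H : ℝ) ^ 2 / (((q / δ : ℕ) : ℝ) ^ 2 * Real.exp t)) ≤
    (c * Lam q ^ (C + 9) * δ / Real.sqrt L) ^ 2 := by
  have hN1 : (1 : ℝ) ≤ N := by exact_mod_cast hN
  set c₀ := Real.log (19 * N ^ 3) + 11 with hc₀
  have hc₀0 : 0 ≤ Real.log (19 * (N : ℝ) ^ 3) :=
    Real.log_nonneg (by nlinarith [one_le_pow₀ (n := 3) hN1])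
  refine ⟨18 * C * N * c₀ ^ 4 + 1, by positivity, fun q δ H L t t' hq hδ hL htt hd h1 h2 h3 h4 => ?_⟩
  have hq0 : 0 < q := by omega
  have hqR : (0 : ℝ) < q := by exact_mod_cast hq0
  have hq1 : (1 : ℝ) ≤ q := by exact_mod_cast hq0
  have hδ0 : 0 < δ := Nat.pos_of_dvd_of_pos hδ hq0
  have hδ1 : (1 : ℝ) ≤ δ := by exact_mod_cast hδ0
  have hl1 := one_le_log hq
  have hΛ1 := one_le_Lam hq
  have hlq : Real.log q ≤ q := (Real.log_le_sub_one_of_pos hqR).trans (by linarith)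
  have hQ : ((q / δ : ℕ) : ℝ) = q / δ := Nat.cast_div hδ (by positivity)
  have hτ : tau (q / δ) ≤ Lam q :=
    (tau_le_of_dvd hq0 (Nat.div_dvd_of_dvd hδ)).trans (tau_le_Lam hq)
  have hτ0 := tau_nonneg (q / δ)
  set l := Real.log q with hl
  have hlΛ : l ≤ Lam q := log_le_Lam hq
  have hL0 : 0 < L := by linarith
  have ht := Real.exp_pos t
  have ht' := Real.exp_pos t'
  have a1 : Real.exp t ≤ 2 * l ^ 2 * q / L ^ 2 := by
    calc _ ≤ Real.exp (t' + l - (2 : ℕ) * Real.log L) :=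
          Real.exp_le_exp.2 (by push_cast; linarith)
      _ = Real.exp t' * q / L ^ 2 := by
          rw [Real.exp_sub, Real.exp_add, Real.exp_nat_mul, Real.exp_log hqR, Real.exp_log hL0]
      _ ≤ _ := by gcongr
  set x := Real.exp t / (q / δ) with hx
  have hx0 : 0 < x := by positivity
  have a2 : x ≤ 2 * l ^ 2 * δ / L ^ 2 := by
    calc x ≤ 2 * l ^ 2 * q / L ^ 2 / (q / δ) := by rw [hx]; gcongr
      _ = _ := by field_simp
  have a3 : x * Real.sqrt (1 + q / δ / Real.exp t) ≤ 3 * l ^ 2 * δ / L := by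
    have hy : 1 ≤ 2 * l ^ 2 * δ := by nlinarith [one_le_pow₀ (n := 2) hl1]
    refine le_of_sq_le_sq ?_ (by positivity)
    rw [mul_pow, Real.sq_sqrt (by positivity)]
    have e1 : x ^ 2 * (1 + q / δ / Real.exp t) = x ^ 2 + x := by rw [hx]; field_simp
    have b1 : x ≤ (2 * l ^ 2 * δ / L) ^ 2 := by
      refine a2.trans ?_
      rw [div_pow]; gcongr; nlinarith
    have b2 : x ≤ 2 * l ^ 2 * δ / L := a2.trans (by gcongr; nlinarith)
    have b3 : x ^ 2 ≤ (2 * l ^ 2 * δ / L) ^ 2 := by gcongr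
    rw [e1]
    calc _ ≤ 2 * (2 * l ^ 2 * δ / L) ^ 2 := by linarith
      _ = 8 * (l ^ 2 * δ / L) ^ 2 := by ring
      _ ≤ 9 * (l ^ 2 * δ / L) ^ 2 := by gcongr; norm_num
      _ = _ := by ring
  have a4 : Real.sqrt (1 + (H : ℝ) ^ 2 / ((q / δ) ^ 2 * Real.exp t)) ≤ 2 * N * δ * l := by
    rw [Real.sqrt_le_left (by positivity)]
    have b1 : (H : ℝ) ^ 2 ≤ (N * q) ^ 2 * (Real.exp t * Real.exp t') := by
      calc _ ≤ (N * q * Real.exp ((t + t') / 2)) ^ 2 := by gcongr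
        _ = _ := by rw [mul_pow, ← Real.exp_nat_mul, ← Real.exp_add]; congr 2; push_cast; ring
    have b2 : (H : ℝ) ^ 2 / ((q / δ) ^ 2 * Real.exp t) ≤ 2 * (N * δ * l) ^ 2 := by
      calc _ ≤ (N * q) ^ 2 * (Real.exp t * Real.exp t') / ((q / δ) ^ 2 * Real.exp t) := by gcongr
        _ = (N * δ) ^ 2 * Real.exp t' := by field_simp
        _ ≤ (N * δ) ^ 2 * (2 * l ^ 2) := by gcongr
        _ = _ := by ring
    have b3 : 1 ≤ (N * δ * l) ^ 2 :=
      one_le_pow₀ (one_le_mul_of_one_le_of_one_le (one_le_mul_of_one_le_of_one_le hN1 hδ1) hl1)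
    nlinarith
  have a5 : 1 + Real.log (1 + H + 4 * (H : ℝ) ^ 2 / Real.exp t) ≤ c₀ * l := by
    have b0 : (H : ℝ) ≤ 2 * N * q ^ 4 := by
      calc _ ≤ _ := h3
        _ ≤ 2 * q ^ 2 * N * q ^ 2 := by gcongr
        _ = _ := by ring
    have b1 : 4 * (H : ℝ) ^ 2 / Real.exp t ≤ 16 * (N ^ 3 * q ^ 10) := by
      calc _ ≤ 4 * (2 * N * q ^ 4 : ℝ) ^ 2 / (1 / (N * (q : ℝ) ^ 2)) := by
            gcongr; exact h2.trans (Real.exp_le_exp.2 htt)
        _ = _ := by field_simp; ring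
    have b2 : (N : ℝ) * q ^ 4 ≤ N ^ 3 * q ^ 10 := by
      gcongr
      · exact le_self_pow₀ hN1 (by norm_num)
      · norm_num
    have b3 : (1 : ℝ) ≤ N ^ 3 * q ^ 10 :=
      one_le_mul_of_one_le_of_one_le (one_le_pow₀ hN1) (one_le_pow₀ hq1)
    have b4 : Real.log (1 + H + 4 * (H : ℝ) ^ 2 / Real.exp t) ≤ Real.log (19 * N ^ 3 * q ^ 10) :=
      Real.log_le_log (by positivity) (by linarith)
    rw [Real.log_mul (by positivity) (by positivity), Real.log_pow, Nat.cast_ofNat] at b4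
    rw [hc₀]; nlinarith
  have a5' : 0 ≤ 1 + Real.log (1 + H + 4 * (H : ℝ) ^ 2 / Real.exp t) := by
    have : 0 ≤ Real.log (1 + H + 4 * (H : ℝ) ^ 2 / Real.exp t) :=
      Real.log_nonneg (by
        have : 0 ≤ 4 * (H : ℝ) ^ 2 / Real.exp t := by positivity
        have : (0 : ℝ) ≤ H := by positivity
        linarith)
    linarith
  have a6 : 1 + Real.exp t' ≤ 3 * l ^ 2 := by nlinarith [one_le_pow₀ (n := 2) hl1]
  rw [hQ, div_pow _ (Real.sqrt L), Real.sq_sqrt hL0.le]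
  have hc1 : 0 ≤ 18 * (C : ℝ) * N * c₀ ^ 4 := by positivity
  calc _ = C * (x * Real.sqrt (1 + q / δ / Real.exp t)) * (1 + Real.exp t') * tau (q / δ) ^ C *
        (1 + Real.log (1 + H + 4 * (H : ℝ) ^ 2 / Real.exp t)) ^ 4 *
        Real.sqrt (1 + (H : ℝ) ^ 2 / ((q / δ) ^ 2 * Real.exp t)) := by ring
    _ ≤ C * (3 * l ^ 2 * δ / L) * (3 * l ^ 2) * Lam q ^ C * (c₀ * l) ^ 4 * (2 * N * δ * l) := by
        gcongr
    _ = 18 * C * N * c₀ ^ 4 * (Lam q ^ C * l ^ 9) * δ ^ 2 / L := by ring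
    _ ≤ (18 * C * N * c₀ ^ 4 + 1) ^ 2 * (Lam q ^ (C + 9)) ^ 2 * δ ^ 2 / L := by
        gcongr
        · nlinarith
        · calc _ ≤ Lam q ^ C * Lam q ^ 9 := by gcongr
            _ ≤ _ := by rw [← pow_add, ← pow_mul]; exact Lam_pow_mono hq (by omega)
    _ = _ := by ring

end T2

open T2 in
theorem t2c (hCt : S_Ct) (hFC : S_FC) : S_T2c := by
  intro N Φ
  obtain ⟨C, hC⟩ := hFC N Φ
  have hN := Φ.pos
  have hN1 : (1 : ℝ) ≤ N := by exact_mod_cast hN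
  have hlN : 0 ≤ Real.log N := Real.log_nonneg hN1
  obtain ⟨c, hc0, hc⟩ := num (C := C) hN
  obtain ⟨k, hk⟩ := exists_le_Lam_pow (c * (4 * (3 + Real.log N) ^ 2))
  refine ⟨C + 11 + k, fun σ ε e he q δ L w R hq hδ hL hw hR hRs => ?_⟩
  classical
  have hq0 : 0 < q := by omega
  have hqR : (0 : ℝ) < q := by exact_mod_cast hq0
  have hδ0 : 0 < δ := Nat.pos_of_dvd_of_pos hδ hq0
  have hQ : 1 ≤ q / δ := Nat.div_pos (Nat.le_of_dvd hq0 hδ) hδ0
  have hl1 := one_le_log hq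
  have hΛ0 := Lam_pos hq
  have hm0 := Real.log_nonneg hL
  have hlΛ := log_le_Lam hq
  have hc' := hc q δ
  set l := Real.log q with hl
  set H₀ := ⌊2 * l ^ 2 * N * (q : ℝ) ^ 2⌋₊ with hH₀
  set s := (Icc 1 H₀).filter (q / δ ∣ ·) with hs
  set S : ℕ → Set (ℝ × ℝ) := fun h => R ∩ {p | (h : ℝ) ≤ 2 * l ^ 2 * N * Real.exp (-p.2)} with hS
  set G : ℕ → ℝ × ℝ → ℂ := fun h p => w h * Psi Φ σ ε (e * h) p.1 p.2 with hG
  have hq2 : Real.exp (2 * l) = (q : ℝ) ^ 2 := by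
    rw [show 2 * l = (2 : ℕ) * l by norm_num, Real.exp_nat_mul, Real.exp_log hqR]
  have mS : ∀ h, MeasurableSet (S h) := fun h =>
    hR.inter (measurableSet_le measurable_const (by fun_prop))
  have hGi : ∀ h, Integrable ((S h).indicator (G h)) := fun h => by
    rw [integrable_indicator_iff (mS h)]
    obtain ⟨-, -, h1, h2, -⟩ := hCt N Φ σ ε q 1
    refine Measure.integrableOn_of_bounded (M := Φ.K ^ 2)
      (vol_lt (Set.inter_subset_left.trans (region_sub (by linarith) hL hRs)))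
      (continuous_const.mul (h1 _)).aestronglyMeasurable (Eventually.of_forall fun p => ?_)
    rw [norm_mul]
    exact (mul_le_of_le_one_left (norm_nonneg _) (hw h)).trans ((h2 _ _).2.2.1 _)
  have e1 : ∀ p ∈ R, ∑ h ∈ (Icc 1 ⌊2 * l ^ 2 * N * Real.exp (-p.2)⌋₊).filter (q / δ ∣ ·), G h p =
      ∑ h ∈ s, (S h).indicator (G h) p := by
    intro p hp
    obtain ⟨h1, h2, h3, h4⟩ := hRs hp
    have h5 : 2 * l ^ 2 * N * Real.exp (-p.2) ≤ 2 * l ^ 2 * N * (q : ℝ) ^ 2 := by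
      rw [← hq2]; gcongr; linarith
    simp only [Set.indicator_apply]
    rw [← sum_filter]
    refine sum_congr ?_ fun _ _ => rfl
    ext h
    simp only [hs, hS, mem_filter, mem_Icc, Set.mem_inter_iff, Set.mem_ofPred_eq, hH₀,
      Nat.le_floor_iff (show 0 ≤ 2 * l ^ 2 * N * Real.exp (-p.2) by positivity),
      Nat.le_floor_iff (show 0 ≤ 2 * l ^ 2 * N * (q : ℝ) ^ 2 by positivity)]
    constructor
    · rintro ⟨⟨a, b⟩, d⟩; exact ⟨⟨⟨a, b.trans h5⟩, d⟩, hp, b⟩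
    · rintro ⟨⟨⟨a, -⟩, d⟩, -, b⟩; exact ⟨⟨a, b⟩, d⟩
  have hsum : Integrable fun p => ∑ h ∈ s, (S h).indicator (G h) p :=
    integrable_finsetSum _ fun h _ => hGi h
  refine ⟨hsum.integrableOn.congr_fun (fun p hp => (e1 p hp).symm) hR, ?_⟩
  rw [setIntegral_congr_fun hR e1, setIntegral_eq_integral_of_forall_compl_eq_zero
    (fun p hp => sum_eq_zero fun h _ => Set.indicator_of_notMem (fun h' => hp h'.1) _),
    integral_finsetSum _ fun h _ => hGi h]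
  set a : ℕ → ℝ × ℝ := fun h => (Real.log (h / N), Real.log (h / N)) with ha
  rw [sum_congr rfl fun h _ => (integral_sub_right_eq_self ((S h).indicator (G h)) (a h)).symm,
    ← integral_finsetSum _ fun h _ => (hGi h).comp_sub_right (a h)]
  have key : ∀ (t : ℝ × ℝ) (h : ℕ), h ∈ s → t - a h ∈ S h →
      t.2 ≤ t.1 ∧ t.1 - t.2 ≤ l - 2 * Real.log L ∧ Real.exp t.2 ≤ 2 * l ^ 2 ∧
      1 / (N * (q : ℝ) ^ 2) ≤ Real.exp t.2 ∧ (h : ℝ) ≤ N * q * Real.exp ((t.1 + t.2) / 2) := by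
    rintro t h hh ⟨hp, h5⟩
    obtain ⟨h1, h2, h3, h4⟩ := hRs hp
    have hh1 : (1 : ℝ) ≤ h := by exact_mod_cast (mem_Icc.1 (mem_filter.1 hh).1).1
    have hx : Real.exp (Real.log (h / N)) = h / N := Real.exp_log (by positivity)
    simp only [ha, Prod.fst_sub, Prod.snd_sub, Set.mem_ofPred_eq] at h1 h2 h3 h4 h5
    refine ⟨by linarith, by linarith, ?_, ?_, ?_⟩
    · rw [neg_sub, Real.exp_sub, hx] at h5
      have e2 : 2 * l ^ 2 * N * (h / N / Real.exp t.2) = h * (2 * l ^ 2 / Real.exp t.2) := by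
        field_simp
      rw [e2, le_mul_iff_one_le_right (by linarith), one_le_div (Real.exp_pos _)] at h5
      exact h5
    · calc _ ≤ h / N / (q : ℝ) ^ 2 := by rw [div_div]; gcongr
        _ = Real.exp (Real.log (h / N) - 2 * l) := by rw [Real.exp_sub, hx, hq2]
        _ ≤ _ := Real.exp_le_exp.2 (by linarith)
    · calc (h : ℝ) = N * Real.exp (Real.log (h / N)) := by rw [hx]; field_simp
        _ ≤ N * Real.exp (l + (t.1 + t.2) / 2) := by gcongr; linarith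
        _ = _ := by rw [Real.exp_add, Real.exp_log hqR]; ring
  set Box : Set (ℝ × ℝ) :=
    {p | |p.1 + 0| ≤ (3 + Real.log N) * l ∧ |p.2 + 0| ≤ (3 + Real.log N) * l} with hBox
  have hB0 : 0 ≤ c * Lam q ^ (C + 9) * δ / Real.sqrt L := by positivity
  have hout : ∀ t, t ∉ Box → ∑ h ∈ s, (S h).indicator (G h) (t - a h) = 0 := by
    refine fun t ht => sum_eq_zero fun h hh => Set.indicator_of_notMem (fun h' => ht ?_) _
    obtain ⟨h1, h2, h3, h4, -⟩ := key t h hh h'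
    have b1 : t.2 ≤ 2 * l := by
      rw [← Real.exp_le_exp]
      have := Real.quadratic_le_exp_of_nonneg (x := 2 * l) (by linarith)
      nlinarith
    have b2 : -(Real.log N + 2 * l) ≤ t.2 := by
      rw [← Real.exp_le_exp, Real.exp_neg, Real.exp_add, Real.exp_log (by positivity), hq2,
        ← one_div]
      exact h4
    have b3 : Real.log N ≤ Real.log N * l := le_mul_of_one_le_right hlN hl1
    exact ⟨abs_le.2 ⟨by linarith, by linarith⟩, abs_le.2 ⟨by linarith, by linarith⟩⟩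
  rw [← setIntegral_eq_integral_of_forall_compl_eq_zero hout]
  refine (norm_integral_window (by positivity) hB0 subset_rfl fun t _ => ?_).trans ?_
  · by_cases hex : ∃ h ∈ s, t - a h ∈ S h
    swap
    · push Not at hex
      rw [sum_eq_zero fun h hh => Set.indicator_of_notMem (hex h hh) _, norm_zero]; exact hB0
    obtain ⟨h₀, hh₀, hh₀'⟩ := hex
    obtain ⟨h1, h2, h3, h4, -⟩ := key t h₀ hh₀ hh₀'
    set H := min H₀ ⌊N * q * Real.exp ((t.1 + t.2) / 2)⌋₊ with hH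
    have e2 : ∑ h ∈ s, (S h).indicator (G h) (t - a h) =
        ∑ h ∈ (Icc 1 H).filter (q / δ ∣ ·), (if t - a h ∈ S h then w h else 0) *
          Psi Φ σ ε (e * h) (t.1 - Real.log (h / N)) (t.2 - Real.log (h / N)) := by
      symm
      refine sum_subset_zero_on_sdiff (fun h hh => ?_) (fun h hh => ?_) fun h _ => ?_
      · rw [mem_filter, mem_Icc] at hh ⊢
        exact ⟨⟨hh.1.1, hh.1.2.trans (min_le_left _ _)⟩, hh.2⟩
      · obtain ⟨b1, b2⟩ := mem_sdiff.1 hh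
        refine Set.indicator_of_notMem (fun h' => b2 ?_) _
        have b3 := (key t h b1 h').2.2.2.2
        rw [mem_filter, mem_Icc] at b1 ⊢
        exact ⟨⟨b1.1.1, le_min b1.1.2 (Nat.le_floor b3)⟩, b1.2⟩
      · rw [Set.indicator_apply]; split_ifs <;> simp [hG, ha]
    rw [e2]
    refine le_of_sq_le_sq ((hC σ ε e he t.1 t.2 (q / δ) H _ h1 hQ fun h => ?_).trans
      (hc' H L t.1 t.2 hq hδ hL h1 h2 h3 h4 ?_ ?_)) hB0
    · split_ifs
      · exact hw h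
      · simp
    · exact (Nat.cast_le.2 (min_le_left _ _)).trans (Nat.floor_le (by positivity))
    · exact (Nat.cast_le.2 (min_le_right _ _)).trans (Nat.floor_le (by positivity))
  · calc _ = c * (4 * (3 + Real.log N) ^ 2) * (Lam q ^ (C + 9) * l ^ 2) * δ / Real.sqrt L := by ring
      _ ≤ Lam q ^ k * (Lam q ^ (C + 9) * Lam q ^ 2) * δ / Real.sqrt L := by
          gcongr; exact hk q hq
      _ = _ := by ring

open T2 in
theorem t2 (hCt : S_Ct) (ha : S_T2a) (hc : S_T2c) : S_T2 := by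
  intro N Φ
  obtain ⟨C₁, h₁⟩ := ha N Φ
  obtain ⟨C₂, h₂⟩ := hc N Φ
  obtain ⟨k, hk⟩ := exists_le_Lam_pow (16 * |C₁| + 2)
  refine ⟨C₂ + 2 + k, fun σ ε q ρ L R hq hρ hL hLq hR hRs => ?_⟩
  obtain ⟨θ, hθ, hp⟩ := h₁ σ ε q ρ hq hρ
  have hq0 : 0 < q := by omega
  have hqR : (0 : ℝ) < q := by exact_mod_cast hq0
  have hl1 := one_le_log hq
  have hΛ0 := Lam_pos hq
  have hΛ1 := one_le_Lam hq
  have hτ1 := one_le_tau hq0
  have hτΛ := tau_le_Lam hq
  have hm0 := Real.log_nonneg hL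
  have hsL : 0 < Real.sqrt L := Real.sqrt_pos.2 (by linarith)
  have hbox := region_sub (by linarith) hL hRs
  obtain ⟨c1, -, c2, c3, -⟩ := hCt N Φ σ ε q ρ
  have i1 : IntegrableOn (fun p : ℝ × ℝ => Cor Φ σ ε q ρ p.1 p.2) R :=
    Measure.integrableOn_of_bounded (vol_lt hbox) c1.aestronglyMeasurable
      (Eventually.of_forall fun p => (c3 _ _).1)
  have i2 : IntegrableOn (fun p : ℝ × ℝ => Psi Φ σ ε 0 p.1 p.2) R :=
    Measure.integrableOn_of_bounded (vol_lt hbox) (c2 0).aestronglyMeasurable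
      (Eventually.of_forall fun p => (c3 _ _).2.2.1 0)
  set F : ℤ → ℕ → ℝ × ℝ → ℂ := fun e δ p =>
    ∑ h ∈ (Icc 1 ⌊2 * Real.log q ^ 2 * N * Real.exp (-p.2)⌋₊).filter (q / δ ∣ ·),
      θ δ (e * h) * Psi Φ σ ε (e * h) p.1 p.2 with hF
  have hFi : ∀ e, (e = 1 ∨ e = -1) → ∀ δ ∈ q.divisors, IntegrableOn (F e δ) R ∧
      ‖∫ p in R, F e δ p‖ ≤ Lam q ^ (C₂ + 1) / Real.sqrt L := by
    intro e he δ hδ
    have hδ' := Nat.dvd_of_mem_divisors hδ
    have hδ0 : (0 : ℝ) < δ := by exact_mod_cast Nat.pos_of_mem_divisors hδ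
    have hx : 0 < tau q / δ := by positivity
    obtain ⟨j1, j2⟩ := h₂ σ ε e he q δ L (fun h => θ δ (e * h) / ((tau q / δ : ℝ) : ℂ)) R hq hδ' hL
      (fun h => by
        rw [norm_div, Complex.norm_real, Real.norm_eq_abs, abs_of_pos hx, div_le_one hx]
        exact hθ _ _) hR hRs
    have e1 : F e δ = fun p => ((tau q / δ : ℝ) : ℂ) *
        ∑ h ∈ (Icc 1 ⌊2 * Real.log q ^ 2 * N * Real.exp (-p.2)⌋₊).filter (q / δ ∣ ·),
          θ δ (e * h) / ((tau q / δ : ℝ) : ℂ) * Psi Φ σ ε (e * h) p.1 p.2 := by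
      ext p
      have : ((tau q / δ : ℝ) : ℂ) ≠ 0 := by exact_mod_cast hx.ne'
      rw [mul_sum]
      refine sum_congr rfl fun h _ => ?_
      field_simp
    rw [e1]
    refine ⟨j1.const_mul _, ?_⟩
    rw [integral_const_mul, norm_mul, Complex.norm_real, Real.norm_eq_abs, abs_of_pos hx]
    calc _ ≤ Lam q / δ * (Lam q ^ C₂ * δ / Real.sqrt L) := by gcongr
      _ = _ := by field_simp; ring
  have i3 : ∀ δ ∈ q.divisors, IntegrableOn (fun p => F 1 δ p + F (-1) δ p) R := fun δ hδ =>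
    (hFi 1 (Or.inl rfl) δ hδ).1.add (hFi (-1) (Or.inr rfl) δ hδ).1
  have b1 : ‖∫ p in R, (Cor Φ σ ε q ρ p.1 p.2 - Psi Φ σ ε 0 p.1 p.2 -
      ∑ δ ∈ q.divisors, (F 1 δ p + F (-1) δ p))‖ ≤ |C₁| / q * (4 * (2 * Real.log q) ^ 2) := by
    refine norm_integral_window (by linarith) (by positivity) hbox fun p hp' => ?_
    obtain ⟨h1, h2, h3, h4⟩ := hRs hp'
    refine le_trans (le_of_eq ?_) ((hp p.1 p.2 h1 (by linarith)).trans
      (by gcongr; exact le_abs_self _))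
    simp only [hF, one_mul, neg_mul, sum_add_distrib]
  have b2 : ‖∫ p in R, ∑ δ ∈ q.divisors, (F 1 δ p + F (-1) δ p)‖ ≤
      2 * Lam q ^ (C₂ + 2) / Real.sqrt L := by
    rw [integral_finsetSum _ i3]
    refine (norm_sum_le _ _).trans ?_
    calc _ ≤ ∑ _δ ∈ q.divisors, 2 * (Lam q ^ (C₂ + 1) / Real.sqrt L) := by
          refine sum_le_sum fun δ hδ => ?_
          rw [integral_add (hFi 1 (Or.inl rfl) δ hδ).1 (hFi (-1) (Or.inr rfl) δ hδ).1]
          refine (norm_add_le _ _).trans ?_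
          linarith [(hFi 1 (Or.inl rfl) δ hδ).2, (hFi (-1) (Or.inr rfl) δ hδ).2]
      _ = tau q * (2 * (Lam q ^ (C₂ + 1) / Real.sqrt L)) := by
          rw [sum_const, nsmul_eq_mul]; rfl
      _ ≤ Lam q * (2 * (Lam q ^ (C₂ + 1) / Real.sqrt L)) := by gcongr
      _ = _ := by ring
  have i4 : IntegrableOn (fun p : ℝ × ℝ => Cor Φ σ ε q ρ p.1 p.2 - Psi Φ σ ε 0 p.1 p.2) R :=
    i1.sub i2
  rw [integral_sub i4 (integrable_finsetSum _ i3), integral_sub i1 i2] at b1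
  have b3 : |C₁| / q * (4 * (2 * Real.log q) ^ 2) ≤ 16 * |C₁| * Lam q ^ (C₂ + 2) / Real.sqrt L := by
    have : Real.sqrt L ≤ q := (Real.sqrt_le_self_iff.2 (Or.inr hL)).trans hLq
    calc _ = 16 * |C₁| * Real.log q ^ 2 / q := by ring
      _ ≤ _ := by
        gcongr
        exact (pow_le_pow_left₀ (by linarith) (log_le_Lam hq) 2).trans (Lam_pow_mono hq (by omega))
  calc _ ≤ _ := norm_le_norm_sub_add _ (∫ p in R, ∑ δ ∈ q.divisors, (F 1 δ p + F (-1) δ p))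
    _ ≤ 16 * |C₁| * Lam q ^ (C₂ + 2) / Real.sqrt L + 2 * Lam q ^ (C₂ + 2) / Real.sqrt L :=
        add_le_add (b1.trans b3) b2
    _ = (16 * |C₁| + 2) * Lam q ^ (C₂ + 2) / Real.sqrt L := by ring
    _ ≤ Lam q ^ k * Lam q ^ (C₂ + 2) / Real.sqrt L := by gcongr; exact hk q hq
    _ = _ := by ring

end MR
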