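import Pool.Agent.P.MP_79de8b_nt.Basic

/-! Expansion of the correlation in shifted sums (package T2a of MP_79de8b_nt). -/

open Complex UpperHalfPlane MeasureTheory Finset CongruenceSubgroup Filter Topology
open scoped Real MatrixGroups ComplexConjugate

noncomputable section
namespace MR.T2a

/-- Fourier coefficient of a function of period `N`. -/
def fc (N : ℕ) (T : ℝ → ℂ) (h : ℤ) : ℂ := (∫ x in (0 : ℝ)..N, T x * ex (-(h * x / N))) / N

lemma fc_poly {ι : Type*} {N : ℕ} (hN : 0 < N) (s : Finset ι) (c : ι → ℂ) (k : ι → ℤ) (h : ℤ) :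
    fc N (fun x => ∑ i ∈ s, c i * ex (k i * x / N)) h = ∑ i ∈ s, if k i = h then c i else 0 := by
  have hN' : (N : ℝ) ≠ 0 := by positivity
  have hN2 : (N : ℂ) ≠ 0 := by exact_mod_cast hN.ne'
  have e : ∀ x : ℝ, (∑ i ∈ s, c i * ex (k i * x / N)) * ex (-(h * x / N)) =
      ∑ i ∈ s, c i * ex (((k i - h : ℤ) : ℝ) * x / N) := fun x => by
    rw [sum_mul]
    refine sum_congr rfl fun i _ => ?_
    rw [mul_assoc, ← ex_add]; congr 2; push_cast; ring
  unfold fc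
  simp_rw [e]
  rw [intervalIntegral.integral_finsetSum fun i _ =>
    Continuous.intervalIntegrable (by fun_prop) _ _, sum_div]
  refine sum_congr rfl fun i _ => ?_
  rw [intervalIntegral.integral_const_mul, integral_ex hN']
  by_cases hk : k i = h
  · simp [hk, hN2]
  · simp [hk, sub_eq_zero]

lemma poly_eq {ι : Type*} {N : ℕ} (hN : 0 < N) (s : Finset ι) (c : ι → ℂ) (k : ι → ℤ) (H : ℕ)
    (hk : ∀ i ∈ s, k i ∈ Icc (-(H : ℤ)) H) (x : ℝ) :
    ∑ i ∈ s, c i * ex (k i * x / N) = ∑ h ∈ Icc (-(H : ℤ)) H,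
      fc N (fun x => ∑ i ∈ s, c i * ex (k i * x / N)) h * ex (h * x / N) := by
  simp_rw [fc_poly hN, sum_mul]
  rw [sum_comm]
  refine sum_congr rfl fun i hi => ?_
  simp_rw [ite_mul, zero_mul]
  rw [sum_ite_eq, if_pos (hk i hi)]

lemma norm_fc_sub {N : ℕ} (hN : 0 < N) {F T : ℝ → ℂ} (hF : Continuous F) (hT : Continuous T)
    {E : ℝ} (hE : ∀ x, ‖F x - T x‖ ≤ E) (h : ℤ) : ‖fc N T h - fc N F h‖ ≤ E := by
  have hN' : (0 : ℝ) < N := by positivity
  unfold fc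
  rw [← sub_div, ← intervalIntegral.integral_sub (Continuous.intervalIntegrable (by fun_prop) _ _)
    (Continuous.intervalIntegrable (by fun_prop) _ _), norm_div, Complex.norm_natCast,
    div_le_iff₀ hN']
  refine (intervalIntegral.norm_integral_le_of_norm_le_const (C := E) fun x _ => ?_).trans ?_
  · rw [← sub_mul, norm_mul, norm_ex, mul_one, norm_sub_rev]; exact hE x
  · rw [sub_zero, abs_of_pos hN']

lemma sum_sym (f : ℤ → ℂ) (H : ℕ) :
    ∑ h ∈ Icc (-(H : ℤ)) H, f h = f 0 + ∑ h ∈ Icc 1 H, (f h + f (-h)) := by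
  induction H with
  | zero => simp
  | succ H ih =>
    rw [sum_Icc_succ_top (by omega), ← add_assoc, ← ih]
    have e : Icc (-((H + 1 : ℕ) : ℤ)) ((H + 1 : ℕ) : ℤ) =
        insert ((H + 1 : ℕ) : ℤ) (insert (-((H + 1 : ℕ) : ℤ)) (Icc (-(H : ℤ)) H)) := by
      ext t; simp only [mem_Icc, mem_insert]; push_cast; omega
    rw [e, sum_insert (by simp only [mem_Icc, mem_insert]; push_cast; omega),
      sum_insert (by simp only [mem_Icc]; push_cast; omega)]
    ring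

/-- The abstract expansion. -/
lemma expand {ι : Type*} {N q : ℕ} (hN : 0 < N) (U : Finset ℕ) (hU : U.Nonempty) (s : Finset ι)
    (c : ι → ℂ) (k : ι → ℤ) (H : ℕ) (hk : ∀ i ∈ s, k i ∈ Icc (-(H : ℤ)) H) {F : ℝ → ℂ}
    (hF : Continuous F) {E : ℝ} (hE : ∀ x, ‖F x - ∑ i ∈ s, c i * ex (k i * x / N)‖ ≤ E) :
    ‖av U (fun x => F (x / q)) - fc N F 0 - ∑ h ∈ Icc 1 H,
      (av U (fun x => ex ((h : ℤ) * x / (q * N))) * fc N F h +
        av U (fun x => ex ((-h : ℤ) * x / (q * N))) * fc N F (-h))‖ ≤ (2 * H + 2) * E := by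
  set T : ℝ → ℂ := fun x => ∑ i ∈ s, c i * ex (k i * x / N) with hT
  set W : ℤ → ℂ := fun h => av U (fun x => ex (h * x / (q * N))) with hW
  have E0 : 0 ≤ E := (norm_nonneg _).trans (hE 0)
  have W0 : W 0 = 1 := by simp [hW, av_const hU]
  have W1 : ∀ h, ‖W h‖ ≤ 1 := fun h => norm_av_le zero_le_one fun x _ => (norm_ex _).le
  have h1 : av U (fun x => T (x / q)) = ∑ h ∈ Icc (-(H : ℤ)) H, W h * fc N T h := by
    have : ∀ x : ℕ, T (x / q) = ∑ h ∈ Icc (-(H : ℤ)) H, fc N T h * ex (h * x / (q * N)) := by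
      intro x
      rw [hT]; simp only []
      rw [poly_eq hN s c k H hk]
      refine sum_congr rfl fun h _ => ?_
      congr 2; rw [← div_div, mul_div_assoc, mul_div_assoc, mul_div_assoc]
    simp_rw [this]
    rw [av_sum]
    refine sum_congr rfl fun h _ => ?_
    rw [av_const_mul, mul_comm]
  have h2 := sum_sym (fun h => W h * fc N F h) H
  simp only [W0, one_mul] at h2
  have h3 : av U (fun x => F (x / q)) - fc N F 0 - ∑ h ∈ Icc 1 H,
      (W h * fc N F h + W (-h) * fc N F (-h)) = av U (fun x => F (x / q) - T (x / q)) +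
        ∑ h ∈ Icc (-(H : ℤ)) H, W h * (fc N T h - fc N F h) := by
    simp_rw [mul_sub]
    rw [sum_sub_distrib, av_sub, h1, h2]; ring
  show ‖av U (fun x => F (x / q)) - fc N F 0 - ∑ h ∈ Icc 1 H,
      (W h * fc N F h + W (-h) * fc N F (-h))‖ ≤ _
  rw [h3]
  refine (norm_add_le _ _).trans ?_
  have h4 : ‖av U (fun x => F (x / q) - T (x / q))‖ ≤ E := norm_av_le E0 fun x _ => hE _
  have h5 : ‖∑ h ∈ Icc (-(H : ℤ)) H, W h * (fc N T h - fc N F h)‖ ≤ (2 * H + 1) * E := by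
    refine (norm_sum_le _ _).trans ?_
    calc _ ≤ ∑ _h ∈ Icc (-(H : ℤ)) H, E := sum_le_sum fun h _ => by
          rw [norm_mul]
          calc _ ≤ 1 * E := mul_le_mul (W1 h)
                (norm_fc_sub hN hF (by fun_prop) hE h) (norm_nonneg _) zero_le_one
            _ = E := one_mul _
      _ = _ := by
          rw [sum_const, nsmul_eq_mul, Int.card_Icc]
          congr 1
          rw [show (H : ℤ) + 1 - -(H : ℤ) = ((2 * H + 1 : ℕ) : ℤ) by push_cast; ring,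
            Int.toNat_natCast]
          push_cast; ring
  linarith

lemma norm_prod_sub (ε : Bool) {a b a' b' : ℂ} {K e : ℝ} (ha : ‖a‖ ≤ K) (hb : ‖b‖ ≤ K)
    (h1 : ‖a - a'‖ ≤ e) (h2 : ‖b - b'‖ ≤ e) :
    ‖a * cj ε b - a' * cj ε b'‖ ≤ e * (2 * K + e) := by
  have e0 : 0 ≤ e := (norm_nonneg _).trans h1
  have K0 : 0 ≤ K := (norm_nonneg _).trans ha
  have h3 : ‖a'‖ ≤ K + e := by
    have := norm_sub_le a (a - a')
    rw [sub_sub_cancel] at this; linarith
  have e1 : a * cj ε b - a' * cj ε b' = (a - a') * cj ε b + a' * cj ε (b - b') := by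
    rw [cj_sub]; ring
  rw [e1]
  refine (norm_add_le _ _).trans ?_
  rw [norm_mul, norm_mul, norm_cj, norm_cj]
  calc _ ≤ e * K + (K + e) * e := by gcongr
    _ = _ := by ring

lemma prod_poly (ε : Bool) (N M : ℕ) (α β : ℕ → ℂ) (x : ℝ) :
    (∑ n ∈ Icc 1 M, α n * ex (n * x / N)) * cj ε (∑ n ∈ Icc 1 M, β n * ex (n * x / N)) =
      ∑ i ∈ Icc 1 M ×ˢ Icc 1 M, (α i.1 * cj ε (β i.2)) *
        ex (((i.1 : ℤ) - sg ε * i.2 : ℤ) * x / N) := by
  rw [cj_sum, sum_mul_sum, sum_product]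
  refine sum_congr rfl fun n _ => sum_congr rfl fun m _ => ?_
  rw [cj_mul, cj_ex, mul_mul_mul_comm, ← ex_add]
  congr 2; push_cast; ring

end MR.T2a

namespace MR
open T2a

theorem t2a (hA1 : S_A1) (hAv : S_Av) (hSer : S_Ser) (hTr : S_Tr) : S_T2a := by
  intro N Φ
  have hN := Φ.pos
  have hK := Φ.one_le
  obtain ⟨C₀, C0, hC⟩ := hTr N Φ.K
  refine ⟨(4 * N + 2) * (C₀ * (2 * Φ.K + C₀)), fun σ ε q ρ hq hρ => ?_⟩
  have q0 : 0 < q := by omega
  have q1 : (1 : ℝ) ≤ q := by exact_mod_cast q0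
  obtain ⟨-, hcard, -, ⟨x₀, hx₀⟩, -⟩ := hAv N q ρ hN q0 hρ
  have hφ : 0 < q.totient := Nat.totient_pos.2 q0
  have hU : (UU N q ρ).Nonempty := card_pos.1 (hφ.trans_le hcard)
  have hU' : (0 : ℝ) < (UU N q ρ).card := by exact_mod_cast hU.card_pos
  set θ : ℕ → ℤ → ℂ := fun δ h => if δ.Coprime N then (ArithmeticFunction.moebius δ : ℂ) *
    (((q / δ : ℕ) : ℂ) * ex (h * x₀ δ / (q * N))) / (UU N q ρ).card else 0 with hθ
  refine ⟨θ, fun δ h => ?_, fun u u' hu hu' => ?_⟩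
  · have t0 := tau_nonneg q
    rw [hθ]; simp only []
    split_ifs
    · rw [norm_div, norm_mul, norm_mul, norm_ex, mul_one, Complex.norm_natCast,
        Complex.norm_natCast, Complex.norm_intCast, div_le_iff₀ hU']
      have m1 : |((ArithmeticFunction.moebius δ : ℤ) : ℝ)| ≤ 1 := by
        exact_mod_cast ArithmeticFunction.abs_moebius_le_one
      have m2 : (q : ℝ) ≤ tau q * (UU N q ρ).card :=
        (hA1.2.2.1 q q0).2.2.trans (by gcongr)
      calc _ ≤ 1 * ((q : ℝ) / δ) := by gcongr; exact Nat.cast_div_le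
        _ ≤ 1 * (tau q * (UU N q ρ).card / δ) := by gcongr
        _ = _ := by ring
    · rw [norm_zero]; positivity
  have hW : ∀ h : ℤ, av (UU N q ρ) (fun x => ex (h * x / (q * N))) =
      ∑ δ ∈ q.divisors, if ((q / δ : ℕ) : ℤ) ∣ h then θ δ h else 0 := fun h => by
    unfold av
    rw [hx₀ h, sum_filter, sum_div]
    refine sum_congr rfl fun δ _ => ?_
    rw [hθ]; simp only []
    split_ifs <;> simp
  obtain ⟨-, hc, -, hb, -⟩ := hSer N Φ.K (Φ.b σ) (Φ.G σ) (Φ.ser σ)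
  have l1 := one_le_log hq
  set l := Real.log q with hl
  set y := l ^ 2 * N * Real.exp (-u') with hy
  have y0 : 0 ≤ y := by positivity
  have hH : 2 * l ^ 2 * N * Real.exp (-u') = 2 * y := by rw [hy]; ring
  rw [hH]
  set M := ⌊y⌋₊ with hM
  set H := ⌊2 * y⌋₊ with hHd
  have MH : 2 * M ≤ H := Nat.le_floor (by push_cast; linarith [Nat.floor_le y0])
  have yM : y ≤ M + 1 := (Nat.lt_floor_add_one y).le
  have t1 : ∀ x, ‖FF (Φ.G σ) x u - ∑ n ∈ Icc 1 M, cf N (Φ.b σ) u n * ex (n * x / N)‖ ≤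
      C₀ / (q : ℝ) ^ 5 := fun x =>
    hC _ _ (Φ.ser σ) q M x u hq (by linarith) (le_trans (by rw [hy]; gcongr) yM)
  have t2 : ∀ x, ‖FF (Φ.G σ) x u' - ∑ n ∈ Icc 1 M, cf N (Φ.b σ) u' n * ex (n * x / N)‖ ≤
      C₀ / (q : ℝ) ^ 5 := fun x => hC _ _ (Φ.ser σ) q M x u' hq (by linarith) yM
  have c1 : ∀ v, Continuous fun x => FF (Φ.G σ) x v := fun v =>
    hc.comp (continuous_id.prodMk continuous_const)
  have key := expand (q := q) hN (UU N q ρ) hU (Icc 1 M ×ˢ Icc 1 M)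
    (fun i => cf N (Φ.b σ) u i.1 * cj ε (cf N (Φ.b σ) u' i.2))
    (fun i => (i.1 : ℤ) - sg ε * i.2) H (fun i hi => by
      simp only [mem_product, mem_Icc] at hi ⊢
      rcases sg_eq ε with h | h <;> rw [h] <;> omega)
    (F := fun x => FF (Φ.G σ) x u * cj ε (FF (Φ.G σ) x u'))
    ((c1 u).mul ((continuous_cj ε).comp (c1 u')))
    (E := C₀ / (q : ℝ) ^ 5 * (2 * Φ.K + C₀ / (q : ℝ) ^ 5)) fun x => by
      rw [← prod_poly]
      exact norm_prod_sub ε (hb x u).1 (hb x u').1 (t1 x) (t2 x)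
  have e1 : ∑ δ ∈ q.divisors, ∑ h ∈ (Icc 1 H).filter (q / δ ∣ ·),
      (θ δ h * Psi Φ σ ε h u u' + θ δ (-h) * Psi Φ σ ε (-h) u u') = ∑ h ∈ Icc 1 H,
      (av (UU N q ρ) (fun x => ex ((h : ℤ) * x / (q * N))) * Psi Φ σ ε h u u' +
        av (UU N q ρ) (fun x => ex ((-h : ℤ) * x / (q * N))) * Psi Φ σ ε (-h) u u') := by
    simp_rw [hW, sum_filter, sum_mul, ← sum_add_distrib]
    rw [sum_comm]
    refine sum_congr rfl fun h _ => sum_congr rfl fun δ _ => ?_
    simp only [dvd_neg, Int.natCast_dvd_natCast]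
    split_ifs <;> simp
  rw [e1]
  refine le_trans key ?_
  have q5 : (1 : ℝ) ≤ (q : ℝ) ^ 5 := one_le_pow₀ q1
  have lq : l ≤ q := (Real.log_le_sub_one_of_pos (by positivity)).trans (by linarith)
  have eq : Real.exp (-u') ≤ (q : ℝ) ^ 2 := by
    calc _ ≤ Real.exp (2 * l) := by gcongr; linarith
      _ = _ := by
        rw [show 2 * l = ((2 : ℕ) : ℝ) * l by norm_num, Real.exp_nat_mul, hl,
          Real.exp_log (by positivity)]
  have hH2 : (2 * H + 2 : ℝ) ≤ (4 * N + 2) * (q : ℝ) ^ 4 := by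
    have a1 : (H : ℝ) ≤ 2 * y := Nat.floor_le (by positivity)
    have a2 : y ≤ (q : ℝ) ^ 2 * N * (q : ℝ) ^ 2 := by rw [hy]; gcongr
    have a3 : (1 : ℝ) ≤ (q : ℝ) ^ 4 := one_le_pow₀ q1
    nlinarith
  calc _ ≤ (4 * N + 2) * (q : ℝ) ^ 4 * (C₀ / (q : ℝ) ^ 5 * (2 * Φ.K + C₀)) := by
        gcongr; exact div_le_self C0 q5
    _ = _ := by field_simp

end MR
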