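import Pool.Agent.P.MP_79de8b_nt.Ms

/-! Unfolding of one double coset. -/

open Complex UpperHalfPlane MeasureTheory Finset CongruenceSubgroup Filter Topology
open scoped Real MatrixGroups ComplexConjugate ENNReal NNReal

noncomputable section
namespace MR.Unf

variable {A η₁ η₂ : ℝ} {θ : ℂ → ℝ → ℂ}

lemma cont_theta (hP : Prof A η₁ η₂ θ) : Continuous fun p : ℂ × ℝ => θ p.1 p.2 := by
  have h2 := hP.pos
  have h1 : 0 < η₁ := h2.trans_le hP.le
  have hA := hP.nn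
  refine (LipschitzWith.of_dist_le' (K := A * (1 / η₁ + 1 / η₂)) fun p q => ?_).continuous
  rw [dist_eq_norm]
  refine (hP.lip _ _ _ _).trans ?_
  have e1 : ‖p.1 - q.1‖ ≤ dist p q := by
    rw [← dist_eq_norm, Prod.dist_eq]; exact le_max_left _ _
  have e2 : |p.2 - q.2| ≤ dist p q := by
    rw [← Real.dist_eq, Prod.dist_eq]; exact le_max_right _ _
  calc A * (‖p.1 - q.1‖ / η₁ + |p.2 - q.2| / η₂) ≤ A * (dist p q / η₁ + dist p q / η₂) := by
        gcongr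
    _ = _ := by ring

lemma cont_ph (hP : Prof A η₁ η₂ θ) : Continuous fun p : ℂ × ℂ => ph θ p.1 p.2 := by
  unfold ph
  refine Continuous.mul (by fun_prop) ?_
  exact (cont_theta hP).comp
    (f := fun p : ℂ × ℂ => (p.1 - (p.2.re : ℂ), p.2.im)) (by fun_prop)

lemma meas_ph (hP : Prof A η₁ η₂ θ) {α : Type*} [MeasurableSpace α] {f g : α → ℂ}
    (hf : Measurable f) (hg : Measurable g) : Measurable fun a => ph θ (f a) (g a) :=
  (cont_ph hP).measurable.comp (hf.prodMk hg)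

lemma ph_add (z₁ z₂ : ℂ) (t : ℝ) : ph θ (z₁ + t) (z₂ + t) = ex (-t) * ph θ z₁ z₂ := by
  unfold ph
  have e : z₁ + t - ((z₂ + t).re : ℂ) = z₁ - z₂.re := by
    simp only [add_re, ofReal_re]; push_cast; ring
  rw [e, ← mul_assoc, ← ex_add]
  congr 2
  · simp only [add_re, ofReal_re]; ring
  · simp

lemma norm_ph (hP : Prof A η₁ η₂ θ) (z₁ z₂ : ℂ) : ‖ph θ z₁ z₂‖ ≤ A := by
  unfold ph; rw [norm_mul, norm_ex, one_mul]; exact hP.bd _ _

/-- The test function at frequency `h`, without the cut. -/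
def Ph (θ : ℂ → ℝ → ℂ) (h : ℕ) (z : HH) : ℂ := ph θ (h * (z.1 : ℂ)) (h * (z.2 : ℂ))

/-- The strip. -/
def St : Set HH := {z | 0 ≤ z.2.re ∧ z.2.re < 1}

lemma meas_re2 : Measurable fun z : HH => z.2.re :=
  UpperHalfPlane.continuous_re.measurable.comp measurable_snd

lemma meas_St : MeasurableSet St :=
  (measurableSet_le measurable_const meas_re2).inter (measurableSet_lt meas_re2 measurable_const)

lemma pt_eq (h : ℕ) (z : HH) : pt θ h z = St.indicator (Ph θ h) z := by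
  unfold pt Ph St; rw [Set.indicator_apply]; rfl

lemma Ph_T (h : ℕ) (k : ℤ) (z : HH) : Ph θ h (ModularGroup.T ^ k • z) = Ph θ h z := by
  unfold Ph
  rw [smul_HH]
  simp only [coe_T_zpow_smul]
  have e (w : ℂ) : (h : ℂ) * (w + k) = h * w + ((h * k : ℤ) : ℝ) := by push_cast; ring
  rw [e, e, ph_add, ← Int.cast_neg, ex_int, one_mul]

lemma meas_Ph (hP : Prof A η₁ η₂ θ) (h : ℕ) : Measurable (Ph θ h) :=
  meas_ph hP ((UpperHalfPlane.measurable_coe.comp measurable_fst).const_mul _)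
    ((UpperHalfPlane.measurable_coe.comp measurable_snd).const_mul _)

lemma T_mem (k : ℤ) (z : HH) : ModularGroup.T ^ k • z ∈ St ↔ k = -⌊z.2.re⌋ := by
  have e : (ModularGroup.T ^ k • z).2.re = z.2.re + k := by
    rw [smul_HH, ← UpperHalfPlane.coe_re, coe_T_zpow_smul]; simp
  unfold St
  rw [Set.mem_ofPred_eq, e, eq_comm, neg_eq_iff_eq_neg, Int.floor_eq_iff]
  push_cast
  constructor <;> rintro ⟨h1, h2⟩ <;> constructor <;> linarith

/-- Summation over the fibres of an integer valued function. -/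
lemma hasSum_fib {F : HH → ℂ} {s : Set HH} (hF : IntegrableOn F s) {k : HH → ℤ}
    (hk : Measurable k) (hs : MeasurableSet s) :
    HasSum (fun i : ℤ => ∫ z in s ∩ k ⁻¹' {i}, F z) (∫ z in s, F z) := by
  have e : s = ⋃ i : ℤ, s ∩ k ⁻¹' {i} := by
    ext z; simp
  have := hasSum_integral_iUnion (μ := volume) (f := F) (s := fun i : ℤ => s ∩ k ⁻¹' {i})
    (fun i => hs.inter (hk (measurableSet_singleton i)))
    (fun i j hij => Set.disjoint_left.2 fun z h1 h2 => hij (h1.2.symm.trans h2.2))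
    (by rwa [← e])
  rwa [← e] at this

/-- The integrand of `JJ`. -/
def GG (θ : ℂ → ℝ → ℂ) (X : ℝ) (z : HH) : ℂ :=
  ph θ z.1 z.2 * conj (ph θ (-X / (z.1 : ℂ)) (-X / (z.2 : ℂ)))

lemma int_GG (hP : Prof A η₁ η₂ θ) {X : ℝ} (hX : 0 < X) : Integrable (GG θ X) := by
  have h2 := hP.pos
  have h1 : 0 < η₁ := h2.trans_le hP.le
  have m1 : Measurable fun z : HH => (z.1 : ℂ) := UpperHalfPlane.measurable_coe.comp measurable_fst
  have m2 : Measurable fun z : HH => (z.2 : ℂ) := UpperHalfPlane.measurable_coe.comp measurable_snd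
  have hm : Measurable (GG θ X) :=
    (meas_ph hP m1 m2).mul (Complex.continuous_conj.measurable.comp
      (meas_ph hP (measurable_const.div m1) (measurable_const.div m2)))
  set B₁ := {z : ℍ | -(X + 1 + 2 * η₁) ≤ z.re ∧ z.re ≤ X + 1 + 2 * η₁ ∧ η₁ / 2 ≤ z.im ∧
    z.im ≤ 2 * η₁}
  set B₂ := {z : ℍ | -(X + 1) ≤ z.re ∧ z.re ≤ X + 1 ∧ η₂ / 2 ≤ z.im ∧ z.im ≤ 2 * η₂}
  have hfin : volume (B₁ ×ˢ B₂) ≠ ⊤ := by
    rw [Measure.volume_eq_prod, Measure.prod_prod, volume_box (by positivity) (by linarith),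
      volume_box (by positivity) (by linarith)]
    finiteness
  have hsup : Function.support (GG θ X) ⊆ B₁ ×ˢ B₂ := by
    intro z hz
    have ha : ph θ z.1 z.2 ≠ 0 := left_ne_zero_of_mul hz
    have hb : ph θ (-X / (z.1 : ℂ)) (-X / (z.2 : ℂ)) ≠ 0 := by
      have := right_ne_zero_of_mul hz
      simpa using this
    obtain ⟨a1, a2, a3, a4, a5⟩ := hP.supp _ _ (right_ne_zero_of_mul ha)
    obtain ⟨-, -, -, b4, -⟩ := hP.supp _ _ (right_ne_zero_of_mul hb)
    simp only [sub_im, ofReal_im, sub_zero, sub_re, ofReal_re, UpperHalfPlane.coe_re,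
      UpperHalfPlane.coe_im] at a1 a2 a3 a4 a5
    have hy := z.2.im_pos
    have hn : 0 < normSq (z.2 : ℂ) := normSq_pos.2 z.2.ne_zero
    have e : (-X / (z.2 : ℂ)).im = X * z.2.im / normSq (z.2 : ℂ) := by
      rw [Complex.div_im]; simp; ring
    rw [e, le_div_iff₀ hn, normSq_apply] at b4
    simp only [UpperHalfPlane.coe_re, UpperHalfPlane.coe_im] at b4
    have h3 : z.2.re ^ 2 ≤ 4 * X := by
      have : η₂ / 2 * z.2.re ^ 2 ≤ η₂ / 2 * (4 * X) := by nlinarith [mul_pos hy hy]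
      exact le_of_mul_le_mul_left this (by positivity)
    obtain ⟨c1, c2⟩ := abs_le_of_sq_le_sq' (a := z.2.re) (b := X + 1)
      (by nlinarith [sq_nonneg (X - 1)]) (by positivity)
    obtain ⟨c3, c4⟩ := abs_le.1 a3
    exact ⟨⟨by linarith, by linarith, a1, a2⟩, c1, c2, a4, a5⟩
  rw [← integrableOn_iff_integrable_of_support_subset hsup]
  refine Measure.integrableOn_of_bounded (M := A * A) hfin hm.aestronglyMeasurable
    (Eventually.of_forall fun z => ?_)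
  unfold GG
  rw [norm_mul, Complex.norm_conj]
  exact mul_le_mul (norm_ph hP _ _) (norm_ph hP _ _) (norm_nonneg _) hP.nn

/-- The substitution `z = -d/c + z'/m`. -/
lemma subst {m n c : ℕ} (γ : SL(2, ℤ)) (hm : 1 ≤ m) (hc : 0 < c) (hγ : γ 1 0 = c) (w z : HH)
    (h1 : (w.1 : ℂ) = ((1 / m : ℝ) : ℂ) * z.1 + ((-(γ 1 1 : ℤ) / c : ℝ) : ℂ))
    (h2 : (w.2 : ℂ) = ((1 / m : ℝ) : ℂ) * z.2 + ((-(γ 1 1 : ℤ) / c : ℝ) : ℂ)) :
    Ph θ m w * conj (Ph θ n (γ • w)) =
      ex (((m * γ 1 1 + n * γ 0 0 : ℤ) : ℝ) / c) * GG θ ((m : ℝ) * n / (c : ℝ) ^ 2) z := by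
  have hm0 : (m : ℂ) ≠ 0 := by exact_mod_cast (by omega : m ≠ 0)
  have hc0 : (c : ℂ) ≠ 0 := by exact_mod_cast hc.ne'
  have hd : ((γ 0 0 : ℤ) : ℂ) * (γ 1 1 : ℤ) - (γ 0 1 : ℤ) * c = 1 := by
    have := det_sl γ
    rw [hγ] at this
    exact_mod_cast this
  have e1 (u v : ℍ) (h : (u : ℂ) = ((1 / m : ℝ) : ℂ) * v + ((-(γ 1 1 : ℤ) / c : ℝ) : ℂ)) :
      (m : ℂ) * u = v + ((-(m * (γ 1 1 : ℤ)) / c : ℝ) : ℂ) := by
    rw [h]; push_cast; field_simp
  have e2 (u v : ℍ) (h : (u : ℂ) = ((1 / m : ℝ) : ℂ) * v + ((-(γ 1 1 : ℤ) / c : ℝ) : ℂ)) :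
      (n : ℂ) * ((γ • u : ℍ) : ℂ) =
        -(((m : ℝ) * n / (c : ℝ) ^ 2 : ℝ) : ℂ) / v + ((n * (γ 0 0 : ℤ) / c : ℝ) : ℂ) := by
    have hv : (v : ℂ) ≠ 0 := v.ne_zero
    have e3 : ((γ 1 0 : ℤ) : ℂ) * u + (γ 1 1 : ℤ) = c * v / m := by
      rw [h, hγ]; push_cast; field_simp; ring
    have e4 : ((γ 0 0 : ℤ) : ℂ) * u + (γ 0 1 : ℤ) = (γ 0 0 : ℤ) * v / m - 1 / c := by
      rw [h]; push_cast; field_simp; linear_combination (-(m : ℂ)) * hd
    rw [coe_smul_sl, e3, e4]; push_cast; field_simp; ring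
  unfold Ph GG
  rw [smul_HH, e1 _ _ h1, e1 _ _ h2, e2 _ _ h1, e2 _ _ h2, ph_add, ph_add, map_mul, conj_ex,
    neg_neg]
  have e5 : ((m * γ 1 1 + n * γ 0 0 : ℤ) : ℝ) / c =
      -(-(m * (γ 1 1 : ℤ)) / c : ℝ) + (n * (γ 0 0 : ℤ) / c : ℝ) := by push_cast; ring
  rw [e5, ex_add]; ring

end MR.Unf

namespace MR
open MR.Unf

theorem unf : S_Unf := by
  intro A η₁ η₂ θ hP m n c γ hm hn hc hγ
  set F : HH → ℂ := fun w => Ph θ m w * conj (Ph θ n (γ • w)) with hF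
  have hFm : Measurable F := (meas_Ph hP m).mul (Complex.continuous_conj.measurable.comp
    ((meas_Ph hP n).comp (mp_HH γ).measurable))
  have hm' : (0 : ℝ) < 1 / m := by
    have : (0 : ℝ) < m := by exact_mod_cast hm
    positivity
  have hX : (0 : ℝ) < (m : ℝ) * n / (c : ℝ) ^ 2 := by
    have : (0 : ℝ) < m := by exact_mod_cast hm
    have : (0 : ℝ) < n := by exact_mod_cast hn
    have : (0 : ℝ) < c := by exact_mod_cast hc
    positivity
  have hφ := (mp_affine (-(γ 1 1 : ℤ) / c : ℝ) hm').prod (mp_affine (-(γ 1 1 : ℤ) / c : ℝ) hm')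
  rw [← Measure.volume_eq_prod] at hφ
  have hcomp : ∀ z : HH, F (Prod.map
      (fun z : ℍ => ofComplex (((1 / m : ℝ) : ℂ) * z + ((-(γ 1 1 : ℤ) / c : ℝ) : ℂ)))
      (fun z : ℍ => ofComplex (((1 / m : ℝ) : ℂ) * z + ((-(γ 1 1 : ℤ) / c : ℝ) : ℂ))) z) =
      ex (((m * γ 1 1 + n * γ 0 0 : ℤ) : ℝ) / c) * GG θ ((m : ℝ) * n / (c : ℝ) ^ 2) z :=
    fun z => subst γ hm hc hγ _ z (coe_affine _ hm' _) (coe_affine _ hm' _)
  have hFi : Integrable F := by
    rw [← hφ.integrable_comp hFm.aestronglyMeasurable]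
    exact ((int_GG hP hX).const_mul _).congr (Eventually.of_forall fun z => (hcomp z).symm)
  have hFv : ∫ z, F z =
      ex (((m * γ 1 1 + n * γ 0 0 : ℤ) : ℝ) / c) * JJ θ ((m : ℝ) * n / (c : ℝ) ^ 2) := by
    rw [← hφ.map_eq, integral_map hφ.measurable.aemeasurable hFm.aestronglyMeasurable]
    simp only [hcomp]
    rw [integral_const_mul]; rfl
  set k₁ : HH → ℤ := fun z => ⌊z.2.re⌋ with hk₁
  set k₂ : HH → ℤ := fun z => -⌊(γ • z).2.re⌋ with hk₂
  have mk₁ : Measurable k₁ := meas_re2.floor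
  have mk₂ : Measurable k₂ := (meas_re2.comp (mp_HH γ).measurable).floor.neg
  have hterm (j i : ℤ) : ∫ z : HH,
      pt θ m z * conj (pt θ n ((ModularGroup.T ^ i * γ * ModularGroup.T ^ j) • z)) =
      ∫ z in (Set.univ ∩ k₁ ⁻¹' {j}) ∩ k₂ ⁻¹' {i}, F z := by
    have hs : MeasurableSet ((Set.univ ∩ k₁ ⁻¹' {j}) ∩ k₂ ⁻¹' {i}) :=
      (MeasurableSet.univ.inter (mk₁ (measurableSet_singleton j))).inter
        (mk₂ (measurableSet_singleton i))
    rw [← integral_indicator hs, ← (mp_HH (ModularGroup.T ^ j)).map_eq,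
      integral_map (mp_HH _).measurable.aemeasurable (hFm.indicator hs).aestronglyMeasurable,
      (mp_HH (ModularGroup.T ^ j)).map_eq]
    refine integral_congr_ae (Eventually.of_forall fun z => ?_)
    have a1 : z ∈ St ↔ k₁ (ModularGroup.T ^ j • z) = j := by
      have := T_mem (-j) (ModularGroup.T ^ j • z)
      rw [smul_smul, ← zpow_add, neg_add_cancel, zpow_zero, one_smul, neg_inj, eq_comm] at this
      exact this
    have a2 : (ModularGroup.T ^ i * γ * ModularGroup.T ^ j) • z ∈ St ↔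
        k₂ (ModularGroup.T ^ j • z) = i := by
      rw [mul_smul, mul_smul, T_mem, eq_comm]
    have a3 : ModularGroup.T ^ j • z ∈ (Set.univ ∩ k₁ ⁻¹' {j}) ∩ k₂ ⁻¹' {i} ↔
        z ∈ St ∧ (ModularGroup.T ^ i * γ * ModularGroup.T ^ j) • z ∈ St := by
      rw [a1, a2]; simp
    simp only [pt_eq]
    by_cases b1 : z ∈ St
    · by_cases b2 : (ModularGroup.T ^ i * γ * ModularGroup.T ^ j) • z ∈ St
      · rw [Set.indicator_of_mem b1, Set.indicator_of_mem b2, Set.indicator_of_mem (a3.2 ⟨b1, b2⟩),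
          hF, mul_smul, mul_smul, Ph_T]
        simp only [Ph_T]
      · rw [Set.indicator_of_notMem b2, Set.indicator_of_notMem fun h => b2 (a3.1 h).2]; simp
    · rw [Set.indicator_of_notMem b1, Set.indicator_of_notMem fun h => b1 (a3.1 h).1]; simp
  simp only [hterm]
  have h1 (j : ℤ) := (hasSum_fib (s := Set.univ ∩ k₁ ⁻¹' {j}) hFi.integrableOn mk₂
    (MeasurableSet.univ.inter (mk₁ (measurableSet_singleton j)))).tsum_eq
  simp only [h1]
  rw [(hasSum_fib (s := Set.univ) hFi.integrableOn mk₁ MeasurableSet.univ).tsum_eq,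
    Measure.restrict_univ, hFv]

end MR
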