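import Pool.Agent.P.MP_79de8b_nt.Basic

/-! Van der Corput's second derivative test with a Lipschitz amplitude. -/

open Complex MeasureTheory Set intervalIntegral
open scoped Real

noncomputable section
namespace MR.VdC

variable {u v μ s : ℝ} {ψ ψ' ψ'' : ℝ → ℝ}

/-- The first derivative test. -/
lemma first (huv : u ≤ v) (hμ : 0 < μ) (hs : |s| = 1)
    (h1 : ∀ x ∈ Icc u v, HasDerivAt ψ (ψ' x) x) (h2 : ∀ x ∈ Icc u v, HasDerivAt ψ' (ψ'' x) x)
    (h3 : ContinuousOn ψ'' (Icc u v)) (h4 : ∀ x ∈ Icc u v, 0 ≤ s * ψ'' x)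
    (h5 : u = v ∨ ∀ x ∈ Icc u v, μ ≤ |ψ' x|) : ‖∫ x in u..v, ex (ψ x)‖ ≤ 1 / μ := by
  rcases h5 with rfl | h5
  · simp [hμ.le]
  have hI := uIcc_of_le huv
  have c1 : ContinuousOn ψ (Icc u v) := fun x hx => (h1 x hx).continuousAt.continuousWithinAt
  have c2 : ContinuousOn ψ' (Icc u v) := fun x hx => (h2 x hx).continuousAt.continuousWithinAt
  have n0 : ∀ x ∈ Icc u v, ψ' x ≠ 0 := fun x hx => abs_pos.1 (hμ.trans_le (h5 x hx))
  have c3 : ContinuousOn (fun x => -ψ'' x / ψ' x ^ 2) (Icc u v) :=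
    h3.neg.div (c2.pow 2) fun x hx => pow_ne_zero _ (n0 x hx)
  have c4 : ContinuousOn (fun x => ex (ψ x)) (Icc u v) := continuous_ex.comp_continuousOn c1
  have c5 : ContinuousOn (fun x => ex (ψ x) * ((-ψ'' x / ψ' x ^ 2 : ℝ) : ℂ)) (Icc u v) :=
    c4.mul (continuous_ofReal.comp_continuousOn c3)
  have d1 : ∀ x ∈ Icc u v, HasDerivAt (fun x => (ψ' x)⁻¹) (-ψ'' x / ψ' x ^ 2) x :=
    fun x hx => (h2 x hx).inv (n0 x hx)
  have e1 : ∫ x in u..v, (2 * π * I * ex (ψ x) + ex (ψ x) * ((-ψ'' x / ψ' x ^ 2 : ℝ) : ℂ)) =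
      ex (ψ v) * (((ψ' v)⁻¹ : ℝ) : ℂ) - ex (ψ u) * (((ψ' u)⁻¹ : ℝ) : ℂ) := by
    refine integral_eq_sub_of_hasDerivAt (f := fun x => ex (ψ x) * (((ψ' x)⁻¹ : ℝ) : ℂ))
      (fun x hx => ?_) (((continuousOn_const.mul c4).add c5).intervalIntegrable_of_Icc huv)
    rw [hI] at hx
    have := ((hasDerivAt_ex (ψ x)).scomp x (h1 x hx)).mul (d1 x hx).ofReal_comp
    refine this.congr_deriv ?_
    have : (ψ' x : ℂ) ≠ 0 := ofReal_ne_zero.2 (n0 x hx)
    simp only [real_smul, ofReal_inv, Function.comp]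
    field_simp
  have b1 : ∀ x ∈ Icc u v, |(ψ' x)⁻¹| ≤ 1 / μ := fun x hx => by
    rw [abs_inv, one_div]; exact inv_anti₀ hμ (h5 x hx)
  have b2 : ‖∫ x in u..v, ex (ψ x) * ((-ψ'' x / ψ' x ^ 2 : ℝ) : ℂ)‖ ≤ 2 * (1 / μ) := by
    have e2 : ∫ x in u..v, -s * (-ψ'' x / ψ' x ^ 2) = -s * (ψ' v)⁻¹ - -s * (ψ' u)⁻¹ :=
      integral_eq_sub_of_hasDerivAt (f := fun x => -s * (ψ' x)⁻¹)
        (fun x hx => (d1 x (hI ▸ hx)).const_mul _)
        ((continuousOn_const.mul c3).intervalIntegrable_of_Icc huv)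
    refine (norm_integral_le_of_norm_le huv (g := fun x => -s * (-ψ'' x / ψ' x ^ 2))
      (Filter.Eventually.of_forall fun x hx => ?_)
      ((continuousOn_const.mul c3).intervalIntegrable_of_Icc huv)).trans ?_
    · have := div_nonneg (h4 x ⟨hx.1.le, hx.2⟩) (sq_nonneg (ψ' x))
      rw [norm_mul, norm_ex, one_mul, norm_real, Real.norm_eq_abs, ← one_mul |_|, ← hs, ← abs_neg s,
        ← abs_mul, abs_of_nonneg (by convert this using 1; ring)]
    · rw [e2, ← mul_sub]
      refine (le_abs_self _).trans ?_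
      rw [abs_mul, abs_neg, hs, one_mul]
      exact (abs_sub _ _).trans (by
        linarith [b1 u (left_mem_Icc.2 huv), b1 v (right_mem_Icc.2 huv)])
  have b3 : ∀ x ∈ Icc u v, ‖ex (ψ x) * (((ψ' x)⁻¹ : ℝ) : ℂ)‖ ≤ 1 / μ := fun x hx => by
    rw [norm_mul, norm_ex, one_mul, norm_real]; exact b1 x hx
  rw [integral_add ((c4.intervalIntegrable_of_Icc huv).const_mul _)
    (c5.intervalIntegrable_of_Icc huv), intervalIntegral.integral_const_mul,
    ← eq_sub_iff_add_eq] at e1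
  have b4 := (norm_sub_le _ _).trans (add_le_add ((norm_sub_le _ _).trans
    (add_le_add (b3 v (right_mem_Icc.2 huv)) (b3 u (left_mem_Icc.2 huv)))) b2)
  rw [← e1, norm_mul, norm_mul, norm_mul, norm_I, norm_real, Real.norm_eq_abs,
    abs_of_pos Real.pi_pos, Complex.norm_ofNat] at b4
  nlinarith [Real.pi_gt_three, norm_nonneg (∫ x in u..v, ex (ψ x))]

/-- The second derivative test. -/
lemma second (huv : u ≤ v) (hμ : 0 < μ) (hs : |s| = 1)
    (h1 : ∀ x ∈ Icc u v, HasDerivAt ψ (ψ' x) x) (h2 : ∀ x ∈ Icc u v, HasDerivAt ψ' (ψ'' x) x)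
    (h3 : ContinuousOn ψ'' (Icc u v)) (h4 : ∀ x ∈ Icc u v, μ ^ 2 ≤ s * ψ'' x) :
    ‖∫ x in u..v, ex (ψ x)‖ ≤ 8 / μ := by
  have c1 : ContinuousOn ψ (Icc u v) := fun x hx => (h1 x hx).continuousAt.continuousWithinAt
  have c2 : ContinuousOn ψ' (Icc u v) := fun x hx => (h2 x hx).continuousAt.continuousWithinAt
  have c4 : ContinuousOn (fun x => ex (ψ x)) (Icc u v) := continuous_ex.comp_continuousOn c1
  obtain ⟨z, hz, hm⟩ := isCompact_Icc.exists_isMinOn (nonempty_Icc.2 huv) c2.abs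
  have mv : ∀ x ∈ Icc u v, ∀ y ∈ Icc u v, x + 2 / μ ≤ y → 2 * μ ≤ |ψ' x| + |ψ' y| :=
    fun x hx y hy hxy => by
    have := (convex_Icc u v).mul_sub_le_image_sub_of_le_deriv (f := fun x => s * ψ' x) (C := μ ^ 2)
      (continuousOn_const.mul c2)
      (fun t ht => ((h2 t (interior_subset ht)).const_mul s).differentiableAt.differentiableWithinAt)
      (fun t ht => by
        rw [((h2 t (interior_subset ht)).const_mul s).deriv]; exact h4 t (interior_subset ht))
      x hx y hy (by linarith [div_pos two_pos hμ])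
    calc 2 * μ = μ ^ 2 * (2 / μ) := by field_simp
      _ ≤ μ ^ 2 * (y - x) := by gcongr; linarith
      _ ≤ |s * (ψ' y - ψ' x)| := this.trans (by rw [← mul_sub]; exact le_abs_self _)
      _ ≤ _ := by rw [abs_mul, hs, one_mul, add_comm]; exact abs_sub _ _
  have p0 : 0 < 2 / μ := div_pos two_pos hμ
  have p1 : u ≤ max u (z - 2 / μ) := le_max_left _ _
  have p2 : max u (z - 2 / μ) ≤ z := max_le hz.1 (by linarith)
  have p3 : z ≤ min v (z + 2 / μ) := le_min hz.2 (by linarith)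
  have p4 : min v (z + 2 / μ) ≤ v := min_le_left _ _
  have s1 : Icc u (max u (z - 2 / μ)) ⊆ Icc u v := Icc_subset_Icc_right (p2.trans hz.2)
  have s2 : Icc (max u (z - 2 / μ)) (min v (z + 2 / μ)) ⊆ Icc u v := Icc_subset_Icc p1 p4
  have s3 : Icc (min v (z + 2 / μ)) v ⊆ Icc u v := Icc_subset_Icc_left (hz.1.trans p3)
  have b1 := first p1 hμ hs (fun x hx => h1 x (s1 hx)) (fun x hx => h2 x (s1 hx)) (h3.mono s1)
    (fun x hx => (sq_nonneg μ).trans (h4 x (s1 hx))) (by
      rcases max_choice u (z - 2 / μ) with e | e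
      · exact Or.inl e.symm
      refine Or.inr fun x hx => ?_
      have := mv x (s1 hx) z hz (by linarith [e ▸ hx.2])
      linarith [show |ψ' z| ≤ |ψ' x| from hm (s1 hx)])
  have b3 := first p4 hμ hs (fun x hx => h1 x (s3 hx)) (fun x hx => h2 x (s3 hx)) (h3.mono s3)
    (fun x hx => (sq_nonneg μ).trans (h4 x (s3 hx))) (by
      rcases min_choice v (z + 2 / μ) with e | e
      · exact Or.inl e
      refine Or.inr fun x hx => ?_
      have := mv z hz x (s3 hx) (e ▸ hx.1)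
      linarith [show |ψ' z| ≤ |ψ' x| from hm (s3 hx)])
  have b2 := norm_integral_le_of_norm_le_const (a := max u (z - 2 / μ)) (b := min v (z + 2 / μ))
    (f := fun x => ex (ψ x)) (C := 1) fun x _ => (norm_ex _).le
  have i1 := (c4.mono s1).intervalIntegrable_of_Icc (μ := volume) p1
  have i2 := (c4.mono s2).intervalIntegrable_of_Icc (μ := volume) (p2.trans p3)
  have i3 := (c4.mono s3).intervalIntegrable_of_Icc (μ := volume) p4
  rw [← integral_add_adjacent_intervals (i1.trans i2) i3, ← integral_add_adjacent_intervals i1 i2]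
  rw [one_mul, abs_of_nonneg (by linarith)] at b2
  refine norm_add₃_le.trans ?_
  have e1 : 2 / μ = 2 * (1 / μ) := by ring
  have e2 : 8 / μ = 8 * (1 / μ) := by ring
  linarith [le_max_right u (z - 2 / μ), min_le_right v (z + 2 / μ)]

/-- Quadratic errors in a Lipschitz bound can be dropped. -/
lemma tele {H : ℝ → ℂ} {c L : ℝ} (huv : u ≤ v) (h : ∀ x y, u ≤ x → x ≤ y → y ≤ v →
    ‖H y - H x‖ ≤ c * (y - x) + L * (y - x) ^ 2) : ‖H v - H u‖ ≤ c * (v - u) := by
  have k : ∀ n : ℕ, ‖H v - H u‖ ≤ c * (v - u) + L * (v - u) ^ 2 * (1 / ((n : ℝ) + 1)) := fun n => by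
    have n0 : (0 : ℝ) < n + 1 := by positivity
    have d0 : 0 ≤ (v - u) / (n + 1) := div_nonneg (by linarith) n0.le
    have e := Finset.sum_range_sub (fun i : ℕ => H (u + i * ((v - u) / (n + 1)))) (n + 1)
    have e1 : u + ((n + 1 : ℕ) : ℝ) * ((v - u) / (n + 1)) = v := by push_cast; field_simp; ring
    rw [e1, Nat.cast_zero, zero_mul, add_zero] at e
    rw [← e]
    refine (norm_sum_le_of_le _ (n := fun _ => c * ((v - u) / (n + 1)) +
      L * ((v - u) / (n + 1)) ^ 2) fun i hi => ?_).trans (le_of_eq ?_)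
    · have hi' : ((i + 1 : ℕ) : ℝ) ≤ ((n + 1 : ℕ) : ℝ) := Nat.cast_le.2 (Finset.mem_range.1 hi)
      convert h _ (u + ((i + 1 : ℕ) : ℝ) * ((v - u) / (n + 1)))
        (le_add_of_nonneg_right (mul_nonneg i.cast_nonneg d0)) (by gcongr; omega)
        (le_of_le_of_eq (by gcongr) e1) using 3 <;> push_cast <;> ring
    · rw [Finset.sum_const, Finset.card_range, nsmul_eq_mul]
      push_cast; field_simp
  have t := (tendsto_one_div_add_atTop_nhds_zero_nat.const_mul (L * (v - u) ^ 2)).const_add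
    (c * (v - u))
  simpa using ge_of_tendsto' t k

end MR.VdC

namespace MR
open VdC

theorem vdc : S_VdC := by
  intro α β lam A L ψ ψ' ψ'' a hab hl h1 h2 h3 h4 hA hL L0
  obtain ⟨s, hs, h4⟩ : ∃ s : ℝ, |s| = 1 ∧ ∀ x ∈ Icc α β, √lam ^ 2 ≤ s * ψ'' x := by
    rw [Real.sq_sqrt hl.le]
    rcases h4 with h | h
    · exact ⟨1, abs_one, fun x hx => by linarith [h x hx]⟩
    · exact ⟨-1, by simp, fun x hx => by linarith [h x hx]⟩
  have hF : ∀ x ∈ Icc α β, ‖∫ t in α..x, ex (ψ t)‖ ≤ 8 / √lam := fun x hx =>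
    have s1 : Icc α x ⊆ Icc α β := Icc_subset_Icc_right hx.2
    second hx.1 (Real.sqrt_pos.2 hl) hs (fun t ht => h1 t (s1 ht)) (fun t ht => h2 t (s1 ht))
      (h3.mono s1) fun t ht => h4 t (s1 ht)
  have c4 : ContinuousOn (fun x => ex (ψ x)) (Icc α β) := continuous_ex.comp_continuousOn
    fun x hx => (h1 x hx).continuousAt.continuousWithinAt
  have ca : ContinuousOn a (Icc α β) := (LipschitzOnWith.of_dist_le_mul (K := ⟨L, L0⟩)
    fun x hx y hy => by rw [dist_eq_norm, Real.dist_eq]; exact hL x hx y hy).continuousOn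
  have k := tele (H := fun x => (∫ t in α..x, ex (ψ t) * a t) - (∫ t in α..x, ex (ψ t)) * a x)
    (c := 8 / √lam * L) (L := L) hab fun x y hx hxy hy => by
      have s1 : Icc α x ⊆ Icc α β := Icc_subset_Icc_right (hxy.trans hy)
      have s2 : Icc x y ⊆ Icc α β := Icc_subset_Icc hx hy
      have i1 := (c4.mono s1).intervalIntegrable_of_Icc (μ := volume) hx
      have i2 := (c4.mono s2).intervalIntegrable_of_Icc (μ := volume) hxy
      have i3 := ((c4.mul ca).mono s1).intervalIntegrable_of_Icc (μ := volume) hx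
      have i4 := ((c4.mul ca).mono s2).intervalIntegrable_of_Icc (μ := volume) hxy
      have mx : x ∈ Icc α β := ⟨hx, hxy.trans hy⟩
      have my : y ∈ Icc α β := ⟨hx.trans hxy, hy⟩
      have b1 := norm_integral_le_of_norm_le_const (a := x) (b := y) (C := L * (y - x))
        (f := fun t => ex (ψ t) * a t - ex (ψ t) * a y) fun t ht => by
          rw [uIoc_of_le hxy] at ht
          rw [← mul_sub, norm_mul, norm_ex, one_mul]
          refine (hL t (s2 ⟨ht.1.le, ht.2⟩) y my).trans ?_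
          rw [abs_of_nonpos (by linarith [ht.2])]
          gcongr
          linarith [ht.1]
      have b2 : ‖(∫ t in α..x, ex (ψ t)) * (a x - a y)‖ ≤ 8 / √lam * (L * |x - y|) := by
        rw [norm_mul]
        exact mul_le_mul (hF x mx) (hL x mx y my) (norm_nonneg _) (by positivity)
      rw [integral_sub (f := fun t => ex (ψ t) * a t) i4 (i2.mul_const _),
        intervalIntegral.integral_mul_const,
        abs_of_nonneg (by linarith)] at b1
      rw [abs_of_nonpos (by linarith)] at b2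
      refine le_trans (le_of_eq ?_) ((norm_add_le_of_le b2 b1).trans (le_of_eq (by ring)))
      rw [← integral_add_adjacent_intervals i1 i2,
        ← integral_add_adjacent_intervals (f := fun t => ex (ψ t) * a t) i3 i4]
      congr 1
      ring
  simp only [integral_same, zero_mul, sub_zero] at k
  have b3 : ‖(∫ t in α..β, ex (ψ t)) * a β‖ ≤ 8 / √lam * A := by
    rw [norm_mul]
    exact mul_le_mul (hF β (right_mem_Icc.2 hab)) (hA β (right_mem_Icc.2 hab)) (norm_nonneg _)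
      (by positivity)
  have := norm_add_le_of_le k b3
  rw [sub_add_cancel] at this
  linarith

end MR
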