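import Pool.Agent.P.MP_79de8b_nt.A1
import Pool.Agent.P.MP_79de8b_nt.A2
import Pool.Agent.P.MP_79de8b_nt.Av
import Pool.Agent.P.MP_79de8b_nt.Bil
import Pool.Agent.P.MP_79de8b_nt.CCb
import Pool.Agent.P.MP_79de8b_nt.Co1
import Pool.Agent.P.MP_79de8b_nt.Core
import Pool.Agent.P.MP_79de8b_nt.Ct
import Pool.Agent.P.MP_79de8b_nt.Dual
import Pool.Agent.P.MP_79de8b_nt.FC
import Pool.Agent.P.MP_79de8b_nt.Fam
import Pool.Agent.P.MP_79de8b_nt.Fin
import Pool.Agent.P.MP_79de8b_nt.H0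
import Pool.Agent.P.MP_79de8b_nt.H1
import Pool.Agent.P.MP_79de8b_nt.H2
import Pool.Agent.P.MP_79de8b_nt.Hk
import Pool.Agent.P.MP_79de8b_nt.Hor
import Pool.Agent.P.MP_79de8b_nt.Kap
import Pool.Agent.P.MP_79de8b_nt.Ker
import Pool.Agent.P.MP_79de8b_nt.KL
import Pool.Agent.P.MP_79de8b_nt.KM
import Pool.Agent.P.MP_79de8b_nt.MT
import Pool.Agent.P.MP_79de8b_nt.Main
import Pool.Agent.P.MP_79de8b_nt.Ms
import Pool.Agent.P.MP_79de8b_nt.Mx
import Pool.Agent.P.MP_79de8b_nt.Osc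
import Pool.Agent.P.MP_79de8b_nt.Osc0
import Pool.Agent.P.MP_79de8b_nt.Ov
import Pool.Agent.P.MP_79de8b_nt.P1
import Pool.Agent.P.MP_79de8b_nt.PB
import Pool.Agent.P.MP_79de8b_nt.PB0
import Pool.Agent.P.MP_79de8b_nt.PP0
import Pool.Agent.P.MP_79de8b_nt.PrA
import Pool.Agent.P.MP_79de8b_nt.PrB
import Pool.Agent.P.MP_79de8b_nt.Pt
import Pool.Agent.P.MP_79de8b_nt.R1
import Pool.Agent.P.MP_79de8b_nt.R2
import Pool.Agent.P.MP_79de8b_nt.Reg
import Pool.Agent.P.MP_79de8b_nt.S0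
import Pool.Agent.P.MP_79de8b_nt.S1
import Pool.Agent.P.MP_79de8b_nt.S3
import Pool.Agent.P.MP_79de8b_nt.Sel
import Pool.Agent.P.MP_79de8b_nt.Ser
import Pool.Agent.P.MP_79de8b_nt.Sh
import Pool.Agent.P.MP_79de8b_nt.Side
import Pool.Agent.P.MP_79de8b_nt.Sv
import Pool.Agent.P.MP_79de8b_nt.T0
import Pool.Agent.P.MP_79de8b_nt.T2
import Pool.Agent.P.MP_79de8b_nt.T2a
import Pool.Agent.P.MP_79de8b_nt.Unf
import Pool.Agent.P.MP_79de8b_nt.VdC
import Pool.Agent.P.MP_79de8b_nt.W1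
import Pool.Agent.P.MP_79de8b_nt.W2
import Pool.Agent.P.MP_79de8b_nt.W3
import Pool.Agent.P.MP_79de8b_nt.Weil

/-! Assembly of the Mazur-Rubin variance theorem. -/

namespace MR

theorem all_main : S_Main := by
  have hA2 := a2 a1
  have hKL := kL (weil w1 (w3 w2)) pp0 km
  have hBil := bil a1 hA2 km (cc hA2 hKL)
  have hOsc := osc (osc0 vdc)
  have hPB := pb hA2 p1 p1c ov sh ptt
    (pb0 a1 hA2 p1 ov ptt (ker p1 ov ptt cell unf) hOsc (hk sel) (bd a1 hKL ptt hOsc))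
  have hFC := fc ser (inv ser) kap (pra rad) (prb rad) hPB
  have hPtw := ptw ser (inv ser) kap (pra rad) (prb rad) hPB
  have hHor := hor ser (h2 ov ser (h1 h0))
  have hWt := wtt ser hHor hPtw
  have hDual := dual ser
  have hCt := ct ser hDual
  have hT0 := t0 a1 avg ser hPtw
  have hMx := mx a1 avg km hBil ser (tr ser) hCt
  have hCo := core hA2 hMx (co1 a1 avg ser (tr ser) hCt (sv s0 (s1 s0) (s3 s0)) (r1 s0) hWt
    (r2 a1 avg km hBil ser s0 hWt))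
  exact main avg ser hDual hT0 hCt (reg ser hDual hCt hHor mt
    (t2 hCt (t2a a1 avg ser (tr ser)) (t2c hCt hFC)) (side hDual hCt hT0 hMx) hCo)
end MR
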