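import Mathlib

/-! Definitions for the Mazur-Rubin variance theorem (MP_79de8b_nt). -/

open Complex UpperHalfPlane MeasureTheory Finset CongruenceSubgroup
open scoped Real MatrixGroups ComplexConjugate

noncomputable section
namespace MR

/-! ### Arithmetic -/

/-- `e(x) = exp(2 π i x)`. -/
def ex (x : ℝ) : ℂ := cexp (2 * π * Complex.I * x)

/-- Number of divisors, as a real number. -/
def tau (n : ℕ) : ℝ := (n.divisors.card : ℝ)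

/-- The unit of loss `τ(q) log q`. -/
def Lam (q : ℕ) : ℝ := tau q * Real.log q

/-- The inverse of `t` modulo `c`, in `[0, c)`. -/
def iv (t c : ℕ) : ℕ := ((t : ZMod c)⁻¹).val

/-- Reduced residues modulo `c`, in `[0, c)`. -/
def un (c : ℕ) : Finset ℕ := (range c).filter (fun t => t.Coprime c)

/-- Weighted Kloosterman sum. -/
def kl (w : ℕ → ℂ) (a b : ℤ) (c : ℕ) : ℂ :=
  ∑ t ∈ un c, w t * ex (((a * t + b * iv t c : ℤ) : ℝ) / c)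

/-- Indicator of the class `ρ` modulo `D`. -/
def cls (ρ D t : ℕ) : ℂ := if t ≡ ρ [MOD D] then 1 else 0

/-- The part of `h` made of the primes dividing `c`. -/
def part (h c : ℕ) : ℕ := h.gcd (c ^ h)

/-- Kloosterman sum over the field with `p ^ n` elements. -/
def Kn (p : ℕ) [Fact p.Prime] (n : ℕ) (a b : ZMod p) : ℂ :=
  ∑ᶠ x : (GaloisField p n)ˣ, ZMod.stdAddChar (Algebra.trace (ZMod p) (GaloisField p n)
    (algebraMap (ZMod p) (GaloisField p n) a * (x : GaloisField p n) +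
      algebraMap (ZMod p) (GaloisField p n) b * ((x⁻¹ : (GaloisField p n)ˣ) : GaloisField p n)))

/-- Correlation sum of two Kloosterman sums. -/
def CC (c N ρ : ℕ) (μ μ' h : ℤ) : ℂ :=
  ∑ t ∈ un c, ∑ t' ∈ un c, if ((iv t' c : ℤ) ≡ iv t c + h [ZMOD c]) then
    cls ρ N t * cls ρ N t' * ex (((μ * t - μ' * t' : ℤ) : ℝ) / c) else 0

/-- Average over a finite set. -/
def av (s : Finset ℕ) (φ : ℕ → ℂ) : ℂ := (∑ x ∈ s, φ x) / s.card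

/-- Reduced residues modulo `q N` in the class `ρ` modulo `N`. -/
def UU (N q ρ : ℕ) : Finset ℕ := (un (q * N)).filter (fun x => x ≡ ρ [MOD N])

/-- Complex conjugation or the identity. -/
def cj (ε : Bool) (z : ℂ) : ℂ := if ε then conj z else z

/-- The sign attached to `cj`. -/
def sg (ε : Bool) : ℤ := if ε then 1 else -1

/-! ### Two-point Poincaré series -/

/-- The sesquilinear form `∑_g w(g) ⟨φ, ψ ∘ g⟩`. -/
def Bf {G Z : Type} [Group G] [MulAction G Z] [MeasurableSpace Z] (μ : Measure Z)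
    (w : G → ℂ) (φ ψ : Z → ℂ) : ℂ :=
  ∑' g : G, w g * ∫ z, φ z * conj (ψ (g • z)) ∂μ

/-- Square integrable measurable functions vanishing outside `S`. -/
structure Adm {Z : Type} [MeasurableSpace Z] (μ : Measure Z) (S : Set Z) (φ : Z → ℂ) : Prop where
  meas : Measurable φ
  l2 : MemLp φ 2 μ
  supp : ∀ z, z ∉ S → φ z = 0

/-- `w` is a unitary character of the subgroup `H`, extended by zero. -/
structure UChar {G : Type} [Group G] (H : Subgroup G) (w : G → ℂ) : Prop where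
  zero : ∀ g, g ∉ H → w g = 0
  mul : ∀ g ∈ H, ∀ h ∈ H, w (g * h) = w g * w h
  norm : ∀ g ∈ H, ‖w g‖ = 1

/-- Pairs of points of the upper half plane. -/
abbrev HH := ℍ × ℍ

/-- A profile of size `A` at heights `η₁ ≥ η₂`. -/
structure Prof (A η₁ η₂ : ℝ) (θ : ℂ → ℝ → ℂ) : Prop where
  pos : 0 < η₂
  le : η₂ ≤ η₁
  nn : 0 ≤ A
  bd : ∀ w y, ‖θ w y‖ ≤ A
  lip : ∀ w w' y y', ‖θ w y - θ w' y'‖ ≤ A * (‖w - w'‖ / η₁ + |y - y'| / η₂)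
  supp : ∀ w y, θ w y ≠ 0 →
    η₁ / 2 ≤ w.im ∧ w.im ≤ 2 * η₁ ∧ |w.re| ≤ 2 * η₁ ∧ η₂ / 2 ≤ y ∧ y ≤ 2 * η₂

/-- The test function of a profile. -/
def ph (θ : ℂ → ℝ → ℂ) (z₁ z₂ : ℂ) : ℂ := ex (-z₂.re) * θ (z₁ - z₂.re) z₂.im

/-- The test function at frequency `h`, cut to the strip `0 ≤ re z₂ < 1`. -/
def pt (θ : ℂ → ℝ → ℂ) (h : ℕ) (z : HH) : ℂ :=
  if 0 ≤ z.2.re ∧ z.2.re < 1 then ph θ (h * (z.1 : ℂ)) (h * (z.2 : ℂ)) else 0

/-- The diagonal term. -/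
def DD (θ : ℂ → ℝ → ℂ) : ℝ := ∫ z : HH, ‖pt θ 1 z‖ ^ 2

/-- The archimedean transform. -/
def JJ (θ : ℂ → ℝ → ℂ) (X : ℝ) : ℂ :=
  ∫ z : HH, ph θ z.1 z.2 * conj (ph θ (-X / (z.1 : ℂ)) (-X / (z.2 : ℂ)))

/-- The normalised archimedean transform. -/
def jj (θ : ℂ → ℝ → ℂ) (X : ℝ) : ℂ := JJ θ X / (Real.sqrt X : ℝ)

/-- The character `χ(d)` on `Γ₀(M)`, extended by zero. -/
def wt (M : ℕ) {N₀ : ℕ} (χ : DirichletCharacter ℂ N₀) (γ : SL(2, ℤ)) : ℂ :=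
  if (M : ℤ) ∣ γ 1 0 then χ (γ 1 1 : ℤ) else 0

/-- The Petersson type kernel. -/
def Bn (D : ℂ) (j : ℝ → ℂ) (M : ℕ) {N₀ : ℕ} (χ : DirichletCharacter ℂ N₀) (m n : ℕ) : ℂ :=
  (if m = n then D else 0) + ∑' c : ℕ, if 0 < c ∧ M ∣ c then
    kl (fun t => χ (t : ZMod N₀)) m n c / c * j ((m : ℝ) * n / (c : ℝ) ^ 2) else 0

/-- The point pair invariant. -/
def del (z : HH) : ℝ := ‖(z.1 : ℂ) - conj (z.2 : ℂ)‖ ^ 2 / (z.1.im * z.2.im)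

/-- The group `Γ₀(N²) ∩ Γ₁(N)`. -/
def Gp (N : ℕ) : Subgroup SL(2, ℤ) := Gamma0 (N ^ 2) ⊓ Gamma1 N

/-- The set of pairs with first point above height `Y` and second point in the strip. -/
def SY (Y : ℝ) : Set HH := {z | Y ≤ z.1.im ∧ 0 ≤ z.2.re ∧ z.2.re < 1}

/-- Normalising kernels. -/
structure Kap (κ : ℂ → ℂ → ℂ) (k : ℕ) (C : ℝ) : Prop where
  kpos : 1 ≤ k
  tr : ∀ (t : ℝ) z₁ z₂, κ (z₁ + t) (z₂ + t) = κ z₁ z₂
  hom : ∀ (h : ℝ), 0 < h → ∀ z₁ z₂, κ (h * z₁) (h * z₂) = (h : ℂ) ^ k * κ z₁ z₂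
  meas : Measurable (fun p : ℂ × ℂ => κ p.1 p.2)
  low : ∀ (w : ℂ) (y : ℝ), 1 / 2 ≤ w.im → w.im ≤ 2 → |w.re| ≤ 2 → 0 < y → y ≤ 2 →
    1 / 20 ≤ ‖w - y * Complex.I‖ → 1 ≤ C * ‖κ w (y * Complex.I)‖
  lip : ∀ (w w' : ℂ) (y y' : ℝ), 1 / 2 ≤ w.im → w.im ≤ 2 → |w.re| ≤ 2 → 0 < y → y ≤ 2 →
    1 / 2 ≤ w'.im → w'.im ≤ 2 → |w'.re| ≤ 2 → 0 < y' → y' ≤ 2 →
    ‖κ w (y * Complex.I) - κ w' (y' * Complex.I)‖ ≤ C * (‖w - w'‖ + |y - y'|)

/-- The kernels for `g(z₁) conj g(z₂)` (`ε = true`) and `g(z₁) g(z₂)` (`ε = false`), and their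
conjugates (`s = true`). -/
def kab (s ε : Bool) (z₁ z₂ : ℂ) : ℂ := cj s ((z₁ - cj ε z₂) ^ 2)

/-- The kernel for `g(z₂)` alone. -/
def kc (z₁ z₂ : ℂ) : ℂ := (z₂ - z₁) * (z₂ - conj z₁) / (z₁.im : ℝ)

/-- A radial tent function centred on the circle of radius `r`. -/
def tent (r : ℝ) (ζ : ℂ) : ℝ := max 0 (1 / 20 - |‖ζ‖ - r|)

/-- The normalised tent function. -/
def rho (r : ℝ) (ζ : ℂ) : ℝ := tent r ζ / ∫ ξ : ℂ, tent r ξ

/-- The radius used at heights `η₁ ≥ η₂`. -/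
def rr (η₁ η₂ : ℝ) : ℝ := if 7 / 10 ≤ η₂ / η₁ then 9 / 20 else 3 / 20

/-- The reproducing profile. -/
def prf (κ : ℂ → ℂ → ℂ) (k : ℕ) (η₁ η₂ : ℝ) (w : ℂ) (y : ℝ) : ℂ :=
  η₂ * ∫ v in (-1 : ℝ)..1,
    ((rho (rr η₁ η₂) ((w - η₂ * v - η₁ * Complex.I) / η₁) *
      rho 0 (-v + (y / η₂ - 1) * Complex.I) * (w.im / η₁) ^ 2 * (y / η₂) ^ 2 *
      (η₁ ^ (k - 1) * η₂) : ℝ) : ℂ) / κ w (y * Complex.I) * ex (-(η₂ * v))

/-- The mean value property on circles. -/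
structure MV (U : ℍ → ℂ) : Prop where
  cont : Continuous U
  mean : ∀ (z : ℍ) (r : ℝ), 0 < r → r < 1 →
    ∫ φ in (0 : ℝ)..2 * π, U (ofComplex (z + z.im * r * cexp (φ * Complex.I))) = 2 * π * U z

/-- The point `x + i y` (for `y > 0`). -/
def pnt (x y : ℝ) : ℍ := ofComplex (x + y * Complex.I)

/-! ### Cusp forms -/

/-- `y g(x + i y)` with `y = exp u`. -/
def FF (g : ℍ → ℂ) (x u : ℝ) : ℂ := Real.exp u * g (pnt x (Real.exp u))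

/-- A function with an expansion in `e(n z / P)`, `n ≥ 1`, and the trivial bounds. -/
structure Ser (P : ℕ) (K : ℝ) (b : ℕ → ℂ) (g : ℍ → ℂ) : Prop where
  pos : 0 < P
  one : 1 ≤ K
  b0 : b 0 = 0
  bb : ∀ n, ‖b n‖ ≤ K * n
  hs : ∀ z : ℍ, HasSum (fun n : ℕ => b n * cexp (2 * π * Complex.I * n * z / P)) (g z)
  bd1 : ∀ z : ℍ, z.im * ‖g z‖ ≤ K
  bd2 : ∀ z : ℍ, z.im ^ 2 * ‖g z‖ ≤ K

/-- The family `G σ = f | σ` of a weight two cusp form `f` on `Γ₀(N)` whose coefficients `a` at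
infinity are multiplicative. -/
structure Fam (N : ℕ) where
  G : SL(2, ℤ) → ℍ → ℂ
  b : SL(2, ℤ) → ℕ → ℂ
  a : ℕ → ℂ
  K : ℝ
  ser : ∀ σ, Ser N K (b σ) (G σ)
  sera : Ser 1 K a (G 1)
  ab : ∀ n, b 1 (N * n) = a n
  coc : ∀ (σ τ : SL(2, ℤ)) (z : ℍ),
    G σ (τ • z) = ((τ 1 0 : ℤ) * (z : ℂ) + (τ 1 1 : ℤ)) ^ 2 * G (σ * τ) z
  inv : ∀ γ ∈ Gamma0 N, ∀ σ, G (γ * σ) = G σ
  a1 : a 1 = 1
  mul : ∀ m n : ℕ, m.Coprime n → a (m * n) = a m * a n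

/-- The `n`-th term of the expansion of `FF g x u`, without the factor `e(n x / P)`. -/
def cf (P : ℕ) (b : ℕ → ℂ) (u : ℝ) (n : ℕ) : ℂ :=
  b n * (Real.exp u * Real.exp (-(2 * π * n * Real.exp u / P)) : ℝ)

/-- The mean of `y² |g|²` on the horocycle of height `η`. -/
def Ib (P : ℕ) (b : ℕ → ℂ) (η : ℝ) : ℝ :=
  η ^ 2 * ∑' n : ℕ, ‖b n‖ ^ 2 * Real.exp (-(4 * π * n * η / P))

/-- The matrix `[1 0; u 1]`. -/
def sig (u : ℕ) : SL(2, ℤ) := ⟨!![1, 0; u, 1], by simp [Matrix.det_fin_two]⟩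

variable {N : ℕ} (Φ : Fam N)

/-- Correlation of two heights, both expanded at the same cusp. -/
def Cor (σ : SL(2, ℤ)) (ε : Bool) (q ρ : ℕ) (u u' : ℝ) : ℂ :=
  av (UU N q ρ) fun x => FF (Φ.G σ) (x / q) u * cj ε (FF (Φ.G σ) (x / q) u')

/-- Correlation of two heights, the second one expanded at the dual cusp. -/
def Mix (σ : SL(2, ℤ)) (ε : Bool) (q ρ : ℕ) (u v : ℝ) : ℂ :=
  av (UU N q ρ) fun x =>
    FF (Φ.G 1) (x / q) u * cj ε (FF (Φ.G σ) (-(iv x (q * N) : ℝ) / q) v)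

/-- Fourier coefficient of the product of two heights. -/
def Psi (σ : SL(2, ℤ)) (ε : Bool) (h : ℤ) (u u' : ℝ) : ℂ :=
  (∫ x in (0 : ℝ)..N, FF (Φ.G σ) x u * cj ε (FF (Φ.G σ) x u') * ex (-(h * x / N))) / N

/-- The modular symbol at `x`, in logarithmic coordinates. -/
def XX (x : ℝ) : ℂ := 2 * π * ∫ u : ℝ, FF (Φ.G 1) x u

/-! ### Sieve -/

/-- The weight `t² exp(-4 π t)`. -/
def ww (t : ℝ) : ℝ := t ^ 2 * Real.exp (-(4 * π * t))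

/-- The mass at height `η` of the integers with property `P`. -/
def IP (γ : ℕ → ℝ) (P : ℕ → Prop) (η : ℝ) : ℝ :=
  ∑' n : ℕ, Set.indicator {n | P n} (fun n : ℕ => γ n * ww (n * η)) n

/-- A multiplicative weight with a Rankin-Selberg asymptotic. -/
structure Wt (γ : ℕ → ℝ) (c K : ℝ) : Prop where
  nn : ∀ n, 0 ≤ γ n
  zero : γ 0 = 0
  one : γ 1 = 1
  mul : ∀ m n : ℕ, m.Coprime n → γ (m * n) = γ m * γ n
  c0 : 0 ≤ c
  K1 : 1 ≤ K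
  pw : ∀ n : ℕ, 1 ≤ n → γ n ≤ K * (n : ℝ) ^ (-(2 / 5 : ℝ))
  bd : ∀ η, 0 < η → IP γ (fun _ => True) η ≤ K
  asy : ∀ η, 0 < η → |IP γ (fun _ => True) η - c| ≤ K * η ^ (1 / 5 : ℝ)

/-- The local factor. -/
def Gloc (γ : ℕ → ℝ) (p : ℕ) : ℝ := ∑' k : ℕ, γ (p ^ k)

/-- Number of primes of `S` dividing `m`. -/
def om (S : Finset ℕ) (m : ℕ) : ℕ := (S.filter (· ∣ m)).card

/-- The primes of `S` and their squares. -/
def PS (S : Finset ℕ) : Finset ℕ := S ∪ S.image (· ^ 2)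

/-- The bilinear part of Ramaré's identity. -/
def aR (a : ℕ → ℂ) (S : Finset ℕ) (m : ℕ) : ℂ :=
  ∑ s ∈ (PS S).filter (· ∣ m), a s * a (m / s) / (om S (m / s) + 1)

/-- The part of `a` on integers free of primes of `S`. -/
def aE (a : ℕ → ℂ) (S : Finset ℕ) (m : ℕ) : ℂ := if om S m = 0 then a m else 0

end MR
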