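import Pool.Agent.P.MP_79de8b_nt.Basic

/-! Package H0: lattice points in a disc, row by row. -/

open Complex UpperHalfPlane MeasureTheory Finset
open scoped Real

noncomputable section
namespace MR
namespace H0

/-- A monotone function: sum against integral. -/
lemma mono_sum {g : ℝ → ℝ} (hg : Monotone g) {M : ℝ} (h0 : ∀ t, 0 ≤ g t) (hM : ∀ t, g t ≤ M)
    (n : ℕ) : 0 ≤ (∫ t in (0 : ℝ)..n, g t) - ∑ i ∈ range n, g i ∧
      (∫ t in (0 : ℝ)..n, g t) - ∑ i ∈ range n, g i ≤ M := by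
  have h1 := (hg.monotoneOn (Set.Icc 0 (0 + (n : ℝ)))).sum_le_integral
  have h2 := (hg.monotoneOn (Set.Icc 0 (0 + (n : ℝ)))).integral_le_sum
  simp only [zero_add] at h1 h2
  have h3 := Finset.sum_range_succ (fun i : ℕ => g i) n
  have h4 := Finset.sum_range_succ' (fun i : ℕ => g i) n
  constructor
  · linarith
  · linarith [h0 ((0 : ℕ) : ℝ), hM (n : ℝ)]

/-- A unimodal function: sum against integral. -/
lemma uni_sum {f : ℝ → ℝ} {a M : ℝ} (h1 : MonotoneOn f (Set.Iic a)) (h2 : AntitoneOn f (Set.Ici a))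
    (h0 : ∀ t, 0 ≤ f t) (hM : ∀ t, f t ≤ M) (n : ℕ) :
    |(∑ i ∈ range n, f i) - ∫ t in (0 : ℝ)..n, f t| ≤ M := by
  have m1 : Monotone fun t => f (min t a) := fun s t h =>
    h1 (Set.mem_Iic.2 (min_le_right s a)) (Set.mem_Iic.2 (min_le_right t a)) (min_le_min_right _ h)
  have m2 : Monotone fun t => f a - f (max t a) := fun s t h =>
    sub_le_sub_left (h2 (Set.mem_Ici.2 (le_max_right s a)) (Set.mem_Ici.2 (le_max_right t a))
      (max_le_max_right _ h)) _
  have e : ∀ t, f t = f (min t a) - (f a - f (max t a)) := fun t => by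
    rcases le_total t a with h | h
    · rw [min_eq_left h, max_eq_right h]
      ring
    · rw [min_eq_right h, max_eq_left h]
      ring
  have a1 := mono_sum m1 (fun t => h0 _) (fun t => hM _) n
  have a2 := mono_sum m2 (M := M)
    (fun t => sub_nonneg.2 (h2 Set.self_mem_Ici (Set.mem_Ici.2 (le_max_right t a)) (le_max_right t a)))
    (fun t => by linarith [hM a, h0 (max t a)]) n
  have e1 : ∑ i ∈ range n, f i =
      ∑ i ∈ range n, f (min i a) - ∑ i ∈ range n, (f a - f (max i a)) := by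
    rw [← Finset.sum_sub_distrib]
    exact Finset.sum_congr rfl fun i _ => e i
  have e2 : ∫ t in (0 : ℝ)..n, f t =
      (∫ t in (0 : ℝ)..n, f (min t a)) - ∫ t in (0 : ℝ)..n, (f a - f (max t a)) := by
    rw [← intervalIntegral.integral_sub m1.intervalIntegrable m2.intervalIntegrable]
    exact intervalIntegral.integral_congr fun t _ => e t
  rw [e1, e2, abs_le]
  constructor <;> linarith [a1.1, a1.2, a2.1, a2.2]

lemma half_disc {R A B : ℝ} (hR : 0 ≤ R) (hA : A ≤ -R) (hB : R ≤ B) :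
    ∫ u in A..B, √(R ^ 2 - u ^ 2) = π * R ^ 2 / 2 := by
  have hc : Continuous fun u : ℝ => √(R ^ 2 - u ^ 2) := by fun_prop
  have h1 : ∫ u in A..(-R), √(R ^ 2 - u ^ 2) = 0 := by
    rw [← intervalIntegral.integral_zero (a := A) (b := -R) (μ := volume)]
    refine intervalIntegral.integral_congr fun u hu => ?_
    rw [Set.uIcc_of_le hA] at hu
    exact Real.sqrt_eq_zero_of_nonpos (by nlinarith [hu.2])
  have h2 : ∫ u in R..B, √(R ^ 2 - u ^ 2) = 0 := by
    rw [← intervalIntegral.integral_zero (a := R) (b := B) (μ := volume)]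
    refine intervalIntegral.integral_congr fun u hu => ?_
    rw [Set.uIcc_of_le hB] at hu
    exact Real.sqrt_eq_zero_of_nonpos (by nlinarith [hu.1])
  have h3 : ∫ u in (-R)..R, √(R ^ 2 - u ^ 2) = π * R ^ 2 / 2 := by
    have h4 := intervalIntegral.smul_integral_comp_mul_left (a := -1) (b := 1)
      (fun u : ℝ => √(R ^ 2 - u ^ 2)) R
    rw [mul_neg, mul_one] at h4
    have h5 : ∀ x : ℝ, √(R ^ 2 - (R * x) ^ 2) = R * √(1 - x ^ 2) := fun x => by
      rw [show R ^ 2 - (R * x) ^ 2 = R ^ 2 * (1 - x ^ 2) by ring, Real.sqrt_mul (sq_nonneg R),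
        Real.sqrt_sq hR]
    simp only [h5] at h4
    rw [← h4, intervalIntegral.integral_const_mul, integral_sqrt_one_sub_sq, smul_eq_mul]
    ring
  rw [← intervalIntegral.integral_add_adjacent_intervals (b := -R) (hc.intervalIntegrable _ _)
    (hc.intervalIntegrable _ _), ← intervalIntegral.integral_add_adjacent_intervals (a := -R)
    (b := R) (hc.intervalIntegrable _ _) (hc.intervalIntegrable _ _), h1, h2, h3]
  ring

lemma card_Icc {l u : ℝ} (h : l ≤ u) : |((Icc ⌈l⌉ ⌊u⌋).card : ℝ) - (u - l)| ≤ 1 := by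
  have h1 := Int.le_ceil l
  have h2 := Int.ceil_lt_add_one l
  have h3 := Int.floor_le u
  have h4 := Int.lt_floor_add_one u
  have h5 : ⌈l⌉ ≤ ⌊u⌋ + 1 := Int.ceil_le.2 (by push_cast; linarith)
  have h6 : ((Icc ⌈l⌉ ⌊u⌋).card : ℝ) = (⌊u⌋ : ℝ) + 1 - ⌈l⌉ := by
    have := Int.card_Icc_of_le _ _ h5
    exact_mod_cast this
  rw [h6, abs_le]
  constructor <;> linarith

lemma norm_le_iff (c d : ℤ) (z : ℍ) {R : ℝ} (hR : 0 ≤ R) :
    ‖(c : ℂ) * z + d‖ ≤ R ↔
      (z.im * c) ^ 2 ≤ R ^ 2 ∧ |c * z.re + d| ≤ √(R ^ 2 - (z.im * c) ^ 2) := by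
  have h1 : ‖(c : ℂ) * z + d‖ ^ 2 = (c * z.re + d) ^ 2 + (z.im * c) ^ 2 := by
    rw [Complex.sq_norm, Complex.normSq_apply]
    simp
    ring
  rw [← sq_le_sq₀ (norm_nonneg _) hR, h1]
  constructor
  · intro h
    exact ⟨by nlinarith [sq_nonneg ((c : ℝ) * z.re + d)], Real.abs_le_sqrt (by linarith)⟩
  · rintro ⟨h2, h3⟩
    have := (Real.le_sqrt (abs_nonneg _) (sub_nonneg.2 h2)).1 h3
    rw [sq_abs] at this
    linarith

end H0

open H0 in
theorem h0 : S_H0 := by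
  intro N hN
  refine ⟨6, fun c₀ d₀ z R hz hR => ?_⟩
  have hN1 : (1 : ℝ) ≤ N := by exact_mod_cast hN
  have hN0 : (0 : ℝ) < N := by linarith
  have hNz : (N : ℤ) ≠ 0 := by exact_mod_cast hN.ne'
  have hy : 0 < z.im := z.im_pos
  obtain ⟨c₁, hc₁, hc1, hc2⟩ : ∃ c₁ : ℤ, c₁ ≡ c₀ [ZMOD N] ∧ (c₁ : ℝ) ≤ -(2 * R) ∧
      -(2 * R) - N < c₁ := by
    refine ⟨c₀ - N * ⌈(c₀ + 2 * R) / N⌉, ?_, ?_, ?_⟩
    · exact Int.modEq_iff_dvd.2 ⟨⌈(c₀ + 2 * R) / N⌉, by ring⟩
    · have := Int.le_ceil ((c₀ + 2 * R) / N)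
      rw [div_le_iff₀ hN0] at this
      push_cast
      linarith
    · have := Int.ceil_lt_add_one ((c₀ + 2 * R) / N)
      rw [← sub_lt_iff_lt_add, lt_div_iff₀ hN0] at this
      push_cast
      linarith
  obtain ⟨n, hn1, hn2⟩ : ∃ n : ℕ, 4 * R + 1 < n ∧ (n : ℝ) ≤ 4 * R + 2 := by
    refine ⟨⌊4 * R⌋₊ + 2, ?_, ?_⟩
    · have := Nat.lt_floor_add_one (4 * R)
      push_cast
      linarith
    · have := Nat.floor_le (show 0 ≤ 4 * R by positivity)
      push_cast
      linarith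
  have hn3 : 2 * R < c₁ + N * n := by nlinarith
  let f : ℝ → ℝ := fun t => √(R ^ 2 - (z.im * (c₁ + N * t)) ^ 2)
  let T : ℕ → Finset ℤ := fun i => if (z.im * (c₁ + N * i)) ^ 2 ≤ R ^ 2 then
    Icc ⌈(-f i - (c₁ + N * i) * z.re - d₀) / N⌉ ⌊(f i - (c₁ + N * i) * z.re - d₀) / N⌋ else ∅
  have hf0 : ∀ t, 0 ≤ f t := fun t => Real.sqrt_nonneg _
  have hT : ∀ (i : ℕ) (j : ℤ), j ∈ T i ↔
      ‖((c₁ + N * i : ℤ) : ℂ) * z + ((d₀ + N * j : ℤ) : ℂ)‖ ≤ R := by
    intro i j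
    rw [norm_le_iff _ _ _ hR]
    push_cast
    simp only [T]
    split_ifs with h
    · rw [mem_Icc, Int.ceil_le, Int.le_floor, div_le_iff₀ hN0, le_div_iff₀ hN0, abs_le]
      simp only [h, true_and]
      constructor
      · rintro ⟨h1, h2⟩
        constructor <;> linarith
      · rintro ⟨h1, h2⟩
        constructor <;> linarith
    · simp [h]
  have hcard : ∀ i : ℕ, |((T i).card : ℝ) - 2 / N * f i| ≤ 1 := by
    intro i
    simp only [T]
    split_ifs with h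
    · have h1 := card_Icc (l := (-f i - (c₁ + N * i) * z.re - d₀) / N)
        (u := (f i - (c₁ + N * i) * z.re - d₀) / N)
        (div_le_div_of_nonneg_right (by linarith [hf0 i]) hN0.le)
      rwa [show (f i - (c₁ + N * i) * z.re - d₀) / N - (-f i - (c₁ + N * i) * z.re - d₀) / N =
        2 / N * f i by ring] at h1
    · have h1 : f i = 0 := Real.sqrt_eq_zero_of_nonpos (by linarith [not_le.1 h])
      simp [h1]
  let φ : (Σ _ : ℕ, ℤ) → ℤ × ℤ := fun q => (c₁ + N * q.1, d₀ + N * q.2)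
  have hφ : Function.Injective φ := by
    rintro ⟨i, j⟩ ⟨i', j'⟩ h
    simp only [φ, Prod.mk.injEq, add_right_inj, mul_right_inj' hNz, Nat.cast_inj] at h
    rw [h.1, h.2]
  have hS : {p : ℤ × ℤ | p.1 ≡ c₀ [ZMOD N] ∧ p.2 ≡ d₀ [ZMOD N] ∧ ‖(p.1 : ℂ) * z + p.2‖ ≤ R} =
      (((range n).sigma T).image φ : Finset (ℤ × ℤ)) := by
    ext ⟨c, d⟩
    simp only [Set.mem_ofPred_eq, coe_image, Set.mem_image, mem_coe, mem_sigma, mem_range]
    constructor
    · rintro ⟨h1, h2, h3⟩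
      obtain ⟨i, hi⟩ := Int.modEq_iff_dvd.1 (hc₁.trans h1.symm)
      obtain ⟨j, hj⟩ := Int.modEq_iff_dvd.1 h2.symm
      obtain rfl : c = c₁ + N * i := by linarith
      obtain rfl : d = d₀ + N * j := by linarith
      have h4 := abs_le_of_sq_le_sq' ((norm_le_iff _ _ _ hR).1 h3).1 hR
      push_cast at h4
      have h5 : -(2 * R) ≤ c₁ + N * i := by
        by_contra h
        nlinarith [h4.1]
      have h6 : c₁ + N * i ≤ 2 * R := by
        by_contra h
        nlinarith [h4.2]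
      have h7 : (0 : ℝ) ≤ i := by
        by_contra h
        nlinarith
      have h8 : (i : ℝ) < n := by
        by_contra h
        nlinarith
      lift i to ℕ using by exact_mod_cast h7
      exact ⟨⟨i, j⟩, ⟨by exact_mod_cast h8, (hT i j).2 h3⟩, rfl⟩
    · rintro ⟨⟨i, j⟩, ⟨-, h2⟩, h3⟩
      obtain ⟨rfl, rfl⟩ := Prod.mk.inj h3
      exact ⟨(Int.modEq_iff_dvd.2 ⟨-i, by ring⟩).trans hc₁, Int.modEq_iff_dvd.2 ⟨-j, by ring⟩,
        (hT i j).1 h2⟩
  rw [hS, Set.ncard_coe_finset, card_image_of_injective _ hφ, card_sigma]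
  refine ⟨finite_toSet _, ?_⟩
  have e1 : |(∑ i ∈ range n, ((T i).card : ℝ)) - 2 / N * ∑ i ∈ range n, f i| ≤ n := by
    rw [mul_sum, ← sum_sub_distrib]
    refine (abs_sum_le_sum_abs _ _).trans ((sum_le_sum fun i _ => hcard i).trans ?_)
    simp
  have key : ∀ t : ℝ, c₁ + N * t = N * (t - -c₁ / N) := fun t => by
    field_simp
    ring
  have e2 : |(∑ i ∈ range n, f i) - ∫ t in (0 : ℝ)..n, f t| ≤ R := by
    refine uni_sum (a := -c₁ / N) (fun s hs t ht h => ?_) (fun s hs t ht h => ?_) hf0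
      (fun t => ?_) n
    · refine Real.sqrt_le_sqrt (sub_le_sub_left ?_ _)
      rw [key, key, mul_pow, mul_pow, mul_pow, mul_pow]
      rw [Set.mem_Iic] at hs ht
      have : (t - -c₁ / N) ^ 2 ≤ (s - -c₁ / N) ^ 2 := by nlinarith
      gcongr
    · refine Real.sqrt_le_sqrt (sub_le_sub_left ?_ _)
      rw [key, key, mul_pow, mul_pow, mul_pow, mul_pow]
      rw [Set.mem_Ici] at hs ht
      have : (s - -c₁ / N) ^ 2 ≤ (t - -c₁ / N) ^ 2 := by nlinarith
      gcongr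
    · exact Real.sqrt_le_iff.2 ⟨hR, sub_le_self _ (sq_nonneg _)⟩
  have e3 : z.im * N * ∫ t in (0 : ℝ)..n, f t = π * R ^ 2 / 2 := by
    have h1 := intervalIntegral.smul_integral_comp_mul_add (a := 0) (b := n)
      (fun u : ℝ => √(R ^ 2 - u ^ 2)) (z.im * N) (z.im * c₁)
    rw [half_disc hR (by nlinarith) (by nlinarith)] at h1
    rw [← h1, smul_eq_mul]
    congr 2
    funext t
    simp only [f]
    congr 3
    ring
  have e4 : π * R ^ 2 / (z.im * N ^ 2) = 2 / N * ∫ t in (0 : ℝ)..n, f t := by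
    rw [show π * R ^ 2 = 2 * (π * R ^ 2 / 2) by ring, ← e3]
    field_simp
  have e5 : |2 / N * (∑ i ∈ range n, f i) - 2 / N * ∫ t in (0 : ℝ)..n, f t| ≤ 2 * R := by
    rw [← mul_sub, abs_mul, abs_of_pos (by positivity)]
    exact mul_le_mul (div_le_self zero_le_two hN1) e2 (abs_nonneg _) zero_le_two
  rw [e4]
  push_cast
  rw [abs_le] at e1 e5 ⊢
  constructor <;> linarith [e1.1, e1.2, e5.1, e5.2]

end MR
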