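import Pool.Agent.P.MP_79de8b_nt.Ms

/-! The archimedean transform and the diagonal value of the kernel. -/

open Complex UpperHalfPlane MeasureTheory Finset Filter Topology
open scoped Real MatrixGroups ComplexConjugate

namespace MR

namespace Osc

theorem norm_int_le {α : Type*} [MeasurableSpace α] (μ : Measure α) {s : Set α}
    (hs : MeasurableSet s) {V B : ℝ} (hV : μ s ≤ ENNReal.ofReal V) (hV0 : 0 ≤ V) (hB : 0 ≤ B)
    {f : α → ℂ} (h : ∀ᵐ a ∂μ, f a ≠ 0 → a ∈ s ∧ ‖f a‖ ≤ B) : ‖∫ a, f a ∂μ‖ ≤ V * B := by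
  have hfin : μ s ≠ ⊤ := ne_top_of_le_ne_top ENNReal.ofReal_ne_top hV
  have h1 : Integrable (s.indicator fun _ => B) μ :=
    (integrable_indicator_iff hs).2 (integrableOn_const hfin)
  refine (norm_integral_le_of_norm_le h1 (h.mono fun a ha => ?_)).trans ?_
  · by_cases h0 : f a = 0
    · rw [h0, norm_zero]
      exact Set.indicator_nonneg (fun _ _ => hB) a
    · rw [Set.indicator_of_mem (ha h0).1]
      exact (ha h0).2
  · rw [integral_indicator_const _ hs, smul_eq_mul]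
    exact mul_le_mul_of_nonneg_right (ENNReal.toReal_le_of_le_ofReal hV0 hV) hB

theorem JJ_eq (θ : ℂ → ℝ → ℂ) (X : ℝ) : JJ θ X = ∫ z : HH, θ z.1 z.2.im * (ex (-z.2.re) *
    conj (ph θ (-X / (z.1 + z.2.re)) (-X / (z.2.re + z.2.im * Complex.I)))) := by
  unfold JJ
  rw [integral_shear fun z₁ z₂ => ph θ z₁ z₂ * conj (ph θ (-X / z₁) (-X / z₂))]
  refine integral_congr_ae (Eventually.of_forall fun z => ?_)
  have e : ((z.2.re : ℂ) + z.2.im * Complex.I) = z.2 := Complex.re_add_im _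
  simp only
  rw [e, ph, UpperHalfPlane.coe_re, UpperHalfPlane.coe_im, add_sub_cancel_right]
  ring

theorem inner {A η₁ η₂ E : ℝ} {θ : ℂ → ℝ → ℂ} (hθ : Prof A η₁ η₂ θ) (w : ℂ) (g : ℝ → ℝ → ℂ)
    (hE : 0 ≤ E) (hg : ∀ y, θ w y ≠ 0 → ‖∫ ξ, g ξ y‖ ≤ E) :
    ‖∫ z : ℍ, θ w z.im * g z.re z.im‖ ≤ 6 * (A / η₂ * E) := by
  have h2 := hθ.pos
  have hA := hθ.nn
  rw [integral_H_R]
  by_cases hi : Integrable (fun p : ℝ × ℝ => ((1 / p.2 ^ 2 : ℝ) : ℂ) *
      (θ w (pnt p.1 p.2).im * g (pnt p.1 p.2).re (pnt p.1 p.2).im))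
      (volume.prod (volume.restrict (Set.Ioi 0)))
  swap
  · rw [integral_undef hi, norm_zero]
    positivity
  rw [integral_prod_symm _ hi]
  have hV : volume.restrict (Set.Ioi (0 : ℝ)) (Set.Icc (η₂ / 2) (2 * η₂)) ≤
      ENNReal.ofReal (3 / 2 * η₂) := by
    refine (Measure.restrict_apply_le _ _).trans (le_of_eq ?_)
    rw [Real.volume_Icc]
    congr 1
    ring
  refine (norm_int_le _ measurableSet_Icc hV (by positivity) (B := 4 / η₂ ^ 2 * (A * E))
    (by positivity) ((ae_restrict_mem measurableSet_Ioi).mono fun y hy h0 => ?_)).trans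
    (le_of_eq (by field_simp; ring))
  simp only [pnt_re _ hy, pnt_im _ hy] at h0 ⊢
  rw [integral_const_mul, integral_const_mul] at h0 ⊢
  have h3 : θ w y ≠ 0 := left_ne_zero_of_mul (right_ne_zero_of_mul h0)
  obtain ⟨-, -, -, h4, h5⟩ := hθ.supp w y h3
  refine ⟨⟨h4, h5⟩, ?_⟩
  rw [norm_mul, norm_mul, Complex.norm_real, Real.norm_of_nonneg (by positivity)]
  refine mul_le_mul ?_ (mul_le_mul (hθ.bd w y) (hg y h3) (norm_nonneg _) hA) (by positivity)
    (by positivity)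
  rw [div_le_div_iff₀ (by have : 0 < y := hy; positivity) (by positivity)]
  nlinarith

theorem kl_chi (hKL : S_KL) {N₀ c : ℕ} (χ : DirichletCharacter ℂ N₀) (m : ℕ) (hc : 0 < c)
    (h : N₀ ∣ c) : ‖kl (fun t => χ (t : ZMod N₀)) m m c‖ ≤
      N₀ * (4 * tau c * Real.sqrt (c * (m.gcd c : ℕ))) := by
  have h0 : 0 < N₀ := Nat.pos_of_dvd_of_pos h hc
  have e : kl (fun t => χ (t : ZMod N₀)) m m c =
      ∑ ρ ∈ range N₀, χ (ρ : ZMod N₀) * kl (cls ρ N₀) m m c := by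
    simp only [kl, mul_sum, ← mul_assoc]
    rw [sum_comm]
    refine sum_congr rfl fun t _ => ?_
    rw [← sum_mul, sum_eq_single (t % N₀)]
    · rw [cls, if_pos (Nat.mod_modEq t N₀).symm, ZMod.natCast_mod, mul_one]
    · intro ρ h1 h2
      rw [cls, if_neg, mul_zero]
      intro h3
      exact h2 ((Nat.mod_eq_of_lt (mem_range.1 h1)).symm.trans h3.symm)
    · intro h1
      exact absurd (mem_range.2 (Nat.mod_lt t h0)) h1
  rw [e]
  refine (norm_sum_le _ _).trans ((sum_le_card_nsmul _ _ _ fun ρ _ => ?_).trans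
    (by rw [card_range, nsmul_eq_mul]))
  have := hKL c N₀ ρ m m hc h
  rw [Int.gcd_self, Int.natAbs_natCast] at this
  rw [norm_mul]
  exact (mul_le_of_le_one_left (norm_nonneg _) (χ.norm_le_one _)).trans this

theorem term {k J : ℂ} {m c a g E : ℝ} (hm : 0 < m) (hc : 0 < c) (ha : 0 ≤ a) (hE : 0 ≤ E)
    (hk : ‖k‖ ≤ a * Real.sqrt (c * g)) (hJ : ‖J‖ ≤ E * (m * m / c ^ 2) ^ (1 / 4 : ℝ)) :
    ‖k / c * (J / (Real.sqrt (m * m / c ^ 2) : ℝ))‖ ≤ a * Real.sqrt g * E / Real.sqrt m := by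
  obtain ⟨s, hs, rfl⟩ : ∃ s : ℝ, 0 < s ∧ c = s ^ 2 :=
    ⟨√c, Real.sqrt_pos.2 hc, (Real.sq_sqrt hc.le).symm⟩
  obtain ⟨r, hr, rfl⟩ : ∃ r : ℝ, 0 < r ∧ m = r ^ 2 :=
    ⟨√m, Real.sqrt_pos.2 hm, (Real.sq_sqrt hm.le).symm⟩
  have e1 : (r ^ 2 * r ^ 2 / (s ^ 2) ^ 2) ^ (1 / 4 : ℝ) = r / s := by
    rw [show r ^ 2 * r ^ 2 / (s ^ 2) ^ 2 = (r / s) ^ 4 by field_simp, one_div]
    exact_mod_cast Real.pow_rpow_inv_natCast (n := 4) (by positivity : 0 ≤ r / s) (by norm_num)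
  have e2 : Real.sqrt (r ^ 2 * r ^ 2 / (s ^ 2) ^ 2) = r ^ 2 / s ^ 2 := by
    rw [show r ^ 2 * r ^ 2 / (s ^ 2) ^ 2 = (r ^ 2 / s ^ 2) ^ 2 by field_simp,
      Real.sqrt_sq (by positivity)]
  rw [Real.sqrt_mul (by positivity), Real.sqrt_sq hs.le] at hk
  rw [e1] at hJ
  rw [e2, Real.sqrt_sq hr.le, norm_mul, norm_div, norm_div, Complex.norm_real, Complex.norm_real,
    Real.norm_of_nonneg (by positivity), Real.norm_of_nonneg (by positivity)]
  calc _ ≤ a * (s * √g) / s ^ 2 * (E * (r / s) / (r ^ 2 / s ^ 2)) := by gcongr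
    _ = _ := by field_simp

end Osc

theorem osc (h0 : S_Osc0) : S_Osc := by
  obtain ⟨C, hC, h0⟩ := h0
  refine ⟨36 * C, by positivity, fun A η₁ η₂ θ hθ X hX => ?_⟩
  have h2 := hθ.pos
  have h1 : 0 < η₁ := h2.trans_le hθ.le
  have hA := hθ.nn
  rw [Osc.JJ_eq]
  refine ⟨fun h => integral_eq_zero_of_ae (Eventually.of_forall fun z => ?_), ?_⟩
  · by_cases h3 : θ z.1 z.2.im = 0
    · simp [h3]
    · have := (h0 A η₁ η₂ θ hθ X z.1 z.2.im hX h3).1 h z.2.re
      simp only [this, map_zero, mul_zero, Pi.zero_apply]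
  by_cases hi : Integrable (fun z : HH => θ z.1 z.2.im * (ex (-z.2.re) *
    conj (ph θ (-X / (z.1 + z.2.re)) (-X / (z.2.re + z.2.im * Complex.I))))) (volume.prod volume)
  swap
  · rw [Measure.volume_eq_prod, integral_undef hi, norm_zero]
    positivity
  rw [Measure.volume_eq_prod, integral_prod _ hi]
  have hm : MeasurableSet {z : ℍ | -(2 * η₁) ≤ z.re ∧ z.re ≤ 2 * η₁ ∧ η₁ / 2 ≤ z.im ∧
      z.im ≤ 2 * η₁} := by
    have a1 : Measurable fun z : ℍ => z.re := measurable_fst.comp me_reim.measurable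
    have a2 : Measurable fun z : ℍ => z.im := measurable_snd.comp me_reim.measurable
    exact (measurableSet_le measurable_const a1).inter ((measurableSet_le a1 measurable_const).inter
      ((measurableSet_le measurable_const a2).inter (measurableSet_le a2 measurable_const)))
  have hV : volume {z : ℍ | -(2 * η₁) ≤ z.re ∧ z.re ≤ 2 * η₁ ∧ η₁ / 2 ≤ z.im ∧
      z.im ≤ 2 * η₁} ≤ ENNReal.ofReal 6 := by
    rw [volume_box (by positivity) (by linarith), ← ENNReal.ofReal_mul (by linarith)]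
    refine le_of_eq (congrArg _ ?_)
    field_simp
    ring
  refine (Osc.norm_int_le _ hm hV (by norm_num)
    (B := 6 * (A / η₂ * (C * A * X ^ (1 / 4 : ℝ) * Real.sqrt (1 + η₂)))) (by positivity)
    (Eventually.of_forall fun w hw => ⟨?_, ?_⟩)).trans (le_of_eq (by ring))
  · by_contra h3
    refine hw (integral_eq_zero_of_ae (Eventually.of_forall fun z => ?_))
    have : θ w z.im = 0 := by
      by_contra h4
      obtain ⟨a1, a2, a3, -⟩ := hθ.supp _ _ h4
      exact h3 ⟨(abs_le.1 a3).1, (abs_le.1 a3).2, a1, a2⟩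
    simp [this]
  · exact Osc.inner hθ w (fun ξ y => ex (-ξ) * conj (ph θ (-X / (w + ξ))
      (-X / (ξ + y * Complex.I)))) (by positivity)
      fun y hy => (h0 A η₁ η₂ θ hθ X w y hX hy).2.2

theorem bd (hA1 : S_A1) (hKL : S_KL) (hPt : S_Pt) (hOsc : S_Osc) : S_Bd := by
  obtain ⟨C, hC, hOsc⟩ := hOsc
  refine ⟨9 + 16 * C, by positivity, fun A η₁ η₂ θ hθ M N₀ χ m hM hN hm => ?_⟩
  have h2 := hθ.pos
  have h1 : 0 < η₁ := h2.trans_le hθ.le
  have hm0 : (0 : ℝ) < m := by exact_mod_cast hm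
  have hN0 : (1 : ℝ) ≤ N₀ := by exact_mod_cast Nat.pos_of_dvd_of_pos hN hM
  set Y := ⌊4 * (m : ℝ) / η₁⌋₊ with hY
  set E := C * (A ^ 2 / η₂) * Real.sqrt (1 + η₂) with hE
  have hE0 : 0 ≤ E := by positivity
  have a1 : ‖(DD θ : ℂ)‖ ≤ 9 * (A ^ 2 / η₂) := by
    have : 0 ≤ DD θ := integral_nonneg fun z => by positivity
    rw [Complex.norm_real, Real.norm_of_nonneg this, ← mul_div_assoc]
    exact (hPt A η₁ η₂ θ hθ).2.1
  have a2 : ‖∑' c : ℕ, if 0 < c ∧ M ∣ c then kl (fun t => χ (t : ZMod N₀)) m m c / c *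
      jj θ ((m : ℝ) * m / (c : ℝ) ^ 2) else 0‖ ≤
      N₀ * 4 * E / √m * (tau m ^ 2 * Y * (1 + Real.log Y)) := by
    rw [tsum_eq_sum (s := Icc 1 Y) fun c hc => ?_]
    · refine (norm_sum_le _ _).trans (le_trans ?_ (mul_le_mul_of_nonneg_left
        (hA1.2.2.2.2.2 m Y hm) (by positivity)))
      rw [mul_sum]
      refine sum_le_sum fun c _ => ?_
      have t0 := tau_nonneg c
      split_ifs with h
      · have hc0 : (0 : ℝ) < c := by exact_mod_cast h.1
        have := Osc.term (a := N₀ * (4 * tau c)) hm0 hc0 (by positivity) hE0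
          ((Osc.kl_chi hKL χ m h.1 (hN.trans h.2)).trans (le_of_eq (mul_assoc _ _ _).symm))
          ((hOsc A η₁ η₂ θ hθ _ (by positivity)).2.trans (le_of_eq (mul_right_comm _ _ _)))
        exact this.trans (le_of_eq (by ring))
      · rw [norm_zero]
        positivity
    · split_ifs with h
      · have hc0 : (0 : ℝ) < c := by exact_mod_cast h.1
        have h3 : 4 * (m : ℝ) / η₁ < c :=
          Nat.lt_of_floor_lt (not_le.1 fun h4 => hc (mem_Icc.2 ⟨h.1, h4⟩))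
        rw [div_lt_iff₀ h1] at h3
        rw [jj, (hOsc A η₁ η₂ θ hθ _ (by positivity)).1, zero_div, mul_zero]
        rw [div_lt_div_iff₀ (by positivity) (by norm_num)]
        nlinarith
      · rfl
  have a3 : (Y : ℝ) ≤ 4 * m / η₁ := Nat.floor_le (by positivity)
  have a4 : 0 ≤ Real.log (1 + 4 * m / η₁) := Real.log_nonneg (le_add_of_nonneg_right (by positivity))
  have a5 : Real.log Y ≤ Real.log (1 + 4 * m / η₁) := by
    rcases Nat.eq_zero_or_pos Y with h | h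
    · rw [h, Nat.cast_zero, Real.log_zero]
      exact a4
    · exact Real.log_le_log (by exact_mod_cast h) (by linarith)
  have a6 := Real.log_natCast_nonneg Y
  have a7 : 1 ≤ tau m ^ 2 := one_le_pow₀ (one_le_tau hm)
  have a8 : 1 ≤ √(1 + η₂) := Real.one_le_sqrt.2 (by linarith)
  have a9 : 0 < √(m : ℝ) := Real.sqrt_pos.2 hm0
  set L := 1 + Real.log (1 + 4 * m / η₁) with hL
  have b0 : 1 ≤ L := by linarith
  have b1 : N₀ * 4 * E / √m * (tau m ^ 2 * Y * (1 + Real.log Y)) ≤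
      16 * C * (N₀ * (A ^ 2 / η₂) * √(1 + η₂) * tau m ^ 2 * L * (1 + √m / η₁)) := by
    calc _ ≤ N₀ * 4 * E / √m * (tau m ^ 2 * (4 * (√m * √m) / η₁) * L) := by
          rw [Real.mul_self_sqrt hm0.le]
          gcongr
          linarith
      _ = 16 * C * (N₀ * (A ^ 2 / η₂) * √(1 + η₂) * tau m ^ 2 * L * (√m / η₁)) := by
          rw [hE]; field_simp; ring
      _ ≤ _ := by gcongr; linarith
  have b2 : A ^ 2 / η₂ ≤ N₀ * (A ^ 2 / η₂) * √(1 + η₂) * tau m ^ 2 * L * (1 + √m / η₁) := by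
    calc A ^ 2 / η₂ = 1 * (A ^ 2 / η₂) * 1 * 1 * 1 * 1 := by ring
      _ ≤ _ := by
          gcongr
          exact le_add_of_nonneg_right (by positivity)
  rw [Bn, if_pos rfl]
  refine (norm_add_le _ _).trans ?_
  linarith

end MR
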