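import Pool.Agent.P.MP_79de8b_nt.Basic

/-! Elementary upper bounds for a weight with a Rankin-Selberg bound. -/

open Finset
open scoped Real

noncomputable section
namespace MR

namespace S0

variable {γ : ℕ → ℝ} {c K : ℝ}

lemma ww_nonneg (t : ℝ) : 0 ≤ ww t := by unfold ww; positivity

lemma gle (h : Wt γ c K) (n : ℕ) : γ n ≤ K := by
  have hK := h.K1
  rcases Nat.eq_zero_or_pos n with rfl | hn
  · rw [h.zero]; linarith
  · have h1 : (n : ℝ) ^ (-(2 / 5 : ℝ)) ≤ 1 :=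
      Real.rpow_le_one_of_one_le_of_nonpos (by exact_mod_cast hn) (by norm_num)
    calc γ n ≤ K * (n : ℝ) ^ (-(2 / 5 : ℝ)) := h.pw n hn
      _ ≤ K * 1 := by gcongr
      _ = K := mul_one K

lemma summ (h : Wt γ c K) {η : ℝ} (hη : 0 < η) : Summable fun n : ℕ => γ n * ww (n * η) := by
  have h1 := (Real.summable_pow_mul_exp_neg_nat_mul 2 (r := 4 * π * η) (by positivity)).mul_left
    (K * η ^ 2)
  refine Summable.of_nonneg_of_le (fun n => mul_nonneg (h.nn n) (ww_nonneg _)) (fun n => ?_) h1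
  calc γ n * ww (n * η) ≤ K * ww (n * η) := mul_le_mul_of_nonneg_right (gle h n) (ww_nonneg _)
    _ = _ := by
      unfold ww
      rw [show -(4 * π * (n * η)) = -(4 * π * η) * n by ring]
      ring

lemma IP_true (γ : ℕ → ℝ) (η : ℝ) :
    IP γ (fun _ => True) η = ∑' n : ℕ, γ n * ww (n * η) := by
  simp [IP]

lemma part1 (h : Wt γ c K) (P : ℕ → Prop) {η : ℝ} (hη : 0 < η) :
    Summable (Set.indicator {n | P n} fun n : ℕ => γ n * ww (n * η)) ∧
    0 ≤ IP γ P η ∧ IP γ P η ≤ K := by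
  have h0 : ∀ n : ℕ, 0 ≤ γ n * ww (n * η) := fun n => mul_nonneg (h.nn n) (ww_nonneg _)
  have h1 := (summ h hη).indicator {n | P n}
  refine ⟨h1, tsum_nonneg fun n => Set.indicator_nonneg (fun n _ => h0 n) n, ?_⟩
  refine le_trans ?_ (h.bd η hη)
  rw [IP_true]
  exact h1.tsum_le_tsum (fun n => Set.indicator_le_self' (fun n _ => h0 n) n) (summ h hη)

/-- dyadic blocks -/
lemma dy (h : Wt γ c K) (X : ℕ) :
    ∑ n ∈ Ioc X (2 * X), γ n ≤ 4 * Real.exp (4 * π) * K := by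
  have hK := h.K1
  rcases Nat.eq_zero_or_pos X with rfl | hX
  · simp only [mul_zero, Ioc_self, sum_empty]; positivity
  have hX' : (0 : ℝ) < X := by exact_mod_cast hX
  have hη : (0 : ℝ) < 1 / (2 * X) := by positivity
  have h1 := h.bd _ hη
  rw [IP_true] at h1
  have h2 := ((summ h hη).sum_le_tsum (Ioc X (2 * X))
    fun n _ => mul_nonneg (h.nn n) (ww_nonneg _)).trans h1
  refine le_trans ?_ (mul_le_mul_of_nonneg_left h2 (by positivity))
  rw [mul_sum]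
  refine sum_le_sum fun n hn => ?_
  obtain ⟨h3, h4⟩ := mem_Ioc.1 hn
  have h3' : (X : ℝ) ≤ n := by exact_mod_cast h3.le
  have h4' : (n : ℝ) ≤ 2 * X := by exact_mod_cast h4
  have h5 : 1 / 2 ≤ (n : ℝ) * (1 / (2 * X)) := by
    rw [mul_one_div, le_div_iff₀ (by positivity)]; linarith
  have h6 : (n : ℝ) * (1 / (2 * X)) ≤ 1 := by
    rw [mul_one_div, div_le_iff₀ (by positivity)]; linarith
  set t := (n : ℝ) * (1 / (2 * X))
  have h7 : 1 ≤ Real.exp (4 * π) * Real.exp (-(4 * π * t)) := by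
    rw [← Real.exp_add]
    exact Real.one_le_exp (by nlinarith [Real.pi_pos])
  have h8 : 1 ≤ 4 * t ^ 2 := by nlinarith
  have h9 : 1 ≤ 4 * Real.exp (4 * π) * ww t := by
    unfold ww
    calc (1 : ℝ) = 1 * 1 := (mul_one 1).symm
      _ ≤ (4 * t ^ 2) * (Real.exp (4 * π) * Real.exp (-(4 * π * t))) :=
        mul_le_mul h8 h7 zero_le_one (by positivity)
      _ = _ := by ring
  have := mul_le_mul_of_nonneg_left h9 (h.nn n)
  linarith

/-- weighted dyadic summation -/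
lemma dyw (h : Wt γ c K) {s : ℝ} (hs : 0 ≤ s) (J : ℕ) :
    ∑ n ∈ Icc 1 (2 ^ J), γ n * (n : ℝ) ^ (-s) ≤
      1 + 4 * Real.exp (4 * π) * K * ∑ j ∈ range J, ((2 : ℝ) ^ (-s)) ^ j := by
  induction J with
  | zero => simp [h.one]
  | succ J ih =>
    have h1 : 1 ≤ 2 ^ J := Nat.one_le_two_pow
    have e : Icc 1 (2 ^ (J + 1)) = Icc 1 (2 ^ J) ∪ Ioc (2 ^ J) (2 * 2 ^ J) := by
      ext n; simp only [mem_union, mem_Icc, mem_Ioc, pow_succ]; omega
    have d : Disjoint (Icc 1 (2 ^ J)) (Ioc (2 ^ J) (2 * 2 ^ J)) := by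
      rw [disjoint_left]; intro n; simp only [mem_Icc, mem_Ioc]; omega
    rw [e, sum_union d, sum_range_succ, mul_add, ← add_assoc]
    refine add_le_add ih ?_
    have h2 : ((2 : ℝ) ^ (-s)) ^ J = ((2 ^ J : ℕ) : ℝ) ^ (-s) := by
      rw [Nat.cast_pow, Nat.cast_ofNat, Real.rpow_pow_comm (by norm_num)]
    refine le_trans ?_ (mul_le_mul_of_nonneg_right (dy h (2 ^ J)) (by positivity))
    rw [sum_mul, h2]
    refine sum_le_sum fun n hn => mul_le_mul_of_nonneg_left ?_ (h.nn n)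
    exact Real.rpow_le_rpow_of_nonpos (by positivity)
      (by exact_mod_cast (mem_Ioc.1 hn).1.le) (by linarith)

lemma part3 (h : Wt γ c K) (X : ℕ) :
    ∑ n ∈ Icc 1 X, γ n ≤ (1 + 2 * (4 * Real.exp (4 * π) * K)) * (1 + Real.log X) := by
  have hK := h.K1
  set D := 4 * Real.exp (4 * π) * K with hD
  have hD0 : 0 ≤ D := by positivity
  have hl : 0 ≤ Real.log X := Real.log_natCast_nonneg X
  rcases Nat.eq_zero_or_pos X with rfl | hX
  · simp only [Icc_eq_empty_of_lt zero_lt_one, sum_empty]; positivity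
  have h1 := dyw h le_rfl (Nat.log 2 X + 1)
  simp only [neg_zero, Real.rpow_zero, mul_one, one_pow, sum_const, card_range, nsmul_eq_mul,
    Nat.cast_add, Nat.cast_one] at h1
  have h2 : ∑ n ∈ Icc 1 X, γ n ≤ ∑ n ∈ Icc 1 (2 ^ (Nat.log 2 X + 1)), γ n :=
    sum_le_sum_of_subset_of_nonneg
      (Icc_subset_Icc_right (Nat.lt_pow_succ_log_self (by norm_num) X).le) fun n _ _ => h.nn n
  have h3 : (Nat.log 2 X : ℝ) * Real.log 2 ≤ Real.log X := by
    rw [← Real.log_pow]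
    refine Real.log_le_log (by positivity) ?_
    exact_mod_cast Nat.pow_log_le_self 2 hX.ne'
  have h4 : (Nat.log 2 X : ℝ) ≤ 2 * Real.log X := by
    have := Real.log_two_gt_d9
    have h0 : (0 : ℝ) ≤ Nat.log 2 X := Nat.cast_nonneg _
    nlinarith
  have h5 := mul_le_mul_of_nonneg_left h4 hD0
  rw [← hD] at h1
  nlinarith

lemma dirichlet (h : Wt γ c K) {s : ℝ} (hs : 0 < s) (hs1 : s ≤ 1) (t : Finset ℕ) :
    ∑ n ∈ t, γ n * (n : ℝ) ^ (-s) ≤ 1 + 4 * (4 * Real.exp (4 * π) * K) / s := by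
  have hK := h.K1
  set J := t.sup id
  have h0 : ∀ n : ℕ, 0 ≤ γ n * (n : ℝ) ^ (-s) := fun n => mul_nonneg (h.nn n) (by positivity)
  have h1 : ∑ n ∈ t, γ n * (n : ℝ) ^ (-s) ≤
      ∑ n ∈ insert 0 (Icc 1 (2 ^ J)), γ n * (n : ℝ) ^ (-s) := by
    refine sum_le_sum_of_subset_of_nonneg (fun n hn => ?_) fun n _ _ => h0 n
    have h2 : n ≤ J := le_sup (f := id) hn
    have h3 : J < 2 ^ J := Nat.lt_two_pow_self
    simp only [mem_insert, mem_Icc]; omega
  rw [sum_insert (by simp), h.zero, zero_mul, zero_add] at h1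
  refine h1.trans ((dyw h hs.le J).trans ?_)
  have h2 := Real.log_two_gt_d9
  have h2' := Real.log_two_lt_d9
  have h3 : (2 : ℝ) ^ (-s) ≤ 1 - s / 4 := by
    rw [Real.rpow_def_of_pos (by norm_num), mul_neg, Real.exp_neg, inv_le_comm₀ (by positivity)
      (by linarith), inv_le_iff_one_le_mul₀ (by linarith)]
    have h4 := Real.add_one_le_exp (Real.log 2 * s)
    have h5 : s / 2 + 1 ≤ Real.exp (Real.log 2 * s) := by nlinarith
    have h6 := mul_le_mul_of_nonneg_right h5 (show 0 ≤ 1 - s / 4 by linarith)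
    nlinarith
  have h4 : (0 : ℝ) ≤ (2 : ℝ) ^ (-s) := by positivity
  have h5 : ∑ j ∈ range J, ((2 : ℝ) ^ (-s)) ^ j ≤ 4 / s := by
    have h6 : (2 : ℝ) ^ (-s) < 1 := by linarith
    refine ((summable_geometric_of_lt_one h4 h6).sum_le_tsum _ fun j _ => by positivity).trans ?_
    rw [tsum_geometric_of_lt_one h4 h6, inv_le_comm₀ (by linarith) (by positivity), inv_div]
    linarith
  have h6 := mul_le_mul_of_nonneg_left h5 (show 0 ≤ 4 * Real.exp (4 * π) * K by positivity)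
  have e : 4 * Real.exp (4 * π) * K * (4 / s) = 4 * (4 * Real.exp (4 * π) * K) / s := by ring
  linarith

lemma r0_lt : (2 : ℝ) ^ (-(2 / 5 : ℝ)) < 1 :=
  Real.rpow_lt_one_of_one_lt_of_neg (by norm_num) (by norm_num)

lemma r_le {p : ℕ} (hp : 2 ≤ p) : (p : ℝ) ^ (-(2 / 5 : ℝ)) ≤ (2 : ℝ) ^ (-(2 / 5 : ℝ)) :=
  Real.rpow_le_rpow_of_nonpos (by norm_num) (by exact_mod_cast hp) (by norm_num)

lemma pw_le (h : Wt γ c K) {p : ℕ} (hp : 2 ≤ p) (k : ℕ) :
    γ (p ^ k) ≤ K * ((p : ℝ) ^ (-(2 / 5 : ℝ))) ^ k := by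
  have := h.pw (p ^ k) (Nat.one_le_pow _ _ (by omega))
  rwa [Nat.cast_pow, ← Real.rpow_pow_comm (by positivity)] at this

lemma loc_summ (h : Wt γ c K) {p : ℕ} (hp : 2 ≤ p) : Summable fun k => γ (p ^ k) :=
  Summable.of_nonneg_of_le (fun _ => h.nn _) (pw_le h hp)
    ((summable_geometric_of_lt_one (by positivity) ((r_le hp).trans_lt r0_lt)).mul_left K)

lemma tail (h : Wt γ c K) {p : ℕ} (hp : 2 ≤ p) (j : ℕ) :
    Gloc γ p ≤ ∑ k ∈ range j, γ (p ^ k) +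
      K / (1 - (2 : ℝ) ^ (-(2 / 5 : ℝ))) * ((p : ℝ) ^ (-(2 / 5 : ℝ))) ^ j := by
  have hK := h.K1
  unfold Gloc
  rw [← (loc_summ h hp).sum_add_tsum_nat_add j]
  refine add_le_add le_rfl ?_
  set r := (p : ℝ) ^ (-(2 / 5 : ℝ)) with hr
  have r0 : 0 ≤ r := by positivity
  have r1 : r ≤ (2 : ℝ) ^ (-(2 / 5 : ℝ)) := r_le hp
  have r2 := r0_lt
  have r3 : r < 1 := r1.trans_lt r2
  have h1 := (hasSum_geometric_of_lt_one r0 r3).mul_left (K * r ^ j)
  have h2 : ∑' k, γ (p ^ (k + j)) ≤ K * r ^ j * (1 - r)⁻¹ := by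
    refine hasSum_le (fun k => ?_) ((summable_nat_add_iff (f := fun k => γ (p ^ k)) j).2
      (loc_summ h hp)).hasSum h1
    refine (pw_le h hp (k + j)).trans (le_of_eq ?_)
    rw [← hr]; ring
  refine h2.trans ?_
  rw [div_mul_eq_mul_div, div_eq_mul_inv (K * r ^ j)]
  exact mul_le_mul_of_nonneg_left (inv_anti₀ (by linarith) (by linarith)) (by positivity)

lemma one_le_loc (h : Wt γ c K) {p : ℕ} (hp : 2 ≤ p) : 1 ≤ Gloc γ p := by
  have := (loc_summ h hp).sum_le_tsum (range 1) fun k _ => h.nn _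
  simpa [h.one, Gloc] using this

/-- comparison of the local factors at `0` and at `s` -/
lemma loc_cmp (h : Wt γ c K) {p : ℕ} (hp : 2 ≤ p) {s : ℝ} (hs : 0 ≤ s)
    (hps : Real.log p * s ≤ 1 / 2) :
    Gloc γ p ≤ (∑' k, γ (p ^ k) * ((p ^ k : ℕ) : ℝ) ^ (-s)) ^ 3 *
      Real.exp (K / (1 - (2 : ℝ) ^ (-(2 / 5 : ℝ))) * (p : ℝ) ^ (-(6 / 5 : ℝ))) := by
  have hK := h.K1
  have r2 := r0_lt
  have hp0 : (0 : ℝ) < p := by exact_mod_cast (by omega : 0 < p)
  have h1 := tail h hp 3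
  have e : ((p : ℝ) ^ (-(2 / 5 : ℝ))) ^ 3 = (p : ℝ) ^ (-(6 / 5 : ℝ)) := by
    rw [← Real.rpow_natCast, ← Real.rpow_mul hp0.le]; norm_num
  rw [e] at h1
  have hA : 0 ≤ K / (1 - (2 : ℝ) ^ (-(2 / 5 : ℝ))) * (p : ℝ) ^ (-(6 / 5 : ℝ)) :=
    mul_nonneg (div_nonneg (by linarith) (by linarith)) (by positivity)
  set T := K / (1 - (2 : ℝ) ^ (-(2 / 5 : ℝ))) * (p : ℝ) ^ (-(6 / 5 : ℝ))
  have hle : ∀ k, ((p ^ k : ℕ) : ℝ) ^ (-s) ≤ 1 := fun k =>
    Real.rpow_le_one_of_one_le_of_nonpos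
      (by exact_mod_cast Nat.one_le_pow _ _ (by omega)) (by linarith)
  have hsm : Summable fun k => γ (p ^ k) * ((p ^ k : ℕ) : ℝ) ^ (-s) :=
    Summable.of_nonneg_of_le (fun k => mul_nonneg (h.nn _) (by positivity))
      (fun k => mul_le_of_le_one_right (h.nn _) (hle k)) (loc_summ h hp)
  have h2 := hsm.sum_le_tsum (range 3) fun k _ => mul_nonneg (h.nn _) (by positivity)
  set F := ∑' k, γ (p ^ k) * ((p ^ k : ℕ) : ℝ) ^ (-s)
  have hlow : ∀ k : ℕ, k ≤ 2 → 1 / 3 ≤ ((p ^ k : ℕ) : ℝ) ^ (-s) := fun k hk => by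
    rw [Nat.cast_pow, Real.rpow_def_of_pos (by positivity), Real.log_pow]
    have hk' : (k : ℝ) ≤ 2 := by exact_mod_cast hk
    have hl : 0 ≤ Real.log p * s := mul_nonneg (Real.log_natCast_nonneg p) hs
    have h3 : Real.exp (-1) ≤ Real.exp (k * Real.log p * -s) :=
      Real.exp_le_exp.2 (by nlinarith)
    have h4 := Real.exp_neg_one_gt_d9
    linarith
  simp only [sum_range_succ, range_zero, sum_empty, zero_add, pow_zero, h.one, Nat.cast_one,
    Real.one_rpow, mul_one] at h1 h2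
  have a1 := mul_le_mul_of_nonneg_left (hlow 1 (by norm_num)) (h.nn (p ^ 1))
  have a2 := mul_le_mul_of_nonneg_left (hlow 2 le_rfl) (h.nn (p ^ 2))
  have n1 := h.nn (p ^ 1)
  have n2 := h.nn (p ^ 2)
  set x := (γ (p ^ 1) + γ (p ^ 2)) / 3 with hx
  have x0 : 0 ≤ x := by positivity
  have h5 : 1 + x ≤ F := by linarith
  have h6 : 1 + 3 * x ≤ F ^ 3 := by
    calc 1 + 3 * x ≤ (1 + x) ^ 3 := by nlinarith [mul_nonneg x0 x0, pow_nonneg x0 3]
      _ ≤ F ^ 3 := by gcongr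
  have h7 := Real.add_one_le_exp T
  calc Gloc γ p ≤ (1 + 3 * x) * (T + 1) := by nlinarith [mul_nonneg x0 hA]
    _ ≤ _ := mul_le_mul h6 h7 (by linarith) (by linarith)

lemma part5 (h : Wt γ c K) {P : ℝ} (t : Finset ℕ) (hP : 3 ≤ P)
    (ht : ∀ n ∈ t, 0 < n ∧ ∀ p, p.Prime → p ∣ n → (p : ℝ) ≤ P) :
    ∑ n ∈ t, γ n ≤ (9 * (4 * Real.exp (4 * π) * K)) ^ 3 *
      Real.exp (K / (1 - (2 : ℝ) ^ (-(2 / 5 : ℝ))) * ∑' n : ℕ, (n : ℝ) ^ (-(6 / 5 : ℝ))) *
      Real.log P ^ 3 := by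
  classical
  have hK := h.K1
  have r2 := r0_lt
  set A := K / (1 - (2 : ℝ) ^ (-(2 / 5 : ℝ))) with hA
  have hA0 : 0 ≤ A := div_nonneg (by linarith) (by linarith)
  set D := 4 * Real.exp (4 * π) * K with hD
  have hD1 : 1 ≤ D := by
    have := Real.one_le_exp (show 0 ≤ 4 * π by positivity)
    nlinarith
  have hl : 1 ≤ Real.log P := by
    rw [Real.le_log_iff_exp_le (by linarith)]
    linarith [Real.exp_one_lt_d9]
  set s := 1 / (2 * Real.log P) with hs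
  have s0 : 0 < s := by positivity
  have s1 : s ≤ 1 := by rw [hs, div_le_one (by positivity)]; linarith
  set S := (range (⌊P⌋₊ + 1)).filter Nat.Prime with hS
  have hSp : ∀ p ∈ S, 2 ≤ p ∧ (p : ℝ) ≤ P := fun p hp => by
    obtain ⟨h1, h2⟩ := mem_filter.1 hp
    exact ⟨h2.two_le, (Nat.le_floor_iff (by linarith)).1 (Nat.lt_succ_iff.1 (mem_range.1 h1))⟩
  have E1 := (EulerProduct.summable_and_hasSum_factoredNumbers_prod_filter_prime_tsum
    (f := γ) h.one (fun {m n} hmn => h.mul m n hmn) (fun {p} hp => by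
      simpa only [Real.norm_of_nonneg (h.nn _)] using loc_summ h hp.two_le)
    (range (⌊P⌋₊ + 1))).2
  have f0 : ∀ n : ℕ, 0 ≤ γ n * (n : ℝ) ^ (-s) := fun n => mul_nonneg (h.nn _) (by positivity)
  have E2 := (EulerProduct.summable_and_hasSum_factoredNumbers_prod_filter_prime_tsum
    (f := fun n : ℕ => γ n * (n : ℝ) ^ (-s)) (by simp [h.one]) (fun {m n} hmn => by
      rw [h.mul m n hmn, Nat.cast_mul, Real.mul_rpow (by positivity) (by positivity)]; ring)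
    (fun {p} hp => by
      simp only [Real.norm_of_nonneg (f0 _)]
      refine Summable.of_nonneg_of_le (fun k => f0 _)
        (fun k => mul_le_of_le_one_right (h.nn _) ?_) (loc_summ h hp.two_le)
      exact Real.rpow_le_one_of_one_le_of_nonpos
        (by exact_mod_cast Nat.one_le_pow _ _ hp.pos) (by linarith))
    (range (⌊P⌋₊ + 1))).2
  rw [← hS] at E1 E2
  have B1 : ∑ n ∈ t, γ n ≤ ∏ p ∈ S, Gloc γ p := by
    have h1 := sum_le_hasSum (t.subtype (· ∈ Nat.factoredNumbers (range (⌊P⌋₊ + 1))))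
      (fun n _ => h.nn _) E1
    rw [sum_subtype_of_mem] at h1
    · exact h1
    · intro n hn
      obtain ⟨h2, h3⟩ := ht n hn
      refine Nat.mem_factoredNumbers'.2 fun p hp hpn => ?_
      exact mem_range.2 (Nat.lt_succ_iff.2 (Nat.le_floor (h3 p hp hpn)))
  have B2 : ∏ p ∈ S, ∑' k, γ (p ^ k) * ((p ^ k : ℕ) : ℝ) ^ (-s) ≤ 9 * D * Real.log P := by
    refine hasSum_le_of_sum_le E2 fun u => ?_
    have h1 := dirichlet h s0 s1 (u.map (Function.Embedding.subtype _))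
    rw [sum_map, ← hD] at h1
    refine h1.trans ?_
    have e : 4 * D / s = 8 * (D * Real.log P) := by rw [hs]; field_simp; ring
    rw [e]
    nlinarith
  have B3 : ∑ p ∈ S, A * (p : ℝ) ^ (-(6 / 5 : ℝ)) ≤ A * ∑' n : ℕ, (n : ℝ) ^ (-(6 / 5 : ℝ)) := by
    rw [← mul_sum]
    exact mul_le_mul_of_nonneg_left ((Real.summable_nat_rpow.2 (by norm_num)).sum_le_tsum _
      fun n _ => by positivity) hA0
  have B4 : ∏ p ∈ S, Gloc γ p ≤ ∏ p ∈ S, ((∑' k, γ (p ^ k) * ((p ^ k : ℕ) : ℝ) ^ (-s)) ^ 3 *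
      Real.exp (A * (p : ℝ) ^ (-(6 / 5 : ℝ)))) := by
    refine prod_le_prod (fun p hp => zero_le_one.trans (one_le_loc h (hSp p hp).1)) fun p hp => ?_
    refine loc_cmp h (hSp p hp).1 s0.le ?_
    have h1 : Real.log p ≤ Real.log P :=
      Real.log_le_log (by exact_mod_cast (by have := (hSp p hp).1; omega : 0 < p)) (hSp p hp).2
    rw [hs, mul_one_div, div_le_iff₀ (by positivity)]
    linarith
  rw [prod_mul_distrib, prod_pow, ← Real.exp_sum] at B4
  have B5 : 0 ≤ ∏ p ∈ S, ∑' k, γ (p ^ k) * ((p ^ k : ℕ) : ℝ) ^ (-s) :=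
    prod_nonneg fun p _ => tsum_nonneg fun k => f0 _
  calc ∑ n ∈ t, γ n ≤ _ := B1.trans B4
    _ ≤ (9 * D * Real.log P) ^ 3 * Real.exp (A * ∑' n : ℕ, (n : ℝ) ^ (-(6 / 5 : ℝ))) := by
      gcongr
    _ = _ := by ring

end S0

open S0

theorem s0 : S_S0 := by
  intro c K
  by_cases hK : 1 ≤ K
  swap
  · exact ⟨1, le_rfl, fun γ h => absurd h.K1 hK⟩
  have r2 := r0_lt
  obtain ⟨A, hA⟩ : ∃ A, A = K / (1 - (2 : ℝ) ^ (-(2 / 5 : ℝ))) := ⟨_, rfl⟩
  obtain ⟨D, hD⟩ : ∃ D, D = 4 * Real.exp (4 * π) * K := ⟨_, rfl⟩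
  obtain ⟨E, hE⟩ : ∃ E, E = (9 * D) ^ 3 *
    Real.exp (A * ∑' n : ℕ, (n : ℝ) ^ (-(6 / 5 : ℝ))) := ⟨_, rfl⟩
  have hA0 : 0 ≤ A := hA ▸ div_nonneg (by linarith) (by linarith)
  have hD0 : 0 ≤ D := by rw [hD]; positivity
  have hE0 : 0 ≤ E := by rw [hE]; positivity
  refine ⟨1 + 2 * D + A + E, by linarith, fun γ h => ⟨fun P η hη => part1 h P hη, fun X => ?_,
    fun X => ?_, fun p hp => ⟨loc_summ h hp, one_le_loc h hp, ?_⟩, fun P t hP ht => ?_⟩⟩
  · have := dy h X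
    rw [← hD] at this
    linarith
  · have := part3 h X
    rw [← hD] at this
    have hl : 0 ≤ Real.log X := Real.log_natCast_nonneg X
    exact this.trans (mul_le_mul_of_nonneg_right (by linarith) (by linarith))
  · have := tail h hp 1
    rw [← hA, sum_range_one, pow_zero, h.one, pow_one] at this
    exact this.trans (add_le_add le_rfl (mul_le_mul_of_nonneg_right (by linarith) (by positivity)))
  · have := part5 h t hP ht
    rw [← hA, ← hD, ← hE] at this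
    have hl : 0 ≤ Real.log P := Real.log_nonneg (by linarith)
    exact this.trans (mul_le_mul_of_nonneg_right (by linarith) (by positivity))

end MR
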